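import Mathlib

/-!
# Project GF (MP_bd362b_an): definitions for the monomialization part

Everything lives at the origin of `Fin n → ℝ`.  `Mon g α`: `g` is (near `0`) a monomial times a
nowhere vanishing analytic function.  `Res g F`: there is an analytic map `φ` (germ at `0`) and a
section `s` of `φ` along the filter `F` with `s → 0` along `F` such that `g ∘ φ` is monomial.
(The filter is an ultrafilter in all applications; this valuation style definition avoids all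
compactness arguments in the induction.)
-/

open Filter Topology

namespace Pool.Agent.helper62.GF

/-- `g` is a monomial times an analytic unit near the origin. -/
def Mon {n : ℕ} (g : (Fin n → ℝ) → ℝ) (α : Fin n → ℕ) : Prop :=
  ∃ ε : (Fin n → ℝ) → ℝ, AnalyticAt ℝ ε 0 ∧ ε 0 ≠ 0 ∧
    ∀ᶠ x in 𝓝 (0 : Fin n → ℝ), g x = (∏ i, x i ^ α i) * ε x

/-- `g` can be made monomial along the filter `F`. -/
def Res {n : ℕ} (g : (Fin n → ℝ) → ℝ) (F : Filter (Fin n → ℝ)) : Prop :=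
  ∃ (φ s : (Fin n → ℝ) → (Fin n → ℝ)) (α : Fin n → ℕ),
    AnalyticAt ℝ φ 0 ∧ Tendsto s F (𝓝 0) ∧ (∀ᶠ x in F, φ (s x) = x) ∧ Mon (g ∘ φ) α

/-- Monomialization in dimension `n`. -/
def MonoAt (n : ℕ) : Prop :=
  ∀ g : (Fin n → ℝ) → ℝ, AnalyticAt ℝ g 0 → (¬ ∀ᶠ x in 𝓝 (0 : Fin n → ℝ), g x = 0) →
    ∀ 𝒰 : Ultrafilter (Fin n → ℝ), (𝒰 : Filter (Fin n → ℝ)) ≤ 𝓝 0 → Res g 𝒰

/-- The induction statement: functions `a(x') * Q(t, x')` with `Q` of order `≤ d` in `t`. -/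
def StepS (n d : ℕ) : Prop :=
  ∀ (a : (Fin n → ℝ) → ℝ) (Q : (Fin (n + 1) → ℝ) → ℝ), AnalyticAt ℝ a 0 →
    (¬ ∀ᶠ x in 𝓝 (0 : Fin n → ℝ), a x = 0) → AnalyticAt ℝ Q 0 →
    analyticOrderAt (fun t : ℝ => Q (Fin.cons t (0 : Fin n → ℝ))) 0 ≤ (d : ℕ∞) →
    ∀ 𝒰 : Ultrafilter (Fin (n + 1) → ℝ), (𝒰 : Filter (Fin (n + 1) → ℝ)) ≤ 𝓝 0 →
      Res (fun x => a (Fin.tail x) * Q x) 𝒰

end Pool.Agent.helper62.GF
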