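import Pool.Agent.helper62.GF.GDefs

/-!
# GF-G01: the local model at a point of the manifold

`e = extChartAt (𝓡 n) p`, `x₀ = e p`, target open, source open.  For `x ∈ e.target`, `y = e.symm x`:
`D x = mfderiv 𝓘(ℝ, EE n) (𝓡 n) e.symm x : EE n →L T_y M` (or `(trivializationAt (EE n) (TangentSpace (𝓡 n)) p).symmL ℝ y`, or
`tangentCoordChange (𝓡 n) p y y`; these agree, see `Mathlib/Geometry/Manifold/…/Tangent…`,
`mfderiv_chartAt_eq_tangentCoordChange`, `TangentBundle.symmL_trivializationAt`), an isomorphism with inverse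
`mfderiv e y` (`= tangentCoordChange (𝓡 n) y p y`).
`G x a b = g.inner y (D x a) (D x b)`, `V x = -(mfderiv e y (X y))` for `x ∈ e.target`.
 - analytic `F`: `contMDiffAt`/`ContMDiffOn` of `f ∘ e.symm` on `e.target` (`contMDiffOn_extChartAt_symm`), then
   `ContDiffAt ℝ ω` gives `AnalyticAt`.
 - `G` is `C¹` (even analytic) at `x₀`: `g.contMDiff` at `p`, `contMDiffAt_section` (for the bundle of bilinear forms; its
   trivialization at `p` is `inCoordinates`/`hom_trivializationAt_apply` in terms of the tangent trivialization),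
   composed with `e.symm`.
 - `symm`, `pos`: from `g.symm`, `g.pos` and injectivity of `D x₀` (at the centre `D x₀ = id`, which also gives the
   formula for `G (ctr n p)`).
 - `eq`: `G x (V x) w = g (-(X y)) (D x w) = -(mfderiv f y (D x w)) = -(fderiv (f ∘ e.symm) x w)` (chain rule).
 - last clause: the proof of `IsMIntegralCurveOn.hasDerivWithinAt` works for every base point `p`.
-/

open Filter Topology Set MeasureTheory Bundle
open scoped Manifold ContDiff

namespace Pool.Agent.helper62.GF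

variable {n : ℕ} {M : Type*} [TopologicalSpace M] [ChartedSpace (EE n) M] [IsManifold (𝓡 n) ω M]

omit [IsManifold (𝓡 n) ω M] in
theorem G01_target_nhds {p : M} {x : EE n} (hx : x ∈ (extChartAt (𝓡 n) p).target) :
    (extChartAt (𝓡 n) p).target ∈ 𝓝 x :=
  (isOpen_extChartAt_target p).mem_nhds hx

theorem G01_symm {p : M} {x : EE n} (hx : x ∈ (extChartAt (𝓡 n) p).target) :
    ContMDiffAt 𝓘(ℝ, EE n) (𝓡 n) ω (extChartAt (𝓡 n) p).symm x :=
  (contMDiffOn_extChartAt_symm p x hx).contMDiffAt (G01_target_nhds hx)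

omit [IsManifold (𝓡 n) ω M] in
theorem G01_ctr (p : M) : ctr n p ∈ (extChartAt (𝓡 n) p).target := mem_extChartAt_target p

theorem G01_F (f : M → ℝ) (hf : ContMDiff (𝓡 n) 𝓘(ℝ, ℝ) ω f) {p : M} {x : EE n}
    (hx : x ∈ (extChartAt (𝓡 n) p).target) : AnalyticAt ℝ (locF n f p) x := by
  have h1 : ContMDiffAt 𝓘(ℝ, EE n) 𝓘(ℝ, ℝ) ω (locF n f p) x :=
    (hf _).comp x (G01_symm hx)
  rw [contMDiffAt_iff_contDiffAt] at h1
  exact h1.analyticAt

theorem G01_base {p : M} {y : M} (hy : y ∈ (extChartAt (𝓡 n) p).source) :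
    y ∈ (trivializationAt (EE n) (TangentSpace (𝓡 n)) p).baseSet := by
  rw [TangentBundle.trivializationAt_baseSet, ← extChartAt_source (𝓡 n)]
  exact hy

theorem G01_G (g : RMetric n M) (p : M) :
    ∃ G : EE n → (EE n →L[ℝ] EE n →L[ℝ] ℝ),
      ContDiffAt ℝ 1 G (ctr n p) ∧
      ∀ x ∈ (extChartAt (𝓡 n) p).target, ∀ a b : EE n,
        G x a b = g.inner ((extChartAt (𝓡 n) p).symm x)
          ((trivializationAt (EE n) (TangentSpace (𝓡 n)) p).symmL ℝ ((extChartAt (𝓡 n) p).symm x) a)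
          ((trivializationAt (EE n) (TangentSpace (𝓡 n)) p).symmL ℝ ((extChartAt (𝓡 n) p).symm x) b) := by
  have h1 := g.contMDiff p
  rw [contMDiffAt_hom_bundle] at h1
  have h2 := h1.2
  have h3 := G01_symm (M := M) (G01_ctr (n := n) p)
  have h5 : (extChartAt (𝓡 n) p).symm (ctr n p) = p := extChartAt_to_inv p
  refine ⟨fun x => ContinuousLinearMap.inCoordinates (EE n) (TangentSpace (𝓡 n))
    (EE n →L[ℝ] ℝ) (fun b : M => TangentSpace (𝓡 n) b →L[ℝ] Bundle.Trivial M ℝ b) p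
    ((extChartAt (𝓡 n) p).symm x) p ((extChartAt (𝓡 n) p).symm x)
    (g.inner ((extChartAt (𝓡 n) p).symm x)), ?_, ?_⟩
  · have h4 := ContMDiffAt.comp_of_eq (I := 𝓘(ℝ, EE n)) (x := ctr n p) (y := p)
      (f := (extChartAt (𝓡 n) p).symm) h2 h3 h5
    have h6 := contMDiffAt_iff_contDiffAt.1 h4
    exact h6.of_le le_top
  · intro x hx a b
    have hy := G01_base ((extChartAt (𝓡 n) p).map_target hx)
    rw [inCoordinates_apply_eq₂ hy hy (by simp), Trivialization.symmL_apply _ hy,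
      Trivialization.symmL_apply _ hy]
    simp

set_option backward.isDefEq.respectTransparency false in
theorem G01_chain (f : M → ℝ) (hf : ContMDiff (𝓡 n) 𝓘(ℝ, ℝ) ω f) {p y : M}
    (hy : y ∈ (extChartAt (𝓡 n) p).source) (w : EE n) :
    fderiv ℝ (locF n f p) (extChartAt (𝓡 n) p y) w = mfderiv (𝓡 n) 𝓘(ℝ, ℝ) f y
      ((trivializationAt (EE n) (TangentSpace (𝓡 n)) p).symmL ℝ y w) := by
  have hx : extChartAt (𝓡 n) p y ∈ (extChartAt (𝓡 n) p).target := (extChartAt (𝓡 n) p).map_source hy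
  have hi : (extChartAt (𝓡 n) p).symm (extChartAt (𝓡 n) p y) = y := (extChartAt (𝓡 n) p).left_inv hy
  have h2 : HasMFDerivAt 𝓘(ℝ, EE n) (𝓡 n) (extChartAt (𝓡 n) p).symm (extChartAt (𝓡 n) p y)
      (mfderiv 𝓘(ℝ, EE n) (𝓡 n) (extChartAt (𝓡 n) p).symm (extChartAt (𝓡 n) p y)) :=
    ((G01_symm hx).mdifferentiableAt (by simp)).hasMFDerivAt
  have h3 : ∀ z, HasMFDerivAt (𝓡 n) 𝓘(ℝ, ℝ) f z (mfderiv (𝓡 n) 𝓘(ℝ, ℝ) f z) := fun z =>
    ((hf z).mdifferentiableAt (by simp)).hasMFDerivAt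
  have h4 := (h3 _).comp _ h2
  have h5 := (hasMFDerivAt_iff_hasFDerivAt.1 h4).fderiv
  have h6 : fderiv ℝ (locF n f p) (extChartAt (𝓡 n) p y) =
    fderiv ℝ (f ∘ (extChartAt (𝓡 n) p).symm) (extChartAt (𝓡 n) p y) := rfl
  have hyc : y ∈ (chartAt (EE n) p).source := by rwa [← extChartAt_source (𝓡 n)]
  have h7 := TangentBundle.symmL_trivializationAt (𝕜 := ℝ) (I := 𝓡 n) hyc
  rw [modelWithCornersSelf_coe, range_id, mfderivWithin_univ] at h7
  have h8 : fderiv ℝ (locF n f p) (extChartAt (𝓡 n) p y) w =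
      mfderiv (𝓡 n) 𝓘(ℝ, ℝ) f ((extChartAt (𝓡 n) p).symm (extChartAt (𝓡 n) p y))
        (mfderiv 𝓘(ℝ, EE n) (𝓡 n) (extChartAt (𝓡 n) p).symm (extChartAt (𝓡 n) p y) w) := by
    rw [h6, h5]
    rfl
  rw [h8, h7, hi]
  rfl

theorem G01_symmL_self (p : M) (a : EE n) :
    ((trivializationAt (EE n) (TangentSpace (𝓡 n)) p).symmL ℝ p a : EE n) = a := by
  rw [TangentBundle.symmL_trivializationAt_eq_core (mem_chart_source _ p)]
  exact tangentCoordChange_self (I := 𝓡 n) (mem_extChartAt_source p)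

set_option backward.isDefEq.respectTransparency false in
theorem G01_curve (X : (x : M) → TangentSpace (𝓡 n) x) (p : M) {γ : ℝ → M} {s : Set ℝ}
    (hγ : IsMIntegralCurveOn γ (fun x => -(X x)) s) {t : ℝ} (ht : t ∈ s)
    (hsrc : γ t ∈ (extChartAt (𝓡 n) p).source) :
    HasDerivWithinAt (fun t => extChartAt (𝓡 n) p (γ t))
      (-((trivializationAt (EE n) (TangentSpace (𝓡 n)) p).continuousLinearMapAt ℝ (γ t) (X (γ t)) : EE n))
      s t := by
  have hyc : γ t ∈ (chartAt (EE n) p).source := by rwa [← extChartAt_source (𝓡 n)]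
  rw [hasDerivWithinAt_iff_hasFDerivWithinAt, ← hasMFDerivWithinAt_iff_hasFDerivWithinAt]
  have h1 : HasMFDerivAt (𝓡 n) 𝓘(ℝ, EE n) (extChartAt (𝓡 n) p) (γ t)
    (mfderiv (𝓡 n) 𝓘(ℝ, EE n) (extChartAt (𝓡 n) p) (γ t)) :=
    (mdifferentiableAt_extChartAt hyc).hasMFDerivAt
  have h2 := h1.comp_hasMFDerivWithinAt t (hγ t ht)
  refine h2.congr_mfderiv ?_
  rw [← TangentBundle.continuousLinearMapAt_trivializationAt hyc]
  ext1
  simp
  exact (one_smul ℝ (-((trivializationAt (EE n) (TangentSpace (𝓡 n)) p).continuousLinearMapAt ℝ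
    (γ t) (X (γ t)) : EE n))).symm

theorem local_model (g : RMetric n M) (f : M → ℝ) (hf : ContMDiff (𝓡 n) 𝓘(ℝ, ℝ) ω f)
    (X : (x : M) → TangentSpace (𝓡 n) x) (hX : IsGrad g f X) (p : M) :
    ∃ (G : EE n → (EE n →L[ℝ] EE n →L[ℝ] ℝ)) (V : EE n → EE n),
      LocalData (locF n f p) G V (ctr n p) ∧
      (∀ a b : EE n, G (ctr n p) a b = g.inner p a b) ∧
      ∀ (γ : ℝ → M) (s : Set ℝ), IsMIntegralCurveOn γ (fun x => -(X x)) s → ∀ t ∈ s,
        γ t ∈ (extChartAt (𝓡 n) p).source →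
        HasDerivWithinAt (fun t => extChartAt (𝓡 n) p (γ t)) (V (extChartAt (𝓡 n) p (γ t))) s t := by
  obtain ⟨G, hG1, hG2⟩ := G01_G g p
  let W : M → EE n := fun y =>
    (trivializationAt (EE n) (TangentSpace (𝓡 n)) p).continuousLinearMapAt ℝ y (X y)
  refine ⟨G, fun x => -(W ((extChartAt (𝓡 n) p).symm x)), ⟨G01_F f hf (G01_ctr p), hG1, ?_, ?_, ?_⟩,
    ?_, ?_⟩
  · filter_upwards [G01_target_nhds (G01_ctr p)] with x hx u v
    rw [hG2 x hx, hG2 x hx, g.symm]
  · intro u hu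
    rw [hG2 _ (G01_ctr p)]
    apply g.pos
    intro h0
    apply hu
    have h1 := (trivializationAt (EE n) (TangentSpace (𝓡 n)) p).continuousLinearMapAt_symmL (R := ℝ)
      (G01_base ((extChartAt (𝓡 n) p).map_target (G01_ctr p))) u
    rw [h0, map_zero] at h1
    exact h1.symm
  · filter_upwards [G01_target_nhds (G01_ctr p)] with x hx w
    obtain ⟨y, hy, rfl⟩ : ∃ y ∈ (extChartAt (𝓡 n) p).source, x = extChartAt (𝓡 n) p y :=
      ⟨(extChartAt (𝓡 n) p).symm x, (extChartAt (𝓡 n) p).map_target hx,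
        ((extChartAt (𝓡 n) p).right_inv hx).symm⟩
    rw [hG2 _ hx, G01_chain f hf hy, (extChartAt (𝓡 n) p).left_inv hy]
    have h1 : (trivializationAt (EE n) (TangentSpace (𝓡 n)) p).symmL ℝ y (-(W y)) = -(X y) := by
      rw [map_neg]
      congr 1
      exact (trivializationAt (EE n) (TangentSpace (𝓡 n)) p).symmL_continuousLinearMapAt
        (G01_base hy) _
    rw [h1, map_neg, neg_apply, hX]
  · intro a b
    rw [hG2 _ (G01_ctr p)]
    have h1 : (extChartAt (𝓡 n) p).symm (ctr n p) = p := extChartAt_to_inv p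
    rw [h1]
    have h2 : (trivializationAt (EE n) (TangentSpace (𝓡 n)) p).symmL ℝ p a = a := G01_symmL_self p a
    have h3 : (trivializationAt (EE n) (TangentSpace (𝓡 n)) p).symmL ℝ p b = b := G01_symmL_self p b
    rw [h2, h3]
  · intro γ s hγ t ht hsrc
    show HasDerivWithinAt (fun t => extChartAt (𝓡 n) p (γ t))
      (-(W ((extChartAt (𝓡 n) p).symm (extChartAt (𝓡 n) p (γ t))))) s t
    rw [(extChartAt (𝓡 n) p).left_inv hsrc]
    exact G01_curve X p hγ ht hsrc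

end Pool.Agent.helper62.GF
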