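import Pool.Agent.helper62.GF.GDefs

/-!
# GF-G02: null sets on the manifold

`nullM_iUnion`: `e '' (e.source ∩ ⋃ S i) = ⋃ e '' (e.source ∩ S i)`.
`nullM_of_local`: by second countability (Lindelof) countably many of the sets `U_x` cover `S`.
`nullM_of_chart`: for a chart `e` of the maximal atlas, `e '' (e.source ∩ S)` is the image of
`(extChartAt p) '' (e.source ∩ S)` (a subset of the given null set) under the transition map
`e ∘ (extChartAt p).symm`, which is analytic, in particular differentiable, on the open set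
`(extChartAt p) '' (source ∩ e.source)`; images of null sets under differentiable maps are null:
`MeasureTheory.addHaar_image_eq_zero_of_differentiableOn_of_addHaar_eq_zero`.
`nullM_chart`: `extChartAt p` comes from `chartAt p`, which belongs to the maximal atlas.
`nullM_singleton`: `n ≥ 1`, points of `EE n` are null.
-/

open Filter Topology Set MeasureTheory Bundle
open scoped Manifold ContDiff

namespace Pool.Agent.helper62.GF

variable {n : ℕ} {M : Type*} [TopologicalSpace M] [ChartedSpace (EE n) M] [IsManifold (𝓡 n) ω M]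

omit [IsManifold (𝓡 n) ω M] in
theorem nullM_mono {S T : Set M} (h : S ⊆ T) (hT : NullM (n := n) T) : NullM (n := n) S := by
  intro e he
  exact measure_mono_null (image_mono (inter_subset_inter_right _ h)) (hT e he)

omit [IsManifold (𝓡 n) ω M] in
theorem nullM_iUnion {ι : Type*} [Countable ι] {S : ι → Set M} (h : ∀ i, NullM (n := n) (S i)) :
    NullM (n := n) (⋃ i, S i) := by
  intro e he
  rw [inter_iUnion, image_iUnion]
  exact measure_iUnion_null fun i => h i e he

omit [IsManifold (𝓡 n) ω M] in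
theorem nullM_union {S T : Set M} (hS : NullM (n := n) S) (hT : NullM (n := n) T) :
    NullM (n := n) (S ∪ T) := by
  intro e he
  rw [inter_union_distrib_left, image_union]
  exact measure_union_null (hS e he) (hT e he)

theorem nullM_of_chart (p : M) (S : Set M) (hS : S ⊆ (extChartAt (𝓡 n) p).source)
    (h : volume ((extChartAt (𝓡 n) p) '' S) = 0) : NullM (n := n) S := by
  intro e he
  have hc : chartAt (EE n) p ∈ IsManifold.maximalAtlas (𝓡 n) ω M :=
    IsManifold.chart_mem_maximalAtlas p
  have hsrc : S ⊆ (chartAt (EE n) p).source := by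
    rwa [extChartAt_source] at hS
  have hcoe : (extChartAt (𝓡 n) p : M → EE n) = chartAt (EE n) p := by
    ext1 x
    simp only [mfld_simps]
  rw [hcoe] at h
  have h1 : ContMDiffOn (𝓡 n) (𝓡 n) ω e e.source := contMDiffOn_of_mem_maximalAtlas he
  have h2 : ContMDiffOn (𝓡 n) (𝓡 n) ω (chartAt (EE n) p).symm (chartAt (EE n) p).target :=
    contMDiffOn_symm_of_mem_maximalAtlas hc
  have h3 : ContMDiffOn (𝓡 n) (𝓡 n) ω (e ∘ (chartAt (EE n) p).symm)
      ((chartAt (EE n) p).target ∩ (chartAt (EE n) p).symm ⁻¹' e.source) :=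
    ContMDiffOn.comp h1 (h2.mono inter_subset_left) inter_subset_right
  have h4 : ContDiffOn ℝ ω (e ∘ (chartAt (EE n) p).symm)
      ((chartAt (EE n) p).target ∩ (chartAt (EE n) p).symm ⁻¹' e.source) :=
    contMDiffOn_iff_contDiffOn.1 h3
  have h5 : DifferentiableOn ℝ (e ∘ (chartAt (EE n) p).symm)
      ((chartAt (EE n) p).target ∩ (chartAt (EE n) p).symm ⁻¹' e.source) :=
    h4.differentiableOn (by simp)
  have h6 : chartAt (EE n) p '' (e.source ∩ S) ⊆
      (chartAt (EE n) p).target ∩ (chartAt (EE n) p).symm ⁻¹' e.source := by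
    rintro _ ⟨x, ⟨hx, hxS⟩, rfl⟩
    refine ⟨(chartAt (EE n) p).map_source (hsrc hxS), ?_⟩
    rw [mem_preimage, (chartAt (EE n) p).left_inv (hsrc hxS)]
    exact hx
  have h7 : e '' (e.source ∩ S) =
      (e ∘ (chartAt (EE n) p).symm) '' (chartAt (EE n) p '' (e.source ∩ S)) := by
    rw [image_image]
    apply image_congr
    rintro x ⟨_, hxS⟩
    rw [Function.comp_apply, (chartAt (EE n) p).left_inv (hsrc hxS)]
  rw [h7]
  exact MeasureTheory.addHaar_image_eq_zero_of_differentiableOn_of_addHaar_eq_zero volume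
    (h5.mono h6) (measure_mono_null (image_mono inter_subset_right) h)

theorem nullM_chart (p : M) (S : Set M) (h : NullM (n := n) S) :
    volume ((extChartAt (𝓡 n) p) '' ((extChartAt (𝓡 n) p).source ∩ S)) = 0 := by
  have h1 := h (chartAt (EE n) p) (IsManifold.chart_mem_maximalAtlas p)
  have hcoe : (extChartAt (𝓡 n) p : M → EE n) = chartAt (EE n) p := by
    ext1 x
    simp only [mfld_simps]
  rw [extChartAt_source, hcoe]
  exact h1

omit [IsManifold (𝓡 n) ω M] in
theorem nullM_of_local [SecondCountableTopology M] (S : Set M)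
    (h : ∀ x ∈ S, ∃ U ∈ 𝓝 x, NullM (n := n) (U ∩ S)) : NullM (n := n) S := by
  choose! U hU hN using h
  obtain ⟨t, htS, htc, hts⟩ := TopologicalSpace.countable_cover_nhdsWithin
    (fun x hx => mem_nhdsWithin_of_mem_nhds (hU x hx) : ∀ x ∈ S, U x ∈ 𝓝[S] x)
  have : Countable t := htc
  refine nullM_mono (T := ⋃ x : t, U x ∩ S) ?_ (nullM_iUnion fun x => hN x (htS x.2))
  intro y hy
  obtain ⟨x, hx, hxy⟩ := mem_iUnion₂.1 (hts hy)
  rw [mem_iUnion]
  exact ⟨⟨x, hx⟩, hxy, hy⟩

omit [IsManifold (𝓡 n) ω M] in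
theorem nullM_singleton (hn : 1 ≤ n) (x : M) : NullM (n := n) ({x} : Set M) := by
  intro e _
  have : Nonempty (Fin n) := ⟨⟨0, hn⟩⟩
  have : Nontrivial (EE n) := by
    unfold EE
    infer_instance
  refine measure_mono_null (t := {e x}) ?_ (measure_singleton _)
  rintro _ ⟨y, ⟨_, hy⟩, rfl⟩
  rw [mem_singleton_iff] at hy
  rw [hy]
  rfl

end Pool.Agent.helper62.GF
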