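import Pool.Agent.helper62.GF.NDefs

/-!
# GF-N03: Taylor approximation by the leading form

`isBigO_of_iteratedFDeriv`: let `p` be the power series of `h` at `0`.  By
`HasFPowerSeriesOnBall.factorial_smul` (or `iteratedFDeriv_eq_sum`) `i! • p i (fun _ => y) = iteratedFDeriv ℝ i h 0 (fun _ => y) = 0`
for `i ≤ m`, so the partial sum vanishes and `HasFPowerSeriesAt.isBigO_sub_partialSum_pow` concludes.

`lead_*`: `M = iteratedFDeriv ℝ k F 0` is symmetric (`iteratedFDeriv_comp_perm` / `iteratedFDeriv_eq_sum`), `P = (1/k!) M (x,…,x)` is a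
homogeneous polynomial (smooth, even analytic), its derivatives of order `≠ k` at `0` vanish and the one
of order `k` is `M` (`HasFPowerSeriesOnBall.iteratedFDeriv_eq_sum` for the one-term series, or
`ContinuousMultilinearMap` API).  So `h = F - P` is analytic at `0` with vanishing derivatives of all orders
`≤ k`, and (`norm_iteratedFDeriv_fderiv`: `‖iteratedFDeriv i (fderiv h) 0‖ = ‖iteratedFDeriv (i+1) h 0‖`)
`isBigO_of_iteratedFDeriv` applies to `h`, `fderiv h` and `fderiv (fderiv h)`.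
Homogeneity: `lead (c x) = c^k lead x`; differentiate for `fderiv` and Euler's identity.
-/

open Filter Topology Set MeasureTheory

namespace Pool.Agent.helper62.GF

variable {n : ℕ}

theorem isBigO_of_iteratedFDeriv {E G : Type*} [NormedAddCommGroup E] [NormedSpace ℝ E]
    [NormedAddCommGroup G] [NormedSpace ℝ G] [CompleteSpace G] (h : E → G) (hh : AnalyticAt ℝ h 0) (m : ℕ)
    (h0 : ∀ i ≤ m, iteratedFDeriv ℝ i h 0 = 0) :
    ∃ C : ℝ, ∀ᶠ x in 𝓝 (0 : E), ‖h x‖ ≤ C * ‖x‖ ^ (m + 1) := by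
  obtain ⟨p, r, hp⟩ := hh
  have hO := HasFPowerSeriesAt.isBigO_sub_partialSum_pow (f := h) (p := p) (x := 0) ⟨r, hp⟩ (m + 1)
  have hps : ∀ y : E, p.partialSum (m + 1) y = 0 := by
    intro y
    unfold FormalMultilinearSeries.partialSum
    refine Finset.sum_eq_zero fun i hi => ?_
    have h1 := hp.factorial_smul y i
    rw [h0 i (by have := Finset.mem_range.1 hi; omega)] at h1
    have h2 : (i.factorial : ℕ) • p i (fun _ => y) = (0 : G) := by
      rw [h1]
      rfl
    rw [← Nat.cast_smul_eq_nsmul ℝ] at h2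
    exact (smul_eq_zero.1 h2).resolve_left (by exact_mod_cast Nat.factorial_ne_zero i)
  simp only [zero_add, hps, sub_zero] at hO
  obtain ⟨C, hC⟩ := hO.bound
  refine ⟨C, hC.mono fun x hx => ?_⟩
  simpa using hx

private theorem diag_analytic {E G : Type*} [NormedAddCommGroup E] [NormedSpace ℝ E]
    [NormedAddCommGroup G] [NormedSpace ℝ G] (k : ℕ)
    (M : ContinuousMultilinearMap ℝ (fun _ : Fin k => E) G) (x : E) :
    AnalyticAt ℝ (fun v : E => M (fun _ => v)) x := by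
  have h1 : AnalyticAt ℝ (fun m : Fin k → E => M m) (fun _ => x) := M.analyticAt
  have h2 : AnalyticAt ℝ (fun v : E => (fun _ : Fin k => v)) x :=
    (ContinuousLinearMap.pi (fun _ : Fin k => ContinuousLinearMap.id ℝ E)).analyticAt x
  exact AnalyticAt.comp (g := fun m : Fin k → E => M m) (f := fun v : E => (fun _ : Fin k => v)) h1 h2

theorem lead_analytic (k : ℕ) (F : EE n → ℝ) (x₀ : EE n) (x : EE n) :
    AnalyticAt ℝ (lead k F x₀) x := by
  unfold lead
  exact analyticAt_const.mul (diag_analytic k _ x)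

theorem lead_smul (k : ℕ) (F : EE n → ℝ) (x₀ : EE n) (c : ℝ) (v : EE n) :
    lead k F x₀ (c • v) = c ^ k * lead k F x₀ v := by
  unfold lead
  have h1 := (iteratedFDeriv ℝ k F x₀).map_smul_univ (fun _ => c) (fun _ => v)
  simp only [Finset.prod_const, Finset.card_univ, Fintype.card_fin, smul_eq_mul] at h1
  rw [h1]
  ring

private theorem lead_diff (k : ℕ) (F : EE n → ℝ) (x₀ : EE n) (x : EE n) :
    HasFDerivAt (lead k F x₀) (fderiv ℝ (lead k F x₀) x) x :=
  (lead_analytic k F x₀ x).differentiableAt.hasFDerivAt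

/-- Euler -/
theorem lead_euler (k : ℕ) (F : EE n → ℝ) (x₀ : EE n) (v : EE n) :
    fderiv ℝ (lead k F x₀) v v = k * lead k F x₀ v := by
  have h1 : HasDerivAt (fun t : ℝ => t • v) ((1 : ℝ) • v) 1 := (hasDerivAt_id (1 : ℝ)).smul_const v
  have h2 : HasFDerivAt (lead k F x₀) (fderiv ℝ (lead k F x₀) v) ((1 : ℝ) • v) := by
    rw [one_smul]
    exact lead_diff k F x₀ v
  have h3 := h2.comp_hasDerivAt (1 : ℝ) h1
  have h4 : (lead k F x₀ ∘ fun t : ℝ => t • v) = fun t : ℝ => t ^ k * lead k F x₀ v := by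
    funext t
    exact lead_smul k F x₀ t v
  rw [h4] at h3
  have h5 : HasDerivAt (fun t : ℝ => t ^ k * lead k F x₀ v)
      ((k : ℝ) * 1 ^ (k - 1) * lead k F x₀ v) 1 := (hasDerivAt_pow k 1).mul_const _
  have h6 := h3.unique h5
  rw [one_smul, one_pow, mul_one] at h6
  exact h6

/-- derivative of a homogeneous function -/
private theorem hom_fderiv {E G : Type*} [NormedAddCommGroup E] [NormedSpace ℝ E]
    [NormedAddCommGroup G] [NormedSpace ℝ G] (g : E → G) (hg : ContDiff ℝ 1 g) (j : ℕ)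
    (h : ∀ (c : ℝ) (v : E), g (c • v) = c ^ (j + 1) • g v) (c : ℝ) (v : E) :
    fderiv ℝ g (c • v) = c ^ j • fderiv ℝ g v := by
  have hne : ∀ c : ℝ, c ≠ 0 → fderiv ℝ g (c • v) = c ^ j • fderiv ℝ g v := by
    intro c hc
    have hd : ∀ x, HasFDerivAt g (fderiv ℝ g x) x := fun x =>
      (hg.differentiable one_ne_zero x).hasFDerivAt
    have h1 : HasFDerivAt (fun x : E => c • x) (c • ContinuousLinearMap.id ℝ E) v :=
      (hasFDerivAt_id v).const_smul c
    have h2 : HasFDerivAt (fun x : E => g (c • x))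
        ((fderiv ℝ g (c • v)).comp (c • ContinuousLinearMap.id ℝ E)) v := (hd (c • v)).comp v h1
    have h3 : HasFDerivAt (fun x : E => g (c • x)) (c ^ (j + 1) • fderiv ℝ g v) v := by
      simp only [h]
      exact (hd v).const_smul _
    have h4 := h2.unique h3
    have h5 : c • fderiv ℝ g (c • v) = c • (c ^ j • fderiv ℝ g v) := by
      rw [smul_smul, ← pow_succ', ← h4]
      ext w
      simp
    exact smul_right_injective _ hc h5
  by_cases hc : c = 0
  · subst hc
    have hcont : Continuous (fderiv ℝ g) := hg.continuous_fderiv one_ne_zero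
    have h1 : Tendsto (fun c : ℝ => fderiv ℝ g (c • v)) (𝓝[≠] 0) (𝓝 (fderiv ℝ g ((0 : ℝ) • v))) := by
      have h2 : Continuous fun c : ℝ => fderiv ℝ g (c • v) := hcont.comp (by fun_prop)
      exact (h2.tendsto 0).mono_left nhdsWithin_le_nhds
    have h2 : Tendsto (fun c : ℝ => c ^ j • fderiv ℝ g v) (𝓝[≠] 0)
        (𝓝 ((0 : ℝ) ^ j • fderiv ℝ g v)) := by
      have h3 : Continuous fun c : ℝ => c ^ j • fderiv ℝ g v := by fun_prop
      exact (h3.tendsto 0).mono_left nhdsWithin_le_nhds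
    refine tendsto_nhds_unique h1 (h2.congr' ?_)
    filter_upwards [self_mem_nhdsWithin] with t ht
    exact (hne t ht).symm
  · exact hne c hc

private theorem lead_contDiff (k : ℕ) (F : EE n → ℝ) (x₀ : EE n) (m : WithTop ℕ∞) :
    ContDiff ℝ m (lead k F x₀) :=
  contDiff_iff_contDiffAt.2 fun x => (lead_analytic k F x₀ x).contDiffAt

private theorem lead_fderiv_contDiff (k : ℕ) (F : EE n → ℝ) (x₀ : EE n) :
    ContDiff ℝ 1 (fderiv ℝ (lead k F x₀)) :=
  (lead_contDiff k F x₀ 2).fderiv_right (by norm_num)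

theorem fderiv_lead_smul (k : ℕ) (hk : 1 ≤ k) (F : EE n → ℝ) (x₀ : EE n) (c : ℝ) (v : EE n) :
    fderiv ℝ (lead k F x₀) (c • v) = c ^ (k - 1) • fderiv ℝ (lead k F x₀) v := by
  obtain ⟨j, rfl⟩ : ∃ j, k = j + 1 := ⟨k - 1, by omega⟩
  rw [Nat.add_sub_cancel]
  exact hom_fderiv _ (lead_contDiff _ F x₀ 1) j (fun c v => by
    rw [lead_smul, smul_eq_mul]) c v

theorem fderiv2_lead_smul (k : ℕ) (hk : 2 ≤ k) (F : EE n → ℝ) (x₀ : EE n) (c : ℝ) (v : EE n) :
    fderiv ℝ (fderiv ℝ (lead k F x₀)) (c • v) = c ^ (k - 2) • fderiv ℝ (fderiv ℝ (lead k F x₀)) v := by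
  obtain ⟨j, rfl⟩ : ∃ j, k = j + 2 := ⟨k - 2, by omega⟩
  rw [Nat.add_sub_cancel]
  exact hom_fderiv _ (lead_fderiv_contDiff _ F x₀) j (fun c v => by
    rw [fderiv_lead_smul _ (by omega)]
    rfl) c v

/-- the one-term power series of `lead` -/
private noncomputable def leadSeries (k : ℕ) (F : EE n → ℝ) : FormalMultilinearSeries ℝ (EE n) ℝ :=
  fun i => if h : i = k then ((k.factorial : ℕ) : ℝ)⁻¹ • (h ▸ iteratedFDeriv ℝ k F 0 :
    ContinuousMultilinearMap ℝ (fun _ : Fin i => EE n) ℝ) else 0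

private theorem leadSeries_self (k : ℕ) (F : EE n → ℝ) :
    leadSeries k F k = ((k.factorial : ℕ) : ℝ)⁻¹ • iteratedFDeriv ℝ k F 0 := by
  simp [leadSeries]

private theorem leadSeries_ne (k : ℕ) (F : EE n → ℝ) {i : ℕ} (h : i ≠ k) :
    leadSeries k F i = 0 := by
  simp [leadSeries, h]

private theorem lead_hasSeries (k : ℕ) (F : EE n → ℝ) :
    HasFPowerSeriesOnBall (lead k F 0) (leadSeries k F) 0 ⊤ where
  r_le := by
    rw [FormalMultilinearSeries.radius_eq_top_of_forall_image_add_eq_zero _ (k + 1)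
      fun m => leadSeries_ne k F (by omega)]
  r_pos := by simp
  hasSum := by
    intro y _
    rw [zero_add]
    have h1 : lead k F 0 y = leadSeries k F k (fun _ => y) := by
      rw [leadSeries_self]
      rfl
    rw [h1]
    refine hasSum_single k fun i hi => ?_
    rw [leadSeries_ne k F hi]
    rfl

private theorem iteratedFDeriv_lead_ne (k : ℕ) (F : EE n → ℝ) {i : ℕ} (h : i ≠ k) :
    iteratedFDeriv ℝ i (lead k F 0) 0 = 0 := by
  ext v
  rw [(lead_hasSeries k F).iteratedFDeriv_eq_sum_of_completeSpace, leadSeries_ne k F h]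
  simp

private theorem iteratedFDeriv_lead_self (k : ℕ) (F : EE n → ℝ) (hF : AnalyticAt ℝ F 0) :
    iteratedFDeriv ℝ k (lead k F 0) 0 = iteratedFDeriv ℝ k F 0 := by
  ext v
  rw [(lead_hasSeries k F).iteratedFDeriv_eq_sum_of_completeSpace, leadSeries_self]
  have h1 : ∀ σ : Equiv.Perm (Fin k), (((k.factorial : ℕ) : ℝ)⁻¹ • iteratedFDeriv ℝ k F 0)
      (fun i => v (σ i)) = ((k.factorial : ℕ) : ℝ)⁻¹ * iteratedFDeriv ℝ k F 0 v := by
    intro σ
    have h2 := (hF.contDiffAt (n := ⊤)).iteratedFDeriv_comp_perm v σ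
    rw [← h2]
    rfl
  simp only [h1]
  rw [Finset.sum_const, Finset.card_univ, Fintype.card_perm, Fintype.card_fin, nsmul_eq_mul,
    ← mul_assoc, mul_inv_cancel₀ (by exact_mod_cast Nat.factorial_ne_zero k), one_mul]

theorem lead_approx (k : ℕ) (F : EE n → ℝ) (hF : AnalyticAt ℝ F 0) (hF0 : F 0 = 0) (hk : HasOrd k F 0) :
    ∃ C : ℝ, 0 ≤ C ∧ ∀ᶠ x in 𝓝 (0 : EE n),
      |F x - lead k F 0 x| ≤ C * ‖x‖ ^ (k + 1) ∧
      ‖fderiv ℝ F x - fderiv ℝ (lead k F 0) x‖ ≤ C * ‖x‖ ^ k ∧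
      ‖fderiv ℝ (fderiv ℝ F) x - fderiv ℝ (fderiv ℝ (lead k F 0)) x‖ ≤ C * ‖x‖ ^ (k - 1) := by
  obtain ⟨hk2, hlow, -⟩ := hk
  have hP := lead_analytic k F 0 (0 : EE n)
  set h : EE n → ℝ := fun x => F x - lead k F 0 x with hh
  have hha : AnalyticAt ℝ h 0 := hF.sub hP
  have hzero : ∀ i ≤ k, iteratedFDeriv ℝ i h 0 = 0 := by
    intro i hi
    have hsub : iteratedFDeriv ℝ i h 0 = iteratedFDeriv ℝ i F 0 - iteratedFDeriv ℝ i (lead k F 0) 0 := by
      have h1 : ContDiffAt ℝ i F 0 := hF.contDiffAt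
      have h2 : ContDiffAt ℝ i (lead k F 0) 0 := hP.contDiffAt
      exact iteratedFDeriv_sub_apply h1 h2
    rcases Nat.lt_or_ge i k with h1 | h1
    · rw [hsub, iteratedFDeriv_lead_ne k F h1.ne, sub_zero]
      rcases Nat.eq_zero_or_pos i with h2 | h2
      · subst h2
        ext v
        rw [iteratedFDeriv_zero_apply, hF0]
        rfl
      · exact hlow i h2 h1
    · have h2 : i = k := le_antisymm hi h1
      subst h2
      rw [hsub, iteratedFDeriv_lead_self _ F hF, sub_self]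
  have hzero1 : ∀ i ≤ k - 1, iteratedFDeriv ℝ i (fderiv ℝ h) 0 = 0 := by
    intro i hi
    rw [← norm_eq_zero, norm_iteratedFDeriv_fderiv, norm_eq_zero]
    exact hzero _ (by omega)
  have hzero2 : ∀ i ≤ k - 2, iteratedFDeriv ℝ i (fderiv ℝ (fderiv ℝ h)) 0 = 0 := by
    intro i hi
    rw [← norm_eq_zero, norm_iteratedFDeriv_fderiv, norm_eq_zero]
    exact hzero1 _ (by omega)
  obtain ⟨C0, hC0⟩ := isBigO_of_iteratedFDeriv h hha k hzero
  obtain ⟨C1, hC1⟩ := isBigO_of_iteratedFDeriv (fderiv ℝ h) hha.fderiv (k - 1) hzero1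
  obtain ⟨C2, hC2⟩ := isBigO_of_iteratedFDeriv (fderiv ℝ (fderiv ℝ h)) hha.fderiv.fderiv (k - 2)
    hzero2
  rw [show k - 1 + 1 = k by omega] at hC1
  rw [show k - 2 + 1 = k - 1 by omega] at hC2
  have hd1 : ∀ᶠ x in 𝓝 (0 : EE n), fderiv ℝ h x = fderiv ℝ F x - fderiv ℝ (lead k F 0) x := by
    filter_upwards [hF.eventually_analyticAt] with x hx
    exact fderiv_fun_sub hx.differentiableAt (lead_analytic k F 0 x).differentiableAt
  have hd2 : ∀ᶠ x in 𝓝 (0 : EE n), fderiv ℝ (fderiv ℝ h) x =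
      fderiv ℝ (fderiv ℝ F) x - fderiv ℝ (fderiv ℝ (lead k F 0)) x := by
    filter_upwards [hF.eventually_analyticAt, eventually_eventually_nhds.2 hd1] with x hx hx1
    have h1 : fderiv ℝ h =ᶠ[𝓝 x] fun x => fderiv ℝ F x - fderiv ℝ (lead k F 0) x := hx1
    rw [h1.fderiv_eq]
    exact fderiv_fun_sub hx.fderiv.differentiableAt
      (lead_analytic k F 0 x).fderiv.differentiableAt
  refine ⟨max 0 (max C0 (max C1 C2)), le_max_left _ _, ?_⟩
  filter_upwards [hC0, hC1, hC2, hd1, hd2] with x h0 h1 h2 h3 h4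
  rw [h3] at h1
  rw [h4] at h2
  have m0 : C0 ≤ max 0 (max C0 (max C1 C2)) := (le_max_left _ _).trans (le_max_right _ _)
  have m1 : C1 ≤ max 0 (max C0 (max C1 C2)) :=
    ((le_max_left _ _).trans (le_max_right _ _)).trans (le_max_right _ _)
  have m2 : C2 ≤ max 0 (max C0 (max C1 C2)) :=
    ((le_max_right _ _).trans (le_max_right _ _)).trans (le_max_right _ _)
  refine ⟨?_, ?_, ?_⟩
  · exact h0.trans (mul_le_mul_of_nonneg_right m0 (by positivity))
  · exact h1.trans (mul_le_mul_of_nonneg_right m1 (by positivity))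
  · exact h2.trans (mul_le_mul_of_nonneg_right m2 (by positivity))

end Pool.Agent.helper62.GF
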