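import Pool.Agent.helper62.GF.LDefs
import Pool.Agent.helper62.GF.N03

/-!
# GF-L03: order and weak strictness in normalised coordinates

`iteratedFDeriv ℝ k F' 0 u = iteratedFDeriv ℝ k F x₀ (L ∘ u)` for `k ≥ 1`, `F' a = F (x₀ + L a) - F x₀`
(`ContinuousLinearEquiv.iteratedFDeriv_comp_right`, translation), so `lead k F' 0 a = lead k F x₀ (L a)`.
For unit `z ⊥ v` (`‖v‖ = 1`) and the smooth function `P = lead k F' 0`, with `c t = cos t • z + sin t • v`:
`(P ∘ c)' 0 = DP(z) v`, `(P ∘ c)'' 0 = D²P(z)(v,v) - DP(z) z = D²P(z)(v,v) - k P(z)` (`lead_euler`);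
a general `v ⊥ z` is treated by scaling.
-/

open Filter Topology Set MeasureTheory

namespace Pool.Agent.helper62.GF

variable {n : ℕ}

/-- iterated derivatives in the new coordinates -/
private theorem L03_iter (k : ℕ) (hk : 1 ≤ k) (F : EE n → ℝ) (x₀ : EE n) (hF : AnalyticAt ℝ F x₀)
    (L : EE n ≃L[ℝ] EE n) :
    iteratedFDeriv ℝ k (fun a => F (x₀ + L a) - F x₀) 0 =
      (iteratedFDeriv ℝ k F x₀).compContinuousLinearMap (fun _ => (L : EE n →L[ℝ] EE n)) := by
  have h1 : (fun a => F (x₀ + L a) - F x₀) = (fun y => F (x₀ + y) - F x₀) ∘ L := rfl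
  have h1' := L.iteratedFDerivWithin_comp_right (fun y => F (x₀ + y) - F x₀)
    (s := univ) uniqueDiffOn_univ (x := (0 : EE n)) (mem_univ _) k
  rw [preimage_univ, iteratedFDerivWithin_univ, iteratedFDerivWithin_univ, map_zero] at h1'
  rw [h1, h1']
  congr 1
  have h2 : AnalyticAt ℝ (fun y => F (x₀ + y)) (0 : EE n) := by
    refine AnalyticAt.fun_comp (g := F) (f := fun y : EE n => x₀ + y) ?_ ?_
    · simpa using hF
    · fun_prop
  have h3 : iteratedFDeriv ℝ k (fun y => F (x₀ + y) - F x₀) (0 : EE n) =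
      iteratedFDeriv ℝ k (fun y => F (x₀ + y)) (0 : EE n) -
        iteratedFDeriv ℝ k (fun _ : EE n => F x₀) (0 : EE n) := by
    have h4 := iteratedFDeriv_sub_apply (𝕜 := ℝ) (i := k) (f := fun y => F (x₀ + y))
      (g := fun _ : EE n => F x₀) (x := (0 : EE n)) h2.contDiffAt contDiffAt_const
    exact h4
  rw [h3, iteratedFDeriv_const_of_ne (by omega), iteratedFDeriv_comp_add_left, add_zero]
  simp

/-- the leading form in the new coordinates -/
private theorem L03_lead (k : ℕ) (hk : 1 ≤ k) (F : EE n → ℝ) (x₀ : EE n) (hF : AnalyticAt ℝ F x₀)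
    (L : EE n ≃L[ℝ] EE n) (a : EE n) :
    lead k (fun a => F (x₀ + L a) - F x₀) 0 a = lead k F x₀ (L a) := by
  unfold lead
  rw [L03_iter k hk F x₀ hF L]
  rfl

/-- first derivative along a great circle -/
private theorem L03_deriv (P : EE n → ℝ) (hP : ContDiff ℝ 2 P) (z v : EE n) (t : ℝ) :
    HasDerivAt (fun t : ℝ => P (Real.cos t • z + Real.sin t • v))
      (fderiv ℝ P (Real.cos t • z + Real.sin t • v) (-Real.sin t • z + Real.cos t • v)) t := by
  have h1 : HasDerivAt (fun t : ℝ => Real.cos t • z + Real.sin t • v)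
      (-Real.sin t • z + Real.cos t • v) t :=
    ((Real.hasDerivAt_cos t).smul_const z).add ((Real.hasDerivAt_sin t).smul_const v)
  have h2 : HasFDerivAt P (fderiv ℝ P (Real.cos t • z + Real.sin t • v))
      (Real.cos t • z + Real.sin t • v) :=
    (hP.differentiable two_ne_zero _).hasFDerivAt
  exact h2.comp_hasDerivAt t h1

/-- second derivative along a great circle -/
private theorem L03_deriv2 (P : EE n → ℝ) (hP : ContDiff ℝ 2 P) (z v : EE n) :
    deriv (deriv (fun t : ℝ => P (Real.cos t • z + Real.sin t • v))) 0 =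
      fderiv ℝ (fderiv ℝ P) z v v - fderiv ℝ P z z := by
  have h0 : deriv (fun t : ℝ => P (Real.cos t • z + Real.sin t • v)) =
      fun t => fderiv ℝ P (Real.cos t • z + Real.sin t • v) (-Real.sin t • z + Real.cos t • v) := by
    funext t
    exact (L03_deriv P hP z v t).deriv
  rw [h0]
  have hc : HasDerivAt (fun t : ℝ => Real.cos t • z + Real.sin t • v)
      (-Real.sin 0 • z + Real.cos 0 • v) 0 :=
    ((Real.hasDerivAt_cos 0).smul_const z).add ((Real.hasDerivAt_sin 0).smul_const v)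
  have hc' : HasDerivAt (fun t : ℝ => -Real.sin t • z + Real.cos t • v)
      (-Real.cos 0 • z + -Real.sin 0 • v) 0 :=
    ((Real.hasDerivAt_sin 0).neg.smul_const z).add ((Real.hasDerivAt_cos 0).smul_const v)
  have hfd : ContDiff ℝ 1 (fderiv ℝ P) := hP.fderiv_right (by norm_num)
  have h2 : HasFDerivAt (fderiv ℝ P)
      (fderiv ℝ (fderiv ℝ P) (Real.cos 0 • z + Real.sin 0 • v))
      (Real.cos 0 • z + Real.sin 0 • v) :=
    (hfd.differentiable one_ne_zero _).hasFDerivAt
  have h3 := (h2.comp_hasDerivAt (0 : ℝ) hc).clm_apply hc'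
  rw [show (fun t : ℝ => fderiv ℝ P (Real.cos t • z + Real.sin t • v)
    (-Real.sin t • z + Real.cos t • v)) = fun t =>
    ((fderiv ℝ P) ∘ fun t : ℝ => Real.cos t • z + Real.sin t • v) t
      (-Real.sin t • z + Real.cos t • v) from rfl]
  rw [h3.deriv]
  simp [sub_eq_add_neg]

theorem hasOrd_normal (k : ℕ) (F : EE n → ℝ) (x₀ : EE n) (hF : AnalyticAt ℝ F x₀)
    (L : EE n ≃L[ℝ] EE n) (h : HasOrd k F x₀) : HasOrd k (fun a => F (x₀ + L a) - F x₀) 0 := by
  refine ⟨h.1, fun i hi hik => ?_, fun h0 => h.2.2 ?_⟩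
  · rw [L03_iter i hi F x₀ hF L, h.2.1 i hi hik]
    ext v
    simp
  · rw [L03_iter k (by have := h.1; omega) F x₀ hF L] at h0
    ext v
    have h1 := congrArg (fun M : ContinuousMultilinearMap ℝ (fun _ : Fin k => EE n) ℝ =>
      M (fun i => L.symm (v i))) h0
    simpa [ContinuousMultilinearMap.compContinuousLinearMap_apply] using h1

theorem wsCond_normal (k : ℕ) (F : EE n → ℝ) (x₀ : EE n) (hF : AnalyticAt ℝ F x₀)
    (g : EE n → EE n → ℝ) (L : EE n ≃L[ℝ] EE n) (hL : ∀ a b : EE n, g (L a) (L b) = inner ℝ a b)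
    (hk : HasOrd k F x₀) (h : WSCond k F g x₀) : WSEucl k (fun a => F (x₀ + L a) - F x₀) := by
  have hk1 : 1 ≤ k := by have := hk.1; omega
  intro z hz hcrit hnn
  set P : EE n → ℝ := lead k (fun a => F (x₀ + L a) - F x₀) 0 with hPdef
  have hPL : ∀ a, P a = lead k F x₀ (L a) := L03_lead k hk1 F x₀ hF L
  have hP2 : ContDiff ℝ 2 P :=
    contDiff_iff_contDiffAt.2 fun x => (lead_analytic k _ 0 x).contDiffAt
  have hfun : ∀ v : EE n, (fun t : ℝ => lead k F x₀ (Real.cos t • L z + Real.sin t • v)) =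
      fun t : ℝ => P (Real.cos t • z + Real.sin t • L.symm v) := by
    intro v
    funext t
    rw [hPL]
    simp
  have hgv : ∀ v : EE n, g v v = inner ℝ (L.symm v) (L.symm v) := fun v => by
    rw [← hL, L.apply_symm_apply]
  have hgz : ∀ v : EE n, g (L z) v = inner ℝ z (L.symm v) := fun v => by
    rw [← hL, L.apply_symm_apply]
  obtain ⟨v, hv1, hv2, hv3⟩ := h (L z) (by rw [hL, real_inner_self_eq_norm_sq, hz]; norm_num)
    (by
      intro v hv1 hv2
      rw [hfun v, (L03_deriv P hP2 z (L.symm v) 0).deriv]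
      rw [hgz] at hv1
      simpa using hcrit (L.symm v) hv1)
    (by rw [← hPL]; exact hnn)
  refine ⟨L.symm v, by rw [← hgz]; exact hv1, ?_⟩
  rw [hfun v, L03_deriv2 P hP2 z (L.symm v)] at hv3
  rw [hgv, real_inner_self_eq_norm_sq] at hv2
  rw [hv2, mul_one, ← lead_euler]
  exact hv3

end Pool.Agent.helper62.GF
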