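import Pool.Agent.helper62.GF.K07

/-!
# GF-K09: the monotone quantity `G = λ + r^δ`

Here `l = p/q > 0`, `λ = log F - l log r`, `δ₁ = 1/m ≤ 1`, `δ = (3/4) δ₁`, `G = λ + r^δ`.
`r² F G' = r² F λ' + δ F r^δ (r r')`, `r r' = -R + O(K r N)`.
Outside the cone (`|R| < ε T`): `lam_out` gives `r² F λ' ≤ -N²/4` and
`|δ F r^δ (r r')| ≤ δ m₂ N r^δ (1 + K r) N → ` absorbed: `r² F G' ≤ -N²/8` for `r` small, and
`N² ≥ T²`, `N ≥ F/m₂`.
Inside: `|R - l F| ≤ m r^{δ₁} F`, so `l F/2 ≤ R ≤ 2 l F` for `r` small; `lam_deriv` gives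
`r² F λ' ≤ -T² + 2 l m r^{δ₁} F² + K (1 + l m₂) r (T² + 4 l² F²)`; and
`δ F r^δ (r r') ≤ -δ (l/2) r^δ F² + δ K r^{1+δ} F N`, `F N ≤ F (T + |R|) ≤ T² + (1 + 2 l) F²`.  As
`r^{δ₁}, r = o(r^δ)`: `r² F G' ≤ -T²/2 - (δ l/4) r^δ F²` for `r` small.
In both cases `c (T² + r^δ F²) ≤ - r² F G'` for a constant `c > 0` (`r ≤ 1`).
Outside the cone also `T ≥ N/√2 ≥ F/(√2 m₂)`.
-/

open Filter Topology Set

namespace Pool.Agent.helper62.GF

variable {F r R T N F' r' : ℝ → ℝ} {K m₂ c₀ : ℝ} {N₀ : ℕ}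

private theorem kt_inside {F r R T N K m₂ l δ ρ σ σ' M A rr : ℝ} (hF : 0 < F) (hr : 0 < r)
    (hT : 0 ≤ T) (hN : 0 ≤ N) (hK : 0 ≤ K) (hm2 : 0 < m₂) (hl : 0 < l)
    (hδ : 0 < δ) (hδ1 : δ ≤ 1) (hρ : 0 < ρ) (hρ1 : ρ ≤ 1)
    (hrσ : r = σ' * ρ) (pyth : N ^ 2 = T ^ 2 + R ^ 2)
    (hin : |R - l * F| ≤ M * (σ * ρ) * F) (s4 : M * (σ * ρ) ≤ l / 2)
    (hA : |A + (T ^ 2 + R * (R - l * F))| ≤ K * (1 + l * m₂) * r * N ^ 2)
    (he2 : |rr + R| ≤ K * r * N) (s2 : K * (1 + l * m₂) * r ≤ 1 / 20)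
    (s6 : 3 * l / 2 * (M * σ) + K * (1 + l * m₂) * (9 / 4) * l ^ 2 * σ' +
      δ * K * (1 + 3 * l / 2) * r ≤ δ * l / 4) :
    A + δ * F * ρ * rr ≤ -(1 / 2) * T ^ 2 - δ * l / 4 * ρ * F ^ 2 := by
  have h1 := abs_le.1 hin
  have h2 := abs_le.1 hA
  have h3 := abs_le.1 he2
  have hMF : M * (σ * ρ) * F ≤ l / 2 * F := mul_le_mul_of_nonneg_right s4 hF.le
  have hR1 : l * F / 2 ≤ R := by linarith [h1.1]
  have hR2 : R ≤ 3 * l * F / 2 := by linarith [h1.2]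
  have hlF : 0 < l * F := mul_pos hl hF
  have hR0 : 0 < R := by linarith
  -- `- R (R - l F)`
  have h4 : -(R * (R - l * F)) ≤ 3 * l / 2 * (M * σ) * (ρ * F ^ 2) := by
    have e1 : -(R * (R - l * F)) ≤ R * (M * (σ * ρ) * F) := by nlinarith [h1.1]
    have e0 : 0 ≤ M * (σ * ρ) * F := le_trans (abs_nonneg _) hin
    have e2 : R * (M * (σ * ρ) * F) ≤ 3 * l * F / 2 * (M * (σ * ρ) * F) :=
      mul_le_mul_of_nonneg_right hR2 e0
    calc -(R * (R - l * F)) ≤ 3 * l * F / 2 * (M * (σ * ρ) * F) := e1.trans e2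
      _ = 3 * l / 2 * (M * σ) * (ρ * F ^ 2) := by ring
  -- `N ^ 2`
  have hR2sq : R ^ 2 ≤ 9 / 4 * l ^ 2 * F ^ 2 := by
    have : R ^ 2 ≤ (3 * l * F / 2) ^ 2 := pow_le_pow_left₀ hR0.le hR2 2
    calc R ^ 2 ≤ (3 * l * F / 2) ^ 2 := this
      _ = 9 / 4 * l ^ 2 * F ^ 2 := by ring
  set Q := K * (1 + l * m₂) with hQ
  have hQ0 : 0 ≤ Q := mul_nonneg hK (by positivity)
  have h5 : Q * r * N ^ 2 ≤ 1 / 20 * T ^ 2 + Q * (9 / 4) * l ^ 2 * σ' * (ρ * F ^ 2) := by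
    rw [pyth]
    have e1 : Q * r * T ^ 2 ≤ 1 / 20 * T ^ 2 := mul_le_mul_of_nonneg_right s2 (sq_nonneg T)
    have e2 : Q * r * R ^ 2 ≤ Q * r * (9 / 4 * l ^ 2 * F ^ 2) :=
      mul_le_mul_of_nonneg_left hR2sq (mul_nonneg hQ0 hr.le)
    have e3 : Q * r * (9 / 4 * l ^ 2 * F ^ 2) = Q * (9 / 4) * l ^ 2 * σ' * (ρ * F ^ 2) := by
      rw [hrσ]; ring
    calc Q * r * (T ^ 2 + R ^ 2) = Q * r * T ^ 2 + Q * r * R ^ 2 := by ring
      _ ≤ _ := by linarith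
  -- `N`
  have hNle : N ≤ T + R := by
    have : N ^ 2 ≤ (T + R) ^ 2 := by rw [pyth]; nlinarith
    exact le_of_sq_le_sq this (by linarith) |> fun h => h
  have hNle2 : N ≤ T + 3 * l * F / 2 := by linarith
  have hKr : K * r ≤ 1 / 20 := by
    have : K * r ≤ Q * r := by
      rw [hQ]
      have : 0 ≤ K * (l * m₂) * r := by positivity
      nlinarith
    linarith
  have hc0 : 0 ≤ δ * F * ρ := by positivity
  have h6 : δ * F * ρ * rr ≤ δ * F * ρ * (-R + K * r * N) :=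
    mul_le_mul_of_nonneg_left (by linarith [h3.2]) hc0
  have h7 : δ * F * ρ * (-R) ≤ -(δ * l / 2 * (ρ * F ^ 2)) := by
    have := mul_le_mul_of_nonneg_left hR1 hc0
    nlinarith
  have hKr0 : 0 ≤ K * r := mul_nonneg hK hr.le
  have h8 : δ * F * ρ * (K * r * N) ≤
      1 / 20 * T ^ 2 + δ * K * (1 + 3 * l / 2) * r * (ρ * F ^ 2) := by
    have e1 : F * N ≤ F ^ 2 + T ^ 2 + 3 * l / 2 * F ^ 2 := by
      have : F * N ≤ F * (T + 3 * l * F / 2) := mul_le_mul_of_nonneg_left hNle2 hF.le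
      nlinarith [sq_nonneg (F - T), sq_nonneg F, sq_nonneg T]
    have e2 : δ * F * ρ * (K * r * N) = (δ * ρ * (K * r)) * (F * N) := by ring
    have e3 : 0 ≤ δ * ρ * (K * r) := by positivity
    have e4 : δ * ρ * (K * r) ≤ 1 / 20 := by
      have : δ * ρ ≤ 1 := mul_le_one₀ hδ1 hρ.le hρ1
      calc δ * ρ * (K * r) ≤ 1 * (K * r) := mul_le_mul_of_nonneg_right this hKr0
        _ ≤ 1 / 20 := by linarith
    rw [e2]
    calc δ * ρ * (K * r) * (F * N) ≤ δ * ρ * (K * r) * (F ^ 2 + T ^ 2 + 3 * l / 2 * F ^ 2) :=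
          mul_le_mul_of_nonneg_left e1 e3
      _ = δ * ρ * (K * r) * T ^ 2 + δ * K * (1 + 3 * l / 2) * r * (ρ * F ^ 2) := by ring
      _ ≤ _ := by
        have := mul_le_mul_of_nonneg_right e4 (sq_nonneg T)
        linarith
  have hρF : 0 ≤ ρ * F ^ 2 := by positivity
  have h9 := mul_le_mul_of_nonneg_right s6 hρF
  have h10 : δ * F * ρ * (-R + K * r * N) = δ * F * ρ * (-R) + δ * F * ρ * (K * r * N) := by ring
  have hT2 : 0 ≤ T ^ 2 := sq_nonneg T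
  have h11 : (3 * l / 2 * (M * σ) + Q * (9 / 4) * l ^ 2 * σ' +
      δ * K * (1 + 3 * l / 2) * r) * (ρ * F ^ 2) = 3 * l / 2 * (M * σ) * (ρ * F ^ 2) +
      Q * (9 / 4) * l ^ 2 * σ' * (ρ * F ^ 2) + δ * K * (1 + 3 * l / 2) * r * (ρ * F ^ 2) := by ring
  have h12 : A ≤ -T ^ 2 + -(R * (R - l * F)) + Q * r * N ^ 2 := by linarith [h2.2]
  have h13 : δ * l / 4 * ρ * F ^ 2 = δ * l / 4 * (ρ * F ^ 2) := by ring
  have h14 : δ * l / 2 * (ρ * F ^ 2) = δ * l / 4 * (ρ * F ^ 2) + δ * l / 4 * (ρ * F ^ 2) := by ring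
  rw [h13]
  linarith

private theorem kt_outside {F r R T N K m₂ ε δ ρ A rr : ℝ} (hF : 0 < F) (hr1 : r ≤ 1)
    (hr : 0 < r) (hT : 0 ≤ T) (hN : 0 ≤ N) (hK : 0 ≤ K)
    (hδ : 0 < δ) (hδ1 : δ ≤ 1) (hρ : 0 < ρ) (pyth : N ^ 2 = T ^ 2 + R ^ 2)
    (bl : F ≤ m₂ * N) (hA : A ≤ -(N ^ 2) / 4) (he2 : |rr + R| ≤ K * r * N)
    (s3 : m₂ * (1 + K) * ρ ≤ 1 / 8) :
    A + δ * F * ρ * rr ≤ -(N ^ 2) / 8 := by
  have hRN : |R| ≤ N := by
    have h1 : |R| ^ 2 ≤ N ^ 2 := by rw [sq_abs, pyth]; nlinarith [sq_nonneg T]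
    exact le_of_sq_le_sq h1 hN |> fun h => h
  have h1 : |rr| ≤ (1 + K) * N := by
    have e1 : |rr| ≤ |rr + R| + |R| := by
      have := abs_sub_abs_le_abs_sub rr (-R)
      simp only [sub_neg_eq_add, abs_neg] at this
      linarith
    have e2 : K * r * N ≤ K * N := by
      have : K * r ≤ K := by nlinarith
      exact mul_le_mul_of_nonneg_right this hN
    nlinarith
  have h2 : δ * F * ρ * rr ≤ δ * F * ρ * ((1 + K) * N) :=
    mul_le_mul_of_nonneg_left ((le_abs_self rr).trans h1) (by positivity)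
  have h3 : δ * F * ρ * ((1 + K) * N) ≤ m₂ * (1 + K) * ρ * N ^ 2 := by
    have e0 : 0 ≤ ρ * ((1 + K) * N) := by positivity
    have e1 : δ * F ≤ m₂ * N := by nlinarith
    calc δ * F * ρ * ((1 + K) * N) = δ * F * (ρ * ((1 + K) * N)) := by ring
      _ ≤ m₂ * N * (ρ * ((1 + K) * N)) := mul_le_mul_of_nonneg_right e1 e0
      _ = m₂ * (1 + K) * ρ * N ^ 2 := by ring
  have h4 := mul_le_mul_of_nonneg_right s3 (sq_nonneg N)
  linarith

theorem kt_decay (h : KData F r R T N F' r' K m₂ c₀ N₀) (p q m : ℕ) (ε : ℝ) (hp : 1 ≤ p)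
    (hq : 1 ≤ q) (hm : 1 ≤ m) (hε : 0 < ε) (hε2 : ε ≤ 1 / 2) (hεl : ε * (p / q : ℝ) * m₂ ≤ 1 / 2)
    (hin : ∀ᶠ t in atTop, ε * T t ≤ |R t| →
      |R t - (p / q : ℝ) * F t| ≤ m * r t ^ (1 / (m : ℝ)) * F t) :
    ∃ (c : ℝ) (G' : ℝ → ℝ), 0 < c ∧ ∀ᶠ t in atTop,
      HasDerivAt (fun t => Real.log (F t) - (p / q : ℝ) * Real.log (r t) + r t ^ (3 / 4 * (1 / (m : ℝ))))
        (G' t) t ∧
      c * (T t ^ 2 + r t ^ (3 / 4 * (1 / (m : ℝ))) * F t ^ 2) ≤ -(r t ^ 2 * F t * G' t) ∧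
      (|R t| < ε * T t → c * F t ≤ T t) := by
  classical
  set l : ℝ := (p : ℝ) / q with hl
  set δ : ℝ := 3 / 4 * (1 / (m : ℝ)) with hδ
  have hp0 : (0 : ℝ) < p := by exact_mod_cast hp
  have hq0 : (0 : ℝ) < q := by exact_mod_cast hq
  have hm0 : (0 : ℝ) < m := by exact_mod_cast hm
  have hm1 : (1 : ℝ) ≤ m := by exact_mod_cast hm
  have hl0 : 0 < l := div_pos hp0 hq0
  have hδ0 : 0 < δ := by rw [hδ]; positivity
  have hd1 : 1 / (m : ℝ) ≤ 1 := by rw [div_le_one hm0]; exact hm1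
  have hδ1 : δ ≤ 3 / 4 := by rw [hδ]; linarith
  have hK := h.K0
  have hm2 := h.m20
  have hpow : ∀ a : ℝ, 0 < a → Tendsto (fun t => r t ^ a) atTop (𝓝 0) := by
    intro a ha
    have := h.rlim.rpow_const (p := a) (Or.inr ha.le)
    rwa [Real.zero_rpow ha.ne'] at this
  have t1 := h.rlim
  have t2 := hpow δ hδ0
  have t3 := hpow (1 / (m : ℝ) / 4) (by positivity)
  have t4 := hpow (1 - δ) (by linarith)
  have t5 := hpow (1 / (m : ℝ)) (by positivity)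
  -- smallness conditions
  have s1 : ∀ᶠ t in atTop, r t < 1 := t1.eventually_lt_const one_pos
  have s2 : ∀ᶠ t in atTop, K * (1 + l * m₂) * r t < 1 / 20 := by
    have := t1.const_mul (K * (1 + l * m₂))
    rw [mul_zero] at this
    exact this.eventually_lt_const (by norm_num)
  have s3 : ∀ᶠ t in atTop, m₂ * (1 + K) * r t ^ δ < 1 / 8 := by
    have := t2.const_mul (m₂ * (1 + K))
    rw [mul_zero] at this
    exact this.eventually_lt_const (by norm_num)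
  have s4 : ∀ᶠ t in atTop, (m : ℝ) * r t ^ (1 / (m : ℝ)) < l / 2 := by
    have := t5.const_mul (m : ℝ)
    rw [mul_zero] at this
    exact this.eventually_lt_const (by linarith)
  have s6 : ∀ᶠ t in atTop, 3 * l / 2 * (m * r t ^ (1 / (m : ℝ) / 4)) +
      K * (1 + l * m₂) * (9 / 4) * l ^ 2 * r t ^ (1 - δ) +
      δ * K * (1 + 3 * l / 2) * r t < δ * l / 4 := by
    have a1 := (t3.const_mul (m : ℝ)).const_mul (3 * l / 2)
    have a2 := t4.const_mul (K * (1 + l * m₂) * (9 / 4) * l ^ 2)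
    have a3 := t1.const_mul (δ * K * (1 + 3 * l / 2))
    have a4 := (a1.add a2).add a3
    simp only [mul_zero, add_zero] at a4
    exact a4.eventually_lt_const (by positivity)
  -- the constant
  set c : ℝ := min (min (1 / (8 * (1 + m₂ ^ 2))) (1 / (2 * m₂))) (min (1 / 2) (δ * l / 4)) with hc
  have hc0 : 0 < c := by
    refine lt_min (lt_min ?_ ?_) (lt_min ?_ ?_) <;> positivity
  have hc1 : c ≤ 1 / (8 * (1 + m₂ ^ 2)) := (min_le_left _ _).trans (min_le_left _ _)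
  have hc2 : c ≤ 1 / (2 * m₂) := (min_le_left _ _).trans (min_le_right _ _)
  have hc3 : c ≤ 1 / 2 := (min_le_right _ _).trans (min_le_left _ _)
  have hc4 : c ≤ δ * l / 4 := (min_le_right _ _).trans (min_le_right _ _)
  refine ⟨c, fun t => (F' t / F t - l * (r' t / r t)) + r' t * δ * r t ^ (δ - 1), hc0, ?_⟩
  filter_upwards [eventually_ge_atTop (0 : ℝ), s1, s2, s3, s4, s6, hin] with
    t ht s1 s2 s3 s4 s6 hin
  have hF := h.Fpos t ht
  have hr := h.rpos t ht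
  have hT := h.Tnn t ht
  have hN := h.Nnn t ht
  have hpy := h.pyth t ht
  have he2 := h.e2 t ht
  have hbl := h.bl t ht
  have hρ : 0 < r t ^ δ := Real.rpow_pos_of_pos hr _
  have hρ1 : r t ^ δ ≤ 1 := Real.rpow_le_one hr.le s1.le hδ0.le
  have hder : r t ^ 2 * F t * ((F' t / F t - l * (r' t / r t)) + r' t * δ * r t ^ (δ - 1)) =
      r t ^ 2 * F t * (F' t / F t - l * (r' t / r t)) + δ * F t * r t ^ δ * (r t * r' t) := by
    have e1 : r t ^ (δ - 1) * r t = r t ^ δ := by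
      rw [Real.rpow_sub_one hr.ne']
      field_simp
    have e2 : r t ^ 2 * F t * (r' t * δ * r t ^ (δ - 1)) =
        δ * F t * (r t ^ (δ - 1) * r t) * (r t * r' t) := by ring
    rw [mul_add, e2, e1]
  have hrσ : r t = r t ^ (1 - δ) * r t ^ δ := by
    rw [← Real.rpow_add hr]
    have : 1 - δ + δ = 1 := by ring
    rw [this, Real.rpow_one]
  have hσρ : r t ^ (1 / (m : ℝ)) = r t ^ (1 / (m : ℝ) / 4) * r t ^ δ := by
    rw [← Real.rpow_add hr]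
    congr 1
    rw [hδ]; ring
  refine ⟨?_, ?_, ?_⟩
  · have h1 := lam_hasDeriv h l t ht
    have h2 := (h.dr t ht).rpow_const (p := δ) (Or.inl hr.ne')
    exact h1.add h2
  · show c * (T t ^ 2 + r t ^ δ * F t ^ 2) ≤ -(r t ^ 2 * F t *
      ((F' t / F t - l * (r' t / r t)) + r' t * δ * r t ^ (δ - 1)))
    rw [hder]
    by_cases hcase : ε * T t ≤ |R t|
    · have hin' := hin hcase
      rw [hσρ] at hin' s4
      have key := kt_inside (K := K) (m₂ := m₂) (l := l) (δ := δ) (ρ := r t ^ δ)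
        (σ := r t ^ (1 / (m : ℝ) / 4)) (σ' := r t ^ (1 - δ)) (M := m) hF hr hT hN hK hm2 hl0 hδ0
        (by linarith) hρ hρ1 hrσ hpy hin' s4.le (lam_deriv h l hl0.le t ht) he2 s2.le s6.le
      have e1 : c * T t ^ 2 ≤ 1 / 2 * T t ^ 2 := mul_le_mul_of_nonneg_right hc3 (sq_nonneg _)
      have e2 : c * (r t ^ δ * F t ^ 2) ≤ δ * l / 4 * (r t ^ δ * F t ^ 2) :=
        mul_le_mul_of_nonneg_right hc4 (by positivity)
      nlinarith
    · push Not at hcase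
      have hout := lam_out h l ε hl0.le hε hε2 hεl t ht s2.le hcase
      have key := kt_outside (K := K) (m₂ := m₂) (ε := ε) (δ := δ) (ρ := r t ^ δ) hF s1.le hr hT
        hN hK hδ0 (by linarith) hρ hpy hbl hout he2 s3.le
      have hT2 : T t ^ 2 ≤ N t ^ 2 := by rw [hpy]; nlinarith [sq_nonneg (R t)]
      have hF2 : F t ^ 2 ≤ m₂ ^ 2 * N t ^ 2 := by
        have := pow_le_pow_left₀ hF.le hbl 2
        rwa [mul_pow] at this
      have hρF : r t ^ δ * F t ^ 2 ≤ m₂ ^ 2 * N t ^ 2 := by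
        have : r t ^ δ * F t ^ 2 ≤ 1 * F t ^ 2 := mul_le_mul_of_nonneg_right hρ1 (sq_nonneg _)
        linarith
      have e1 : c * (T t ^ 2 + r t ^ δ * F t ^ 2) ≤ c * ((1 + m₂ ^ 2) * N t ^ 2) :=
        mul_le_mul_of_nonneg_left (by nlinarith) hc0.le
      have e2 : c * ((1 + m₂ ^ 2) * N t ^ 2) ≤ N t ^ 2 / 8 := by
        have e3 : c * (1 + m₂ ^ 2) ≤ 1 / 8 := by
          have e4 : 0 < 1 + m₂ ^ 2 := by positivity
          calc c * (1 + m₂ ^ 2) ≤ 1 / (8 * (1 + m₂ ^ 2)) * (1 + m₂ ^ 2) :=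
                mul_le_mul_of_nonneg_right hc1 e4.le
            _ = 1 / 8 := by field_simp
        have := mul_le_mul_of_nonneg_right e3 (sq_nonneg (N t))
        nlinarith
      linarith
  · intro hout
    have hR2 : R t ^ 2 ≤ T t ^ 2 := by
      have e1 : |R t| ≤ T t := by
        have : ε * T t ≤ T t := by nlinarith
        linarith
      have := pow_le_pow_left₀ (abs_nonneg (R t)) e1 2
      rwa [sq_abs] at this
    have hN2 : N t ^ 2 ≤ 2 * T t ^ 2 := by rw [hpy]; linarith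
    have hF2 : F t ^ 2 ≤ m₂ ^ 2 * N t ^ 2 := by
      have := pow_le_pow_left₀ hF.le hbl 2
      rwa [mul_pow] at this
    have hcm : c * m₂ ≤ 1 / 2 := by
      calc c * m₂ ≤ 1 / (2 * m₂) * m₂ := mul_le_mul_of_nonneg_right hc2 hm2.le
        _ = 1 / 2 := by field_simp
    have hcm2 : (c * m₂) ^ 2 ≤ 1 / 4 := by
      have := pow_le_pow_left₀ (by positivity) hcm 2
      norm_num at this ⊢
      exact this
    have hsq : (c * F t) ^ 2 ≤ T t ^ 2 := by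
      calc (c * F t) ^ 2 = c ^ 2 * F t ^ 2 := by ring
        _ ≤ c ^ 2 * (m₂ ^ 2 * N t ^ 2) := mul_le_mul_of_nonneg_left hF2 (sq_nonneg _)
        _ = (c * m₂) ^ 2 * N t ^ 2 := by ring
        _ ≤ 1 / 4 * (2 * T t ^ 2) := mul_le_mul hcm2 hN2 (sq_nonneg _) (by norm_num)
        _ ≤ T t ^ 2 := by nlinarith [sq_nonneg (T t)]
    exact le_of_sq_le_sq hsq hT |> fun h => h

end Pool.Agent.helper62.GF
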