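import Pool.Agent.helper62.GF.K08
import Pool.Agent.helper62.GF.K09

/-!
# GF-K10: bound of the angular length

From `kt_index` get `p, q, m, ε`, `l = p/q`, `λ = log F - l log r`, `|λ| ≤ m` eventually; from `kt_decay` get
`c, G'` for `G = λ + r^δ`, `δ₁ = 1/m`, `δ = (3/4) δ₁`.  `G' < 0` eventually (`F > 0`, `r > 0`, so
`r^δ F² > 0`) and `G ≥ -m`, so `G` decreases to a limit `b` and `G > b` for large `t` (strictly decreasing);
`r^δ → 0`, so `λ → b`.
Let `m₄` be given by the asymptotic property for `p, q, b, C₁ = m, δ₁`.  Put `ψ = T/F`.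
Claim: for large `t`, `c₂ (G - b)^s ≤ max ψ (r^{δ/2})`, `s = max (3/4) (1 - 1/m₄) < 1` (`0 < G - b ≤ 1`).
 - if `|λ - b| < r^{δ₁/2}`: `G - b ≤ 2 r^{δ₁/2}` (`r^δ ≤ r^{δ₁/2}`), and `r^{δ/2} = (r^{δ₁/2})^{3/4}`;
 - if `|λ - b| ≥ r^{δ₁/2}` and `ε T ≤ |R|`: the asymptotic property (`|λ - b| ≤ 1/m₄` for large `t`) gives
   `ψ ≥ (1/m₄) |λ - b|^{1-1/m₄}` and `G - b ≤ |λ - b| + r^δ ≤ 2 |λ - b|`;
 - if `|R| < ε T`: `ψ ≥ c`.
Then `-G' ≥ c (ψ² + r^δ) F/r² ≥ c ψ max(ψ, r^{δ/2}) F / r² = c (T/r²) max(ψ, r^{δ/2}) ≥ c c₂ (T/r²) (G-b)^s`, so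
`H = (G - b)^{1-s} / (c c₂ (1-s))` satisfies `T/r² ≤ -H'`, `H ≥ 0`.
-/

open Filter Topology Set

namespace Pool.Agent.helper62.GF

variable {F r R T N F' r' : ℝ → ℝ} {K m₂ c₀ : ℝ} {N₀ : ℕ}

private theorem K10_lim {G G' : ℝ → ℝ} {B : ℝ} (hder : ∀ᶠ t in atTop, HasDerivAt G (G' t) t)
    (hneg : ∀ᶠ t in atTop, G' t < 0) (hB : ∀ᶠ t in atTop, B ≤ G t) :
    ∃ b : ℝ, Tendsto G atTop (𝓝 b) ∧ ∀ᶠ t in atTop, b < G t := by
  obtain ⟨t₀, ht₀⟩ := (hder.and (hneg.and hB)).exists_forall_of_atTop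
  have hcont : ContinuousOn G (Ici t₀) := fun t ht => (ht₀ t ht).1.continuousAt.continuousWithinAt
  have hanti : StrictAntiOn G (Ici t₀) := by
    refine strictAntiOn_of_deriv_neg (convex_Ici t₀) hcont fun t ht => ?_
    rw [interior_Ici] at ht
    rw [(ht₀ t (le_of_lt ht)).1.deriv]
    exact (ht₀ t (le_of_lt ht)).2.1
  set G1 : ℝ → ℝ := fun t => G (max t t₀) with hG1
  have hG1a : Antitone G1 := by
    intro x y hxy
    exact hanti.antitoneOn (le_max_right x t₀) (le_max_right y t₀) (max_le_max hxy le_rfl)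
  have hbdd : BddBelow (range G1) := by
    refine ⟨B, ?_⟩
    rintro _ ⟨t, rfl⟩
    exact (ht₀ _ (le_max_right t t₀)).2.2
  have hlim := tendsto_atTop_ciInf hG1a hbdd
  refine ⟨⨅ t, G1 t, hlim.congr' ?_, ?_⟩
  · filter_upwards [eventually_ge_atTop t₀] with t ht
    simp only [hG1, max_eq_left ht]
  · filter_upwards [eventually_ge_atTop t₀] with t ht
    have h1 : G (t + 1) < G t := hanti ht (le_trans ht (by linarith) : t₀ ≤ t + 1) (by linarith)
    have h2 : (⨅ t, G1 t) ≤ G1 (t + 1) := ciInf_le hbdd (t + 1)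
    have h3 : G1 (t + 1) = G (t + 1) := by
      simp only [hG1, max_eq_left (le_trans ht (by linarith) : t₀ ≤ t + 1)]
    linarith

private theorem K10_two_rpow {x a : ℝ} (hx : 0 ≤ x) (ha1 : a ≤ 1) :
    (2 * x) ^ a ≤ 2 * x ^ a := by
  rw [Real.mul_rpow (by norm_num) hx]
  have h1 : (2 : ℝ) ^ a ≤ 2 := by
    calc (2 : ℝ) ^ a ≤ 2 ^ (1 : ℝ) := Real.rpow_le_rpow_of_exponent_le (by norm_num) ha1
      _ = 2 := Real.rpow_one 2
  exact mul_le_mul_of_nonneg_right h1 (Real.rpow_nonneg hx a)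

theorem kt_length (h : KData F r R T N F' r' K m₂ c₀ N₀) (hc : ConeProp F r R T)
    (ha : AsymProp F r R T) :
    ∃ H H' : ℝ → ℝ, ∀ᶠ t in atTop, HasDerivAt H (H' t) t ∧ T t / r t ^ 2 ≤ -H' t ∧ 0 ≤ H t := by
  obtain ⟨p, q, m, ε, hp, hq, hm, hε, hε2, hεl, hidx⟩ := kt_index h hc
  obtain ⟨c, G', hc0, hdec⟩ := kt_decay h p q m ε hp hq hm hε hε2 hεl (hidx.mono fun t ht => ht.2)
  have hm0 : (0 : ℝ) < m := by exact_mod_cast hm
  set l : ℝ := (p / q : ℝ) with hl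
  set δ₁ : ℝ := 1 / (m : ℝ) with hδ₁
  have hδ₁0 : 0 < δ₁ := by positivity
  set G : ℝ → ℝ := fun t => Real.log (F t) - l * Real.log (r t) + r t ^ (3 / 4 * δ₁) with hG
  have hev0 : ∀ᶠ t : ℝ in atTop, 0 ≤ t := eventually_ge_atTop 0
  have hneg : ∀ᶠ t in atTop, G' t < 0 := by
    filter_upwards [hdec, hev0] with t ht ht0
    have hF := h.Fpos t ht0
    have hr := h.rpos t ht0
    have h1 : 0 < r t ^ (3 / 4 * δ₁) := Real.rpow_pos_of_pos hr _
    have h2 : 0 < c * (T t ^ 2 + r t ^ (3 / 4 * δ₁) * F t ^ 2) := by positivity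
    have h3 : 0 < r t ^ 2 * F t := by positivity
    have h4 : r t ^ 2 * F t * G' t < 0 := by linarith [ht.2.1]
    by_contra hcon
    push Not at hcon
    have := mul_nonneg h3.le hcon
    linarith
  have hlow : ∀ᶠ t in atTop, -(m : ℝ) ≤ G t := by
    filter_upwards [hidx, hev0] with t ht ht0
    have h1 := (abs_le.1 ht.1).1
    have h2 : 0 ≤ r t ^ (3 / 4 * δ₁) := Real.rpow_nonneg (h.rpos t ht0).le _
    simp only [hG]
    linarith
  obtain ⟨b, hGb, hgt⟩ := K10_lim (hdec.mono fun t ht => ht.1) hneg hlow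
  have hrδ : Tendsto (fun t => r t ^ (3 / 4 * δ₁)) atTop (𝓝 0) := by
    have h1 := h.rlim.rpow_const (p := 3 / 4 * δ₁) (Or.inr (by positivity))
    rwa [Real.zero_rpow (by positivity)] at h1
  have hlamb : Tendsto (fun t => Real.log (F t) - l * Real.log (r t)) atTop (𝓝 b) := by
    have h1 := hGb.sub hrδ
    rw [sub_zero] at h1
    refine h1.congr fun t => ?_
    simp only [hG]
    ring
  obtain ⟨m₄, hm₄, hasy⟩ := ha p q hp hq b m δ₁ hδ₁0
  have hm₄0 : (2 : ℝ) ≤ m₄ := by exact_mod_cast hm₄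
  have hinv : 1 / (m₄ : ℝ) ≤ 1 / 2 := one_div_le_one_div_of_le (by norm_num) hm₄0
  have hinv0 : 0 < 1 / (m₄ : ℝ) := by positivity
  set s : ℝ := max (3 / 4) (1 - 1 / (m₄ : ℝ)) with hs
  have hs1 : s < 1 := max_lt (by norm_num) (by linarith)
  have hs34 : 3 / 4 ≤ s := le_max_left _ _
  have hsm : 1 - 1 / (m₄ : ℝ) ≤ s := le_max_right _ _
  set c₂ : ℝ := min (1 / (2 * (m₄ : ℝ))) c with hc₂
  have hc₂0 : 0 < c₂ := lt_min (by positivity) hc0
  have hc₂m : c₂ ≤ 1 / (2 * (m₄ : ℝ)) := min_le_left _ _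
  have hc₂c : c₂ ≤ c := min_le_right _ _
  -- smallness
  have hsmall : ∀ᶠ t in atTop, |Real.log (F t) - l * Real.log (r t) - b| ≤ 1 / (m₄ : ℝ) := by
    have h1 := hlamb.sub_const b
    rw [sub_self] at h1
    have h2 := h1.abs
    rw [abs_zero] at h2
    exact h2.eventually_le_const hinv0
  have hr1 : ∀ᶠ t in atTop, r t ≤ 1 := h.rlim.eventually_le_const one_pos
  have hg1 : ∀ᶠ t in atTop, G t - b ≤ 1 := by
    have h1 := hGb.sub_const b
    rw [sub_self] at h1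
    exact h1.eventually_le_const one_pos
  -- the claim
  have hclaim : ∀ᶠ t in atTop, c₂ * (G t - b) ^ s * F t ≤
      max (T t) (r t ^ (3 / 8 * δ₁) * F t) := by
    filter_upwards [hdec, hidx, hasy, hsmall, hr1, hg1, hgt, hev0] with t h1 h2 h3 h4 h5 h6 h7 h8
    have hF := h.Fpos t h8
    have hr := h.rpos t h8
    have hT := h.Tnn t h8
    have hg0 : 0 < G t - b := by linarith
    set lam : ℝ := Real.log (F t) - l * Real.log (r t) with hlam
    have hGt : G t = lam + r t ^ (3 / 4 * δ₁) := rfl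
    have hpow : r t ^ (3 / 4 * δ₁) ≤ r t ^ (δ₁ / 2) :=
      Real.rpow_le_rpow_of_exponent_ge hr h5 (by linarith)
    have hgs : (G t - b) ^ s ≤ 1 := Real.rpow_le_one hg0.le h6 (by linarith)
    have hgs0 : 0 ≤ (G t - b) ^ s := Real.rpow_nonneg hg0.le s
    by_cases hcase : |lam - b| < r t ^ (δ₁ / 2)
    · -- first case
      refine le_max_of_le_right ?_
      have e1 : G t - b ≤ 2 * r t ^ (δ₁ / 2) := by
        have := (abs_lt.1 hcase).2
        rw [hGt]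
        linarith
      have e2 : (G t - b) ^ s ≤ (G t - b) ^ (3 / 4 : ℝ) :=
        Real.rpow_le_rpow_of_exponent_ge hg0 h6 hs34
      have e3 : (G t - b) ^ (3 / 4 : ℝ) ≤ (2 * r t ^ (δ₁ / 2)) ^ (3 / 4 : ℝ) :=
        Real.rpow_le_rpow hg0.le e1 (by norm_num)
      have e4 : (2 * r t ^ (δ₁ / 2)) ^ (3 / 4 : ℝ) ≤ 2 * (r t ^ (δ₁ / 2)) ^ (3 / 4 : ℝ) :=
        K10_two_rpow (Real.rpow_nonneg hr.le _) (by norm_num)
      have e5 : (r t ^ (δ₁ / 2)) ^ (3 / 4 : ℝ) = r t ^ (3 / 8 * δ₁) := by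
        rw [← Real.rpow_mul hr.le]
        congr 1
        ring
      have e6 : c₂ ≤ 1 / 2 := by
        refine hc₂m.trans ?_
        exact one_div_le_one_div_of_le (by norm_num) (by linarith)
      have e7 : 0 ≤ r t ^ (3 / 8 * δ₁) := Real.rpow_nonneg hr.le _
      have e8 : c₂ * (G t - b) ^ s ≤ r t ^ (3 / 8 * δ₁) := by
        calc c₂ * (G t - b) ^ s ≤ 1 / 2 * (2 * r t ^ (3 / 8 * δ₁)) := by
              refine mul_le_mul e6 ?_ hgs0 (by norm_num)
              rw [← e5]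
              exact e2.trans (e3.trans e4)
          _ = _ := by ring
      exact mul_le_mul_of_nonneg_right e8 hF.le
    · push Not at hcase
      refine le_max_of_le_left ?_
      by_cases hcone : ε * T t ≤ |R t|
      · -- second case
        have e1 := h3 h4 hcase (h2.2 hcone)
        have e2 : G t - b ≤ 2 * |lam - b| := by
          have := le_abs_self (lam - b)
          rw [hGt]
          linarith
        have e3 : (G t - b) ^ s ≤ (G t - b) ^ (1 - 1 / (m₄ : ℝ)) :=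
          Real.rpow_le_rpow_of_exponent_ge hg0 h6 hsm
        have e4 : (G t - b) ^ (1 - 1 / (m₄ : ℝ)) ≤ (2 * |lam - b|) ^ (1 - 1 / (m₄ : ℝ)) :=
          Real.rpow_le_rpow hg0.le e2 (by linarith)
        have e5 : (2 * |lam - b|) ^ (1 - 1 / (m₄ : ℝ)) ≤ 2 * |lam - b| ^ (1 - 1 / (m₄ : ℝ)) :=
          K10_two_rpow (abs_nonneg _) (by linarith)
        have e6 : c₂ * (G t - b) ^ s ≤ 1 / (2 * (m₄ : ℝ)) * (2 * |lam - b| ^ (1 - 1 / (m₄ : ℝ))) :=
          mul_le_mul hc₂m (e3.trans (e4.trans e5)) hgs0 (by positivity)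
        have e7 : 1 / (2 * (m₄ : ℝ)) * (2 * |lam - b| ^ (1 - 1 / (m₄ : ℝ))) =
            1 / (m₄ : ℝ) * |lam - b| ^ (1 - 1 / (m₄ : ℝ)) := by
          field_simp
        rw [e7] at e6
        exact (mul_le_mul_of_nonneg_right e6 hF.le).trans e1
      · -- third case
        push Not at hcone
        have e1 := h1.2.2 hcone
        have e2 : c₂ * (G t - b) ^ s ≤ c * 1 := mul_le_mul hc₂c hgs hgs0 hc0.le
        rw [mul_one] at e2
        exact (mul_le_mul_of_nonneg_right e2 hF.le).trans e1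
  refine ⟨fun t => (G t - b) ^ (1 - s) / (c * c₂ * (1 - s)),
    fun t => G' t * (1 - s) * (G t - b) ^ (1 - s - 1) / (c * c₂ * (1 - s)), ?_⟩
  filter_upwards [hdec, hclaim, hgt, hev0] with t h1 h2 h3 h4
  have hF := h.Fpos t h4
  have hr := h.rpos t h4
  have hT := h.Tnn t h4
  have hg0 : 0 < G t - b := by linarith
  have hs0 : 0 < 1 - s := by linarith
  refine ⟨?_, ?_, by positivity⟩
  · have hd : HasDerivAt (fun t => G t - b) (G' t) t := h1.1.sub_const b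
    exact (hd.rpow_const (Or.inl hg0.ne')).div_const _
  · have hgs0 : 0 < (G t - b) ^ s := Real.rpow_pos_of_pos hg0 s
    -- the main inequality
    have e1 : max (T t) (r t ^ (3 / 8 * δ₁) * F t) ^ 2 ≤
        T t ^ 2 + r t ^ (3 / 4 * δ₁) * F t ^ 2 := by
      have e2 : (r t ^ (3 / 8 * δ₁) * F t) ^ 2 = r t ^ (3 / 4 * δ₁) * F t ^ 2 := by
        rw [mul_pow, ← Real.rpow_natCast (r t ^ (3 / 8 * δ₁)) 2, ← Real.rpow_mul hr.le]
        congr 2
        push_cast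
        ring
      have e3 : 0 ≤ r t ^ (3 / 4 * δ₁) * F t ^ 2 := by positivity
      rcases max_cases (T t) (r t ^ (3 / 8 * δ₁) * F t) with ⟨h5, _⟩ | ⟨h5, _⟩
      · rw [h5]
        linarith
      · rw [h5, e2]
        nlinarith [sq_nonneg (T t)]
    have e4 : T t * (c₂ * (G t - b) ^ s * F t) ≤ T t ^ 2 + r t ^ (3 / 4 * δ₁) * F t ^ 2 := by
      have e5 : T t ≤ max (T t) (r t ^ (3 / 8 * δ₁) * F t) := le_max_left _ _
      calc T t * (c₂ * (G t - b) ^ s * F t) ≤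
            max (T t) (r t ^ (3 / 8 * δ₁) * F t) * max (T t) (r t ^ (3 / 8 * δ₁) * F t) :=
            mul_le_mul e5 h2 (by positivity) (hT.trans e5)
        _ = max (T t) (r t ^ (3 / 8 * δ₁) * F t) ^ 2 := by ring
        _ ≤ _ := e1
    have e6 : c * (T t * (c₂ * (G t - b) ^ s * F t)) ≤ -(r t ^ 2 * F t * G' t) :=
      (mul_le_mul_of_nonneg_left e4 hc0.le).trans h1.2.1
    have e7 : c * c₂ * (G t - b) ^ s * T t ≤ -(r t ^ 2 * G' t) := by
      have e8 : F t * (c * c₂ * (G t - b) ^ s * T t) ≤ F t * (-(r t ^ 2 * G' t)) := by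
        nlinarith [e6]
      exact le_of_mul_le_mul_left e8 hF
    have e9 : (G t - b) ^ (1 - s - 1) = ((G t - b) ^ s)⁻¹ := by
      rw [← Real.rpow_neg hg0.le]
      congr 1
      ring
    rw [e9]
    have e10 : -(G' t * (1 - s) * ((G t - b) ^ s)⁻¹ / (c * c₂ * (1 - s))) =
        -(r t ^ 2 * G' t) / (c * c₂ * (G t - b) ^ s * r t ^ 2) := by
      field_simp
    have hD : 0 < c * c₂ * (G t - b) ^ s := by positivity
    rw [e10, ← div_div]
    refine div_le_div_of_nonneg_right ?_ (by positivity)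
    rw [le_div_iff₀ hD]
    linarith [e7]

end Pool.Agent.helper62.GF
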