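import Pool.Agent.helper62.GF.K03

/-!
# GF-K11: finite length near a zero (Lojasiewicz)

Let `m` be from `loj_grad`, `ρ` so small that on `‖x‖ ≤ ρ`: `F` is analytic (differentiable), the inequality
`|F x|^{1-1/m} ≤ m ‖∇F x‖` holds, `NearGrad` holds, `K ρ ≤ 1/2`.  Along the curve
`(F ∘ γ)' = ⟪∇F, V⟫ ≤ -(1 - Kρ) ‖∇F‖² ≤ -‖∇F‖²/2`, `‖V‖ ≤ 2 ‖∇F‖`, and `∇F ≠ 0` because `F > 0`.  So
`B = (4 m²) (F ∘ γ)^{1/m}` has derivative
`4 m² (1/m) F^{1/m - 1} (F∘γ)' ≤ -2 m F^{-(1-1/m)} ‖∇F‖² ≤ -2 ‖∇F‖ ≤ -‖V‖ = -‖γ'‖`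
(`F^{1-1/m} ≤ m ‖∇F‖`).  Mean value inequality
(`image_norm_le_of_norm_deriv_right_le_deriv_boundary'` for `γ t - γ s` and `B s - B t`), `C = 4 m²`.
Second statement: `‖∇F‖ ≤ - (C/2 …) (F^{1/m})'`: same computation.
-/

open Filter Topology Set

namespace Pool.Agent.helper62.GF

variable {n : ℕ}

private theorem K11_vec {g v : EE n} {κ : ℝ} (hκ : κ ≤ 1 / 2) (h : ‖v + g‖ ≤ κ * ‖g‖) :
    ‖v‖ ≤ 2 * ‖g‖ ∧ inner ℝ g v ≤ -(1 / 2) * ‖g‖ ^ 2 := by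
  have h0 := norm_nonneg g
  have h1 : ‖v + g‖ ≤ 1 / 2 * ‖g‖ := h.trans (mul_le_mul_of_nonneg_right hκ h0)
  constructor
  · have h2 : v = (v + g) - g := by abel
    have h3 : ‖v‖ ≤ ‖v + g‖ + ‖g‖ := by
      conv_lhs => rw [h2]
      exact norm_sub_le _ _
    linarith
  · have h2 : inner ℝ g v = inner ℝ g (v + g) - ‖g‖ ^ 2 := by
      rw [inner_add_right, real_inner_self_eq_norm_sq]
      ring
    have h3 : inner ℝ g (v + g) ≤ ‖g‖ * ‖v + g‖ := real_inner_le_norm _ _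
    have h4 : ‖g‖ * ‖v + g‖ ≤ ‖g‖ * (1 / 2 * ‖g‖) := mul_le_mul_of_nonneg_left h1 h0
    rw [h2]
    nlinarith

private theorem K11_num {a f i m : ℝ} (hm : 0 < m) (hf : 0 < f) (hi : i ≤ -(1 / 2) * a ^ 2)
    (ha : 0 ≤ a) (h : f ^ (1 - 1 / m) ≤ m * a) :
    2 * a ≤ -(4 * m ^ 2 * (1 / m) * f ^ (1 / m - 1) * i) := by
  have h1 : 0 < f ^ (1 / m - 1) := Real.rpow_pos_of_pos hf _
  have h2 : f ^ (1 / m - 1) * f ^ (1 - 1 / m) = 1 := by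
    rw [← Real.rpow_add hf]
    have : 1 / m - 1 + (1 - 1 / m) = 0 := by ring
    rw [this, Real.rpow_zero]
  have h3 : 1 ≤ f ^ (1 / m - 1) * (m * a) := by
    have h3' := mul_le_mul_of_nonneg_left h h1.le
    rwa [h2] at h3'
  have h4 : 4 * m ^ 2 * (1 / m) = 4 * m := by field_simp
  rw [h4]
  have h5 : 4 * m * f ^ (1 / m - 1) * i ≤ 4 * m * f ^ (1 / m - 1) * (-(1 / 2) * a ^ 2) :=
    mul_le_mul_of_nonneg_left hi (by positivity)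
  have h6 : 2 * a * 1 ≤ 2 * a * (f ^ (1 / m - 1) * (m * a)) :=
    mul_le_mul_of_nonneg_left h3 (by positivity)
  linarith

theorem loj_length (F : EE n → ℝ) (hF : AnalyticAt ℝ F 0) (hF0 : F 0 = 0) (V : EE n → EE n) (K : ℝ)
    (hV : NearGrad F V K) :
    ∃ (ρ : ℝ) (m : ℕ) (C : ℝ), 0 < ρ ∧ 2 ≤ m ∧ 0 < C ∧
      (∀ (T : ℝ), 0 ≤ T → ∀ γ : ℝ → EE n,
        (∀ t ∈ Icc 0 T, HasDerivWithinAt γ (V (γ t)) (Icc 0 T) t) →
        (∀ t ∈ Icc 0 T, ‖γ t‖ ≤ ρ) → (∀ t ∈ Icc 0 T, 0 < F (γ t)) →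
        ∀ s ∈ Icc 0 T, ∀ t ∈ Icc s T,
          ‖γ t - γ s‖ ≤ C * F (γ s) ^ (1 / (m : ℝ)) - C * F (γ t) ^ (1 / (m : ℝ))) ∧
      (∀ x : EE n, ‖x‖ ≤ ρ → 0 < F x →
        DifferentiableAt ℝ F x ∧ ‖V x‖ ≤ 2 * ‖gradient F x‖ ∧
        ‖V x‖ ≤ -(C * (1 / (m : ℝ)) * F x ^ (1 / (m : ℝ) - 1) * inner ℝ (gradient F x) (V x)) ∧
        ‖gradient F x‖ ≤ -(C * (1 / (m : ℝ)) * F x ^ (1 / (m : ℝ) - 1) * inner ℝ (gradient F x) (V x)) ∧
        inner ℝ (gradient F x) (V x) ≤ -(1 / 2) * ‖gradient F x‖ ^ 2) := by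
  obtain ⟨m, hm, hloj⟩ := loj_grad F hF hF0
  obtain ⟨hK, hVe⟩ := hV
  have han : ∀ᶠ x in 𝓝 (0 : EE n), DifferentiableAt ℝ F x :=
    hF.eventually_analyticAt.mono fun x hx => hx.differentiableAt
  obtain ⟨ρ₀, hρ₀, hball⟩ := Metric.nhds_basis_closedBall.eventually_iff.1
    (hloj.and (hVe.and han))
  have hm0 : (0 : ℝ) < m := by
    have : 0 < m := by omega
    exact_mod_cast this
  have hρ : 0 < min ρ₀ (1 / (2 * (K + 1))) := lt_min hρ₀ (by positivity)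
  have hKρ : K * min ρ₀ (1 / (2 * (K + 1))) ≤ 1 / 2 := by
    have h1 : K * min ρ₀ (1 / (2 * (K + 1))) ≤ K * (1 / (2 * (K + 1))) :=
      mul_le_mul_of_nonneg_left (min_le_right _ _) hK
    have h2 : K * (1 / (2 * (K + 1))) ≤ 1 / 2 := by
      rw [mul_one_div, div_le_div_iff₀ (by positivity) (by norm_num)]
      linarith
    exact h1.trans h2
  have pt : ∀ x : EE n, ‖x‖ ≤ min ρ₀ (1 / (2 * (K + 1))) → 0 < F x →
      DifferentiableAt ℝ F x ∧ ‖V x‖ ≤ 2 * ‖gradient F x‖ ∧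
      2 * ‖gradient F x‖ ≤ -(4 * (m : ℝ) ^ 2 * (1 / (m : ℝ)) * F x ^ (1 / (m : ℝ) - 1) *
        inner ℝ (gradient F x) (V x)) ∧
      inner ℝ (gradient F x) (V x) ≤ -(1 / 2) * ‖gradient F x‖ ^ 2 := by
    intro x hx hFx
    obtain ⟨h1, h2, h3⟩ := hball (x := x) (by
      rw [Metric.mem_closedBall, dist_zero_right]
      exact hx.trans (min_le_left _ _))
    rw [abs_of_pos hFx] at h1
    obtain ⟨h4, h5⟩ := K11_vec ((mul_le_mul_of_nonneg_left hx hK).trans hKρ) h2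
    exact ⟨h3, h4, K11_num hm0 hFx h5 (norm_nonneg _) h1, h5⟩
  refine ⟨min ρ₀ (1 / (2 * (K + 1))), m, 4 * (m : ℝ) ^ 2, hρ, hm, by positivity, ?_, ?_⟩
  · intro T hT γ hγ hγρ hγF s hs t ht
    have hdF : ∀ u ∈ Icc 0 T, HasDerivWithinAt (fun u => F (γ u))
        (inner ℝ (gradient F (γ u)) (V (γ u))) (Icc 0 T) u := by
      intro u hu
      have h1 := (pt (γ u) (hγρ u hu) (hγF u hu)).1.hasGradientAt.hasFDerivAt
      have h2 := h1.comp_hasDerivWithinAt u (hγ u hu)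
      exact h2
    have hdB : ∀ u ∈ Icc 0 T, HasDerivWithinAt
        (fun u => 4 * (m : ℝ) ^ 2 * F (γ s) ^ (1 / (m : ℝ)) -
          4 * (m : ℝ) ^ 2 * F (γ u) ^ (1 / (m : ℝ)))
        (-(4 * (m : ℝ) ^ 2 * (1 / (m : ℝ)) * F (γ u) ^ (1 / (m : ℝ) - 1) *
          inner ℝ (gradient F (γ u)) (V (γ u)))) (Icc 0 T) u := by
      intro u hu
      have h1 := (hdF u hu).rpow_const (p := 1 / (m : ℝ)) (Or.inl (hγF u hu).ne')
      have h2 := (h1.const_mul (4 * (m : ℝ) ^ 2)).const_sub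
        (4 * (m : ℝ) ^ 2 * F (γ s) ^ (1 / (m : ℝ)))
      refine h2.congr_deriv ?_
      ring
    have hsub : Icc s T ⊆ Icc 0 T := Icc_subset_Icc_left hs.1
    have hmem : ∀ u ∈ Ico s T, Icc 0 T ∈ 𝓝[Ici u] u := fun u hu =>
      Icc_mem_nhdsGE_of_mem ⟨hs.1.trans hu.1, hu.2⟩
    refine image_norm_le_of_norm_deriv_right_le_deriv_boundary'
      (f := fun u => γ u - γ s) (f' := fun u => V (γ u)) (a := s) (b := T)
      (B := fun u => 4 * (m : ℝ) ^ 2 * F (γ s) ^ (1 / (m : ℝ)) -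
          4 * (m : ℝ) ^ 2 * F (γ u) ^ (1 / (m : ℝ)))
      (B' := fun u => -(4 * (m : ℝ) ^ 2 * (1 / (m : ℝ)) * F (γ u) ^ (1 / (m : ℝ) - 1) *
          inner ℝ (gradient F (γ u)) (V (γ u)))) ?_ ?_ ?_ ?_ ?_ ?_ ht
    · intro u hu
      exact (((hγ u (hsub hu)).sub_const (γ s)).continuousWithinAt).mono hsub
    · intro u hu
      exact ((hγ u (hsub ⟨hu.1, hu.2.le⟩)).sub_const (γ s)).mono_of_mem_nhdsWithin (hmem u hu)
    · simp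
    · intro u hu
      exact ((hdB u (hsub hu)).continuousWithinAt).mono hsub
    · intro u hu
      exact (hdB u (hsub ⟨hu.1, hu.2.le⟩)).mono_of_mem_nhdsWithin (hmem u hu)
    · intro u hu
      have hu' := hsub ⟨hu.1, hu.2.le⟩
      obtain ⟨-, h2, h3, -⟩ := pt (γ u) (hγρ u hu') (hγF u hu')
      exact h2.trans h3
  · intro x hx hFx
    obtain ⟨h1, h2, h3, h4⟩ := pt x hx hFx
    have h5 := norm_nonneg (gradient F x)
    exact ⟨h1, h2, h2.trans h3, by linarith, h4⟩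

end Pool.Agent.helper62.GF
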