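import Pool.Agent.helper62.GF.K06
import Pool.Agent.helper62.GF.K10
import Pool.Agent.helper62.GF.K11

/-!
# GF-K12: the gradient theorem (limit of secants), local form

author: helper90

Replace `γ` by `t ↦ γ (t + t₀)`, `t₀ ≥ 1` so large that all local statements hold along the whole curve; then
`HasDerivAt` holds for all `t ≥ 0`.  Put `r = ‖γ‖` (`> 0` since `F 0 = 0 < F (γ t)`), `F (γ t)`, `R = rad F (γ t)`,
`T = tang`, `N = nrm`, `F' t = ⟪∇F, V⟫`, `r' t = ⟪γ, V⟫/r`.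
KData: `r r' + R = ⟪γ, V + ∇F⟫`, `|…| ≤ r K r ‖∇F‖ = K r N`; `F' r² + N² = r² ⟪∇F, V + ∇F⟫`; `bl` is
`loj_radial`; `low`: by `loj_length`, letting `t → ∞` (`γ t → 0`, so `F (γ t) → 0`):
`r(s) ≤ C F(γ s)^{1/m}`, take logarithms (`N₀ = m`).  ConeProp, AsymProp from `cone_ineq`, `asym_ineq`.
`kt_length` gives `H`.  Then `θ = γ/r` has `θ' = (V - ⟪V,θ⟫ θ)/r`, and
`‖θ'‖ ≤ T/r² + K ‖∇F‖` (the component of `∇F` orthogonal to `γ` has norm `T/r`; the rest is `≤ K r ‖∇F‖`, divided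
by `r`), `≤ -(H + K C F(γ)^{1/m})'` by the last part of `loj_length`.  The function
`B = H + K C F(γ)^{1/m} ≥ 0` is nonincreasing, `‖θ t - θ s‖ ≤ B s - B t`, so `θ` is Cauchy at `∞` and converges;
the limit has norm `1`.
-/

open Filter Topology Set

namespace Pool.Agent.helper62.GF

variable {n : ℕ}

/-- a curve with `‖θ'‖ ≤ -B'`, `B ≥ 0` converges -/
theorem k12_conv {E : Type*} [NormedAddCommGroup E] [NormedSpace ℝ E] [CompleteSpace E]
    (θ θ' : ℝ → E) (B B' : ℝ → ℝ) (a : ℝ) (hθ : ∀ t, a ≤ t → HasDerivAt θ (θ' t) t)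
    (hB : ∀ t, a ≤ t → HasDerivAt B (B' t) t) (hle : ∀ t, a ≤ t → ‖θ' t‖ ≤ -B' t)
    (hB0 : ∀ t, a ≤ t → 0 ≤ B t) : ∃ z, Tendsto θ atTop (𝓝 z) := by
  have key : ∀ s t, a ≤ s → s ≤ t → ‖θ t - θ s‖ ≤ B s - B t := by
    intro s t hs hst
    have h1 := image_norm_le_of_norm_deriv_right_le_deriv_boundary' (f := fun x => θ x - θ s)
      (f' := θ') (B := fun x => B s - B x) (B' := fun x => -B' x) (a := s) (b := t) ?_ ?_ ?_ ?_ ?_ ?_
      ⟨hst, le_refl t⟩
    · exact h1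
    · exact fun x hx => (((hθ x (hs.trans hx.1)).sub_const _).continuousAt).continuousWithinAt
    · exact fun x hx => ((hθ x (hs.trans hx.1)).sub_const _).hasDerivWithinAt
    · simp
    · exact fun x hx => (((hB x (hs.trans hx.1)).const_sub _).continuousAt).continuousWithinAt
    · exact fun x hx => ((hB x (hs.trans hx.1)).const_sub _).hasDerivWithinAt
    · exact fun x hx => hle x (hs.trans hx.1)
  have hanti : ∀ s t, a ≤ s → s ≤ t → B t ≤ B s := fun s t hs hst => by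
    have := (norm_nonneg _).trans (key s t hs hst)
    linarith
  set b := sInf (B '' Ici a) with hb
  have hbdd : BddBelow (B '' Ici a) := ⟨0, by rintro _ ⟨t, ht, rfl⟩; exact hB0 t ht⟩
  have hcau : CauchySeq θ := by
    rw [Metric.cauchySeq_iff']
    intro ε hε
    obtain ⟨_, ⟨N, hN, rfl⟩, hN2⟩ := Real.lt_sInf_add_pos (s := B '' Ici a)
      ⟨B a, a, mem_Ici.2 le_rfl, rfl⟩ hε
    refine ⟨N, fun t ht => ?_⟩
    rw [dist_eq_norm]
    have h1 := key N t hN ht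
    have h2 : b ≤ B t := csInf_le hbdd ⟨t, le_trans hN ht, rfl⟩
    linarith
  exact cauchySeq_tendsto_of_complete hcau

/-- derivative of the norm -/
theorem k12_norm (γ : ℝ → EE n) (v : EE n) (t : ℝ) (h : HasDerivAt γ v t) (h0 : γ t ≠ 0) :
    HasDerivAt (fun s => ‖γ s‖) (inner ℝ (γ t) v / ‖γ t‖) t := by
  have h1 : HasDerivAt (fun s => ‖γ s‖ ^ 2) (2 * inner ℝ (γ t) v) t := h.norm_sq
  have h2 : ‖γ t‖ ^ 2 ≠ 0 := by positivity
  have h3 := h1.sqrt h2
  have h4 : (fun s => Real.sqrt (‖γ s‖ ^ 2)) = fun s => ‖γ s‖ := by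
    ext s
    exact Real.sqrt_sq (norm_nonneg _)
  rw [h4, Real.sqrt_sq (norm_nonneg _)] at h3
  convert h3 using 1
  field_simp

/-- the orthogonal component -/
theorem k12_orth (x w : EE n) (hx : x ≠ 0) :
    ‖w - (inner ℝ w x / ‖x‖ ^ 2) • x‖ ^ 2 = ‖w‖ ^ 2 - inner ℝ w x ^ 2 / ‖x‖ ^ 2 := by
  have h2 : ‖x‖ ^ 2 ≠ 0 := by positivity
  rw [norm_sub_sq_real, inner_smul_right, norm_smul, mul_pow, Real.norm_eq_abs, sq_abs]
  field_simp
  ring

theorem k12_orth_le (x w : EE n) (hx : x ≠ 0) :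
    ‖w - (inner ℝ w x / ‖x‖ ^ 2) • x‖ ≤ ‖w‖ := by
  have h1 := k12_orth x w hx
  have h2 : 0 ≤ inner ℝ w x ^ 2 / ‖x‖ ^ 2 := by positivity
  exact le_of_sq_le_sq (by linarith) (norm_nonneg _) 

theorem k12_tang (f : EE n → ℝ) (x : EE n) (hx : x ≠ 0) :
    ‖gradient f x - (inner ℝ (gradient f x) x / ‖x‖ ^ 2) • x‖ = tang f x / ‖x‖ := by
  have hx0 : 0 < ‖x‖ := norm_pos_iff.2 hx
  have h1 := k12_orth x (gradient f x) hx
  have h2 := nrm_sq f x
  have h3 : 0 ≤ tang f x / ‖x‖ := div_nonneg (tang_nonneg f x) hx0.le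
  have h4 : ‖gradient f x - (inner ℝ (gradient f x) x / ‖x‖ ^ 2) • x‖ ^ 2 =
      (tang f x / ‖x‖) ^ 2 := by
    rw [h1, div_pow, eq_sub_iff_add_eq.2 h2.symm]
    simp only [nrm, rad]
    field_simp
  exact (pow_left_inj₀ (norm_nonneg _) h3 two_ne_zero).1 h4

/-- the derivative of the direction -/
theorem k12_dir (F : EE n → ℝ) (V : EE n → EE n) (K : ℝ) (x : EE n) (hx : x ≠ 0)
    (hV : ‖V x + gradient F x‖ ≤ K * ‖x‖ * ‖gradient F x‖) :
    ‖‖x‖⁻¹ • V x + (-(inner ℝ x (V x) / ‖x‖) / ‖x‖ ^ 2) • x‖ ≤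
      tang F x / ‖x‖ ^ 2 + K * ‖gradient F x‖ := by
  have hx0 : 0 < ‖x‖ := norm_pos_iff.2 hx
  have h1 : ‖x‖⁻¹ • V x + (-(inner ℝ x (V x) / ‖x‖) / ‖x‖ ^ 2) • x =
      ‖x‖⁻¹ • (((V x + gradient F x) - (inner ℝ (V x + gradient F x) x / ‖x‖ ^ 2) • x) -
        (gradient F x - (inner ℝ (gradient F x) x / ‖x‖ ^ 2) • x)) := by
    rw [inner_add_left, real_inner_comm (V x) x]
    module
  rw [h1, norm_smul, norm_inv, norm_norm]
  have h2 := k12_orth_le x (V x + gradient F x) hx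
  have h3 := k12_tang F x hx
  calc ‖x‖⁻¹ * ‖((V x + gradient F x) - (inner ℝ (V x + gradient F x) x / ‖x‖ ^ 2) • x) -
        (gradient F x - (inner ℝ (gradient F x) x / ‖x‖ ^ 2) • x)‖
      ≤ ‖x‖⁻¹ * (K * ‖x‖ * ‖gradient F x‖ + tang F x / ‖x‖) := by
        refine mul_le_mul_of_nonneg_left ?_ (inv_nonneg.2 hx0.le)
        refine (norm_sub_le _ _).trans ?_
        rw [h3]
        linarith
    _ = tang F x / ‖x‖ ^ 2 + K * ‖gradient F x‖ := by
        field_simp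
        ring

theorem gradient_theorem (F : EE n → ℝ) (hF : AnalyticAt ℝ F 0) (hF0 : F 0 = 0) (V : EE n → EE n)
    (K : ℝ) (hV : NearGrad F V K) (γ : ℝ → EE n)
    (hγ : ∀ t, 0 ≤ t → HasDerivWithinAt γ (V (γ t)) (Ici 0) t) (hlim : Tendsto γ atTop (𝓝 0))
    (hpos : ∀ t, 0 ≤ t → 0 < F (γ t)) :
    ∃ z : EE n, ‖z‖ = 1 ∧ Tendsto (fun t => ‖γ t‖⁻¹ • γ t) atTop (𝓝 z) := by
  obtain ⟨ρ, mL, C, hρ, hmL, hC, hlen, hloc⟩ := loj_length F hF hF0 V K hV
  obtain ⟨m₂, hm₂, hrad⟩ := loj_radial F hF hF0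
  obtain ⟨hK0, hVe⟩ := hV
  have hball : ∀ᶠ x in 𝓝 (0 : EE n), ‖x‖ ≤ ρ := by
    have := Metric.closedBall_mem_nhds (0 : EE n) hρ
    filter_upwards [this] with x hx
    simpa using hx
  obtain ⟨t₁, ht₁⟩ := eventually_atTop.1 (hlim.eventually (hball.and (hrad.and hVe)))
  set t₀ := max t₁ 1 with ht₀
  have ht₀1 : 1 ≤ t₀ := le_max_right _ _
  have hgood : ∀ t, 0 ≤ t → ‖γ (t + t₀)‖ ≤ ρ ∧ |F (γ (t + t₀))| ≤ m₂ * nrm F (γ (t + t₀)) ∧
      ‖V (γ (t + t₀)) + gradient F (γ (t + t₀))‖ ≤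
        K * ‖γ (t + t₀)‖ * ‖gradient F (γ (t + t₀))‖ := by
    intro t ht
    refine ht₁ _ ?_
    have := le_max_left t₁ 1
    linarith
  set g : ℝ → EE n := fun t => γ (t + t₀) with hg
  have hgpos : ∀ t, 0 ≤ t → 0 < F (g t) := fun t ht => hpos _ (by linarith)
  have hg0 : ∀ t, 0 ≤ t → g t ≠ 0 := by
    intro t ht h0
    have h1 := hgpos t ht
    rw [h0, hF0] at h1
    exact lt_irrefl _ h1
  have hgd : ∀ t, 0 ≤ t → HasDerivAt g (V (g t)) t := by
    intro t ht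
    have h1 : HasDerivAt γ (V (γ (t + t₀))) (t + t₀) :=
      (hγ (t + t₀) (by linarith)).hasDerivAt (Ici_mem_nhds (by linarith))
    exact h1.comp_add_const t t₀
  have hglim : Tendsto g atTop (𝓝 0) := hlim.comp (tendsto_atTop_add_const_right _ _ tendsto_id)
  have hFd : ∀ t, 0 ≤ t → HasDerivAt (fun s => F (g s)) (inner ℝ (gradient F (g t)) (V (g t))) t := by
    intro t ht
    have h1 := (hloc (g t) (hgood t ht).1 (hgpos t ht)).1
    exact h1.hasGradientAt.hasFDerivAt.comp_hasDerivAt t (hgd t ht)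
  have hrd : ∀ t, 0 ≤ t → HasDerivAt (fun s => ‖g s‖) (inner ℝ (g t) (V (g t)) / ‖g t‖) t :=
    fun t ht => k12_norm g _ t (hgd t ht) (hg0 t ht)
  have hrpos : ∀ t, 0 ≤ t → 0 < ‖g t‖ := fun t ht => norm_pos_iff.2 (hg0 t ht)
  have hmL0 : (0 : ℝ) < mL := by
    have : 0 < mL := by omega
    exact_mod_cast this
  -- `r ≤ C F^{1/m}`
  have hrF : ∀ s, 0 ≤ s → ‖g s‖ ≤ C * F (g s) ^ (1 / (mL : ℝ)) := by
    intro s hs
    have h1 : ∀ t, s ≤ t → ‖g t - g s‖ ≤ C * F (g s) ^ (1 / (mL : ℝ)) := by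
      intro t hst
      have h2 := hlen t (hs.trans hst) g (fun x hx => (hgd x hx.1).hasDerivWithinAt)
        (fun x hx => (hgood x hx.1).1) (fun x hx => hgpos x hx.1) s ⟨hs, hst⟩ t ⟨hst, le_refl t⟩
      have h3 : 0 ≤ C * F (g t) ^ (1 / (mL : ℝ)) :=
        mul_nonneg hC.le (Real.rpow_nonneg (hgpos t (hs.trans hst)).le _)
      linarith
    have h4 : Tendsto (fun t => ‖g t - g s‖) atTop (𝓝 ‖(0 : EE n) - g s‖) :=
      (hglim.sub_const _).norm
    rw [zero_sub, norm_neg] at h4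
    exact le_of_tendsto h4 (eventually_atTop.2 ⟨s, h1⟩)
  have hKD : KData (fun t => F (g t)) (fun t => ‖g t‖) (fun t => rad F (g t))
      (fun t => tang F (g t)) (fun t => nrm F (g t))
      (fun t => inner ℝ (gradient F (g t)) (V (g t))) (fun t => inner ℝ (g t) (V (g t)) / ‖g t‖)
      K m₂ (mL * Real.log C) mL := by
    refine ⟨hK0, by exact_mod_cast hm₂, hFd, hrd, hgpos, hrpos, fun t _ => tang_nonneg _ _,
      fun t _ => nrm_nonneg _ _, fun t _ => nrm_sq _ _, ?_, ?_, ?_, ?_, ?_⟩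
    · intro t ht
      have h1 : ‖g t‖ * (inner ℝ (g t) (V (g t)) / ‖g t‖) + rad F (g t) =
          inner ℝ (g t) (V (g t) + gradient F (g t)) := by
        rw [mul_div_cancel₀ _ (hrpos t ht).ne', inner_add_right, rad,
          real_inner_comm (gradient F (g t)) (g t)]
      show |‖g t‖ * (inner ℝ (g t) (V (g t)) / ‖g t‖) + rad F (g t)| ≤ K * ‖g t‖ * nrm F (g t)
      rw [h1]
      calc |inner ℝ (g t) (V (g t) + gradient F (g t))|
          ≤ ‖g t‖ * ‖V (g t) + gradient F (g t)‖ := abs_real_inner_le_norm _ _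
        _ ≤ ‖g t‖ * (K * ‖g t‖ * ‖gradient F (g t)‖) :=
          mul_le_mul_of_nonneg_left (hgood t ht).2.2 (norm_nonneg _)
        _ = K * ‖g t‖ * nrm F (g t) := by rw [nrm]; ring
    · intro t ht
      have h1 : inner ℝ (gradient F (g t)) (V (g t)) * ‖g t‖ ^ 2 + nrm F (g t) ^ 2 =
          ‖g t‖ ^ 2 * inner ℝ (gradient F (g t)) (V (g t) + gradient F (g t)) := by
        rw [inner_add_right, real_inner_self_eq_norm_sq, nrm]
        ring
      show |inner ℝ (gradient F (g t)) (V (g t)) * ‖g t‖ ^ 2 + nrm F (g t) ^ 2| ≤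
        K * ‖g t‖ * nrm F (g t) ^ 2
      rw [h1, abs_mul, abs_of_nonneg (by positivity : 0 ≤ ‖g t‖ ^ 2)]
      calc ‖g t‖ ^ 2 * |inner ℝ (gradient F (g t)) (V (g t) + gradient F (g t))|
          ≤ ‖g t‖ ^ 2 * (‖gradient F (g t)‖ * ‖V (g t) + gradient F (g t)‖) :=
            mul_le_mul_of_nonneg_left (abs_real_inner_le_norm _ _) (by positivity)
        _ ≤ ‖g t‖ ^ 2 * (‖gradient F (g t)‖ * (K * ‖g t‖ * ‖gradient F (g t)‖)) := by
            gcongr
            exact (hgood t ht).2.2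
        _ = K * ‖g t‖ * nrm F (g t) ^ 2 := by rw [nrm]; ring
    · intro t ht
      have h1 := (hgood t ht).2.1
      exact (le_abs_self _).trans h1
    · intro t ht
      have h1 := hrF t ht
      have h2 : Real.log ‖g t‖ ≤ Real.log (C * F (g t) ^ (1 / (mL : ℝ))) :=
        Real.log_le_log (hrpos t ht) h1
      rw [Real.log_mul hC.ne' (Real.rpow_pos_of_pos (hgpos t ht) _).ne',
        Real.log_rpow (hgpos t ht)] at h2
      have h3 := mul_le_mul_of_nonneg_left h2 hmL0.le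
      have h4 : (mL : ℝ) * (Real.log C + 1 / (mL : ℝ) * Real.log (F (g t))) =
          mL * Real.log C + Real.log (F (g t)) := by
        field_simp
      show (mL : ℝ) * Real.log ‖g t‖ - mL * Real.log C ≤ Real.log (F (g t))
      linarith
    · have := hglim.norm
      rwa [norm_zero] at this
  have hcone : ConeProp (fun t => F (g t)) (fun t => ‖g t‖) (fun t => rad F (g t))
      (fun t => tang F (g t)) := by
    intro ε hε
    obtain ⟨m, hm, h1⟩ := cone_ineq F hF hF0 ε hε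
    refine ⟨m, hm, ?_⟩
    filter_upwards [hglim.eventually h1, eventually_ge_atTop (0 : ℝ)] with t h2 ht h3
    exact h2 (hgpos t ht) h3
  have hasym : AsymProp (fun t => F (g t)) (fun t => ‖g t‖) (fun t => rad F (g t))
      (fun t => tang F (g t)) := by
    intro p q hp hq b C₁ δ₁ hδ₁
    obtain ⟨m, hm, h1⟩ := asym_ineq F hF hF0 p q hp hq b C₁ δ₁ hδ₁
    refine ⟨m, hm, ?_⟩
    filter_upwards [hglim.eventually h1, eventually_ge_atTop (0 : ℝ)] with t h2 ht h3 h4 h5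
    exact h2 (hgpos t ht) h3 h4 h5
  obtain ⟨H, H', hH⟩ := kt_length hKD hcone hasym
  obtain ⟨t₂, ht₂⟩ := eventually_atTop.1 hH
  set a := max t₂ 0 with ha
  have ha0 : ∀ t, a ≤ t → 0 ≤ t := fun t ht => (le_max_right t₂ 0).trans ht
  have ha2 : ∀ t, a ≤ t → t₂ ≤ t := fun t ht => (le_max_left t₂ 0).trans ht
  set θ : ℝ → EE n := fun t => ‖g t‖⁻¹ • g t with hθ
  have hθd : ∀ t, a ≤ t → HasDerivAt θ
      (‖g t‖⁻¹ • V (g t) + (-(inner ℝ (g t) (V (g t)) / ‖g t‖) / ‖g t‖ ^ 2) • g t) t := by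
    intro t ht
    have h1 := (hrd t (ha0 t ht)).inv (hrpos t (ha0 t ht)).ne'
    exact h1.smul (hgd t (ha0 t ht))
  have hconv : ∃ z, Tendsto θ atTop (𝓝 z) := by
    refine k12_conv θ
      (fun t => ‖g t‖⁻¹ • V (g t) + (-(inner ℝ (g t) (V (g t)) / ‖g t‖) / ‖g t‖ ^ 2) • g t)
      (fun t => H t + K * (C * F (g t) ^ (1 / (mL : ℝ))))
      (fun t => H' t + K * (C * (inner ℝ (gradient F (g t)) (V (g t)) * (1 / (mL : ℝ)) *
        F (g t) ^ (1 / (mL : ℝ) - 1)))) a hθd ?_ ?_ ?_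
    · intro t ht
      have h1 := (ht₂ t (ha2 t ht)).1
      have h2 := (hFd t (ha0 t ht)).rpow_const (p := 1 / (mL : ℝ)) (Or.inl (hgpos t (ha0 t ht)).ne')
      exact h1.add ((h2.const_mul C).const_mul K)
    · intro t ht
      have h1 := (ht₂ t (ha2 t ht)).2.1
      have h2 := (hloc (g t) (hgood t (ha0 t ht)).1 (hgpos t (ha0 t ht))).2.2.2.1
      have h3 := k12_dir F V K (g t) (hg0 t (ha0 t ht)) (hgood t (ha0 t ht)).2.2
      have h4 := mul_le_mul_of_nonneg_left h2 hK0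
      refine h3.trans ?_
      have h5 : K * -(C * (1 / (mL : ℝ)) * F (g t) ^ (1 / (mL : ℝ) - 1) *
          inner ℝ (gradient F (g t)) (V (g t))) = -(K * (C * (inner ℝ (gradient F (g t)) (V (g t)) *
          (1 / (mL : ℝ)) * F (g t) ^ (1 / (mL : ℝ) - 1)))) := by ring
      rw [h5] at h4
      linarith
    · intro t ht
      have h1 := (ht₂ t (ha2 t ht)).2.2
      have h2 : 0 ≤ F (g t) ^ (1 / (mL : ℝ)) := Real.rpow_nonneg (hgpos t (ha0 t ht)).le _
      positivity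
  obtain ⟨z, hz⟩ := hconv
  refine ⟨z, ?_, ?_⟩
  · have h1 : Tendsto (fun t => ‖θ t‖) atTop (𝓝 ‖z‖) := hz.norm
    have h2 : (fun t => ‖θ t‖) =ᶠ[atTop] fun _ => (1 : ℝ) := by
      filter_upwards [eventually_ge_atTop (0 : ℝ)] with t ht
      rw [hθ, norm_smul, norm_inv, norm_norm, inv_mul_cancel₀ (hrpos t ht).ne']
    exact tendsto_nhds_unique (h1.congr' h2) tendsto_const_nhds
  · have h1 : Tendsto (fun t : ℝ => t - t₀) atTop atTop :=
      tendsto_atTop_add_const_right _ _ tendsto_id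
    have h2 := hz.comp h1
    refine h2.congr fun t => ?_
    simp only [hθ, hg, Function.comp_apply, sub_add_cancel]

end Pool.Agent.helper62.GF
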