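import Pool.Agent.helper62.GF.N03
import Pool.Agent.helper62.GF.K12

/-!
# GF-N08: the limit secant is a critical point of `P` on the sphere with `P ≥ 0`

author of the proof: helper90

`P = lead k F 0`, `r = ‖γ‖ > 0`, `θ = γ/r → z`.
`P z ≥ 0`: `0 < F(γ)/r^k = P(θ) + O(r)` (`lead_approx`, `lead_smul`).
Critical: let `v ⊥ z`; replace by contradiction `v` by `±v` with `a = DP(z) v > 0`.  Put
`q t = ⟪θ t, v⟫` (bounded).  `V = -B ∇F = -r^{k-1} (∇P(θ) + O(r))` (`B` is Lipschitz near `0`, `B 0 = id`), so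
`q' = ⟪V, v⟫/r - ⟪γ, v⟫⟪γ, V⟫/r³ = -r^{k-2} (⟪∇P(θ), v⟫ - ⟪θ, v⟫ ⟪∇P(θ), θ⟫ + O(r))`, and the bracket tends to
`a - 0`; so `q' ≤ -(a/2) r^{k-2}` for large `t`, while `|(log r)'| = |⟪γ, V⟫|/r² ≤ C r^{k-2}`.  Hence
`q - (a/(2C)) log r` is … nonincreasing: `q' ≤ -(a/2) r^{k-2} ≤ (a/(2C)) (log r)'`; so
`q(t) - q(t₀) ≤ (a/(2C)) (log r(t) - log r(t₀)) → -∞`: contradiction with `q` bounded.
-/

open Filter Topology Set MeasureTheory

namespace Pool.Agent.helper62.GF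

variable {n : ℕ}

theorem nearGrad_of_norm {F : EE n → ℝ} {V : EE n → EE n} {B : EE n → (EE n →L[ℝ] EE n)}
    (h : NormData F V B) : ∃ K : ℝ, NearGrad F V K := by
  obtain ⟨K, s, hs, hK⟩ := h.cB.exists_lipschitzOnWith
  refine ⟨K, K.2, ?_⟩
  filter_upwards [h.eq, hs] with x hx hxs
  have h0 : (0 : EE n) ∈ s := mem_of_mem_nhds hs
  have h1 : ‖B 0 - B x‖ ≤ K * ‖x‖ := by
    have := hK.norm_sub_le h0 hxs
    rwa [zero_sub, norm_neg] at this
  have h2 : V x + gradient F x = (B 0 - B x) (gradient F x) := by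
    rw [hx, h.B0]
    simp only [sub_apply, ContinuousLinearMap.id_apply]
    abel
  rw [h2]
  exact (ContinuousLinearMap.le_opNorm _ _).trans (mul_le_mul_of_nonneg_right h1 (norm_nonneg _))

private theorem n08_grad_norm (f g : EE n → ℝ) (x y : EE n) :
    ‖gradient f x - gradient g y‖ = ‖fderiv ℝ f x - fderiv ℝ g y‖ := by
  simp only [gradient]
  rw [← map_sub, LinearIsometryEquiv.norm_map]

private theorem n08_grad_smul (k : ℕ) (hk : 1 ≤ k) (F : EE n → ℝ) (c : ℝ) (v : EE n) :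
    gradient (lead k F 0) (c • v) = c ^ (k - 1) • gradient (lead k F 0) v := by
  simp only [gradient]
  rw [fderiv_lead_smul k hk, map_smul]

private theorem n08_grad_cont (k : ℕ) (F : EE n → ℝ) (z : EE n) :
    ContinuousAt (gradient (lead k F 0)) z := by
  have h1 : ContinuousAt (fderiv ℝ (lead k F 0)) z := (lead_analytic k F 0 z).fderiv.continuousAt
  exact (InnerProductSpace.toDual ℝ (EE n)).symm.continuous.continuousAt.comp h1

/-- `V / r^(k-1)` tends to `-∇P(z)` -/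
private theorem n08_w (k : ℕ) (F : EE n → ℝ) (V : EE n → EE n) (B : EE n → (EE n →L[ℝ] EE n))
    (h : NormData F V B) (hk : HasOrd k F 0) (γ : ℝ → EE n)
    (hlim : Tendsto γ atTop (𝓝 0)) (hne : ∀ t, 0 ≤ t → γ t ≠ 0) (z : EE n)
    (hz : Tendsto (fun t => ‖γ t‖⁻¹ • γ t) atTop (𝓝 z)) :
    Tendsto (fun t => (‖γ t‖ ^ (k - 1))⁻¹ • V (γ t)) atTop (𝓝 (-gradient (lead k F 0) z)) := by
  obtain ⟨K, hK0, hK⟩ := nearGrad_of_norm h
  obtain ⟨C, hC0, hC⟩ := lead_approx k F h.anF h.F0 hk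
  have hk1 : 1 ≤ k := le_trans (by norm_num) hk.1
  have hgP : Tendsto (fun t => gradient (lead k F 0) (‖γ t‖⁻¹ • γ t)) atTop
      (𝓝 (gradient (lead k F 0) z)) := (n08_grad_cont k F z).tendsto.comp hz
  have hr : Tendsto (fun t => ‖γ t‖) atTop (𝓝 0) := by
    have := hlim.norm
    rwa [norm_zero] at this
  have hb : Tendsto (fun t => K * ‖γ t‖ * (‖gradient (lead k F 0) (‖γ t‖⁻¹ • γ t)‖ + C * ‖γ t‖) +
      C * ‖γ t‖) atTop (𝓝 0) := by
    have h1 := (((hr.const_mul K).mul (hgP.norm.add (hr.const_mul C))).add (hr.const_mul C))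
    simpa using h1
  have hdiff : Tendsto (fun t => (‖γ t‖ ^ (k - 1))⁻¹ • V (γ t) +
      gradient (lead k F 0) (‖γ t‖⁻¹ • γ t)) atTop (𝓝 0) := by
    refine squeeze_zero_norm' ?_ hb
    filter_upwards [hlim.eventually hK, hlim.eventually hC, eventually_ge_atTop (0 : ℝ)] with t h1 h2 ht
    have hr0 : 0 < ‖γ t‖ := norm_pos_iff.2 (hne t ht)
    have hrk : 0 < ‖γ t‖ ^ (k - 1) := pow_pos hr0 _
    have hpk : ‖γ t‖ ^ k = ‖γ t‖ ^ (k - 1) * ‖γ t‖ := by
      rw [← pow_succ, Nat.sub_add_cancel hk1]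
    have h3 : gradient (lead k F 0) (γ t) =
        ‖γ t‖ ^ (k - 1) • gradient (lead k F 0) (‖γ t‖⁻¹ • γ t) := by
      rw [← n08_grad_smul k hk1, smul_smul, mul_inv_cancel₀ hr0.ne', one_smul]
    have h4 : ‖gradient F (γ t) - gradient (lead k F 0) (γ t)‖ ≤ C * ‖γ t‖ ^ k := by
      rw [n08_grad_norm]
      exact h2.2.1
    have h5 : ‖gradient F (γ t)‖ ≤
        ‖γ t‖ ^ (k - 1) * (‖gradient (lead k F 0) (‖γ t‖⁻¹ • γ t)‖ + C * ‖γ t‖) := by
      have h6 : ‖gradient F (γ t)‖ ≤ ‖gradient F (γ t) - gradient (lead k F 0) (γ t)‖ +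
          ‖gradient (lead k F 0) (γ t)‖ := by
        have := norm_add_le (gradient F (γ t) - gradient (lead k F 0) (γ t)) (gradient (lead k F 0) (γ t))
        rwa [sub_add_cancel] at this
      have h7 : ‖gradient (lead k F 0) (γ t)‖ =
          ‖γ t‖ ^ (k - 1) * ‖gradient (lead k F 0) (‖γ t‖⁻¹ • γ t)‖ := by
        rw [h3, norm_smul, norm_pow, norm_norm]
      rw [h7] at h6
      rw [hpk] at h4
      nlinarith
    have h6 : ‖V (γ t) + gradient (lead k F 0) (γ t)‖ ≤ ‖γ t‖ ^ (k - 1) *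
        (K * ‖γ t‖ * (‖gradient (lead k F 0) (‖γ t‖⁻¹ • γ t)‖ + C * ‖γ t‖) + C * ‖γ t‖) := by
      have h7 : V (γ t) + gradient (lead k F 0) (γ t) = (V (γ t) + gradient F (γ t)) -
          (gradient F (γ t) - gradient (lead k F 0) (γ t)) := by abel
      rw [h7]
      refine (norm_sub_le _ _).trans ?_
      have h8 := mul_le_mul_of_nonneg_left h5 (mul_nonneg hK0 hr0.le)
      rw [hpk] at h4
      nlinarith
    have h7 : (‖γ t‖ ^ (k - 1))⁻¹ • V (γ t) + gradient (lead k F 0) (‖γ t‖⁻¹ • γ t) =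
        (‖γ t‖ ^ (k - 1))⁻¹ • (V (γ t) + gradient (lead k F 0) (γ t)) := by
      rw [smul_add, h3, smul_smul, inv_mul_cancel₀ hrk.ne', one_smul]
    rw [h7, norm_smul, norm_inv, norm_pow, norm_norm]
    calc (‖γ t‖ ^ (k - 1))⁻¹ * ‖V (γ t) + gradient (lead k F 0) (γ t)‖
        ≤ (‖γ t‖ ^ (k - 1))⁻¹ * (‖γ t‖ ^ (k - 1) *
          (K * ‖γ t‖ * (‖gradient (lead k F 0) (‖γ t‖⁻¹ • γ t)‖ + C * ‖γ t‖) + C * ‖γ t‖)) :=
          mul_le_mul_of_nonneg_left h6 (inv_nonneg.2 hrk.le)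
      _ = K * ‖γ t‖ * (‖gradient (lead k F 0) (‖γ t‖⁻¹ • γ t)‖ + C * ‖γ t‖) + C * ‖γ t‖ := by
          rw [← mul_assoc, inv_mul_cancel₀ hrk.ne', one_mul]
  have h1 := hdiff.sub hgP
  rw [zero_sub] at h1
  refine h1.congr fun t => ?_
  abel

private theorem n08_crit (k : ℕ) (hk : 2 ≤ k) (V : EE n → EE n) (γ : ℝ → EE n) (hγ : IsTraj V γ)
    (hlim : Tendsto γ atTop (𝓝 0)) (hne : ∀ t, 0 ≤ t → γ t ≠ 0) (z y : EE n)
    (hz : Tendsto (fun t => ‖γ t‖⁻¹ • γ t) atTop (𝓝 z))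
    (hw : Tendsto (fun t => (‖γ t‖ ^ (k - 1))⁻¹ • V (γ t)) atTop (𝓝 (-y)))
    (v : EE n) (hv : inner ℝ z v = 0) (hy : (0 : ℝ) < inner ℝ y v) : False := by
  set a : ℝ := inner ℝ y v with ha
  set b : ℝ := |(inner ℝ z y : ℝ)| + 1 with hb
  have hb0 : 0 < b := by positivity
  set w : ℝ → EE n := fun t => (‖γ t‖ ^ (k - 1))⁻¹ • V (γ t) with hwdef
  set θ : ℝ → EE n := fun t => ‖γ t‖⁻¹ • γ t with hθ
  have hr : Tendsto (fun t => ‖γ t‖) atTop (𝓝 0) := by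
    have := hlim.norm
    rwa [norm_zero] at this
  -- limits
  have l1 : Tendsto (fun t => (inner ℝ (w t) v : ℝ) - inner ℝ (θ t) (w t) * inner ℝ (θ t) v) atTop
      (𝓝 (-a)) := by
    have h1 : Tendsto (fun t => (inner ℝ (w t) v : ℝ)) atTop (𝓝 (inner ℝ (-y) v)) :=
      hw.inner tendsto_const_nhds
    have h2 : Tendsto (fun t => (inner ℝ (θ t) (w t) : ℝ)) atTop (𝓝 (inner ℝ z (-y))) := hz.inner hw
    have h3 : Tendsto (fun t => (inner ℝ (θ t) v : ℝ)) atTop (𝓝 (inner ℝ z v)) :=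
      hz.inner tendsto_const_nhds
    have h4 := h1.sub (h2.mul h3)
    rwa [hv, mul_zero, sub_zero, inner_neg_left] at h4
  have l2 : Tendsto (fun t => (inner ℝ (θ t) (w t) : ℝ)) atTop (𝓝 (inner ℝ z (-y))) := hz.inner hw
  have e1 : ∀ᶠ t in atTop, (inner ℝ (w t) v : ℝ) - inner ℝ (θ t) (w t) * inner ℝ (θ t) v < -(a / 2) :=
    l1.eventually (gt_mem_nhds (by linarith))
  have e2 : ∀ᶠ t in atTop, -b < (inner ℝ (θ t) (w t) : ℝ) := by
    refine l2.eventually (lt_mem_nhds ?_)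
    rw [inner_neg_right]
    have := le_abs_self (inner ℝ z y : ℝ)
    linarith
  obtain ⟨T₀, hT₀⟩ := eventually_atTop.1 (e1.and e2)
  set T := max T₀ 1 with hT
  have hT1 : 1 ≤ T := le_max_right _ _
  have hTT : ∀ t, T ≤ t → T₀ ≤ t := fun t ht => (le_max_left _ _).trans ht
  -- derivatives
  have hd : ∀ t, T ≤ t → HasDerivAt γ (V (γ t)) t := fun t ht =>
    (hγ t (by linarith)).hasDerivAt (Ici_mem_nhds (by linarith))
  have hr0 : ∀ t, T ≤ t → 0 < ‖γ t‖ := fun t ht => norm_pos_iff.2 (hne t (by linarith))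
  have hrd : ∀ t, T ≤ t → HasDerivAt (fun s => ‖γ s‖) (inner ℝ (γ t) (V (γ t)) / ‖γ t‖) t :=
    fun t ht => k12_norm γ _ t (hd t ht) (hne t (by linarith))
  set c : ℝ := a / (2 * b) with hc
  have hc0 : 0 < c := by positivity
  set G : ℝ → ℝ := fun t => inner ℝ (θ t) v - c * Real.log ‖γ t‖ with hG
  have hGd : ∀ t, T ≤ t → HasDerivAt G (‖γ t‖ ^ (k - 2) *
      (((inner ℝ (w t) v : ℝ) - inner ℝ (θ t) (w t) * inner ℝ (θ t) v) - c * inner ℝ (θ t) (w t))) t := by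
    intro t ht
    have h1 := (hrd t ht).inv (hr0 t ht).ne'
    have h2 : HasDerivAt θ (‖γ t‖⁻¹ • V (γ t) +
        (-(inner ℝ (γ t) (V (γ t)) / ‖γ t‖) / ‖γ t‖ ^ 2) • γ t) t := h1.smul (hd t ht)
    have h3 : HasDerivAt (fun s => (inner ℝ (θ s) v : ℝ)) (inner ℝ (‖γ t‖⁻¹ • V (γ t) +
        (-(inner ℝ (γ t) (V (γ t)) / ‖γ t‖) / ‖γ t‖ ^ 2) • γ t) v) t := by
      have := h2.inner ℝ (hasDerivAt_const t v)
      simpa using this
    have h4 := (hrd t ht).log (hr0 t ht).ne'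
    have h5 := h3.sub (h4.const_mul c)
    have hne' := (hr0 t ht).ne'
    have hV : V (γ t) = ‖γ t‖ ^ (k - 1) • w t := by
      rw [hwdef]
      simp only
      rw [smul_smul, mul_inv_cancel₀ (pow_ne_zero _ hne'), one_smul]
    have hγθ : γ t = ‖γ t‖ • θ t := by
      rw [hθ]
      simp only
      rw [smul_smul, mul_inv_cancel₀ hne', one_smul]
    have hpk : ‖γ t‖ ^ (k - 1) = ‖γ t‖ ^ (k - 2) * ‖γ t‖ := by
      rw [← pow_succ]
      congr 1
      omega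
    have key : ‖γ t‖ ^ (k - 2) *
        (((inner ℝ (w t) v : ℝ) - inner ℝ (θ t) (w t) * inner ℝ (θ t) v) - c * inner ℝ (θ t) (w t)) =
        inner ℝ (‖γ t‖⁻¹ • V (γ t) + (-(inner ℝ (γ t) (V (γ t)) / ‖γ t‖) / ‖γ t‖ ^ 2) • γ t) v -
          c * (inner ℝ (γ t) (V (γ t)) / ‖γ t‖ / ‖γ t‖) := by
      have i1 : (inner ℝ (V (γ t)) v : ℝ) = ‖γ t‖ ^ (k - 2) * ‖γ t‖ * inner ℝ (w t) v := by
        rw [← hpk]
        conv_lhs => rw [hV]
        rw [real_inner_smul_left]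
      have i2 : (inner ℝ (γ t) v : ℝ) = ‖γ t‖ * inner ℝ (θ t) v := by
        conv_lhs => rw [hγθ]
        rw [real_inner_smul_left]
      have i3 : (inner ℝ (γ t) (V (γ t)) : ℝ) =
          ‖γ t‖ * (‖γ t‖ ^ (k - 2) * ‖γ t‖ * inner ℝ (θ t) (w t)) := by
        rw [← hpk]
        have : (inner ℝ (γ t) (V (γ t)) : ℝ) = inner ℝ (‖γ t‖ • θ t) (‖γ t‖ ^ (k - 1) • w t) := by
          rw [← hV, ← hγθ]
        rw [this, real_inner_smul_left, real_inner_smul_right]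
      have i4 : (inner ℝ (‖γ t‖⁻¹ • V (γ t) +
          (-(inner ℝ (γ t) (V (γ t)) / ‖γ t‖) / ‖γ t‖ ^ 2) • γ t) v : ℝ) =
          ‖γ t‖⁻¹ * inner ℝ (V (γ t)) v +
            (-(inner ℝ (γ t) (V (γ t)) / ‖γ t‖) / ‖γ t‖ ^ 2) * inner ℝ (γ t) v := by
        rw [inner_add_left, real_inner_smul_left, real_inner_smul_left]
      rw [i4, i1, i2, i3]
      field_simp
      ring
    rw [key]
    exact h5
  have hanti : AntitoneOn G (Ici T) := by
    refine antitoneOn_of_deriv_nonpos (convex_Ici T)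
      (fun t ht => (hGd t ht).continuousAt.continuousWithinAt) ?_ ?_
    · rw [interior_Ici]
      exact fun t ht => (hGd t (le_of_lt ht)).differentiableAt.differentiableWithinAt
    · rw [interior_Ici]
      intro t ht
      have ht' : T ≤ t := le_of_lt ht
      rw [(hGd t ht').deriv]
      refine mul_nonpos_of_nonneg_of_nonpos (pow_nonneg (hr0 t ht').le _) ?_
      obtain ⟨h1, h2⟩ := hT₀ t (hTT t ht')
      have h3 : c * b = a / 2 := by
        rw [hc]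
        field_simp
      have h4 : c * (-b) ≤ c * inner ℝ (θ t) (w t) := mul_le_mul_of_nonneg_left h2.le hc0.le
      linarith
  -- contradiction
  have hlog : Tendsto (fun t => Real.log ‖γ t‖) atTop atBot := by
    refine Real.tendsto_log_nhdsGT_zero.comp ?_
    rw [tendsto_nhdsWithin_iff]
    refine ⟨hr, ?_⟩
    filter_upwards [eventually_ge_atTop (0 : ℝ)] with t ht
    exact norm_pos_iff.2 (hne t ht)
  obtain ⟨t, ht1, ht2⟩ := ((hlog.eventually (eventually_lt_atBot (-(G T + ‖v‖) / c))).and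
    (eventually_ge_atTop T)).exists
  have h1 : G t ≤ G T := hanti (mem_Ici.2 le_rfl) (mem_Ici.2 ht2) ht2
  have h2 : -‖v‖ ≤ (inner ℝ (θ t) v : ℝ) := by
    have h3 : ‖θ t‖ = 1 := by
      rw [hθ]
      simp only
      rw [norm_smul, norm_inv, norm_norm, inv_mul_cancel₀ (hr0 t ht2).ne']
    have h4 := abs_real_inner_le_norm (θ t) v
    rw [h3, one_mul] at h4
    exact (abs_le.1 h4).1
  rw [lt_div_iff₀ hc0] at ht1
  have h3 : G t = inner ℝ (θ t) v - c * Real.log ‖γ t‖ := rfl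
  nlinarith

theorem secant_critical (k : ℕ) (F : EE n → ℝ) (V : EE n → EE n) (B : EE n → (EE n →L[ℝ] EE n))
    (h : NormData F V B) (hk : HasOrd k F 0) (γ : ℝ → EE n) (hγ : IsTraj V γ)
    (hlim : Tendsto γ atTop (𝓝 0)) (hpos : ∀ t, 0 ≤ t → 0 < F (γ t)) (z : EE n)
    (hz : Tendsto (fun t => ‖γ t‖⁻¹ • γ t) atTop (𝓝 z)) (hz1 : ‖z‖ = 1) :
    0 ≤ lead k F 0 z ∧ ∀ v : EE n, inner ℝ z v = 0 → fderiv ℝ (lead k F 0) z v = 0 := by
  have hne : ∀ t, 0 ≤ t → γ t ≠ 0 := by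
    intro t ht h0
    have := hpos t ht
    rw [h0, h.F0] at this
    exact lt_irrefl _ this
  have hr : Tendsto (fun t => ‖γ t‖) atTop (𝓝 0) := by
    have := hlim.norm
    rwa [norm_zero] at this
  have hw := n08_w k F V B h hk γ hlim hne z hz
  refine ⟨?_, ?_⟩
  · obtain ⟨C, hC0, hC⟩ := lead_approx k F h.anF h.F0 hk
    have h1 : Tendsto (fun t => lead k F 0 (‖γ t‖⁻¹ • γ t) + C * ‖γ t‖) atTop
        (𝓝 (lead k F 0 z + C * 0)) :=
      ((lead_analytic k F 0 z).continuousAt.tendsto.comp hz).add (hr.const_mul C)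
    rw [mul_zero, add_zero] at h1
    refine ge_of_tendsto h1 ?_
    filter_upwards [hlim.eventually hC, eventually_ge_atTop (0 : ℝ)] with t h2 ht
    have hr0 : 0 < ‖γ t‖ := norm_pos_iff.2 (hne t ht)
    have h3 : lead k F 0 (‖γ t‖⁻¹ • γ t) = (‖γ t‖ ^ k)⁻¹ * lead k F 0 (γ t) := by
      rw [lead_smul, inv_pow]
    have h4 : 0 < lead k F 0 (γ t) + C * ‖γ t‖ ^ (k + 1) := by
      have h5 := (abs_le.1 h2.1).2
      have h6 := hpos t ht
      linarith
    have h5 : lead k F 0 (‖γ t‖⁻¹ • γ t) + C * ‖γ t‖ =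
        (‖γ t‖ ^ k)⁻¹ * (lead k F 0 (γ t) + C * ‖γ t‖ ^ (k + 1)) := by
      rw [h3, pow_succ]
      field_simp
    rw [h5]
    positivity
  · intro v hv
    have hgr : ∀ u : EE n, (inner ℝ (gradient (lead k F 0) z) u : ℝ) = fderiv ℝ (lead k F 0) z u :=
      fun u => by rw [gradient, InnerProductSpace.toDual_symm_apply]
    rcases lt_trichotomy (fderiv ℝ (lead k F 0) z v) 0 with h1 | h1 | h1
    · exfalso
      refine n08_crit k hk.1 V γ hγ hlim hne z _ hz hw (-v) (by rw [inner_neg_right, hv, neg_zero]) ?_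
      rw [hgr, map_neg]
      linarith
    · exact h1
    · exfalso
      refine n08_crit k hk.1 V γ hγ hlim hne z _ hz hw v hv ?_
      rw [hgr]
      exact h1

end Pool.Agent.helper62.GF
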