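import Pool.Agent.helper62.GF.NDefs

/-!
# GF-N09: backward flow of null sets inside a ball

For two such curves `γ₁, γ₂`, Gronwall run backwards from time `T` gives
`‖γ₁ 0 - γ₂ 0‖ ≤ exp (K T) ‖γ₁ T - γ₂ T‖` (apply `dist_le_of_trajectories_ODE_of_mem` or
`norm_le_gronwallBound…` to `t ↦ γ_i (T - t)`, whose derivative is `-V`).  So the set is contained in the image of
`S' = {γ T} ⊆ S ∩ closedBall` under a Lipschitz map `S' → EE n` (choose for each point of `S'` the unique
start).  A Lipschitz image of a null set is null: `LipschitzOnWith.hausdorffMeasure_image_le` with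
`hausdorffMeasure` of dimension `n` on `EE n` being a multiple of the Lebesgue measure (an additive Haar
measure), or extend the Lipschitz map and use any available lemma; a direct covering argument is fine too.
-/

open Filter Topology Set MeasureTheory

namespace Pool.Agent.helper62.GF

variable {n : ℕ}

theorem lipschitz_image_null (S : Set (EE n)) (hS : volume S = 0) (K : NNReal) (f : EE n → EE n)
    (hf : LipschitzOnWith K f S) : volume (f '' S) = 0 := by
  have hac : (volume : Measure (EE n)) ≪ Measure.hausdorffMeasure (Module.finrank ℝ (EE n) : ℝ) :=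
    Measure.absolutelyContinuous_isAddHaarMeasure _ _
  have hac' : (Measure.hausdorffMeasure (Module.finrank ℝ (EE n) : ℝ) : Measure (EE n)) ≪ volume :=
    Measure.absolutelyContinuous_isAddHaarMeasure _ _
  apply hac
  have h1 : Measure.hausdorffMeasure (Module.finrank ℝ (EE n) : ℝ) S = 0 := hac' hS
  have h2 := hf.hausdorffMeasure_image_le (d := (Module.finrank ℝ (EE n) : ℝ)) (Nat.cast_nonneg _)
  rw [h1, mul_zero] at h2
  exact le_antisymm h2 bot_le

/-- a relation which is Lipschitz from its second to its first component pulls back null sets -/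
theorem lipschitz_rel_null (S : Set (EE n)) (hS : volume S = 0) (K : ℝ) (Rel : EE n → EE n → Prop)
    (hRel : ∀ x y x' y', Rel x y → Rel x' y' → ‖x - x'‖ ≤ K * ‖y - y'‖) :
    volume {x | ∃ y ∈ S, Rel x y} = 0 := by
  classical
  set f : EE n → EE n := fun y => if h : ∃ x, Rel x y then h.choose else 0 with hf
  have hfy : ∀ y, (∃ x, Rel x y) → Rel (f y) y := by
    intro y h
    simp only [hf, dif_pos h]
    exact h.choose_spec
  set S' : Set (EE n) := {y | y ∈ S ∧ ∃ x, Rel x y} with hS'
  have hS0 : volume S' = 0 := measure_mono_null (fun y hy => hy.1) hS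
  have hL : LipschitzOnWith K.toNNReal f S' := by
    refine LipschitzOnWith.of_dist_le_mul fun y hy y' hy' => ?_
    rw [dist_eq_norm, dist_eq_norm]
    refine (hRel _ _ _ _ (hfy y hy.2) (hfy y' hy'.2)).trans ?_
    exact mul_le_mul_of_nonneg_right (Real.le_coe_toNNReal K) (norm_nonneg _)
  refine measure_mono_null ?_ (lipschitz_image_null S' hS0 _ f hL)
  rintro x ⟨y, hy, hxy⟩
  refine ⟨y, ⟨hy, x, hxy⟩, ?_⟩
  have h := hRel _ _ _ _ hxy (hfy y ⟨x, hxy⟩)
  rw [sub_self, norm_zero, mul_zero] at h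
  have h0 : x - f y = 0 := norm_le_zero_iff.1 h
  exact (sub_eq_zero.1 h0).symm

private theorem rev_deriv (V : EE n → EE n) (T : ℝ) (γ : ℝ → EE n)
    (h : ∀ t ∈ Icc 0 T, HasDerivWithinAt γ (V (γ t)) (Icc 0 T) t) (t : ℝ) (ht : t ∈ Icc 0 T) :
    HasDerivWithinAt (fun s => γ (T - s)) (-V (γ (T - t))) (Icc 0 T) t := by
  have ht' : T - t ∈ Icc 0 T := ⟨by linarith [ht.2], by linarith [ht.1]⟩
  have h1 : HasDerivWithinAt (fun s : ℝ => T - s) (-1) (Icc 0 T) t :=
    ((hasDerivAt_id t).const_sub T).hasDerivWithinAt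
  have hm : MapsTo (fun s : ℝ => T - s) (Icc 0 T) (Icc 0 T) := by
    intro s hs
    exact ⟨by linarith [hs.2], by linarith [hs.1]⟩
  have h2 := (h (T - t) ht').scomp t h1 hm
  rw [neg_smul, one_smul] at h2
  exact h2

/-- backward flow inside a set `U` on which `V` is Lipschitz -/
theorem flow_back (V : EE n → EE n) (U : Set (EE n)) (K : NNReal) (hV : LipschitzOnWith K V U)
    (T : ℝ) (hT : 0 ≤ T) (S : Set (EE n)) (hS : volume S = 0) :
    volume {x : EE n | ∃ γ : ℝ → EE n, γ 0 = x ∧
      (∀ t ∈ Icc 0 T, HasDerivWithinAt γ (V (γ t)) (Icc 0 T) t ∧ γ t ∈ U) ∧ γ T ∈ S} = 0 := by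
  refine measure_mono_null ?_ (lipschitz_rel_null S hS (Real.exp (K * T))
    (fun x y => ∃ γ : ℝ → EE n, γ 0 = x ∧
      (∀ t ∈ Icc 0 T, HasDerivWithinAt γ (V (γ t)) (Icc 0 T) t ∧ γ t ∈ U) ∧ γ T = y) ?_)
  · rintro x ⟨γ, h0, h1, h2⟩
    exact ⟨γ T, h2, γ, h0, h1, rfl⟩
  · rintro x y x' y' ⟨γ, h0, h1, h2⟩ ⟨γ', h0', h1', h2'⟩
    have d1 := rev_deriv V T γ (fun t ht => (h1 t ht).1)
    have d2 := rev_deriv V T γ' (fun t ht => (h1' t ht).1)
    have hmem : ∀ t ∈ Ico 0 T, T - t ∈ Icc 0 T := fun t ht =>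
      ⟨by linarith [ht.2], by linarith [ht.1]⟩
    have hVn : LipschitzOnWith K (fun z => -V z) U := by
      refine LipschitzOnWith.of_dist_le_mul fun a ha b hb => ?_
      rw [dist_neg_neg]
      exact hV.dist_le_mul a ha b hb
    have key := dist_le_of_trajectories_ODE_of_mem (v := fun _ z => -V z) (s := fun _ => U)
      (K := K) (f := fun s => γ (T - s)) (g := fun s => γ' (T - s)) (a := 0) (b := T)
      (δ := dist (γ T) (γ' T))
      (fun _ _ => hVn)
      (fun t ht => (d1 t ht).continuousWithinAt)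
      (fun t ht => (d1 t (Ico_subset_Icc_self ht)).mono_of_mem_nhdsWithin
        (Icc_mem_nhdsGE_of_mem ht))
      (fun t ht => (h1 _ (hmem t ht)).2)
      (fun t ht => (d2 t ht).continuousWithinAt)
      (fun t ht => (d2 t (Ico_subset_Icc_self ht)).mono_of_mem_nhdsWithin
        (Icc_mem_nhdsGE_of_mem ht))
      (fun t ht => (h1' _ (hmem t ht)).2)
      (by simp) T ⟨hT, le_refl _⟩
    simp only [sub_self, sub_zero] at key
    rw [h0, h0', h2, h2', dist_eq_norm, dist_eq_norm] at key
    rw [mul_comm]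
    exact key

end Pool.Agent.helper62.GF
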