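import Pool.Agent.helper62.GF.N07
import Pool.Agent.helper62.GF.N08
import Pool.Agent.helper62.GF.N09

/-!
# GF-N10: points of order `k`: trajectories converging to the origin form a null set

author: helper54

`V` is `C¹` near `0` (`V = -B ∇F`), so Lipschitz on a small closed ball `U` of radius `ρ`; let `x ∈ stayConv V 0 ρ` with
trajectory `γ`.
(0) `F (γ t)` is nonincreasing and tends to `0` (`(F∘γ)' = ⟪∇F, V⟫ ≤ -‖∇F‖²/2`, `nearGrad_of_norm`, `ρ` small).  If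
`F (γ t₀) ≤ 0` for some `t₀` then `F (γ t) = 0` for `t ≥ t₀`, so `∇F (γ t) = 0`, `V (γ t) = 0` and `γ` is constant on
`[t₀, ∞)`, equal to its limit `0`: then `γ N = 0` for some natural number `N`: `x` is in
`flow_back`-set of `S = {0}` (null since `n ≥ 1`; for `n = 0` the space is a point and `HasOrd` is impossible: all
`iteratedFDeriv ℝ k F 0`, `k ≥ 1`, vanish).
(1) Otherwise `F (γ t) > 0` for all `t ≥ 0`; `gradient_theorem` gives the limit secant `z`, and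
`secant_critical` shows that `z ∈ Z = {‖z‖ = 1, critical, 0 ≤ P z}`.
(2) For every `z ∈ Z`, `hw` gives `v` and `sector_null` a radius `ρ_z`; let `Σ_z` be the null set and
`O_z = {θ | 0 < ⟪z, θ⟫ ∧ ‖⟪z, θ⟫⁻¹ θ - z‖ < ρ_z/2}`, an open set containing `z`.  By Lindelof
(`TopologicalSpace.isOpen_iUnion_countable` or `IsLindelof`) countably many `O_{z_i}` cover `Z`.
If the limit secant lies in `O_{z_i}`, then for large `t`, `γ t/‖γ t‖ ∈ O_{z_i}`, so `⟪z_i, γ t⟫ > 0` and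
`‖blowInv z_i (γ t)‖ ≤ |⟪z_i, γ t⟫| + ‖⟪z_i,γ⟫⁻¹ γ - z_i‖ ≤ ρ_{z_i}` (scale invariance); so for a natural number
`N` the shifted curve `γ (· + N)` shows `γ N ∈ Σ_{z_i}`.
(3) So `stayConv V 0 ρ` is contained in the countable union over `i, N` of the `flow_back`-sets of `Σ_{z_i}`,
`{0}` (with `U = closedBall 0 ρ`), which are null.
-/

open Filter Topology Set MeasureTheory

namespace Pool.Agent.helper62.GF

variable {n : ℕ}

/-- `HasOrd` forces positive dimension -/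
theorem n10_pos (k : ℕ) (F : EE n → ℝ) (hk : HasOrd k F 0) : Nontrivial (EE n) := by
  by_contra hcon
  rw [not_nontrivial_iff_subsingleton] at hcon
  apply hk.2.2
  ext v
  have hk2 := hk.1
  have : v ⟨0, by omega⟩ = 0 := Subsingleton.elim _ _
  rw [ContinuousMultilinearMap.map_coord_zero _ (⟨0, by omega⟩ : Fin k) this]
  rfl

/-- the gradient represents the derivative -/
theorem n10_grad (F : EE n → ℝ) (x v : EE n) :
    inner ℝ (gradient F x) v = fderiv ℝ F x v := by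
  simp [gradient]

/-- the gradient is `C¹` -/
theorem n10_gradC (F : EE n → ℝ) (hF : AnalyticAt ℝ F 0) : ContDiffAt ℝ 1 (gradient F) 0 := by
  have h1 : ContDiffAt ℝ 1 (fderiv ℝ F) 0 := hF.fderiv.contDiffAt
  have h2 : gradient F = fun x => (InnerProductSpace.toDual ℝ (EE n)).symm (fderiv ℝ F x) := rfl
  rw [h2]
  exact (InnerProductSpace.toDual ℝ (EE n)).symm.contDiff.contDiffAt.comp _ h1

/-- Lipschitz constant near the origin -/
theorem n10_lip (F : EE n → ℝ) (V : EE n → EE n) (B : EE n → (EE n →L[ℝ] EE n))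
    (h : NormData F V B) : ∃ (K : NNReal), ∃ s ∈ 𝓝 (0 : EE n), LipschitzOnWith K V s := by
  have h1 : ContDiffAt ℝ 1 (fun x => -(B x (gradient F x))) 0 :=
    (h.cB.clm_apply (n10_gradC F h.anF)).neg
  have h2 : ContDiffAt ℝ 1 V 0 := h1.congr_of_eventuallyEq h.eq
  exact h2.exists_lipschitzOnWith

/-- local descent -/
theorem n10_desc (F : EE n → ℝ) (V : EE n → EE n) (B : EE n → (EE n →L[ℝ] EE n))
    (h : NormData F V B) : ∀ᶠ x in 𝓝 (0 : EE n), DifferentiableAt ℝ F x ∧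
      fderiv ℝ F x (V x) ≤ -(‖gradient F x‖ ^ 2 / 2) ∧ (gradient F x = 0 → V x = 0) := by
  obtain ⟨K, hK0, hK⟩ := nearGrad_of_norm h
  have h1 : ∀ᶠ x in 𝓝 (0 : EE n), K * ‖x‖ ≤ 1 / 2 := by
    have : Tendsto (fun x : EE n => K * ‖x‖) (𝓝 0) (𝓝 (K * ‖(0 : EE n)‖)) := by
      exact (continuous_const.mul continuous_norm).tendsto _
    rw [norm_zero, mul_zero] at this
    exact this.eventually (eventually_le_nhds (by norm_num))
  have h2 : ∀ᶠ x in 𝓝 (0 : EE n), DifferentiableAt ℝ F x :=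
    h.anF.eventually_analyticAt.mono fun x hx => hx.differentiableAt
  filter_upwards [hK, h1, h2] with x hx hx1 hx2
  refine ⟨hx2, ?_, ?_⟩
  · rw [← n10_grad]
    have h3 : inner ℝ (gradient F x) (V x) =
        inner ℝ (gradient F x) (V x + gradient F x) - ‖gradient F x‖ ^ 2 := by
      rw [inner_add_right, real_inner_self_eq_norm_sq]
      ring
    have h4 : inner ℝ (gradient F x) (V x + gradient F x) ≤
        ‖gradient F x‖ * ‖V x + gradient F x‖ := real_inner_le_norm _ _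
    have h5 : ‖gradient F x‖ * ‖V x + gradient F x‖ ≤
        ‖gradient F x‖ * (K * ‖x‖ * ‖gradient F x‖) :=
      mul_le_mul_of_nonneg_left hx (norm_nonneg _)
    have h6 : ‖gradient F x‖ * (K * ‖x‖ * ‖gradient F x‖) ≤ 1 / 2 * ‖gradient F x‖ ^ 2 := by
      have : K * ‖x‖ * ‖gradient F x‖ ^ 2 ≤ 1 / 2 * ‖gradient F x‖ ^ 2 :=
        mul_le_mul_of_nonneg_right hx1 (by positivity)
      calc _ = K * ‖x‖ * ‖gradient F x‖ ^ 2 := by ring
        _ ≤ _ := this
    rw [h3]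
    linarith
  · intro h0
    rw [h0, norm_zero, mul_zero, add_zero] at hx
    exact norm_le_zero_iff.1 hx

/-- if `F` is nonpositive somewhere along the curve, the curve reaches the origin -/
theorem n10_zero (F : EE n → ℝ) (V : EE n → EE n) (ρ : ℝ)
    (hF0 : F 0 = 0)
    (hloc : ∀ x : EE n, ‖x‖ ≤ ρ → DifferentiableAt ℝ F x ∧
      fderiv ℝ F x (V x) ≤ -(‖gradient F x‖ ^ 2 / 2) ∧ (gradient F x = 0 → V x = 0))
    (hρ : 0 < ρ)
    (γ : ℝ → EE n) (hγ : IsTraj V γ) (hb : ∀ t, 0 ≤ t → ‖γ t‖ ≤ ρ)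
    (hlim : Tendsto γ atTop (𝓝 0)) (t₀ : ℝ) (ht₀ : 0 ≤ t₀) (hle : F (γ t₀) ≤ 0) :
    ∃ N : ℕ, γ N = 0 := by
  have hd : ∀ t, 0 ≤ t → HasDerivWithinAt (fun s => F (γ s)) (fderiv ℝ F (γ t) (V (γ t)))
      (Ici 0) t := by
    intro t ht
    exact ((hloc _ (hb t ht)).1.hasFDerivAt).comp_hasDerivWithinAt t (hγ t ht)
  have hd' : ∀ t, 0 < t → HasDerivAt (fun s => F (γ s)) (fderiv ℝ F (γ t) (V (γ t))) t := by
    intro t ht
    exact (hd t ht.le).hasDerivAt (Ici_mem_nhds ht)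
  have hanti : AntitoneOn (fun s => F (γ s)) (Ici 0) := by
    refine antitoneOn_of_deriv_nonpos (convex_Ici 0) (fun t ht => (hd t ht).continuousWithinAt)
      (fun t ht => ?_) (fun t ht => ?_)
    · rw [interior_Ici] at ht
      exact (hd' t ht).differentiableAt.differentiableWithinAt
    · rw [interior_Ici] at ht
      rw [(hd' t ht).deriv]
      have := (hloc _ (hb t (le_of_lt ht))).2.1
      nlinarith [sq_nonneg ‖gradient F (γ t)‖]
  have hlimF : Tendsto (fun s => F (γ s)) atTop (𝓝 0) := by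
    have h0 : ContinuousAt F 0 := (hloc 0 (by simpa using hρ.le)).1.continuousAt
    have := h0.tendsto.comp hlim
    rwa [hF0] at this
  have hnn : ∀ t, 0 ≤ t → 0 ≤ F (γ t) := by
    intro t ht
    refine le_of_tendsto hlimF ?_
    filter_upwards [eventually_ge_atTop t] with s hs
    exact hanti (mem_Ici.2 ht) (mem_Ici.2 (ht.trans hs)) hs
  have hz : ∀ t, t₀ ≤ t → F (γ t) = 0 := by
    intro t ht
    refine le_antisymm ?_ (hnn t (ht₀.trans ht))
    exact (hanti (mem_Ici.2 ht₀) (mem_Ici.2 (ht₀.trans ht)) ht).trans hle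
  have hV0 : ∀ t, t₀ < t → V (γ t) = 0 := by
    intro t ht
    have ht0 : 0 < t := lt_of_le_of_lt ht₀ ht
    have h1 : HasDerivAt (fun s => F (γ s)) 0 t := by
      refine (hasDerivAt_const t (0 : ℝ)).congr_of_eventuallyEq ?_
      filter_upwards [Ioi_mem_nhds ht] with s hs
      exact hz s (le_of_lt hs)
    have h2 := h1.unique (hd' t ht0)
    have h3 := (hloc _ (hb t ht0.le)).2
    apply h3.2
    rw [← h2] at h3
    have : ‖gradient F (γ t)‖ ^ 2 ≤ 0 := by linarith [h3.1]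
    have h4 : ‖gradient F (γ t)‖ = 0 := by
      have := le_antisymm this (by positivity)
      exact pow_eq_zero_iff (two_ne_zero) |>.1 this
    exact norm_eq_zero.1 h4
  obtain ⟨N, hN⟩ := exists_nat_gt t₀
  refine ⟨N, ?_⟩
  have hconst : ∀ t, (N : ℝ) ≤ t → γ t = γ N := by
    intro t ht
    have hdg : ∀ s, (N : ℝ) ≤ s → HasDerivAt γ 0 s := by
      intro s hs
      have hs0 : 0 < s := lt_of_le_of_lt ht₀ (hN.trans_le hs)
      have := (hγ s hs0.le).hasDerivAt (Ici_mem_nhds hs0)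
      rwa [hV0 s (hN.trans_le hs)] at this
    have := constant_of_has_deriv_right_zero (f := γ) (a := N) (b := t)
      (fun s hs => (hdg s hs.1).continuousAt.continuousWithinAt)
      (fun s hs => (hdg s hs.1).hasDerivWithinAt) t ⟨ht, le_rfl⟩
    exact this
  have h5 : Tendsto γ atTop (𝓝 (γ N)) := by
    refine tendsto_const_nhds.congr' ?_
    filter_upwards [eventually_ge_atTop (N : ℝ)] with t ht
    exact (hconst t ht).symm
  exact tendsto_nhds_unique h5 hlim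

/-- the good neighbourhood of a direction -/
theorem n10_nhds (z : EE n) (hz : ‖z‖ = 1) (r : ℝ) (hr : 0 < r) :
    {θ : EE n | 0 < (inner ℝ z θ : ℝ) ∧ ‖(inner ℝ z θ : ℝ)⁻¹ • θ - z‖ < r} ∈ 𝓝 z := by
  have h1 : (inner ℝ z z : ℝ) = 1 := by rw [real_inner_self_eq_norm_sq, hz]; norm_num
  have hc : Continuous fun θ : EE n => (inner ℝ z θ : ℝ) := continuous_const.inner continuous_id
  have h2 : Tendsto (fun θ : EE n => (inner ℝ z θ : ℝ)) (𝓝 z) (𝓝 1) := by
    have := hc.tendsto z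
    rwa [h1] at this
  have h3 : Tendsto (fun θ : EE n => ‖(inner ℝ z θ : ℝ)⁻¹ • θ - z‖) (𝓝 z) (𝓝 0) := by
    have h4 : Tendsto (fun θ : EE n => (inner ℝ z θ : ℝ)⁻¹ • θ - z) (𝓝 z)
        (𝓝 ((1 : ℝ)⁻¹ • z - z)) :=
      ((h2.inv₀ one_ne_zero).smul tendsto_id).sub tendsto_const_nhds
    have h5 := h4.norm
    simpa using h5
  exact (h2.eventually (lt_mem_nhds one_pos)).and (h3.eventually (gt_mem_nhds hr))

theorem n10_shift (V : EE n → EE n) (γ : ℝ → EE n) (hγ : IsTraj V γ) (N : ℕ) :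
    IsTraj V (fun t => γ (t + N)) := by
  intro t ht
  have h1 := hγ (t + N) (by positivity)
  have h2 : HasDerivWithinAt (fun s : ℝ => s + (N : ℝ)) 1 (Ici 0) t :=
    (hasDerivAt_id t |>.add_const _).hasDerivWithinAt
  have h3 : MapsTo (fun s : ℝ => s + (N : ℝ)) (Ici 0) (Ici 0) := by
    intro s hs
    have : (0 : ℝ) ≤ s := hs
    exact mem_Ici.2 (by positivity)
  have := HasDerivWithinAt.scomp t h1 h2 h3
  simpa [Function.comp_def] using this

theorem conv_null (k : ℕ) (F : EE n → ℝ) (V : EE n → EE n) (B : EE n → (EE n →L[ℝ] EE n))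
    (h : NormData F V B) (hk : HasOrd k F 0) (hw : WSEucl k F) :
    ∃ ρ : ℝ, 0 < ρ ∧ volume (stayConv V 0 ρ) = 0 := by
  classical
  have := n10_pos k F hk
  obtain ⟨K, s, hs, hLip⟩ := n10_lip F V B h
  obtain ⟨ρ, hρ, hsub⟩ := Metric.nhds_basis_closedBall.mem_iff.1
    (Filter.inter_mem hs (n10_desc F V B h))
  have hLip' : LipschitzOnWith K V (Metric.closedBall 0 ρ) :=
    hLip.mono fun x hx => (hsub hx).1
  have hloc : ∀ x : EE n, ‖x‖ ≤ ρ → DifferentiableAt ℝ F x ∧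
      fderiv ℝ F x (V x) ≤ -(‖gradient F x‖ ^ 2 / 2) ∧ (gradient F x = 0 → V x = 0) :=
    fun x hx => (hsub (mem_closedBall_zero_iff.2 hx)).2
  refine ⟨ρ, hρ, ?_⟩
  obtain ⟨K', hNG⟩ := nearGrad_of_norm h
  -- the set of admissible secants
  set Z : Set (EE n) := {z | ‖z‖ = 1 ∧ (∀ v : EE n, inner ℝ z v = 0 → fderiv ℝ (lead k F 0) z v = 0) ∧
    0 ≤ lead k F 0 z} with hZ
  have hsec : ∀ z : Z, ∃ ρ : ℝ, 0 < ρ ∧ volume {x : EE n | ∃ γ : ℝ → EE n, γ 0 = x ∧ IsTraj V γ ∧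
      Tendsto γ atTop (𝓝 0) ∧
      ∀ t, 0 ≤ t → 0 < (inner ℝ z.1 (γ t) : ℝ) ∧ ‖blowInv z.1 (γ t)‖ ≤ ρ} = 0 := by
    rintro ⟨z, hz1, hz2, hz3⟩
    obtain ⟨v, hv1, hv2⟩ := hw z hz1 hz2 hz3
    exact sector_null k F V B h hk z hz1 hz2 hz3 v hv1 hv2
  choose rad' hrad hnull using hsec
  set Q : EE n → Set (EE n) := fun z => if hz : z ∈ Z then
    interior {θ : EE n | 0 < (inner ℝ z θ : ℝ) ∧ ‖(inner ℝ z θ : ℝ)⁻¹ • θ - z‖ < rad' ⟨z, hz⟩ / 2}
    else univ with hQ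
  obtain ⟨T, hTZ, hTc, hcov⟩ := TopologicalSpace.countable_cover_nhdsWithin (f := Q) (s := Z) (by
    intro z hz
    refine mem_nhdsWithin_of_mem_nhds ?_
    rw [hQ]
    simp only [hz, dif_pos]
    exact interior_mem_nhds.2 (n10_nhds z hz.1 _ (half_pos (hrad ⟨z, hz⟩))))
  -- null sets
  set back : ℕ → Set (EE n) → Set (EE n) := fun N S => {x : EE n | ∃ γ : ℝ → EE n, γ 0 = x ∧
      (∀ t ∈ Icc (0 : ℝ) N, HasDerivWithinAt γ (V (γ t)) (Icc 0 (N : ℝ)) t ∧
        γ t ∈ Metric.closedBall (0 : EE n) ρ) ∧ γ N ∈ S} with hback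
  have hbn : ∀ N S, volume S = 0 → volume (back N S) = 0 := fun N S hS =>
    flow_back V (Metric.closedBall 0 ρ) K hLip' N (Nat.cast_nonneg N) S hS
  set Sig : Z → Set (EE n) := fun z => {x : EE n | ∃ γ : ℝ → EE n, γ 0 = x ∧ IsTraj V γ ∧
      Tendsto γ atTop (𝓝 0) ∧
      ∀ t, 0 ≤ t → 0 < (inner ℝ z.1 (γ t) : ℝ) ∧ ‖blowInv z.1 (γ t)‖ ≤ rad' z} with hSig
  have hinc : stayConv V 0 ρ ⊆ (⋃ N : ℕ, back N {0}) ∪
      ⋃ z ∈ {z : Z | z.1 ∈ T}, ⋃ N : ℕ, back N (Sig z) := by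
    rintro x ⟨γ, hγ0, hγ, hγb, hγl⟩
    have hb : ∀ t, 0 ≤ t → ‖γ t‖ ≤ ρ := fun t ht => by simpa using hγb t ht
    have hbk : ∀ (N : ℕ) (S : Set (EE n)), γ N ∈ S → x ∈ back N S := by
      intro N S hS
      refine ⟨γ, hγ0, fun t ht => ⟨(hγ t ht.1).mono Icc_subset_Ici_self, ?_⟩, hS⟩
      exact mem_closedBall_zero_iff.2 (hb t ht.1)
    by_cases hcase : ∃ t₀, 0 ≤ t₀ ∧ F (γ t₀) ≤ 0
    · obtain ⟨t₀, ht₀, hle⟩ := hcase
      obtain ⟨N, hN⟩ := n10_zero F V ρ h.F0 hloc hρ γ hγ hb hγl t₀ ht₀ hle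
      left
      exact mem_iUnion.2 ⟨N, hbk N _ hN⟩
    · push Not at hcase
      obtain ⟨z, hz1, hz⟩ := gradient_theorem F h.anF h.F0 V K' hNG γ hγ hγl hcase
      obtain ⟨hz3, hz2⟩ := secant_critical k F V B h hk γ hγ hγl hcase z hz hz1
      have hzZ : z ∈ Z := ⟨hz1, hz2, hz3⟩
      have hzc := hcov hzZ
      simp only [mem_iUnion] at hzc
      obtain ⟨w, hwT, hzw⟩ := hzc
      have hwZ : w ∈ Z := hTZ hwT
      have hw1 : ‖w‖ = 1 := hwZ.1
      rw [hQ] at hzw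
      simp only [hwZ, dif_pos] at hzw
      have hev : ∀ᶠ t in atTop, ‖γ t‖⁻¹ • γ t ∈ {θ : EE n | 0 < (inner ℝ w θ : ℝ) ∧
          ‖(inner ℝ w θ : ℝ)⁻¹ • θ - w‖ < rad' ⟨w, hwZ⟩ / 2} :=
        hz.eventually (mem_of_superset (isOpen_interior.mem_nhds hzw) interior_subset)
      have hev2 : ∀ᶠ t in atTop, ‖γ t‖ ≤ rad' ⟨w, hwZ⟩ / 2 := by
        have h1 : Tendsto (fun t => ‖γ t‖) atTop (𝓝 0) := by simpa using hγl.norm
        exact h1.eventually (eventually_le_nhds (half_pos (hrad ⟨w, hwZ⟩)))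
      obtain ⟨t₁, ht₁⟩ := eventually_atTop.1 (hev.and hev2)
      obtain ⟨N, hN⟩ := exists_nat_ge t₁
      right
      refine mem_iUnion₂.2 ⟨⟨w, hwZ⟩, hwT, mem_iUnion.2 ⟨N, hbk N _ ?_⟩⟩
      refine ⟨fun t => γ (t + N), by simp, n10_shift V γ hγ N, ?_, ?_⟩
      · exact hγl.comp (tendsto_atTop_add_const_right _ _ tendsto_id)
      · intro t ht
        obtain ⟨⟨h1, h2⟩, h3⟩ := ht₁ (t + N) (by linarith)
        have hγne : γ (t + N) ≠ 0 := by
          intro h0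
          rw [h0] at h1
          simp at h1
        have hpos : 0 < ‖γ (t + N)‖ := norm_pos_iff.2 hγne
        rw [inner_smul_right] at h1 h2
        have h4 : 0 < (inner ℝ w (γ (t + N)) : ℝ) := by
          have := (mul_pos_iff_of_pos_left (inv_pos.2 hpos)).1 h1
          exact this
        refine ⟨h4, ?_⟩
        have h5 : (‖γ (t + N)‖⁻¹ * (inner ℝ w (γ (t + N)) : ℝ))⁻¹ • ‖γ (t + N)‖⁻¹ • γ (t + N) =
            (inner ℝ w (γ (t + N)) : ℝ)⁻¹ • γ (t + N) := by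
          rw [smul_smul]
          congr 1
          field_simp
        rw [h5] at h2
        have h6 : ‖(inner ℝ w (γ (t + N)) : ℝ) • w‖ ≤ ‖γ (t + N)‖ := by
          rw [norm_smul, hw1, mul_one, Real.norm_eq_abs]
          calc _ ≤ ‖w‖ * ‖γ (t + N)‖ := abs_real_inner_le_norm _ _
            _ = _ := by rw [hw1, one_mul]
        calc ‖blowInv w (γ (t + N))‖ ≤ ‖(inner ℝ w (γ (t + N)) : ℝ) • w‖ +
              ‖(inner ℝ w (γ (t + N)) : ℝ)⁻¹ • γ (t + N) - w‖ := norm_add_le _ _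
          _ ≤ rad' ⟨w, hwZ⟩ := by linarith
  refine measure_mono_null hinc (measure_union_null ?_ ?_)
  · exact measure_iUnion_null fun N => hbn N _ (measure_singleton 0)
  · have hc : {z : Z | z.1 ∈ T}.Countable := hTc.preimage Subtype.val_injective
    refine (measure_biUnion_null_iff hc).2 fun z _ => ?_
    exact measure_iUnion_null fun N => hbn N _ (hnull z)

end Pool.Agent.helper62.GF
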