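import Pool.Agent.helper62.GF.N02
import Pool.Agent.helper62.GF.N03

/-!
# GF-N11: points of order two; isolatedness of the points of order `≥ 3`

`strict_null`: `P = lead 2 F 0 = (1/2) D²F(0)(·,·)`.  There is `v` with `P v < 0`: otherwise let `z` minimise `P` on the
unit sphere (compact; nonempty since `n ≥ 1`, as `D²F(0) ≠ 0`); `P z ≥ 0`, `z` is critical, and for `v ⊥ z` the second
derivative of `t ↦ P ((z + t v)/‖z + t v‖)` at `0`, equal to `D²P(z)(v,v) - 2 P(z) ‖v‖²`, is `≥ 0`: contradiction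
with `hw`.  (Explicitly: `P(z + t v) ≥ P(z) ‖z + t v‖² = P(z)(1 + t²‖v‖²)` for all `t`, compare the coefficients of
`t` and `t²` of the polynomial `P(z + t v) = P(z) + t DP(z) v + t² P(v)`: `DP(z) v = 0` and
`P(v) ≥ P(z) ‖v‖²`, i.e. `D²P(z)(v,v) - 2 P(z) ‖v‖² = 2 P(v) - 2 P(z)‖v‖² ≥ 0`.)
`V = -B ∇F` has strict derivative `A = -(Hessian of F at 0)` at `0` (`∇F 0 = 0`, `B 0 = id`; `V` is `C¹` near `0`), i.e.
`⟪A u, w⟫ = -D²F(0)(u, w)`, symmetric, and `⟪A v, v⟫ = -2 P(v) > 0`.  `strict_form`, `stay_null`.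

`isolated_order`: otherwise there are `x_i → 0`, `x_i ≠ 0`, with `DF(x_i) = 0`, `D²F(x_i) = 0`; a subsequence of
`x_i/‖x_i‖` converges to a unit vector `z`.  By `lead_approx` and homogeneity (`fderiv_lead_smul`, `fderiv2_lead_smul`)
`DP(z) = 0`, `D²P(z) = 0`; then `P z = 0` (`lead_euler`) and `hw` gives a contradiction.
-/

open Filter Topology Set MeasureTheory

namespace Pool.Agent.helper62.GF

variable {n : ℕ}

/-- the Riesz isomorphism as a continuous linear map -/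
private noncomputable def riesz (n : ℕ) : (EE n →L[ℝ] ℝ) →L[ℝ] EE n where
  toFun ℓ := (InnerProductSpace.toDual ℝ (EE n)).symm ℓ
  map_add' a b := map_add _ a b
  map_smul' c a := by
    rw [LinearIsometryEquiv.map_smulₛₗ]
    rfl
  cont := (InnerProductSpace.toDual ℝ (EE n)).symm.continuous

private theorem riesz_inner (ℓ : EE n →L[ℝ] ℝ) (v : EE n) : inner ℝ (riesz n ℓ) v = ℓ v :=
  InnerProductSpace.toDual_symm_apply

private theorem gradient_eq (F : EE n → ℝ) : gradient F = fun x => riesz n (fderiv ℝ F x) := rfl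

private theorem lead_two (F : EE n → ℝ) (v : EE n) :
    lead 2 F 0 v = (1 / 2) * fderiv ℝ (fderiv ℝ F) 0 v v := by
  unfold lead
  rw [iteratedFDeriv_two_apply]
  norm_num [Nat.factorial]

/-- a quadratic polynomial without constant term that is nonnegative -/
private theorem quad_nonneg {a b : ℝ} (h : ∀ t : ℝ, 0 ≤ t * a + t ^ 2 * b) : a = 0 ∧ 0 ≤ b := by
  have ha : a = 0 := by
    by_contra ha
    have hb : 0 < |b| + 1 := by positivity
    have h1 := h (-a / (2 * (|b| + 1)))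
    have e : -a / (2 * (|b| + 1)) * a + (-a / (2 * (|b| + 1))) ^ 2 * b
        = a ^ 2 / (4 * (|b| + 1) ^ 2) * (b - 2 * (|b| + 1)) := by
      field_simp
      ring
    rw [e] at h1
    have h2 : 0 < a ^ 2 / (4 * (|b| + 1) ^ 2) := by positivity
    have h3 : b - 2 * (|b| + 1) < 0 := by
      have := le_abs_self b
      have := abs_nonneg b
      linarith
    have h4 := mul_neg_of_pos_of_neg h2 h3
    linarith
  refine ⟨ha, ?_⟩
  have := h 1
  rw [ha] at this
  linarith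

/-- the main step of `strict_null`: a quadratic form with `hw` is negative somewhere -/
private theorem exists_neg (F : EE n → ℝ) (hk : HasOrd 2 F 0) (hw : WSEucl 2 F)
    (hsymm : ∀ u v : EE n, fderiv ℝ (fderiv ℝ F) 0 u v = fderiv ℝ (fderiv ℝ F) 0 v u) :
    ∃ v : EE n, fderiv ℝ (fderiv ℝ F) 0 v v < 0 := by
  by_contra hcon
  push Not at hcon
  set H : EE n →L[ℝ] EE n →L[ℝ] ℝ := fderiv ℝ (fderiv ℝ F) 0 with hH
  have hlead : lead 2 F 0 = fun v : EE n => (1 / 2 : ℝ) * H v v := by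
    funext v
    exact lead_two F v
  have hd1 : ∀ z : EE n, fderiv ℝ (lead 2 F 0) z = H z := by
    intro z
    have h1 : HasFDerivAt (fun v : EE n => H v v) ((H z).comp
        (ContinuousLinearMap.id ℝ (EE n)) + H.flip z) z :=
      H.hasFDerivAt.clm_apply (hasFDerivAt_id z)
    have h2 : HasFDerivAt (lead 2 F 0) ((1 / 2 : ℝ) • ((H z).comp
        (ContinuousLinearMap.id ℝ (EE n)) + H.flip z)) z := by
      rw [hlead]
      exact h1.const_mul (1 / 2 : ℝ)
    rw [h2.fderiv]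
    ext v
    show (1 / 2 : ℝ) * (H z v + H v z) = H z v
    rw [hsymm v z]
    ring
  have hd2 : ∀ z : EE n, fderiv ℝ (fderiv ℝ (lead 2 F 0)) z = H := by
    intro z
    have h1 : fderiv ℝ (lead 2 F 0) = fun z => H z := funext hd1
    rw [h1]
    exact H.fderiv
  -- the unit sphere is nonempty
  obtain ⟨w, hw0⟩ : ∃ w : EE n, w ≠ 0 := by
    by_contra hall
    push Not at hall
    apply hk.2.2
    ext m
    rw [iteratedFDeriv_two_apply, hall (m 0), map_zero]
    rfl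
  have hne : (Metric.sphere (0 : EE n) 1).Nonempty := by
    refine ⟨‖w‖⁻¹ • w, ?_⟩
    rw [mem_sphere_zero_iff_norm, norm_smul, norm_inv, norm_norm,
      inv_mul_cancel₀ (norm_ne_zero_iff.mpr hw0)]
  have hcont : Continuous fun v : EE n => H v v := by fun_prop
  obtain ⟨z, hz, hmin⟩ := (isCompact_sphere (0 : EE n) 1).exists_isMinOn hne
    hcont.continuousOn
  have hz1 : ‖z‖ = 1 := mem_sphere_zero_iff_norm.mp hz
  -- homogeneity
  have hhom : ∀ u : EE n, ‖u‖ ^ 2 * H z z ≤ H u u := by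
    intro u
    by_cases hu : u = 0
    · rw [hu]
      simp
    · have hn : ‖u‖ ≠ 0 := norm_ne_zero_iff.mpr hu
      have hmem : ‖u‖⁻¹ • u ∈ Metric.sphere (0 : EE n) 1 := by
        rw [mem_sphere_zero_iff_norm, norm_smul, norm_inv, norm_norm, inv_mul_cancel₀ hn]
      have h1 : H z z ≤ H (‖u‖⁻¹ • u) (‖u‖⁻¹ • u) := hmin hmem
      have h2 : H (‖u‖⁻¹ • u) (‖u‖⁻¹ • u) = (‖u‖⁻¹) ^ 2 * H u u := by
        simp only [map_smul, smul_apply, smul_eq_mul]
        ring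
      rw [h2] at h1
      calc ‖u‖ ^ 2 * H z z ≤ ‖u‖ ^ 2 * ((‖u‖⁻¹) ^ 2 * H u u) :=
            mul_le_mul_of_nonneg_left h1 (sq_nonneg _)
        _ = H u u := by field_simp
  have key : ∀ v : EE n, inner ℝ z v = 0 → H z v = 0 ∧ 0 ≤ H v v - ‖v‖ ^ 2 * H z z := by
    intro v hv
    have h1 : ∀ t : ℝ, 0 ≤ t * (2 * H z v) + t ^ 2 * (H v v - ‖v‖ ^ 2 * H z z) := by
      intro t
      have h2 := hhom (z + t • v)
      have h3 : ‖z + t • v‖ ^ 2 = 1 + t ^ 2 * ‖v‖ ^ 2 := by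
        rw [norm_add_sq_real, hz1, inner_smul_right, hv, norm_smul, mul_pow, Real.norm_eq_abs,
          sq_abs]
        ring
      have h4 : H (z + t • v) (z + t • v) = H z z + t * (2 * H z v) + t ^ 2 * H v v := by
        simp only [map_add, map_smul, add_apply,
          smul_apply, smul_eq_mul]
        rw [hsymm v z]
        ring
      rw [h3, h4] at h2
      linarith
    obtain ⟨h5, h6⟩ := quad_nonneg h1
    exact ⟨by linarith, h6⟩
  have hPz : 0 ≤ lead 2 F 0 z := by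
    rw [hlead]
    have := hcon z
    show (0 : ℝ) ≤ 1 / 2 * H z z
    linarith
  obtain ⟨v, hv, hneg⟩ := hw z hz1 (fun v hv => by rw [hd1]; exact (key v hv).1) hPz
  rw [hd2, hlead] at hneg
  have h7 := (key v hv).2
  have h8 : H v v - ((2 : ℕ) : ℝ) * (1 / 2 * H z z) * ‖v‖ ^ 2 = H v v - ‖v‖ ^ 2 * H z z := by
    push_cast
    ring
  have h9 : H v v - ((2 : ℕ) : ℝ) * (1 / 2 * H z z) * ‖v‖ ^ 2 < 0 := hneg
  rw [h8] at h9
  linarith

theorem strict_null (F : EE n → ℝ) (V : EE n → EE n) (B : EE n → (EE n →L[ℝ] EE n))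
    (h : NormData F V B) (hk : HasOrd 2 F 0) (hw : WSEucl 2 F) :
    ∃ ρ : ℝ, 0 < ρ ∧ volume (stay V 0 ρ) = 0 := by
  have hd0 : fderiv ℝ F 0 = 0 := by
    have h1 := hk.2.1 1 (le_refl 1) (by norm_num)
    ext v
    have h2 := iteratedFDeriv_one_apply (𝕜 := ℝ) (f := F) (x := (0 : EE n)) (fun _ => v)
    rw [h1] at h2
    exact h2.symm
  have hsymm : ∀ u v : EE n, fderiv ℝ (fderiv ℝ F) 0 u v = fderiv ℝ (fderiv ℝ F) 0 v u := by
    have h1 : ContDiffAt ℝ 2 F 0 := h.anF.contDiffAt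
    have h2 : IsSymmSndFDerivAt ℝ F 0 :=
      h1.isSymmSndFDerivAt (by rw [minSmoothness_of_isRCLikeNormedField])
    exact fun u v => h2 u v
  obtain ⟨v, hv⟩ := exists_neg F hk hw hsymm
  -- the linearisation
  set H : EE n →L[ℝ] EE n →L[ℝ] ℝ := fderiv ℝ (fderiv ℝ F) 0 with hH
  have hg : HasStrictFDerivAt (gradient F) ((riesz n).comp H) 0 := by
    rw [gradient_eq]
    exact (riesz n).hasStrictFDerivAt.comp 0 h.anF.fderiv.hasStrictFDerivAt
  have hg0 : gradient F 0 = 0 := by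
    rw [gradient_eq]
    show riesz n (fderiv ℝ F 0) = 0
    rw [hd0, map_zero]
  have hB : HasStrictFDerivAt B (fderiv ℝ B 0) 0 := h.cB.hasStrictFDerivAt one_ne_zero
  have hV1 : HasStrictFDerivAt (fun x => -(B x (gradient F x))) (-((riesz n).comp H)) 0 := by
    have h1 := (hB.clm_apply hg).neg
    rw [hg0, h.B0, map_zero, add_zero, ContinuousLinearMap.id_comp] at h1
    exact h1
  have hV : HasStrictFDerivAt V (-((riesz n).comp H)) 0 :=
    hV1.congr_of_eventuallyEq (h.eq.mono fun x hx => hx.symm)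
  have hA : ∀ u w : EE n, inner ℝ ((-((riesz n).comp H)) u) w = -(H u w) := by
    intro u w
    show inner ℝ (-(riesz n (H u))) w = -(H u w)
    rw [inner_neg_left, riesz_inner]
  obtain ⟨b, hb1, hb2, hb3⟩ := strict_form (-((riesz n).comp H)) (fun u w => by
    rw [hA u w, real_inner_comm, hA w u, hsymm u w]) v (by
    rw [hA v v]
    linarith)
  exact stay_null V _ hV b hb1 hb2 v hb3

private theorem cont_norm {E G X : Type*} [NormedAddCommGroup E] [NormedSpace ℝ E]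
    [NormedAddCommGroup G] [NormedSpace ℝ G] [TopologicalSpace X] {f : X → E →L[ℝ] G}
    (hf : Continuous f) : Continuous fun x => ‖f x‖ := hf.norm

private theorem norm_smul_clm {E G : Type*} [NormedAddCommGroup E] [NormedSpace ℝ E]
    [NormedAddCommGroup G] [NormedSpace ℝ G] (c : ℝ) (f : E →L[ℝ] G) :
    ‖c • f‖ = |c| * ‖f‖ := by
  rw [norm_smul, Real.norm_eq_abs]

theorem isolated_order (k : ℕ) (F : EE n → ℝ) (hF : AnalyticAt ℝ F 0) (hF0 : F 0 = 0)
    (hk : HasOrd k F 0) (hw : WSEucl k F) :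
    ∀ᶠ x in 𝓝[≠] (0 : EE n), ¬ (fderiv ℝ F x = 0 ∧ fderiv ℝ (fderiv ℝ F) x = 0) := by
  obtain ⟨C, hC0, hC⟩ := lead_approx k F hF hF0 hk
  have hk2 : 2 ≤ k := hk.1
  set P : EE n → ℝ := lead k F 0 with hP
  have hPa : ∀ x, AnalyticAt ℝ P x := fun x => lead_analytic k F 0 x
  have hc1 : Continuous fun x : EE n => fderiv ℝ P x :=
    continuous_iff_continuousAt.mpr fun x => (hPa x).fderiv.continuousAt
  have hc2 : Continuous fun x : EE n => fderiv ℝ (fderiv ℝ P) x :=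
    continuous_iff_continuousAt.mpr fun x => (hPa x).fderiv.fderiv.continuousAt
  have hpos : ∀ z ∈ Metric.sphere (0 : EE n) 1,
      0 < ‖fderiv ℝ P z‖ + ‖fderiv ℝ (fderiv ℝ P) z‖ := by
    intro z hz
    have hz1 : ‖z‖ = 1 := mem_sphere_zero_iff_norm.mp hz
    by_contra hcon
    have n1 := (fderiv ℝ P z).opNorm_nonneg
    have n2 := (fderiv ℝ (fderiv ℝ P) z).opNorm_nonneg
    have e1' : ‖fderiv ℝ P z‖ = 0 := by linarith
    have e2' : ‖fderiv ℝ (fderiv ℝ P) z‖ = 0 := by linarith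
    have e1 : fderiv ℝ P z = 0 := (ContinuousLinearMap.opNorm_zero_iff _).mp e1'
    have e2 : fderiv ℝ (fderiv ℝ P) z = 0 := (ContinuousLinearMap.opNorm_zero_iff _).mp e2'
    have e3 : (k : ℝ) * P z = 0 := by
      have := lead_euler k F 0 z
      rw [← this]
      show fderiv ℝ P z z = 0
      rw [e1]
      rfl
    have e4 : P z = 0 := by
      rcases mul_eq_zero.mp e3 with h | h
      · have : (k : ℝ) ≠ 0 := by
          have : k ≠ 0 := by omega
          exact_mod_cast this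
        exact absurd h this
      · exact h
    obtain ⟨v, -, hv⟩ := hw z hz1 (fun v _ => by
      show fderiv ℝ P z v = 0
      rw [e1]
      rfl) (le_of_eq e4.symm)
    have hv' : fderiv ℝ (fderiv ℝ P) z v v - k * P z * ‖v‖ ^ 2 < 0 := hv
    rw [e2, e4] at hv'
    simp at hv'
  have hcc : Continuous fun z : EE n => ‖fderiv ℝ P z‖ + ‖fderiv ℝ (fderiv ℝ P) z‖ :=
    (cont_norm hc1).add (cont_norm hc2)
  obtain ⟨m, hm0, hm⟩ := (isCompact_sphere (0 : EE n) 1).exists_forall_le'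
    hcc.continuousOn hpos
  have hsmall : ∀ᶠ x in 𝓝 (0 : EE n), 2 * C * ‖x‖ < m := by
    have ht : Tendsto (fun x : EE n => 2 * C * ‖x‖) (𝓝 0) (𝓝 0) := by
      have : Continuous fun x : EE n => 2 * C * ‖x‖ := by fun_prop
      have h := this.tendsto 0
      simpa using h
    exact ht.eventually (gt_mem_nhds hm0)
  rw [eventually_nhdsWithin_iff]
  filter_upwards [hC, hsmall] with x hx hxs hx0 hcrit
  have hx0' : x ≠ 0 := hx0
  have hn : 0 < ‖x‖ := norm_pos_iff.mpr hx0'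
  obtain ⟨-, h1, h2⟩ := hx
  rw [hcrit.1, zero_sub, ContinuousLinearMap.opNorm_neg] at h1
  rw [hcrit.2, zero_sub, ContinuousLinearMap.opNorm_neg] at h2
  have hz : ‖x‖⁻¹ • x ∈ Metric.sphere (0 : EE n) 1 := by
    rw [mem_sphere_zero_iff_norm, norm_smul, norm_inv, norm_norm, inv_mul_cancel₀ hn.ne']
  have hxz : x = ‖x‖ • (‖x‖⁻¹ • x) := by
    rw [smul_smul, mul_inv_cancel₀ hn.ne', one_smul]
  have hmz := hm _ hz
  have f1 : ‖fderiv ℝ P x‖ = ‖x‖ ^ (k - 1) * ‖fderiv ℝ P (‖x‖⁻¹ • x)‖ := by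
    conv_lhs => rw [hxz, hP, fderiv_lead_smul k (by omega) F 0]
    rw [norm_smul_clm, abs_of_nonneg (pow_nonneg (norm_nonneg x) _)]
  have f2 : ‖fderiv ℝ (fderiv ℝ P) x‖ =
      ‖x‖ ^ (k - 2) * ‖fderiv ℝ (fderiv ℝ P) (‖x‖⁻¹ • x)‖ := by
    conv_lhs => rw [hxz, hP, fderiv2_lead_smul k hk2 F 0]
    rw [norm_smul_clm, abs_of_nonneg (pow_nonneg (norm_nonneg x) _)]
  have g1 : ‖fderiv ℝ P (‖x‖⁻¹ • x)‖ ≤ C * ‖x‖ := by
    have h3 : ‖x‖ ^ (k - 1) * ‖fderiv ℝ P (‖x‖⁻¹ • x)‖ ≤ ‖x‖ ^ (k - 1) * (C * ‖x‖) := by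
      rw [← f1]
      refine h1.trans (le_of_eq ?_)
      obtain ⟨j, rfl⟩ : ∃ j, k = j + 1 := ⟨k - 1, by omega⟩
      rw [Nat.add_sub_cancel, pow_succ]
      ring
    exact le_of_mul_le_mul_left h3 (pow_pos hn _)
  have g2 : ‖fderiv ℝ (fderiv ℝ P) (‖x‖⁻¹ • x)‖ ≤ C * ‖x‖ := by
    have h3 : ‖x‖ ^ (k - 2) * ‖fderiv ℝ (fderiv ℝ P) (‖x‖⁻¹ • x)‖ ≤
        ‖x‖ ^ (k - 2) * (C * ‖x‖) := by
      rw [← f2]
      refine h2.trans (le_of_eq ?_)
      obtain ⟨j, rfl⟩ : ∃ j, k = j + 2 := ⟨k - 2, by omega⟩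
      rw [Nat.add_sub_cancel, show j + 2 - 1 = j + 1 by omega, pow_succ]
      ring
    exact le_of_mul_le_mul_left h3 (pow_pos hn _)
  have hmz' : m ≤ ‖fderiv ℝ P (‖x‖⁻¹ • x)‖ + ‖fderiv ℝ (fderiv ℝ P) (‖x‖⁻¹ • x)‖ := hmz
  linarith

end Pool.Agent.helper62.GF
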