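import Pool.Agent.helper62.GF.L01
import Pool.Agent.helper62.GF.L03
import Pool.Agent.helper62.GF.N10
import Pool.Agent.helper62.GF.N11

/-!
author: helper41
# GF-L02: local statements at a point of a chart, without normalisation

Apply the normalised theorems (`strict_null`, `conv_null`, `isolated_order`, `loj_length`) to
`F' a = F (x₀ + L a) - F x₀`, `V' a = L.symm (V (x₀ + L a))` (`exists_norm_data`, `hasOrd_normal`, `wsCond_normal`,
`nearGrad_of_norm`).  If `γ` is a trajectory of `V` then `L.symm (γ - x₀)` is a trajectory of `V'`, and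
`‖L.symm (γ t - x₀)‖ ≤ ‖L.symm‖ ρ`; so `stay V x₀ ρ` is contained in the image of `stay V' 0 ρ'` under
`a ↦ x₀ + L a` (null sets are preserved by affine isomorphisms).  Same for `stayConv`.
`loc_lipschitz`: `V' = -B ∇F'` is `C¹` at `0`, so `V` is `C¹` at `x₀`, hence Lipschitz on a small closed ball
(`ContDiffAt.exists_lipschitzOnWith`).
`loc_trap`: `loj_length` for `F'`, transported.
-/

open Filter Topology Set MeasureTheory

namespace Pool.Agent.helper62.GF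

variable {n : ℕ} {F : EE n → ℝ} {G : EE n → (EE n →L[ℝ] EE n →L[ℝ] ℝ)} {V : EE n → EE n} {x₀ : EE n}

/-- the Riesz isomorphism as a continuous linear map -/
private noncomputable def L02_riesz (n : ℕ) : (EE n →L[ℝ] ℝ) →L[ℝ] EE n where
  toFun ℓ := (InnerProductSpace.toDual ℝ (EE n)).symm ℓ
  map_add' a b := map_add _ a b
  map_smul' c a := by
    rw [LinearIsometryEquiv.map_smulₛₗ]
    rfl
  cont := (InnerProductSpace.toDual ℝ (EE n)).symm.continuous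

private theorem L02_gradient (F : EE n → ℝ) : gradient F = fun x => L02_riesz n (fderiv ℝ F x) := rfl

theorem loc_lipschitz (h : LocalData F G V x₀) :
    ∃ (ρ : ℝ) (K : NNReal), 0 < ρ ∧ LipschitzOnWith K V (Metric.closedBall x₀ ρ) := by
  obtain ⟨L, B, hL, hN⟩ := exists_norm_data h
  set F' : EE n → ℝ := fun a => F (x₀ + L a) - F x₀ with hF'
  set V' : EE n → EE n := fun a => L.symm (V (x₀ + L a)) with hV'
  have h1 : ContDiffAt ℝ 1 (gradient F') 0 := by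
    rw [L02_gradient]
    exact (L02_riesz n).contDiff.contDiffAt.comp 0 (hN.anF.fderiv.contDiffAt)
  have h2 : ContDiffAt ℝ 1 (fun x => -(B x (gradient F' x))) 0 := (hN.cB.clm_apply h1).neg
  have h3 : ContDiffAt ℝ 1 V' 0 := h2.congr_of_eventuallyEq hN.eq
  have h4 : V = fun x => L (V' (L.symm (x - x₀))) := by
    funext x
    rw [hV']
    simp
  have h5 : ContDiffAt ℝ 1 V x₀ := by
    rw [h4]
    have h6 : ContDiffAt ℝ 1 (fun x => L.symm (x - x₀)) x₀ :=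
      L.symm.contDiff.contDiffAt.comp x₀ (contDiffAt_id.sub contDiffAt_const)
    have h7 : ContDiffAt ℝ 1 V' (L.symm (x₀ - x₀)) := by
      rw [sub_self, map_zero]
      exact h3
    have h8 : ContDiffAt ℝ 1 (fun x => V' (L.symm (x - x₀))) x₀ :=
      ContDiffAt.comp (g := V') (f := fun x => L.symm (x - x₀)) x₀ h7 h6
    exact L.contDiff.contDiffAt.comp x₀ h8
  obtain ⟨K, t, ht, hK⟩ := h5.exists_lipschitzOnWith
  obtain ⟨ρ, hρ, hsub⟩ := Metric.nhds_basis_closedBall.mem_iff.1 ht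
  exact ⟨ρ, K, hρ, hK.mono hsub⟩

/-- transport of trajectories -/
private theorem L02_traj (L : EE n ≃L[ℝ] EE n) {γ : ℝ → EE n} {S : Set ℝ} {t : ℝ}
    (hγ : HasDerivWithinAt γ (V (γ t)) S t) :
    HasDerivWithinAt (fun t => L.symm (γ t - x₀))
      ((fun a => L.symm (V (x₀ + L a))) (L.symm (γ t - x₀))) S t := by
  have h1 : HasDerivWithinAt (fun t => γ t - x₀) (V (γ t)) S t := hγ.sub_const x₀
  have h2 := (L.symm : EE n →L[ℝ] EE n).hasFDerivAt.comp_hasDerivWithinAt t h1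
  have h3 : (fun a => L.symm (V (x₀ + L a))) (L.symm (γ t - x₀)) = L.symm (V (γ t)) := by
    simp
  rw [h3]
  exact h2

private theorem L02_norm (L : EE n ≃L[ℝ] EE n) {ρ : ℝ} {x : EE n}
    (hx : ‖x - x₀‖ ≤ ρ / (‖(L.symm : EE n →L[ℝ] EE n)‖ + 1)) : ‖L.symm (x - x₀)‖ ≤ ρ := by
  have h0 : 0 ≤ ‖(L.symm : EE n →L[ℝ] EE n)‖ := norm_nonneg _
  have h1 : ‖L.symm (x - x₀)‖ ≤ ‖(L.symm : EE n →L[ℝ] EE n)‖ * ‖x - x₀‖ :=
    (L.symm : EE n →L[ℝ] EE n).le_opNorm _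
  rw [le_div_iff₀ (by linarith)] at hx
  have h2 := norm_nonneg (x - x₀)
  nlinarith

private theorem L02_null (L : EE n ≃L[ℝ] EE n) {S : Set (EE n)} (hS : volume S = 0) :
    volume ((fun a => x₀ + L a) '' S) = 0 := by
  refine addHaar_image_eq_zero_of_differentiableOn_of_addHaar_eq_zero volume ?_ hS
  exact ((L : EE n →L[ℝ] EE n).differentiable.const_add x₀).differentiableOn

theorem loc_strict (h : LocalData F G V x₀) (hk : HasOrd 2 F x₀)
    (hw : WSCond 2 F (fun a b => G x₀ a b) x₀) : ∃ ρ : ℝ, 0 < ρ ∧ volume (stay V x₀ ρ) = 0 := by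
  obtain ⟨L, B, hL, hN⟩ := exists_norm_data h
  obtain ⟨ρ, hρ, hnull⟩ := strict_null _ _ B hN (hasOrd_normal 2 F x₀ h.anF L hk)
    (wsCond_normal 2 F x₀ h.anF (fun a b => G x₀ a b) L hL hk hw)
  refine ⟨ρ / (‖(L.symm : EE n →L[ℝ] EE n)‖ + 1), by positivity, ?_⟩
  refine measure_mono_null ?_ (L02_null (x₀ := x₀) L hnull)
  rintro x ⟨γ, h0, htr, hst⟩
  refine ⟨L.symm (x - x₀), ⟨fun t => L.symm (γ t - x₀), by simp only [h0], fun t ht => ?_,
    fun t ht => ?_⟩, by simp⟩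
  · exact L02_traj L (htr t ht)
  · rw [sub_zero]
    exact L02_norm L (hst t ht)

theorem loc_conv (h : LocalData F G V x₀) (k : ℕ) (hk : HasOrd k F x₀)
    (hw : WSCond k F (fun a b => G x₀ a b) x₀) : ∃ ρ : ℝ, 0 < ρ ∧ volume (stayConv V x₀ ρ) = 0 := by
  obtain ⟨L, B, hL, hN⟩ := exists_norm_data h
  obtain ⟨ρ, hρ, hnull⟩ := conv_null k _ _ B hN (hasOrd_normal k F x₀ h.anF L hk)
    (wsCond_normal k F x₀ h.anF (fun a b => G x₀ a b) L hL hk hw)
  refine ⟨ρ / (‖(L.symm : EE n →L[ℝ] EE n)‖ + 1), by positivity, ?_⟩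
  refine measure_mono_null ?_ (L02_null (x₀ := x₀) L hnull)
  rintro x ⟨γ, h0, htr, hst, hlim⟩
  refine ⟨L.symm (x - x₀), ⟨fun t => L.symm (γ t - x₀), by simp only [h0], fun t ht => ?_,
    fun t ht => ?_, ?_⟩, by simp⟩
  · exact L02_traj L (htr t ht)
  · rw [sub_zero]
    exact L02_norm L (hst t ht)
  · have h1 : Tendsto (fun t => γ t - x₀) atTop (𝓝 0) := by
      have := hlim.sub_const x₀
      rwa [sub_self] at this
    have h2 := (L.symm.continuous.tendsto 0).comp h1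
    rw [map_zero] at h2
    exact h2

theorem loc_isolated (h : LocalData F G V x₀) (k : ℕ) (hk : HasOrd k F x₀)
    (hw : WSCond k F (fun a b => G x₀ a b) x₀) :
    ∀ᶠ x in 𝓝[≠] x₀, ¬ (fderiv ℝ F x = 0 ∧ fderiv ℝ (fderiv ℝ F) x = 0) := by
  obtain ⟨L, B, hL, hN⟩ := exists_norm_data h
  have hiso := isolated_order k _ hN.anF hN.F0 (hasOrd_normal k F x₀ h.anF L hk)
    (wsCond_normal k F x₀ h.anF (fun a b => G x₀ a b) L hL hk hw)
  set F' : EE n → ℝ := fun a => F (x₀ + L a) - F x₀ with hF'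
  have ht : Tendsto (fun x => L.symm (x - x₀)) (𝓝[≠] x₀) (𝓝[≠] 0) := by
    refine tendsto_nhdsWithin_of_tendsto_nhds_of_eventually_within _ ?_ ?_
    · have h1 : Continuous (fun x => L.symm (x - x₀)) :=
        L.symm.continuous.comp (continuous_id.sub continuous_const)
      have h2 := h1.tendsto x₀
      rw [sub_self, map_zero] at h2
      exact h2.mono_left nhdsWithin_le_nhds
    · filter_upwards [self_mem_nhdsWithin] with x hx h1
      have h2 : L.symm (x - x₀) = 0 := h1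
      rw [map_eq_zero_iff _ L.symm.injective, sub_eq_zero] at h2
      exact hx h2
  have han : ∀ᶠ x in 𝓝[≠] x₀, ∀ᶠ y in 𝓝 x, AnalyticAt ℝ F y :=
    (eventually_eventually_nhds.2 h.anF.eventually_analyticAt).filter_mono nhdsWithin_le_nhds
  filter_upwards [ht.eventually hiso, han] with x hx hxa hcrit
  apply hx
  have hphi : x₀ + L (L.symm (x - x₀)) = x := by simp
  have hd : ∀ a : EE n, HasFDerivAt (fun a => x₀ + L a) (L : EE n →L[ℝ] EE n) a := fun a =>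
    (L : EE n →L[ℝ] EE n).hasFDerivAt.const_add x₀
  have hcont : ContinuousAt (fun a : EE n => x₀ + L a) (L.symm (x - x₀)) := (hd _).continuousAt
  have hnear : ∀ᶠ a in 𝓝 (L.symm (x - x₀)), fderiv ℝ F' a =
      (fderiv ℝ F (x₀ + L a)).comp (L : EE n →L[ℝ] EE n) := by
    have h1 : ∀ᶠ a in 𝓝 (L.symm (x - x₀)), AnalyticAt ℝ F (x₀ + L a) := by
      have h2 : ∀ᶠ y in 𝓝 (x₀ + L (L.symm (x - x₀))), AnalyticAt ℝ F y := by
        rw [hphi]
        exact hxa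
      exact hcont.eventually h2
    filter_upwards [h1] with a ha
    exact ((ha.differentiableAt.hasFDerivAt.comp a (hd a)).sub_const (F x₀)).fderiv
  constructor
  · rw [hnear.self_of_nhds, hphi, hcrit.1, ContinuousLinearMap.zero_comp]
  · have h2 : HasFDerivAt (fderiv ℝ F) (0 : EE n →L[ℝ] EE n →L[ℝ] ℝ)
        (x₀ + L (L.symm (x - x₀))) := by
      rw [hphi, ← hcrit.2]
      exact hxa.self_of_nhds.fderiv.differentiableAt.hasFDerivAt
    have h3 := h2.comp (L.symm (x - x₀)) (hd (L.symm (x - x₀)))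
    rw [ContinuousLinearMap.zero_comp] at h3
    have h4 := h3.clm_comp (hasFDerivAt_const (L : EE n →L[ℝ] EE n) (L.symm (x - x₀)))
    have h5 : fderiv ℝ F' =ᶠ[𝓝 (L.symm (x - x₀))]
        fun a => ((fderiv ℝ F ∘ fun a => x₀ + L a) a).comp (L : EE n →L[ℝ] EE n) := hnear
    rw [h5.fderiv_eq, h4.fderiv]
    ext u v
    simp

theorem loc_trap (h : LocalData F G V x₀) :
    ∃ (ρ : ℝ) (m : ℕ) (C : ℝ), 0 < ρ ∧ 2 ≤ m ∧ 0 < C ∧
      ∀ (T : ℝ), 0 ≤ T → ∀ γ : ℝ → EE n,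
        (∀ t ∈ Icc 0 T, HasDerivWithinAt γ (V (γ t)) (Icc 0 T) t) →
        (∀ t ∈ Icc 0 T, ‖γ t - x₀‖ ≤ ρ) → (∀ t ∈ Icc 0 T, F x₀ < F (γ t)) →
        ∀ t ∈ Icc 0 T, ‖γ t - γ 0‖ ≤ C * (F (γ 0) - F x₀) ^ (1 / (m : ℝ)) := by
  obtain ⟨L, B, hL, hN⟩ := exists_norm_data h
  obtain ⟨K, hK⟩ := nearGrad_of_norm hN
  obtain ⟨ρ, m, C, hρ, hm, hC, hlen, -⟩ := loj_length _ hN.anF hN.F0 _ K hK
  refine ⟨ρ / (‖(L.symm : EE n →L[ℝ] EE n)‖ + 1), m, (‖(L : EE n →L[ℝ] EE n)‖ + 1) * C,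
    by positivity, hm, by positivity, ?_⟩
  intro T hT γ htr hst hpos t ht
  have hFe : ∀ t, F (x₀ + L (L.symm (γ t - x₀))) - F x₀ = F (γ t) - F x₀ := by
    intro t
    simp
  have h0 : (0 : ℝ) ∈ Icc 0 T := ⟨le_rfl, hT⟩
  have h1 := hlen T hT (fun t => L.symm (γ t - x₀)) (fun t ht => L02_traj L (htr t ht))
    (fun t ht => L02_norm L (hst t ht)) (fun t ht => by
      rw [hFe]
      exact sub_pos.2 (hpos t ht)) 0 h0 t ht
  rw [hFe, hFe] at h1
  have h2 : 0 ≤ C * (F (γ t) - F x₀) ^ (1 / (m : ℝ)) :=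
    mul_nonneg hC.le (Real.rpow_nonneg (sub_pos.2 (hpos t ht)).le _)
  have h3 : γ t - γ 0 = (L : EE n →L[ℝ] EE n) (L.symm (γ t - x₀) - L.symm (γ 0 - x₀)) := by
    simp
  have h4 := (L : EE n →L[ℝ] EE n).le_opNorm (L.symm (γ t - x₀) - L.symm (γ 0 - x₀))
  rw [← h3] at h4
  have h5 : ‖L.symm (γ t - x₀) - L.symm (γ 0 - x₀)‖ ≤ C * (F (γ 0) - F x₀) ^ (1 / (m : ℝ)) := by
    linarith
  have h6 : 0 ≤ ‖(L : EE n →L[ℝ] EE n)‖ := norm_nonneg _
  have h7 := norm_nonneg (L.symm (γ t - x₀) - L.symm (γ 0 - x₀))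
  calc ‖γ t - γ 0‖ ≤ ‖(L : EE n →L[ℝ] EE n)‖ * ‖L.symm (γ t - x₀) - L.symm (γ 0 - x₀)‖ := h4
    _ ≤ (‖(L : EE n →L[ℝ] EE n)‖ + 1) * (C * (F (γ 0) - F x₀) ^ (1 / (m : ℝ))) := by
        refine mul_le_mul (by linarith) h5 h7 (by linarith)
    _ = (‖(L : EE n →L[ℝ] EE n)‖ + 1) * C * (F (γ 0) - F x₀) ^ (1 / (m : ℝ)) := by ring

end Pool.Agent.helper62.GF
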