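import Pool.Agent.helper62.GF.G01
import Pool.Agent.helper62.GF.G02
import Pool.Agent.helper62.GF.L02
import Pool.Agent.helper62.GF.N09

/-!
(proof: helper51)
# GF-G03: pulling back null sets along the flow

For `p : M` let `V_p` be the local field of `local_model`, Lipschitz on the closed ball of radius `ρ_p` around `ctr n p`
(`loc_lipschitz`), `ρ_p` so small that the ball lies in the target of the chart; `O_p` = the open set of points of
the source whose coordinates lie in the open ball.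
(1) One box: if `S` is null and `τ ≥ 0` then
`E p τ S = {γ 0 | γ integral curve of -X on Icc 0 τ, γ '' Icc 0 τ ⊆ O_p, γ τ ∈ S}` is null: in coordinates it is
contained in the set of `flow_back` (`nullM_of_chart`, `nullM_chart`).
(2) By Lindelof choose a countable set `D ⊆ M` with `⋃_{p∈D} O_p = M`.
(3) Given a flow line `γ` on `[0, N]`, by compactness (Lebesgue number) there is `m ≥ 1` such that for every
`i < m` the piece `γ '' Icc (i N/m) ((i+1) N/m)` is contained in some `O_{p_i}`, `p_i ∈ D`.  So `γ 0` belongs to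
`E p_0 τ (E p_1 τ (… (E p_{m-1} τ S)))`, `τ = N/m` (time translation of integral curves:
`IsMIntegralCurveOn.comp_add`).  These sets are null by (1), and there are countably many (lists of elements of `D`).
-/

open Filter Topology Set MeasureTheory Bundle
open scoped Manifold ContDiff

namespace Pool.Agent.helper62.GF

variable {n : ℕ} {M : Type*} [MetricSpace M] [SecondCountableTopology M] [ChartedSpace (EE n) M]
  [IsManifold (𝓡 n) ω M]

/-- the starting points of the integral curves on `[0, τ]` inside `O` which end in `S` -/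
private def G03_E (X : (x : M) → TangentSpace (𝓡 n) x) (O : Set M) (τ : ℝ) (S : Set M) : Set M :=
  {w | ∃ γ : ℝ → M, γ 0 = w ∧ IsMIntegralCurveOn γ (fun x => -(X x)) (Icc 0 τ) ∧
    (∀ t ∈ Icc 0 τ, γ t ∈ O) ∧ γ τ ∈ S}

/-- one box -/
private theorem G03_box (g : RMetric n M) (f : M → ℝ) (hf : ContMDiff (𝓡 n) 𝓘(ℝ, ℝ) ω f)
    (X : (x : M) → TangentSpace (𝓡 n) x) (hX : IsGrad g f X) (p : M) :
    ∃ O : Set M, IsOpen O ∧ p ∈ O ∧ ∀ τ : ℝ, 0 ≤ τ → ∀ S : Set M, NullM (n := n) S →
      NullM (n := n) (G03_E X O τ S) := by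
  obtain ⟨G, V, hloc, -, hcur⟩ := local_model g f hf X hX p
  obtain ⟨ρ, K, hρ, hLip⟩ := loc_lipschitz hloc
  refine ⟨(extChartAt (𝓡 n) p).source ∩ (extChartAt (𝓡 n) p) ⁻¹' Metric.ball (ctr n p) ρ,
    (continuousOn_extChartAt p).isOpen_inter_preimage (isOpen_extChartAt_source p)
      Metric.isOpen_ball, ⟨mem_extChartAt_source p, Metric.mem_ball_self hρ⟩, ?_⟩
  intro τ hτ S hS
  refine nullM_of_chart p _ ?_ ?_
  · rintro w ⟨γ, h0, -, h2, -⟩
    rw [← h0]
    exact (h2 0 ⟨le_rfl, hτ⟩).1
  · refine measure_mono_null ?_ (flow_back V (Metric.closedBall (ctr n p) ρ) K hLip τ hτ _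
      (nullM_chart p S hS))
    rintro _ ⟨w, ⟨γ, h0, h1, h2, h3⟩, rfl⟩
    refine ⟨fun t => extChartAt (𝓡 n) p (γ t), by simp only [h0], ?_, ?_⟩
    · intro t ht
      exact ⟨hcur γ _ h1 t ht (h2 t ht).1, Metric.ball_subset_closedBall (h2 t ht).2⟩
    · exact ⟨γ τ, ⟨(h2 τ ⟨hτ, le_rfl⟩).1, h3⟩, rfl⟩

/-- iterated pull back along a list of boxes -/
private def G03_B (X : (x : M) → TangentSpace (𝓡 n) x) (O : M → Set M) (τ : ℝ) (S : Set M) :
    List M → Set M
  | [] => S
  | p :: L => G03_E X (O p) τ (G03_B X O τ S L)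

private theorem G03_null (X : (x : M) → TangentSpace (𝓡 n) x) (O : M → Set M)
    (hO : ∀ p τ, 0 ≤ τ → ∀ S : Set M, NullM (n := n) S → NullM (n := n) (G03_E X (O p) τ S))
    {τ : ℝ} (hτ : 0 ≤ τ) (S : Set M) (hS : NullM (n := n) S) (L : List M) :
    NullM (n := n) (G03_B X O τ S L) := by
  induction L with
  | nil => exact hS
  | cons p L ih => exact hO p τ hτ _ ih

theorem flow_back_manifold (g : RMetric n M) (f : M → ℝ) (hf : ContMDiff (𝓡 n) 𝓘(ℝ, ℝ) ω f)
    (X : (x : M) → TangentSpace (𝓡 n) x) (hX : IsGrad g f X) (S : Set M) (hS : NullM (n := n) S)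
    (N : ℝ) (hN : 0 ≤ N) :
    NullM (n := n) {w : M | ∃ γ : ℝ → M, γ 0 = w ∧ IsFlowLine X γ ∧ γ N ∈ S} := by
  choose O hOo hOm hO using G03_box g f hf X hX
  obtain ⟨D, hDc, hDu⟩ := TopologicalSpace.countable_cover_nhds fun p => (hOo p).mem_nhds (hOm p)
  have : Countable D := hDc
  have hsub : {w : M | ∃ γ : ℝ → M, γ 0 = w ∧ IsFlowLine X γ ∧ γ N ∈ S} ⊆
      ⋃ q : ℕ × List D, G03_B X O (N / (q.1 + 1 : ℕ)) S (q.2.map Subtype.val) := by
    rintro w ⟨γ, h0, hγ, hN'⟩
    have hγc : ContinuousOn γ (Icc 0 N) := fun t ht =>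
      ((hγ t ht.1).continuousWithinAt).mono Icc_subset_Ici_self
    -- the curve, extended by constants
    set γ' : ℝ → M := fun t => γ (projIcc 0 N hN t) with hγ'
    have hγ'c : Continuous γ' := by
      have h1 : Continuous (fun x : Icc (0 : ℝ) N => γ x) :=
        continuousOn_iff_continuous_domRestrict.1 hγc
      exact h1.comp continuous_projIcc
    have hγ'e : ∀ t ∈ Icc 0 N, γ' t = γ t := by
      intro t ht
      rw [hγ']
      simp only [projIcc_of_mem hN ht]
    obtain ⟨δ, hδ, hcov⟩ := lebesgue_number_lemma_of_metric (s := Icc (0 : ℝ) N)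
      (c := fun p : D => γ' ⁻¹' O p) isCompact_Icc (fun p => (hOo p).preimage hγ'c) (by
        intro t _
        have h1 : γ' t ∈ ⋃ x ∈ D, O x := by
          rw [hDu]
          trivial
        rw [mem_iUnion₂] at h1
        obtain ⟨x, hx, hx'⟩ := h1
        exact mem_iUnion.2 ⟨⟨x, hx⟩, hx'⟩)
    obtain ⟨m, hm⟩ := exists_nat_gt (N / δ)
    set τ : ℝ := N / (m + 1 : ℕ) with hτ
    have hm1 : (0 : ℝ) < (m + 1 : ℕ) := by positivity
    have hτ0 : 0 ≤ τ := div_nonneg hN hm1.le
    have hτδ : τ < δ := by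
      rw [hτ, div_lt_iff₀ hm1]
      rw [div_lt_iff₀ hδ] at hm
      push_cast
      nlinarith
    have hmτ : (m + 1 : ℕ) * τ = N := by
      rw [hτ]
      field_simp
    have key : ∀ j : ℕ, j ≤ m + 1 → ∃ L : List D,
        γ (((m + 1 - j : ℕ) : ℝ) * τ) ∈ G03_B X O τ S (L.map Subtype.val) := by
      intro j
      induction j with
      | zero =>
        intro _
        refine ⟨[], ?_⟩
        rw [Nat.sub_zero, hmτ]
        exact hN'
      | succ j ih =>
        intro hj
        obtain ⟨L, hL⟩ := ih (by omega)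
        obtain ⟨i, hi⟩ : ∃ i, i = m + 1 - (j + 1) := ⟨_, rfl⟩
        have hi1 : m + 1 - j = i + 1 := by omega
        rw [hi1] at hL
        rw [← hi]
        have him : ((i + 1 : ℕ) : ℝ) * τ ≤ N := by
          rw [← hmτ]
          exact mul_le_mul_of_nonneg_right (by exact_mod_cast (by omega : i + 1 ≤ m + 1)) hτ0
        have hi0 : 0 ≤ (i : ℝ) * τ := by positivity
        push_cast at him
        obtain ⟨q, hq⟩ := hcov ((i : ℝ) * τ) ⟨hi0, by nlinarith⟩
        refine ⟨q :: L, ?_⟩
        refine ⟨fun t => γ (t + i * τ), by simp, ?_, ?_, ?_⟩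
        · have h1 := hγ.comp_add ((i : ℝ) * τ)
          refine h1.mono ?_
          intro t ht
          show 0 ≤ t + i * τ
          linarith [ht.1]
        · intro t ht
          have h1 : t + i * τ ∈ Icc 0 N := ⟨by linarith [ht.1], by linarith [ht.2]⟩
          have h2 : t + i * τ ∈ Metric.ball ((i : ℝ) * τ) δ := by
            rw [Metric.mem_ball, Real.dist_eq, add_sub_cancel_right, abs_of_nonneg ht.1]
            exact lt_of_le_of_lt ht.2 hτδ
          have h3 := hq h2
          have h4 : γ' (t + i * τ) ∈ O q := h3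
          rwa [hγ'e _ h1] at h4
        · have h1 : τ + i * τ = ((i + 1 : ℕ) : ℝ) * τ := by
            push_cast
            ring
          show γ (τ + i * τ) ∈ _
          rw [h1]
          exact hL
    obtain ⟨L, hL⟩ := key (m + 1) le_rfl
    rw [Nat.sub_self, Nat.cast_zero, zero_mul, h0] at hL
    exact mem_iUnion.2 ⟨(m, L), hL⟩
  refine nullM_mono hsub (nullM_iUnion fun q => ?_)
  exact G03_null X O hO (div_nonneg hN (Nat.cast_nonneg _)) S hS _

end Pool.Agent.helper62.GF
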