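import Pool.Agent.helper62.GF.G07
import Pool.Agent.helper62.GF.L02

/-!
author: helper24
# GF-G04: flow lines that come arbitrarily close to a compact set of critical points converge

(1) `f ∘ γ` is nonincreasing on `[0,∞)`: derivative `-g(X, X)` (chain rule, `IsGrad`).
(2) `equil`: if `γ t₀ = q` is critical then `γ t = q` for all `t ≥ t₀`: in the chart at `q` the field `V` is
Lipschitz near `ctr n q` and `V (ctr n q) = 0` (from `eq` and `pos` of `LocalData`); Gronwall / ODE uniqueness shows that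
`{t ≥ t₀ | γ = q on [t₀, t]}` is open in `[t₀, ∞)`; it is closed by continuity.
(3) If `f ∘ γ` is constant on `[t₀, ∞)` then `X (γ t) = 0` there (`g(X,X) = 0`), so `γ t₀` is critical and by (2) `γ` is
constant on `[t₀, ∞)`.
(4) Let `C` be compact, all points critical.  If `γ t₀ ∈ C` for some `t₀` use (2).  Otherwise for every `T` there are
`t > T` and points of `C` at arbitrarily small distance (on `[0,T]` the distance to `C` is bounded below), so by compactness
there are `t_i → ∞` and `q ∈ C` with `γ t_i → q`.  Then `f (γ t)` decreases to `f q`.  If `f (γ t₀) = f q` for some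
`t₀` use (3) (the constant value is `q`).  Otherwise `f (γ t) > f q` for all `t`.
(5) Trap: let `e = extChartAt q`, `ρ, m, C'` from `loc_trap`, and let `0 < ε ≤ ρ` be so small that
`closedBall (ctr n q) ε` is contained in `e.target`.  Choose `t_i` with `γ t_i ∈ e.source`,
`‖e (γ t_i) - ctr q‖ < ε/2` and `C' (f (γ t_i) - f q)^{1/m} < ε/2`.  By `loc_trap` on `[t_i, T]` the curve cannot leave
the ball: the set of `T ≥ t_i` such that `γ t ∈ e.source` and `‖e (γ t) - ctr q‖ ≤ ε` on `[t_i, T]` is closed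
(`e.symm '' closedBall` is compact, hence closed) and open in `[t_i, ∞)`.  So `γ t → q`.
-/

open Filter Topology Set MeasureTheory Bundle
open scoped Manifold ContDiff

namespace Pool.Agent.helper62.GF

variable {n : ℕ} {M : Type*} [MetricSpace M] [ChartedSpace (EE n) M] [IsManifold (𝓡 n) ω M]

omit [IsManifold (𝓡 n) ω M] in
/-- the trap: if the curve starts close to `q` and every piece inside the ball is short, it stays in the ball -/
private theorem trapAux (q : M) (ε a : ℝ)
    (hb : Metric.closedBall (ctr n q) ε ⊆ (extChartAt (𝓡 n) q).target)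
    (γ : ℝ → M) (hγ : ContinuousOn γ (Ici a))
    (h0 : γ a ∈ (extChartAt (𝓡 n) q).source) (h0' : ‖extChartAt (𝓡 n) q (γ a) - ctr n q‖ < ε)
    (hstep : ∀ T, a ≤ T → (∀ t ∈ Icc a T, γ t ∈ (extChartAt (𝓡 n) q).source ∧
      ‖extChartAt (𝓡 n) q (γ t) - ctr n q‖ ≤ ε) → ‖extChartAt (𝓡 n) q (γ T) - ctr n q‖ < ε) :
    ∀ t, a ≤ t → γ t ∈ (extChartAt (𝓡 n) q).source ∧ ‖extChartAt (𝓡 n) q (γ t) - ctr n q‖ ≤ ε := by
  set e := extChartAt (𝓡 n) q with he
  set O : Set M := e.source ∩ e ⁻¹' Metric.ball (ctr n q) ε with hO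
  set K : Set M := e.symm '' Metric.closedBall (ctr n q) ε with hK
  have hOo : IsOpen O := by
    exact isOpen_extChartAt_preimage' q Metric.isOpen_ball
  have hKc : IsClosed K := by
    have h1 : IsCompact K := (isCompact_closedBall _ _).image_of_continuousOn
      ((continuousOn_extChartAt_symm q).mono hb)
    exact h1.isClosed
  have hOK : O ⊆ K := by
    rintro x ⟨hx1, hx2⟩
    refine ⟨e x, Metric.ball_subset_closedBall hx2, e.left_inv hx1⟩
  have hKs : ∀ x ∈ K, x ∈ e.source ∧ ‖e x - ctr n q‖ ≤ ε := by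
    rintro x ⟨y, hy, rfl⟩
    refine ⟨e.map_target (hb hy), ?_⟩
    rw [e.right_inv (hb hy)]
    exact mem_closedBall_iff_norm.1 hy
  have key : ∀ t, a ≤ t → γ t ∈ O := by
    by_contra hcon
    push Not at hcon
    obtain ⟨t₁, ht₁, ht₁O⟩ := hcon
    set S : Set ℝ := Icc a t₁ ∩ γ ⁻¹' Oᶜ with hS
    have hSc : IsClosed S :=
      (hγ.mono Icc_subset_Ici_self).preimage_isClosed_of_isClosed isClosed_Icc hOo.isClosed_compl
    have hSne : S.Nonempty := ⟨t₁, ⟨ht₁, le_rfl⟩, ht₁O⟩
    have hSb : BddBelow S := ⟨a, fun x hx => hx.1.1⟩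
    have hTS : sInf S ∈ S := hSc.csInf_mem hSne hSb
    set T := sInf S with hT
    have haT : a ≤ T := hTS.1.1
    have hlt : ∀ t, a ≤ t → t < T → γ t ∈ O := by
      intro t hat htT
      by_contra hto
      exact absurd (csInf_le hSb (show t ∈ S from ⟨⟨hat, htT.le.trans hTS.1.2⟩, hto⟩)) (not_le.2 htT)
    have hne : a ≠ T := by
      intro hh
      apply hTS.2
      rw [← hh]
      exact ⟨h0, mem_ball_iff_norm.2 h0'⟩
    have haT' : a < T := lt_of_le_of_ne haT hne
    have hTK : γ T ∈ K := by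
      have h1 : T ∈ closure (Ico a T) := by
        rw [closure_Ico hne]
        exact ⟨haT, le_rfl⟩
      have h2 : ContinuousWithinAt γ (Ico a T) T := (hγ T haT).mono fun x hx => hx.1
      have h3 := h2.mem_closure (t := K) h1 fun t ht => hOK (hlt t ht.1 ht.2)
      rwa [hKc.closure_eq] at h3
    have hall : ∀ t ∈ Icc a T, γ t ∈ e.source ∧ ‖e (γ t) - ctr n q‖ ≤ ε := by
      intro t ht
      rcases ht.2.lt_or_eq with h | h
      · exact hKs _ (hOK (hlt t ht.1 h))
      · rw [h]
        exact hKs _ hTK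
    have hfin := hstep T haT hall
    exact hTS.2 ⟨(hall T ⟨haT, le_rfl⟩).1, mem_ball_iff_norm.2 hfin⟩
  intro t ht
  exact hKs _ (hOK (key t ht))

theorem converges (g : RMetric n M) (f : M → ℝ) (hf : ContMDiff (𝓡 n) 𝓘(ℝ, ℝ) ω f)
    (X : (x : M) → TangentSpace (𝓡 n) x) (hX : IsGrad g f X) (C : Set M) (hC : IsCompact C)
    (hcrit : ∀ q ∈ C, mfderiv (𝓡 n) 𝓘(ℝ, ℝ) f q = 0) (γ : ℝ → M) (hγ : IsFlowLine X γ)
    (hclose : ∀ ε : ℝ, 0 < ε → ∃ t : ℝ, 0 ≤ t ∧ ∃ q ∈ C, dist (γ t) q < ε) :
    ∃ q ∈ C, Tendsto γ atTop (𝓝 q) := by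
  have hγc : ContinuousOn γ (Ici 0) := IsMIntegralCurveOn.continuousOn hγ
  have hfc : Continuous f := hf.continuous
  have hanti := flow_antitone g f hf X hX γ hγ
  by_cases hcase : ∃ t₀, 0 ≤ t₀ ∧ γ t₀ ∈ C
  · obtain ⟨t₀, ht₀, htC⟩ := hcase
    refine ⟨γ t₀, htC, ?_⟩
    have h1 := equil g f hf X hX γ hγ t₀ ht₀ (hcrit _ htC)
    refine tendsto_const_nhds.congr' ?_
    filter_upwards [eventually_ge_atTop t₀] with t ht
    exact (h1 t ht).symm
  push Not at hcase
  -- late close times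
  have hCne : C.Nonempty := by
    obtain ⟨t, -, q, hq, -⟩ := hclose 1 one_pos
    exact ⟨q, hq⟩
  have hlate : ∀ T : ℝ, 0 ≤ T → ∀ ε : ℝ, 0 < ε → ∃ t, T ≤ t ∧ ∃ q ∈ C, dist (γ t) q < ε := by
    intro T hT ε hε
    have h1 : ContinuousOn (fun t => Metric.infDist (γ t) C) (Icc 0 T) :=
      (Metric.continuous_infDist_pt C).comp_continuousOn (hγc.mono Icc_subset_Ici_self)
    obtain ⟨t₁, ht₁, hmin⟩ := isCompact_Icc.exists_isMinOn (nonempty_Icc.2 hT) h1
    have hpos : 0 < Metric.infDist (γ t₁) C :=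
      (hC.isClosed.notMem_iff_infDist_pos hCne).1 (hcase t₁ ht₁.1)
    obtain ⟨t, ht0, q, hq, hd⟩ := hclose (min ε (Metric.infDist (γ t₁) C)) (lt_min hε hpos)
    refine ⟨t, ?_, q, hq, hd.trans_le (min_le_left _ _)⟩
    by_contra hlt
    push Not at hlt
    have h2 := hmin (show t ∈ Icc 0 T from ⟨ht0, hlt.le⟩)
    have h3 : Metric.infDist (γ t) C ≤ dist (γ t) q := Metric.infDist_le_dist_of_mem hq
    have h4 := hd.trans_le (min_le_right _ _)
    simp only [mem_ofPred_eq] at h2
    linarith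
  have hseq : ∀ k : ℕ, ∃ t, (k : ℝ) ≤ t ∧ ∃ q ∈ C, dist (γ t) q < 1 / ((k : ℝ) + 1) := fun k =>
    hlate k (Nat.cast_nonneg k) _ (by positivity)
  choose τ hτ Q hQC hQd using hseq
  obtain ⟨q, hqC, φ, hφ, hlim⟩ := hC.tendsto_subseq hQC
  have hτlim : Tendsto (fun k => τ (φ k)) atTop atTop := by
    refine tendsto_atTop_mono (fun k => hτ (φ k)) ?_
    exact tendsto_natCast_atTop_atTop.comp hφ.tendsto_atTop
  have hdl : Tendsto (fun k => dist (γ (τ (φ k))) (Q (φ k))) atTop (𝓝 0) := by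
    have h1 : Tendsto (fun k : ℕ => 1 / ((k : ℝ) + 1)) atTop (𝓝 0) := tendsto_one_div_add_atTop_nhds_zero_nat
    exact squeeze_zero (fun k => dist_nonneg) (fun k => (hQd (φ k)).le) (h1.comp hφ.tendsto_atTop)
  have hγlim : Tendsto (fun k => γ (τ (φ k))) atTop (𝓝 q) := by
    rw [tendsto_iff_dist_tendsto_zero]
    have h1 : Tendsto (fun k => dist (Q (φ k)) q) atTop (𝓝 0) := tendsto_iff_dist_tendsto_zero.1 hlim
    have h2 := hdl.add h1
    rw [add_zero] at h2
    exact squeeze_zero (fun k => dist_nonneg) (fun k => dist_triangle _ _ _) h2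
  have hflim : Tendsto (fun k => f (γ (τ (φ k)))) atTop (𝓝 (f q)) := (hfc.tendsto q).comp hγlim
  have hge : ∀ t, 0 ≤ t → f q ≤ f (γ t) := by
    intro t ht
    refine le_of_tendsto hflim ?_
    filter_upwards [hτlim.eventually_ge_atTop t] with k hk
    exact hanti (show t ∈ Ici (0 : ℝ) from ht) (show τ (φ k) ∈ Ici (0 : ℝ) from ht.trans hk) hk
  have hgt : ∀ t, 0 ≤ t → f q < f (γ t) := by
    intro t ht
    refine lt_of_le_of_ne (hge t ht) fun heq => ?_
    have h1 := const_of_eq g f hf X hX γ hγ t ht fun s hs =>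
      le_antisymm (hanti (show t ∈ Ici (0 : ℝ) from ht) (show s ∈ Ici (0 : ℝ) from ht.trans hs) hs)
        (heq ▸ hge s (ht.trans hs))
    have h2 : Tendsto (fun k => γ (τ (φ k))) atTop (𝓝 (γ t)) := by
      refine tendsto_const_nhds.congr' ?_
      filter_upwards [hτlim.eventually_ge_atTop t] with k hk
      exact (h1 _ hk).symm
    have h3 : q = γ t := tendsto_nhds_unique hγlim h2
    exact hcase t ht (h3 ▸ hqC)
  refine ⟨q, hqC, ?_⟩
  -- the trap
  obtain ⟨G, V, hLD, -, hder⟩ := local_model g f hf X hX q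
  obtain ⟨ρ, m, C', hρ, hm, hC', htrap⟩ := loc_trap hLD
  set e := extChartAt (𝓡 n) q with he
  have htar : e.target ∈ 𝓝 (ctr n q) := extChartAt_target_mem_nhds q
  obtain ⟨ρ₁, hρ₁, hρ₁t⟩ := Metric.nhds_basis_closedBall.mem_iff.1 htar
  have hmpos : 0 < 1 / (m : ℝ) := by
    have : (0 : ℝ) < m := by exact_mod_cast (by omega : 0 < m)
    positivity
  have main : ∀ ε, 0 < ε → ε ≤ ρ → ε ≤ ρ₁ → ∀ᶠ t in atTop,
      γ t ∈ e.source ∧ ‖e (γ t) - ctr n q‖ ≤ ε := by
    intro ε hε hερ hερ₁
    have hb : Metric.closedBall (ctr n q) ε ⊆ e.target :=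
      (Metric.closedBall_subset_closedBall hερ₁).trans hρ₁t
    -- choose the starting time
    have e1 : ∀ᶠ k in atTop, γ (τ (φ k)) ∈ e.source :=
      hγlim.eventually (extChartAt_source_mem_nhds (I := 𝓡 n) q)
    have e2 : ∀ᶠ k in atTop, ‖e (γ (τ (φ k))) - ctr n q‖ < ε / 2 := by
      have h1 : Tendsto (fun k => e (γ (τ (φ k)))) atTop (𝓝 (ctr n q)) :=
        (continuousAt_extChartAt (I := 𝓡 n) q).tendsto.comp hγlim
      have h2 := h1.eventually (Metric.ball_mem_nhds (ctr n q) (half_pos hε))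
      filter_upwards [h2] with k hk
      exact mem_ball_iff_norm.1 hk
    have e3 : ∀ᶠ k in atTop, C' * (f (γ (τ (φ k))) - f q) ^ (1 / (m : ℝ)) < ε / 2 := by
      have h1 : Tendsto (fun k => f (γ (τ (φ k))) - f q) atTop (𝓝 0) := by
        have := hflim.sub_const (f q)
        rwa [sub_self] at this
      have h2 : Tendsto (fun k => C' * (f (γ (τ (φ k))) - f q) ^ (1 / (m : ℝ))) atTop (𝓝 0) := by
        have h3 := (h1.rpow_const (p := 1 / (m : ℝ)) (Or.inr hmpos.le)).const_mul C'
        rwa [Real.zero_rpow hmpos.ne', mul_zero] at h3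
      exact h2.eventually (gt_mem_nhds (half_pos hε))
    have e4 : ∀ᶠ k in atTop, 0 ≤ τ (φ k) := hτlim.eventually_ge_atTop 0
    obtain ⟨k, k1, k2, k3, k4⟩ := (e1.and (e2.and (e3.and e4))).exists
    set a := τ (φ k) with ha
    have htr := trapAux q ε a hb γ (hγc.mono (Ici_subset_Ici.2 k4)) k1
      (k2.trans (by linarith)) ?_
    · filter_upwards [eventually_ge_atTop a] with t ht
      exact htr t ht
    intro T haT hball
    have hc := htrap (T - a) (sub_nonneg.2 haT) (fun s => e (γ (a + s))) ?_ ?_ ?_ (T - a)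
      ⟨sub_nonneg.2 haT, le_rfl⟩
    · simp only [add_sub_cancel, add_zero] at hc
      have hF1 : locF n f q (e (γ a)) = f (γ a) := by
        unfold locF
        rw [← he, e.left_inv k1]
      have hF2 : locF n f q (ctr n q) = f q := by
        unfold locF ctr
        rw [extChartAt_to_inv]
      rw [hF1, hF2] at hc
      have h5 : e (γ T) - ctr n q = (e (γ T) - e (γ a)) + (e (γ a) - ctr n q) := by abel
      rw [h5]
      exact (norm_add_le _ _).trans_lt (by linarith)
    · intro s hs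
      have hmem : a + s ∈ Icc a T := ⟨by linarith [hs.1], by linarith [hs.2]⟩
      have h1 := hder γ (Ici 0) hγ (a + s) (show a + s ∈ Ici (0 : ℝ) from k4.trans hmem.1)
        (hball _ hmem).1
      have h2 : HasDerivWithinAt (fun s : ℝ => a + s) 1 (Icc 0 (T - a)) s :=
        ((hasDerivAt_id s).const_add a).hasDerivWithinAt
      have h3 := h1.scomp s h2 (fun x hx => (show a + x ∈ Ici (0 : ℝ) from by
        have := hx.1
        simp only [mem_Ici]
        linarith))
      rw [one_smul] at h3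
      exact h3
    · intro s hs
      exact ((hball (a + s) ⟨by linarith [hs.1], by linarith [hs.2]⟩).2).trans hερ
    · intro s hs
      have hmem : a + s ∈ Icc a T := ⟨by linarith [hs.1], by linarith [hs.2]⟩
      have hF1 : locF n f q (e (γ (a + s))) = f (γ (a + s)) := by
        unfold locF
        rw [← he, e.left_inv (hball _ hmem).1]
      have hF2 : locF n f q (ctr n q) = f q := by
        unfold locF ctr
        rw [extChartAt_to_inv]
      rw [hF1, hF2]
      exact hgt _ (k4.trans hmem.1)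
  -- conclusion
  have hel : Tendsto (fun t => e (γ t)) atTop (𝓝 (ctr n q)) := by
    rw [Metric.tendsto_nhds]
    intro ε hε
    set ε' := min (ε / 2) (min ρ ρ₁) with hε'
    have hε'0 : 0 < ε' := lt_min (half_pos hε) (lt_min hρ hρ₁)
    filter_upwards [main ε' hε'0 ((min_le_right _ _).trans (min_le_left _ _))
      ((min_le_right _ _).trans (min_le_right _ _))] with t ht
    rw [dist_eq_norm]
    exact ht.2.trans_lt ((min_le_left _ _).trans_lt (half_lt_self hε))
  have hsrc : ∀ᶠ t in atTop, γ t ∈ e.source := by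
    filter_upwards [main (min ρ ρ₁) (lt_min hρ hρ₁) (min_le_left _ _) (min_le_right _ _)] with t ht
    exact ht.1
  have hsym : Tendsto (fun t => e.symm (e (γ t))) atTop (𝓝 (e.symm (ctr n q))) :=
    (continuousAt_extChartAt_symm (I := 𝓡 n) q).tendsto.comp hel
  have hq2 : e.symm (ctr n q) = q := extChartAt_to_inv q
  rw [hq2] at hsym
  refine hsym.congr' ?_
  filter_upwards [hsrc] with t ht
  exact e.left_inv ht

end Pool.Agent.helper62.GF
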