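import Pool.Agent.helper62.GF.G01
import Pool.Agent.helper62.GF.L02

/-!
# GF-G05: critical points of order `≥ 3` are isolated among themselves

`ord_three_transfer`: let `q` be a point of the source of the chart at `p`, `f` of order `k ≥ 3` at `q` (own chart).  Then
`locF n f q y - locF n f q (ctr n q) = o(‖y - ctr q‖²)` (first and second derivatives vanish, `C²` Taylor); the transition map
`τ = (extChartAt q) ∘ (extChartAt p).symm` is differentiable at `x = extChartAt p q`, `τ x = ctr q`, and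
`locF n f p = locF n f q ∘ τ` near `x`, so `locF n f p x' - locF n f p x = o(‖x' - x‖²)`; as `locF n f p` is analytic (`C²`) at `x`,
its first and second derivatives vanish at `x` (Taylor formula of order two; e.g. restrict to lines).
`isolated_three`: `loc_isolated` in the chart at `p`, transported to `M` (`extChartAt p` is a homeomorphism near `p`).
`ord_one`: order `k ≥ 2` implies that the point is critical.
-/

open Filter Topology Set MeasureTheory Bundle
open scoped Manifold ContDiff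

namespace Pool.Agent.helper62.GF

variable {n : ℕ} {M : Type*} [TopologicalSpace M] [ChartedSpace (EE n) M] [IsManifold (𝓡 n) ω M]

private theorem G05_contDiffAt (f : M → ℝ) (hf : ContMDiff (𝓡 n) 𝓘(ℝ, ℝ) ω f) (p : M) (x : EE n)
    (hx : x ∈ (extChartAt (𝓡 n) p).target) : ContDiffAt ℝ ω (locF n f p) x := by
  have h1 : ContMDiffOn 𝓘(ℝ, EE n) 𝓘(ℝ, ℝ) ω (f ∘ (extChartAt (𝓡 n) p).symm)
      (extChartAt (𝓡 n) p).target := hf.comp_contMDiffOn (contMDiffOn_extChartAt_symm p)
  have h2 : ContDiffOn ℝ ω (locF n f p) (extChartAt (𝓡 n) p).target := contMDiffOn_iff_contDiffOn.1 h1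
  exact h2.contDiffAt ((isOpen_extChartAt_target p).mem_nhds hx)

private theorem G05_fderiv_of_ord {F : EE n → ℝ} {x : EE n} (h : iteratedFDeriv ℝ 1 F x = 0) :
    fderiv ℝ F x = 0 := by
  ext v
  have h1 := congrArg (fun A => A (fun _ : Fin 1 => v)) h
  simp only [iteratedFDeriv_one_apply] at h1
  simpa using h1

private theorem G05_fderiv2_of_ord {F : EE n → ℝ} {x : EE n} (h : iteratedFDeriv ℝ 2 F x = 0) :
    fderiv ℝ (fderiv ℝ F) x = 0 := by
  ext v w
  have h1 := congrArg (fun A => A ![v, w]) h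
  simp only [iteratedFDeriv_two_apply] at h1
  simpa using h1

theorem ord_three_transfer (f : M → ℝ) (hf : ContMDiff (𝓡 n) 𝓘(ℝ, ℝ) ω f) (p q : M)
    (hq : q ∈ (extChartAt (𝓡 n) p).source) (k : ℕ) (hk : 3 ≤ k) (h : HasOrd k (locF n f q) (ctr n q)) :
    fderiv ℝ (locF n f p) (extChartAt (𝓡 n) p q) = 0 ∧
      fderiv ℝ (fderiv ℝ (locF n f p)) (extChartAt (𝓡 n) p q) = 0 := by
  set x := extChartAt (𝓡 n) p q with hx
  set e := extChartAt (𝓡 n) p with he
  set e' := extChartAt (𝓡 n) q with he'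
  have hxt : x ∈ e.target := e.map_source hq
  have hsx : e.symm x = q := e.left_inv hq
  set τ : EE n → EE n := e' ∘ e.symm with hτ
  have hτx : τ x = ctr n q := by
    simp only [hτ, Function.comp, hsx]
    rfl
  have hmem : x ∈ (e.symm ≫ e').source := by
    rw [PartialEquiv.trans_source]
    refine ⟨hxt, ?_⟩
    show e.symm x ∈ e'.source
    rw [hsx]
    exact mem_extChartAt_source q
  have hτc : ContDiffAt ℝ ω τ x := by
    have h1 := contDiffWithinAt_ext_coord_change (I := 𝓡 n) (n := ω) q p hmem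
    rwa [modelWithCornersSelf_coe, range_id, contDiffWithinAt_univ] at h1
  have hFq : ContDiffAt ℝ ω (locF n f q) (ctr n q) :=
    G05_contDiffAt f hf q _ (mem_extChartAt_target q)
  -- near `x` the two local functions are related by `τ`
  have hev : ∀ᶠ y in 𝓝 x, locF n f p y = locF n f q (τ y) := by
    have h1 : ContinuousAt e.symm x := continuousAt_extChartAt_symm'' hxt
    have h2 : e'.source ∈ 𝓝 (e.symm x) := by
      rw [hsx]
      exact extChartAt_source_mem_nhds q
    filter_upwards [h1.preimage_mem_nhds h2] with y hy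
    show f (e.symm y) = f (e'.symm (e' (e.symm y)))
    rw [e'.left_inv hy]
  have h0 : fderiv ℝ (locF n f q) (ctr n q) = 0 := G05_fderiv_of_ord (h.2.1 1 le_rfl (by omega))
  have h00 : fderiv ℝ (fderiv ℝ (locF n f q)) (ctr n q) = 0 :=
    G05_fderiv2_of_ord (h.2.1 2 (by norm_num) (by omega))
  have hd1 : ∀ᶠ y in 𝓝 x, DifferentiableAt ℝ τ y :=
    (hτc.eventually (by simp)).mono fun y hy => hy.differentiableAt (by simp)
  have hd2 : ∀ᶠ z in 𝓝 (ctr n q), DifferentiableAt ℝ (locF n f q) z :=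
    (hFq.eventually (by simp)).mono fun y hy => hy.differentiableAt (by simp)
  have hd2' : ∀ᶠ y in 𝓝 x, DifferentiableAt ℝ (locF n f q) (τ y) := by
    have h1 : Tendsto τ (𝓝 x) (𝓝 (ctr n q)) := by
      rw [← hτx]
      exact hτc.continuousAt
    exact h1.eventually hd2
  have hfd : ∀ᶠ y in 𝓝 x, fderiv ℝ (locF n f p) y =
      (fderiv ℝ (locF n f q) (τ y)).comp (fderiv ℝ τ y) := by
    filter_upwards [hev.eventually_nhds, hd1, hd2'] with y h1 h2 h3
    rw [Filter.EventuallyEq.fderiv_eq h1]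
    exact fderiv_comp y h3 h2
  constructor
  · rw [hfd.self_of_nhds, hτx, h0]
    simp
  · rw [Filter.EventuallyEq.fderiv_eq hfd]
    have hA : HasFDerivAt (fun y => fderiv ℝ (locF n f q) (τ y))
        ((fderiv ℝ (fderiv ℝ (locF n f q)) (τ x)).comp (fderiv ℝ τ x)) x := by
      have h1 : DifferentiableAt ℝ (fderiv ℝ (locF n f q)) (τ x) := by
        rw [hτx]
        exact (hFq.fderiv_right (m := 1) (by simp)).differentiableAt (by simp)
      exact h1.hasFDerivAt.comp x (hτc.differentiableAt (by simp)).hasFDerivAt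
    have hB : HasFDerivAt (fun y => fderiv ℝ τ y) (fderiv ℝ (fderiv ℝ τ) x) x :=
      ((hτc.fderiv_right (m := 1) (by simp)).differentiableAt (by simp)).hasFDerivAt
    have hC := hA.clm_comp hB
    rw [hC.fderiv, hτx, h00, h0]
    ext v w
    simp

theorem isolated_three (g : RMetric n M) (f : M → ℝ) (hf : ContMDiff (𝓡 n) 𝓘(ℝ, ℝ) ω f)
    (X : (x : M) → TangentSpace (𝓡 n) x) (hX : IsGrad g f X) (p : M) (k : ℕ)
    (hk : HasOrd k (locF n f p) (ctr n p))
    (hw : WSCond k (locF n f p) (fun a b : EE n => g.inner p a b) (ctr n p)) :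
    ∃ U ∈ 𝓝 p, ∀ q ∈ U, q ≠ p → ∀ j : ℕ, 3 ≤ j → ¬ HasOrd j (locF n f q) (ctr n q) := by
  obtain ⟨G, V, hL, hG, -⟩ := local_model g f hf X hX p
  have hw' : WSCond k (locF n f p) (fun a b : EE n => G (ctr n p) a b) (ctr n p) := by
    have h1 : (fun a b : EE n => G (ctr n p) a b) = fun a b : EE n => g.inner p a b := by
      funext a b
      exact hG a b
    rw [h1]
    exact hw
  have hiso := loc_isolated hL k hk hw'
  rw [eventually_nhdsWithin_iff] at hiso
  have hc : ContinuousAt (extChartAt (𝓡 n) p) p := continuousAt_extChartAt p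
  refine ⟨_, Filter.inter_mem (hc.preimage_mem_nhds hiso) (extChartAt_source_mem_nhds (I := 𝓡 n) p), ?_⟩
  rintro q ⟨hq1, hq2⟩ hqp j hj hord
  refine hq1 ?_ (ord_three_transfer f hf p q hq2 j hj hord)
  intro heq
  exact hqp ((extChartAt (𝓡 n) p).injOn hq2 (mem_extChartAt_source p) heq)

theorem crit_of_ord (f : M → ℝ) (hf : ContMDiff (𝓡 n) 𝓘(ℝ, ℝ) ω f) (p : M) (k : ℕ)
    (h : HasOrd k (locF n f p) (ctr n p)) : mfderiv (𝓡 n) 𝓘(ℝ, ℝ) f p = 0 := by
  have h0 : fderiv ℝ (locF n f p) (ctr n p) = 0 :=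
    G05_fderiv_of_ord (h.2.1 1 le_rfl (by have := h.1; omega))
  have hd : MDifferentiableAt (𝓡 n) 𝓘(ℝ, ℝ) f p := (hf p).mdifferentiableAt (by simp)
  rw [hd.mfderiv, modelWithCornersSelf_coe, range_id, fderivWithin_univ]
  exact h0

end Pool.Agent.helper62.GF
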