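import Pool.Agent.helper62.GF.G03
import Pool.Agent.helper62.GF.G04
import Pool.Agent.helper62.GF.G05

/-!
# GF-G06: the theorem  (author: helper58)

`box_strict`: `local_model`, `loc_strict` give `ρ`; shrink (`stay_mono`) so that `closedBall (ctr n p) ρ ⊆ target`; `O` = points
of the source with coordinates in the open ball; `S` = points of `O` with coordinates in `stay V (ctr n p) ρ`; null by
`nullM_of_chart`.  If a flow line satisfies `γ t ∈ O` for all `t ≥ 0` then its coordinates form a trajectory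
staying in the ball, so `γ 0 ∈ S`.  `box_conv`: same with `stayConv`, `loc_conv`.

`main_theorem`: let `w ∈ stableSet X C` with flow line `γ`; by `converges` (`crit_of_ord`) `γ → q ∈ C`.  Let
`C₂` = points of `C` of order `2`, `C₃` = the others (order `≥ 3`).  For `p ∈ C₂` take `O_p, S_p` from `box_strict`; countably
many `p_i` satisfy `C₂ ⊆ ⋃ O_{p_i}` (Lindelof).  If `q ∈ C₂`, `q ∈ O_{p_i}`: for a natural number `N` and all `t ≥ N`,
`γ t ∈ O_{p_i}`, so the shifted flow line (`IsMIntegralCurveOn.comp_add`) gives `γ N ∈ S_{p_i}`.  `C₃` is countable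
(`isolated_three`: every point of `C₃` has a neighborhood containing no other point of `C₃`; second countability); if
`q ∈ C₃`, `box_conv` at `q` gives `γ N ∈ S'_q`.  So `stableSet X C` is contained in the countable union of the sets of
`flow_back_manifold` for `S_{p_i}`, `S'_q` (`q ∈ C₃`) and natural numbers `N`.
-/

open Filter Topology Set MeasureTheory Bundle
open scoped Manifold ContDiff

namespace Pool.Agent.helper62.GF

variable {n : ℕ} {M : Type*} [MetricSpace M] [SecondCountableTopology M] [ChartedSpace (EE n) M]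
  [IsManifold (𝓡 n) ω M]

/-- points of the source of the chart at `p` with coordinates in the ball of radius `ρ` -/
private def boxO (n : ℕ) {M : Type*} [TopologicalSpace M] [ChartedSpace (EE n) M] (p : M) (ρ : ℝ) :
    Set M := (extChartAt (𝓡 n) p).source ∩ (extChartAt (𝓡 n) p) ⁻¹' Metric.ball (ctr n p) ρ

omit [SecondCountableTopology M] [IsManifold (𝓡 n) ω M] in
private theorem isOpen_boxO (p : M) (ρ : ℝ) : IsOpen (boxO n p ρ) :=
  (continuousOn_extChartAt p).isOpen_inter_preimage (isOpen_extChartAt_source p) Metric.isOpen_ball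

omit [SecondCountableTopology M] [IsManifold (𝓡 n) ω M] in
private theorem mem_boxO (p : M) {ρ : ℝ} (hρ : 0 < ρ) : p ∈ boxO n p ρ :=
  ⟨mem_extChartAt_source p, Metric.mem_ball_self hρ⟩

theorem box_strict (g : RMetric n M) (f : M → ℝ) (hf : ContMDiff (𝓡 n) 𝓘(ℝ, ℝ) ω f)
    (X : (x : M) → TangentSpace (𝓡 n) x) (hX : IsGrad g f X) (p : M)
    (hk : HasOrd 2 (locF n f p) (ctr n p))
    (hw : WSCond 2 (locF n f p) (fun a b : EE n => g.inner p a b) (ctr n p)) :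
    ∃ O S : Set M, IsOpen O ∧ p ∈ O ∧ NullM (n := n) S ∧
      ∀ γ : ℝ → M, IsFlowLine X γ → (∀ t, 0 ≤ t → γ t ∈ O) → γ 0 ∈ S := by
  obtain ⟨G, V, hL, hG, hγ⟩ := local_model g f hf X hX p
  have hw' : WSCond 2 (locF n f p) (fun a b : EE n => G (ctr n p) a b) (ctr n p) := by
    have h : (fun a b : EE n => G (ctr n p) a b) = fun a b : EE n => g.inner p a b := by
      funext a b
      exact hG a b
    rw [h]
    exact hw
  obtain ⟨ρ, hρ, hnull⟩ := loc_strict hL hk hw'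
  refine ⟨boxO n p ρ, boxO n p ρ ∩ (extChartAt (𝓡 n) p) ⁻¹' stay V (ctr n p) ρ, isOpen_boxO p ρ,
    mem_boxO p hρ, ?_, ?_⟩
  · refine nullM_of_chart p _ (fun x hx => hx.1.1) (measure_mono_null ?_ hnull)
    rintro _ ⟨x, hx, rfl⟩
    exact hx.2
  · intro γ hfl hO
    refine ⟨hO 0 le_rfl, fun t => extChartAt (𝓡 n) p (γ t), rfl, ?_, ?_⟩
    · intro t ht
      exact hγ γ (Ici 0) hfl t ht (hO t ht).1
    · intro t ht
      have h := (hO t ht).2
      rw [mem_preimage, Metric.mem_ball, dist_eq_norm] at h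
      exact h.le

theorem box_conv (g : RMetric n M) (f : M → ℝ) (hf : ContMDiff (𝓡 n) 𝓘(ℝ, ℝ) ω f)
    (X : (x : M) → TangentSpace (𝓡 n) x) (hX : IsGrad g f X) (p : M) (k : ℕ)
    (hk : HasOrd k (locF n f p) (ctr n p))
    (hw : WSCond k (locF n f p) (fun a b : EE n => g.inner p a b) (ctr n p)) :
    ∃ O S : Set M, IsOpen O ∧ p ∈ O ∧ NullM (n := n) S ∧
      ∀ γ : ℝ → M, IsFlowLine X γ → (∀ t, 0 ≤ t → γ t ∈ O) → Tendsto γ atTop (𝓝 p) → γ 0 ∈ S := by
  obtain ⟨G, V, hL, hG, hγ⟩ := local_model g f hf X hX p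
  have hw' : WSCond k (locF n f p) (fun a b : EE n => G (ctr n p) a b) (ctr n p) := by
    have h : (fun a b : EE n => G (ctr n p) a b) = fun a b : EE n => g.inner p a b := by
      funext a b
      exact hG a b
    rw [h]
    exact hw
  obtain ⟨ρ, hρ, hnull⟩ := loc_conv hL k hk hw'
  refine ⟨boxO n p ρ, boxO n p ρ ∩ (extChartAt (𝓡 n) p) ⁻¹' stayConv V (ctr n p) ρ,
    isOpen_boxO p ρ, mem_boxO p hρ, ?_, ?_⟩
  · refine nullM_of_chart p _ (fun x hx => hx.1.1) (measure_mono_null ?_ hnull)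
    rintro _ ⟨x, hx, rfl⟩
    exact hx.2
  · intro γ hfl hO hconv
    refine ⟨hO 0 le_rfl, fun t => extChartAt (𝓡 n) p (γ t), rfl, ?_, ?_, ?_⟩
    · intro t ht
      exact hγ γ (Ici 0) hfl t ht (hO t ht).1
    · intro t ht
      have h := (hO t ht).2
      rw [mem_preimage, Metric.mem_ball, dist_eq_norm] at h
      exact h.le
    · exact (continuousAt_extChartAt (I := 𝓡 n) p).tendsto.comp hconv

omit [SecondCountableTopology M] in
private theorem flow_shift (X : (x : M) → TangentSpace (𝓡 n) x) {γ : ℝ → M} (h : IsFlowLine X γ)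
    {a : ℝ} (ha : 0 ≤ a) : IsFlowLine X (fun t => γ (t + a)) := by
  refine IsMIntegralCurveOn.mono (IsMIntegralCurveOn.comp_add h a) ?_
  intro t ht
  exact add_nonneg ht ha

theorem main_theorem (g : RMetric n M) (f : M → ℝ) (hf : ContMDiff (𝓡 n) 𝓘(ℝ, ℝ) ω f)
    (X : (x : M) → TangentSpace (𝓡 n) x) (hX : IsGrad g f X) (C : Set M) (hC : IsCompact C)
    (hw : ∀ w ∈ C, WeaklyStrict g f w) : NullM (n := n) (stableSet (n := n) X C) := by
  classical
  -- boxes around the points of order two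
  set C₂ : Set M := {p | HasOrd 2 (locF n f p) (ctr n p) ∧
    WSCond 2 (locF n f p) (fun a b : EE n => g.inner p a b) (ctr n p)} with hC₂
  have h2 : ∀ p : M, ∃ O S : Set M, IsOpen O ∧ (p ∈ C₂ → p ∈ O) ∧ NullM (n := n) S ∧
      (p ∈ C₂ → ∀ γ : ℝ → M, IsFlowLine X γ → (∀ t, 0 ≤ t → γ t ∈ O) → γ 0 ∈ S) := by
    intro p
    by_cases hp : p ∈ C₂
    · obtain ⟨O, S, hO, hpO, hS, h⟩ := box_strict g f hf X hX p hp.1 hp.2
      exact ⟨O, S, hO, fun _ => hpO, hS, fun _ => h⟩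
    · refine ⟨∅, ∅, isOpen_empty, fun h => absurd h hp, ?_, fun h => absurd h hp⟩
      intro e _
      simp
  choose O₂ S₂ hO₂ hmem₂ hnull₂ hbox₂ using h2
  obtain ⟨T₂, hT₂C, hT₂, hcov₂⟩ := TopologicalSpace.isOpen_biUnion_countable C₂ O₂ fun p _ => hO₂ p
  -- the points of order at least three
  set C₃ : Set M := {p | ∃ k, 3 ≤ k ∧ HasOrd k (locF n f p) (ctr n p) ∧
    WSCond k (locF n f p) (fun a b : EE n => g.inner p a b) (ctr n p)} with hC₃
  have h3 : ∀ p : M, ∃ O S : Set M, IsOpen O ∧ (p ∈ C₃ → p ∈ O) ∧ NullM (n := n) S ∧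
      (p ∈ C₃ → ∀ γ : ℝ → M, IsFlowLine X γ → (∀ t, 0 ≤ t → γ t ∈ O) → Tendsto γ atTop (𝓝 p) →
        γ 0 ∈ S) := by
    intro p
    by_cases hp : p ∈ C₃
    · obtain ⟨k, -, hk, hkw⟩ := hp
      obtain ⟨O, S, hO, hpO, hS, h⟩ := box_conv g f hf X hX p k hk hkw
      exact ⟨O, S, hO, fun _ => hpO, hS, fun _ => h⟩
    · refine ⟨∅, ∅, isOpen_empty, fun h => absurd h hp, ?_, fun h => absurd h hp⟩
      intro e _
      simp
  choose O₃ S₃ hO₃ hmem₃ hnull₃ hbox₃ using h3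
  have hiso : ∀ p : M, ∃ U : Set M, IsOpen U ∧ (p ∈ C₃ → p ∈ U ∧ ∀ q ∈ U, q ∈ C₃ → q = p) := by
    intro p
    by_cases hp : p ∈ C₃
    · obtain ⟨k, -, hk, hkw⟩ := hp
      obtain ⟨U, hU, hUq⟩ := isolated_three g f hf X hX p k hk hkw
      obtain ⟨W, hWU, hW, hpW⟩ := mem_nhds_iff.1 hU
      refine ⟨W, hW, fun _ => ⟨hpW, fun q hq hq3 => ?_⟩⟩
      by_contra hne
      obtain ⟨j, hj, hjo, -⟩ := hq3
      exact hUq q (hWU hq) hne j hj hjo
    · exact ⟨∅, isOpen_empty, fun h => absurd h hp⟩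
  choose U hU hUp using hiso
  obtain ⟨T₃, hT₃C, hT₃, hcov₃⟩ := TopologicalSpace.isOpen_biUnion_countable C₃ U fun p _ => hU p
  have hC₃T : C₃ ⊆ T₃ := by
    intro q hq
    have h1 : q ∈ ⋃ p ∈ C₃, U p := mem_biUnion hq (hUp q hq).1
    rw [← hcov₃] at h1
    obtain ⟨p, hp, hqp⟩ := mem_iUnion₂.1 h1
    rw [(hUp p (hT₃C hp)).2 q hqp hq]
    exact hp
  have hcrit : ∀ q ∈ C, mfderiv (𝓡 n) 𝓘(ℝ, ℝ) f q = 0 := by
    intro q hq
    obtain ⟨k, hk, -⟩ := hw q hq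
    exact crit_of_ord f hf q k hk
  have : Countable T₂ := hT₂.to_subtype
  have : Countable T₃ := hT₃.to_subtype
  have hN₂ : NullM (n := n) (⋃ p : T₂, ⋃ N : ℕ,
      {w : M | ∃ γ : ℝ → M, γ 0 = w ∧ IsFlowLine X γ ∧ γ (N : ℝ) ∈ S₂ p}) :=
    nullM_iUnion fun p => nullM_iUnion fun N =>
      flow_back_manifold g f hf X hX (S₂ p) (hnull₂ p) N (Nat.cast_nonneg N)
  have hN₃ : NullM (n := n) (⋃ p : T₃, ⋃ N : ℕ,
      {w : M | ∃ γ : ℝ → M, γ 0 = w ∧ IsFlowLine X γ ∧ γ (N : ℝ) ∈ S₃ p}) :=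
    nullM_iUnion fun p => nullM_iUnion fun N =>
      flow_back_manifold g f hf X hX (S₃ p) (hnull₃ p) N (Nat.cast_nonneg N)
  refine nullM_mono ?_ (nullM_union hN₂ hN₃)
  rintro w ⟨γ, hγ0, hγ, hclose⟩
  obtain ⟨q, hq, hconv⟩ := converges g f hf X hX C hC hcrit γ hγ hclose
  obtain ⟨k, hk, hkw⟩ := hw q hq
  have hk2 : 2 ≤ k := hk.1
  -- entering an open set for good
  have hent : ∀ O : Set M, IsOpen O → q ∈ O → ∃ N : ℕ, ∀ t : ℝ, 0 ≤ t → γ (t + N) ∈ O := by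
    intro O hO hqO
    obtain ⟨T, hT⟩ := eventually_atTop.1 (hconv.eventually (hO.mem_nhds hqO))
    obtain ⟨N, hN⟩ := exists_nat_ge T
    exact ⟨N, fun t ht => hT _ (by linarith)⟩
  rcases Nat.lt_or_ge 2 k with h | h
  · have hq3 : q ∈ C₃ := ⟨k, h, hk, hkw⟩
    obtain ⟨N, hN⟩ := hent (O₃ q) (hO₃ q) (hmem₃ q hq3)
    right
    refine mem_iUnion.2 ⟨⟨q, hC₃T hq3⟩, mem_iUnion.2 ⟨N, γ, hγ0, hγ, ?_⟩⟩
    have h1 := hbox₃ q hq3 (fun t => γ (t + N)) (flow_shift X hγ (Nat.cast_nonneg N)) hN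
      (hconv.comp (tendsto_atTop_add_const_right _ _ tendsto_id))
    have h2 : γ (0 + (N : ℝ)) ∈ S₃ q := h1
    rw [zero_add] at h2
    exact h2
  · have hk2' : k = 2 := le_antisymm h hk2
    subst hk2'
    have hq2 : q ∈ C₂ := ⟨hk, hkw⟩
    have h1 : q ∈ ⋃ p ∈ C₂, O₂ p := mem_biUnion hq2 (hmem₂ q hq2)
    rw [← hcov₂] at h1
    obtain ⟨p, hp, hqp⟩ := mem_iUnion₂.1 h1
    obtain ⟨N, hN⟩ := hent (O₂ p) (hO₂ p) hqp
    left
    refine mem_iUnion.2 ⟨⟨p, hp⟩, mem_iUnion.2 ⟨N, γ, hγ0, hγ, ?_⟩⟩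
    have h1 := hbox₂ p (hT₂C hp) (fun t => γ (t + N)) (flow_shift X hγ (Nat.cast_nonneg N)) hN
    have h2 : γ (0 + (N : ℝ)) ∈ S₂ p := h1
    rw [zero_add] at h2
    exact h2

end Pool.Agent.helper62.GF
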