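import Pool.Agent.helper62.GF.G01
import Pool.Agent.helper62.GF.L02

/-!
# GF-G07: equilibria; monotonicity

`flow_antitone`: the derivative of `f ∘ γ` at `t` is `-(g.inner (X) (X)) ≤ 0` (chain rule for `mfderiv`, `IsGrad`);
`antitoneOn_of_deriv_nonpos` or a mean value argument (`HasDerivWithinAt` on `Ici 0`).
`equil`: if `q = γ t₀` is critical then `γ t = q` for all `t ≥ t₀`: in the chart at `q` (`local_model`) the field `V` is
Lipschitz near `ctr n q` (`loc_lipschitz`) and `V (ctr n q) = 0` (from `eq` and `pos` of `LocalData`: `fderiv (locF n f q) (ctr n q) = 0`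
because `mfderiv f q = 0`); Gronwall / ODE uniqueness shows that `{t ≥ t₀ | γ = q on [t₀, t]}` is open in `[t₀, ∞)`; it is
closed by continuity of `γ`.
`const_of_eq`: if `f (γ t) = f (γ t₀)` for all `t ≥ t₀` then `g(X, X) = 0` at `γ t` for `t ≥ t₀`
(derivative from the right), so `γ t₀` is critical; `equil`.
-/

open Filter Topology Set MeasureTheory Bundle
open scoped Manifold ContDiff

namespace Pool.Agent.helper62.GF

variable {n : ℕ} {M : Type*} [MetricSpace M] [ChartedSpace (EE n) M] [IsManifold (𝓡 n) ω M]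

private theorem flow_hasDeriv (g : RMetric n M) (f : M → ℝ) (hf : ContMDiff (𝓡 n) 𝓘(ℝ, ℝ) ω f)
    (X : (x : M) → TangentSpace (𝓡 n) x) (hX : IsGrad g f X) (γ : ℝ → M) (hγ : IsFlowLine X γ)
    (t : ℝ) (ht : 0 ≤ t) :
    HasDerivWithinAt (fun t => f (γ t)) (-(g.inner (γ t) (X (γ t)) (X (γ t)))) (Ici 0) t := by
  have h1 := hγ t ht
  have h2 : HasMFDerivAt (𝓡 n) 𝓘(ℝ, ℝ) f (γ t) (mfderiv (𝓡 n) 𝓘(ℝ, ℝ) f (γ t)) :=
    ((hf (γ t)).mdifferentiableAt (by simp)).hasMFDerivAt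
  have h3 := h2.comp_hasMFDerivWithinAt t h1
  have h4 := hasMFDerivWithinAt_iff_hasFDerivWithinAt.1 h3
  obtain ⟨L, hLd, hL1⟩ : ∃ L : ℝ →L[ℝ] ℝ, HasFDerivWithinAt (fun t => f (γ t)) L (Ici 0) t ∧
      L 1 = mfderiv (𝓡 n) 𝓘(ℝ, ℝ) f (γ t) ((1 : ℝ) • (-(X (γ t)))) := ⟨_, h4, rfl⟩
  have h6 : mfderiv (𝓡 n) 𝓘(ℝ, ℝ) f (γ t) (-(X (γ t))) =
      -(g.inner (γ t) (X (γ t)) (X (γ t))) := by
    rw [map_neg, ← hX]
    rfl
  have h7 := hLd.hasDerivWithinAt
  rw [hL1, one_smul] at h7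
  exact h7.congr_deriv h6

theorem flow_antitone (g : RMetric n M) (f : M → ℝ) (hf : ContMDiff (𝓡 n) 𝓘(ℝ, ℝ) ω f)
    (X : (x : M) → TangentSpace (𝓡 n) x) (hX : IsGrad g f X) (γ : ℝ → M) (hγ : IsFlowLine X γ) :
    AntitoneOn (fun t => f (γ t)) (Ici 0) := by
  have hd := flow_hasDeriv g f hf X hX γ hγ
  have hnn : ∀ t, 0 ≤ g.inner (γ t) (X (γ t)) (X (γ t)) := by
    intro t
    by_cases h0 : X (γ t) = 0
    · rw [h0]
      simp
    · exact (g.pos _ _ h0).le
  refine antitoneOn_of_deriv_nonpos (convex_Ici 0) ?_ ?_ ?_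
  · exact fun t ht => (hd t ht).continuousWithinAt
  · intro t ht
    rw [interior_Ici] at ht
    exact (hd t (le_of_lt ht)).differentiableWithinAt.mono interior_subset
  · intro t ht
    rw [interior_Ici] at ht
    have h1 := (hd t (le_of_lt ht)).hasDerivAt (Ici_mem_nhds ht)
    rw [h1.deriv]
    have := hnn t
    linarith

theorem equil (g : RMetric n M) (f : M → ℝ) (hf : ContMDiff (𝓡 n) 𝓘(ℝ, ℝ) ω f)
    (X : (x : M) → TangentSpace (𝓡 n) x) (hX : IsGrad g f X) (γ : ℝ → M) (hγ : IsFlowLine X γ)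
    (t₀ : ℝ) (ht₀ : 0 ≤ t₀) (hq : mfderiv (𝓡 n) 𝓘(ℝ, ℝ) f (γ t₀) = 0) :
    ∀ t, t₀ ≤ t → γ t = γ t₀ := by
  obtain ⟨q, hqd⟩ : ∃ q, q = γ t₀ := ⟨_, rfl⟩
  rw [← hqd] at hq ⊢
  obtain ⟨G, V, hL, -, hloc⟩ := local_model g f hf X hX q
  obtain ⟨ρ, K, hρ, hLip⟩ := loc_lipschitz hL
  have hcont : ContinuousOn γ (Ici 0) := fun t ht => (hγ t ht).continuousWithinAt
  -- the field vanishes at the centre
  have hF0 : fderiv ℝ (locF n f q) (ctr n q) = 0 := by
    have h1 : mfderiv (𝓡 n) 𝓘(ℝ, ℝ) f q = fderiv ℝ (locF n f q) (ctr n q) := by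
      have h2 : MDifferentiableAt (𝓡 n) 𝓘(ℝ, ℝ) f q := (hf q).mdifferentiableAt (by simp)
      rw [h2.mfderiv]
      simp only [writtenInExtChartAt, extChartAt_model_space_eq_id, PartialEquiv.refl_coe,
        Function.id_comp, modelWithCornersSelf_coe, range_id, fderivWithin_univ]
      rfl
    rw [← h1]
    exact hq
  have hV0 : V (ctr n q) = 0 := by
    by_contra hne
    have h1 := hL.eq.self_of_nhds (V (ctr n q))
    rw [hF0] at h1
    have h2 := hL.pos _ hne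
    rw [h1] at h2
    simp at h2
  intro t ht
  -- continuous induction on [t₀, t]
  have hclosed : IsClosed ({s | γ s = q} ∩ Icc t₀ t) := by
    have hc : ContinuousOn γ (Icc t₀ t) := hcont.mono fun s hs => ht₀.trans hs.1
    have := hc.preimage_isClosed_of_isClosed isClosed_Icc (isClosed_singleton (x := q))
    rw [inter_comm]
    exact this
  have hkey : Icc t₀ t ⊆ {s | γ s = q} := by
    refine hclosed.Icc_subset_of_forall_mem_nhdsWithin hqd.symm ?_
    rintro x ⟨hx, hx1, hx2⟩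
    have hx0 : 0 ≤ x := ht₀.trans hx1
    have hxq : γ x = q := hx
    -- near x (to the right) the curve is in the chart and close to the centre
    have hsrc : (extChartAt (𝓡 n) q).source ∈ 𝓝 (γ x) := by
      rw [hxq]
      exact extChartAt_source_mem_nhds q
    have hball : ∀ᶠ y in 𝓝 (γ x), extChartAt (𝓡 n) q y ∈ Metric.closedBall (ctr n q) ρ := by
      rw [hxq]
      exact (continuousAt_extChartAt q).eventually (Metric.closedBall_mem_nhds _ hρ)
    have hcx : Tendsto γ (𝓝[Ici x] x) (𝓝 (γ x)) :=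
      (hcont x hx0).mono_left (nhdsWithin_mono _ (Ici_subset_Ici.2 hx0))
    have hev : ∀ᶠ s in 𝓝[Ici x] x, γ s ∈ (extChartAt (𝓡 n) q).source ∧
        extChartAt (𝓡 n) q (γ s) ∈ Metric.closedBall (ctr n q) ρ :=
      (hcx.eventually hsrc).and (hcx.eventually hball)
    obtain ⟨b, hb, hbs⟩ := (mem_nhdsGE_iff_exists_Icc_subset).1 hev
    have hxb : x < b := hb
    have hmem : ∀ s ∈ Icc x b, γ s ∈ (extChartAt (𝓡 n) q).source ∧
        extChartAt (𝓡 n) q (γ s) ∈ Metric.closedBall (ctr n q) ρ := fun s hs => hbs hs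
    have hder : ∀ s ∈ Icc x b, HasDerivWithinAt (fun t => extChartAt (𝓡 n) q (γ t))
        (V (extChartAt (𝓡 n) q (γ s))) (Ici 0) s := fun s hs =>
      hloc γ (Ici 0) hγ s (hx0.trans hs.1) (hmem s hs).1
    have huniq := ODE_solution_unique_of_mem_Icc_right (a := x) (b := b)
      (f := fun t => extChartAt (𝓡 n) q (γ t)) (g := fun _ => ctr n q) (v := fun _ => V) (K := K)
      (s := fun _ => Metric.closedBall (ctr n q) ρ) (fun s _ => hLip)
      (fun s hs => ((hder s hs).continuousWithinAt).mono fun u hu => hx0.trans hu.1)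
      (fun s hs => (hder s ⟨hs.1, hs.2.le⟩).mono (Ici_subset_Ici.2 (hx0.trans hs.1)))
      (fun s hs => (hmem s ⟨hs.1, hs.2.le⟩).2) continuousOn_const
      (fun s _ => by
        rw [hV0]
        exact hasDerivWithinAt_const _ _ _)
      (fun s _ => Metric.mem_closedBall_self hρ.le)
      (by
        simp only [hxq]
        rfl)
    have hall : ∀ s ∈ Icc x b, γ s = q := by
      intro s hs
      refine (extChartAt (𝓡 n) q).injOn (hmem s hs).1 (mem_extChartAt_source q) ?_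
      exact huniq hs
    rw [mem_nhdsGT_iff_exists_Ioc_subset]
    exact ⟨b, hxb, fun s hs => hall s ⟨hs.1.le, hs.2⟩⟩
  exact hkey ⟨ht, le_rfl⟩

theorem const_of_eq (g : RMetric n M) (f : M → ℝ) (hf : ContMDiff (𝓡 n) 𝓘(ℝ, ℝ) ω f)
    (X : (x : M) → TangentSpace (𝓡 n) x) (hX : IsGrad g f X) (γ : ℝ → M) (hγ : IsFlowLine X γ)
    (t₀ : ℝ) (ht₀ : 0 ≤ t₀) (hc : ∀ t, t₀ ≤ t → f (γ t) = f (γ t₀)) :
    ∀ t, t₀ ≤ t → γ t = γ t₀ := by
  refine equil g f hf X hX γ hγ t₀ ht₀ ?_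
  have h1 : HasDerivWithinAt (fun t => f (γ t)) (-(g.inner (γ t₀) (X (γ t₀)) (X (γ t₀))))
      (Ici t₀) t₀ := (flow_hasDeriv g f hf X hX γ hγ t₀ ht₀).mono (Ici_subset_Ici.2 ht₀)
  have h2 : HasDerivWithinAt (fun t => f (γ t)) 0 (Ici t₀) t₀ := by
    refine (hasDerivWithinAt_const t₀ (Ici t₀) (f (γ t₀))).congr (fun t ht => hc t ht) rfl
  have h3 := (uniqueDiffWithinAt_Ici t₀).eq_deriv _ h1 h2
  have hX0 : X (γ t₀) = 0 := by
    by_contra hne
    have := g.pos _ _ hne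
    linarith
  ext v
  have h4 := hX (γ t₀) v
  rw [hX0] at h4
  rw [← h4]
  simp
  rfl

end Pool.Agent.helper62.GF
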