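import Pool.Agent.helper62.GF.LDefs

/-!
# Project GF, part 5: the statement on manifolds
-/

open Filter Topology Set MeasureTheory Bundle
open scoped Manifold ContDiff

namespace Pool.Agent.helper62.GF

variable {n : ℕ} {M : Type*}

/-- the function `f` in the preferred chart at `p` -/
noncomputable def locF (n : ℕ) [TopologicalSpace M] [ChartedSpace (EE n) M] (f : M → ℝ) (p : M) : EE n → ℝ :=
  fun x => f ((extChartAt (𝓡 n) p).symm x)

/-- coordinates of the point `p` in its preferred chart -/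
noncomputable def ctr (n : ℕ) [TopologicalSpace M] [ChartedSpace (EE n) M] (p : M) : EE n :=
  extChartAt (𝓡 n) p p

/-- real-analytic Riemannian metrics on `M` -/
abbrev RMetric (n : ℕ) (M : Type*) [TopologicalSpace M] [ChartedSpace (EE n) M]
    [IsManifold (𝓡 n) ω M] :=
  ContMDiffRiemannianMetric (𝓡 n) ω (EE n) (fun x : M => TangentSpace (𝓡 n) x)

/-- `X` is the gradient of `f` for `g` -/
def IsGrad [TopologicalSpace M] [ChartedSpace (EE n) M] [IsManifold (𝓡 n) ω M]
    (g : RMetric n M) (f : M → ℝ) (X : (x : M) → TangentSpace (𝓡 n) x) : Prop :=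
  ∀ (x : M) (v : TangentSpace (𝓡 n) x), g.inner x (X x) v = mfderiv (𝓡 n) 𝓘(ℝ, ℝ) f x v

/-- Conditions (i), (ii) in the definition of a weakly strict point: `f` has a finite order `k ≥ 2` at `w`
(so `w` is critical) and every critical point `z`, with `P z ≥ 0`, of the restriction of the leading
form `P` to the unit sphere of `T_w M` has positive Morse index. -/
def WeaklyStrict [TopologicalSpace M] [ChartedSpace (EE n) M] [IsManifold (𝓡 n) ω M]
    (g : RMetric n M) (f : M → ℝ) (w : M) : Prop :=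
  ∃ k : ℕ, HasOrd k (locF n f w) (ctr n w) ∧
    WSCond k (locF n f w) (fun a b : EE n => g.inner w a b) (ctr n w)

/-- forward trajectories of `-X` -/
def IsFlowLine [TopologicalSpace M] [ChartedSpace (EE n) M] [IsManifold (𝓡 n) ω M]
    (X : (x : M) → TangentSpace (𝓡 n) x) (γ : ℝ → M) : Prop :=
  IsMIntegralCurveOn γ (fun x => -(X x)) (Ici 0)

/-- the set `W^s_-(C)` -/
def stableSet [MetricSpace M] [ChartedSpace (EE n) M] [IsManifold (𝓡 n) ω M]
    (X : (x : M) → TangentSpace (𝓡 n) x) (C : Set M) : Set M :=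
  {w | ∃ γ : ℝ → M, γ 0 = w ∧ IsFlowLine X γ ∧ ∀ ε : ℝ, 0 < ε → ∃ t : ℝ, 0 ≤ t ∧ ∃ q ∈ C, dist (γ t) q < ε}

/-- Lebesgue-null in every chart of the analytic atlas -/
def NullM [TopologicalSpace M] [ChartedSpace (EE n) M] (S : Set M) : Prop :=
  ∀ e ∈ IsManifold.maximalAtlas (𝓡 n) ω M, volume (e '' (e.source ∩ S)) = 0

end Pool.Agent.helper62.GF
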