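import Pool.Agent.helper62.GF.M02

/-!
(proofs: helper51, by the curves `s ↦ (s ^ w i)`)
# GF-M06: comparability of exponents

`Mon.exp_unique`: if `x^α * e = x^β * e'` near `0`; suppose `α k < β k`; divide by `∏ x i ^ min (α i) (β i)`
(`mon_cancel`) to get `x^{α'} e = x^{β'} e'` with `α' k = 0`, `β' k > 0` and `α', β'` of disjoint supports.
Evaluate at points `x` with `x k = 0`, all other coordinates equal to a small `s ≠ 0`: LHS `≠ 0`
(`α' k = 0`), RHS `= 0`.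

`Mon.comparable`: `A = x^α e_A`, `B = x^β e_B`, `A - B = x^γ e_C` near `0` (or `A = B` near `0`: then
`α = β` by `Mon.exp_unique`).  Suppose neither `α ≤ β` nor `β ≤ α`: there are `i` with `α i < β i` and `j`
with `β j < α j`.  Put `δ = min α β`, `α = δ + α'`, `β = δ + β'`.
(a) `δ ≤ γ`: suppose `γ m < δ m`; dividing the identity by `∏ x ^ min γ δ` and evaluating at points with
`x m = 0` and all the other coordinates `s ≠ 0` small, LHS `= 0` and RHS `≠ 0`.
So `γ = δ + γ'` and `x^{α'} e_A - x^{β'} e_B = x^{γ'} e_C` near `0`.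
(b) if `α' m > 0` (so `β' m = 0`) then `γ' m = 0`: put `x m = 0`, other coordinates `s`: LHS
`= - x^{β'} e_B ≠ 0`.  Same if `β' m > 0`.
(c) at points with `x m = 0` whenever `α' m > 0` or `β' m > 0` and `x m = s` (small `≠ 0`) otherwise: LHS
`= 0` (both supports are nonempty by `i, j`), RHS `= s^{…} e_C ≠ 0` by (b).  Contradiction.
-/

open Filter Topology

namespace Pool.Agent.helper62.GF

variable {n : ℕ}

/-- the order of a monomial with the exponent `α` along the curve with the weights `w` -/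
private def M06_wt (w α : Fin n → ℕ) : ℕ := ∑ i, w i * α i

private theorem M06_cmp {c C : ℝ} {m k : ℕ} (hc : 0 < c)
    (h : ∀ᶠ s in 𝓝[>] (0 : ℝ), c * s ^ m ≤ C * s ^ k) : k ≤ m := by
  by_contra hmk
  rw [not_le] at hmk
  obtain ⟨l, hl⟩ : ∃ l, k = m + (l + 1) := ⟨k - m - 1, by omega⟩
  have h1 : ∀ᶠ s in 𝓝[>] (0 : ℝ), c ≤ C * s ^ (l + 1) := by
    filter_upwards [h, self_mem_nhdsWithin] with s hs hs0
    have hs0' : (0 : ℝ) < s := hs0
    have h2 : 0 < s ^ m := pow_pos hs0' m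
    rw [hl, pow_add] at hs
    have h3 : c * s ^ m ≤ (C * s ^ (l + 1)) * s ^ m := by
      calc c * s ^ m ≤ C * (s ^ m * s ^ (l + 1)) := hs
        _ = (C * s ^ (l + 1)) * s ^ m := by ring
    exact le_of_mul_le_mul_right h3 h2
  have h2 : Tendsto (fun s : ℝ => C * s ^ (l + 1)) (𝓝[>] (0 : ℝ)) (𝓝 0) := by
    have h3 : Continuous fun s : ℝ => C * s ^ (l + 1) := by fun_prop
    have h4 := (h3.tendsto 0).mono_left (nhdsWithin_le_nhds (s := Set.Ioi (0 : ℝ)))
    simpa using h4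
  have h5 := ge_of_tendsto h2 h1
  linarith

private theorem M06_tendsto {w : Fin n → ℕ} (hw : ∀ i, 1 ≤ w i) :
    Tendsto (fun s : ℝ => (fun i => s ^ w i : Fin n → ℝ)) (𝓝[>] (0 : ℝ)) (𝓝 0) := by
  have h3 : Continuous fun s : ℝ => (fun i => s ^ w i : Fin n → ℝ) := by fun_prop
  have h4 := (h3.tendsto 0).mono_left (nhdsWithin_le_nhds (s := Set.Ioi (0 : ℝ)))
  have h5 : (fun i => (0 : ℝ) ^ w i : Fin n → ℝ) = 0 := by
    funext i
    rw [zero_pow (by have := hw i; omega)]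
    rfl
  rwa [h5] at h4

private theorem M06_curve {A : (Fin n → ℝ) → ℝ} {α : Fin n → ℕ} (hA : Mon A α) {w : Fin n → ℕ}
    (hw : ∀ i, 1 ≤ w i) : ∃ c C : ℝ, 0 < c ∧ 0 < C ∧ ∀ᶠ s in 𝓝[>] (0 : ℝ),
      c * s ^ M06_wt w α ≤ |A fun i => s ^ w i| ∧ |A fun i => s ^ w i| ≤ C * s ^ M06_wt w α := by
  obtain ⟨ε, hε, hε0, hev⟩ := hA
  have ha : 0 < |ε 0| := abs_pos.2 hε0
  refine ⟨|ε 0| / 2, 2 * |ε 0|, by positivity, by positivity, ?_⟩
  have ht := M06_tendsto hw
  have h1 : Tendsto (fun s : ℝ => |ε fun i => s ^ w i|) (𝓝[>] (0 : ℝ)) (𝓝 |ε 0|) :=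
    (hε.continuousAt.tendsto.comp ht).abs
  filter_upwards [ht.eventually hev, self_mem_nhdsWithin,
    h1.eventually (lt_mem_nhds (show |ε 0| / 2 < |ε 0| by linarith)),
    h1.eventually (gt_mem_nhds (show |ε 0| < 2 * |ε 0| by linarith))] with s hs hs0 hs1 hs2
  have hs0' : (0 : ℝ) < s := hs0
  have hp : (∏ i, (s ^ w i) ^ α i) = s ^ M06_wt w α := by
    unfold M06_wt
    rw [← Finset.prod_pow_eq_pow_sum]
    exact Finset.prod_congr rfl fun i _ => (pow_mul s (w i) (α i)).symm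
  rw [hs, hp, abs_mul, abs_of_pos (pow_pos hs0' _)]
  have hpos : 0 < s ^ M06_wt w α := pow_pos hs0' _
  constructor
  · rw [mul_comm]
    exact mul_le_mul_of_nonneg_left hs1.le hpos.le
  · rw [mul_comm (2 * |ε 0|)]
    exact mul_le_mul_of_nonneg_left hs2.le hpos.le

/-- a curve which separates the exponents -/
private theorem M06_sep {α β : Fin n → ℕ} {i : Fin n} (hi : α i < β i) :
    ∃ w : Fin n → ℕ, (∀ i, 1 ≤ w i) ∧ M06_wt w α < M06_wt w β := by
  refine ⟨fun k => 1 + if k = i then (∑ l, α l) + 1 else 0, fun k => Nat.le_add_right _ _, ?_⟩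
  have key : ∀ γ : Fin n → ℕ, M06_wt (fun k => 1 + if k = i then (∑ l, α l) + 1 else 0) γ =
      (∑ l, γ l) + ((∑ l, α l) + 1) * γ i := by
    intro γ
    unfold M06_wt
    simp only [add_mul, one_mul, ite_mul, zero_mul, Finset.sum_add_distrib, Finset.sum_ite_eq',
      Finset.mem_univ, if_true]
  rw [key, key]
  have h1 : ((∑ l, α l) + 1) * (α i + 1) ≤ ((∑ l, α l) + 1) * β i := Nat.mul_le_mul_left _ hi
  rw [mul_add, mul_one] at h1
  omega

theorem M06_le_of_bound {A B : (Fin n → ℝ) → ℝ} {α β : Fin n → ℕ} (hA : Mon A α) (hB : Mon B β)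
    (C : ℝ) (h : ∀ᶠ x in 𝓝 (0 : Fin n → ℝ), |A x| ≤ C * |B x|) : β ≤ α := by
  intro i
  by_contra hi
  rw [not_le] at hi
  obtain ⟨w, hw, hlt⟩ := M06_sep hi
  obtain ⟨c₁, C₁, hc₁, hC₁, h1⟩ := M06_curve hA hw
  obtain ⟨c₂, C₂, hc₂, hC₂, h2⟩ := M06_curve hB hw
  have h3 : ∀ᶠ s in 𝓝[>] (0 : ℝ), c₁ * s ^ M06_wt w α ≤ (|C| * C₂) * s ^ M06_wt w β := by
    filter_upwards [h1, h2, (M06_tendsto hw).eventually h] with s a1 a2 a3
    calc c₁ * s ^ M06_wt w α ≤ |A fun i => s ^ w i| := a1.1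
      _ ≤ C * |B fun i => s ^ w i| := a3
      _ ≤ |C| * |B fun i => s ^ w i| :=
        mul_le_mul_of_nonneg_right (le_abs_self C) (abs_nonneg _)
      _ ≤ |C| * (C₂ * s ^ M06_wt w β) := mul_le_mul_of_nonneg_left a2.2 (abs_nonneg _)
      _ = (|C| * C₂) * s ^ M06_wt w β := by ring
  have h4 := M06_cmp hc₁ h3
  omega

theorem Mon.exp_unique {A : (Fin n → ℝ) → ℝ} {α β : Fin n → ℕ} (h₁ : Mon A α) (h₂ : Mon A β) :
    α = β := by
  refine le_antisymm (M06_le_of_bound h₂ h₁ 1 ?_) (M06_le_of_bound h₁ h₂ 1 ?_)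
  · exact Eventually.of_forall fun x => by rw [one_mul]
  · exact Eventually.of_forall fun x => by rw [one_mul]

theorem Mon.comparable {A B : (Fin n → ℝ) → ℝ} {α β : Fin n → ℕ} (hA : Mon A α) (hB : Mon B β)
    (h : (∃ γ, Mon (fun x => A x - B x) γ) ∨ ∀ᶠ x in 𝓝 (0 : Fin n → ℝ), A x - B x = 0) :
    α ≤ β ∨ β ≤ α := by
  rcases h with ⟨γ, hC⟩ | h
  swap
  · left
    refine M06_le_of_bound hB hA 1 ?_
    filter_upwards [h] with x hx
    rw [one_mul, sub_eq_zero.1 hx]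
  by_contra hcon
  rw [not_or] at hcon
  obtain ⟨hcon1, hcon2⟩ := hcon
  rw [Pi.le_def, not_forall] at hcon1 hcon2
  obtain ⟨j, hj⟩ := hcon1
  obtain ⟨i, hi⟩ := hcon2
  rw [not_le] at hi hj
  obtain ⟨w₁, hw₁, hlt₁⟩ := M06_sep hi
  obtain ⟨w₂, hw₂, hlt₂⟩ := M06_sep hj
  have hadd : ∀ δ : Fin n → ℕ, M06_wt (w₁ + w₂) δ = M06_wt w₁ δ + M06_wt w₂ δ := by
    intro δ
    unfold M06_wt
    simp only [Pi.add_apply, add_mul, Finset.sum_add_distrib]
  -- the order of `A` or `B` is at least the smaller one of the other two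
  have hg : ∀ (w : Fin n → ℕ), (∀ i, 1 ≤ w i) →
      (M06_wt w α ≤ M06_wt w γ ∨ M06_wt w β ≤ M06_wt w γ) ∧
      (M06_wt w β ≤ M06_wt w α ∨ M06_wt w γ ≤ M06_wt w α) ∧
      (M06_wt w α ≤ M06_wt w β ∨ M06_wt w γ ≤ M06_wt w β) := by
    intro w hw
    obtain ⟨cA, CA, hcA, hCA, hA'⟩ := M06_curve hA hw
    obtain ⟨cB, CB, hcB, hCB, hB'⟩ := M06_curve hB hw
    obtain ⟨cC, CC, hcC, hCC, hC'⟩ := M06_curve hC hw
    have h1 : ∀ᶠ s in 𝓝[>] (0 : ℝ), s < 1 := by
      have : ∀ᶠ s in 𝓝 (0 : ℝ), s < 1 := gt_mem_nhds zero_lt_one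
      exact nhdsWithin_le_nhds this
    have gen : ∀ (c C₁ C₂ : ℝ) (m k l : ℕ), 0 < c → 0 < C₁ → 0 < C₂ →
        (∀ᶠ s in 𝓝[>] (0 : ℝ), c * s ^ m ≤ C₁ * s ^ k + C₂ * s ^ l) → k ≤ m ∨ l ≤ m := by
      intro c C₁ C₂ m k l hc hC₁ hC₂ hev
      have h2 : min k l ≤ m := by
        refine M06_cmp (C := C₁ + C₂) hc ?_
        filter_upwards [hev, h1, self_mem_nhdsWithin] with s hs hs1 hs0
        have hs0' : (0 : ℝ) < s := hs0
        refine hs.trans ?_
        rw [add_mul]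
        exact add_le_add
          (mul_le_mul_of_nonneg_left (pow_le_pow_of_le_one hs0'.le hs1.le (min_le_left _ _))
            hC₁.le)
          (mul_le_mul_of_nonneg_left (pow_le_pow_of_le_one hs0'.le hs1.le (min_le_right _ _))
            hC₂.le)
      rcases min_le_iff.1 h2 with h3 | h3
      · exact Or.inl h3
      · exact Or.inr h3
    refine ⟨gen cC CA CB _ _ _ hcC hCA hCB ?_, gen cA CB CC _ _ _ hcA hCB hCC ?_,
      gen cB CA CC _ _ _ hcB hCA hCC ?_⟩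
    · filter_upwards [hA', hB', hC'] with s a b c
      refine c.1.trans ((abs_sub _ _).trans (add_le_add a.2 b.2))
    · filter_upwards [hA', hB', hC'] with s a b c
      refine a.1.trans (le_trans ?_ (add_le_add b.2 c.2))
      have h5 := abs_add_le (B fun i => s ^ w i) ((A fun i => s ^ w i) - B fun i => s ^ w i)
      rwa [add_sub_cancel] at h5
    · filter_upwards [hA', hB', hC'] with s a b c
      refine b.1.trans (le_trans ?_ (add_le_add a.2 c.2))
      have h5 := abs_sub (A fun i => s ^ w i) ((A fun i => s ^ w i) - B fun i => s ^ w i)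
      rwa [sub_sub_cancel] at h5
  have g1 := hg w₁ hw₁
  have g2 := hg w₂ hw₂
  have g3 := hg (w₁ + w₂) (fun i => by
    have := hw₁ i
    simp only [Pi.add_apply]
    omega)
  rw [hadd, hadd, hadd] at g3
  omega

/-- domination of one monomial function by another one gives an inequality of exponents -/
theorem Mon.le_of_bound {A B : (Fin n → ℝ) → ℝ} {α β : Fin n → ℕ} (hA : Mon A α) (hB : Mon B β)
    (C : ℝ) (h : ∀ᶠ x in 𝓝 (0 : Fin n → ℝ), |A x| ≤ C * |B x|) : β ≤ α := by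
  exact M06_le_of_bound hA hB C h

end Pool.Agent.helper62.GF
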