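import Pool.Agent.helper62.GF.M01

/-!
# GF-M09: power substitutions with signs

`powSub`: for every `k` the ultrafilter contains `{x | 0 ≤ x k}` or `{x | x k ≤ 0}`; let `σ k = 1` resp. `-1`,
`s x k = |x k| ^ (1 / N : ℝ)`.
`Mon.powSub`: `∏ (σ k * v k ^ N) ^ α k = (∏ σ k ^ α k) * ∏ v k ^ (N * α k)`.
-/

open Filter Topology

namespace Pool.Agent.helper62.GF

variable {n : ℕ}

theorem powSub (N : ℕ) (hN : 1 ≤ N) (𝒰 : Ultrafilter (Fin n → ℝ))
    (h𝒰 : (𝒰 : Filter (Fin n → ℝ)) ≤ 𝓝 0) :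
    ∃ (σ : Fin n → ℝ) (s : (Fin n → ℝ) → (Fin n → ℝ)), (∀ k, σ k = 1 ∨ σ k = -1) ∧
      Tendsto s 𝒰 (𝓝 0) ∧ ∀ᶠ x in (𝒰 : Filter (Fin n → ℝ)), (fun k => σ k * (s x k) ^ N) = x := by
  have h1 : ∀ k : Fin n, ∃ σ : ℝ, (σ = 1 ∨ σ = -1) ∧
      ∀ᶠ x in (𝒰 : Filter (Fin n → ℝ)), 0 ≤ σ * x k := by
    intro k
    have h2 : ∀ᶠ x in (𝒰 : Filter (Fin n → ℝ)), 0 ≤ x k ∨ x k ≤ 0 :=
      Eventually.of_forall fun x => le_total 0 (x k)
    rcases Ultrafilter.eventually_or.1 h2 with h3 | h3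
    · refine ⟨1, Or.inl rfl, ?_⟩
      filter_upwards [h3] with x hx
      rwa [one_mul]
    · refine ⟨-1, Or.inr rfl, ?_⟩
      filter_upwards [h3] with x hx
      linarith
  choose σ hσ hσ' using h1
  have hN0 : (N : ℝ) ≠ 0 := by
    have : N ≠ 0 := by omega
    exact_mod_cast this
  refine ⟨σ, fun x k => |x k| ^ (1 / (N : ℝ)), hσ, ?_, ?_⟩
  · have hc : Continuous fun x : Fin n → ℝ => (fun k => |x k| ^ (1 / (N : ℝ)) : Fin n → ℝ) := by
      refine continuous_pi fun k => ?_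
      exact (continuous_abs.comp (continuous_apply k)).rpow_const fun x =>
        Or.inr (by positivity)
    have h2 := hc.tendsto 0
    have h3 : (fun k => |(0 : Fin n → ℝ) k| ^ (1 / (N : ℝ)) : Fin n → ℝ) = 0 := by
      funext k
      show |(0 : ℝ)| ^ (1 / (N : ℝ)) = 0
      rw [abs_zero, Real.zero_rpow]
      exact one_div_ne_zero hN0
    rw [h3] at h2
    exact h2.mono_left h𝒰
  · filter_upwards [eventually_all.2 hσ'] with x hx
    funext k
    have h2 : (|x k| ^ (1 / (N : ℝ))) ^ N = |x k| := by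
      rw [← Real.rpow_natCast, ← Real.rpow_mul (abs_nonneg _), one_div_mul_cancel hN0,
        Real.rpow_one]
    show σ k * (|x k| ^ (1 / (N : ℝ))) ^ N = x k
    rw [h2]
    have h3 := hx k
    rcases hσ k with h4 | h4
    · rw [h4] at h3 ⊢
      rw [one_mul] at h3 ⊢
      exact abs_of_nonneg h3
    · rw [h4] at h3 ⊢
      rw [abs_of_nonpos (by linarith)]
      ring

theorem analyticAt_powSub (N : ℕ) (σ : Fin n → ℝ) (x : Fin n → ℝ) :
    AnalyticAt ℝ (fun v : Fin n → ℝ => (fun k => σ k * v k ^ N : Fin n → ℝ)) x := by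
  rw [analyticAt_pi_iff]
  intro k
  have h1 : AnalyticAt ℝ (fun v : Fin n → ℝ => v k) x :=
    (ContinuousLinearMap.proj (R := ℝ) (φ := fun _ : Fin n => ℝ) k).analyticAt x
  exact analyticAt_const.mul (h1.pow N)

theorem Mon.powSub {f : (Fin n → ℝ) → ℝ} {α : Fin n → ℕ} (hf : Mon f α) (N : ℕ) (hN : 1 ≤ N)
    (σ : Fin n → ℝ) (hσ : ∀ k, σ k = 1 ∨ σ k = -1) :
    Mon (fun v => f (fun k => σ k * v k ^ N)) (fun k => N * α k) := by
  obtain ⟨ε, hε, hε0, h⟩ := hf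
  set φ : (Fin n → ℝ) → (Fin n → ℝ) := fun v k => σ k * v k ^ N with hφ
  have hφa : AnalyticAt ℝ φ 0 := analyticAt_powSub N σ 0
  have hφ0 : φ 0 = 0 := by
    funext k
    show σ k * (0 : ℝ) ^ N = 0
    rw [zero_pow (by omega), mul_zero]
  have hε' : AnalyticAt ℝ (fun v => ε (φ v)) 0 := by
    have h1 : AnalyticAt ℝ ε (φ 0) := by rwa [hφ0]
    exact h1.comp hφa
  refine ⟨fun v => (∏ k, σ k ^ α k) * ε (φ v), analyticAt_const.mul hε', ?_, ?_⟩
  · show (∏ k, σ k ^ α k) * ε (φ 0) ≠ 0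
    rw [hφ0]
    refine mul_ne_zero ?_ hε0
    refine Finset.prod_ne_zero_iff.2 fun k _ => pow_ne_zero _ ?_
    rcases hσ k with h1 | h1 <;> rw [h1] <;> norm_num
  · have h1 : Tendsto φ (𝓝 0) (𝓝 0) := by
      have h2 := hφa.continuousAt.tendsto
      rwa [hφ0] at h2
    filter_upwards [h1.eventually h] with v hv
    show f (φ v) = _
    rw [hv]
    have h2 : ∏ i, φ v i ^ α i = (∏ k, σ k ^ α k) * ∏ i, v i ^ (N * α i) := by
      rw [← Finset.prod_mul_distrib]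
      refine Finset.prod_congr rfl fun i _ => ?_
      show (σ i * v i ^ N) ^ α i = _
      rw [mul_pow, ← pow_mul]
    rw [h2]
    ring

end Pool.Agent.helper62.GF
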