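import Pool.Agent.helper62.GF.M05
import Pool.Agent.helper62.GF.M06
import Pool.Agent.helper62.GF.M09

/-!
# GF-M10: preparation of the coefficients

Let `I = {i < d | c i not locally zero}` (nonempty), `N = (d+1)!`, `b i = (c i) ^ (N / (d + 1 - i))`.
Apply `hM` to
`P = a * ∏_{i∈I} b i * ∏_{(i,j)∈I×I, b i - b j not locally zero} (b i - b j)`,
which is analytic and not locally zero (M02): this gives `ψ₁, s₁` with `Mon (P ∘ ψ₁) _` and (`sec_zero`)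
`ψ₁ 0 = 0`.  By `Mon.factor_prod`/`Mon.factor` the functions `a ∘ ψ₁`, `c i ∘ ψ₁` (it is a factor of
`b i ∘ ψ₁`, exponent `≥ 1`), and the differences are monomial: `Mon (c i ∘ ψ₁) (κ i)`, so
`Mon (b i ∘ ψ₁) (N / (d+1-i) * κ i)` (`Mon.pow`).  (If `b i - b j` is locally zero then so is its
composition with `ψ₁`, `ψ₁ 0 = 0`.)  By `Mon.comparable` the exponents `γ i := N / (d+1-i) * κ i`, `i ∈ I`,
are pairwise comparable, so there is a least one, `β = γ i₀`.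
Next substitute `v k = σ k * w k ^ N` (`powSub` for the ultrafilter `𝒰.map s₁`), `ψ = ψ₁ ∘ (power map)`:
`Mon (c i ∘ ψ) (N * κ i)` and `N * κ i = (d + 1 - i) * γ i` (as `(d+1-i) ∣ N`), and
`(d + 1 - i) * γ i = (d + 1 - i) * β + (d + 1 - i) * (γ i - β)`, so
`c i (ψ w) = (∏ w k ^ ((d + 1 - i) * β k)) * c' i w` with
`c' i w = (∏ w k ^ ((d + 1 - i) * (γ i k - β k))) * unit`, analytic, and `c' i₀ 0 ≠ 0`.
For `i ∉ I` take `c' i = 0`.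
-/

open Filter Topology

namespace Pool.Agent.helper62.GF

theorem prep (n d : ℕ) (hM : MonoAt n) (a : (Fin n → ℝ) → ℝ) (ha : AnalyticAt ℝ a 0)
    (ha0 : ¬ ∀ᶠ x in 𝓝 (0 : Fin n → ℝ), a x = 0) (c : ℕ → (Fin n → ℝ) → ℝ)
    (hc : ∀ i, AnalyticAt ℝ (c i) 0) (hne : ∃ i < d, ¬ ∀ᶠ x in 𝓝 (0 : Fin n → ℝ), c i x = 0)
    (𝒰 : Ultrafilter (Fin n → ℝ)) (h𝒰 : (𝒰 : Filter (Fin n → ℝ)) ≤ 𝓝 0) :
    ∃ (ψ s : (Fin n → ℝ) → (Fin n → ℝ)) (μ β : Fin n → ℕ) (c' : ℕ → (Fin n → ℝ) → ℝ),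
      AnalyticAt ℝ ψ 0 ∧ ψ 0 = 0 ∧ Tendsto s 𝒰 (𝓝 0) ∧
      (∀ᶠ x in (𝒰 : Filter (Fin n → ℝ)), ψ (s x) = x) ∧ Mon (a ∘ ψ) μ ∧
      (∀ i, AnalyticAt ℝ (c' i) 0) ∧ (∃ i < d, c' i 0 ≠ 0) ∧
      ∀ i < d, ∀ᶠ v in 𝓝 (0 : Fin n → ℝ),
        c i (ψ v) = (∏ k, v k ^ ((d + 1 - i) * β k)) * c' i v := by
  classical
  -- the exponents
  have hN1 : 1 ≤ (d + 1).factorial := Nat.factorial_pos _
  set N : ℕ := (d + 1).factorial with hNdef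
  set e : ℕ → ℕ := fun i => N / (d + 1 - i) with hedef
  have hdvd : ∀ i < d, (d + 1 - i) * e i = N := fun i hi =>
    Nat.mul_div_cancel' (Nat.dvd_factorial (by omega) (by omega))
  have he1 : ∀ i < d, 1 ≤ e i := fun i hi => by
    rcases Nat.eq_zero_or_pos (e i) with h | h
    · have h2 := hdvd i hi
      rw [h, Nat.mul_zero] at h2
      omega
    · exact h
  -- the index sets and the product
  set I : Finset ℕ := (Finset.range d).filter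
    (fun i => ¬ ∀ᶠ x in 𝓝 (0 : Fin n → ℝ), c i x = 0) with hI
  have hId : ∀ i ∈ I, i < d := fun i hi => Finset.mem_range.mp (Finset.mem_filter.mp hi).1
  have hI0 : ∀ i ∈ I, ¬ ∀ᶠ x in 𝓝 (0 : Fin n → ℝ), c i x = 0 := fun i hi =>
    (Finset.mem_filter.mp hi).2
  set b : ℕ → (Fin n → ℝ) → ℝ := fun i x => c i x ^ e i with hb
  have hba : ∀ i, AnalyticAt ℝ (b i) 0 := fun i => (hc i).pow _
  set J : Finset (ℕ × ℕ) := (I ×ˢ I).filter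
    (fun p => ¬ ∀ᶠ x in 𝓝 (0 : Fin n → ℝ), b p.1 x - b p.2 x = 0) with hJ
  have hJ0 : ∀ p ∈ J, ¬ ∀ᶠ x in 𝓝 (0 : Fin n → ℝ), b p.1 x - b p.2 x = 0 := fun p hp =>
    (Finset.mem_filter.mp hp).2
  have hBa : AnalyticAt ℝ (fun x => ∏ i ∈ I, b i x) 0 :=
    Finset.analyticAt_fun_prod I fun i _ => hba i
  have hDa : AnalyticAt ℝ (fun x => ∏ p ∈ J, (b p.1 x - b p.2 x)) 0 :=
    Finset.analyticAt_fun_prod J fun p _ => (hba p.1).sub (hba p.2)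
  have hB0 : ¬ ∀ᶠ x in 𝓝 (0 : Fin n → ℝ), ∏ i ∈ I, b i x = 0 :=
    germ_prod_ne I (fun i _ => hba i) fun i hi => germ_pow_ne (hI0 i hi) _
  have hD0 : ¬ ∀ᶠ x in 𝓝 (0 : Fin n → ℝ), ∏ p ∈ J, (b p.1 x - b p.2 x) = 0 :=
    germ_prod_ne J (A := fun p x => b p.1 x - b p.2 x)
      (fun p _ => (hba p.1).sub (hba p.2)) fun p hp => hJ0 p hp
  obtain ⟨ψ₁, s₁, α, hψ₁, hs₁, hsec₁, hMon⟩ := hM
    (fun x => a x * ((∏ i ∈ I, b i x) * ∏ p ∈ J, (b p.1 x - b p.2 x)))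
    (ha.mul (hBa.mul hDa)) (germ_mul_ne ha (hBa.mul hDa) ha0 (germ_mul_ne hBa hDa hB0 hD0))
    𝒰 h𝒰
  have hψ0 : ψ₁ 0 = 0 := sec_zero h𝒰 hψ₁ hs₁ hsec₁
  have hcomp : ∀ {g : (Fin n → ℝ) → ℝ}, AnalyticAt ℝ g 0 →
      AnalyticAt ℝ (fun x => g (ψ₁ x)) 0 := by
    intro g hg
    have hg' : AnalyticAt ℝ g (ψ₁ 0) := by rw [hψ0]; exact hg
    exact hg'.comp hψ₁
  have hM1 : Mon (fun x => a (ψ₁ x) * ((∏ i ∈ I, b i (ψ₁ x)) *
      ∏ p ∈ J, (b p.1 (ψ₁ x) - b p.2 (ψ₁ x)))) α := hMon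
  obtain ⟨αa, hMa⟩ := Mon.factor (hcomp ha) (hcomp (hBa.mul hDa)) hM1
  obtain ⟨α2, hM2⟩ := Mon.factor (A := fun x => (∏ i ∈ I, b i (ψ₁ x)) *
      ∏ p ∈ J, (b p.1 (ψ₁ x) - b p.2 (ψ₁ x))) (hcomp (hBa.mul hDa)) (hcomp ha)
    (hM1.congr (Eventually.of_forall fun x => mul_comm _ _))
  obtain ⟨α3, hM3⟩ := Mon.factor (A := fun x => ∏ i ∈ I, b i (ψ₁ x)) (hcomp hBa) (hcomp hDa) hM2
  obtain ⟨α4, hM4⟩ := Mon.factor (A := fun x => ∏ p ∈ J, (b p.1 (ψ₁ x) - b p.2 (ψ₁ x)))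
    (hcomp hDa) (hcomp hBa) (hM2.congr (Eventually.of_forall fun x => mul_comm _ _))
  have hMb := Mon.factor_prod I (A := fun i x => b i (ψ₁ x)) (fun i _ => hcomp (hba i)) hM3
  have hMd := Mon.factor_prod J (A := fun p x => b p.1 (ψ₁ x) - b p.2 (ψ₁ x))
    (fun p _ => hcomp ((hba p.1).sub (hba p.2))) hM4
  have hMc : ∀ i ∈ I, ∃ κ, Mon (fun x => c i (ψ₁ x)) κ := by
    intro i hi
    obtain ⟨α5, h5⟩ := hMb i hi
    refine Mon.factor (B := fun x => c i (ψ₁ x) ^ (e i - 1)) (γ := α5) (hcomp (hc i))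
      ((hcomp (hc i)).pow _) (h5.congr (Eventually.of_forall fun x => ?_))
    show c i (ψ₁ x) ^ e i = c i (ψ₁ x) * c i (ψ₁ x) ^ (e i - 1)
    rw [← pow_succ', Nat.sub_add_cancel (he1 i (hId i hi))]
  choose! κ hκ using hMc
  set γ : ℕ → Fin n → ℕ := fun i k => e i * κ i k with hγ
  have hMbγ : ∀ i ∈ I, Mon (fun x => b i (ψ₁ x)) (γ i) := fun i hi => (hκ i hi).pow (e i)
  have hcmp : ∀ i ∈ I, ∀ j ∈ I, γ i ≤ γ j ∨ γ j ≤ γ i := by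
    intro i hi j hj
    refine Mon.comparable (hMbγ i hi) (hMbγ j hj) ?_
    by_cases hp : ∀ᶠ x in 𝓝 (0 : Fin n → ℝ), b i x - b j x = 0
    · right
      have ht : Tendsto ψ₁ (𝓝 0) (𝓝 0) := by
        have := hψ₁.continuousAt.tendsto
        rwa [hψ0] at this
      exact ht.eventually hp
    · left
      exact hMd (i, j) (Finset.mem_filter.mpr ⟨Finset.mem_product.mpr ⟨hi, hj⟩, hp⟩)
  obtain ⟨i₀, hi₀, hmin⟩ : ∃ i₀ ∈ I, ∀ i ∈ I, γ i₀ ≤ γ i := by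
    obtain ⟨i, hid, hi⟩ := hne
    obtain ⟨i₀, hi₀, hm⟩ := Finset.exists_min_image I (fun i => ∑ k, γ i k)
      ⟨i, Finset.mem_filter.mpr ⟨Finset.mem_range.mpr hid, hi⟩⟩
    refine ⟨i₀, hi₀, fun j hj => ?_⟩
    rcases hcmp i₀ hi₀ j hj with h | h
    · exact h
    · have h1 := hm j hj
      have h2 : ∑ k, γ j k ≤ ∑ k, γ i₀ k := Finset.sum_le_sum fun k _ => h k
      have h3 := (Finset.sum_eq_sum_iff_of_le (fun k _ => h k)).mp (le_antisymm h2 h1)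
      intro k
      exact (h3 k (Finset.mem_univ k)).ge
  -- the power substitution
  have hmap : ((𝒰.map s₁ : Ultrafilter (Fin n → ℝ)) : Filter (Fin n → ℝ)) ≤ 𝓝 0 := hs₁
  obtain ⟨σ, s₂, hσ, hs₂, hsec₂⟩ := powSub N hN1 (𝒰.map s₁) hmap
  have hsec₂' : ∀ᶠ x in (𝒰 : Filter (Fin n → ℝ)),
      (fun k => σ k * (s₂ (s₁ x) k) ^ N) = s₁ x := hsec₂
  have hπ0 : (fun k => σ k * (0 : Fin n → ℝ) k ^ N : Fin n → ℝ) = 0 := by
    funext k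
    simp only [Pi.zero_apply]
    rw [zero_pow (by omega), mul_zero]
  have hπa := analyticAt_powSub N σ (0 : Fin n → ℝ)
  set π : (Fin n → ℝ) → (Fin n → ℝ) := fun v => (fun k => σ k * v k ^ N) with hπ
  have hπ00 : π 0 = 0 := hπ0
  have hψπ : AnalyticAt ℝ (fun v => ψ₁ (π v)) 0 := by
    have h1 : AnalyticAt ℝ ψ₁ (π 0) := by rw [hπ00]; exact hψ₁
    exact h1.comp hπa
  have hψπ0 : ψ₁ (π 0) = 0 := by rw [hπ00, hψ0]
  have htψ : Tendsto (fun v => ψ₁ (π v)) (𝓝 0) (𝓝 0) := by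
    have := hψπ.continuousAt.tendsto
    rwa [hψπ0] at this
  have key : ∀ i, ∃ c'i : (Fin n → ℝ) → ℝ, AnalyticAt ℝ c'i 0 ∧ (i = i₀ → c'i 0 ≠ 0) ∧
      (i < d → ∀ᶠ v in 𝓝 (0 : Fin n → ℝ),
        c i (ψ₁ (π v)) = (∏ k, v k ^ ((d + 1 - i) * γ i₀ k)) * c'i v) := by
    intro i
    by_cases hi : i ∈ I
    · obtain ⟨ε, hε, hε0, hεe⟩ := Mon.powSub (hκ i hi) N hN1 σ hσ
      refine ⟨fun v => (∏ k, v k ^ ((d + 1 - i) * (γ i k - γ i₀ k))) * ε v, ?_, ?_, ?_⟩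
      · refine AnalyticAt.mul (Finset.analyticAt_fun_prod _ fun k _ => ?_) hε
        exact ((ContinuousLinearMap.proj (R := ℝ) (φ := fun _ : Fin n => ℝ) k).analyticAt
          0).pow _
      · rintro rfl
        simp only [Nat.sub_self, Nat.mul_zero, pow_zero, Finset.prod_const_one, one_mul]
        exact hε0
      · intro hid
        filter_upwards [hεe] with v hv
        have hv' : c i (ψ₁ (π v)) = (∏ k, v k ^ (N * κ i k)) * ε v := hv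
        rw [hv', ← mul_assoc, ← Finset.prod_mul_distrib]
        congr 1
        refine Finset.prod_congr rfl fun k _ => ?_
        rw [← pow_add, ← Nat.mul_add, Nat.add_sub_cancel' (hmin i hi k), hγ, ← hdvd i hid,
          Nat.mul_assoc]
    · refine ⟨fun _ => 0, analyticAt_const, fun h => absurd (h ▸ hi₀) hi, fun hid => ?_⟩
      have h0 : ∀ᶠ x in 𝓝 (0 : Fin n → ℝ), c i x = 0 := by
        by_contra hcon
        exact hi (Finset.mem_filter.mpr ⟨Finset.mem_range.mpr hid, hcon⟩)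
      filter_upwards [htψ.eventually h0] with v hv
      rw [hv, mul_zero]
  choose c' h1 h2 h3 using key
  refine ⟨fun v => ψ₁ (π v), fun x => s₂ (s₁ x), fun k => N * αa k, γ i₀, c', hψπ, hψπ0,
    ?_, ?_, Mon.powSub hMa N hN1 σ hσ, h1, ⟨i₀, hId i₀ hi₀, h2 i₀ rfl⟩, h3⟩
  · exact hs₂
  · filter_upwards [hsec₂', hsec₁] with x hx1 hx2
    show ψ₁ (π (s₂ (s₁ x))) = x
    have hx1' : π (s₂ (s₁ x)) = s₁ x := hx1
    rw [hx1', hx2]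

end Pool.Agent.helper62.GF
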