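import Pool.Agent.helper62.GF.M11

/-!
# GF-M12: second chart `v_k = t * v_k'`

`bracket_const`: each exponent `d + 1 - i` is `≥ 2`, so the function of `y` is continuous with value `U₀`
at `y = 0`.

`chartII`: `ultra_ratio` with `u x = tail x k`, `w x = x 0`, constant `δ`, gives `y₀`, `|y₀| ≤ δ`.  Put
`φ x = cons (x 0) (update (tail x) k (x 0 * (y₀ + tail x k)))`,
`s x = cons (x 0) (update (tail x) k (tail x k / x 0 - y₀))`.
With `a v = (∏ v l ^ μ l) * e v` near `0`:
`Tfun … (φ x) = [∏_{l≠k} w_l^{μ_l} * t^{μ_k} * (y₀ + w_k)^{μ_k} * e(…)] * t^{d+1} * B x` with (`t = x 0`,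
`w = tail x`)
`B x = ∑_{i<d} t^{(d+1-i)(β_k-1)} (y₀ + w_k)^{(d+1-i)β_k} (∏_{l≠k} w_l^{(d+1-i)β_l}) c_i(…) + U (φ x)`,
`B 0 = U 0` unless `β = e_k` in which case `B 0 = ∑_{i<d} y₀^{d+1-i} c_i 0 + U 0`; nonzero in both cases.
`(y₀ + w_k)^{μ_k}` is a unit if `y₀ ≠ 0` and a monomial if `y₀ = 0`.  So `Tfun … ∘ φ` is monomial
(products of `Mon`s), and `Res.comp` + `Mon.res` (or the definition of `Res`) conclude.
-/

open Filter Topology

namespace Pool.Agent.helper62.GF

theorem bracket_const (d : ℕ) (c : ℕ → ℝ) (U₀ : ℝ) (hU : U₀ ≠ 0) :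
    ∃ δ > 0, ∀ y : ℝ, |y| ≤ δ → (∑ i ∈ Finset.range d, y ^ (d + 1 - i) * c i) + U₀ ≠ 0 := by
  have hc : Continuous fun y : ℝ => (∑ i ∈ Finset.range d, y ^ (d + 1 - i) * c i) + U₀ := by
    fun_prop
  have h0 : (∑ i ∈ Finset.range d, (0 : ℝ) ^ (d + 1 - i) * c i) + U₀ ≠ 0 := by
    rw [Finset.sum_eq_zero, zero_add]
    · exact hU
    · intro i hi
      have h2 : d + 1 - i ≠ 0 := by
        have := Finset.mem_range.1 hi
        omega
      rw [zero_pow h2, zero_mul]
  have h1 := (hc.continuousAt (x := (0 : ℝ))).eventually_ne h0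
  obtain ⟨ε, hε, h⟩ := Metric.eventually_nhds_iff.1 h1
  refine ⟨ε / 2, by positivity, fun y hy => h ?_⟩
  rw [Real.dist_eq, sub_zero]
  linarith

private theorem M12_prod {m : ℕ} {ι : Type*} (s : Finset ι) (f : ι → (Fin m → ℝ) → ℝ)
    (h : ∀ i ∈ s, ∃ α, Mon (f i) α) : ∃ α, Mon (fun x => ∏ i ∈ s, f i x) α := by
  classical
  induction s using Finset.induction_on with
  | empty =>
    refine ⟨fun _ => 0, Mon.unit ?_ ?_⟩
    · simpa using analyticAt_const
    · simp
  | insert a s ha ih =>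
    obtain ⟨α, hα⟩ := h a (Finset.mem_insert_self a s)
    obtain ⟨β, hβ⟩ := ih fun i hi => h i (Finset.mem_insert_of_mem hi)
    exact ⟨α + β, Mon.congr (Eventually.of_forall fun x => by
      simp [Finset.prod_insert ha]) (hα.mul hβ)⟩

theorem chartII (n d : ℕ) (a : (Fin n → ℝ) → ℝ) (μ : Fin n → ℕ) (ha : Mon a μ)
    (β : Fin n → ℕ) (c : ℕ → (Fin n → ℝ) → ℝ) (hc : ∀ i, AnalyticAt ℝ (c i) 0)
    (U : (Fin (n + 1) → ℝ) → ℝ) (hU : AnalyticAt ℝ U 0) (hU0 : U 0 ≠ 0)
    (k : Fin n) (hβ : 1 ≤ β k) (δ : ℝ) (hδ : 0 < δ)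
    (hbr : ∀ y : ℝ, |y| ≤ δ → (∑ i ∈ Finset.range d, y ^ (d + 1 - i) * c i 0) + U 0 ≠ 0)
    (𝒰 : Ultrafilter (Fin (n + 1) → ℝ)) (h𝒰 : (𝒰 : Filter (Fin (n + 1) → ℝ)) ≤ 𝓝 0)
    (h : ∀ᶠ x in (𝒰 : Filter (Fin (n + 1) → ℝ)), |(Fin.tail x : Fin n → ℝ) k| ≤ δ * |x 0|) :
    Res (Tfun n d a β c U) 𝒰 := by
  classical
  obtain ⟨y₀, hy₀, hlim, hmul⟩ := ultra_ratio 𝒰 (fun x => (Fin.tail x : Fin n → ℝ) k)
    (fun x => x 0) δ hδ.le h
  set V : (Fin (n + 1) → ℝ) → (Fin n → ℝ) := fun x =>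
    Function.update (Fin.tail x) k (x 0 * (y₀ + (Fin.tail x : Fin n → ℝ) k)) with hV
  set φ : (Fin (n + 1) → ℝ) → (Fin (n + 1) → ℝ) := fun x => Fin.cons (x 0) (V x) with hφ
  set s : (Fin (n + 1) → ℝ) → (Fin (n + 1) → ℝ) := fun x =>
    Fin.cons (x 0) (Function.update (Fin.tail x) k ((Fin.tail x : Fin n → ℝ) k / x 0 - y₀)) with hs
  -- coordinates
  have hcoord : ∀ (i : Fin (n + 1)) (p : Fin (n + 1) → ℝ),
      AnalyticAt ℝ (fun x : Fin (n + 1) → ℝ => x i) p := fun i p =>
    (ContinuousLinearMap.proj (R := ℝ) (φ := fun _ : Fin (n + 1) => ℝ) i).analyticAt p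
  have hVk : ∀ x, V x k = x 0 * (y₀ + (Fin.tail x : Fin n → ℝ) k) := fun x => by
    simp only [hV, Function.update_self]
  have hVl : ∀ x l, l ≠ k → V x l = x l.succ := fun x l hl => by
    simp only [hV, Function.update_of_ne hl, Fin.tail]
  have hVan : AnalyticAt ℝ V 0 := by
    rw [analyticAt_pi_iff]
    intro l
    by_cases hl : l = k
    · subst hl
      have h1 : (fun x => V x l) = fun x => x 0 * (y₀ + x l.succ) := by
        funext x
        rw [hVk]
        rfl
      rw [h1]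
      exact (hcoord 0 0).mul (analyticAt_const.add (hcoord _ 0))
    · have h1 : (fun x => V x l) = fun x => x l.succ := funext fun x => hVl x l hl
      rw [h1]
      exact hcoord _ 0
  have hV0 : V 0 = 0 := by
    funext l
    by_cases hl : l = k
    · subst hl
      rw [hVk]
      simp
    · rw [hVl _ _ hl]
      rfl
  have hφan : AnalyticAt ℝ φ 0 := AnalyticAt.finCons (hcoord 0 0) hVan
  have hφ0 : φ 0 = 0 := by
    simp only [hφ]
    rw [hV0]
    funext i
    refine Fin.cases ?_ (fun j => ?_) i <;> simp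
  -- the two factors
  obtain ⟨e, he, he0, hae⟩ := ha
  have hVt : Tendsto V (𝓝 0) (𝓝 0) := by
    have := hVan.continuousAt.tendsto
    rwa [hV0] at this
  have hφt : Tendsto φ (𝓝 0) (𝓝 0) := by
    have := hφan.continuousAt.tendsto
    rwa [hφ0] at this
  have hVmon : ∀ l, ∃ α, Mon (fun x => V x l) α := by
    intro l
    by_cases hl : l = k
    · subst hl
      have h2 : ∃ α, Mon (fun x : Fin (n + 1) → ℝ => y₀ + x l.succ) α := by
        by_cases hy : y₀ = 0
        · refine ⟨_, Mon.congr (Eventually.of_forall fun x => ?_) (Mon.coord l.succ)⟩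
          rw [hy, zero_add]
        · refine ⟨_, Mon.unit (analyticAt_const.add (hcoord _ 0)) ?_⟩
          simpa using hy
      obtain ⟨α, hα⟩ := h2
      refine ⟨_, Mon.congr (Eventually.of_forall fun x => ?_) ((Mon.coord 0).mul hα)⟩
      rw [hVk]
      rfl
    · refine ⟨_, Mon.congr (Eventually.of_forall fun x => ?_) (Mon.coord l.succ)⟩
      rw [hVl _ _ hl]
  have hamon : ∃ α, Mon (fun x => a (V x)) α := by
    obtain ⟨α, hα⟩ := M12_prod Finset.univ (fun l x => V x l ^ μ l) (fun l _ => by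
      obtain ⟨α, hα⟩ := hVmon l
      exact ⟨_, hα.pow (μ l)⟩)
    have h3 : AnalyticAt ℝ (fun x => e (V x)) 0 := by
      refine AnalyticAt.comp (g := e) (f := V) ?_ hVan
      rwa [hV0]
    have h4 : Mon (fun x => e (V x)) (fun _ => 0) := Mon.unit h3 (by
      show e (V 0) ≠ 0
      rwa [hV0])
    refine ⟨_, Mon.congr ?_ (hα.mul h4)⟩
    filter_upwards [hVt.eventually hae] with x hx
    exact hx.symm
  set B : (Fin (n + 1) → ℝ) → ℝ := fun x =>
    (∑ i ∈ Finset.range d, x 0 ^ ((d + 1 - i) * (β k - 1)) *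
      (y₀ + x k.succ) ^ ((d + 1 - i) * β k) *
      (∏ l ∈ Finset.univ.erase k, x l.succ ^ ((d + 1 - i) * β l)) * c i (V x)) + U (φ x) with hB
  have hBan : AnalyticAt ℝ B 0 := by
    refine AnalyticAt.add ?_ ?_
    · refine Finset.analyticAt_fun_sum _ fun i _ => ?_
      refine AnalyticAt.mul (AnalyticAt.mul (AnalyticAt.mul ((hcoord 0 0).pow _)
        ((analyticAt_const.add (hcoord _ 0)).pow _)) ?_) ?_
      · exact Finset.analyticAt_fun_prod _ fun l _ => (hcoord _ 0).pow _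
      · refine AnalyticAt.comp (g := c i) (f := V) ?_ hVan
        rw [hV0]
        exact hc i
    · refine AnalyticAt.comp (g := U) (f := φ) ?_ hφan
      rwa [hφ0]
  have hB0 : B 0 ≠ 0 := by
    simp only [hB, hV0, hφ0, Pi.zero_apply, add_zero]
    by_cases hβ1 : β k = 1 ∧ ∀ l, l ≠ k → β l = 0
    · have h5 : ∀ i ∈ Finset.range d, (0 : ℝ) ^ ((d + 1 - i) * (β k - 1)) *
          y₀ ^ ((d + 1 - i) * β k) *
          (∏ l ∈ Finset.univ.erase k, (0 : ℝ) ^ ((d + 1 - i) * β l)) * c i 0 =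
          y₀ ^ (d + 1 - i) * c i 0 := by
        intro i hi
        rw [hβ1.1, Finset.prod_eq_one]
        · simp
        · intro l hl
          rw [hβ1.2 l (Finset.ne_of_mem_erase hl), mul_zero, pow_zero]
      rw [Finset.sum_congr rfl h5]
      exact hbr y₀ hy₀
    · rw [Finset.sum_eq_zero, zero_add]
      · exact hU0
      · intro i hi
        have hi' : d + 1 - i ≠ 0 := by
          have := Finset.mem_range.1 hi
          omega
        by_cases hk1 : β k = 1
        · have h6 : ∃ l, l ≠ k ∧ β l ≠ 0 := by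
            by_contra hcon
            push Not at hcon
            exact hβ1 ⟨hk1, hcon⟩
          obtain ⟨l, hl, hl0⟩ := h6
          have h7 : (∏ l ∈ Finset.univ.erase k, (0 : ℝ) ^ ((d + 1 - i) * β l)) = 0 := by
            refine Finset.prod_eq_zero (Finset.mem_erase.2 ⟨hl, Finset.mem_univ l⟩) ?_
            exact zero_pow (Nat.mul_ne_zero hi' hl0)
          rw [h7]
          ring
        · have h8 : (0 : ℝ) ^ ((d + 1 - i) * (β k - 1)) = 0 :=
            zero_pow (Nat.mul_ne_zero hi' (by omega))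
          rw [h8]
          ring
  have hfact : ∀ x, Tfun n d a β c U (φ x) = (a (V x) * x 0 ^ (d + 1)) * B x := by
    intro x
    have ht : (Fin.tail (φ x) : Fin n → ℝ) = V x := by
      simp only [hφ, Fin.tail_cons]
    have h0 : φ x 0 = x 0 := by
      simp only [hφ, Fin.cons_zero]
    simp only [Tfun, ht, h0, hB]
    rw [mul_assoc, mul_add (x 0 ^ (d + 1)), Finset.mul_sum]
    congr 2
    refine Finset.sum_congr rfl fun i hi => ?_
    have hi' := Finset.mem_range.1 hi
    have h9 : (∏ l, V x l ^ ((d + 1 - i) * β l)) = (x 0 * (y₀ + x k.succ)) ^ ((d + 1 - i) * β k) *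
        ∏ l ∈ Finset.univ.erase k, x l.succ ^ ((d + 1 - i) * β l) := by
      rw [← Finset.mul_prod_erase Finset.univ _ (Finset.mem_univ k)]
      congr 1
      · rw [hVk]
        rfl
      · refine Finset.prod_congr rfl fun l hl => ?_
        rw [hVl _ _ (Finset.ne_of_mem_erase hl)]
    have h10 : (d + 1 - i) * β k + i = (d + 1) + (d + 1 - i) * (β k - 1) := by
      obtain ⟨b, hb⟩ : ∃ b, β k = b + 1 := ⟨β k - 1, by omega⟩
      rw [hb, Nat.add_sub_cancel, Nat.mul_add, mul_one]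
      omega
    rw [h9, mul_pow]
    have h11 : x 0 ^ ((d + 1 - i) * β k) * x 0 ^ i = x 0 ^ (d + 1) * x 0 ^ ((d + 1 - i) * (β k - 1)) := by
      rw [← pow_add, ← pow_add, h10]
    linear_combination (((y₀ + x k.succ) ^ ((d + 1 - i) * β k)) *
      (∏ l ∈ Finset.univ.erase k, x l.succ ^ ((d + 1 - i) * β l)) * c i (V x)) * h11
  obtain ⟨α, hα⟩ := hamon
  refine ⟨φ, s, _, hφan, ?_, ?_, Mon.congr (Eventually.of_forall fun x => (hfact x).symm)
    ((hα.mul ((Mon.coord 0).pow (d + 1))).mul (Mon.unit hBan hB0))⟩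
  · have hx0 : Tendsto (fun x : Fin (n + 1) → ℝ => x 0) 𝒰 (𝓝 0) := by
      have := ((hcoord 0 0).continuousAt.tendsto).mono_left h𝒰
      simpa using this
    refine tendsto_finCons hx0 ?_
    rw [tendsto_pi_nhds]
    intro l
    by_cases hl : l = k
    · subst hl
      simp only [Function.update_self, Pi.zero_apply]
      have := hlim.sub_const y₀
      simpa using this
    · simp only [Function.update_of_ne hl, Pi.zero_apply]
      have := ((hcoord l.succ 0).continuousAt.tendsto).mono_left h𝒰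
      simpa [Fin.tail] using this
  · filter_upwards [hmul] with x hx
    have h12 : (Fin.tail (s x) : Fin n → ℝ) =
        Function.update (Fin.tail x) k ((Fin.tail x : Fin n → ℝ) k / x 0 - y₀) := by
      simp only [hs, Fin.tail_cons]
    have h13 : s x 0 = x 0 := by
      simp only [hs, Fin.cons_zero]
    have h14 : V (s x) = Fin.tail x := by
      simp only [hV, h12, h13, Function.update_self, Function.update_idem]
      have h15 : x 0 * (y₀ + ((Fin.tail x : Fin n → ℝ) k / x 0 - y₀)) = (Fin.tail x : Fin n → ℝ) k := by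
        rw [add_sub_cancel]
        exact hx
      rw [h15, Function.update_eq_self]
    show (Fin.cons (s x 0) (V (s x)) : Fin (n + 1) → ℝ) = x
    rw [h13, h14, Fin.cons_self_tail]

end Pool.Agent.helper62.GF
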