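import Pool.Agent.helper62.GF.M11
import Pool.Agent.helper62.GF.M12

/-!
# GF-M13: induction on `∑ β`  (author: helper58)

Induction on `∑ k, β k`, for all `a μ U 𝒰`.  If `β = 0` then
`Tfun n d a β c U x = a (tail x) * Q x`, `Q x = ∑_{i<d} c i (tail x) (x 0)^i + (x 0)^(d+1) U x`, whose order on
the axis is `≤ i < d` for the `i` with `c i 0 ≠ 0` (`order_le_of_coeff` with `V t = t * U (cons t 0)`); use
`hS` (`Mon.analytic`, `Mon.ne_zero` for `a`).  If `β k ≥ 1`: take `δ` from `bracket_const`; the ultrafilter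
contains `{|tail x k| ≤ δ * |x 0|}` (then `chartII`) or its complement, on which
`|x 0| ≤ δ⁻¹ * |tail x k|` (then `chartI` with `C = δ⁻¹`, `IH` from the induction hypothesis, as
`∑ (β - Pi.single k 1) < ∑ β`).
-/

open Filter Topology

namespace Pool.Agent.helper62.GF

private theorem stepT_base (n d : ℕ) (hS : StepS n d) (a : (Fin n → ℝ) → ℝ) (μ : Fin n → ℕ)
    (ha : Mon a μ) (β : Fin n → ℕ) (hβ : ∀ k, β k = 0) (c : ℕ → (Fin n → ℝ) → ℝ)
    (hc : ∀ i, AnalyticAt ℝ (c i) 0)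
    (hc0 : ∃ i < d, c i 0 ≠ 0) (U : (Fin (n + 1) → ℝ) → ℝ) (hU : AnalyticAt ℝ U 0)
    (𝒰 : Ultrafilter (Fin (n + 1) → ℝ)) (h𝒰 : (𝒰 : Filter (Fin (n + 1) → ℝ)) ≤ 𝓝 0) :
    Res (Tfun n d a β c U) 𝒰 := by
  set Q : (Fin (n + 1) → ℝ) → ℝ := fun x =>
    (∑ i ∈ Finset.range d, c i (Fin.tail x) * x 0 ^ i) + x 0 ^ (d + 1) * U x with hQ
  have hT : Tfun n d a β c U = fun x => a (Fin.tail x) * Q x := by
    funext x
    simp only [Tfun, hQ, hβ, mul_zero, pow_zero, Finset.prod_const_one, one_mul]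
  have htail0 : (Fin.tail (0 : Fin (n + 1) → ℝ) : Fin n → ℝ) = 0 := rfl
  have hx0 : AnalyticAt ℝ (fun x : Fin (n + 1) → ℝ => x 0) 0 :=
    (ContinuousLinearMap.proj (R := ℝ) (φ := fun _ : Fin (n + 1) => ℝ) 0).analyticAt 0
  have hQa : AnalyticAt ℝ Q 0 := by
    have h1 : ∀ i, AnalyticAt ℝ (fun x : Fin (n + 1) → ℝ => c i (Fin.tail x)) 0 := fun i =>
      AnalyticAt.comp (g := c i) (f := fun x : Fin (n + 1) → ℝ => (Fin.tail x : Fin n → ℝ))
        (by rw [htail0]; exact hc i) (analyticAt_tail 0)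
    exact (Finset.analyticAt_fun_sum _ fun i _ => (h1 i).mul (hx0.pow i)).add
      ((hx0.pow (d + 1)).mul hU)
  have hord : analyticOrderAt (fun t : ℝ => Q (Fin.cons t (0 : Fin n → ℝ))) 0 ≤ (d : ℕ∞) := by
    obtain ⟨i, hi, hci⟩ := hc0
    have hcons : AnalyticAt ℝ (fun t : ℝ => (Fin.cons t (0 : Fin n → ℝ) : Fin (n + 1) → ℝ)) 0 :=
      AnalyticAt.finCons analyticAt_id analyticAt_const
    have hc00 : (Fin.cons (0 : ℝ) (0 : Fin n → ℝ) : Fin (n + 1) → ℝ) = 0 := by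
      funext j
      refine Fin.cases rfl (fun j => rfl) j
    have hV : AnalyticAt ℝ (fun t : ℝ => t * U (Fin.cons t (0 : Fin n → ℝ))) 0 := by
      refine analyticAt_id.mul ?_
      exact AnalyticAt.comp (g := U)
        (f := fun t : ℝ => (Fin.cons t (0 : Fin n → ℝ) : Fin (n + 1) → ℝ))
        (by rw [hc00]; exact hU) hcons
    have h1 := order_le_of_coeff d (fun j => c j 0) _ hV i hi hci
    have h2 : (fun t : ℝ => Q (Fin.cons t (0 : Fin n → ℝ))) =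
        fun t : ℝ => (∑ j ∈ Finset.range d, c j 0 * t ^ j) +
          t ^ d * (t * U (Fin.cons t (0 : Fin n → ℝ))) := by
      funext t
      simp only [hQ, Fin.tail_cons, Fin.cons_zero]
      rw [pow_succ, mul_assoc]
    rw [h2]
    refine h1.trans ?_
    exact_mod_cast hi.le
  rw [hT]
  exact hS a Q ha.analytic ha.ne_zero hQa hord 𝒰 h𝒰

private theorem stepT_aux (n d : ℕ) (hS : StepS n d) (c : ℕ → (Fin n → ℝ) → ℝ)
    (hc : ∀ i, AnalyticAt ℝ (c i) 0) (hc0 : ∃ i < d, c i 0 ≠ 0) (N : ℕ) :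
    ∀ β : Fin n → ℕ, ∑ k, β k = N → ∀ (a : (Fin n → ℝ) → ℝ) (μ : Fin n → ℕ), Mon a μ →
      ∀ U : (Fin (n + 1) → ℝ) → ℝ, AnalyticAt ℝ U 0 → U 0 ≠ 0 →
      ∀ 𝒰 : Ultrafilter (Fin (n + 1) → ℝ), (𝒰 : Filter (Fin (n + 1) → ℝ)) ≤ 𝓝 0 →
        Res (Tfun n d a β c U) 𝒰 := by
  induction N with
  | zero =>
    intro β hβ a μ ha U hU hU0 𝒰 h𝒰
    have h0 : ∀ k, β k = 0 := fun k => Finset.sum_eq_zero_iff.1 hβ k (Finset.mem_univ k)
    exact stepT_base n d hS a μ ha β h0 c hc hc0 U hU 𝒰 h𝒰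
  | succ N ih =>
    intro β hβ a μ ha U hU hU0 𝒰 h𝒰
    obtain ⟨k, hk⟩ : ∃ k, 1 ≤ β k := by
      by_contra h
      push Not at h
      have : ∑ k, β k = 0 := Finset.sum_eq_zero fun k _ => by have := h k; omega
      omega
    have hsum : ∑ l, (β - Pi.single k 1 : Fin n → ℕ) l = N := by
      have h1 : ∀ l, (β - Pi.single k 1 : Fin n → ℕ) l + (Pi.single k 1 : Fin n → ℕ) l = β l := by
        intro l
        by_cases h : l = k
        · subst h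
          simp only [Pi.sub_apply, Pi.single_eq_same]
          omega
        · simp [Pi.single_eq_of_ne h]
      have h2 : ∑ l, (β - Pi.single k 1 : Fin n → ℕ) l + ∑ l, (Pi.single k 1 : Fin n → ℕ) l =
          ∑ l, β l := by
        rw [← Finset.sum_add_distrib]
        exact Finset.sum_congr rfl fun l _ => h1 l
      have h3 : ∑ l, (Pi.single k 1 : Fin n → ℕ) l = 1 := by
        rw [Finset.sum_pi_single']
        simp
      omega
    obtain ⟨δ, hδ, hbr⟩ := bracket_const d (fun i => c i 0) (U 0) hU0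
    rcases 𝒰.em (fun x => |(Fin.tail x : Fin n → ℝ) k| ≤ δ * |x 0|) with h | h
    · exact chartII n d a μ ha β c hc U hU hU0 k hk δ hδ hbr 𝒰 h𝒰 h
    · refine chartI n d hS a μ ha β c hc hc0 U hU hU0 k hk
        (fun a' μ' ha' U' hU' hU0' 𝒱 h𝒱 => ih _ hsum a' μ' ha' U' hU' hU0' 𝒱 h𝒱)
        δ⁻¹ (inv_nonneg.2 hδ.le) 𝒰 h𝒰 ?_
      filter_upwards [h] with x hx
      have h1 : δ * |x 0| < |(Fin.tail x : Fin n → ℝ) k| := not_le.1 hx
      rw [inv_mul_eq_div, le_div_iff₀ hδ, mul_comm]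
      exact h1.le

theorem stepT (n d : ℕ) (hS : StepS n d) (a : (Fin n → ℝ) → ℝ) (μ : Fin n → ℕ) (ha : Mon a μ)
    (β : Fin n → ℕ) (c : ℕ → (Fin n → ℝ) → ℝ) (hc : ∀ i, AnalyticAt ℝ (c i) 0)
    (hc0 : ∃ i < d, c i 0 ≠ 0) (U : (Fin (n + 1) → ℝ) → ℝ) (hU : AnalyticAt ℝ U 0) (hU0 : U 0 ≠ 0)
    (𝒰 : Ultrafilter (Fin (n + 1) → ℝ)) (h𝒰 : (𝒰 : Filter (Fin (n + 1) → ℝ)) ≤ 𝓝 0) :
    Res (Tfun n d a β c U) 𝒰 :=
  stepT_aux n d hS c hc hc0 _ β rfl a μ ha U hU hU0 𝒰 h𝒰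

end Pool.Agent.helper62.GF
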