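import Pool.Agent.helper62.GF.M01

/-!
# GF-M14: lifting a resolution of the tail; order `0`  (author: helper16)

`Res.of_tail`: with `φ x = cons (x 0) (ψ (tail x))`, `s x = cons (x 0) (s' (tail x))` use `Res.comp`
(`s' → 0` along `𝒰.map tail`, so `s' ∘ tail → 0` along `𝒰`).
`res_unit_mul`: resolve `a` (`hM`, ultrafilter `𝒰.map tail`, which is `≤ 𝓝 0` by `continuous_tail`), lift by
`Res.of_tail`; the pulled back function is
`(a ∘ ψ) (tail x) * (x 0) ^ m * U (φ x)`: a product of `Mon.tail`, a power of a coordinate and a unit.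
`stepS_zero`: order `≤ 0` means `Q (cons 0 0) ≠ 0` (`AnalyticAt.analyticOrderAt_eq_zero`; the restriction to
the axis is analytic at `0`), i.e. `Q 0 ≠ 0`; `res_unit_mul` with `m = 0`.
-/

open Filter Topology

namespace Pool.Agent.helper62.GF

private theorem M14_ana0 {n : ℕ} (x : Fin (n + 1) → ℝ) :
    AnalyticAt ℝ (fun x : Fin (n + 1) → ℝ => x 0) x :=
  (ContinuousLinearMap.proj (R := ℝ) (φ := fun _ : Fin (n + 1) => ℝ) 0).analyticAt x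

private theorem M14_lim0 {n : ℕ} {F : Filter (Fin (n + 1) → ℝ)} (hF : F ≤ 𝓝 0) :
    Tendsto (fun x : Fin (n + 1) → ℝ => x 0) F (𝓝 0) :=
  ((continuous_apply (0 : Fin (n + 1))).tendsto (0 : Fin (n + 1) → ℝ)).mono_left hF

private theorem M14_anaφ {n : ℕ} {ψ : (Fin n → ℝ) → (Fin n → ℝ)} (hψ : AnalyticAt ℝ ψ 0) :
    AnalyticAt ℝ (fun x : Fin (n + 1) → ℝ => (Fin.cons (x 0) (ψ (Fin.tail x)) : Fin (n + 1) → ℝ)) 0 := by
  have h1 : AnalyticAt ℝ ψ (Fin.tail (0 : Fin (n + 1) → ℝ)) := hψ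
  exact AnalyticAt.finCons (M14_ana0 0) (h1.comp (analyticAt_tail (0 : Fin (n + 1) → ℝ)))

private theorem M14_lims {n : ℕ} {𝒰 : Ultrafilter (Fin (n + 1) → ℝ)}
    (h𝒰 : (𝒰 : Filter (Fin (n + 1) → ℝ)) ≤ 𝓝 0) {s' : (Fin n → ℝ) → (Fin n → ℝ)}
    (hs : Tendsto s' (𝒰.map (fun x => (Fin.tail x : Fin n → ℝ)) : Ultrafilter (Fin n → ℝ)) (𝓝 0)) :
    Tendsto (fun x : Fin (n + 1) → ℝ => (Fin.cons (x 0) (s' (Fin.tail x)) : Fin (n + 1) → ℝ)) 𝒰 (𝓝 0) := by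
  refine tendsto_finCons (M14_lim0 h𝒰) ?_
  rw [Ultrafilter.coe_map, Filter.tendsto_map'_iff] at hs
  exact hs

theorem Res.of_tail {n : ℕ} {g : (Fin (n + 1) → ℝ) → ℝ} {𝒰 : Ultrafilter (Fin (n + 1) → ℝ)}
    (h𝒰 : (𝒰 : Filter (Fin (n + 1) → ℝ)) ≤ 𝓝 0) {ψ s' : (Fin n → ℝ) → (Fin n → ℝ)}
    (hψ : AnalyticAt ℝ ψ 0)
    (hs : Tendsto s' (𝒰.map (fun x => (Fin.tail x : Fin n → ℝ)) : Ultrafilter (Fin n → ℝ)) (𝓝 0))
    (hsec : ∀ᶠ y in ((𝒰.map (fun x => (Fin.tail x : Fin n → ℝ)) : Ultrafilter (Fin n → ℝ)) :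
      Filter (Fin n → ℝ)), ψ (s' y) = y)
    (h : Res (fun x : Fin (n + 1) → ℝ => g (Fin.cons (x 0) (ψ (Fin.tail x))))
      (𝒰.map (fun x : Fin (n + 1) → ℝ => (Fin.cons (x 0) (s' (Fin.tail x)) : Fin (n + 1) → ℝ)) :
        Ultrafilter (Fin (n + 1) → ℝ))) : Res g 𝒰 := by
  have hsec' : ∀ᶠ x in (𝒰 : Filter (Fin (n + 1) → ℝ)), ψ (s' (Fin.tail x)) = Fin.tail x := by
    rw [Ultrafilter.coe_map, Filter.eventually_map] at hsec
    exact hsec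
  refine Res.comp (φ := fun x : Fin (n + 1) → ℝ => (Fin.cons (x 0) (ψ (Fin.tail x)) : Fin (n + 1) → ℝ))
    (s := fun x : Fin (n + 1) → ℝ => (Fin.cons (x 0) (s' (Fin.tail x)) : Fin (n + 1) → ℝ)) h𝒰
    (M14_anaφ hψ) (M14_lims h𝒰 hs) ?_ h
  filter_upwards [hsec'] with x hx
  simp only [Fin.cons_zero, Fin.tail_cons, hx]
  exact Fin.cons_self_tail x

theorem res_unit_mul {n : ℕ} (hM : MonoAt n) (a : (Fin n → ℝ) → ℝ) (ha : AnalyticAt ℝ a 0)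
    (ha0 : ¬ ∀ᶠ x in 𝓝 (0 : Fin n → ℝ), a x = 0) (m : ℕ) (U : (Fin (n + 1) → ℝ) → ℝ)
    (hU : AnalyticAt ℝ U 0) (hU0 : U 0 ≠ 0) (𝒰 : Ultrafilter (Fin (n + 1) → ℝ))
    (h𝒰 : (𝒰 : Filter (Fin (n + 1) → ℝ)) ≤ 𝓝 0) :
    Res (fun x => a (Fin.tail x) * (x 0 ^ m * U x)) 𝒰 := by
  have hle : ((𝒰.map (fun x => (Fin.tail x : Fin n → ℝ)) : Ultrafilter (Fin n → ℝ)) :
      Filter (Fin n → ℝ)) ≤ 𝓝 0 := by
    rw [Ultrafilter.coe_map]
    exact ((continuous_tail.tendsto (0 : Fin (n + 1) → ℝ)).mono_left h𝒰)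
  obtain ⟨ψ, s', α, hψ, hs, hsec, hmon⟩ := hM a ha ha0 _ hle
  have hψ0 : ψ 0 = 0 := sec_zero hle hψ hs hsec
  refine Res.of_tail h𝒰 hψ hs hsec ?_
  have hφ0 : (Fin.cons ((0 : Fin (n + 1) → ℝ) 0) (ψ (Fin.tail (0 : Fin (n + 1) → ℝ))) :
      Fin (n + 1) → ℝ) = 0 := by
    have h1 : (Fin.tail (0 : Fin (n + 1) → ℝ) : Fin n → ℝ) = 0 := rfl
    rw [h1, hψ0]
    funext i
    refine Fin.cases ?_ (fun j => ?_) i
    · rfl
    · rfl
  have hUφ : AnalyticAt ℝ (fun x : Fin (n + 1) → ℝ => U (Fin.cons (x 0) (ψ (Fin.tail x)))) 0 := by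
    refine AnalyticAt.fun_comp (f := fun x : Fin (n + 1) → ℝ =>
      (Fin.cons (x 0) (ψ (Fin.tail x)) : Fin (n + 1) → ℝ)) ?_ (M14_anaφ hψ)
    rw [hφ0]
    exact hU
  have m1 := hmon.tail
  have m2 := (Mon.coord (0 : Fin (n + 1))).pow m
  have m3 : Mon (fun x : Fin (n + 1) → ℝ => U (Fin.cons (x 0) (ψ (Fin.tail x)))) (fun _ => 0) := by
    apply Mon.unit hUφ
    show U (Fin.cons ((0 : Fin (n + 1) → ℝ) 0) (ψ (Fin.tail (0 : Fin (n + 1) → ℝ)))) ≠ 0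
    rw [hφ0]
    exact hU0
  have m4 := m1.mul (m2.mul m3)
  have hle2 : ((𝒰.map (fun x : Fin (n + 1) → ℝ => (Fin.cons (x 0) (s' (Fin.tail x)) :
      Fin (n + 1) → ℝ)) : Ultrafilter (Fin (n + 1) → ℝ)) : Filter (Fin (n + 1) → ℝ)) ≤ 𝓝 0 := by
    rw [Ultrafilter.coe_map]
    exact M14_lims h𝒰 hs
  refine Mon.res (Mon.congr ?_ m4) hle2
  refine Filter.Eventually.of_forall fun x => ?_
  simp only [Fin.cons_zero, Fin.tail_cons, Function.comp_apply]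

theorem stepS_zero (n : ℕ) (hM : MonoAt n) : StepS n 0 := by
  intro a Q ha ha0 hQ hord 𝒰 h𝒰
  have hline : AnalyticAt ℝ (fun t : ℝ => Q (Fin.cons t (0 : Fin n → ℝ))) 0 := by
    have h0 : (Fin.cons (0 : ℝ) (0 : Fin n → ℝ) : Fin (n + 1) → ℝ) = 0 := by
      funext i
      refine Fin.cases ?_ (fun j => ?_) i
      · rfl
      · rfl
    refine AnalyticAt.fun_comp (f := fun t : ℝ => (Fin.cons t (0 : Fin n → ℝ) : Fin (n + 1) → ℝ)) ?_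
      (AnalyticAt.finCons analyticAt_id analyticAt_const)
    rw [h0]
    exact hQ
  have h1 : analyticOrderAt (fun t : ℝ => Q (Fin.cons t (0 : Fin n → ℝ))) 0 = 0 := by
    exact le_antisymm (by simpa using hord) (by simp)
  rw [hline.analyticOrderAt_eq_zero] at h1
  have h0 : (Fin.cons (0 : ℝ) (0 : Fin n → ℝ) : Fin (n + 1) → ℝ) = 0 := by
    funext i
    refine Fin.cases ?_ (fun j => ?_) i
    · rfl
    · rfl
  rw [h0] at h1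
  have h2 := res_unit_mul hM a ha ha0 0 Q hQ h1 𝒰 h𝒰
  refine Res.congr h𝒰 (Filter.Eventually.of_forall fun x => ?_) h2
  simp

end Pool.Agent.helper62.GF
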