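import Pool.Agent.helper62.GF.M08
import Pool.Agent.helper62.GF.M10
import Pool.Agent.helper62.GF.M13
import Pool.Agent.helper62.GF.M14

/-!
# GF-M15: the step `d → d + 1`

Let `a, Q, 𝒰` be as in `StepS n (d+1)`.  If the order on the axis is `≤ d` use `hS`.  Otherwise it is `d + 1`
and `shear` gives `τ, c, U`.  With `φ x = cons (x 0 + τ (tail x)) (tail x)`,
`s x = cons (x 0 - τ (tail x)) (tail x)` and `Res.comp` (and `Res.congr`) it suffices to resolve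
`a (tail x) * ((∑_{i<d} c i (tail x) (x 0)^i) + (x 0)^(d+1) U x)` along `𝒰.map s` (`≤ 𝓝 0`, `τ 0 = 0`).
If all `c i`, `i < d`, vanish near `0`: `Res.congr` and `res_unit_mul` (`m = d + 1`).
Otherwise `prep` for `a, c` and the ultrafilter `(𝒰.map s).map tail` gives `ψ, s', μ, β, c'`, and
`Res.of_tail` (+ `Res.congr`: near `0` the pulled back function equals
`Tfun n d (a ∘ ψ) β c' (fun x => U (cons (x 0) (ψ (tail x))))`) reduces to `stepT`.
-/

open Filter Topology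

namespace Pool.Agent.helper62.GF

private theorem M15_tail_zero {n : ℕ} :
    (Fin.tail (0 : Fin (n + 1) → ℝ) : Fin n → ℝ) = 0 := rfl

private theorem M15_tendsto_tail {n : ℕ} :
    Tendsto (fun x : Fin (n + 1) → ℝ => (Fin.tail x : Fin n → ℝ)) (𝓝 0) (𝓝 0) :=
  (continuous_tail (n := n)).tendsto' 0 0 M15_tail_zero

private theorem M15_tendsto_head {n : ℕ} :
    Tendsto (fun x : Fin (n + 1) → ℝ => x 0) (𝓝 0) (𝓝 0) :=
  (continuous_apply (0 : Fin (n + 1))).tendsto' 0 0 rfl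

private theorem M15_analytic_head {n : ℕ} (p : Fin (n + 1) → ℝ) :
    AnalyticAt ℝ (fun x : Fin (n + 1) → ℝ => x 0) p :=
  (ContinuousLinearMap.proj (R := ℝ) (φ := fun _ : Fin (n + 1) => ℝ) 0).analyticAt p

private theorem M15_analytic_tail {n : ℕ} {E : Type*} [NormedAddCommGroup E] [NormedSpace ℝ E]
    {f : (Fin n → ℝ) → E} (hf : AnalyticAt ℝ f 0) :
    AnalyticAt ℝ (fun x : Fin (n + 1) → ℝ => f (Fin.tail x)) 0 :=
  AnalyticAt.comp (g := f) (f := fun x : Fin (n + 1) → ℝ => (Fin.tail x : Fin n → ℝ))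
    (x := (0 : Fin (n + 1) → ℝ)) (by rw [M15_tail_zero]; exact hf) (analyticAt_tail 0)

private theorem M15_analytic_cons {n : ℕ} {U : (Fin (n + 1) → ℝ) → ℝ} (hU : AnalyticAt ℝ U 0)
    {φ : (Fin (n + 1) → ℝ) → (Fin (n + 1) → ℝ)} (hφ : AnalyticAt ℝ φ 0) (h0 : φ 0 = 0) :
    AnalyticAt ℝ (fun x => U (φ x)) 0 :=
  AnalyticAt.comp (g := U) (f := φ) (x := (0 : Fin (n + 1) → ℝ)) (by rw [h0]; exact hU) hφ

theorem stepS_succ (n d : ℕ) (hM : MonoAt n) (hS : StepS n d) : StepS n (d + 1) := by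
  intro a Q ha ha0 hQ hord 𝒰 h𝒰
  by_cases hle : analyticOrderAt (fun t : ℝ => Q (Fin.cons t (0 : Fin n → ℝ))) 0 ≤ (d : ℕ∞)
  · exact hS a Q ha ha0 hQ hle 𝒰 h𝒰
  have hord' : analyticOrderAt (fun t : ℝ => Q (Fin.cons t (0 : Fin n → ℝ))) 0 =
      ((d + 1 : ℕ) : ℕ∞) := by
    refine le_antisymm hord ?_
    push_cast
    exact Order.add_one_le_of_lt (not_le.1 hle)
  obtain ⟨τ, c, U, hτ, hτ0, hc, hU, hU0, hexp⟩ := shear d Q hQ hord'
  -- the shear
  set φ : (Fin (n + 1) → ℝ) → (Fin (n + 1) → ℝ) := fun x =>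
    Fin.cons (x 0 + τ (Fin.tail x)) (Fin.tail x) with hφdef
  set s : (Fin (n + 1) → ℝ) → (Fin (n + 1) → ℝ) := fun x =>
    Fin.cons (x 0 - τ (Fin.tail x)) (Fin.tail x) with hsdef
  have hφ : AnalyticAt ℝ φ 0 :=
    AnalyticAt.finCons ((M15_analytic_head 0).add (M15_analytic_tail hτ)) (analyticAt_tail 0)
  have hτt : Tendsto (fun x : Fin (n + 1) → ℝ => τ (Fin.tail x)) (𝓝 0) (𝓝 0) := by
    have h1 := hτ.continuousAt.tendsto
    rw [hτ0] at h1
    exact h1.comp M15_tendsto_tail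
  have hs : Tendsto s 𝒰 (𝓝 0) := by
    refine Tendsto.mono_left (tendsto_finCons ?_ M15_tendsto_tail) h𝒰
    simpa using M15_tendsto_head.sub hτt
  have hsec : ∀ᶠ x in (𝒰 : Filter (Fin (n + 1) → ℝ)), φ (s x) = x := by
    filter_upwards with x
    simp only [hφdef, hsdef, Fin.cons_zero, Fin.tail_cons, sub_add_cancel, Fin.cons_self_tail]
  refine Res.comp h𝒰 hφ hs hsec ?_
  have h𝒰1 : ((𝒰.map s : Ultrafilter (Fin (n + 1) → ℝ)) : Filter (Fin (n + 1) → ℝ)) ≤ 𝓝 0 := hs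
  by_cases hz : ∀ i < d, ∀ᶠ y in 𝓝 (0 : Fin n → ℝ), c i y = 0
  · refine Res.congr h𝒰1 ?_ (res_unit_mul hM a ha ha0 (d + 1) U hU hU0 _ h𝒰1)
    have h1 : ∀ᶠ x in 𝓝 (0 : Fin (n + 1) → ℝ), ∀ i ∈ Finset.range d,
        c i (Fin.tail x) = 0 := by
      rw [Filter.eventually_all_finset]
      intro i hi
      exact M15_tendsto_tail.eventually (hz i (Finset.mem_range.1 hi))
    filter_upwards [h1, hexp] with x hx1 hx2
    simp only [Function.comp, hφdef, Fin.tail_cons]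
    rw [hx2, Finset.sum_eq_zero (fun i hi => by rw [hx1 i hi, zero_mul]), zero_add]
  · have hz' : ∃ i < d, ¬ ∀ᶠ y in 𝓝 (0 : Fin n → ℝ), c i y = 0 := by
      by_contra hno
      exact hz fun i hi => by
        by_contra h
        exact hno ⟨i, hi, h⟩
    obtain ⟨ψ, s', μ, β, c', hψ, hψ0, hs', hsec', ha', hc', hc'0, hcc⟩ :=
      prep n d hM a ha ha0 c hc hz'
        ((𝒰.map s).map fun x : Fin (n + 1) → ℝ => (Fin.tail x : Fin n → ℝ))
        (M15_tendsto_tail.mono_left h𝒰1)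
    refine Res.of_tail h𝒰1 hψ hs' hsec' ?_
    have hψt : Tendsto ψ (𝓝 0) (𝓝 0) := by
      have h1 := hψ.continuousAt.tendsto
      rwa [hψ0] at h1
    have hcons : Tendsto (fun x : Fin (n + 1) → ℝ =>
        (Fin.cons (x 0) (ψ (Fin.tail x)) : Fin (n + 1) → ℝ)) (𝓝 0) (𝓝 0) :=
      tendsto_finCons M15_tendsto_head (hψt.comp M15_tendsto_tail)
    have hcons0 : (Fin.cons ((0 : Fin (n + 1) → ℝ) 0) (ψ (Fin.tail (0 : Fin (n + 1) → ℝ))) :
        Fin (n + 1) → ℝ) = 0 := by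
      rw [M15_tail_zero, hψ0]
      exact Fin.cons_self_tail (0 : Fin (n + 1) → ℝ)
    have hconsA : AnalyticAt ℝ (fun x : Fin (n + 1) → ℝ =>
        (Fin.cons (x 0) (ψ (Fin.tail x)) : Fin (n + 1) → ℝ)) 0 :=
      AnalyticAt.finCons (M15_analytic_head 0) (M15_analytic_tail hψ)
    have h𝒰2 : (((𝒰.map s).map (fun x : Fin (n + 1) → ℝ =>
        (Fin.cons (x 0) (s' (Fin.tail x)) : Fin (n + 1) → ℝ)) :
          Ultrafilter (Fin (n + 1) → ℝ)) : Filter (Fin (n + 1) → ℝ)) ≤ 𝓝 0 :=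
      tendsto_finCons (M15_tendsto_head.mono_left h𝒰1) hs'
    refine Res.congr h𝒰2 ?_ (stepT n d hS (a ∘ ψ) μ ha' β c' hc' hc'0
      (fun x => U (Fin.cons (x 0) (ψ (Fin.tail x)))) (M15_analytic_cons hU hconsA hcons0)
      (by rw [hcons0]; exact hU0) _ h𝒰2)
    have h1 : ∀ᶠ x in 𝓝 (0 : Fin (n + 1) → ℝ), ∀ i ∈ Finset.range d,
        c i (ψ (Fin.tail x)) =
          (∏ k, (Fin.tail x : Fin n → ℝ) k ^ ((d + 1 - i) * β k)) * c' i (Fin.tail x) := by
      rw [Filter.eventually_all_finset]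
      intro i hi
      exact M15_tendsto_tail.eventually (hcc i (Finset.mem_range.1 hi))
    filter_upwards [h1, hcons.eventually hexp] with x hx1 hx2
    simp only [Function.comp, hφdef, Fin.tail_cons, Fin.cons_zero, Tfun] at hx2 ⊢
    rw [hx2]
    congr 2
    exact Finset.sum_congr rfl fun i hi => by rw [hx1 i hi]

end Pool.Agent.helper62.GF
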