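import Pool.Agent.helper62.GF.M14
import Pool.Agent.helper62.GF.M15

/-!
# GF-M16: monomialization in every dimension

`line_order`: `g` is analytic on a ball around `0`; pick `p ≠ 0` in the ball with `g p ≠ 0` (the set of
points `≠ 0` is dense; `g` is not locally zero).  `t ↦ g (t • p)` is analytic on a connected open set
containing `[0,1]` and is nonzero at `t = 1`, so it is not locally zero at `t = 0`
(`AnalyticOnNhd.eqOn_zero_of_preconnected_of_eventuallyEq_zero` in dimension one): its order at `0` is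
finite.  Take a linear isomorphism `L` with `L (Pi.single 0 1) = p` (`p ≠ 0`; extend `p` to a basis, or
exchange coordinates), so `L (cons t 0) = t • p`.

`monomialization`: induction on `n`.  `n = 0`: every `x` is `0`; `g 0 ≠ 0`, `Mon g _` with the empty
product, `Mon.res`.  `n + 1`: `line_order`, then `Res.comp` with `φ = L`, `s = L.symm` and
`StepS n d` (from `stepS_zero`, `stepS_succ`) with `a = 1`, `Q = g ∘ L`.

author: helper59
-/

open Filter Topology

namespace Pool.Agent.helper62.GF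

theorem M16_cons_eq {n : ℕ} (t : ℝ) :
    (Fin.cons t (0 : Fin n → ℝ) : Fin (n + 1) → ℝ) = t • (Pi.single 0 1 : Fin (n + 1) → ℝ) := by
  funext i
  refine Fin.cases ?_ (fun j => ?_) i
  · simp
  · rw [Fin.cons_succ, Pi.smul_apply, Pi.single_eq_of_ne (Fin.succ_ne_zero j)]
    simp

theorem M16_line {E : Type*} [NormedAddCommGroup E] [NormedSpace ℝ E] (g : E → ℝ) {r : ℝ}
    (hr : AnalyticOnNhd ℝ g (Metric.ball 0 r)) {p : E} (hp : p ∈ Metric.ball (0 : E) r)
    (hgp : g p ≠ 0) : ∃ d : ℕ, analyticOrderAt (fun t : ℝ => g (t • p)) 0 = (d : ℕ∞) := by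
  have hr0 : 0 < r := by
    have := Metric.mem_ball.1 hp
    exact lt_of_le_of_lt dist_nonneg this
  have hne : analyticOrderAt (fun t : ℝ => g (t • p)) 0 ≠ ⊤ := by
    intro htop
    rw [analyticOrderAt_eq_top] at htop
    have hU : Convex ℝ {t : ℝ | t • p ∈ Metric.ball (0 : E) r} := by
      intro s hs t ht a b ha hb hab
      have := (convex_ball (0 : E) r) hs ht ha hb hab
      show (a • s + b • t) • p ∈ Metric.ball (0 : E) r
      rw [add_smul, smul_eq_mul, smul_eq_mul, mul_smul, mul_smul]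
      exact this
    have hlin : ∀ t : ℝ, AnalyticAt ℝ (fun t : ℝ => t • p) t := fun t =>
      ((ContinuousLinearMap.id ℝ ℝ).smulRight p).analyticAt t
    have han : AnalyticOnNhd ℝ (fun t : ℝ => g (t • p)) {t : ℝ | t • p ∈ Metric.ball (0 : E) r} :=
      fun t ht => AnalyticAt.comp (g := g) (f := fun t : ℝ => t • p) (hr _ ht) (hlin t)
    have h0 : (0 : ℝ) ∈ {t : ℝ | t • p ∈ Metric.ball (0 : E) r} := by
      show (0 : ℝ) • p ∈ Metric.ball (0 : E) r
      rw [zero_smul]
      exact Metric.mem_ball_self hr0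
    have h1 : (1 : ℝ) ∈ {t : ℝ | t • p ∈ Metric.ball (0 : E) r} := by
      show (1 : ℝ) • p ∈ Metric.ball (0 : E) r
      rw [one_smul]
      exact hp
    have h2 := han.eqOn_zero_of_preconnected_of_eventuallyEq_zero hU.isPreconnected h0 htop h1
    apply hgp
    have h3 : g ((1 : ℝ) • p) = 0 := h2
    rwa [one_smul] at h3
  obtain ⟨d, hd⟩ := ENat.ne_top_iff_exists.1 hne
  exact ⟨d, hd.symm⟩

theorem line_order (n : ℕ) (g : (Fin (n + 1) → ℝ) → ℝ) (hg : AnalyticAt ℝ g 0)
    (hne : ¬ ∀ᶠ x in 𝓝 (0 : Fin (n + 1) → ℝ), g x = 0) :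
    ∃ (L : (Fin (n + 1) → ℝ) ≃L[ℝ] (Fin (n + 1) → ℝ)) (d : ℕ),
      analyticOrderAt (fun t : ℝ => g (L (Fin.cons t (0 : Fin n → ℝ)))) 0 = (d : ℕ∞) := by
  obtain ⟨r, hr, hra⟩ := hg.exists_ball_analyticOnNhd
  have hfr : ∃ᶠ x in 𝓝 (0 : Fin (n + 1) → ℝ), g x ≠ 0 := not_eventually.1 hne
  obtain ⟨q, hq1, hq2⟩ := (hfr.and_eventually (Metric.ball_mem_nhds _ hr)).exists
  -- a nonzero point with nonzero value
  obtain ⟨p, hp0, hpb, hgp⟩ : ∃ p : Fin (n + 1) → ℝ, p ≠ 0 ∧ p ∈ Metric.ball 0 r ∧ g p ≠ 0 := by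
    by_cases hq0 : q = 0
    · subst hq0
      have hev : ∀ᶠ t : ℝ in 𝓝 0, g (t • (Pi.single 0 1 : Fin (n + 1) → ℝ)) ≠ 0 ∧
          t • (Pi.single 0 1 : Fin (n + 1) → ℝ) ∈ Metric.ball 0 r := by
        have hc : Tendsto (fun t : ℝ => t • (Pi.single 0 1 : Fin (n + 1) → ℝ)) (𝓝 0) (𝓝 0) := by
          have : Tendsto (fun t : ℝ => t • (Pi.single 0 1 : Fin (n + 1) → ℝ)) (𝓝 0)
              (𝓝 ((0 : ℝ) • (Pi.single 0 1 : Fin (n + 1) → ℝ))) :=
            (continuous_id.smul continuous_const).tendsto 0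
          rwa [zero_smul] at this
        exact (hc.eventually (hg.continuousAt.eventually_ne hq1)).and
          (hc.eventually (Metric.ball_mem_nhds _ hr))
      obtain ⟨t, ht, ht0⟩ := ((hev.filter_mono nhdsWithin_le_nhds).and
        (self_mem_nhdsWithin : {x : ℝ | x ≠ 0} ∈ 𝓝[≠] (0 : ℝ))).exists
      refine ⟨t • (Pi.single 0 1 : Fin (n + 1) → ℝ), ?_, ht.2, ht.1⟩
      intro h0
      have h1 := congrFun h0 0
      simp only [Pi.smul_apply, Pi.single_eq_same, smul_eq_mul, mul_one, Pi.zero_apply] at h1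
      exact ht0 h1
    · exact ⟨q, hq0, hq2, hq1⟩
  have hs0 : (Pi.single 0 1 : Fin (n + 1) → ℝ) ≠ 0 := by
    intro h0
    have h1 := congrFun h0 0
    simp at h1
  obtain ⟨L, hL⟩ := SeparatingDual.exists_continuousLinearEquiv_apply_eq (R := ℝ) hs0 hp0
  obtain ⟨d, hd⟩ := M16_line g hra hpb hgp
  refine ⟨L, d, ?_⟩
  have he : (fun t : ℝ => g (L (Fin.cons t (0 : Fin n → ℝ)))) = fun t : ℝ => g (t • p) := by
    funext t
    rw [M16_cons_eq, map_smul, hL]
  rw [he]
  exact hd

theorem stepS_all (n : ℕ) (hM : MonoAt n) (d : ℕ) : StepS n d := by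
  induction d with
  | zero => exact stepS_zero n hM
  | succ d ih => exact stepS_succ n d hM ih

theorem monomialization (n : ℕ) : MonoAt n := by
  induction n with
  | zero =>
    intro g hg hne 𝒰 h𝒰
    have h0 : g 0 ≠ 0 := by
      intro h0
      apply hne
      exact Eventually.of_forall fun x => by rw [Subsingleton.elim x 0, h0]
    exact (Mon.unit hg h0).res h𝒰
  | succ n ih =>
    intro g hg hne 𝒰 h𝒰
    obtain ⟨L, d, hd⟩ := line_order n g hg hne
    have hLa : ∀ x, AnalyticAt ℝ (fun x => L x) x := fun x =>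
      (L : (Fin (n + 1) → ℝ) →L[ℝ] (Fin (n + 1) → ℝ)).analyticAt x
    have hs : Tendsto (fun x => L.symm x) (𝒰 : Filter (Fin (n + 1) → ℝ)) (𝓝 0) := by
      have := (L.symm.continuous.tendsto 0).mono_left h𝒰
      rwa [map_zero] at this
    refine Res.comp (φ := fun x => L x) (s := fun x => L.symm x) h𝒰 (hLa 0) hs
      (Eventually.of_forall fun x => L.apply_symm_apply x) ?_
    have hQ : AnalyticAt ℝ (fun x => g (L x)) 0 :=
      AnalyticAt.comp (g := g) (f := fun x => L x) (by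
        show AnalyticAt ℝ g (L 0)
        rw [map_zero]
        exact hg) (hLa 0)
    have h1 := stepS_all n ih d (fun _ => 1) (fun x => g (L x)) analyticAt_const (by
      intro h
      obtain ⟨x, hx⟩ := h.exists
      exact one_ne_zero hx) hQ hd.le (𝒰.map fun x => L.symm x) hs
    have h2 : (fun x : Fin (n + 1) → ℝ => (fun _ : Fin n → ℝ => (1 : ℝ)) (Fin.tail x) * g (L x)) =
        g ∘ fun x => L x := by
      funext x
      simp
    rw [h2] at h1
    exact h1

end Pool.Agent.helper62.GF
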