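import Pool.Agent.helper62.GF.M05
import Pool.Agent.helper62.GF.M16

/-!
# GF-M17: charts for functions on Euclidean space, and the compactness principle

`pred_of_ultra`: otherwise `∃ᶠ x in 𝓝 x₀, ¬ Pred m x` for all `m`; by monotonicity the filter
`𝓝 x₀ ⊓ ⨅ m, 𝓟 {x | ¬ Pred m x}` is nontrivial; take an ultrafilter below it.

`chart_setup`: apply `monomialization n` to
`g y = (∏ i, G i (toLp y)) * (∏ j, y j) * (∑ j, y j ^ 2)` and the ultrafilter `𝒰.map ofLp`; every factor is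
analytic and not locally zero (for `∑ y j ^ 2` when `n = 0`: then everything is about the one point
space; `∑ = 0`!, so treat `n = 0` separately or use the hypothesis `hn : 1 ≤ n`).  The components are
monomial by `Mon.factor`/`Mon.factor_prod`, and `φ 0 = 0` by `sec_zero`.  (`‖toLp y‖^2 = ∑ y j ^ 2`:
`EuclideanSpace.norm_sq_eq`.)

author: helper59
-/

open Filter Topology

namespace Pool.Agent.helper62.GF

theorem pred_of_ultra {X : Type*} [TopologicalSpace X] (x₀ : X) (Pred : ℕ → X → Prop)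
    (mono : ∀ m m' x, m ≤ m' → Pred m x → Pred m' x)
    (h : ∀ 𝒰 : Ultrafilter X, (𝒰 : Filter X) ≤ 𝓝 x₀ → ∃ m, ∀ᶠ x in (𝒰 : Filter X), Pred m x) :
    ∃ m, ∀ᶠ x in 𝓝 x₀, Pred m x := by
  by_contra hcon
  rw [not_exists] at hcon
  have h1 : ∀ m, (𝓝 x₀ ⊓ 𝓟 {x | ¬ Pred m x}).NeBot := fun m =>
    frequently_iff_neBot.1 (not_eventually.1 (hcon m))
  have hanti : ∀ m m', m ≤ m' →
      𝓝 x₀ ⊓ 𝓟 {x | ¬ Pred m' x} ≤ 𝓝 x₀ ⊓ 𝓟 {x | ¬ Pred m x} := fun m m' hm =>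
    inf_le_inf_left _ (principal_mono.2 fun x hx hp => hx (mono m m' x hm hp))
  have hdir : Directed (· ≥ ·) fun m => 𝓝 x₀ ⊓ 𝓟 {x | ¬ Pred m x} := fun a b =>
    ⟨max a b, hanti _ _ (le_max_left a b), hanti _ _ (le_max_right a b)⟩
  have h2 : (⨅ m, 𝓝 x₀ ⊓ 𝓟 {x | ¬ Pred m x}).NeBot := iInf_neBot_of_directed' hdir h1
  have hle : ∀ m, ((Ultrafilter.of (⨅ m, 𝓝 x₀ ⊓ 𝓟 {x | ¬ Pred m x}) : Ultrafilter X) : Filter X) ≤
      𝓝 x₀ ⊓ 𝓟 {x | ¬ Pred m x} := fun m => (Ultrafilter.of_le _).trans (iInf_le _ m)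
  obtain ⟨m, hm⟩ := h _ ((hle 0).trans inf_le_left)
  have h3 : ∀ᶠ x in ((Ultrafilter.of (⨅ m, 𝓝 x₀ ⊓ 𝓟 {x | ¬ Pred m x}) : Ultrafilter X) : Filter X),
      ¬ Pred m x := (hle m).trans inf_le_right (mem_principal_self _)
  obtain ⟨x, hx1, hx2⟩ := (hm.and h3).exists
  exact hx2 hx1

theorem chart_setup {n : ℕ} (hn : 1 ≤ n) {k : ℕ} (G : Fin k → EuclideanSpace ℝ (Fin n) → ℝ)
    (hG : ∀ i, AnalyticAt ℝ (G i) 0)
    (hG0 : ∀ i, ¬ ∀ᶠ x in 𝓝 (0 : EuclideanSpace ℝ (Fin n)), G i x = 0)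
    (𝒰 : Ultrafilter (EuclideanSpace ℝ (Fin n)))
    (h𝒰 : (𝒰 : Filter (EuclideanSpace ℝ (Fin n))) ≤ 𝓝 0) :
    ∃ (φ : (Fin n → ℝ) → EuclideanSpace ℝ (Fin n)) (s : EuclideanSpace ℝ (Fin n) → (Fin n → ℝ)),
      AnalyticAt ℝ φ 0 ∧ φ 0 = 0 ∧ Tendsto s 𝒰 (𝓝 0) ∧
      (∀ᶠ x in (𝒰 : Filter (EuclideanSpace ℝ (Fin n))), φ (s x) = x) ∧
      (∀ i, ∃ α, Mon (fun v => G i (φ v)) α) ∧ (∀ j : Fin n, ∃ β, Mon (fun v => φ v j) β) ∧
      ∃ ρ, Mon (fun v => ‖φ v‖ ^ 2) ρ := by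
  set e : EuclideanSpace ℝ (Fin n) ≃L[ℝ] (Fin n → ℝ) := EuclideanSpace.equiv (Fin n) ℝ with he
  have hei : ∀ (x : EuclideanSpace ℝ (Fin n)) (j : Fin n), e x j = x j := fun x j => rfl
  have hse : ∀ (y : Fin n → ℝ) (j : Fin n), e.symm y j = y j := fun y j => rfl
  have hsa : ∀ y, AnalyticAt ℝ (fun y => e.symm y) y := fun y =>
    (e.symm : (Fin n → ℝ) →L[ℝ] EuclideanSpace ℝ (Fin n)).analyticAt y
  have hs0 : e.symm 0 = 0 := map_zero _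
  have hproj : ∀ (j : Fin n) (y : Fin n → ℝ), AnalyticAt ℝ (fun y : Fin n → ℝ => y j) y :=
    fun j y => (ContinuousLinearMap.proj j : (Fin n → ℝ) →L[ℝ] ℝ).analyticAt y
  have hGa : ∀ i, AnalyticAt ℝ (fun y => G i (e.symm y)) 0 := fun i =>
    AnalyticAt.comp (g := G i) (f := fun y => e.symm y) (by
      show AnalyticAt ℝ (G i) (e.symm 0)
      rw [hs0]
      exact hG i) (hsa 0)
  have hGne : ∀ i, ¬ ∀ᶠ y in 𝓝 (0 : Fin n → ℝ), G i (e.symm y) = 0 := by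
    intro i hi
    apply hG0 i
    have ht : Tendsto e (𝓝 0) (𝓝 0) := by
      have := e.continuous.tendsto 0
      rwa [map_zero] at this
    filter_upwards [ht.eventually hi] with x hx
    rwa [ContinuousLinearEquiv.symm_apply_apply] at hx
  have hcne : ∀ j : Fin n, ¬ ∀ᶠ y in 𝓝 (0 : Fin n → ℝ), y j = 0 := fun j => (Mon.coord j).ne_zero
  have hsne : ¬ ∀ᶠ y in 𝓝 (0 : Fin n → ℝ), ∑ j, y j ^ 2 = 0 := by
    intro h0
    apply hcne ⟨0, hn⟩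
    filter_upwards [h0] with y hy
    have := (Finset.sum_eq_zero_iff_of_nonneg (fun j _ => sq_nonneg (y j))).1 hy ⟨0, hn⟩
      (Finset.mem_univ _)
    exact pow_eq_zero_iff (two_ne_zero) |>.1 this
  have hPa : AnalyticAt ℝ (fun y => ∏ i, G i (e.symm y)) (0 : Fin n → ℝ) :=
    Finset.analyticAt_fun_prod _ fun i _ => hGa i
  have hPc : AnalyticAt ℝ (fun y => ∏ j, y j) (0 : Fin n → ℝ) :=
    Finset.analyticAt_fun_prod _ fun j _ => hproj j 0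
  have hPs : AnalyticAt ℝ (fun y => ∑ j, y j ^ 2) (0 : Fin n → ℝ) :=
    Finset.analyticAt_fun_sum _ fun j _ => (hproj j 0).pow 2
  have hne : ¬ ∀ᶠ y in 𝓝 (0 : Fin n → ℝ),
      ((∏ i, G i (e.symm y)) * ∏ j, y j) * ∑ j, y j ^ 2 = 0 :=
    germ_mul_ne (hPa.mul hPc) hPs (germ_mul_ne hPa hPc
      (germ_prod_ne _ (fun i _ => hGa i) fun i _ => hGne i)
      (germ_prod_ne _ (fun j _ => hproj j 0) fun j _ => hcne j)) hsne
  have hmap : ((𝒰.map e : Ultrafilter (Fin n → ℝ)) : Filter (Fin n → ℝ)) ≤ 𝓝 0 := by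
    have ht : Tendsto e 𝒰 (𝓝 0) := by
      have := (e.continuous.tendsto 0).mono_left h𝒰
      rwa [map_zero] at this
    exact ht
  obtain ⟨φ, s, α, hφ, hs, hsec, hmon⟩ := monomialization n _ ((hPa.mul hPc).mul hPs) hne
    (𝒰.map e) hmap
  have hφ0 : φ 0 = 0 := sec_zero hmap hφ hs hsec
  have hcomp : ∀ {f : (Fin n → ℝ) → ℝ}, AnalyticAt ℝ f 0 → AnalyticAt ℝ (fun v => f (φ v)) 0 := by
    intro f hf
    exact AnalyticAt.comp (g := f) (f := φ) (by rw [hφ0]; exact hf) hφ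
  have hmon' : Mon (fun v => ((∏ i, G i (e.symm (φ v))) * ∏ j, φ v j) * ∑ j, φ v j ^ 2) α := hmon
  obtain ⟨β, hβ⟩ := hmon'.factor ((hcomp hPa).mul (hcomp hPc)) (hcomp hPs)
  obtain ⟨γ, hγ⟩ := hβ.factor (hcomp hPa) (hcomp hPc)
  have hβ' : Mon (fun v => (∏ j, φ v j) * ∏ i, G i (e.symm (φ v))) β :=
    hβ.congr (Eventually.of_forall fun v => mul_comm _ _)
  obtain ⟨δ, hδ⟩ := hβ'.factor (hcomp hPc) (hcomp hPa)
  have hmon'' : Mon (fun v => (∑ j, φ v j ^ 2) * ((∏ i, G i (e.symm (φ v))) * ∏ j, φ v j)) α :=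
    hmon'.congr (Eventually.of_forall fun v => mul_comm _ _)
  obtain ⟨ρ, hρ⟩ := hmon''.factor (hcomp hPs) ((hcomp hPa).mul (hcomp hPc))
  refine ⟨fun v => e.symm (φ v), fun x => s (e x), ?_, ?_, ?_, ?_, fun i => ?_, fun j => ?_, ρ, ?_⟩
  · exact AnalyticAt.comp (g := fun y => e.symm y) (f := φ) (hsa _) hφ
  · show e.symm (φ 0) = 0
    rw [hφ0, hs0]
  · exact hs
  · have h5 : ∀ᶠ x in (𝒰 : Filter (EuclideanSpace ℝ (Fin n))), φ (s (e x)) = e x := hsec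
    filter_upwards [h5] with x hx
    rw [hx, ContinuousLinearEquiv.symm_apply_apply]
  · exact hγ.factor_prod Finset.univ (fun i _ => hcomp (hGa i)) i (Finset.mem_univ i)
  · exact hδ.factor_prod Finset.univ (fun j _ => hcomp (hproj j 0)) j (Finset.mem_univ j)
  · refine hρ.congr (Eventually.of_forall fun v => ?_)
    rw [EuclideanSpace.real_norm_sq_eq]
    rfl

end Pool.Agent.helper62.GF
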