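import Pool.Agent.helper62.GF.KDefs
import Pool.Agent.helper62.GF.M17

/-!
# GF-K01: elementary facts on `rad, nrm, tang`; logarithmic derivatives; reduction to charts

`tang_ortho`: for `x ≠ 0`, `ξ ≠ 0` orthogonal: Bessel/Pythagoras for the two orthogonal unit vectors
`x/‖x‖`, `ξ/‖ξ‖`: `(rad/‖x‖)² + ⟪∇f, ξ/‖ξ‖⟫² ≤ ‖∇f‖²`, multiply by `‖x‖²`.

`Mon.logDeriv`: `f = (∏ v i ^ α i) * ε` near `0`, hence also derivatives agree near `0`;
`v_k ∂_k (∏ v i ^ α i) = α k ∏ v i ^ α i`, so `v_k ∂_k f - α k f = (∏ …) v_k ∂_k ε`, and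
`|∂_k ε| ≤ C |ε|` near `0` (`ε 0 ≠ 0`, `fderiv ε` continuous at `0`).

`ev_of_charts`: `pred_of_ultra` with `x₀ = 0`; for an ultrafilter use `chart_setup` (choose the exponents),
`h` gives `m` with `∀ᶠ v in 𝓝 0, Pred m (φ v)`, and `s → 0` along `𝒰`, `φ (s x) = x`.
-/

open Filter Topology

namespace Pool.Agent.helper62.GF

variable {n : ℕ}

theorem rad_abs_le (f : EE n → ℝ) (x : EE n) : |rad f x| ≤ nrm f x := by
  unfold rad nrm
  rw [mul_comm]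
  exact abs_real_inner_le_norm _ _

theorem nrm_nonneg (f : EE n → ℝ) (x : EE n) : 0 ≤ nrm f x :=
  mul_nonneg (norm_nonneg _) (norm_nonneg _)

theorem tang_nonneg (f : EE n → ℝ) (x : EE n) : 0 ≤ tang f x := Real.sqrt_nonneg _

theorem nrm_sq (f : EE n → ℝ) (x : EE n) : nrm f x ^ 2 = tang f x ^ 2 + rad f x ^ 2 := by
  unfold tang
  rw [Real.sq_sqrt]
  · ring
  · have h := rad_abs_le f x
    have h1 : rad f x ^ 2 ≤ nrm f x ^ 2 := by
      rw [← sq_abs (rad f x)]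
      exact pow_le_pow_left₀ (abs_nonneg _) h 2
    linarith

theorem tang_le_nrm (f : EE n → ℝ) (x : EE n) : tang f x ≤ nrm f x := by
  refine (abs_le_of_sq_le_sq' ?_ (nrm_nonneg f x)).2
  rw [nrm_sq]
  nlinarith [sq_nonneg (rad f x)]

theorem tang_ortho (f : EE n → ℝ) (x ξ : EE n) (h : inner ℝ x ξ = 0) :
    ‖x‖ * |inner ℝ (gradient f x) ξ| ≤ tang f x * ‖ξ‖ := by
  by_cases hx : x = 0
  · rw [hx, norm_zero, zero_mul]
    exact mul_nonneg (tang_nonneg _ _) (norm_nonneg _)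
  have hx' : 0 < ‖x‖ := norm_pos_iff.2 hx
  set g := gradient f x with hg
  set w : EE n := (‖x‖ ^ 2) • g - (inner ℝ g x : ℝ) • x with hw
  have h1 : (inner ℝ w ξ : ℝ) = ‖x‖ ^ 2 * inner ℝ g ξ := by
    rw [hw, inner_sub_left, inner_smul_left, inner_smul_left, h]
    simp
  have h2 : ‖w‖ ^ 2 = (‖x‖ * tang f x) ^ 2 := by
    have h3 : ‖w‖ ^ 2 = ‖x‖ ^ 2 * (‖x‖ ^ 2 * ‖g‖ ^ 2 - (inner ℝ g x : ℝ) ^ 2) := by
      rw [hw, norm_sub_sq_real, norm_smul, norm_smul, inner_smul_left, inner_smul_right]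
      simp only [Real.norm_eq_abs, conj_trivial, mul_pow, sq_abs]
      ring
    have h4 : tang f x ^ 2 = ‖x‖ ^ 2 * ‖g‖ ^ 2 - (inner ℝ g x : ℝ) ^ 2 := by
      have := nrm_sq f x
      unfold nrm rad at this
      rw [← hg] at this
      linarith [mul_pow ‖x‖ ‖g‖ 2]
    rw [h3, mul_pow, h4]
  have h5 : ‖w‖ = ‖x‖ * tang f x := by
    have h6 : 0 ≤ ‖x‖ * tang f x := mul_nonneg hx'.le (tang_nonneg _ _)
    exact (sq_eq_sq₀ (norm_nonneg _) h6).1 h2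
  have h7 := abs_real_inner_le_norm w ξ
  rw [h1, h5, abs_mul, abs_of_nonneg (sq_nonneg _)] at h7
  have h8 : ‖x‖ * (‖x‖ * |(inner ℝ g ξ : ℝ)|) ≤ ‖x‖ * (tang f x * ‖ξ‖) := by
    calc ‖x‖ * (‖x‖ * |(inner ℝ g ξ : ℝ)|) = ‖x‖ ^ 2 * |(inner ℝ g ξ : ℝ)| := by ring
      _ ≤ ‖x‖ * tang f x * ‖ξ‖ := h7
      _ = ‖x‖ * (tang f x * ‖ξ‖) := by ring
  exact le_of_mul_le_mul_left h8 hx'

private theorem monomial_line (α : Fin n → ℕ) (v : Fin n → ℝ) (k : Fin n) :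
    v k * fderiv ℝ (fun x : Fin n → ℝ => ∏ i, x i ^ α i) v (Pi.single k 1) =
      α k * ∏ i, v i ^ α i := by
  classical
  have hd : DifferentiableAt ℝ (fun x : Fin n → ℝ => ∏ i, x i ^ α i) v := by fun_prop
  have hl : HasDerivAt (fun t : ℝ => v + t • (Pi.single k 1 : Fin n → ℝ))
      ((1 : ℝ) • (Pi.single k 1 : Fin n → ℝ)) 0 :=
    ((hasDerivAt_id (0 : ℝ)).smul_const (Pi.single k 1 : Fin n → ℝ)).const_add v
  have hd' : HasFDerivAt (fun x : Fin n → ℝ => ∏ i, x i ^ α i)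
      (fderiv ℝ (fun x : Fin n → ℝ => ∏ i, x i ^ α i) v)
      (v + (0 : ℝ) • (Pi.single k 1 : Fin n → ℝ)) := by
    rw [zero_smul, add_zero]
    exact hd.hasFDerivAt
  have h1 := hd'.comp_hasDerivAt (0 : ℝ) hl
  have h2 : HasDerivAt (fun t : ℝ => (v k + t) ^ α k * ∏ i ∈ Finset.univ.erase k, v i ^ α i)
      (((α k : ℝ) * (v k + 0) ^ (α k - 1) * 1) * ∏ i ∈ Finset.univ.erase k, v i ^ α i) 0 :=
    (((hasDerivAt_id (0 : ℝ)).const_add (v k)).pow (α k)).mul_const _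
  have h3 : ((fun x : Fin n → ℝ => ∏ i, x i ^ α i) ∘ fun t : ℝ =>
      v + t • (Pi.single k 1 : Fin n → ℝ)) =
      fun t : ℝ => (v k + t) ^ α k * ∏ i ∈ Finset.univ.erase k, v i ^ α i := by
    funext t
    simp only [Function.comp]
    rw [← Finset.mul_prod_erase _ _ (Finset.mem_univ k)]
    congr 1
    · simp
    · refine Finset.prod_congr rfl fun i hi => ?_
      have hik : i ≠ k := Finset.ne_of_mem_erase hi
      simp [hik]
  rw [h3] at h1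
  have h4 := h1.unique h2
  rw [one_smul] at h4
  rw [h4, ← Finset.mul_prod_erase _ _ (Finset.mem_univ k), add_zero, mul_one]
  rcases Nat.eq_zero_or_pos (α k) with h5 | h5
  · rw [h5]
    simp
  · obtain ⟨m, hm⟩ : ∃ m, α k = m + 1 := ⟨α k - 1, by omega⟩
    rw [hm, Nat.add_sub_cancel, pow_succ]
    ring

theorem Mon.logDeriv {f : (Fin n → ℝ) → ℝ} {α : Fin n → ℕ} (hf : Mon f α) :
    ∃ C : ℝ, 0 ≤ C ∧ ∀ᶠ v in 𝓝 (0 : Fin n → ℝ), ∀ k : Fin n,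
      |v k * fderiv ℝ f v (Pi.single k 1) - α k * f v| ≤ C * |v k| * |f v| := by
  obtain ⟨ε, hε, hε0, he⟩ := hf
  have hpos : 0 < |ε 0| := abs_pos.2 hε0
  refine ⟨(‖fderiv ℝ ε 0‖ + 1) / (|ε 0| / 2), by positivity, ?_⟩
  have h1 : ∀ᶠ v in 𝓝 (0 : Fin n → ℝ), ‖fderiv ℝ ε v‖ < ‖fderiv ℝ ε 0‖ + 1 :=
    (hε.fderiv.continuousAt.norm).eventually_lt continuousAt_const (lt_add_one _)
  have h2 : ∀ᶠ v in 𝓝 (0 : Fin n → ℝ), |ε 0| / 2 < |ε v| :=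
    continuousAt_const.eventually_lt hε.continuousAt.abs (by linarith)
  filter_upwards [h1, h2, eventually_eventually_nhds.2 he, hε.eventually_analyticAt] with v h3 h4 h5
    h6 k
  have h7 : f =ᶠ[𝓝 v] fun x => (∏ i, x i ^ α i) * ε x := h5
  have hd1 : DifferentiableAt ℝ (fun x : Fin n → ℝ => ∏ i, x i ^ α i) v := by fun_prop
  have h8 : fderiv ℝ f v = (∏ i, v i ^ α i) • fderiv ℝ ε v +
      ε v • fderiv ℝ (fun x : Fin n → ℝ => ∏ i, x i ^ α i) v := by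
    rw [h7.fderiv_eq]
    exact fderiv_mul hd1 h6.differentiableAt
  have h9 := monomial_line α v k
  have hfv : f v = (∏ i, v i ^ α i) * ε v := h7.self_of_nhds
  have h10 : v k * fderiv ℝ f v (Pi.single k 1) - α k * f v =
      v k * ((∏ i, v i ^ α i) * fderiv ℝ ε v (Pi.single k 1)) := by
    rw [h8, hfv]
    simp only [_root_.add_apply, _root_.smul_apply, smul_eq_mul]
    linear_combination ε v * h9
  have h11 : |fderiv ℝ ε v (Pi.single k 1)| ≤ ‖fderiv ℝ ε 0‖ + 1 := by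
    have h12 := (fderiv ℝ ε v).le_opNorm (Pi.single k 1)
    have h13 : ‖(Pi.single k 1 : Fin n → ℝ)‖ = 1 := by
      rw [Pi.norm_single, norm_one]
    rw [h13, mul_one, Real.norm_eq_abs] at h12
    exact h12.trans h3.le
  have h14 : |fderiv ℝ ε v (Pi.single k 1)| ≤ (‖fderiv ℝ ε 0‖ + 1) / (|ε 0| / 2) * |ε v| := by
    refine h11.trans ?_
    rw [div_mul_eq_mul_div, le_div_iff₀ (by positivity)]
    exact mul_le_mul_of_nonneg_left h4.le (by positivity)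
  rw [h10, abs_mul, abs_mul, hfv, abs_mul]
  calc |v k| * (|∏ i, v i ^ α i| * |fderiv ℝ ε v (Pi.single k 1)|)
      ≤ |v k| * (|∏ i, v i ^ α i| * ((‖fderiv ℝ ε 0‖ + 1) / (|ε 0| / 2) * |ε v|)) := by
        exact mul_le_mul_of_nonneg_left (mul_le_mul_of_nonneg_left h14 (abs_nonneg _))
          (abs_nonneg _)
    _ = (‖fderiv ℝ ε 0‖ + 1) / (|ε 0| / 2) * |v k| * (|∏ i, v i ^ α i| * |ε v|) := by ring

theorem IsChart.rho_ne {φ : (Fin n → ℝ) → EE n} {ρ : Fin n → ℕ} {β : Fin n → Fin n → ℕ}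
    (h : IsChart φ ρ β) : ∃ k, 1 ≤ ρ k := by
  by_contra hcon
  push Not at hcon
  have h1 : ρ = fun _ => 0 := by
    funext k
    have := hcon k
    omega
  have h2 := h.sq.apply_zero_ne h1
  rw [h.zero] at h2
  simp at h2

theorem ev_of_charts (hn : 1 ≤ n) {k : ℕ} (G : Fin k → EE n → ℝ) (hG : ∀ i, AnalyticAt ℝ (G i) 0)
    (hG0 : ∀ i, ¬ ∀ᶠ x in 𝓝 (0 : EE n), G i x = 0) (Pred : ℕ → EE n → Prop)
    (mono : ∀ m m' x, m ≤ m' → Pred m x → Pred m' x)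
    (h : ∀ (φ : (Fin n → ℝ) → EE n) (ρ : Fin n → ℕ) (β : Fin n → Fin n → ℕ), IsChart φ ρ β →
      (∀ i, ∃ α, Mon (fun v => G i (φ v)) α) →
      ∃ m, ∀ᶠ v in 𝓝 (0 : Fin n → ℝ), Pred m (φ v)) :
    ∃ m, ∀ᶠ x in 𝓝 (0 : EE n), Pred m x := by
  refine pred_of_ultra 0 Pred mono fun 𝒰 h𝒰 => ?_
  obtain ⟨φ, s, hφ, hφ0, hs, hsec, hmon, hco, ρ, hρ⟩ := chart_setup hn G hG hG0 𝒰 h𝒰
  choose β hβ using hco
  obtain ⟨m, hm⟩ := h φ ρ β ⟨hφ, hφ0, hρ, hβ⟩ hmon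
  refine ⟨m, ?_⟩
  filter_upwards [hs.eventually hm, hsec] with x h1 h2
  rwa [h2] at h1

end Pool.Agent.helper62.GF
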