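import Pool.Agent.helper62.GF.K01

/-!
# GF-K02: the key estimate in a chart

Put `D_k φ = v_k • fderiv ℝ φ v e_k` (`e_k = Pi.single k 1`).  For `φ v ≠ 0` let
`κ = ⟪φ v, D_k φ⟫ / ‖φ v‖²`.  Then `v_k ∂_k ‖φ‖² = 2 ⟪φ, D_k φ⟫ = 2 κ ‖φ‖²` and by `Mon.logDeriv` for
`‖φ‖²` (nonzero) `|2 κ - ρ k| ≤ C |v k|`.
Let `ξ = D_k φ - κ • φ v`, orthogonal to `φ v`.  By the chain rule (`f` differentiable at `φ v` for `v` near `0`,
`φ 0 = 0`) `v_k ∂_k (f ∘ φ) = ⟪∇f, D_k φ⟫ = κ * rad f (φ v) + ⟪∇f, ξ⟫`, and by `tang_ortho`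
`|⟪∇f, ξ⟫| ≤ tang * ‖ξ‖ / ‖φ v‖`.
Components: `ξ_j = (β j k - κ) φ_j + O(|v_k|) |φ_j|` (`Mon.logDeriv` for `φ_j`), and
`|β j k - κ| ≤ (β j k - ρ k / 2) + C |v k|` where `2 β j k ≥ ρ k` because `φ_j² ≤ ‖φ‖²`
(`Mon.le_of_bound` with `Mon.pow`).  If `2 β j k = ρ k` this gives `|ξ_j| ≤ C |v_k| ‖φ‖`.  If
`2 β j k ≥ ρ k + 1`: `φ_j² = |∏ v^{2 β j}| ε²`, `‖φ‖² = |∏ v^ρ| |ε_ρ|`, so
`φ_j² ≤ C |∏ v^{2 β j - ρ}| ‖φ‖² ≤ C |v_k| ‖φ‖²` for `|v_i| ≤ 1`: `|φ_j| ≤ C |v_k|^{1/2} ‖φ‖`.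
Altogether `‖ξ‖ ≤ C |v_k|^{1/2} ‖φ v‖` (use `|v_k| ≤ |v_k|^{1/2}`).
-/

open Filter Topology

namespace Pool.Agent.helper62.GF

variable {n : ℕ}

theorem IsChart.two_beta {φ : (Fin n → ℝ) → EE n} {ρ : Fin n → ℕ} {β : Fin n → Fin n → ℕ}
    (h : IsChart φ ρ β) (j k : Fin n) : ρ k ≤ 2 * β j k := by
  have h1 := Mon.le_of_bound ((h.co j).pow 2) h.sq 1 (Eventually.of_forall fun v => by
    rw [one_mul, abs_pow, abs_of_nonneg (sq_nonneg ‖φ v‖)]
    have h2 : |φ v j| ≤ ‖φ v‖ := by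
      have := PiLp.norm_apply_le (φ v) j
      rwa [Real.norm_eq_abs] at this
    exact pow_le_pow_left₀ (abs_nonneg _) h2 2)
  exact h1 k

private theorem K02_dom {A B : (Fin n → ℝ) → ℝ} {α γ : Fin n → ℕ} (hA : Mon A α) (hB : Mon B γ)
    (hle : ∀ i, γ i ≤ α i) (k : Fin n) (hk : γ k + 1 ≤ α k) :
    ∃ C : ℝ, 0 ≤ C ∧ ∀ᶠ v in 𝓝 (0 : Fin n → ℝ), |A v| ≤ C * |v k| * |B v| := by
  classical
  obtain ⟨a, ha, ha0, hav⟩ := hA
  obtain ⟨b, hb, hb0, hbv⟩ := hB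
  have hb0' : 0 < |b 0| := abs_pos.2 hb0
  refine ⟨(|a 0| + 1) * (2 / |b 0|), by positivity, ?_⟩
  have e1 : ∀ᶠ v in 𝓝 (0 : Fin n → ℝ), |a v| < |a 0| + 1 :=
    (ha.continuousAt.abs).eventually_lt continuousAt_const (by simp)
  have e2 : ∀ᶠ v in 𝓝 (0 : Fin n → ℝ), |b 0| / 2 < |b v| :=
    continuousAt_const.eventually_lt (hb.continuousAt.abs) (by linarith)
  have e3 : ∀ᶠ v in 𝓝 (0 : Fin n → ℝ), ‖v‖ < 1 :=
    (continuous_norm.continuousAt).eventually_lt continuousAt_const (by simp)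
  filter_upwards [hav, hbv, e1, e2, e3] with v h1 h2 h3 h4 h5
  have hv : ∀ i, |v i| ≤ 1 := fun i => by
    have := norm_le_pi_norm v i
    rw [Real.norm_eq_abs] at this
    linarith
  have h6 : (∏ i, |v i| ^ α i) ≤ |v k| * ∏ i, |v i| ^ γ i := by
    have h7 : (∏ i, |v i| ^ α i) = (∏ i, |v i| ^ γ i) * ∏ i, |v i| ^ (α i - γ i) := by
      rw [← Finset.prod_mul_distrib]
      refine Finset.prod_congr rfl fun i _ => ?_
      rw [← pow_add, Nat.add_sub_cancel' (hle i)]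
    have h8 : (∏ i, |v i| ^ (α i - γ i)) ≤ |v k| := by
      rw [← Finset.mul_prod_erase Finset.univ _ (Finset.mem_univ k)]
      have h9 : |v k| ^ (α k - γ k) ≤ |v k| := by
        obtain ⟨m, hm⟩ : ∃ m, α k - γ k = m + 1 := ⟨α k - γ k - 1, by omega⟩
        rw [hm, pow_succ]
        have : |v k| ^ m ≤ 1 := pow_le_one₀ (abs_nonneg _) (hv k)
        nlinarith [abs_nonneg (v k)]
      have h10 : (∏ i ∈ Finset.univ.erase k, |v i| ^ (α i - γ i)) ≤ 1 :=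
        Finset.prod_le_one (fun i _ => pow_nonneg (abs_nonneg _) _)
          fun i _ => pow_le_one₀ (abs_nonneg _) (hv i)
      have h11 : 0 ≤ (∏ i ∈ Finset.univ.erase k, |v i| ^ (α i - γ i)) :=
        Finset.prod_nonneg fun i _ => pow_nonneg (abs_nonneg _) _
      calc |v k| ^ (α k - γ k) * (∏ i ∈ Finset.univ.erase k, |v i| ^ (α i - γ i))
          ≤ |v k| * 1 := mul_le_mul h9 h10 h11 (abs_nonneg _)
        _ = |v k| := mul_one _
    rw [h7, mul_comm]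
    exact mul_le_mul_of_nonneg_right h8 (Finset.prod_nonneg fun i _ => pow_nonneg (abs_nonneg _) _)
  have h12 : |A v| = (∏ i, |v i| ^ α i) * |a v| := by
    rw [h1, abs_mul, Finset.abs_prod]
    simp only [abs_pow]
  have h13 : |B v| = (∏ i, |v i| ^ γ i) * |b v| := by
    rw [h2, abs_mul, Finset.abs_prod]
    simp only [abs_pow]
  have h14 : 0 ≤ ∏ i, |v i| ^ γ i := Finset.prod_nonneg fun i _ => pow_nonneg (abs_nonneg _) _
  have h15 : 1 ≤ 2 / |b 0| * |b v| := by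
    rw [div_mul_eq_mul_div, le_div_iff₀ hb0']
    linarith
  rw [h12, h13]
  calc (∏ i, |v i| ^ α i) * |a v| ≤ (|v k| * ∏ i, |v i| ^ γ i) * (|a 0| + 1) :=
        mul_le_mul h6 h3.le (abs_nonneg _) (by positivity)
    _ = ((|v k| * ∏ i, |v i| ^ γ i) * (|a 0| + 1)) * 1 := (mul_one _).symm
    _ ≤ ((|v k| * ∏ i, |v i| ^ γ i) * (|a 0| + 1)) * (2 / |b 0| * |b v|) :=
        mul_le_mul_of_nonneg_left h15 (by positivity)
    _ = (|a 0| + 1) * (2 / |b 0|) * |v k| * ((∏ i, |v i| ^ γ i) * |b v|) := by ring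

private theorem K02_comp {φ : (Fin n → ℝ) → EE n} {ρ : Fin n → ℕ} {β : Fin n → Fin n → ℕ}
    (h : IsChart φ ρ β) (C₁ : ℝ) (hC₁ : 0 ≤ C₁) (j : Fin n) :
    ∃ C : ℝ, 0 ≤ C ∧ ∀ᶠ v in 𝓝 (0 : Fin n → ℝ), ∀ (k : Fin n) (κ : ℝ),
      |κ - (ρ k : ℝ) / 2| ≤ C₁ * |v k| →
      |v k * fderiv ℝ (fun w => φ w j) v (Pi.single k 1) - κ * φ v j| ≤
        C * Real.sqrt |v k| * ‖φ v‖ := by
  classical
  obtain ⟨C₂, hC₂, hlog⟩ := (h.co j).logDeriv
  have hD : ∀ k : Fin n, ∃ D : ℝ, 0 ≤ D ∧ ∀ᶠ v in 𝓝 (0 : Fin n → ℝ), 2 * β j k ≠ ρ k →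
      |φ v j| ≤ D * Real.sqrt |v k| * ‖φ v‖ := by
    intro k
    by_cases hk : 2 * β j k = ρ k
    · exact ⟨0, le_rfl, Eventually.of_forall fun v hv => absurd hk hv⟩
    · have h2b := h.two_beta j
      obtain ⟨C, hC, hev⟩ := K02_dom ((h.co j).pow 2) h.sq h2b k (by
        have := h2b k
        show ρ k + 1 ≤ 2 * β j k
        omega)
      refine ⟨Real.sqrt C, Real.sqrt_nonneg _, ?_⟩
      filter_upwards [hev] with v hv _
      have h3 : |φ v j| ^ 2 ≤ (Real.sqrt C * Real.sqrt |v k| * ‖φ v‖) ^ 2 := by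
        rw [mul_pow, mul_pow, Real.sq_sqrt hC, Real.sq_sqrt (abs_nonneg _)]
        rwa [abs_pow, abs_of_nonneg (sq_nonneg ‖φ v‖)] at hv
      exact le_of_sq_le_sq h3 (by positivity)
  choose D hD0 hD using hD
  refine ⟨C₂ + C₁ + ∑ k, (β j k : ℝ) * D k, ?_, ?_⟩
  · have : 0 ≤ ∑ k, (β j k : ℝ) * D k :=
      Finset.sum_nonneg fun k _ => mul_nonneg (Nat.cast_nonneg _) (hD0 k)
    linarith
  have e3 : ∀ᶠ v in 𝓝 (0 : Fin n → ℝ), ‖v‖ < 1 :=
    (continuous_norm.continuousAt).eventually_lt continuousAt_const (by simp)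
  filter_upwards [hlog, eventually_all.2 hD, e3] with v h1 h2 h3 k κ hκ
  have hv : |v k| ≤ 1 := by
    have := norm_le_pi_norm v k
    rw [Real.norm_eq_abs] at this
    linarith
  have hsq : |v k| ≤ Real.sqrt |v k| := by
    have h4 := Real.sq_sqrt (abs_nonneg (v k))
    have h5 : Real.sqrt |v k| ≤ 1 := Real.sqrt_le_one.2 hv
    nlinarith [Real.sqrt_nonneg |v k|]
  have hφj : |φ v j| ≤ ‖φ v‖ := by
    have := PiLp.norm_apply_le (φ v) j
    rwa [Real.norm_eq_abs] at this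
  have hs0 : 0 ≤ Real.sqrt |v k| := Real.sqrt_nonneg _
  have hn0 : 0 ≤ ‖φ v‖ := norm_nonneg _
  -- the three parts
  have p1 : |v k * fderiv ℝ (fun w => φ w j) v (Pi.single k 1) - β j k * φ v j| ≤
      C₂ * Real.sqrt |v k| * ‖φ v‖ := by
    refine (h1 k).trans ?_
    exact mul_le_mul (mul_le_mul_of_nonneg_left hsq hC₂) hφj (abs_nonneg _) (by positivity)
  have p2 : |κ - (ρ k : ℝ) / 2| * |φ v j| ≤ C₁ * Real.sqrt |v k| * ‖φ v‖ := by
    refine mul_le_mul (hκ.trans (mul_le_mul_of_nonneg_left hsq hC₁)) hφj (abs_nonneg _)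
      (by positivity)
  have p3 : |(β j k : ℝ) - (ρ k : ℝ) / 2| * |φ v j| ≤
      (∑ k, (β j k : ℝ) * D k) * Real.sqrt |v k| * ‖φ v‖ := by
    have hsum : (β j k : ℝ) * D k ≤ ∑ k, (β j k : ℝ) * D k :=
      Finset.single_le_sum (f := fun k => (β j k : ℝ) * D k)
        (fun k _ => mul_nonneg (Nat.cast_nonneg _) (hD0 k)) (Finset.mem_univ k)
    have h2b : (ρ k : ℝ) ≤ 2 * β j k := by exact_mod_cast h.two_beta j k
    by_cases hk : 2 * β j k = ρ k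
    · have h6 : (β j k : ℝ) - (ρ k : ℝ) / 2 = 0 := by
        have : (2 : ℝ) * β j k = ρ k := by exact_mod_cast hk
        linarith
      rw [h6, abs_zero, zero_mul]
      have h7 : 0 ≤ (β j k : ℝ) * D k := mul_nonneg (Nat.cast_nonneg _) (hD0 k)
      exact mul_nonneg (mul_nonneg (h7.trans hsum) hs0) hn0
    · have h8 : |(β j k : ℝ) - (ρ k : ℝ) / 2| ≤ β j k := by
        rw [abs_of_nonneg (by linarith)]
        have : (0 : ℝ) ≤ ρ k := Nat.cast_nonneg _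
        linarith
      calc |(β j k : ℝ) - (ρ k : ℝ) / 2| * |φ v j|
          ≤ β j k * (D k * Real.sqrt |v k| * ‖φ v‖) :=
            mul_le_mul h8 (h2 k hk) (abs_nonneg _) (Nat.cast_nonneg _)
        _ = (β j k * D k) * (Real.sqrt |v k| * ‖φ v‖) := by ring
        _ ≤ (∑ k, (β j k : ℝ) * D k) * (Real.sqrt |v k| * ‖φ v‖) :=
            mul_le_mul_of_nonneg_right hsum (mul_nonneg hs0 hn0)
        _ = _ := by ring
  have h9 : v k * fderiv ℝ (fun w => φ w j) v (Pi.single k 1) - κ * φ v j =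
      (v k * fderiv ℝ (fun w => φ w j) v (Pi.single k 1) - β j k * φ v j) -
        (κ - (ρ k : ℝ) / 2) * φ v j + ((β j k : ℝ) - (ρ k : ℝ) / 2) * φ v j := by ring
  rw [h9]
  refine (abs_add_le _ _).trans ?_
  refine (add_le_add_left (abs_sub _ _) _).trans ?_
  rw [abs_mul, abs_mul]
  linarith

theorem chart_key (f : EE n → ℝ) (hf : AnalyticAt ℝ f 0) (φ : (Fin n → ℝ) → EE n) (ρ : Fin n → ℕ)
    (β : Fin n → Fin n → ℕ) (h : IsChart φ ρ β) :
    ∃ C : ℝ, 0 ≤ C ∧ ∀ᶠ v in 𝓝 (0 : Fin n → ℝ), φ v ≠ 0 → ∀ k : Fin n, ∃ κ : ℝ,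
      |κ - (ρ k : ℝ) / 2| ≤ C * |v k| ∧
      v k * fderiv ℝ (fun w => ‖φ w‖ ^ 2) v (Pi.single k 1) = 2 * κ * ‖φ v‖ ^ 2 ∧
      |v k * fderiv ℝ (fun w => f (φ w)) v (Pi.single k 1) - κ * rad f (φ v)| ≤
        C * Real.sqrt |v k| * tang f (φ v) := by
  classical
  obtain ⟨C₁, hC₁, hlog⟩ := h.sq.logDeriv
  have hc := fun j => K02_comp h C₁ hC₁ j
  choose D hD0 hD using hc
  set S : ℝ := ∑ j, D j with hS
  have hS0 : 0 ≤ S := Finset.sum_nonneg fun j _ => hD0 j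
  refine ⟨C₁ + S, by positivity, ?_⟩
  have hdφ : ∀ᶠ v in 𝓝 (0 : Fin n → ℝ), DifferentiableAt ℝ φ v :=
    h.an.eventually_analyticAt.mono fun v hv => hv.differentiableAt
  have hφt : Tendsto φ (𝓝 0) (𝓝 0) := by
    have := h.an.continuousAt.tendsto
    rwa [h.zero] at this
  have hdf : ∀ᶠ v in 𝓝 (0 : Fin n → ℝ), DifferentiableAt ℝ f (φ v) :=
    hφt.eventually (hf.eventually_analyticAt.mono fun v hv => hv.differentiableAt)
  filter_upwards [hlog, eventually_all.2 hD, hdφ, hdf] with v h1 h2 h3 h4 hne k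
  have hn0 : 0 < ‖φ v‖ := norm_pos_iff.2 hne
  set w : EE n := fderiv ℝ φ v (Pi.single k 1) with hw
  have hP : fderiv ℝ (fun w => ‖φ w‖ ^ 2) v (Pi.single k 1) = 2 * inner ℝ (φ v) w := by
    have := h3.hasFDerivAt.norm_sq
    rw [this.fderiv]
    simp [hw]
  have hF : fderiv ℝ (fun w => f (φ w)) v (Pi.single k 1) = inner ℝ (gradient f (φ v)) w := by
    have h5 : HasFDerivAt (fun w => f (φ w)) ((fderiv ℝ f (φ v)).comp (fderiv ℝ φ v)) v :=
      h4.hasFDerivAt.comp v h3.hasFDerivAt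
    rw [h5.fderiv]
    simp [hw, gradient]
  set κ : ℝ := v k * inner ℝ (φ v) w / ‖φ v‖ ^ 2 with hκ
  have hκ1 : v k * inner ℝ (φ v) w = κ * ‖φ v‖ ^ 2 := by
    rw [hκ, div_mul_cancel₀]
    positivity
  have hκ2 : |κ - (ρ k : ℝ) / 2| ≤ C₁ * |v k| := by
    have h6 := h1 k
    rw [hP] at h6
    have h7 : v k * (2 * inner ℝ (φ v) w) - ρ k * ‖φ v‖ ^ 2 =
        2 * (κ - (ρ k : ℝ) / 2) * ‖φ v‖ ^ 2 := by
      linear_combination 2 * hκ1
    rw [h7, abs_mul, abs_mul, abs_of_nonneg (sq_nonneg ‖φ v‖), abs_two] at h6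
    have h8 : 2 * |κ - (ρ k : ℝ) / 2| ≤ C₁ * |v k| :=
      le_of_mul_le_mul_right h6 (by positivity)
    have := abs_nonneg (κ - (ρ k : ℝ) / 2)
    linarith
  refine ⟨κ, hκ2.trans ?_, ?_, ?_⟩
  · exact mul_le_mul_of_nonneg_right (by linarith) (abs_nonneg _)
  · rw [hP]
    linear_combination 2 * hκ1
  · set ξ : EE n := v k • w - κ • φ v with hξ
    have hort : inner ℝ (φ v) ξ = 0 := by
      rw [hξ, inner_sub_right, inner_smul_right, inner_smul_right, real_inner_self_eq_norm_sq]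
      linear_combination hκ1
    have h9 := tang_ortho f (φ v) ξ hort
    have hcj : ∀ j, fderiv ℝ (fun w => φ w j) v (Pi.single k 1) = w j := by
      intro j
      have h10 : HasFDerivAt (fun w => φ w j)
          ((EuclideanSpace.proj j : EE n →L[ℝ] ℝ).comp (fderiv ℝ φ v)) v :=
        (EuclideanSpace.proj j : EE n →L[ℝ] ℝ).hasFDerivAt.comp v h3.hasFDerivAt
      rw [h10.fderiv]
      rfl
    have hξj : ∀ j, |ξ j| ≤ D j * Real.sqrt |v k| * ‖φ v‖ := by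
      intro j
      have h11 := h2 j k κ hκ2
      rw [hcj j] at h11
      exact h11
    have hξn : ‖ξ‖ ≤ S * Real.sqrt |v k| * ‖φ v‖ := by
      have h12 : ‖ξ‖ ≤ ∑ j, |ξ j| := by
        have h16 := (EuclideanSpace.basisFun (Fin n) ℝ).sum_repr ξ
        calc ‖ξ‖ = ‖∑ j, (EuclideanSpace.basisFun (Fin n) ℝ).repr ξ j •
              EuclideanSpace.basisFun (Fin n) ℝ j‖ := by rw [h16]
          _ ≤ ∑ j, ‖(EuclideanSpace.basisFun (Fin n) ℝ).repr ξ j •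
              EuclideanSpace.basisFun (Fin n) ℝ j‖ := norm_sum_le _ _
          _ = ∑ j, |ξ j| := by
            refine Finset.sum_congr rfl fun j _ => ?_
            rw [norm_smul, OrthonormalBasis.norm_eq_one, mul_one, Real.norm_eq_abs]
            rfl
      refine h12.trans ((Finset.sum_le_sum fun j _ => hξj j).trans (le_of_eq ?_))
      rw [hS, Finset.sum_mul, Finset.sum_mul]
    have h13 : v k * fderiv ℝ (fun w => f (φ w)) v (Pi.single k 1) - κ * rad f (φ v) =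
        inner ℝ (gradient f (φ v)) ξ := by
      rw [hF, hξ, inner_sub_right, inner_smul_right, inner_smul_right, rad]
    rw [h13]
    have h14 : ‖φ v‖ * |inner ℝ (gradient f (φ v)) ξ| ≤
        ‖φ v‖ * (S * Real.sqrt |v k| * tang f (φ v)) := by
      refine h9.trans ?_
      have h15 := mul_le_mul_of_nonneg_left hξn (tang_nonneg f (φ v))
      refine h15.trans (le_of_eq ?_)
      ring
    refine (le_of_mul_le_mul_left h14 hn0).trans ?_
    refine mul_le_mul_of_nonneg_right (mul_le_mul_of_nonneg_right (by linarith)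
      (Real.sqrt_nonneg _)) (tang_nonneg f (φ v))

end Pool.Agent.helper62.GF
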