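import Pool.Agent.helper62.GF.K02

/-!
# GF-K03: the two Lojasiewicz inequalities

If `f` vanishes near `0` both are trivial (`0 ^ (1 - 1/2) = 0`).  Otherwise `n ≥ 1` (for `n = 0` the point `0`
is the whole space and `f 0 = 0`), and use `ev_of_charts` with `k = 1`, `G = ![f]` and the predicates
`Pred m x : 2 ≤ m ∧ (|f x| ≤ 1 → |f x| ^ (1 - 1/m) ≤ m * ‖∇f x‖)` resp. `Pred m x : |f x| ≤ m * nrm f x`
(monotone in `m`; start at `max m 2`).
In a chart: `Mon (f ∘ φ) α`, `α ≠ 0` since `f (φ 0) = f 0 = 0`.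
(i) For each `k` with `α k ≥ 1`: by `Mon.logDeriv`, `|f| ≤ 2 |v_k| |∂_k (f ∘ φ)| ≤ C |v_k| ‖∇f(φ v)‖` near
`0` (chain rule, `fderiv φ` bounded near `0`).  Raise to the power `α k` and multiply over `k` (`α k = 0`:
trivial factor `1`): with `a = ∑ α k ≥ 1`: `|f|^a ≤ C^a (∏ |v_k|^{α k}) ‖∇f‖^a ≤ C' |f| ‖∇f‖^a`
(`|f| = ∏ |v_k|^{α k} |ε|`).  If `f (φ v) ≠ 0` divide: `|f|^{a-1} ≤ C' ‖∇f‖^a`, hence
`|f|^{1-1/a} ≤ C'' ‖∇f‖` and for `m ≥ max a 2` and `|f| ≤ 1`: `|f|^{1-1/m} ≤ |f|^{1-1/a}`.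
If `f (φ v) = 0` the left side is `0` (`m ≥ 2`).
(ii) As in K02 `‖D_k φ‖ ≤ C ‖φ v‖` (`D_k φ = v_k ∂_k φ`; each component `|v_k ∂_k φ_j| ≤ C |φ_j|` by
`Mon.logDeriv`), so for a `k` with `α k ≥ 1`: `|f| ≤ 2 |v_k ∂_k (f ∘ φ)| = 2 |⟪∇f, D_k φ⟫| ≤ C ‖φ v‖ ‖∇f‖`.
-/

open Filter Topology

namespace Pool.Agent.helper62.GF

variable {n : ℕ}

/-- chain rule along a chart -/
theorem K03_chain (f : EE n → ℝ) (hf : AnalyticAt ℝ f 0) (φ : (Fin n → ℝ) → EE n)
    (hφ : AnalyticAt ℝ φ 0) (h0 : φ 0 = 0) :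
    ∀ᶠ v in 𝓝 (0 : Fin n → ℝ), DifferentiableAt ℝ φ v ∧
      ∀ w, fderiv ℝ (fun v => f (φ v)) v w = inner ℝ (gradient f (φ v)) (fderiv ℝ φ v w) := by
  have h1 : ∀ᶠ v in 𝓝 (0 : Fin n → ℝ), AnalyticAt ℝ φ v := hφ.eventually_analyticAt
  have h2 : ∀ᶠ v in 𝓝 (0 : Fin n → ℝ), AnalyticAt ℝ f (φ v) := by
    have h3 : Tendsto φ (𝓝 0) (𝓝 0) := by
      have := hφ.continuousAt.tendsto
      rwa [h0] at this
    exact h3.eventually hf.eventually_analyticAt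
  filter_upwards [h1, h2] with v hv1 hv2
  refine ⟨hv1.differentiableAt, fun w => ?_⟩
  have h4 : fderiv ℝ (fun v => f (φ v)) v = (fderiv ℝ f (φ v)).comp (fderiv ℝ φ v) :=
    fderiv_comp v hv2.differentiableAt hv1.differentiableAt
  rw [h4]
  unfold gradient
  rw [InnerProductSpace.toDual_symm_apply]
  rfl

theorem K03_half {h : (Fin n → ℝ) → ℝ} {α : Fin n → ℕ} (hh : Mon h α) :
    ∀ᶠ v in 𝓝 (0 : Fin n → ℝ), ∀ k, 1 ≤ α k →
      |h v| ≤ 2 * |v k * fderiv ℝ h v (Pi.single k 1)| := by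
  obtain ⟨C, hC, hev⟩ := Mon.logDeriv hh
  have h1 : ∀ᶠ v in 𝓝 (0 : Fin n → ℝ), ∀ k, C * |v k| ≤ 1 / 2 := by
    rw [eventually_all]
    intro k
    have h2 : Tendsto (fun v : Fin n → ℝ => C * |v k|) (𝓝 0) (𝓝 (C * |(0 : Fin n → ℝ) k|)) :=
      Continuous.tendsto (by fun_prop) 0
    rw [Pi.zero_apply, abs_zero, mul_zero] at h2
    exact (h2.eventually (gt_mem_nhds (by norm_num : (0 : ℝ) < 1 / 2))).mono fun v hv => hv.le
  filter_upwards [hev, h1] with v h2 h3 k hk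
  have h4 := h2 k
  have h5 : |α k * h v| ≤ |v k * fderiv ℝ h v (Pi.single k 1)| + C * |v k| * |h v| := by
    have := abs_sub_abs_le_abs_sub (α k * h v) (v k * fderiv ℝ h v (Pi.single k 1))
    rw [abs_sub_comm] at this
    linarith
  rw [abs_mul, Nat.abs_cast] at h5
  have h6 : (1 : ℝ) ≤ α k := by exact_mod_cast hk
  have h7 := mul_le_mul_of_nonneg_right (h3 k) (abs_nonneg (h v))
  have h8 := mul_le_mul_of_nonneg_right h6 (abs_nonneg (h v))
  linarith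

/-- (i) in a chart -/
theorem K03_grad_chart (f : EE n → ℝ) (hf : AnalyticAt ℝ f 0) (hf0 : f 0 = 0)
    (φ : (Fin n → ℝ) → EE n) (hφ : AnalyticAt ℝ φ 0) (h0 : φ 0 = 0) {α : Fin n → ℕ}
    (hα : Mon (fun v => f (φ v)) α) :
    ∃ m : ℕ, ∀ᶠ v in 𝓝 (0 : Fin n → ℝ), 2 ≤ m ∧ (|f (φ v)| ≤ 1 →
      |f (φ v)| ^ (1 - 1 / (m : ℝ)) ≤ m * ‖gradient f (φ v)‖) := by
  -- the exponent is not zero
  have hne : α ≠ fun _ => 0 := fun h => hα.apply_zero_ne h (by
    show f (φ 0) = 0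
    rw [h0, hf0])
  set a : ℕ := ∑ i, α i with ha
  have ha1 : 1 ≤ a := by
    by_contra hc
    have h1 : ∑ i, α i = 0 := by omega
    rw [Finset.sum_eq_zero_iff] at h1
    exact hne (funext fun i => h1 i (Finset.mem_univ i))
  have ha0 : (0 : ℝ) < a := by exact_mod_cast ha1
  -- bound for the derivative of the chart
  obtain ⟨B, hB1, hB⟩ : ∃ B : ℝ, 1 ≤ B ∧ ∀ᶠ v in 𝓝 (0 : Fin n → ℝ), ‖fderiv ℝ φ v‖ ≤ B := by
    have h1 : ContinuousAt (fun v => ‖fderiv ℝ φ v‖) 0 := hφ.fderiv.continuousAt.norm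
    refine ⟨‖fderiv ℝ φ 0‖ + 1, by linarith [norm_nonneg (fderiv ℝ φ 0)], ?_⟩
    exact (h1.eventually (gt_mem_nhds (by linarith : ‖fderiv ℝ φ 0‖ < ‖fderiv ℝ φ 0‖ + 1))).mono
      fun v hv => hv.le
  obtain ⟨ε, hε, hε0, hfac⟩ := hα
  have hε0' : 0 < |ε 0| := abs_pos.2 hε0
  have hlow : ∀ᶠ v in 𝓝 (0 : Fin n → ℝ), |ε 0| / 2 < |ε v| :=
    hε.continuousAt.abs.eventually (lt_mem_nhds (by linarith))
  set D : ℝ := 2 * B with hD
  have hD0 : 0 < D := by linarith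
  set e0 : ℝ := |ε 0| / 2 with he0
  have he0' : 0 < e0 := by positivity
  set C₁ : ℝ := D ^ a / e0 with hC₁
  have hC₁0 : 0 < C₁ := by positivity
  obtain ⟨m, hm⟩ := exists_nat_ge (max (max (a : ℝ) 2) (C₁ ^ (1 / (a : ℝ))))
  have hma : (a : ℝ) ≤ m := le_trans (le_trans (le_max_left _ _) (le_max_left _ _)) hm
  have hm2 : (2 : ℝ) ≤ m := le_trans (le_trans (le_max_right _ _) (le_max_left _ _)) hm
  have hmC : C₁ ^ (1 / (a : ℝ)) ≤ m := le_trans (le_max_right _ _) hm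
  refine ⟨m, ?_⟩
  filter_upwards [K03_chain f hf φ hφ h0, K03_half ⟨ε, hε, hε0, hfac⟩, hB, hfac, hlow]
    with v hchain hhalf hBv hfv hlv
  refine ⟨by exact_mod_cast hm2, fun hle => ?_⟩
  set g : ℝ := |f (φ v)| with hg
  set G : ℝ := ‖gradient f (φ v)‖ with hG
  have hG0 : 0 ≤ G := norm_nonneg _
  have hg0 : 0 ≤ g := abs_nonneg _
  -- one coordinate
  have hone : ∀ k, 1 ≤ α k → g ≤ D * |v k| * G := by
    intro k hk
    have h1 := hhalf k hk
    rw [hchain.2, abs_mul] at h1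
    have h2 : |inner ℝ (gradient f (φ v)) (fderiv ℝ φ v (Pi.single k 1))| ≤ G * B := by
      refine (abs_real_inner_le_norm _ _).trans (mul_le_mul_of_nonneg_left ?_ hG0)
      refine (ContinuousLinearMap.le_opNorm _ _).trans ?_
      have h3 : ‖(Pi.single k 1 : Fin n → ℝ)‖ ≤ 1 := by
        rw [pi_norm_le_iff_of_nonneg zero_le_one]
        intro i
        by_cases hi : i = k
        · subst hi; simp
        · simp [hi]
      calc ‖fderiv ℝ φ v‖ * ‖(Pi.single k 1 : Fin n → ℝ)‖ ≤ B * 1 :=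
            mul_le_mul hBv h3 (norm_nonneg _) (by linarith)
        _ = B := mul_one B
    have h4 := mul_le_mul_of_nonneg_left h2 (abs_nonneg (v k))
    calc g ≤ 2 * (|v k| * |inner ℝ (gradient f (φ v)) (fderiv ℝ φ v (Pi.single k 1))|) := h1
      _ ≤ 2 * (|v k| * (G * B)) := by linarith
      _ = D * |v k| * G := by rw [hD]; ring
  have hpow : ∀ k ∈ (Finset.univ : Finset (Fin n)), g ^ α k ≤ (D * |v k| * G) ^ α k := by
    intro k _
    by_cases hk : 1 ≤ α k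
    · exact pow_le_pow_left₀ hg0 (hone k hk) _
    · have h1 : α k = 0 := by omega
      rw [h1, pow_zero, pow_zero]
  have hprod : g ^ a ≤ D ^ a * (∏ i, |v i| ^ α i) * G ^ a := by
    have h1 : g ^ a = ∏ k, g ^ α k := by rw [Finset.prod_pow_eq_pow_sum]
    have h2 : ∏ k, (D * |v k| * G) ^ α k = D ^ a * (∏ i, |v i| ^ α i) * G ^ a := by
      have h3 : ∀ k, (D * |v k| * G) ^ α k = D ^ α k * |v k| ^ α k * G ^ α k := fun k => by
        rw [mul_pow, mul_pow]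
      simp only [h3]
      rw [Finset.prod_mul_distrib, Finset.prod_mul_distrib, Finset.prod_pow_eq_pow_sum,
        Finset.prod_pow_eq_pow_sum]
    rw [h1, ← h2]
    exact Finset.prod_le_prod (fun k _ => pow_nonneg hg0 _) hpow
  have hgfac : g = (∏ i, |v i| ^ α i) * |ε v| := by
    have h1 : f (φ v) = (∏ i, v i ^ α i) * ε v := hfv
    rw [hg, h1, abs_mul, Finset.abs_prod]
    simp only [abs_pow]
  have hP0 : 0 ≤ ∏ i, |v i| ^ α i := Finset.prod_nonneg fun i _ => pow_nonneg (abs_nonneg _) _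
  have hPle : ∏ i, |v i| ^ α i ≤ g / e0 := by
    rw [le_div_iff₀ he0', hgfac]
    exact mul_le_mul_of_nonneg_left hlv.le hP0
  have hexp1 : (0 : ℝ) ≤ 1 - 1 / (a : ℝ) := by
    rw [sub_nonneg, div_le_one ha0]
    exact_mod_cast ha1
  have hexp2 : (1 : ℝ) - 1 / (a : ℝ) ≤ 1 - 1 / (m : ℝ) := by
    have := one_div_le_one_div_of_le ha0 hma
    linarith
  rcases hg0.eq_or_lt with hz | hpos
  · rw [← hz]
    have h1 : (1 : ℝ) - 1 / (m : ℝ) ≠ 0 := by
      have h2 := one_div_le_one_div_of_le (by norm_num : (0 : ℝ) < 2) hm2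
      linarith
    rw [Real.zero_rpow h1]
    positivity
  · have h1 : g ^ (a - 1) ≤ C₁ * G ^ a := by
      have h2 : g ^ (a - 1) * g ≤ C₁ * G ^ a * g := by
        rw [← pow_succ, Nat.sub_add_cancel ha1]
        refine hprod.trans ?_
        have h3 : D ^ a * (∏ i, |v i| ^ α i) * G ^ a ≤ D ^ a * (g / e0) * G ^ a := by
          gcongr
        refine h3.trans (le_of_eq ?_)
        rw [hC₁]
        ring
      exact le_of_mul_le_mul_right h2 hpos
    have h2 : g ^ (1 - 1 / (a : ℝ)) ≤ C₁ ^ (1 / (a : ℝ)) * G := by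
      have h3 : (g ^ (a - 1)) ^ (1 / (a : ℝ)) ≤ (C₁ * G ^ a) ^ (1 / (a : ℝ)) :=
        Real.rpow_le_rpow (pow_nonneg hg0 _) h1 (by positivity)
      rw [Real.mul_rpow hC₁0.le (pow_nonneg hG0 _)] at h3
      have h4 : (G ^ a) ^ (1 / (a : ℝ)) = G := by
        rw [one_div]
        exact Real.pow_rpow_inv_natCast hG0 (by omega)
      have h5 : (g ^ (a - 1)) ^ (1 / (a : ℝ)) = g ^ (1 - 1 / (a : ℝ)) := by
        rw [← Real.rpow_natCast g (a - 1), ← Real.rpow_mul hg0]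
        congr 1
        rw [Nat.cast_sub ha1]
        field_simp
        simp
      rwa [h4, h5] at h3
    calc g ^ (1 - 1 / (m : ℝ)) ≤ g ^ (1 - 1 / (a : ℝ)) :=
          Real.rpow_le_rpow_of_exponent_ge hpos hle hexp2
      _ ≤ C₁ ^ (1 / (a : ℝ)) * G := h2
      _ ≤ m * G := mul_le_mul_of_nonneg_right hmC hG0

theorem K03_norm_le {x y : EE n} {C : ℝ} (hC : 0 ≤ C) (h : ∀ j, |y j| ≤ C * |x j|) :
    ‖y‖ ≤ C * ‖x‖ := by
  rw [EuclideanSpace.norm_eq, EuclideanSpace.norm_eq]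
  have h1 : ∑ i, ‖y i‖ ^ 2 ≤ C ^ 2 * ∑ i, ‖x i‖ ^ 2 := by
    rw [Finset.mul_sum]
    refine Finset.sum_le_sum fun i _ => ?_
    rw [← mul_pow]
    exact pow_le_pow_left₀ (norm_nonneg _) (h i) 2
  refine (Real.sqrt_le_sqrt h1).trans (le_of_eq ?_)
  rw [Real.sqrt_mul (sq_nonneg C), Real.sqrt_sq hC]

/-- `‖D_k φ‖ ≤ C ‖φ v‖` -/
theorem K03_Dk {φ : (Fin n → ℝ) → EE n} {ρ : Fin n → ℕ} {β : Fin n → Fin n → ℕ}
    (h : IsChart φ ρ β) : ∃ C : ℝ, 0 ≤ C ∧ ∀ᶠ v in 𝓝 (0 : Fin n → ℝ), ∀ k : Fin n,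
      ‖v k • fderiv ℝ φ v (Pi.single k 1)‖ ≤ C * ‖φ v‖ := by
  choose C hC hev using fun j => Mon.logDeriv (h.co j)
  set S : ℝ := ∑ j, ∑ k, (β j k : ℝ) + ∑ j, C j with hS
  have hS0 : 0 ≤ S := by
    rw [hS]
    refine add_nonneg (Finset.sum_nonneg fun j _ => Finset.sum_nonneg fun k _ => Nat.cast_nonneg _)
      (Finset.sum_nonneg fun j _ => hC j)
  have hle : ∀ j k, (β j k : ℝ) + C j ≤ S := by
    intro j k
    have h1 : (β j k : ℝ) ≤ ∑ j, ∑ k, (β j k : ℝ) :=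
      (Finset.single_le_sum (f := fun k => (β j k : ℝ)) (fun k _ => Nat.cast_nonneg _)
        (Finset.mem_univ k)).trans
      (Finset.single_le_sum (f := fun j => ∑ k, (β j k : ℝ))
        (fun j _ => Finset.sum_nonneg fun k _ => Nat.cast_nonneg _) (Finset.mem_univ j))
    have h2 : C j ≤ ∑ j, C j := Finset.single_le_sum (f := C) (fun j _ => hC j) (Finset.mem_univ j)
    linarith
  have hone : ∀ᶠ v in 𝓝 (0 : Fin n → ℝ), ∀ k, |v k| ≤ 1 := by
    rw [eventually_all]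
    intro k
    have h2 : Tendsto (fun v : Fin n → ℝ => |v k|) (𝓝 0) (𝓝 (|(0 : Fin n → ℝ) k|)) :=
      Continuous.tendsto (by fun_prop) 0
    rw [Pi.zero_apply, abs_zero] at h2
    exact (h2.eventually (gt_mem_nhds (by norm_num : (0 : ℝ) < 1))).mono fun v hv => hv.le
  refine ⟨S, hS0, ?_⟩
  filter_upwards [eventually_all.2 hev, hone, h.an.eventually_analyticAt] with v h1 h2 h3 k
  refine K03_norm_le hS0 fun j => ?_
  have h4 := h1 j k
  have h5 : fderiv ℝ (fun v => φ v j) v (Pi.single k 1) = (fderiv ℝ φ v (Pi.single k 1)) j := by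
    have h6 : HasFDerivAt (fun v => φ v j)
        ((EuclideanSpace.proj j : EE n →L[ℝ] ℝ).comp (fderiv ℝ φ v)) v :=
      (EuclideanSpace.proj j : EE n →L[ℝ] ℝ).hasFDerivAt.comp v h3.differentiableAt.hasFDerivAt
    rw [h6.fderiv]
    rfl
  have h7 : (v k • fderiv ℝ φ v (Pi.single k 1)) j = v k * (fderiv ℝ φ v (Pi.single k 1)) j := rfl
  rw [h7, ← h5]
  have h8 : |v k * fderiv ℝ (fun v => φ v j) v (Pi.single k 1)| ≤
      β j k * |φ v j| + C j * |v k| * |φ v j| := by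
    have := abs_sub_abs_le_abs_sub (v k * fderiv ℝ (fun v => φ v j) v (Pi.single k 1))
      (β j k * φ v j)
    rw [abs_mul (β j k : ℝ), Nat.abs_cast] at this
    linarith
  have h9 : C j * |v k| * |φ v j| ≤ C j * |φ v j| := by
    have h10 : C j * |v k| ≤ C j := by
      have := mul_le_mul_of_nonneg_left (h2 k) (hC j)
      linarith
    exact mul_le_mul_of_nonneg_right h10 (abs_nonneg _)
  have h11 := mul_le_mul_of_nonneg_right (hle j k) (abs_nonneg (φ v j))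
  linarith

/-- (ii) in a chart -/
theorem K03_radial_chart (f : EE n → ℝ) (hf : AnalyticAt ℝ f 0) (hf0 : f 0 = 0)
    (φ : (Fin n → ℝ) → EE n) {ρ : Fin n → ℕ} {β : Fin n → Fin n → ℕ} (h : IsChart φ ρ β)
    {α : Fin n → ℕ} (hα : Mon (fun v => f (φ v)) α) :
    ∃ m : ℕ, ∀ᶠ v in 𝓝 (0 : Fin n → ℝ), |f (φ v)| ≤ m * nrm f (φ v) := by
  have hne : α ≠ fun _ => 0 := fun h' => hα.apply_zero_ne h' (by
    show f (φ 0) = 0
    rw [h.zero, hf0])
  obtain ⟨k, hk⟩ : ∃ k, 1 ≤ α k := by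
    by_contra hc
    push Not at hc
    exact hne (funext fun i => by have := hc i; omega)
  obtain ⟨C, hC, hD⟩ := K03_Dk h
  obtain ⟨m, hm⟩ := exists_nat_ge (2 * C)
  refine ⟨m, ?_⟩
  filter_upwards [K03_chain f hf φ h.an h.zero, K03_half hα, hD] with v h1 h2 h3
  have h4 := h2 k hk
  rw [h1.2] at h4
  have h5 : v k * inner ℝ (gradient f (φ v)) (fderiv ℝ φ v (Pi.single k 1)) =
      inner ℝ (gradient f (φ v)) (v k • fderiv ℝ φ v (Pi.single k 1)) := by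
    rw [inner_smul_right]
  rw [h5] at h4
  have h6 : |inner ℝ (gradient f (φ v)) (v k • fderiv ℝ φ v (Pi.single k 1))| ≤
      ‖gradient f (φ v)‖ * (C * ‖φ v‖) :=
    (abs_real_inner_le_norm _ _).trans (mul_le_mul_of_nonneg_left (h3 k) (norm_nonneg _))
  have h7 : 2 * C * (‖φ v‖ * ‖gradient f (φ v)‖) ≤ m * (‖φ v‖ * ‖gradient f (φ v)‖) :=
    mul_le_mul_of_nonneg_right hm (by positivity)
  show |f (φ v)| ≤ m * (‖φ v‖ * ‖gradient f (φ v)‖)
  linarith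

theorem K03_pos {f : EE n → ℝ} (hf0 : f 0 = 0) (h : ¬ ∀ᶠ x in 𝓝 (0 : EE n), f x = 0) : 1 ≤ n := by
  by_contra hn
  have h0 : n = 0 := by omega
  subst h0
  exact h (Eventually.of_forall fun x => by rw [Subsingleton.elim x 0, hf0])

theorem loj_grad (f : EE n → ℝ) (hf : AnalyticAt ℝ f 0) (hf0 : f 0 = 0) :
    ∃ m : ℕ, 2 ≤ m ∧ ∀ᶠ x in 𝓝 (0 : EE n), |f x| ^ (1 - 1 / (m : ℝ)) ≤ m * ‖gradient f x‖ := by
  by_cases hz : ∀ᶠ x in 𝓝 (0 : EE n), f x = 0
  · refine ⟨2, le_refl 2, hz.mono fun x hx => ?_⟩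
    rw [hx, abs_zero, Real.zero_rpow (by norm_num)]
    positivity
  · obtain ⟨m, hm⟩ := ev_of_charts (K03_pos hf0 hz) (k := 1) (fun _ => f) (fun _ => hf)
      (fun _ => hz) (fun m x => 2 ≤ m ∧ (|f x| ≤ 1 →
        |f x| ^ (1 - 1 / (m : ℝ)) ≤ m * ‖gradient f x‖)) (by
          intro m m' x hmm hP
          refine ⟨hP.1.trans hmm, fun hx => ?_⟩
          have hm2 : (2 : ℝ) ≤ m := by exact_mod_cast hP.1
          have hmm' : (m : ℝ) ≤ m' := by exact_mod_cast hmm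
          have h1 := one_div_le_one_div_of_le (by linarith : (0 : ℝ) < m) hmm'
          have h2 := one_div_le_one_div_of_le (by norm_num : (0 : ℝ) < 2) hm2
          calc |f x| ^ (1 - 1 / (m' : ℝ)) ≤ |f x| ^ (1 - 1 / (m : ℝ)) :=
                Real.rpow_le_rpow_of_exponent_ge' (abs_nonneg _) hx (by linarith) (by linarith)
            _ ≤ m * ‖gradient f x‖ := hP.2 hx
            _ ≤ m' * ‖gradient f x‖ := mul_le_mul_of_nonneg_right hmm' (norm_nonneg _))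
      (fun φ ρ β hch hMon => by
        obtain ⟨α, hα⟩ := hMon 0
        exact K03_grad_chart f hf hf0 φ hch.an hch.zero hα)
    have hm2 : 2 ≤ m := by
      obtain ⟨x, hx⟩ := hm.exists
      exact hx.1
    refine ⟨m, hm2, ?_⟩
    have h1 : ∀ᶠ x in 𝓝 (0 : EE n), |f x| < 1 := by
      have h2 : ContinuousAt (fun x => |f x|) 0 := hf.continuousAt.abs
      refine h2.eventually (gt_mem_nhds ?_)
      show |f 0| < 1
      rw [hf0, abs_zero]
      exact one_pos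
    filter_upwards [hm, h1] with x hx h2
    exact hx.2 h2.le

theorem loj_radial (f : EE n → ℝ) (hf : AnalyticAt ℝ f 0) (hf0 : f 0 = 0) :
    ∃ m : ℕ, 1 ≤ m ∧ ∀ᶠ x in 𝓝 (0 : EE n), |f x| ≤ m * nrm f x := by
  by_cases hz : ∀ᶠ x in 𝓝 (0 : EE n), f x = 0
  · refine ⟨1, le_refl 1, hz.mono fun x hx => ?_⟩
    rw [hx, abs_zero]
    have := nrm_nonneg f x
    positivity
  · obtain ⟨m, hm⟩ := ev_of_charts (K03_pos hf0 hz) (k := 1) (fun _ => f) (fun _ => hf)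
      (fun _ => hz) (fun m x => |f x| ≤ m * nrm f x) (by
          intro m m' x hmm hP
          have hmm' : (m : ℝ) ≤ m' := by exact_mod_cast hmm
          exact hP.trans (mul_le_mul_of_nonneg_right hmm' (nrm_nonneg f x)))
      (fun φ ρ β hch hMon => by
        obtain ⟨α, hα⟩ := hMon 0
        exact K03_radial_chart f hf hf0 φ hch hα)
    refine ⟨m + 1, by omega, hm.mono fun x hx => hx.trans ?_⟩
    have := nrm_nonneg f x
    push_cast
    linarith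

end Pool.Agent.helper62.GF
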