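import Pool.Agent.helper62.GF.K02

/-!
# GF-K04: the cone inequality in a chart

Write `f, R, T` for the values at `x = φ v`, `r = ‖x‖`; `f > 0` (so `x ≠ 0`) and `ε T ≤ |R|`, hence
`T ≤ |R| / ε`.  From `Mon.logDeriv` (for `f ∘ φ`) and `chart_key`, for every `k` (and `|v_k| ≤ 1`)
  (★) `|α_k f - (ρ_k/2) R| ≤ C |v_k|^{1/2} (f + |R|)`  (with `C` depending on `ε`).
Take `k` with `ρ_k ≥ 1` (`IsChart.rho_ne`): near `0` this gives `|R| ≤ C' f`; so
  (★★) `|α_k f - (ρ_k/2) R| ≤ C |v_k|^{1/2} f` for all `k`.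
Cases:
(a) some `k` has `ρ_k = 0`, `α_k ≥ 1`: then `α_k ≤ C |v_k|^{1/2}` is impossible near `0`: nothing to prove
(the hypotheses fail near `0`).
(b) some `k, k'` with `ρ_k, ρ_k' ≥ 1` and `α_k ρ_k' ≠ α_k' ρ_k`: subtracting,
`|2 α_k/ρ_k - 2 α_k'/ρ_k'| ≤ C (|v_k|^{1/2} + |v_k'|^{1/2})`, impossible near `0`.
(c) otherwise fix `k₀` with `ρ_{k₀} ≥ 1` and put `p = 2 α_{k₀}`, `q = ρ_{k₀}`, `l = p/q`: then
`α_k = (l/2) ρ_k` for all `k`.  `p ≥ 1`: otherwise all `α_k = 0`, contradiction with `f 0 = 0`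
(`Mon.apply_zero_ne`).  For all `k` with `ρ_k ≥ 1`: `|R - l f| ≤ C |v_k|^{1/2} f`.  Since
`r² = |∏ v^ρ| |ε_ρ| ≥ c (min_{ρ_k ≥ 1} |v_k|)^{∑ρ}` (all `|v_k| ≤ 1`), for the minimising `k`
`|v_k| ≤ C r^{2/∑ρ}` and `|R - l f| ≤ C r^{1/∑ρ} f`.
`log f - l log r = log (|∏ v^α| |ε_f|) - (l/2) log (|∏ v^ρ| |ε_ρ|) = log |ε_f| - (l/2) log |ε_ρ|`, bounded near
`0` (`(l/2) ρ_k = α_k`; all `v_k` with `ρ_k ≥ 1` are nonzero since `r ≠ 0`).
Finally take `m` large (`≥ p, q, ∑ρ`, constants; for `r ≤ 1`, `r^{1/∑ρ} ≤ r^{1/m}`).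
-/

open Filter Topology

namespace Pool.Agent.helper62.GF

variable {n : ℕ}

private theorem K04_small (η : ℝ) (hη : 0 < η) :
    ∀ᶠ v in 𝓝 (0 : Fin n → ℝ), ∀ k, Real.sqrt |v k| < η := by
  rw [eventually_all]
  intro k
  have h : Tendsto (fun v : Fin n → ℝ => Real.sqrt |v k|) (𝓝 0) (𝓝 (Real.sqrt |(0 : Fin n → ℝ) k|)) :=
    Continuous.tendsto (by fun_prop) 0
  simp only [Pi.zero_apply, abs_zero, Real.sqrt_zero] at h
  exact h.eventually (gt_mem_nhds hη)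

private theorem K04_log {g : (Fin n → ℝ) → ℝ} (hg : ContinuousAt g 0) (h0 : g 0 ≠ 0) :
    ∃ B : ℝ, 0 ≤ B ∧ ∀ᶠ v in 𝓝 (0 : Fin n → ℝ), |Real.log (|g v|)| ≤ B ∧ |g 0| / 2 < |g v| := by
  have h1 : ContinuousAt (fun v => Real.log |g v|) 0 := (hg.abs).log (abs_ne_zero.2 h0)
  have h2 : ∀ᶠ v in 𝓝 (0 : Fin n → ℝ), |Real.log (|g v|)| < |Real.log (|g 0|)| + 1 :=
    h1.abs.eventually (gt_mem_nhds (by linarith))
  have h3 : ∀ᶠ v in 𝓝 (0 : Fin n → ℝ), |g 0| / 2 < |g v| :=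
    hg.abs.eventually (lt_mem_nhds (by
      have := abs_pos.2 h0
      linarith))
  exact ⟨|Real.log (|g 0|)| + 1, by positivity, by
    filter_upwards [h2, h3] with v h4 h5
    exact ⟨h4.le, h5⟩⟩

private theorem K04_star (f : EE n → ℝ) (hf : AnalyticAt ℝ f 0) (hf0 : f 0 = 0)
    (φ : (Fin n → ℝ) → EE n)
    (ρ : Fin n → ℕ) (β : Fin n → Fin n → ℕ) (h : IsChart φ ρ β) (α : Fin n → ℕ)
    (hα : Mon (fun v => f (φ v)) α) (ε : ℝ) (hε : 0 < ε) :
    ∃ D : ℝ, 0 ≤ D ∧ ∀ᶠ v in 𝓝 (0 : Fin n → ℝ), 0 < f (φ v) →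
      ε * tang f (φ v) ≤ |rad f (φ v)| → φ v ≠ 0 ∧ ∀ k,
        |(α k : ℝ) * f (φ v) - (ρ k : ℝ) / 2 * rad f (φ v)| ≤ D * Real.sqrt |v k| * f (φ v) := by
  obtain ⟨C1, hC1, h1⟩ := hα.logDeriv
  obtain ⟨C2, hC2, h2⟩ := chart_key f hf φ ρ β h
  obtain ⟨k1, hk1⟩ := h.rho_ne
  set C : ℝ := C1 + C2 / ε + C2 with hC
  have hC0 : 0 ≤ C := by positivity
  set C' : ℝ := 4 * (α k1 : ℝ) + 1 with hC'
  refine ⟨C * (1 + C'), by positivity, ?_⟩
  filter_upwards [h1, h2, K04_small 1 one_pos, K04_small (1 / (4 * (C + 1))) (by positivity)]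
    with v h3 h4 h5 h6 hpos hcone
  have hne : φ v ≠ 0 := by
    intro h0
    rw [h0, hf0] at hpos
    exact lt_irrefl _ hpos
  refine ⟨hne, ?_⟩
  set F : ℝ := f (φ v) with hF
  set R : ℝ := rad f (φ v) with hR
  set T : ℝ := tang f (φ v) with hT
  have hTR : T ≤ |R| / ε := by
    rw [le_div_iff₀ hε, mul_comm]
    exact hcone
  have hT0 : 0 ≤ T := tang_nonneg _ _
  -- the estimate with `|R|`
  have key : ∀ k, |(α k : ℝ) * F - (ρ k : ℝ) / 2 * R| ≤ C * Real.sqrt |v k| * (F + |R|) := by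
    intro k
    obtain ⟨κ, h7, -, h8⟩ := h4 hne k
    have h9 := h3 k
    rw [abs_of_pos hpos] at h9
    set s : ℝ := Real.sqrt |v k| with hs
    have hs0 : 0 ≤ s := Real.sqrt_nonneg _
    have hs1 : s ≤ 1 := (h5 k).le
    have hvs : |v k| ≤ s := by
      have : s * s = |v k| := Real.mul_self_sqrt (abs_nonneg _)
      rw [← this]
      calc s * s ≤ s * 1 := mul_le_mul_of_nonneg_left hs1 hs0
        _ = s := mul_one _
    set Dk : ℝ := v k * fderiv ℝ (fun w => f (φ w)) v (Pi.single k 1) with hDk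
    have hR0 := abs_nonneg R
    have e1 : |(α k : ℝ) * F - (ρ k : ℝ) / 2 * R| ≤
        |Dk - α k * F| + |Dk - κ * R| + |κ - (ρ k : ℝ) / 2| * |R| := by
      have e2 : (α k : ℝ) * F - (ρ k : ℝ) / 2 * R =
          -(Dk - α k * F) + (Dk - κ * R) + (κ - (ρ k : ℝ) / 2) * R := by ring
      rw [e2]
      calc _ ≤ |-(Dk - α k * F) + (Dk - κ * R)| + |(κ - (ρ k : ℝ) / 2) * R| := abs_add_le _ _
        _ ≤ |-(Dk - α k * F)| + |Dk - κ * R| + |(κ - (ρ k : ℝ) / 2) * R| := by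
            gcongr
            exact abs_add_le _ _
        _ = _ := by rw [abs_neg, abs_mul]
    have e3 : |Dk - α k * F| ≤ C1 * s * F := by
      refine h9.trans ?_
      gcongr
    have e4 : |Dk - κ * R| ≤ C2 * s * (|R| / ε) := by
      refine h8.trans ?_
      gcongr
    have e5 : |κ - (ρ k : ℝ) / 2| * |R| ≤ C2 * s * |R| := by
      have : |κ - (ρ k : ℝ) / 2| ≤ C2 * s := h7.trans (by gcongr)
      gcongr
    have e6 : C * s * (F + |R|) - (C1 * s * F + C2 * s * (|R| / ε) + C2 * s * |R|) =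
        (C2 / ε + C2) * s * F + C1 * s * |R| := by
      rw [hC]; ring
    have e7 : 0 ≤ (C2 / ε + C2) * s * F + C1 * s * |R| := by positivity
    linarith
  have hRF : |R| ≤ C' * F := by
    have h7 := key k1
    have h8 : C * Real.sqrt |v k1| ≤ 1 / 4 := by
      have h9 := (h6 k1).le
      have h10 : C * Real.sqrt |v k1| ≤ C * (1 / (4 * (C + 1))) :=
        mul_le_mul_of_nonneg_left h9 hC0
      have h11 : C * (1 / (4 * (C + 1))) ≤ 1 / 4 := by
        rw [mul_one_div, div_le_div_iff₀ (by positivity) (by norm_num)]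
        linarith
      linarith
    have hR0 := abs_nonneg R
    have h12 : C * Real.sqrt |v k1| * (F + |R|) ≤ 1 / 4 * (F + |R|) := by
      have : 0 ≤ F + |R| := by positivity
      exact mul_le_mul_of_nonneg_right h8 this
    have h13 : (ρ k1 : ℝ) / 2 * |R| ≤ (α k1 : ℝ) * F + 1 / 4 * (F + |R|) := by
      have h14 : |(ρ k1 : ℝ) / 2 * R| ≤ |(α k1 : ℝ) * F - (ρ k1 : ℝ) / 2 * R| +
          |(α k1 : ℝ) * F| := by
        have e : (ρ k1 : ℝ) / 2 * R = -((α k1 : ℝ) * F - (ρ k1 : ℝ) / 2 * R) + (α k1 : ℝ) * F := by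
          ring
        calc |(ρ k1 : ℝ) / 2 * R| =
            |-((α k1 : ℝ) * F - (ρ k1 : ℝ) / 2 * R) + (α k1 : ℝ) * F| := by rw [← e]
          _ ≤ |-((α k1 : ℝ) * F - (ρ k1 : ℝ) / 2 * R)| + |(α k1 : ℝ) * F| := abs_add_le _ _
          _ = _ := by rw [abs_neg]
      rw [abs_mul, abs_of_nonneg (show (0 : ℝ) ≤ (ρ k1 : ℝ) / 2 by positivity),
        abs_of_nonneg (show (0 : ℝ) ≤ (α k1 : ℝ) * F by positivity)] at h14
      linarith
    have h15 : (1 : ℝ) ≤ ρ k1 := by exact_mod_cast hk1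
    have h16 : 1 / 2 * |R| ≤ (ρ k1 : ℝ) / 2 * |R| := by
      gcongr
    rw [hC']
    linarith
  intro k
  refine (key k).trans ?_
  have h7 : F + |R| ≤ (1 + C') * F := by linarith
  calc C * Real.sqrt |v k| * (F + |R|) ≤ C * Real.sqrt |v k| * ((1 + C') * F) :=
        mul_le_mul_of_nonneg_left h7 (by positivity)
    _ = C * (1 + C') * Real.sqrt |v k| * F := by ring

theorem cone_chart (f : EE n → ℝ) (hf : AnalyticAt ℝ f 0) (hf0 : f 0 = 0) (φ : (Fin n → ℝ) → EE n)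
    (ρ : Fin n → ℕ) (β : Fin n → Fin n → ℕ) (h : IsChart φ ρ β) (α : Fin n → ℕ)
    (hα : Mon (fun v => f (φ v)) α) (ε : ℝ) (hε : 0 < ε) :
    ∃ m : ℕ, 1 ≤ m ∧ ∀ᶠ v in 𝓝 (0 : Fin n → ℝ), 0 < f (φ v) →
      ε * tang f (φ v) ≤ |rad f (φ v)| →
      ∃ p q : ℕ, 1 ≤ p ∧ p ≤ m ∧ 1 ≤ q ∧ q ≤ m ∧
        |rad f (φ v) - (p / q : ℝ) * f (φ v)| ≤ m * ‖φ v‖ ^ (1 / (m : ℝ)) * f (φ v) ∧
        |Real.log (f (φ v)) - (p / q : ℝ) * Real.log ‖φ v‖| ≤ m := by
  obtain ⟨D, hD, hstar⟩ := K04_star f hf hf0 φ ρ β h α hα ε hε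
  obtain ⟨k0, hk0⟩ := h.rho_ne
  by_cases ha : ∃ k, ρ k = 0 ∧ 1 ≤ α k
  · -- impossible near `0`
    obtain ⟨k, hk, hak⟩ := ha
    refine ⟨1, le_rfl, ?_⟩
    filter_upwards [hstar, K04_small (1 / (D + 1)) (by positivity)] with v h1 h2 hpos hcone
    exfalso
    obtain ⟨-, h3⟩ := h1 hpos hcone
    have h4 := h3 k
    rw [hk, Nat.cast_zero, zero_div, zero_mul, sub_zero,
      abs_of_nonneg (by positivity)] at h4
    have h5 : (α k : ℝ) ≤ D * Real.sqrt |v k| := le_of_mul_le_mul_right h4 hpos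
    have h6 : D * Real.sqrt |v k| < 1 := by
      have h7 := h2 k
      have h8 : D * Real.sqrt |v k| ≤ D * (1 / (D + 1)) :=
        mul_le_mul_of_nonneg_left h7.le hD
      have h9 : D * (1 / (D + 1)) < 1 := by
        rw [mul_one_div, div_lt_one (by positivity)]
        linarith
      linarith
    have h7 : (1 : ℝ) ≤ α k := by exact_mod_cast hak
    linarith
  push Not at ha
  have hdiv : ∀ v : Fin n → ℝ, 0 < f (φ v) → (∀ k,
      |(α k : ℝ) * f (φ v) - (ρ k : ℝ) / 2 * rad f (φ v)| ≤ D * Real.sqrt |v k| * f (φ v)) →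
      ∀ k, 1 ≤ ρ k →
      |2 * (α k : ℝ) / ρ k - rad f (φ v) / f (φ v)| ≤ 2 * D * Real.sqrt |v k| := by
    intro v hpos hst k hk
    have hk' : (1 : ℝ) ≤ ρ k := by exact_mod_cast hk
    have h1 := hst k
    have h2 : (α k : ℝ) * f (φ v) - (ρ k : ℝ) / 2 * rad f (φ v) =
        (2 * (α k : ℝ) / ρ k - rad f (φ v) / f (φ v)) * ((ρ k : ℝ) / 2 * f (φ v)) := by
      field_simp
    rw [h2, abs_mul, abs_of_pos (show 0 < (ρ k : ℝ) / 2 * f (φ v) by positivity)] at h1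
    have h3 : |2 * (α k : ℝ) / ρ k - rad f (φ v) / f (φ v)| * (1 / 2 * f (φ v)) ≤
        |2 * (α k : ℝ) / ρ k - rad f (φ v) / f (φ v)| * ((ρ k : ℝ) / 2 * f (φ v)) := by
      gcongr
    have h4 : |2 * (α k : ℝ) / ρ k - rad f (φ v) / f (φ v)| * (1 / 2 * f (φ v)) ≤
        (2 * D * Real.sqrt |v k|) * (1 / 2 * f (φ v)) := by
      refine (h3.trans h1).trans (le_of_eq ?_)
      ring
    exact le_of_mul_le_mul_right h4 (by positivity)
  by_cases hb : ∃ k k', 1 ≤ ρ k ∧ 1 ≤ ρ k' ∧ α k * ρ k' ≠ α k' * ρ k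
  · obtain ⟨k, k', hk, hk', hne⟩ := hb
    refine ⟨1, le_rfl, ?_⟩
    have hkr : (1 : ℝ) ≤ ρ k := by exact_mod_cast hk
    have hkr' : (1 : ℝ) ≤ ρ k' := by exact_mod_cast hk'
    set δ : ℝ := |2 * (α k : ℝ) / ρ k - 2 * (α k' : ℝ) / ρ k'| with hδ
    have hδ0 : 0 < δ := by
      rw [hδ, abs_pos, sub_ne_zero]
      intro h1
      rw [div_eq_div_iff (by positivity) (by positivity)] at h1
      apply hne
      have h2 : (α k : ℝ) * ρ k' = α k' * ρ k := by linarith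
      exact_mod_cast h2
    filter_upwards [hstar, K04_small (δ / (4 * (D + 1))) (by positivity)]
      with v h1 h2 hpos hcone
    exfalso
    obtain ⟨-, h3⟩ := h1 hpos hcone
    have h4 := hdiv v hpos h3 k hk
    have h5 := hdiv v hpos h3 k' hk'
    have h6 : ∀ j, 2 * D * Real.sqrt |v j| < δ / 2 := by
      intro j
      have h7 := h2 j
      have h8 : 2 * D * Real.sqrt |v j| ≤ 2 * D * (δ / (4 * (D + 1))) :=
        mul_le_mul_of_nonneg_left h7.le (by positivity)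
      have h9 : 2 * D * (δ / (4 * (D + 1))) < δ / 2 := by
        rw [mul_div_assoc', div_lt_div_iff₀ (by positivity) (by norm_num)]
        nlinarith
      linarith
    have h7 : δ ≤ |2 * (α k : ℝ) / ρ k - rad f (φ v) / f (φ v)| +
        |2 * (α k' : ℝ) / ρ k' - rad f (φ v) / f (φ v)| := by
      rw [hδ, ← abs_neg (2 * (α k' : ℝ) / ρ k' - rad f (φ v) / f (φ v))]
      refine le_trans (le_of_eq ?_) (abs_add_le _ _)
      congr 1
      ring
    have h8 := h6 k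
    have h9 := h6 k'
    linarith
  push Not at hb
  -- the main case
  have hk0r : (1 : ℝ) ≤ ρ k0 := by exact_mod_cast hk0
  set l : ℝ := ((2 * α k0 : ℕ) : ℝ) / (ρ k0 : ℝ) with hl
  have hαρ : ∀ k, (α k : ℝ) = l / 2 * ρ k := by
    intro k
    rcases Nat.eq_zero_or_pos (ρ k) with h1 | h1
    · have h2 : α k = 0 := by
        by_contra h3
        have := ha k h1
        omega
      rw [h1, h2]
      simp
    · have h2 := hb k k0 h1 hk0
      have h3 : (α k : ℝ) * ρ k0 = α k0 * ρ k := by exact_mod_cast h2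
      rw [hl]
      push_cast
      field_simp
      linarith
  obtain ⟨εf, hεf, hεf0, hfeq⟩ := hα
  obtain ⟨εr, hεr, hεr0, hreq⟩ := h.sq
  have hαk0 : 1 ≤ α k0 := by
    by_contra h1
    have h2 : α k0 = 0 := by omega
    have h3 : ∀ k, α k = 0 := by
      intro k
      have h4 := hαρ k
      rw [hl, h2] at h4
      simp only [mul_zero, Nat.cast_zero, zero_div, zero_mul] at h4
      exact_mod_cast h4
    have h4 := hfeq.self_of_nhds
    simp only [h3, pow_zero, Finset.prod_const_one, one_mul] at h4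
    rw [h.zero, hf0] at h4
    exact hεf0 h4.symm
  obtain ⟨Bf, hBf, hlogf⟩ := K04_log hεf.continuousAt hεf0
  obtain ⟨Br, hBr, hlogr⟩ := K04_log hεr.continuousAt hεr0
  set c : ℝ := |εr 0| / 2 with hc
  have hc0 : 0 < c := by
    have := abs_pos.2 hεr0
    positivity
  set S : ℕ := ∑ k, ρ k with hS
  have hS1 : 1 ≤ S := hk0.trans (Finset.single_le_sum (f := ρ) (fun _ _ => Nat.zero_le _)
    (Finset.mem_univ k0))
  have hS0 : (0 : ℝ) < S := by exact_mod_cast hS1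
  have hl0 : 0 ≤ l := by positivity
  obtain ⟨m, hm⟩ := exists_nat_ge (max (2 * D * (1 / c) ^ (1 / (2 * (S : ℝ))))
    (max (Bf + l / 2 * Br) (max (2 * α k0 : ℕ) (max (ρ k0) (max (S : ℝ) 1)))))
  simp only [max_le_iff] at hm
  obtain ⟨hm1, hm2, hm3, hm4, hm5, hm6⟩ := hm
  have hm1' : 1 ≤ m := by exact_mod_cast hm6
  refine ⟨m, hm1', ?_⟩
  -- `‖φ v‖ ≤ 1` near `0`
  have hφ1 : ∀ᶠ v in 𝓝 (0 : Fin n → ℝ), ‖φ v‖ < 1 := by
    have h1 : ContinuousAt (fun v => ‖φ v‖) 0 := h.an.continuousAt.norm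
    refine h1.eventually (gt_mem_nhds ?_)
    show ‖φ 0‖ < 1
    rw [h.zero, norm_zero]
    exact one_pos
  filter_upwards [hstar, hfeq, hreq, hlogf, hlogr, hφ1] with v h1 h2 h3 h4 h5 h6 hpos hcone
  obtain ⟨hne, h7⟩ := h1 hpos hcone
  have hr0 : 0 < ‖φ v‖ := norm_pos_iff.2 hne
  -- products with absolute values
  have hf2 : f (φ v) = (∏ i, |v i| ^ α i) * |εf v| := by
    rw [← abs_of_pos hpos, h2, abs_mul, Finset.abs_prod]
    simp only [abs_pow]
  have hr2 : ‖φ v‖ ^ 2 = (∏ i, |v i| ^ ρ i) * |εr v| := by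
    rw [← abs_of_nonneg (sq_nonneg ‖φ v‖), h3, abs_mul, Finset.abs_prod]
    simp only [abs_pow]
  have hpf : (∏ i, |v i| ^ α i) ≠ 0 := by
    intro h0
    rw [h0, zero_mul] at hf2
    exact hpos.ne' hf2
  have hpr : (∏ i, |v i| ^ ρ i) ≠ 0 := by
    intro h0
    rw [h0, zero_mul] at hr2
    have := pow_pos hr0 2
    linarith
  have hef : |εf v| ≠ 0 := by
    intro h0
    rw [h0, mul_zero] at hf2
    exact hpos.ne' hf2
  have her : |εr v| ≠ 0 := by
    have := h5.2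
    linarith [hc0]
  have hlf : Real.log (f (φ v)) = ∑ i, (α i : ℝ) * Real.log |v i| + Real.log |εf v| := by
    rw [hf2, Real.log_mul hpf hef, Real.log_prod (fun i _ h0 =>
      hpf (Finset.prod_eq_zero (Finset.mem_univ i) h0))]
    simp only [Real.log_pow]
  have hlr : 2 * Real.log ‖φ v‖ = ∑ i, (ρ i : ℝ) * Real.log |v i| + Real.log |εr v| := by
    have h8 : Real.log (‖φ v‖ ^ 2) = 2 * Real.log ‖φ v‖ := by
      rw [Real.log_pow]; norm_num
    rw [← h8, hr2, Real.log_mul hpr her, Real.log_prod (fun i _ h0 =>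
      hpr (Finset.prod_eq_zero (Finset.mem_univ i) h0))]
    simp only [Real.log_pow]
  refine ⟨2 * α k0, ρ k0, by omega, by exact_mod_cast hm3, hk0, by exact_mod_cast hm4, ?_, ?_⟩
  · -- the radial estimate
    obtain ⟨ks, hks, hmin⟩ := Finset.exists_min_image (Finset.univ.filter fun k => 1 ≤ ρ k)
      (fun k => |v k|) ⟨k0, Finset.mem_filter.2 ⟨Finset.mem_univ _, hk0⟩⟩
    have hks1 : 1 ≤ ρ ks := (Finset.mem_filter.1 hks).2
    have h8 : |v ks| ^ S ≤ ∏ i, |v i| ^ ρ i := by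
      rw [hS, ← Finset.prod_pow_eq_pow_sum]
      refine Finset.prod_le_prod (fun i _ => by positivity) fun i _ => ?_
      rcases Nat.eq_zero_or_pos (ρ i) with h9 | h9
      · rw [h9, pow_zero, pow_zero]
      · exact pow_le_pow_left₀ (abs_nonneg _)
          (hmin i (Finset.mem_filter.2 ⟨Finset.mem_univ _, h9⟩)) _
    have h9 : |v ks| ^ S ≤ ‖φ v‖ ^ 2 * (1 / c) := by
      have h10 : (∏ i, |v i| ^ ρ i) * c ≤ ‖φ v‖ ^ 2 := by
        rw [hr2]
        refine mul_le_mul_of_nonneg_left h5.2.le ?_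
        exact Finset.prod_nonneg fun i _ => by positivity
      rw [mul_one_div, le_div_iff₀ hc0]
      exact (mul_le_mul_of_nonneg_right h8 hc0.le).trans h10
    have h10 : Real.sqrt |v ks| ≤ ‖φ v‖ ^ (1 / (S : ℝ)) * (1 / c) ^ (1 / (2 * (S : ℝ))) := by
      have e1 : Real.sqrt |v ks| = (|v ks| ^ S) ^ (1 / (2 * (S : ℝ))) := by
        rw [Real.sqrt_eq_rpow, ← Real.rpow_natCast, ← Real.rpow_mul (abs_nonneg _)]
        congr 1
        field_simp
      rw [e1]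
      have e2 : (‖φ v‖ ^ 2 * (1 / c)) ^ (1 / (2 * (S : ℝ))) =
          ‖φ v‖ ^ (1 / (S : ℝ)) * (1 / c) ^ (1 / (2 * (S : ℝ))) := by
        rw [Real.mul_rpow (by positivity) (by positivity), ← Real.rpow_natCast,
          ← Real.rpow_mul (norm_nonneg _)]
        congr 2
        push_cast
        field_simp
      rw [← e2]
      exact Real.rpow_le_rpow (by positivity) h9 (by positivity)
    have h11 := hdiv v hpos h7 ks hks1
    have h12 : 2 * (α ks : ℝ) / ρ ks = l := by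
      have hks' : (1 : ℝ) ≤ ρ ks := by exact_mod_cast hks1
      rw [hαρ ks]
      field_simp
    rw [h12] at h11
    have h13 : ‖φ v‖ ^ (1 / (S : ℝ)) ≤ ‖φ v‖ ^ (1 / (m : ℝ)) := by
      refine Real.rpow_le_rpow_of_exponent_ge hr0 h6.le ?_
      exact one_div_le_one_div_of_le hS0 hm5
    have h14 : rad f (φ v) - l * f (φ v) =
        -((l - rad f (φ v) / f (φ v)) * f (φ v)) := by
      field_simp
      ring
    rw [← hl, h14, abs_neg, abs_mul, abs_of_pos hpos]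
    refine mul_le_mul_of_nonneg_right ?_ hpos.le
    calc |l - rad f (φ v) / f (φ v)| ≤ 2 * D * Real.sqrt |v ks| := h11
      _ ≤ 2 * D * (‖φ v‖ ^ (1 / (S : ℝ)) * (1 / c) ^ (1 / (2 * (S : ℝ)))) := by gcongr
      _ = 2 * D * (1 / c) ^ (1 / (2 * (S : ℝ))) * ‖φ v‖ ^ (1 / (S : ℝ)) := by ring
      _ ≤ m * ‖φ v‖ ^ (1 / (m : ℝ)) := by gcongr
  · -- the logarithms
    rw [← hl]
    have h8 : Real.log (f (φ v)) - l * Real.log ‖φ v‖ =
        Real.log |εf v| - l / 2 * Real.log |εr v| := by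
      have h9 : l * Real.log ‖φ v‖ = l / 2 * (2 * Real.log ‖φ v‖) := by ring
      rw [h9, hlr, hlf, mul_add, Finset.mul_sum]
      have h10 : ∑ i, (α i : ℝ) * Real.log |v i| =
          ∑ i, l / 2 * ((ρ i : ℝ) * Real.log |v i|) :=
        Finset.sum_congr rfl fun i _ => by rw [hαρ i]; ring
      rw [h10]
      ring
    rw [h8]
    calc |Real.log (|εf v|) - l / 2 * Real.log (|εr v|)| ≤
        |Real.log (|εf v|)| + |l / 2 * Real.log (|εr v|)| := abs_sub _ _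
      _ ≤ Bf + l / 2 * Br := by
          rw [abs_mul, abs_of_nonneg (show 0 ≤ l / 2 by positivity)]
          have := h4.1
          have := h5.1
          gcongr
      _ ≤ m := hm2

end Pool.Agent.helper62.GF
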