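import Pool.Agent.helper62.GF.K02

/-!
# GF-K05: the asymptotic critical value inequality in a chart

Notation as in K04; `l = p/q`, `λ = log f - l log r`, `Φ = f^{2q} / r^{2p} = exp (2 q λ)`, `a = exp (2 q b)`;
the hypothesis `hγ` says that `f^{2q} - a r^{2p}` is monomial in the chart.  Hypotheses on `v`: `f > 0`,
`|λ - b| ≤ 1/m` (`≤ 1`), `r^{δ₁/2} ≤ |λ - b|`, `|R - l f| ≤ C₁ r^{δ₁} f`.

From `Mon.logDeriv` and `chart_key`: `|α_k f - κ R| ≤ C |v_k| f + C |v_k|^{1/2} T`, and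
`|κ R - l κ f| ≤ |κ| C₁ r^{δ₁} f`, `|κ - ρ_k/2| ≤ C |v_k|`; so
`|α_k - l ρ_k/2| f ≤ C (|v_k| + r^{δ₁}) f + C |v_k|^{1/2} T`.

Case A: `2 q α_k ≠ p ρ_k` for some `k`.  Then near `0` (`r → 0`) `c f ≤ C T`; as
`|λ - b|^{1 - 1/m} ≤ 1` the claim holds with `m` large.

Case B: `2 q α = p ρ`.  With `f ∘ φ = v^α ε_f`, `r² = v^ρ ε_ρ`:
`f^{2q} - a r^{2p} = v^{2qα} W`, `W = ε_f^{2q} - a ε_ρ^p` analytic, so by `Mon.of_mul_monomial` `Mon W ω`; where
`f ≠ 0`, `Φ = ε_f^{2q} / ε_ρ^p` and `Φ - a = W / ε_ρ^p`: analytic near `0`, monomial of exponent `ω`; denote it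
by `W'`, `Mon W' ω` (`ε_ρ 0 ≠ 0`).
For `|λ - b| ≤ 1`: `c |λ - b| ≤ |Φ - a| ≤ C |λ - b|` (`Φ = a exp (2q (λ - b))`).
B1: `ω = 0`: `|Φ - a| ≥ c₁ > 0` near `0`, so `|λ - b| ≤ 1/m` is impossible for `m` large.
B2: for `k` with `ω_k ≥ 1`: `v_k ∂_k W' = v_k ∂_k Φ = Φ (2q v_k∂_k f / f - p v_k ∂_k r² / r²)
  = Φ (2q/f) (v_k ∂_k f - l κ f) = Φ (2q/f) (κ (R - l f) + O(|v_k|^{1/2} T))`
(points with `f > 0` form an open set on which `W' = Φ - a` holds identically; so derivatives agree), while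
`|v_k ∂_k W'| ≥ (1/2) |W'|` near `0` by `Mon.logDeriv`.  Hence
`c |λ - b| ≤ C r^{δ₁} + C |v_k|^{1/2} T/f`.  As `r^{δ₁} = r^{δ₁/2} r^{δ₁/2} ≤ r^{δ₁/2} |λ - b|` is absorbed near `0`:
`|λ - b| ≤ C |v_k|^{1/2} T/f` for all `k` with `ω_k ≥ 1`.  Raise to the power `ω_k`, multiply over `k`
(`w = ∑ ω_k ≥ 1`): `|λ - b|^w ≤ C (∏ |v_k|^{ω_k})^{1/2} (T/f)^w ≤ C |λ - b|^{1/2} (T/f)^w`
(`∏ |v_k|^{ω_k} ≤ C |W'| ≤ C |λ - b|`).  So `|λ - b|^{1 - 1/(2w)} ≤ C T/f`; and for `m ≥ 2 w`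
`|λ - b|^{1 - 1/m} ≤ |λ - b|^{1 - 1/(2w)}`.  (`λ ≠ b` because `r^{δ₁/2} > 0`.)
-/

open Filter Topology

namespace Pool.Agent.helper62.GF

variable {n : ℕ}

private theorem K05_exp {u M : ℝ} (h : |u| ≤ M) :
    |u| * Real.exp (-M) ≤ |Real.exp u - 1| ∧ |Real.exp u - 1| ≤ |u| * Real.exp M := by
  have hM0 : 0 ≤ M := (abs_nonneg u).trans h
  have h1 : 1 + u ≤ Real.exp u := by
    have := Real.add_one_le_exp u
    linarith
  have h2 : 1 - u ≤ Real.exp (-u) := by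
    have := Real.add_one_le_exp (-u)
    linarith
  have h3 : Real.exp u * Real.exp (-u) = 1 := by
    rw [← Real.exp_add, add_neg_cancel, Real.exp_zero]
  have hu0 := Real.exp_pos u
  have h4 : Real.exp u * (1 - u) ≤ 1 := by
    have h5 := mul_le_mul_of_nonneg_left h2 hu0.le
    rwa [h3] at h5
  have hM1 : 1 ≤ Real.exp M := Real.one_le_exp hM0
  have hM2 : Real.exp (-M) ≤ 1 := Real.exp_le_one_iff.2 (by linarith)
  rcases le_total 0 u with hu | hu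
  · rw [abs_of_nonneg hu] at h ⊢
    have h5 : 0 ≤ Real.exp u - 1 := by linarith
    rw [abs_of_nonneg h5]
    have h6 : Real.exp u ≤ Real.exp M := Real.exp_le_exp.2 h
    constructor
    · nlinarith
    · nlinarith
  · rw [abs_of_nonpos hu] at h ⊢
    have h5 : Real.exp u - 1 ≤ 0 := by
      have := Real.exp_le_one_iff.2 hu
      linarith
    rw [abs_of_nonpos h5]
    have h6 : Real.exp (-M) ≤ Real.exp u := Real.exp_le_exp.2 (by linarith)
    constructor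
    · nlinarith
    · nlinarith

private theorem K05_final {y X D : ℝ} {w m : ℕ} (hy0 : 0 < y) (hy1 : y ≤ 1) (hX : 0 ≤ X)
    (hw : 1 ≤ w) (hm2 : 2 * w ≤ m) (hmD : D ≤ m) (h : y ^ w ≤ D * Real.sqrt y * X ^ w) :
    1 / (m : ℝ) * y ^ (1 - 1 / (m : ℝ)) ≤ X := by
  have hw0 : (1 : ℝ) ≤ w := by exact_mod_cast hw
  have hm0 : (1 : ℝ) ≤ m := by
    have : 1 ≤ m := by omega
    exact_mod_cast this
  have hm2' : 2 * (w : ℝ) ≤ m := by exact_mod_cast hm2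
  set z : ℝ := y ^ (1 - 1 / (2 * (w : ℝ))) with hz
  have hz0 : 0 < z := Real.rpow_pos_of_pos hy0 _
  have hs0 : 0 < Real.sqrt y := Real.sqrt_pos.2 hy0
  have h1 : z ^ w * Real.sqrt y = y ^ w := by
    rw [hz, ← Real.rpow_natCast (y ^ (1 - 1 / (2 * (w : ℝ)))) w, ← Real.rpow_mul hy0.le,
      Real.sqrt_eq_rpow, ← Real.rpow_add hy0, ← Real.rpow_natCast y w]
    congr 1
    field_simp
    ring
  have h2 : z ^ w ≤ D * X ^ w := by
    have h3 : z ^ w * Real.sqrt y ≤ (D * X ^ w) * Real.sqrt y := by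
      rw [h1]
      linarith
    exact le_of_mul_le_mul_right h3 hs0
  have h3 : z ^ w ≤ (m * X) ^ w := by
    have h4 : (m : ℝ) ≤ (m : ℝ) ^ w := le_self_pow₀ hm0 (by omega)
    rw [mul_pow]
    refine h2.trans (mul_le_mul_of_nonneg_right (hmD.trans h4) (by positivity))
  have h4 : z ≤ m * X := by
    have h5 : 0 ≤ m * X := by positivity
    exact (pow_le_pow_iff_left₀ hz0.le h5 (by omega)).1 h3
  have h5 : y ^ (1 - 1 / (m : ℝ)) ≤ z := by
    refine Real.rpow_le_rpow_of_exponent_ge hy0 hy1 ?_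
    have : 1 / (m : ℝ) ≤ 1 / (2 * (w : ℝ)) := one_div_le_one_div_of_le (by linarith) hm2'
    linarith
  calc 1 / (m : ℝ) * y ^ (1 - 1 / (m : ℝ)) ≤ 1 / (m : ℝ) * (m * X) := by
        refine mul_le_mul_of_nonneg_left (h5.trans h4) (by positivity)
    _ = X := by
      field_simp

private theorem K05_small {η : ℝ} (hη : 0 < η) : ∀ᶠ v in 𝓝 (0 : Fin n → ℝ), ∀ k, |v k| ≤ η := by
  have h1 : Tendsto (fun v : Fin n → ℝ => ‖v‖) (𝓝 0) (𝓝 0) :=
    continuous_norm.tendsto' 0 0 norm_zero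
  filter_upwards [h1.eventually_le_const hη] with v hv k
  rw [← Real.norm_eq_abs]
  exact (norm_le_pi_norm v k).trans hv

private theorem K05_rpow {φ : (Fin n → ℝ) → EE n} (hφ : ContinuousAt φ 0) (h0 : φ 0 = 0)
    {δ η : ℝ} (hδ : 0 < δ) (hη : 0 < η) : ∀ᶠ v in 𝓝 (0 : Fin n → ℝ), ‖φ v‖ ^ δ ≤ η := by
  have h1 : Tendsto (fun v => ‖φ v‖) (𝓝 0) (𝓝 0) := by
    have h2 := hφ.norm.tendsto
    rwa [h0, norm_zero] at h2
  have h3 := h1.rpow_const (p := δ) (Or.inr hδ.le)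
  rw [Real.zero_rpow hδ.ne'] at h3
  exact h3.eventually_le_const hη

/-- The basic inequality. -/
private theorem K05_basic (f : EE n → ℝ) (hf : AnalyticAt ℝ f 0) (hf0 : f 0 = 0)
    (φ : (Fin n → ℝ) → EE n) (ρ : Fin n → ℕ) (β : Fin n → Fin n → ℕ) (h : IsChart φ ρ β)
    (l C₁ δ₁ : ℝ) :
    ∃ C : ℝ, 0 ≤ C ∧ ∀ᶠ v in 𝓝 (0 : Fin n → ℝ), 0 < f (φ v) →
      |rad f (φ v) - l * f (φ v)| ≤ C₁ * ‖φ v‖ ^ δ₁ * f (φ v) → ∀ k : Fin n, ∃ κ : ℝ,
      |κ - (ρ k : ℝ) / 2| ≤ C * |v k| ∧ |κ| ≤ C ∧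
      v k * fderiv ℝ (fun w => ‖φ w‖ ^ 2) v (Pi.single k 1) = 2 * κ * ‖φ v‖ ^ 2 ∧
      |v k * fderiv ℝ (fun w => f (φ w)) v (Pi.single k 1) - l * κ * f (φ v)| ≤
        C * Real.sqrt |v k| * tang f (φ v) + C * ‖φ v‖ ^ δ₁ * f (φ v) := by
  obtain ⟨C, hC0, hC⟩ := chart_key f hf φ ρ β h
  set B : ℝ := (∑ k, (ρ k : ℝ) / 2) + C with hB
  have hB0 : 0 ≤ B := by positivity
  have hsum : ∀ k, (ρ k : ℝ) / 2 ≤ ∑ k, (ρ k : ℝ) / 2 := fun k =>
    Finset.single_le_sum (f := fun k => (ρ k : ℝ) / 2) (fun _ _ => by positivity)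
      (Finset.mem_univ k)
  refine ⟨B + B * |C₁|, by positivity, ?_⟩
  filter_upwards [hC, K05_small (n := n) one_pos] with v hv hv1 hfv hR k
  have hφ0 : φ v ≠ 0 := by
    intro h0
    rw [h0, hf0] at hfv
    exact lt_irrefl _ hfv
  obtain ⟨κ, h1, h2, h3⟩ := hv hφ0 k
  have hCB : C ≤ B := by
    have : 0 ≤ ∑ k, (ρ k : ℝ) / 2 := Finset.sum_nonneg fun k _ => by positivity
    linarith
  have hBB : B ≤ B + B * |C₁| := by
    have := mul_nonneg hB0 (abs_nonneg C₁)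
    linarith
  have hκ : |κ| ≤ B := by
    have h4 : |κ| ≤ |κ - (ρ k : ℝ) / 2| + |(ρ k : ℝ) / 2| := by
      have := abs_add_le (κ - (ρ k : ℝ) / 2) ((ρ k : ℝ) / 2)
      rwa [sub_add_cancel] at this
    rw [abs_of_nonneg (by positivity : (0 : ℝ) ≤ (ρ k : ℝ) / 2)] at h4
    have h5 : C * |v k| ≤ C := by
      have := mul_le_mul_of_nonneg_left (hv1 k) hC0
      linarith
    linarith [hsum k]
  refine ⟨κ, h1.trans (mul_le_mul_of_nonneg_right (hCB.trans hBB) (abs_nonneg _)), hκ.trans hBB,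
    h2, ?_⟩
  have hT : 0 ≤ tang f (φ v) := tang_nonneg f (φ v)
  have hrd : 0 ≤ ‖φ v‖ ^ δ₁ := Real.rpow_nonneg (norm_nonneg _) _
  have e1 : v k * fderiv ℝ (fun w => f (φ w)) v (Pi.single k 1) - l * κ * f (φ v) =
      (v k * fderiv ℝ (fun w => f (φ w)) v (Pi.single k 1) - κ * rad f (φ v)) +
        κ * (rad f (φ v) - l * f (φ v)) := by ring
  rw [e1]
  refine (abs_add_le _ _).trans (add_le_add ?_ ?_)
  · refine h3.trans (mul_le_mul_of_nonneg_right ?_ hT)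
    exact mul_le_mul_of_nonneg_right (hCB.trans hBB) (Real.sqrt_nonneg _)
  · rw [abs_mul]
    have e2 : |rad f (φ v) - l * f (φ v)| ≤ |C₁| * ‖φ v‖ ^ δ₁ * f (φ v) := by
      refine hR.trans (mul_le_mul_of_nonneg_right ?_ hfv.le)
      exact mul_le_mul_of_nonneg_right (le_abs_self _) hrd
    calc |κ| * |rad f (φ v) - l * f (φ v)| ≤ B * (|C₁| * ‖φ v‖ ^ δ₁ * f (φ v)) :=
          mul_le_mul hκ e2 (abs_nonneg _) hB0
      _ = (B * |C₁|) * ‖φ v‖ ^ δ₁ * f (φ v) := by ring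
      _ ≤ (B + B * |C₁|) * ‖φ v‖ ^ δ₁ * f (φ v) := by
          refine mul_le_mul_of_nonneg_right (mul_le_mul_of_nonneg_right ?_ hrd) hfv.le
          linarith

/-- Case A. -/
private theorem K05_caseA (f : EE n → ℝ) (hf : AnalyticAt ℝ f 0) (hf0 : f 0 = 0)
    (φ : (Fin n → ℝ) → EE n) (ρ : Fin n → ℕ) (β : Fin n → Fin n → ℕ) (h : IsChart φ ρ β)
    (α : Fin n → ℕ) (hα : Mon (fun v => f (φ v)) α) (l b C₁ δ₁ : ℝ) (hδ₁ : 0 < δ₁)
    (k : Fin n) (hk : (α k : ℝ) ≠ l * (ρ k / 2)) :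
    ∃ m : ℕ, 2 ≤ m ∧ ∀ᶠ v in 𝓝 (0 : Fin n → ℝ), 0 < f (φ v) →
      |Real.log (f (φ v)) - l * Real.log ‖φ v‖ - b| ≤ 1 / (m : ℝ) →
      |rad f (φ v) - l * f (φ v)| ≤ C₁ * ‖φ v‖ ^ δ₁ * f (φ v) →
      (1 / (m : ℝ)) * |Real.log (f (φ v)) - l * Real.log ‖φ v‖ - b| ^ (1 - 1 / (m : ℝ)) *
        f (φ v) ≤ tang f (φ v) := by
  obtain ⟨C, hC0, hC⟩ := K05_basic f hf hf0 φ ρ β h l C₁ δ₁
  obtain ⟨Cf, hCf0, hCf⟩ := hα.logDeriv
  set d : ℝ := |(α k : ℝ) - l * (ρ k / 2)| with hd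
  have hd0 : 0 < d := abs_pos.2 (sub_ne_zero.2 hk)
  obtain ⟨m, hm⟩ := exists_nat_ge (max 2 (4 * C / d))
  have hm2 : (2 : ℝ) ≤ m := (le_max_left _ _).trans hm
  have hmC : 4 * C / d ≤ m := (le_max_right _ _).trans hm
  refine ⟨m, by exact_mod_cast hm2, ?_⟩
  set η : ℝ := min 1 (d / (4 * (Cf + |l| * C + 1))) with hη
  have hden : 0 < 4 * (Cf + |l| * C + 1) := by positivity
  have hη0 : 0 < η := lt_min one_pos (by positivity)
  set η' : ℝ := d / (4 * (C + 1)) with hη'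
  have hη'0 : 0 < η' := by positivity
  filter_upwards [hC, hCf, K05_small (n := n) hη0, K05_rpow h.an.continuousAt h.zero hδ₁ hη'0]
    with v h1 h2 h3 h4 hfv hlam hR
  obtain ⟨κ, k1, k2, k3, k4⟩ := h1 hfv hR k
  have hT : 0 ≤ tang f (φ v) := tang_nonneg f (φ v)
  have hvk1 : |v k| ≤ 1 := (h3 k).trans (min_le_left _ _)
  have hvk2 : |v k| * (Cf + |l| * C + 1) ≤ d / 4 := by
    have h5 : |v k| ≤ d / (4 * (Cf + |l| * C + 1)) := (h3 k).trans (min_le_right _ _)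
    rw [le_div_iff₀ hden] at h5
    linarith
  have hrC : C * ‖φ v‖ ^ δ₁ ≤ d / 4 := by
    have h5 : ‖φ v‖ ^ δ₁ * (4 * (C + 1)) ≤ d := by
      rw [hη', le_div_iff₀ (by positivity)] at h4
      exact h4
    have h6 : 0 ≤ ‖φ v‖ ^ δ₁ := Real.rpow_nonneg (norm_nonneg _) _
    nlinarith
  have hsq : Real.sqrt |v k| ≤ 1 := Real.sqrt_le_one.2 hvk1
  set g := f (φ v) with hg
  set Dg := v k * fderiv ℝ (fun w => f (φ w)) v (Pi.single k 1) with hDg
  have h5 := h2 k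
  have e1 : d * g ≤ |Dg - α k * g| + |Dg - l * κ * g| + |l| * |κ - ρ k / 2| * g := by
    have e2 : d * g = |((α k : ℝ) - l * (ρ k / 2)) * g| := by
      rw [abs_mul, abs_of_pos hfv]
    have e3 : ((α k : ℝ) - l * (ρ k / 2)) * g =
        -(Dg - α k * g) + (Dg - l * κ * g) + l * (κ - ρ k / 2) * g := by ring
    rw [e2, e3]
    refine (abs_add_le _ _).trans (add_le_add ((abs_add_le _ _).trans ?_) ?_)
    · rw [abs_neg]
    · rw [abs_mul, abs_mul, abs_of_pos hfv]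
  have e4 : |Dg - α k * g| ≤ Cf * |v k| * g := by
    have e4' : |Dg - α k * g| ≤ Cf * |v k| * |g| := h5
    rwa [abs_of_pos hfv] at e4'
  have e5 : |l| * |κ - ρ k / 2| * g ≤ |l| * (C * |v k|) * g :=
    mul_le_mul_of_nonneg_right (mul_le_mul_of_nonneg_left k1 (abs_nonneg l)) hfv.le
  have e6 : C * Real.sqrt |v k| * tang f (φ v) ≤ C * tang f (φ v) := by
    refine mul_le_mul_of_nonneg_right ?_ hT
    calc C * Real.sqrt |v k| ≤ C * 1 := mul_le_mul_of_nonneg_left hsq hC0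
      _ = C := mul_one C
  have e7 : d / 2 * g ≤ C * tang f (φ v) := by
    have e8 : (Cf * |v k| + |l| * (C * |v k|)) * g ≤ d / 4 * g := by
      refine mul_le_mul_of_nonneg_right ?_ hfv.le
      have := abs_nonneg (v k)
      nlinarith
    have e9 : C * ‖φ v‖ ^ δ₁ * g ≤ d / 4 * g := mul_le_mul_of_nonneg_right hrC hfv.le
    linarith
  have hy1 : |Real.log g - l * Real.log ‖φ v‖ - b| ≤ 1 := by
    refine hlam.trans ?_
    rw [div_le_one (by linarith)]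
    linarith
  have e10 : |Real.log g - l * Real.log ‖φ v‖ - b| ^ (1 - 1 / (m : ℝ)) ≤ 1 := by
    refine Real.rpow_le_one (abs_nonneg _) hy1 ?_
    have : 1 / (m : ℝ) ≤ 1 := by
      rw [div_le_one (by linarith)]
      linarith
    linarith
  have e11 : g ≤ m * tang f (φ v) := by
    have e12 : 4 * C ≤ m * d := by
      rw [div_le_iff₀ hd0] at hmC
      exact hmC
    have e13 : d * g ≤ d * (m * tang f (φ v)) := by
      have := mul_le_mul_of_nonneg_right e12 hT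
      have := mul_nonneg hC0 hT
      nlinarith
    exact le_of_mul_le_mul_left e13 hd0
  have hm0 : (0 : ℝ) < m := by linarith
  calc 1 / (m : ℝ) * |Real.log g - l * Real.log ‖φ v‖ - b| ^ (1 - 1 / (m : ℝ)) * g
      ≤ 1 / (m : ℝ) * 1 * g := by
        refine mul_le_mul_of_nonneg_right (mul_le_mul_of_nonneg_left e10 (by positivity)) hfv.le
    _ ≤ 1 / (m : ℝ) * 1 * (m * tang f (φ v)) :=
        mul_le_mul_of_nonneg_left e11 (by positivity)
    _ = tang f (φ v) := by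
        field_simp

/-- The function `Φ - a` in the chart. -/
private theorem K05_W (f : EE n → ℝ) (hf0 : f 0 = 0) (φ : (Fin n → ℝ) → EE n) (ρ : Fin n → ℕ) (α : Fin n → ℕ)
    (hα : Mon (fun v => f (φ v)) α) (hρ : Mon (fun v => ‖φ v‖ ^ 2) ρ) (p q : ℕ) (a : ℝ)
    (hB : ∀ k, 2 * q * α k = p * ρ k) (γ : Fin n → ℕ)
    (hγ : Mon (fun v => f (φ v) ^ (2 * q) - a * (‖φ v‖ ^ 2) ^ p) γ) :
    ∃ (W : (Fin n → ℝ) → ℝ) (ω : Fin n → ℕ), Mon W ω ∧ ∀ᶠ v in 𝓝 (0 : Fin n → ℝ),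
      0 < f (φ v) → 0 < ‖φ v‖ ^ 2 ∧ W v = f (φ v) ^ (2 * q) / (‖φ v‖ ^ 2) ^ p - a := by
  obtain ⟨εf, hεf, hεf0, hef⟩ := hα
  obtain ⟨ερ, hερ, hερ0, heρ⟩ := hρ
  set W : (Fin n → ℝ) → ℝ := fun v => εf v ^ (2 * q) / ερ v ^ p - a with hW
  have hWa : AnalyticAt ℝ W 0 :=
    ((hεf.pow _).div (hερ.pow _) (pow_ne_zero _ hερ0)).sub analyticAt_const
  have hερne : ∀ᶠ v in 𝓝 (0 : Fin n → ℝ), ερ v ≠ 0 := hερ.continuousAt.eventually_ne hερ0
  have hinv : Mon (fun v => (ερ v ^ p)⁻¹) (fun _ => 0) :=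
    Mon.unit ((hερ.pow p).inv (pow_ne_zero _ hερ0)) (inv_ne_zero (pow_ne_zero _ hερ0))
  have hprod : ∀ v : Fin n → ℝ, (∏ i, v i ^ α i) ^ (2 * q) = ∏ i, v i ^ (p * ρ i) := by
    intro v
    rw [← Finset.prod_pow]
    refine Finset.prod_congr rfl fun i _ => ?_
    rw [← pow_mul, mul_comm (α i), hB i]
  have hprod2 : ∀ v : Fin n → ℝ, (∏ i, v i ^ ρ i) ^ p = ∏ i, v i ^ (p * ρ i) := by
    intro v
    rw [← Finset.prod_pow]
    refine Finset.prod_congr rfl fun i _ => ?_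
    rw [← pow_mul, mul_comm (ρ i)]
  have hmon : Mon (fun v => (∏ i, v i ^ (p * ρ i)) * W v) (γ + fun _ => 0) := by
    refine Mon.congr ?_ (hγ.mul hinv)
    filter_upwards [hef, heρ, hερne] with v h1 h2 h3
    rw [h1, h2, mul_pow, mul_pow, hprod, hprod2, hW]
    have h4 : ερ v ^ p ≠ 0 := pow_ne_zero _ h3
    field_simp
  obtain ⟨ω, hω⟩ := Mon.of_mul_monomial hWa hmon
  refine ⟨W, ω, hω, ?_⟩
  filter_upwards [hef, heρ, hερne] with v h1 h2 h3 h4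
  have h4' : 0 < (∏ i, v i ^ α i) * εf v := by
    rw [← h1]
    exact h4
  have h5 : (∏ i, v i ^ α i) ≠ 0 := by
    intro h0
    rw [h0, zero_mul] at h4'
    exact lt_irrefl _ h4'
  have h6 : ∏ i, v i ^ (p * ρ i) ≠ 0 := by
    rw [← hprod]
    exact pow_ne_zero _ h5
  refine ⟨?_, ?_⟩
  · have h7 : φ v ≠ 0 := by
      intro h0
      rw [h0, hf0] at h4
      exact lt_irrefl _ h4
    positivity
  · rw [h1, h2, mul_pow, mul_pow, hprod, hprod2, mul_div_mul_left _ _ h6]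

private theorem K05_log {g r : ℝ} (hg : 0 < g) (hr : 0 < r) {p q : ℕ} (hq : 1 ≤ q) (b : ℝ) :
    g ^ (2 * q) / (r ^ 2) ^ p - Real.exp (2 * q * b) =
      Real.exp (2 * q * b) * (Real.exp (2 * q * (Real.log g - (p / q : ℝ) * Real.log r - b)) - 1)
      ∧ g ^ (2 * q) / (r ^ 2) ^ p =
      Real.exp (2 * q * b) * Real.exp (2 * q * (Real.log g - (p / q : ℝ) * Real.log r - b)) := by
  have hq0 : (0 : ℝ) < q := by exact_mod_cast hq
  have h1 : g ^ (2 * q) = Real.exp (2 * q * Real.log g) := by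
    rw [← Real.exp_log hg, ← Real.exp_nat_mul, Real.log_exp]
    push_cast
    ring_nf
  have h2 : (r ^ 2) ^ p = Real.exp (2 * p * Real.log r) := by
    rw [← pow_mul, ← Real.exp_log hr, ← Real.exp_nat_mul, Real.log_exp]
    push_cast
    ring_nf
  have h3 : g ^ (2 * q) / (r ^ 2) ^ p =
      Real.exp (2 * q * b) * Real.exp (2 * q * (Real.log g - (p / q : ℝ) * Real.log r - b)) := by
    rw [h1, h2, ← Real.exp_sub, ← Real.exp_add]
    congr 1
    field_simp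
    ring
  refine ⟨?_, h3⟩
  rw [h3]
  ring

/-- the derivative of `Φ - a` in the direction of `e` -/
private theorem K05_deriv {g S W : (Fin n → ℝ) → ℝ} {v e : Fin n → ℝ} {p q : ℕ} {a : ℝ}
    (hg : DifferentiableAt ℝ g v) (hS : DifferentiableAt ℝ S v) (hgv : 0 < g v) (hSv : 0 < S v)
    (hW : ∀ᶠ w in 𝓝 v, 0 < g w → 0 < S w ∧ W w = g w ^ (2 * q) / S w ^ p - a) :
    fderiv ℝ W v e = g v ^ (2 * q) / S v ^ p *
      (2 * q * (fderiv ℝ g v e / g v) - p * (fderiv ℝ S v e / S v)) := by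
  have hgpos : ∀ᶠ w in 𝓝 v, 0 < g w := hg.continuousAt.tendsto.eventually (lt_mem_nhds hgv)
  have hΦ : ∀ w, 0 < g w → 0 < S w → g w ^ (2 * q) / S w ^ p =
      Real.exp (2 * q * Real.log (g w) - p * Real.log (S w)) := by
    intro w h1 h2
    rw [Real.exp_sub]
    congr 1
    · rw [← Real.exp_log h1, ← Real.exp_nat_mul, Real.log_exp]
      push_cast
      ring_nf
    · rw [← Real.exp_log h2, ← Real.exp_nat_mul, Real.log_exp]
  have heq : W =ᶠ[𝓝 v] fun w => Real.exp (2 * q * Real.log (g w) - p * Real.log (S w)) - a := by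
    filter_upwards [hW, hgpos] with w h1 h2
    rw [(h1 h2).2, hΦ w h2 (h1 h2).1]
  have hd : HasFDerivAt (fun w => Real.exp (2 * q * Real.log (g w) - p * Real.log (S w)) - a)
      (Real.exp (2 * q * Real.log (g v) - p * Real.log (S v)) •
        ((2 * (q : ℝ)) • ((g v)⁻¹ • fderiv ℝ g v) - (p : ℝ) • ((S v)⁻¹ • fderiv ℝ S v))) v := by
    have h1 := (hg.hasFDerivAt.log hgv.ne').const_mul (2 * (q : ℝ))
    have h2 := (hS.hasFDerivAt.log hSv.ne').const_mul (p : ℝ)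
    exact ((h1.sub h2).exp).sub_const a
  rw [heq.fderiv_eq, hd.fderiv, hΦ v hgv hSv]
  simp only [_root_.smul_apply, _root_.sub_apply, smul_eq_mul]
  ring


/-- two-sided bound of `Φ - a` -/
private theorem K05_two {g r Wv b : ℝ} (hg : 0 < g) (hr : 0 < r) {p q : ℕ} (hq : 1 ≤ q)
    (hW : Wv = g ^ (2 * q) / (r ^ 2) ^ p - Real.exp (2 * q * b))
    (hy : |Real.log g - (p / q : ℝ) * Real.log r - b| ≤ 1) :
    Real.exp (2 * q * b) * (2 * q) * Real.exp (-(2 * q)) *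
        |Real.log g - (p / q : ℝ) * Real.log r - b| ≤ |Wv| ∧
      |Wv| ≤ Real.exp (2 * q * b) * (2 * q) * Real.exp (2 * q) *
        |Real.log g - (p / q : ℝ) * Real.log r - b| ∧
      g ^ (2 * q) / (r ^ 2) ^ p ≤ Real.exp (2 * q * b) * Real.exp (2 * q) := by
  obtain ⟨h1, h2⟩ := K05_log (p := p) hg hr hq b
  have hq0 : (0 : ℝ) < q := by exact_mod_cast hq
  set y := Real.log g - (p / q : ℝ) * Real.log r - b with hydef
  have hu : |2 * q * y| = 2 * q * |y| := by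
    rw [abs_mul, abs_of_pos (by positivity : (0 : ℝ) < 2 * q)]
  have hu1 : |2 * q * y| ≤ 2 * q := by
    rw [hu]
    nlinarith
  have ha := Real.exp_pos (2 * q * b)
  obtain ⟨h3, h4⟩ := K05_exp hu1
  have hWv : |Wv| = Real.exp (2 * q * b) * |Real.exp (2 * q * y) - 1| := by
    rw [hW, h1, abs_mul, abs_of_pos ha]
  rw [hu] at h3 h4
  refine ⟨?_, ?_, ?_⟩
  · rw [hWv]
    have := mul_le_mul_of_nonneg_left h3 ha.le
    linarith
  · rw [hWv]
    have := mul_le_mul_of_nonneg_left h4 ha.le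
    linarith
  · rw [h2]
    refine mul_le_mul_of_nonneg_left (Real.exp_le_exp.2 ?_) ha.le
    exact (le_abs_self _).trans hu1

set_option maxHeartbeats 4000000 in
theorem asym_chart (f : EE n → ℝ) (hf : AnalyticAt ℝ f 0) (hf0 : f 0 = 0) (φ : (Fin n → ℝ) → EE n)
    (ρ : Fin n → ℕ) (β : Fin n → Fin n → ℕ) (h : IsChart φ ρ β) (α : Fin n → ℕ)
    (hα : Mon (fun v => f (φ v)) α) (p q : ℕ) (hp : 1 ≤ p) (hq : 1 ≤ q) (b C₁ δ₁ : ℝ) (hδ₁ : 0 < δ₁)
    (γ : Fin n → ℕ)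
    (hγ : Mon (fun v => f (φ v) ^ (2 * q) - Real.exp (2 * q * b) * (‖φ v‖ ^ 2) ^ p) γ) :
    ∃ m : ℕ, 2 ≤ m ∧ ∀ᶠ v in 𝓝 (0 : Fin n → ℝ), 0 < f (φ v) →
      |Real.log (f (φ v)) - (p / q : ℝ) * Real.log ‖φ v‖ - b| ≤ 1 / (m : ℝ) →
      ‖φ v‖ ^ (δ₁ / 2) ≤ |Real.log (f (φ v)) - (p / q : ℝ) * Real.log ‖φ v‖ - b| →
      |rad f (φ v) - (p / q : ℝ) * f (φ v)| ≤ C₁ * ‖φ v‖ ^ δ₁ * f (φ v) →
      (1 / (m : ℝ)) * |Real.log (f (φ v)) - (p / q : ℝ) * Real.log ‖φ v‖ - b| ^ (1 - 1 / (m : ℝ)) *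
        f (φ v) ≤ tang f (φ v) := by
  have hq0 : (0 : ℝ) < q := by exact_mod_cast hq
  by_cases hB : ∀ k, 2 * q * α k = p * ρ k
  swap
  · -- case A
    push Not at hB
    obtain ⟨k, hk⟩ := hB
    have hk' : (α k : ℝ) ≠ (p / q : ℝ) * (ρ k / 2) := by
      intro h1
      apply hk
      have h2 : (2 : ℝ) * q * α k = p * ρ k := by
        rw [h1]
        field_simp
      exact_mod_cast h2
    obtain ⟨m, hm, hev⟩ := K05_caseA f hf hf0 φ ρ β h α hα (p / q : ℝ) b C₁ δ₁ hδ₁ k hk'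
    exact ⟨m, hm, hev.mono fun v hv h1 h2 _ h4 => hv h1 h2 h4⟩
  -- case B
  obtain ⟨W, ω, hω, hWev⟩ := K05_W f hf0 φ ρ α hα h.sq p q (Real.exp (2 * q * b)) hB γ hγ
  set a : ℝ := Real.exp (2 * q * b) with ha
  have ha0 : 0 < a := Real.exp_pos _
  set ca : ℝ := a * (2 * q) * Real.exp (-(2 * q)) with hca
  set Ca : ℝ := a * (2 * q) * Real.exp (2 * q) with hCa
  have hca0 : 0 < ca := by positivity
  have hCa0 : 0 < Ca := by positivity
  have hrpos : ∀ v, 0 < f (φ v) → 0 < ‖φ v‖ := by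
    intro v hv
    rw [norm_pos_iff]
    intro h0
    rw [h0, hf0] at hv
    exact lt_irrefl _ hv
  by_cases hω0 : ω = fun _ => 0
  · -- B1
    have hW0 : W 0 ≠ 0 := hω.apply_zero_ne hω0
    have hW0' : 0 < |W 0| := abs_pos.2 hW0
    have hWc : ContinuousAt W 0 := hω.analytic.continuousAt
    have hbig : ∀ᶠ v in 𝓝 (0 : Fin n → ℝ), |W 0| / 2 < |W v| :=
      hWc.abs.tendsto.eventually (lt_mem_nhds (by linarith))
    obtain ⟨m, hm⟩ := exists_nat_ge (max 2 (2 * Ca / |W 0|))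
    have hm2 : (2 : ℝ) ≤ m := (le_max_left _ _).trans hm
    have hmC : 2 * Ca / |W 0| ≤ m := (le_max_right _ _).trans hm
    refine ⟨m, by exact_mod_cast hm2, ?_⟩
    filter_upwards [hWev, hbig] with v h1 h2 hfv hy _ _
    exfalso
    have hr := hrpos v hfv
    have hy1 : |Real.log (f (φ v)) - (p / q : ℝ) * Real.log ‖φ v‖ - b| ≤ 1 := by
      refine hy.trans ?_
      rw [div_le_one (by linarith)]
      linarith
    have h3 := (K05_two hfv hr hq (h1 hfv).2 hy1).2.1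
    have h4 : Ca * |Real.log (f (φ v)) - (p / q : ℝ) * Real.log ‖φ v‖ - b| ≤ Ca * (1 / m) :=
      mul_le_mul_of_nonneg_left hy hCa0.le
    have h5 : Ca * (1 / m) ≤ |W 0| / 2 := by
      rw [div_le_iff₀ hW0'] at hmC
      rw [mul_one_div, div_le_iff₀ (by linarith)]
      linarith
    linarith
  -- B2
  obtain ⟨C, hC0, hC⟩ := K05_basic f hf hf0 φ ρ β h (p / q : ℝ) C₁ δ₁
  obtain ⟨CW, hCW0, hCW⟩ := hω.logDeriv
  obtain ⟨εW, hεW, hεW0, heW⟩ := id hω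
  set w : ℕ := ∑ k, ω k with hw
  have hw1 : 1 ≤ w := by
    by_contra hcon
    have h0 : w = 0 := by omega
    apply hω0
    funext k
    have := Finset.sum_eq_zero_iff.1 h0 k (Finset.mem_univ k)
    exact this
  set cW : ℝ := |εW 0| / 2 with hcW
  have hcW0 : 0 < cW := by
    have := abs_pos.2 hεW0
    positivity
  have hcWev : ∀ᶠ v in 𝓝 (0 : Fin n → ℝ), cW < |εW v| :=
    hεW.continuousAt.abs.tendsto.eventually (lt_mem_nhds (by
      have := abs_pos.2 hεW0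
      show |εW 0| / 2 < |εW 0|
      linarith))
  set Φ₁ : ℝ := a * Real.exp (2 * q) with hΦ₁
  have hΦ₁0 : 0 < Φ₁ := by positivity
  set C₃ : ℝ := 4 * (Φ₁ * (2 * q) * C) / ca with hC₃
  have hC₃0 : 0 ≤ C₃ := by positivity
  set D : ℝ := C₃ ^ w * Real.sqrt (Ca / cW) with hD
  obtain ⟨m, hm⟩ := exists_nat_ge (max (max 2 (2 * (w : ℝ))) D)
  have hm2 : (2 : ℝ) ≤ m := (le_max_left _ _).trans ((le_max_left _ _).trans hm)
  have hm2w : 2 * (w : ℝ) ≤ m := (le_max_right _ _).trans ((le_max_left _ _).trans hm)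
  have hmD : D ≤ m := (le_max_right _ _).trans hm
  refine ⟨m, by exact_mod_cast hm2, ?_⟩
  have hη1 : 0 < 1 / (2 * (CW + 1)) := by positivity
  have hη2 : 0 < ca / (4 * (Φ₁ * (2 * q) * C + 1)) := by positivity
  have hga : ∀ᶠ v in 𝓝 (0 : Fin n → ℝ), AnalyticAt ℝ (fun v => f (φ v)) v :=
    hα.analytic.eventually_analyticAt
  have hSa : ∀ᶠ v in 𝓝 (0 : Fin n → ℝ), AnalyticAt ℝ (fun v => ‖φ v‖ ^ 2) v :=
    h.sq.analytic.eventually_analyticAt
  filter_upwards [hC, hCW, heW, hcWev, hWev, hWev.eventually_nhds, K05_small (n := n) hη1,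
    K05_rpow h.an.continuousAt h.zero (half_pos hδ₁) hη2, hga, hSa]
    with v h1 h2 h3 h4 h5 h6 h7 h8 h9 h10 hfv hy hry hR
  have hr := hrpos v hfv
  have hT : 0 ≤ tang f (φ v) := tang_nonneg f (φ v)
  have hS : 0 < ‖φ v‖ ^ 2 := by positivity
  have hy1 : |Real.log (f (φ v)) - (p / q : ℝ) * Real.log ‖φ v‖ - b| ≤ 1 := by
    refine hy.trans ?_
    rw [div_le_one (by linarith)]
    linarith
  obtain ⟨t1, t2, t3⟩ := K05_two hfv hr hq (h5 hfv).2 hy1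
  set y : ℝ := |Real.log (f (φ v)) - (p / q : ℝ) * Real.log ‖φ v‖ - b| with hydef
  have hy0 : 0 < y := lt_of_lt_of_le (Real.rpow_pos_of_pos hr _) hry
  set g : ℝ := f (φ v) with hg
  set X : ℝ := tang f (φ v) / g with hX
  have hX0 : 0 ≤ X := div_nonneg hT hfv.le
  have hrr : ‖φ v‖ ^ δ₁ = ‖φ v‖ ^ (δ₁ / 2) * ‖φ v‖ ^ (δ₁ / 2) := by
    rw [← Real.rpow_add hr, add_halves]
  have hrd : Φ₁ * (2 * q) * C * ‖φ v‖ ^ δ₁ ≤ ca / 4 * y := by
    have e1 : Φ₁ * (2 * q) * C * ‖φ v‖ ^ (δ₁ / 2) ≤ ca / 4 := by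
      have e2 : ‖φ v‖ ^ (δ₁ / 2) * (4 * (Φ₁ * (2 * q) * C + 1)) ≤ ca := by
        rw [le_div_iff₀ (by positivity)] at h8
        exact h8
      have e3 : 0 ≤ ‖φ v‖ ^ (δ₁ / 2) := Real.rpow_nonneg hr.le _
      nlinarith
    rw [hrr]
    calc Φ₁ * (2 * q) * C * (‖φ v‖ ^ (δ₁ / 2) * ‖φ v‖ ^ (δ₁ / 2)) =
          Φ₁ * (2 * q) * C * ‖φ v‖ ^ (δ₁ / 2) * ‖φ v‖ ^ (δ₁ / 2) := by ring
      _ ≤ ca / 4 * y := mul_le_mul e1 hry (Real.rpow_nonneg hr.le _) (by positivity)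
  -- the estimate for one index
  have hone : ∀ k, 1 ≤ ω k → y ≤ C₃ * Real.sqrt |v k| * X := by
    intro k hk
    obtain ⟨κ, k1, k2, k3, k4⟩ := h1 hfv hR k
    have hk1 : (1 : ℝ) ≤ ω k := by exact_mod_cast hk
    have hder := K05_deriv (g := fun v => f (φ v)) (S := fun v => ‖φ v‖ ^ 2) (W := W) (v := v)
      (e := Pi.single k 1) (p := p) (q := q) (a := a) h9.differentiableAt h10.differentiableAt
      hfv hS h6
    have hvder : v k * fderiv ℝ W v (Pi.single k 1) = g ^ (2 * q) / (‖φ v‖ ^ 2) ^ p * (2 * q) *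
        ((v k * fderiv ℝ (fun w => f (φ w)) v (Pi.single k 1) - (p / q : ℝ) * κ * g) / g) := by
      rw [hder]
      have e1 : v k * (fderiv ℝ (fun v => ‖φ v‖ ^ 2) v (Pi.single k 1) / ‖φ v‖ ^ 2) = 2 * κ := by
        rw [← mul_div_assoc, k3]
        field_simp
      have e2 : v k * (g ^ (2 * q) / (‖φ v‖ ^ 2) ^ p *
          (2 * q * (fderiv ℝ (fun v => f (φ v)) v (Pi.single k 1) / g) -
            p * (fderiv ℝ (fun v => ‖φ v‖ ^ 2) v (Pi.single k 1) / ‖φ v‖ ^ 2))) =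
          g ^ (2 * q) / (‖φ v‖ ^ 2) ^ p *
          (2 * q * (v k * fderiv ℝ (fun v => f (φ v)) v (Pi.single k 1) / g) -
            p * (v k * (fderiv ℝ (fun v => ‖φ v‖ ^ 2) v (Pi.single k 1) / ‖φ v‖ ^ 2))) := by
        ring
      refine e2.trans ?_
      rw [e1]
      have e3 : g ≠ 0 := hfv.ne'
      field_simp
    have hlow : 1 / 2 * |W v| ≤ |v k * fderiv ℝ W v (Pi.single k 1)| := by
      have e1 := h2 k
      have e2 : CW * |v k| ≤ 1 / 2 := by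
        have e3 := h7 k
        rw [le_div_iff₀ (by positivity)] at e3
        have := abs_nonneg (v k)
        nlinarith
      have e3 : CW * |v k| * |W v| ≤ 1 / 2 * |W v| :=
        mul_le_mul_of_nonneg_right e2 (abs_nonneg _)
      have e4 : |(ω k : ℝ) * W v| ≤ |v k * fderiv ℝ W v (Pi.single k 1)| +
          |v k * fderiv ℝ W v (Pi.single k 1) - ω k * W v| := by
        have := abs_sub_abs_le_abs_sub ((ω k : ℝ) * W v) (v k * fderiv ℝ W v (Pi.single k 1))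
        rw [abs_sub_comm ((ω k : ℝ) * W v)] at this
        linarith
      have e5 : |W v| ≤ |(ω k : ℝ) * W v| := by
        rw [abs_mul, abs_of_nonneg (by linarith : (0 : ℝ) ≤ ω k)]
        have := abs_nonneg (W v)
        nlinarith
      linarith
    have hup : |v k * fderiv ℝ W v (Pi.single k 1)| ≤
        Φ₁ * (2 * q) * (C * Real.sqrt |v k| * X + C * ‖φ v‖ ^ δ₁) := by
      have hΦ0 : 0 ≤ g ^ (2 * q) / (‖φ v‖ ^ 2) ^ p := by positivity
      rw [hvder, abs_mul, abs_mul, abs_of_nonneg hΦ0,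
        abs_of_pos (by positivity : (0 : ℝ) < 2 * q), abs_div, abs_of_pos hfv]
      refine mul_le_mul (mul_le_mul_of_nonneg_right t3 (by positivity)) ?_ (by positivity)
        (by positivity)
      rw [div_le_iff₀ hfv]
      refine k4.trans (le_of_eq ?_)
      rw [hX]
      field_simp
    have hfin : ca / 4 * y ≤ Φ₁ * (2 * q) * C * Real.sqrt |v k| * X := by
      have e1 : 1 / 2 * (ca * y) ≤ 1 / 2 * |W v| := by linarith
      have e2 : Φ₁ * (2 * q) * (C * Real.sqrt |v k| * X + C * ‖φ v‖ ^ δ₁) =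
          Φ₁ * (2 * q) * C * Real.sqrt |v k| * X + Φ₁ * (2 * q) * C * ‖φ v‖ ^ δ₁ := by ring
      linarith
    rw [hC₃]
    have e3 : 4 * (Φ₁ * (2 * q) * C) / ca * Real.sqrt |v k| * X =
        (Φ₁ * (2 * q) * C * Real.sqrt |v k| * X) / (ca / 4) := by
      field_simp
    rw [e3, le_div_iff₀ (by positivity)]
    linarith
  -- the product
  have hprod : y ^ w ≤ D * Real.sqrt y * X ^ w := by
    have e1 : y ^ w ≤ ∏ k, (C₃ * Real.sqrt |v k| * X) ^ ω k := by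
      rw [hw, ← Finset.prod_pow_eq_pow_sum]
      refine Finset.prod_le_prod (fun k _ => by positivity) fun k _ => ?_
      rcases Nat.eq_zero_or_pos (ω k) with h0 | h0
      · rw [h0, pow_zero, pow_zero]
      · exact pow_le_pow_left₀ hy0.le (hone k h0) _
    have e2 : ∏ k, (C₃ * Real.sqrt |v k| * X) ^ ω k =
        C₃ ^ w * Real.sqrt (∏ k, |v k| ^ ω k) * X ^ w := by
      have e3 : Real.sqrt (∏ k, |v k| ^ ω k) = ∏ k, Real.sqrt |v k| ^ ω k := by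
        have e4 : ∏ k, |v k| ^ ω k = (∏ k, Real.sqrt |v k| ^ ω k) ^ 2 := by
          rw [← Finset.prod_pow]
          refine Finset.prod_congr rfl fun k _ => ?_
          rw [← pow_mul, mul_comm, pow_mul, Real.sq_sqrt (abs_nonneg _)]
        rw [e4, Real.sqrt_sq]
        exact Finset.prod_nonneg fun k _ => by positivity
      rw [e3, hw, ← Finset.prod_pow_eq_pow_sum, ← Finset.prod_pow_eq_pow_sum,
        ← Finset.prod_mul_distrib, ← Finset.prod_mul_distrib]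
      refine Finset.prod_congr rfl fun k _ => ?_
      rw [mul_pow, mul_pow]
    have e3 : ∏ k, |v k| ^ ω k ≤ Ca / cW * y := by
      have e4 : |W v| = (∏ k, |v k| ^ ω k) * |εW v| := by
        rw [h3, abs_mul, Finset.abs_prod]
        simp only [abs_pow]
      have e5 : (∏ k, |v k| ^ ω k) * cW ≤ Ca * y := by
        have e6 : (∏ k, |v k| ^ ω k) * cW ≤ (∏ k, |v k| ^ ω k) * |εW v| :=
          mul_le_mul_of_nonneg_left h4.le (Finset.prod_nonneg fun k _ => by positivity)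
        linarith
      rw [div_mul_eq_mul_div, le_div_iff₀ hcW0]
      exact e5
    have e4 : Real.sqrt (∏ k, |v k| ^ ω k) ≤ Real.sqrt (Ca / cW) * Real.sqrt y := by
      rw [← Real.sqrt_mul (by positivity)]
      exact Real.sqrt_le_sqrt e3
    rw [e2] at e1
    refine e1.trans ?_
    have e5 : C₃ ^ w * Real.sqrt (∏ k, |v k| ^ ω k) ≤ D * Real.sqrt y := by
      rw [hD, mul_assoc]
      exact mul_le_mul_of_nonneg_left e4 (by positivity)
    exact mul_le_mul_of_nonneg_right e5 (by positivity)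
  have hres := K05_final hy0 hy1 hX0 hw1 (by exact_mod_cast hm2w) hmD hprod
  rw [hX, le_div_iff₀ hfv] at hres
  exact hres


end Pool.Agent.helper62.GF
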