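import Pool.Agent.helper62.GF.K03
import Pool.Agent.helper62.GF.K04
import Pool.Agent.helper62.GF.K05

/-!
# GF-K06: the cone and asymptotic inequalities near the origin

If `f` vanishes near `0` both are void.  Otherwise `1 ≤ n` and `ev_of_charts`:
`cone_ineq`: `k = 1`, `G = ![f]`, `Pred m x : 1 ≤ m ∧ (‖x‖ ≤ 1 → 0 < f x → …)`; monotone in `m` because
`‖x‖ ^ (1/m)` increases with `m` for `‖x‖ ≤ 1`.
`asym_ineq`: let `g x = f x ^ (2q) - exp (2 q b) * (‖x‖^2)^p`.  If `g` vanishes near `0` then for `f x > 0`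
(so `x ≠ 0`) taking logarithms `λ = b`, contradicting `‖x‖^{δ₁/2} ≤ |λ - b|`, `‖x‖ > 0`; any `m ≥ 2` works.
Otherwise `k = 2`, `G = ![f, g]`, `Pred m x : 2 ≤ m ∧ (…)`; monotone in `m` since `1/m' ≤ 1/m` and for
`|λ - b| ≤ 1`, `|λ - b|^{1-1/m'} ≤ |λ - b|^{1-1/m}`.
-/

open Filter Topology

namespace Pool.Agent.helper62.GF

variable {n : ℕ}

private theorem K06pos (f : EE n → ℝ) (hf0 : f 0 = 0)
    (hz : ¬ ∀ᶠ x in 𝓝 (0 : EE n), f x = 0) : 1 ≤ n := by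
  by_contra hn
  have hn0 : n = 0 := by omega
  subst hn0
  exact hz (Eventually.of_forall fun x => by rw [Subsingleton.elim x 0, hf0])

private theorem K06normsq : AnalyticAt ℝ (fun x : EE n => ‖x‖ ^ 2) 0 := by
  have h1 : (fun x : EE n => ‖x‖ ^ 2) = fun x => ∑ i : Fin n, (x i) ^ 2 := by
    funext x
    rw [EuclideanSpace.norm_sq_eq]
    exact Finset.sum_congr rfl fun i _ => by rw [Real.norm_eq_abs, sq_abs]
  rw [h1]
  refine Finset.analyticAt_fun_sum _ fun i _ => ?_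
  exact (((EuclideanSpace.proj i : EE n →L[ℝ] ℝ)).analyticAt 0).pow 2

theorem cone_ineq (f : EE n → ℝ) (hf : AnalyticAt ℝ f 0) (hf0 : f 0 = 0) (ε : ℝ) (hε : 0 < ε) :
    ∃ m : ℕ, 1 ≤ m ∧ ∀ᶠ x in 𝓝 (0 : EE n), 0 < f x → ε * tang f x ≤ |rad f x| →
      ∃ p q : ℕ, 1 ≤ p ∧ p ≤ m ∧ 1 ≤ q ∧ q ≤ m ∧
        |rad f x - (p / q : ℝ) * f x| ≤ m * ‖x‖ ^ (1 / (m : ℝ)) * f x ∧
        |Real.log (f x) - (p / q : ℝ) * Real.log ‖x‖| ≤ m := by
  by_cases hz : ∀ᶠ x in 𝓝 (0 : EE n), f x = 0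
  · refine ⟨1, le_rfl, ?_⟩
    filter_upwards [hz] with x hx h1
    exact absurd hx h1.ne'
  have hn := K06pos f hf0 hz
  obtain ⟨m, hm⟩ := ev_of_charts hn (k := 1) (fun _ => f) (fun _ => hf) (fun _ => hz)
    (fun m x => 1 ≤ m ∧ (‖x‖ ≤ 1 → 0 < f x → ε * tang f x ≤ |rad f x| →
      ∃ p q : ℕ, 1 ≤ p ∧ p ≤ m ∧ 1 ≤ q ∧ q ≤ m ∧
        |rad f x - (p / q : ℝ) * f x| ≤ m * ‖x‖ ^ (1 / (m : ℝ)) * f x ∧
        |Real.log (f x) - (p / q : ℝ) * Real.log ‖x‖| ≤ m))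
    (by
      rintro m m' x hmm ⟨h1, h2⟩
      refine ⟨h1.trans hmm, fun hx hfx hc => ?_⟩
      obtain ⟨p, q, hp, hpm, hq, hqm, h3, h4⟩ := h2 hx hfx hc
      have hmm' : (m : ℝ) ≤ m' := by exact_mod_cast hmm
      have hm1 : (1 : ℝ) ≤ m := by exact_mod_cast h1
      refine ⟨p, q, hp, hpm.trans hmm, hq, hqm.trans hmm, h3.trans ?_, h4.trans hmm'⟩
      refine mul_le_mul_of_nonneg_right ?_ hfx.le
      have h5 : ‖x‖ ^ (1 / (m : ℝ)) ≤ ‖x‖ ^ (1 / (m' : ℝ)) :=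
        Real.rpow_le_rpow_of_exponent_ge' (norm_nonneg _) hx (by positivity)
          (one_div_le_one_div_of_le (by linarith) hmm')
      exact mul_le_mul hmm' h5 (by positivity) (by positivity))
    (by
      intro φ ρ β hφ hG
      obtain ⟨α, hα⟩ := hG 0
      obtain ⟨m, h1, h2⟩ := cone_chart f hf hf0 φ ρ β hφ α hα ε hε
      refine ⟨m, ?_⟩
      filter_upwards [h2] with v hv
      exact ⟨h1, fun _ => hv⟩)
  obtain ⟨x0, hx0⟩ := hm.exists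
  refine ⟨m, hx0.1, ?_⟩
  have h1 : ∀ᶠ x in 𝓝 (0 : EE n), ‖x‖ < 1 := by
    have h2 : Tendsto (fun x : EE n => ‖x‖) (𝓝 0) (𝓝 ‖(0 : EE n)‖) := continuous_norm.tendsto 0
    rw [norm_zero] at h2
    exact h2.eventually_lt_const one_pos
  filter_upwards [hm, h1] with x h2 h3
  exact h2.2 h3.le

theorem asym_ineq (f : EE n → ℝ) (hf : AnalyticAt ℝ f 0) (hf0 : f 0 = 0)
    (p q : ℕ) (hp : 1 ≤ p) (hq : 1 ≤ q) (b C₁ δ₁ : ℝ) (hδ₁ : 0 < δ₁) :
    ∃ m : ℕ, 2 ≤ m ∧ ∀ᶠ x in 𝓝 (0 : EE n), 0 < f x →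
      |Real.log (f x) - (p / q : ℝ) * Real.log ‖x‖ - b| ≤ 1 / (m : ℝ) →
      ‖x‖ ^ (δ₁ / 2) ≤ |Real.log (f x) - (p / q : ℝ) * Real.log ‖x‖ - b| →
      |rad f x - (p / q : ℝ) * f x| ≤ C₁ * ‖x‖ ^ δ₁ * f x →
      (1 / (m : ℝ)) * |Real.log (f x) - (p / q : ℝ) * Real.log ‖x‖ - b| ^ (1 - 1 / (m : ℝ)) * f x ≤
        tang f x := by
  by_cases hz : ∀ᶠ x in 𝓝 (0 : EE n), f x = 0
  · refine ⟨2, le_rfl, ?_⟩
    filter_upwards [hz] with x hx h1
    exact absurd hx h1.ne'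
  have hn := K06pos f hf0 hz
  obtain ⟨g, hg⟩ : ∃ g : EE n → ℝ, g = fun x => f x ^ (2 * q) - Real.exp (2 * q * b) * (‖x‖ ^ 2) ^ p :=
    ⟨_, rfl⟩
  have hga : AnalyticAt ℝ g 0 := by
    rw [hg]
    exact (hf.pow (2 * q)).sub (analyticAt_const.mul (K06normsq.pow p))
  by_cases hgz : ∀ᶠ x in 𝓝 (0 : EE n), g x = 0
  · refine ⟨2, le_rfl, ?_⟩
    filter_upwards [hgz] with x hx h1 _ h2
    exfalso
    have hx0 : x ≠ 0 := by
      rintro rfl
      rw [hf0] at h1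
      exact lt_irrefl _ h1
    have hr : 0 < ‖x‖ := norm_pos_iff.2 hx0
    have h3 : f x ^ (2 * q) = Real.exp (2 * q * b) * (‖x‖ ^ 2) ^ p := by
      rw [hg] at hx
      simp only at hx
      linarith
    have h4 := congrArg Real.log h3
    rw [Real.log_pow, Real.log_mul (Real.exp_pos _).ne' (by positivity), Real.log_exp,
      Real.log_pow, Real.log_pow] at h4
    push_cast at h4
    have hq' : (0 : ℝ) < q := by exact_mod_cast hq
    have h5 : Real.log (f x) - (p / q : ℝ) * Real.log ‖x‖ - b = 0 := by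
      field_simp
      linarith
    rw [h5, abs_zero] at h2
    have h6 : 0 < ‖x‖ ^ (δ₁ / 2) := Real.rpow_pos_of_pos hr _
    linarith
  obtain ⟨m, hm⟩ := ev_of_charts hn (k := 2) (fun i => if i = 0 then f else g)
    (fun i => by by_cases h : i = 0 <;> simp only [h, if_true, if_false] <;> assumption)
    (fun i => by by_cases h : i = 0 <;> simp only [h, if_true, if_false] <;> assumption)
    (fun m x => 2 ≤ m ∧ (0 < f x →
      |Real.log (f x) - (p / q : ℝ) * Real.log ‖x‖ - b| ≤ 1 / (m : ℝ) →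
      ‖x‖ ^ (δ₁ / 2) ≤ |Real.log (f x) - (p / q : ℝ) * Real.log ‖x‖ - b| →
      |rad f x - (p / q : ℝ) * f x| ≤ C₁ * ‖x‖ ^ δ₁ * f x →
      (1 / (m : ℝ)) * |Real.log (f x) - (p / q : ℝ) * Real.log ‖x‖ - b| ^ (1 - 1 / (m : ℝ)) * f x ≤
        tang f x))
    (by
      rintro m m' x hmm ⟨h1, h2⟩
      refine ⟨h1.trans hmm, fun hfx h3 h4 h5 => ?_⟩
      have hmm' : (m : ℝ) ≤ m' := by exact_mod_cast hmm
      have hm1 : (2 : ℝ) ≤ m := by exact_mod_cast h1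
      have h6 : 1 / (m' : ℝ) ≤ 1 / (m : ℝ) := one_div_le_one_div_of_le (by linarith) hmm'
      refine le_trans ?_ (h2 hfx (h3.trans h6) h4 h5)
      have h8 : 1 / (m : ℝ) ≤ 1 := by
        rw [div_le_one (by linarith)]
        linarith
      have h7 : |Real.log (f x) - (p / q : ℝ) * Real.log ‖x‖ - b| ^ (1 - 1 / (m' : ℝ)) ≤
          |Real.log (f x) - (p / q : ℝ) * Real.log ‖x‖ - b| ^ (1 - 1 / (m : ℝ)) :=
        Real.rpow_le_rpow_of_exponent_ge' (abs_nonneg _) ((h3.trans h6).trans h8)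
          (by linarith) (by linarith)
      refine mul_le_mul_of_nonneg_right ?_ hfx.le
      exact mul_le_mul h6 h7 (Real.rpow_nonneg (abs_nonneg _) _) (by positivity))
    (by
      intro φ ρ β hφ hG
      obtain ⟨α, hα⟩ := hG 0
      obtain ⟨γ, hγ⟩ := hG 1
      have hα' : Mon (fun v => f (φ v)) α := by simpa using hα
      have hγ' : Mon (fun v => f (φ v) ^ (2 * q) - Real.exp (2 * q * b) * (‖φ v‖ ^ 2) ^ p) γ := by
        have h1 : (fun v => (if (1 : Fin 2) = 0 then f else g) (φ v)) =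
            fun v => f (φ v) ^ (2 * q) - Real.exp (2 * q * b) * (‖φ v‖ ^ 2) ^ p := by
          funext v
          rw [if_neg (by decide), hg]
        rw [← h1]
        exact hγ
      obtain ⟨m, h1, h2⟩ := asym_chart f hf hf0 φ ρ β hφ α hα' p q hp hq b C₁ δ₁ hδ₁ γ hγ'
      refine ⟨m, ?_⟩
      filter_upwards [h2] with v hv
      exact ⟨h1, hv⟩)
  obtain ⟨x0, hx0⟩ := hm.exists
  refine ⟨m, hx0.1, ?_⟩
  filter_upwards [hm] with x h2
  exact h2.2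

end Pool.Agent.helper62.GF
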