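import Pool.Agent.helper62.GF.KDefs

/-!
# GF-K07: barrier lemmas; derivative of `λ_l = log F - l log r` along a trajectory

`barrier_low`: as long as `f < c` it decreases; sup argument.  `barrier_high`: similarly.

`lam_deriv`: `λ_l' = F'/F - l r'/r`, so
`r² F λ_l' = F' r² - l F r r' = -N² + l F R + err`, `|err| ≤ K r N² + l F K r N ≤ K (1 + l m₂) r N²`
(`F ≤ m₂ N`), and `N² = T² + R²`.

`lam_out`: outside the cone (`|R| < ε T`), `ε ≤ 1/2`, `ε l m₂ ≤ 1/2`: `T² ≥ N²/(1+ε²) ≥ (4/5) N²`,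
`|R| l F ≤ ε N l m₂ N ≤ N²/2`; so `T² + R (R - l F) ≥ (3/10) N²`, and for `K (1 + l m₂) r ≤ 1/20`
`r² F λ_l' ≤ - N²/4`.
-/

open Filter Topology Set

namespace Pool.Agent.helper62.GF

private theorem barrier_aux (f f' : ℝ → ℝ) (t₀ c B : ℝ) (hd : ∀ t, t₀ ≤ t → HasDerivAt f (f' t) t)
    (h : ∀ t, t₀ ≤ t → f t = B → f' t < 0) (h0 : f t₀ ≤ B) : ∀ t, t₀ ≤ t → f t ≤ B := by
  intro t ht
  have h1 := image_le_of_deriv_right_lt_deriv_boundary' (f := f) (f' := f') (a := t₀) (b := t)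
    (B := fun _ => B) (B' := fun _ => 0)
    (fun x hx => (hd x hx.1).continuousAt.continuousWithinAt)
    (fun x hx => (hd x hx.1).hasDerivWithinAt) h0 continuousOn_const
    (fun x _ => hasDerivWithinAt_const x _ B) (fun x hx he => h x hx.1 he)
  exact h1 (right_mem_Icc.2 ht)

theorem barrier_low (f f' : ℝ → ℝ) (t₀ c : ℝ) (hd : ∀ t, t₀ ≤ t → HasDerivAt f (f' t) t)
    (h : ∀ t, t₀ ≤ t → f t < c → f' t < 0) (h0 : f t₀ < c) : ∀ t, t₀ ≤ t → f t < c := by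
  intro t ht
  refine lt_of_le_of_lt (barrier_aux f f' t₀ c (f t₀) hd (fun x hx he => h x hx ?_) le_rfl t ht) h0
  rw [he]
  exact h0

theorem barrier_high (f f' : ℝ → ℝ) (t₀ c : ℝ) (hd : ∀ t, t₀ ≤ t → HasDerivAt f (f' t) t)
    (h : ∀ t, t₀ ≤ t → c < f t → f' t < 0) : ∀ t, t₀ ≤ t → f t ≤ max c (f t₀) := by
  intro t ht
  refine le_of_forall_pos_le_add fun δ hδ => ?_
  refine barrier_aux f f' t₀ c _ hd (fun x hx he => h x hx ?_) ?_ t ht
  · rw [he]
    have := le_max_left c (f t₀)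
    linarith
  · have := le_max_right c (f t₀)
    linarith

variable {F r R T N F' r' : ℝ → ℝ} {K m₂ c₀ : ℝ} {N₀ : ℕ}

theorem lam_hasDeriv (h : KData F r R T N F' r' K m₂ c₀ N₀) (l : ℝ) (t : ℝ) (ht : 0 ≤ t) :
    HasDerivAt (fun t => Real.log (F t) - l * Real.log (r t)) (F' t / F t - l * (r' t / r t)) t :=
  ((h.dF t ht).log (h.Fpos t ht).ne').sub (((h.dr t ht).log (h.rpos t ht).ne').const_mul l)

theorem lam_deriv (h : KData F r R T N F' r' K m₂ c₀ N₀) (l : ℝ) (hl : 0 ≤ l) (t : ℝ) (ht : 0 ≤ t) :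
    |r t ^ 2 * F t * (F' t / F t - l * (r' t / r t)) + (T t ^ 2 + R t * (R t - l * F t))| ≤
      K * (1 + l * m₂) * r t * N t ^ 2 := by
  have hF := h.Fpos t ht
  have hr := h.rpos t ht
  have hN := h.Nnn t ht
  have e2 := h.e2 t ht
  have e4 := h.e4 t ht
  have hb := h.bl t ht
  have hp := h.pyth t ht
  have hK := h.K0
  have h1 : r t ^ 2 * F t * (F' t / F t - l * (r' t / r t)) + (T t ^ 2 + R t * (R t - l * F t)) =
      (F' t * r t ^ 2 + N t ^ 2) - l * F t * (r t * r' t + R t) := by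
    rw [hp]
    field_simp
    ring
  rw [h1]
  have h2 : |l * F t * (r t * r' t + R t)| ≤ l * (m₂ * N t) * (K * r t * N t) := by
    rw [abs_mul, abs_of_nonneg (mul_nonneg hl hF.le)]
    exact mul_le_mul (mul_le_mul_of_nonneg_left hb hl) e2 (abs_nonneg _)
      (mul_nonneg hl (hF.le.trans hb))
  calc |(F' t * r t ^ 2 + N t ^ 2) - l * F t * (r t * r' t + R t)|
      ≤ |F' t * r t ^ 2 + N t ^ 2| + |l * F t * (r t * r' t + R t)| := abs_sub _ _
    _ ≤ K * r t * N t ^ 2 + l * (m₂ * N t) * (K * r t * N t) := add_le_add e4 h2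
    _ = K * (1 + l * m₂) * r t * N t ^ 2 := by ring

theorem lam_out (h : KData F r R T N F' r' K m₂ c₀ N₀) (l ε : ℝ) (hl : 0 ≤ l) (hε : 0 < ε)
    (hε2 : ε ≤ 1 / 2) (hεl : ε * l * m₂ ≤ 1 / 2) (t : ℝ) (ht : 0 ≤ t)
    (hr : K * (1 + l * m₂) * r t ≤ 1 / 20) (hout : |R t| < ε * T t) :
    r t ^ 2 * F t * (F' t / F t - l * (r' t / r t)) ≤ -(N t ^ 2) / 4 := by
  have hd := lam_deriv h l hl t ht
  have hF := h.Fpos t ht
  have hN := h.Nnn t ht
  have hT := h.Tnn t ht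
  have hb := h.bl t ht
  have hp := h.pyth t ht
  have hm := h.m20
  have hTN : T t ≤ N t := by
    refine abs_le_of_sq_le_sq' ?_ hN |>.2
    rw [hp]
    nlinarith [sq_nonneg (R t)]
  have h1 : |R t * (l * F t)| ≤ N t ^ 2 / 2 := by
    rw [abs_mul, abs_of_nonneg (mul_nonneg hl hF.le)]
    calc |R t| * (l * F t) ≤ (ε * T t) * (l * (m₂ * N t)) :=
          mul_le_mul hout.le (mul_le_mul_of_nonneg_left hb hl) (mul_nonneg hl hF.le)
            (mul_nonneg hε.le hT)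
      _ = (ε * l * m₂) * (T t * N t) := by ring
      _ ≤ (1 / 2) * (N t * N t) := by
          refine mul_le_mul hεl (mul_le_mul_of_nonneg_right hTN hN) (mul_nonneg hT hN)
            (by norm_num)
      _ = N t ^ 2 / 2 := by ring
  have h2 := (abs_le.1 h1).2
  have h3 : K * (1 + l * m₂) * r t * N t ^ 2 ≤ 1 / 20 * N t ^ 2 :=
    mul_le_mul_of_nonneg_right hr (sq_nonneg _)
  have h4 := (abs_le.1 hd).2
  have h5 : T t ^ 2 + R t * (R t - l * F t) = N t ^ 2 - R t * (l * F t) := by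
    rw [hp]
    ring
  rw [h5] at h4
  have h6 := sq_nonneg (N t)
  linarith

theorem N_pos (h : KData F r R T N F' r' K m₂ c₀ N₀) (t : ℝ) (ht : 0 ≤ t) : 0 < N t := by
  have h1 := (h.Fpos t ht).trans_le (h.bl t ht)
  exact (pos_iff_pos_of_mul_pos h1).1 h.m20

end Pool.Agent.helper62.GF
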