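import Pool.Agent.helper62.GF.K07

/-!
# GF-K08: the index of a trajectory

Choose `ε = min (1/2) (1 / (8 m₂ (N₀ + 1)))`, `m` from the cone property for this `ε`.  Write
`ℓ = log r → -∞`, `λ_l = log F - l ℓ`.  Let `L₀` be the finite set of values `p/q` (`1 ≤ p, q ≤ m`) with
`p/q ≤ N₀`; for `l ≤ N₀`: `ε l m₂ ≤ 1/8`.
(1) For large `t` in the cone (`ε T ≤ |R|`) the ratio `l' = p/q` given by the cone property is `≤ N₀`:
`N₀ ℓ - c₀ ≤ log F ≤ l' ℓ + m` gives `(l' - N₀)(-ℓ) ≤ m + c₀`, impossible for large `t` if `l' > N₀`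
(finitely many `l'`).
(2) For `l ∈ L₀` and large `t`: `λ_l t < -m → λ_l' t < 0` (derivative).  Outside the cone: `lam_out`
(with `N > 0`).  In the cone with ratio `l'`: `λ_l = λ_{l'} + (l' - l) ℓ` and `|λ_{l'}| ≤ m` exclude `l' = l` and
(for `-ℓ` large) `l' < l`; for `l < l'`: `R` is close to `l' F`, so `R ≥ l' F / 2 > 0`,
`R ≤ 2 l' F`, `R - l F ≥ (l' - l) F / 2 ≥ (l' - l) R / (4 l')`; so `T² + R (R - l F) ≥ c N²` with
`c = min 1 ((l'-l)/(4 l')) > 0`, and `lam_deriv` gives a negative derivative once `K (1 + l m₂) r < c`.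
(3) By `barrier_low`, each `l ∈ L₀` satisfies either eventually `λ_l ≥ -m` (`l ∈ A`) or eventually
`λ_l < -m` (`l ∉ A`).
(4) `A ≠ ∅`: otherwise for large `t` we are outside the cone (in the cone `|λ_{l'}| ≤ m` for some
`l' ∈ L₀`).  With `Λ = 1/(4 ε m₂) ≥ 2 (N₀ + 1)`: `F' r² ≤ -N²/2` and
`|r r'| ≤ |R| + K r N ≤ 2 ε N` for `K r ≤ min (1/2) ε`, so
`(log F - Λ ℓ)' ≤ (N/r²)(-N/(2F) + 2 ε Λ) ≤ 0` (`N/F ≥ 1/m₂`, `2 ε Λ = 1/(2 m₂)`); hence
`log F ≤ Λ ℓ + const`, contradiction with `low` and `ℓ → -∞`.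
(5) Let `l* = min A = p/q`.  For large `t` in the cone with ratio `l'`: `l' ∈ A` (else `λ_{l'} < -m`), so
`l' ≥ l*`, and if `l' > l*` then `λ_{l'} = λ_{l*} + (l' - l*)(-ℓ) ≥ -m + (l'-l*)(-ℓ) > m`: contradiction.
So `l' = l*`.  Upper bound of `λ_{l*}`: for large `t`, `λ_{l*} > m` implies that we are outside the cone,
hence decreasing (`lam_out`): `barrier_high`.
(6) Enlarge `m` (for `r ≤ 1`, `m r^{1/m} ≤ m' r^{1/m'}`).
-/

open Filter Topology Set

namespace Pool.Agent.helper62.GF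

variable {F r R T N F' r' : ℝ → ℝ} {K m₂ c₀ : ℝ} {N₀ : ℕ}

/-- the finite set of ratios -/
private noncomputable def K08rat (m : ℕ) : Finset ℝ :=
  ((Finset.Icc 1 m) ×ˢ (Finset.Icc 1 m)).image (fun pq : ℕ × ℕ => (pq.1 : ℝ) / pq.2)

private theorem K08rat_pos {m : ℕ} {l : ℝ} (hl : l ∈ K08rat m) : 0 < l := by
  obtain ⟨⟨p, q⟩, h1, h2⟩ := Finset.mem_image.1 hl
  rw [Finset.mem_product, Finset.mem_Icc, Finset.mem_Icc] at h1
  obtain ⟨⟨hp, -⟩, ⟨hq, -⟩⟩ := h1
  rw [← h2]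
  have hp' : (0 : ℝ) < p := by exact_mod_cast hp
  have hq' : (0 : ℝ) < q := by exact_mod_cast hq
  exact div_pos hp' hq'

private theorem K08log (h : KData F r R T N F' r' K m₂ c₀ N₀) :
    Tendsto (fun t => Real.log (r t)) atTop atBot := by
  refine Real.tendsto_log_nhdsGT_zero.comp (tendsto_nhdsWithin_iff.2 ⟨h.rlim, ?_⟩)
  filter_upwards [eventually_ge_atTop (0 : ℝ)] with t ht
  exact h.rpos t ht

/-- eventually `C < a (-log r)` for `a > 0` -/
private theorem K08big (h : KData F r R T N F' r' K m₂ c₀ N₀) (a C : ℝ) (ha : 0 < a) :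
    ∀ᶠ t in atTop, C < a * (-Real.log (r t)) := by
  have h1 : Tendsto (fun t => -Real.log (r t)) atTop atTop :=
    tendsto_neg_atBot_atTop.comp (K08log h)
  exact (h1.const_mul_atTop ha).eventually_gt_atTop C

/-- eventually `a r < c` for `c > 0` -/
private theorem K08small (h : KData F r R T N F' r' K m₂ c₀ N₀) (a c : ℝ) (hc : 0 < c) :
    ∀ᶠ t in atTop, a * r t < c := by
  have h1 : Tendsto (fun t => a * r t) atTop (𝓝 (a * 0)) := h.rlim.const_mul a
  rw [mul_zero] at h1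
  exact h1.eventually_lt_const hc

private theorem K08smallp (h : KData F r R T N F' r' K m₂ c₀ N₀) (m : ℕ) (hm : 1 ≤ m) (c : ℝ)
    (hc : 0 < c) : ∀ᶠ t in atTop, (m : ℝ) * r t ^ (1 / (m : ℝ)) < c := by
  have hm' : (0 : ℝ) < m := by exact_mod_cast hm
  have h0 : (0 : ℝ) < 1 / (m : ℝ) := by positivity
  have h1 : Tendsto (fun t => r t ^ (1 / (m : ℝ))) atTop (𝓝 ((0 : ℝ) ^ (1 / (m : ℝ)))) :=
    h.rlim.rpow_const (Or.inr h0.le)
  rw [Real.zero_rpow h0.ne'] at h1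
  have h2 := h1.const_mul (m : ℝ)
  rw [mul_zero] at h2
  exact h2.eventually_lt_const hc

private theorem K08step1 (h : KData F r R T N F' r' K m₂ c₀ N₀) {ε : ℝ} {m : ℕ}
    (hc : ∀ᶠ t in atTop, ε * T t ≤ |R t| →
      ∃ p q : ℕ, 1 ≤ p ∧ p ≤ m ∧ 1 ≤ q ∧ q ≤ m ∧
        |R t - (p / q : ℝ) * F t| ≤ m * r t ^ (1 / (m : ℝ)) * F t ∧
        |Real.log (F t) - (p / q : ℝ) * Real.log (r t)| ≤ m) :
    ∀ᶠ t in atTop, ε * T t ≤ |R t| → ∃ l ∈ (K08rat m).filter (fun l => l ≤ (N₀ : ℝ)),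
      |R t - l * F t| ≤ m * r t ^ (1 / (m : ℝ)) * F t ∧
      |Real.log (F t) - l * Real.log (r t)| ≤ m := by
  have h1 : ∀ᶠ t in atTop, ∀ l ∈ K08rat m, (N₀ : ℝ) < l → m + c₀ < (l - N₀) * (-Real.log (r t)) := by
    rw [eventually_all_finset]
    intro l _
    by_cases hl : (N₀ : ℝ) < l
    · filter_upwards [K08big h (l - N₀) (m + c₀) (by linarith)] with t ht _
      exact ht
    · exact Eventually.of_forall fun t hl' => absurd hl' hl
  filter_upwards [hc, h1, eventually_ge_atTop (0 : ℝ)] with t h2 h3 ht h4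
  obtain ⟨p, q, hp, hpm, hq, hqm, h5, h6⟩ := h2 h4
  have h7 : (p / q : ℝ) ∈ K08rat m :=
    Finset.mem_image.2 ⟨(p, q), by
      rw [Finset.mem_product, Finset.mem_Icc, Finset.mem_Icc]
      exact ⟨⟨hp, hpm⟩, ⟨hq, hqm⟩⟩, rfl⟩
  refine ⟨(p / q : ℝ), Finset.mem_filter.2 ⟨h7, ?_⟩, h5, h6⟩
  by_contra hcon
  have h8 := h3 _ h7 (not_le.1 hcon)
  have h9 := h.low t ht
  have h10 := (abs_le.1 h6).2
  nlinarith

private theorem K08neg {a x : ℝ} (ha : 0 < a) (h : a * x < 0) : x < 0 := by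
  by_contra hx
  have := mul_nonneg ha.le (not_lt.1 hx)
  linarith

private theorem K08step2 (h : KData F r R T N F' r' K m₂ c₀ N₀) {ε : ℝ} {m : ℕ} (hm : 1 ≤ m)
    (hε : 0 < ε) (hε2 : ε ≤ 1 / 2) (hεN : ε * N₀ * m₂ ≤ 1 / 2)
    (hc : ∀ᶠ t in atTop, ε * T t ≤ |R t| → ∃ l ∈ (K08rat m).filter (fun l => l ≤ (N₀ : ℝ)),
      |R t - l * F t| ≤ m * r t ^ (1 / (m : ℝ)) * F t ∧
      |Real.log (F t) - l * Real.log (r t)| ≤ m)
    {l : ℝ} (hl : l ∈ (K08rat m).filter (fun l => l ≤ (N₀ : ℝ))) :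
    ∀ᶠ t in atTop, (|R t| < ε * T t → F' t / F t - l * (r' t / r t) < 0) ∧
      (Real.log (F t) - l * Real.log (r t) < -m → F' t / F t - l * (r' t / r t) < 0) := by
  have hl1 := Finset.mem_filter.1 hl
  have hl0 := K08rat_pos hl1.1
  have hεl : ε * l * m₂ ≤ 1 / 2 := by
    have h1 : ε * l ≤ ε * N₀ := mul_le_mul_of_nonneg_left hl1.2 hε.le
    have h2 : ε * l * m₂ ≤ ε * N₀ * m₂ := mul_le_mul_of_nonneg_right h1 h.m20.le
    linarith
  have h1 : ∀ᶠ t in atTop, ∀ l' ∈ K08rat m, l < l' →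
      m * r t ^ (1 / (m : ℝ)) < (l' - l) / 2 ∧ K * (1 + l * m₂) * r t < (l' - l) / (4 * l') := by
    rw [eventually_all_finset]
    intro l' hl'
    by_cases hll : l < l'
    · have hl'0 := K08rat_pos hl'
      filter_upwards [K08smallp h m hm ((l' - l) / 2) (by linarith),
        K08small h (K * (1 + l * m₂)) ((l' - l) / (4 * l')) (div_pos (by linarith) (by linarith))]
        with t h1 h2 _
      exact ⟨h1, h2⟩
    · exact Eventually.of_forall fun t hl' => absurd hl' hll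
  filter_upwards [hc, h1, eventually_ge_atTop (0 : ℝ), K08small h (K * (1 + l * m₂)) (1 / 20)
    (by norm_num), K08big h 1 0 one_pos] with t h2 h3 ht h4 h5
  have hF := h.Fpos t ht
  have hr := h.rpos t ht
  have hN := N_pos h t ht
  have hrF : 0 < r t ^ 2 * F t := by positivity
  have hout : |R t| < ε * T t → F' t / F t - l * (r' t / r t) < 0 := by
    intro hout
    have h6 := lam_out h l ε hl0.le hε hε2 hεl t ht h4.le hout
    refine K08neg hrF (lt_of_le_of_lt h6 ?_)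
    have : 0 < N t ^ 2 := by positivity
    linarith
  refine ⟨hout, fun hlam => ?_⟩
  by_cases hcone : ε * T t ≤ |R t|
  · obtain ⟨l', hl', h6, h7⟩ := h2 hcone
    have hl'1 := Finset.mem_filter.1 hl'
    have hl'0 := K08rat_pos hl'1.1
    have h8 := abs_le.1 h7
    have hll : l < l' := by
      by_contra hcon
      have h9 : 0 ≤ (l - l') * (-Real.log (r t)) :=
        mul_nonneg (by linarith [not_lt.1 hcon]) (by linarith)
      nlinarith [h8.1]
    obtain ⟨h9, h10⟩ := h3 l' hl'1.1 hll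
    have h11 := abs_le.1 h6
    have h12 : m * r t ^ (1 / (m : ℝ)) * F t ≤ (l' - l) / 2 * F t :=
      mul_le_mul_of_nonneg_right h9.le hF.le
    have hR1 : (l' - l) / 2 * F t ≤ R t - l * F t := by nlinarith [h11.1]
    have hR2 : R t ≤ 2 * l' * F t := by nlinarith [h11.2]
    have hR0 : 0 < R t := by nlinarith [mul_pos hl0 hF]
    have h13 : (l' - l) / (4 * l') * R t ≤ R t - l * F t := by
      have h14 : (l' - l) / (4 * l') * R t ≤ (l' - l) / (4 * l') * (2 * l' * F t) :=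
        mul_le_mul_of_nonneg_left hR2 (div_nonneg (by linarith) (by linarith))
      have h15 : (l' - l) / (4 * l') * (2 * l' * F t) = (l' - l) / 2 * F t := by
        field_simp
        ring
      linarith
    have hc1 : (l' - l) / (4 * l') ≤ 1 := by
      rw [div_le_one (by linarith)]
      linarith
    have h16 : (l' - l) / (4 * l') * N t ^ 2 ≤ T t ^ 2 + R t * (R t - l * F t) := by
      rw [h.pyth t ht]
      have h17 : (l' - l) / (4 * l') * T t ^ 2 ≤ 1 * T t ^ 2 :=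
        mul_le_mul_of_nonneg_right hc1 (sq_nonneg _)
      have h18 := mul_le_mul_of_nonneg_left h13 hR0.le
      nlinarith
    have h19 := (abs_le.1 (lam_deriv h l hl0.le t ht)).2
    have h20 : K * (1 + l * m₂) * r t * N t ^ 2 < (l' - l) / (4 * l') * N t ^ 2 :=
      mul_lt_mul_of_pos_right h10 (by positivity)
    exact K08neg hrF (by linarith)
  · exact hout (not_le.1 hcone)

/-- dichotomy -/
private theorem K08dich {f f' : ℝ → ℝ} {c : ℝ} (hd : ∀ t, 0 ≤ t → HasDerivAt f (f' t) t)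
    (h : ∀ᶠ t in atTop, f t < c → f' t < 0) :
    (∀ᶠ t in atTop, c ≤ f t) ∨ (∀ᶠ t in atTop, f t < c) := by
  by_cases h1 : ∀ᶠ t in atTop, c ≤ f t
  · exact Or.inl h1
  right
  obtain ⟨t0, ht0⟩ := eventually_atTop.1 (h.and (eventually_ge_atTop (0 : ℝ)))
  rw [not_eventually] at h1
  obtain ⟨t1, h2', ht1⟩ := (h1.and_eventually (eventually_ge_atTop t0)).exists
  have h2 := not_le.1 h2'
  filter_upwards [eventually_ge_atTop t1] with t ht
  exact barrier_low f f' t1 c (fun s hs => hd s (ht0 s (le_trans ht1 hs)).2)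
    (fun s hs => (ht0 s (le_trans ht1 hs)).1) h2 t ht

/-- we cannot stay outside the cone -/
private theorem K08step4 (h : KData F r R T N F' r' K m₂ c₀ N₀) {ε : ℝ}
    (hε : 0 < ε) (hεN : ε * (8 * m₂ * (N₀ + 1)) ≤ 1)
    (hout : ∀ᶠ t in atTop, |R t| < ε * T t) : False := by
  have hm := h.m20
  obtain ⟨Λ, hΛ⟩ : ∃ Λ : ℝ, Λ = 1 / (4 * ε * m₂) := ⟨_, rfl⟩
  have hΛ1 : 4 * ε * m₂ * Λ = 1 := by
    rw [hΛ]; field_simp
  have hΛ0 : 0 < Λ := by rw [hΛ]; positivity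
  have hΛN : 2 * ((N₀ : ℝ) + 1) ≤ Λ := by
    rw [hΛ, le_div_iff₀ (by positivity)]
    nlinarith
  obtain ⟨t0, ht0⟩ := eventually_atTop.1 (hout.and ((eventually_ge_atTop (0 : ℝ)).and
    ((K08small h K (1 / 2) (by norm_num)).and (K08small h K ε hε))))
  have hder : ∀ t, t0 ≤ t → F' t / F t - Λ * (r' t / r t) ≤ 0 := by
    intro t ht
    obtain ⟨h1, h2, h3, h4⟩ := ht0 t ht
    have hF := h.Fpos t h2
    have hr := h.rpos t h2
    have hN := N_pos h t h2
    have hT := h.Tnn t h2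
    have hrF : 0 < r t ^ 2 * F t := by positivity
    have hTN : T t ≤ N t := by
      have := h.pyth t h2
      exact abs_le_of_sq_le_sq' (by nlinarith [sq_nonneg (R t)]) hN.le |>.2
    have e1 : r t ^ 2 * F t * (F' t / F t - Λ * (r' t / r t)) =
        F' t * r t ^ 2 - Λ * F t * (r t * r' t) := by
      field_simp
    have e2 : F' t * r t ^ 2 ≤ -(N t ^ 2) / 2 := by
      have h5 := (abs_le.1 (h.e4 t h2)).2
      have h6 : K * r t * N t ^ 2 ≤ 1 / 2 * N t ^ 2 :=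
        mul_le_mul_of_nonneg_right h3.le (sq_nonneg _)
      linarith
    have e3 : -(r t * r' t) ≤ 2 * ε * N t := by
      have h5 := (abs_le.1 (h.e2 t h2)).1
      have h6 : K * r t * N t ≤ ε * N t := mul_le_mul_of_nonneg_right h4.le hN.le
      have h7 := le_abs_self (R t)
      have h8 : ε * T t ≤ ε * N t := mul_le_mul_of_nonneg_left hTN hε.le
      linarith
    have e4 : Λ * F t * (-(r t * r' t)) ≤ Λ * F t * (2 * ε * N t) :=
      mul_le_mul_of_nonneg_left e3 (by positivity)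
    have e5 : Λ * F t * (2 * ε * N t) ≤ N t ^ 2 / 2 := by
      have h5 : F t * (2 * ε * N t * Λ) ≤ (m₂ * N t) * (2 * ε * N t * Λ) :=
        mul_le_mul_of_nonneg_right (h.bl t h2) (by positivity)
      have h6 : (m₂ * N t) * (2 * ε * N t * Λ) = (4 * ε * m₂ * Λ) * N t ^ 2 / 2 := by ring
      rw [h6, hΛ1] at h5
      linarith
    by_contra hcon
    have := mul_pos hrF (not_le.1 hcon)
    rw [e1] at this
    linarith
  have hanti : AntitoneOn (fun t => Real.log (F t) - Λ * Real.log (r t)) (Set.Ici t0) := by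
    have hd : ∀ t, t0 ≤ t → HasDerivAt (fun t => Real.log (F t) - Λ * Real.log (r t))
        (F' t / F t - Λ * (r' t / r t)) t := fun t ht =>
      lam_hasDeriv h Λ t (ht0 t ht).2.1
    refine antitoneOn_of_deriv_nonpos (convex_Ici t0)
      (fun t ht => (hd t ht).continuousAt.continuousWithinAt) ?_ ?_
    · intro t ht
      rw [interior_Ici] at ht
      exact (hd t (le_of_lt ht)).differentiableAt.differentiableWithinAt
    · intro t ht
      rw [interior_Ici] at ht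
      rw [(hd t (le_of_lt ht)).deriv]
      exact hder t (le_of_lt ht)
  obtain ⟨t1, h1, h2⟩ := ((K08big h (Λ - N₀)
    (c₀ + (Real.log (F t0) - Λ * Real.log (r t0))) (by
      have : (0 : ℝ) ≤ N₀ := Nat.cast_nonneg _
      linarith)).and (eventually_ge_atTop t0)).exists
  have h3 := hanti (Set.mem_Ici.2 le_rfl) (Set.mem_Ici.2 h2) h2
  simp only at h3
  have h4 := h.low t1 (ht0 t1 h2).2.1
  nlinarith

theorem kt_index (h : KData F r R T N F' r' K m₂ c₀ N₀) (hc : ConeProp F r R T) :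
    ∃ (p q m : ℕ) (ε : ℝ), 1 ≤ p ∧ 1 ≤ q ∧ 1 ≤ m ∧ 0 < ε ∧ ε ≤ 1 / 2 ∧
      ε * (p / q : ℝ) * m₂ ≤ 1 / 2 ∧ ∀ᶠ t in atTop,
        |Real.log (F t) - (p / q : ℝ) * Real.log (r t)| ≤ m ∧
        (ε * T t ≤ |R t| → |R t - (p / q : ℝ) * F t| ≤ m * r t ^ (1 / (m : ℝ)) * F t) := by
  have hm2 := h.m20
  have hN0 : (0 : ℝ) ≤ N₀ := Nat.cast_nonneg _
  obtain ⟨ε, hεd⟩ : ∃ ε : ℝ, ε = min (1 / 2) (1 / (8 * m₂ * (N₀ + 1))) := ⟨_, rfl⟩
  have hε : 0 < ε := by rw [hεd]; positivity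
  have hε2 : ε ≤ 1 / 2 := by rw [hεd]; exact min_le_left _ _
  have hε8 : ε * (8 * m₂ * (N₀ + 1)) ≤ 1 := by
    have h1 : ε ≤ 1 / (8 * m₂ * (N₀ + 1)) := by rw [hεd]; exact min_le_right _ _
    rwa [le_div_iff₀ (by positivity)] at h1
  have hεN : ε * N₀ * m₂ ≤ 1 / 2 := by nlinarith [mul_pos hε hm2, mul_nonneg (mul_pos hε hm2).le hN0]
  obtain ⟨m, hm, hcm⟩ := hc ε hε
  have hc1 := K08step1 h hcm
  obtain ⟨L, hL⟩ : ∃ L : Finset ℝ, L = (K08rat m).filter (fun l => l ≤ (N₀ : ℝ)) := ⟨_, rfl⟩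
  rw [← hL] at hc1
  have hst2 : ∀ l ∈ L, ∀ᶠ t in atTop, (|R t| < ε * T t → F' t / F t - l * (r' t / r t) < 0) ∧
      (Real.log (F t) - l * Real.log (r t) < -m → F' t / F t - l * (r' t / r t) < 0) := by
    intro l hl
    rw [hL] at hl hc1
    exact K08step2 h hm hε hε2 hεN hc1 hl
  have hdich : ∀ l ∈ L, (∀ᶠ t in atTop, -(m : ℝ) ≤ Real.log (F t) - l * Real.log (r t)) ∨
      (∀ᶠ t in atTop, Real.log (F t) - l * Real.log (r t) < -(m : ℝ)) := fun l hl =>
    K08dich (lam_hasDeriv h l) ((hst2 l hl).mono fun t ht => ht.2)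
  classical
  obtain ⟨A, hA⟩ : ∃ A : Finset ℝ, A = L.filter
    (fun l => ∀ᶠ t in atTop, -(m : ℝ) ≤ Real.log (F t) - l * Real.log (r t)) := ⟨_, rfl⟩
  -- in the cone, the ratio is in `A`
  have hc2 : ∀ᶠ t in atTop, ε * T t ≤ |R t| → ∃ l ∈ A,
      |R t - l * F t| ≤ m * r t ^ (1 / (m : ℝ)) * F t ∧
      |Real.log (F t) - l * Real.log (r t)| ≤ m := by
    have h1 : ∀ᶠ t in atTop, ∀ l ∈ L, l ∉ A → Real.log (F t) - l * Real.log (r t) < -(m : ℝ) := by
      rw [eventually_all_finset]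
      intro l hl
      by_cases hlA : l ∈ A
      · exact Eventually.of_forall fun t h' => absurd hlA h'
      · rcases hdich l hl with h2 | h2
        · exact absurd (by rw [hA]; exact Finset.mem_filter.2 ⟨hl, h2⟩) hlA
        · filter_upwards [h2] with t ht _
          exact ht
    filter_upwards [hc1, h1] with t h2 h3 h4
    obtain ⟨l, hl, h5, h6⟩ := h2 h4
    refine ⟨l, ?_, h5, h6⟩
    by_contra hlA
    have h7 := h3 l hl hlA
    have h8 := (abs_le.1 h6).1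
    linarith
  have hAne : A.Nonempty := by
    by_contra hcon
    rw [Finset.not_nonempty_iff_eq_empty] at hcon
    refine K08step4 h hε hε8 ?_
    filter_upwards [hc2] with t ht
    by_contra h1
    obtain ⟨l, hl, -⟩ := ht (not_lt.1 h1)
    rw [hcon] at hl
    exact absurd hl (Finset.notMem_empty l)
  obtain ⟨l, hlA, hmin⟩ : ∃ l ∈ A, ∀ l' ∈ A, l ≤ l' :=
    ⟨A.min' hAne, A.min'_mem hAne, fun l' hl' => A.min'_le l' hl'⟩
  have hlA' := hlA
  rw [hA, Finset.mem_filter] at hlA'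
  obtain ⟨hlL, hlow⟩ := hlA'
  have hlL' := hlL
  rw [hL, Finset.mem_filter] at hlL'
  obtain ⟨⟨p, q⟩, hpq, hlpq⟩ := Finset.mem_image.1 hlL'.1
  rw [Finset.mem_product, Finset.mem_Icc, Finset.mem_Icc] at hpq
  obtain ⟨⟨hp, -⟩, ⟨hq, -⟩⟩ := hpq
  simp only at hp hq hlpq
  have hl0 := K08rat_pos hlL'.1
  -- the ratio is `l`
  have hc3 : ∀ᶠ t in atTop, ε * T t ≤ |R t| →
      |R t - l * F t| ≤ m * r t ^ (1 / (m : ℝ)) * F t ∧
      |Real.log (F t) - l * Real.log (r t)| ≤ m := by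
    have h1 : ∀ᶠ t in atTop, ∀ l' ∈ A, l < l' → 2 * (m : ℝ) < (l' - l) * (-Real.log (r t)) := by
      rw [eventually_all_finset]
      intro l' _
      by_cases hll : l < l'
      · filter_upwards [K08big h (l' - l) (2 * m) (by linarith)] with t ht _
        exact ht
      · exact Eventually.of_forall fun t hl' => absurd hl' hll
    filter_upwards [hc2, h1, hlow] with t h2 h3 h4 h5
    obtain ⟨l', hl', h6, h7⟩ := h2 h5
    have h8 : l' = l := by
      by_contra hne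
      have h9 : l < l' := lt_of_le_of_ne (hmin l' hl') (Ne.symm hne)
      have h10 := h3 l' hl' h9
      have h11 := (abs_le.1 h7).2
      nlinarith
    rw [h8] at h6 h7
    exact ⟨h6, h7⟩
  -- upper bound
  obtain ⟨M, hM⟩ : ∃ M : ℝ, ∀ᶠ t in atTop, Real.log (F t) - l * Real.log (r t) ≤ M := by
    have h1 : ∀ᶠ t in atTop, (m : ℝ) < Real.log (F t) - l * Real.log (r t) →
        F' t / F t - l * (r' t / r t) < 0 := by
      filter_upwards [hc3, hst2 l hlL] with t h2 h3 h4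
      refine h3.1 ?_
      by_contra h5
      have h6 := (abs_le.1 (h2 (not_lt.1 h5)).2).2
      linarith
    obtain ⟨t0, ht0⟩ := eventually_atTop.1 (h1.and (eventually_ge_atTop (0 : ℝ)))
    refine ⟨max m (Real.log (F t0) - l * Real.log (r t0)), ?_⟩
    filter_upwards [eventually_ge_atTop t0] with t ht
    exact barrier_high (fun t => Real.log (F t) - l * Real.log (r t))
      (fun t => F' t / F t - l * (r' t / r t)) t0 m
      (fun s hs => lam_hasDeriv h l s (ht0 s hs).2) (fun s hs => (ht0 s hs).1) t ht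
  obtain ⟨m', hm'⟩ := exists_nat_ge (max (m : ℝ) M)
  have hmm' : (m : ℝ) ≤ m' := le_trans (le_max_left _ _) hm'
  have hm1 : (1 : ℝ) ≤ m := by exact_mod_cast hm
  have hm'1 : 1 ≤ m' := by exact_mod_cast hm1.trans hmm'
  refine ⟨p, q, m', ε, hp, hq, hm'1, hε, hε2, ?_, ?_⟩
  · rw [hlpq]
    have h1 : ε * l ≤ ε * N₀ := mul_le_mul_of_nonneg_left hlL'.2 hε.le
    have h2 : ε * l * m₂ ≤ ε * N₀ * m₂ := mul_le_mul_of_nonneg_right h1 hm2.le
    linarith
  · rw [hlpq]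
    filter_upwards [hc3, hM, hlow, eventually_ge_atTop (0 : ℝ), K08small h 1 1 one_pos] with
      t h1 h2 h3 ht h4
    have hr := h.rpos t ht
    have hF := h.Fpos t ht
    rw [one_mul] at h4
    refine ⟨abs_le.2 ⟨by linarith, le_trans h2 (le_trans (le_max_right _ _) hm')⟩, fun h5 => ?_⟩
    refine le_trans (h1 h5).1 (mul_le_mul_of_nonneg_right ?_ hF.le)
    have h6 : r t ^ (1 / (m : ℝ)) ≤ r t ^ (1 / (m' : ℝ)) := by
      refine Real.rpow_le_rpow_of_exponent_ge hr h4.le ?_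
      exact one_div_le_one_div_of_le (by linarith) hmm'
    exact mul_le_mul hmm' h6 (Real.rpow_nonneg hr.le _) (by positivity)

end Pool.Agent.helper62.GF
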