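import Pool.Agent.helper62.GF.Defs

/-!
# Project GF, part 2: definitions for the inequalities and the trajectory part

`r = ‖x‖`, `rad f x = ⟪∇f(x), x⟫`, `nrm f x = ‖x‖ ‖∇f(x)‖`, `tang f x = √(nrm² - rad²)`.
-/

open Filter Topology

namespace Pool.Agent.helper62.GF

abbrev EE (n : ℕ) := EuclideanSpace ℝ (Fin n)

variable {n : ℕ}

noncomputable def rad (f : EE n → ℝ) (x : EE n) : ℝ := inner ℝ (gradient f x) x

noncomputable def nrm (f : EE n → ℝ) (x : EE n) : ℝ := ‖x‖ * ‖gradient f x‖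

noncomputable def tang (f : EE n → ℝ) (x : EE n) : ℝ := Real.sqrt (nrm f x ^ 2 - rad f x ^ 2)

/-- `V` is, up to a relative error `K ‖x‖`, minus the Euclidean gradient of `F` near the origin. -/
def NearGrad (F : EE n → ℝ) (V : EE n → EE n) (K : ℝ) : Prop :=
  0 ≤ K ∧ ∀ᶠ x in 𝓝 (0 : EE n), ‖V x + gradient F x‖ ≤ K * ‖x‖ * ‖gradient F x‖

/-- a chart: analytic germ at `0` with monomial squared norm and monomial components -/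
structure IsChart (φ : (Fin n → ℝ) → EE n) (ρ : Fin n → ℕ) (β : Fin n → Fin n → ℕ) : Prop where
  an : AnalyticAt ℝ φ 0
  zero : φ 0 = 0
  sq : Mon (fun v => ‖φ v‖ ^ 2) ρ
  co : ∀ j, Mon (fun v => φ v j) (β j)

/-- The real functions along a trajectory, and what is known about them.
`F` value, `r` distance to the origin, `R, T, N` as above, `F', r'` derivatives. -/
structure KData (F r R T N F' r' : ℝ → ℝ) (K m₂ c₀ : ℝ) (N₀ : ℕ) : Prop where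
  K0 : 0 ≤ K
  m20 : 0 < m₂
  dF : ∀ t, 0 ≤ t → HasDerivAt F (F' t) t
  dr : ∀ t, 0 ≤ t → HasDerivAt r (r' t) t
  Fpos : ∀ t, 0 ≤ t → 0 < F t
  rpos : ∀ t, 0 ≤ t → 0 < r t
  Tnn : ∀ t, 0 ≤ t → 0 ≤ T t
  Nnn : ∀ t, 0 ≤ t → 0 ≤ N t
  pyth : ∀ t, 0 ≤ t → N t ^ 2 = T t ^ 2 + R t ^ 2
  e2 : ∀ t, 0 ≤ t → |r t * r' t + R t| ≤ K * r t * N t
  e4 : ∀ t, 0 ≤ t → |F' t * r t ^ 2 + N t ^ 2| ≤ K * r t * N t ^ 2
  bl : ∀ t, 0 ≤ t → F t ≤ m₂ * N t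
  low : ∀ t, 0 ≤ t → (N₀ : ℝ) * Real.log (r t) - c₀ ≤ Real.log (F t)
  rlim : Tendsto r atTop (𝓝 0)

/-- conclusion of the cone inequality along the trajectory -/
def ConeProp (F r R T : ℝ → ℝ) : Prop :=
  ∀ ε : ℝ, 0 < ε → ∃ m : ℕ, 1 ≤ m ∧ ∀ᶠ t in atTop, ε * T t ≤ |R t| →
    ∃ p q : ℕ, 1 ≤ p ∧ p ≤ m ∧ 1 ≤ q ∧ q ≤ m ∧
      |R t - (p / q : ℝ) * F t| ≤ m * r t ^ (1 / (m : ℝ)) * F t ∧
      |Real.log (F t) - (p / q : ℝ) * Real.log (r t)| ≤ m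

/-- conclusion of the asymptotic critical value inequality along the trajectory -/
def AsymProp (F r R T : ℝ → ℝ) : Prop :=
  ∀ p q : ℕ, 1 ≤ p → 1 ≤ q → ∀ b C₁ δ₁ : ℝ, 0 < δ₁ → ∃ m : ℕ, 2 ≤ m ∧ ∀ᶠ t in atTop,
    |Real.log (F t) - (p / q : ℝ) * Real.log (r t) - b| ≤ 1 / (m : ℝ) →
    r t ^ (δ₁ / 2) ≤ |Real.log (F t) - (p / q : ℝ) * Real.log (r t) - b| →
    |R t - (p / q : ℝ) * F t| ≤ C₁ * r t ^ δ₁ * F t →
    (1 / (m : ℝ)) * |Real.log (F t) - (p / q : ℝ) * Real.log (r t) - b| ^ (1 - 1 / (m : ℝ)) * F t ≤ T t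

end Pool.Agent.helper62.GF
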