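import Pool.Agent.helper62.GF.LDefs

/-!
# GF-L01: normalising the metric at the point

`exists_normal`: Gram-Schmidt for the inner product `g` (e.g. an orthonormal basis of the inner product space
defined by `InnerProductSpace.ofCore`, or diagonalise the symmetric positive operator of `g` and take the
inverse of its square root).

`exists_norm_data`: with `L` from `exists_normal` for `G x₀`, `F' a = F (x₀ + L a) - F x₀`,
`V' a = L.symm (V (x₀ + L a))`.  Let `𝒢 a : EE n →L EE n` be the operator with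
`⟪𝒢 a u, v⟫ = G (x₀ + L a) (L u) (L v)` (`C¹` at `0`, `𝒢 0 = id`), `B a = Ring.inverse (𝒢 a)` (or
`ContinuousLinearMap.inverse`), `C¹` at `0`, `B 0 = id`.  From `eq` with `w = L b`:
`⟪𝒢 a (V' a), b⟫ = -(fderiv F (x₀ + L a) (L b)) = -⟪∇F' a, b⟫`, so `V' a = -(B a (∇F' a))`.

-/

open Filter Topology Set MeasureTheory

namespace Pool.Agent.helper62.GF

variable {n : ℕ}

theorem L01_basis (g : EE n →L[ℝ] EE n →L[ℝ] ℝ) (hs : ∀ u v, g u v = g v u) :
    ∃ v : Module.Basis (Fin n) ℝ (EE n), ∀ i j, i ≠ j → g (v i) (v j) = 0 := by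
  let B : LinearMap.BilinForm ℝ (EE n) :=
    LinearMap.mk₂ ℝ (fun u v => g u v) (by simp) (by simp) (by simp) (by simp)
  have hB : LinearMap.IsSymm B := ⟨fun u v => hs u v⟩
  obtain ⟨v, hv⟩ := LinearMap.BilinForm.exists_orthogonal_basis hB
  have hn : Module.finrank ℝ (EE n) = n := by simp
  refine ⟨v.reindex (finCongr hn), fun i j hij => ?_⟩
  rw [Module.Basis.reindex_apply, Module.Basis.reindex_apply]
  exact hv (fun h => hij ((finCongr hn).symm.injective h))

theorem exists_normal (g : EE n →L[ℝ] EE n →L[ℝ] ℝ) (hs : ∀ u v, g u v = g v u)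
    (hp : ∀ u, u ≠ 0 → 0 < g u u) :
    ∃ L : EE n ≃L[ℝ] EE n, ∀ a b : EE n, g (L a) (L b) = inner ℝ a b := by
  obtain ⟨v, hv⟩ := L01_basis g hs
  have hpos : ∀ i, 0 < g (v i) (v i) := fun i => hp _ (v.ne_zero i)
  let c : Fin n → ℝ := fun i => (Real.sqrt (g (v i) (v i)))⁻¹
  have hc : ∀ i, IsUnit (c i) := fun i => by
    rw [isUnit_iff_ne_zero]
    exact inv_ne_zero (Real.sqrt_pos.2 (hpos i)).ne'
  let w : Module.Basis (Fin n) ℝ (EE n) := v.isUnitSMul hc
  have hw : ∀ i j, g (w i) (w j) = if i = j then 1 else 0 := by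
    intro i j
    rw [Module.Basis.isUnitSMul_apply, Module.Basis.isUnitSMul_apply]
    simp only [map_smul, smul_apply, smul_eq_mul]
    split_ifs with h
    · subst h
      have h1 := Real.mul_self_sqrt (hpos i).le
      have h2 := (Real.sqrt_pos.2 (hpos i)).ne'
      simp only [c]
      field_simp
      rw [sq]
      exact h1.symm
    · rw [hv i j h]
      ring
  let L : EE n ≃ₗ[ℝ] EE n := (WithLp.linearEquiv 2 ℝ (Fin n → ℝ)).trans w.equivFun.symm
  have hL : ∀ a, L a = ∑ i, a i • w i := fun a => w.equivFun_symm_apply _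
  refine ⟨L.toContinuousLinearEquiv, fun a b => ?_⟩
  have h1 : ∀ a, L.toContinuousLinearEquiv a = ∑ i, a i • w i := hL
  rw [h1, h1, map_sum, PiLp.inner_apply]
  refine Finset.sum_congr rfl fun i _ => ?_
  rw [map_sum, sum_apply, Finset.sum_eq_single i]
  · rw [map_smul, map_smul, smul_apply, hw, if_pos rfl]
    simp
  · intro j _ hj
    rw [map_smul, map_smul, smul_apply, hw, if_neg hj]
    simp
  · intro h
    exact absurd (Finset.mem_univ i) h

/-- the inverse of the Riesz isomorphism as a real linear map -/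
noncomputable def L01_S (n : ℕ) : (EE n →L[ℝ] ℝ) →L[ℝ] EE n where
  toFun := fun ℓ => (InnerProductSpace.toDual ℝ (EE n)).symm ℓ
  map_add' := fun x y => map_add _ x y
  map_smul' := fun c x => by
    rw [map_smulₛₗ]
    rfl
  cont := (InnerProductSpace.toDual ℝ (EE n)).symm.continuous

/-- the operator of the metric in normal coordinates -/
noncomputable def L01_op (L : EE n ≃L[ℝ] EE n) (T : EE n →L[ℝ] EE n →L[ℝ] ℝ) : EE n →L[ℝ] EE n :=
  (L01_S n).comp (((ContinuousLinearMap.compL ℝ (EE n) (EE n) ℝ).flip (L : EE n →L[ℝ] EE n)).comp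
      (T.comp (L : EE n →L[ℝ] EE n)))

theorem L01_op_apply (L : EE n ≃L[ℝ] EE n) (T : EE n →L[ℝ] EE n →L[ℝ] ℝ) (u v : EE n) :
    inner ℝ (L01_op L T u) v = T (L u) (L v) := by
  have h1 : L01_op L T u = (InnerProductSpace.toDual ℝ (EE n)).symm ((T (L u)).comp (L : EE n →L[ℝ] EE n)) := rfl
  rw [h1, InnerProductSpace.toDual_symm_apply]
  rfl

theorem L01_op_contDiff (L : EE n ≃L[ℝ] EE n) {G : EE n → (EE n →L[ℝ] EE n →L[ℝ] ℝ)} {x : EE n}
    (hG : ContDiffAt ℝ 1 G x) : ContDiffAt ℝ 1 (fun a => L01_op L (G a)) x := by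
  unfold L01_op
  exact contDiffAt_const.clm_comp (contDiffAt_const.clm_comp (hG.clm_comp contDiffAt_const))

theorem exists_norm_data {F : EE n → ℝ} {G : EE n → (EE n →L[ℝ] EE n →L[ℝ] ℝ)} {V : EE n → EE n}
    {x₀ : EE n} (h : LocalData F G V x₀) :
    ∃ (L : EE n ≃L[ℝ] EE n) (B : EE n → (EE n →L[ℝ] EE n)),
      (∀ a b : EE n, G x₀ (L a) (L b) = inner ℝ a b) ∧
      NormData (fun a => F (x₀ + L a) - F x₀) (fun a => L.symm (V (x₀ + L a))) B := by
  obtain ⟨L, hL⟩ := exists_normal (G x₀) h.symm.self_of_nhds h.pos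
  have htr : ContDiffAt ℝ 1 (fun a => x₀ + L a) 0 := contDiffAt_const.add L.contDiff.contDiffAt
  have h0 : x₀ + L 0 = x₀ := by simp
  have htend : Tendsto (fun a => x₀ + L a) (𝓝 0) (𝓝 x₀) := by
    have h1 := htr.continuousAt.tendsto
    rwa [h0] at h1
  have hG : ContDiffAt ℝ 1 (fun a => G (x₀ + L a)) 0 :=
    ContDiffAt.comp (g := G) (f := fun a => x₀ + L a) 0 (by rw [h0]; exact h.cG) htr
  have hop : ContDiffAt ℝ 1 (fun a => L01_op L (G (x₀ + L a))) 0 := L01_op_contDiff L hG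
  have hop0 : L01_op L (G (x₀ + L 0)) = ContinuousLinearMap.id ℝ (EE n) := by
    rw [h0]
    ext1 u
    refine ext_inner_right ℝ fun v => ?_
    rw [L01_op_apply, hL]
    rfl
  have hop1 : L01_op L (G (x₀ + L 0)) = ((1 : (EE n →L[ℝ] EE n)ˣ) : EE n →L[ℝ] EE n) := hop0
  refine ⟨L, fun a => Ring.inverse (L01_op L (G (x₀ + L a))), hL, ?_, ?_, ?_, ?_, ?_⟩
  · have h1 : AnalyticAt ℝ (fun a => x₀ + L a) 0 :=
      analyticAt_const.add ((L : EE n →L[ℝ] EE n).analyticAt 0)
    have h2 : AnalyticAt ℝ (fun a => F (x₀ + L a)) 0 :=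
      AnalyticAt.comp (g := F) (f := fun a => x₀ + L a) (by rw [h0]; exact h.anF) h1
    exact h2.sub analyticAt_const
  · show F (x₀ + L 0) - F x₀ = 0
    rw [h0, sub_self]
  · have h1 : ContDiffAt ℝ 1 (Ring.inverse : (EE n →L[ℝ] EE n) → (EE n →L[ℝ] EE n))
      (L01_op L (G (x₀ + L 0))) := by
      rw [hop1]
      exact contDiffAt_ringInverse ℝ 1
    exact ContDiffAt.comp (g := Ring.inverse) (f := fun a => L01_op L (G (x₀ + L a))) 0 h1 hop
  · show Ring.inverse (L01_op L (G (x₀ + L 0))) = _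
    rw [hop1, Ring.inverse_unit]
    rfl
  · have hun : ∀ᶠ a in 𝓝 (0 : EE n), IsUnit (L01_op L (G (x₀ + L a))) := by
      have h1 : {T : EE n →L[ℝ] EE n | IsUnit T} ∈ 𝓝 (L01_op L (G (x₀ + L 0))) := by
        refine Units.isOpen.mem_nhds ?_
        rw [hop1]
        exact Units.isUnit 1
      exact hop.continuousAt.eventually h1
    have han : ∀ᶠ a in 𝓝 (0 : EE n), AnalyticAt ℝ F (x₀ + L a) :=
      htend.eventually h.anF.eventually_analyticAt
    filter_upwards [hun, han, htend.eventually h.eq] with a h1 h2 h3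
    have h4 : L01_op L (G (x₀ + L a)) (L.symm (V (x₀ + L a))) =
        -(gradient (fun a => F (x₀ + L a) - F x₀) a) := by
      refine ext_inner_right ℝ fun b => ?_
      rw [L01_op_apply, L.apply_symm_apply, h3, inner_neg_left]
      congr 1
      unfold gradient
      rw [InnerProductSpace.toDual_symm_apply]
      have h5 : HasFDerivAt (fun a => F (x₀ + L a) - F x₀)
          ((fderiv ℝ F (x₀ + L a)).comp (L : EE n →L[ℝ] EE n)) a := by
        have h6 : HasFDerivAt (fun a => x₀ + L a) (L : EE n →L[ℝ] EE n) a :=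
          (L.hasFDerivAt).const_add x₀
        exact (HasFDerivAt.comp (g := F) (f := fun a => x₀ + L a) a
          h2.differentiableAt.hasFDerivAt h6).sub_const _
      rw [h5.fderiv]
      rfl
    have h5 : Ring.inverse (L01_op L (G (x₀ + L a))) * L01_op L (G (x₀ + L a)) = 1 :=
      Ring.inverse_mul_cancel _ h1
    have h6 := congrArg (fun T : EE n →L[ℝ] EE n => T (L.symm (V (x₀ + L a)))) h5
    change Ring.inverse (L01_op L (G (x₀ + L a))) (L01_op L (G (x₀ + L a)) (L.symm (V (x₀ + L a)))) =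
      L.symm (V (x₀ + L a)) at h6
    rw [← h6, h4, map_neg]

end Pool.Agent.helper62.GF
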