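import Pool.Agent.helper62.GF.NDefs

/-!
# Project GF, part 4: local data in an arbitrary chart (before normalising the metric at the point)
-/

open Filter Topology Set MeasureTheory

namespace Pool.Agent.helper62.GF

variable {n : ℕ}

/-- `F` the function, `G` the metric, `V` minus the gradient, near the point `x₀` -/
structure LocalData (F : EE n → ℝ) (G : EE n → (EE n →L[ℝ] EE n →L[ℝ] ℝ)) (V : EE n → EE n)
    (x₀ : EE n) : Prop where
  anF : AnalyticAt ℝ F x₀
  cG : ContDiffAt ℝ 1 G x₀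
  symm : ∀ᶠ x in 𝓝 x₀, ∀ u v, G x u v = G x v u
  pos : ∀ u, u ≠ 0 → 0 < G x₀ u u
  eq : ∀ᶠ x in 𝓝 x₀, ∀ w, G x (V x) w = -(fderiv ℝ F x w)

end Pool.Agent.helper62.GF
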