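import Pool.Agent.helper62.GF.Defs

/-!
# GF-M01: basic lemmas about `Mon` and `Res`
All proofs are short.  `Mon` lemmas: unfold, combine the two analytic units, `filter_upwards`.
`Mon.analytic`: `f` equals near `0` an analytic function.  `Mon.ne_zero`: the monomial does not vanish
at points with all coordinates nonzero; the points `t • (1,…,1)`, `t → 0+` are such points (for
`n = 0` the point `0` itself works: the product is empty).
`sec_zero`: along `F` we have `φ (s x) = x`, `φ (s x) → φ 0` and `x → 0`; limits are unique.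
`Res.comp`: compose `ψ, s'` obtained for `g ∘ φ` with `φ, s`.
-/

open Filter Topology

namespace Pool.Agent.helper62.GF

variable {n : ℕ}

theorem Mon.congr {f g : (Fin n → ℝ) → ℝ} {α : Fin n → ℕ} (h : ∀ᶠ x in 𝓝 (0 : Fin n → ℝ), f x = g x)
    (hf : Mon f α) : Mon g α := by
  obtain ⟨ε, hε, h0, he⟩ := hf
  refine ⟨ε, hε, h0, ?_⟩
  filter_upwards [h, he] with x h1 h2
  rw [← h1, h2]

theorem Mon.mul {f g : (Fin n → ℝ) → ℝ} {α β : Fin n → ℕ} (hf : Mon f α) (hg : Mon g β) :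
    Mon (fun x => f x * g x) (α + β) := by
  obtain ⟨ε, hε, h0, he⟩ := hf
  obtain ⟨δ, hδ, h1, hd⟩ := hg
  refine ⟨fun x => ε x * δ x, hε.mul hδ, mul_ne_zero h0 h1, ?_⟩
  filter_upwards [he, hd] with x h2 h3
  rw [h2, h3]
  simp only [Pi.add_apply, pow_add, Finset.prod_mul_distrib]
  ring

theorem Mon.pow {f : (Fin n → ℝ) → ℝ} {α : Fin n → ℕ} (hf : Mon f α) (k : ℕ) :
    Mon (fun x => f x ^ k) (fun i => k * α i) := by
  obtain ⟨ε, hε, h0, he⟩ := hf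
  refine ⟨fun x => ε x ^ k, hε.pow k, pow_ne_zero k h0, ?_⟩
  filter_upwards [he] with x h2
  rw [h2, mul_pow, ← Finset.prod_pow]
  simp only [pow_mul']

theorem Mon.unit {f : (Fin n → ℝ) → ℝ} (hf : AnalyticAt ℝ f 0) (h0 : f 0 ≠ 0) :
    Mon f (fun _ => 0) := by
  refine ⟨f, hf, h0, Eventually.of_forall fun x => ?_⟩
  simp

theorem Mon.coord (i : Fin n) : Mon (fun x : Fin n → ℝ => x i) (Pi.single i 1) := by
  refine ⟨fun _ => 1, analyticAt_const, one_ne_zero, Eventually.of_forall fun x => ?_⟩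
  rw [Finset.prod_eq_single i]
  · simp
  · intro j _ hj
    rw [Pi.single_eq_of_ne hj, pow_zero]
  · simp

theorem Mon.monomial (α : Fin n → ℕ) : Mon (fun x : Fin n → ℝ => ∏ i, x i ^ α i) α := by
  refine ⟨fun _ => 1, analyticAt_const, one_ne_zero, Eventually.of_forall fun x => ?_⟩
  simp

theorem Mon.analytic {f : (Fin n → ℝ) → ℝ} {α : Fin n → ℕ} (hf : Mon f α) : AnalyticAt ℝ f 0 := by
  obtain ⟨ε, hε, h0, he⟩ := hf
  have h1 : ∀ i : Fin n, AnalyticAt ℝ (fun x : Fin n → ℝ => x i ^ α i) 0 := fun i =>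
    ((ContinuousLinearMap.proj (R := ℝ) (φ := fun _ : Fin n => ℝ) i).analyticAt 0).pow _
  have h2 : AnalyticAt ℝ (fun x : Fin n → ℝ => (∏ i, x i ^ α i) * ε x) 0 :=
    (Finset.analyticAt_fun_prod _ fun i _ => h1 i).mul hε
  exact h2.congr (he.mono fun x hx => hx.symm)

theorem Mon.ne_zero {f : (Fin n → ℝ) → ℝ} {α : Fin n → ℕ} (hf : Mon f α) :
    ¬ ∀ᶠ x in 𝓝 (0 : Fin n → ℝ), f x = 0 := by
  intro hz
  obtain ⟨ε, hε, h0, he⟩ := hf
  have h1 : ∀ᶠ x in 𝓝 (0 : Fin n → ℝ), ε x ≠ 0 := hε.continuousAt.eventually_ne h0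
  have h2 : ∀ᶠ x in 𝓝 (0 : Fin n → ℝ), ∏ i, x i ^ α i = 0 := by
    filter_upwards [hz, he, h1] with x h3 h4 h5
    rw [h3] at h4
    exact (mul_eq_zero.1 h4.symm).resolve_right h5
  have h3 : Tendsto (fun (t : ℝ) (_ : Fin n) => t) (𝓝[>] 0) (𝓝 (0 : Fin n → ℝ)) := by
    refine tendsto_pi_nhds.2 fun i => ?_
    exact tendsto_nhdsWithin_of_tendsto_nhds tendsto_id
  obtain ⟨t, ht, ht2⟩ := ((h3.eventually h2).and self_mem_nhdsWithin).exists
  have ht3 : (0 : ℝ) < t := ht2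
  have h4 : ∏ i : Fin n, t ^ α i ≠ 0 := Finset.prod_ne_zero_iff.2 fun i _ => pow_ne_zero _ ht3.ne'
  exact h4 ht

theorem Mon.apply_zero_ne {f : (Fin n → ℝ) → ℝ} {α : Fin n → ℕ} (hf : Mon f α) (hα : α = fun _ => 0) :
    f 0 ≠ 0 := by
  obtain ⟨ε, hε, h0, he⟩ := hf
  have h1 := he.self_of_nhds
  rw [h1, hα]
  simpa using h0

theorem Mon.apply_zero_eq {f : (Fin n → ℝ) → ℝ} {α : Fin n → ℕ} (hf : Mon f α) (hα : α ≠ fun _ => 0) :
    f 0 = 0 := by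
  obtain ⟨ε, hε, h0, he⟩ := hf
  have h1 := he.self_of_nhds
  obtain ⟨i, hi⟩ : ∃ i, α i ≠ 0 := by
    by_contra hcon
    push Not at hcon
    exact hα (funext hcon)
  rw [h1, Finset.prod_eq_zero (Finset.mem_univ i) (by simp [hi]), zero_mul]

/-- pull back along the projection that forgets the first coordinate -/
theorem Mon.tail {f : (Fin n → ℝ) → ℝ} {α : Fin n → ℕ} (hf : Mon f α) :
    Mon (fun x : Fin (n + 1) → ℝ => f (Fin.tail x)) (Fin.cons 0 α) := by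
  obtain ⟨ε, hε, h0, he⟩ := hf
  have ht : AnalyticAt ℝ (fun x : Fin (n + 1) → ℝ => (Fin.tail x : Fin n → ℝ)) 0 :=
    AnalyticAt.pi fun i =>
      (ContinuousLinearMap.proj (R := ℝ) (φ := fun _ : Fin (n + 1) => ℝ) i.succ).analyticAt 0
  have h1 : (Fin.tail (0 : Fin (n + 1) → ℝ) : Fin n → ℝ) = 0 := rfl
  refine ⟨fun x => ε (Fin.tail x), ?_, ?_, ?_⟩
  · refine AnalyticAt.fun_comp (g := ε) ?_ ht
    rw [h1]
    exact hε
  · exact h0
  · have h2 : Tendsto (fun x : Fin (n + 1) → ℝ => (Fin.tail x : Fin n → ℝ)) (𝓝 0) (𝓝 0) :=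
      ht.continuousAt
    filter_upwards [h2.eventually he] with x hx
    rw [hx, Fin.prod_univ_succ]
    simp only [Fin.cons_zero, pow_zero, Fin.cons_succ, one_mul]
    rfl

theorem analyticAt_tail (x : Fin (n + 1) → ℝ) :
    AnalyticAt ℝ (fun x : Fin (n + 1) → ℝ => (Fin.tail x : Fin n → ℝ)) x := by
  exact AnalyticAt.pi fun i =>
    (ContinuousLinearMap.proj (R := ℝ) (φ := fun _ : Fin (n + 1) => ℝ) i.succ).analyticAt x

theorem continuous_tail : Continuous (fun x : Fin (n + 1) → ℝ => (Fin.tail x : Fin n → ℝ)) := by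
  exact continuous_pi fun i => continuous_apply i.succ

/-- assembling an analytic map from its first coordinate and its tail -/
theorem AnalyticAt.finCons {E : Type*} [NormedAddCommGroup E] [NormedSpace ℝ E] {p : E}
    {u : E → ℝ} {v : E → (Fin n → ℝ)} (hu : AnalyticAt ℝ u p) (hv : AnalyticAt ℝ v p) :
    AnalyticAt ℝ (fun x => (Fin.cons (u x) (v x) : Fin (n + 1) → ℝ)) p := by
  refine AnalyticAt.pi (f := fun i x => (Fin.cons (u x) (v x) : Fin (n + 1) → ℝ) i) fun i => ?_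
  refine Fin.cases ?_ (fun j => ?_) i
  · simpa using hu
  · simp only [Fin.cons_succ]
    exact analyticAt_pi_iff.1 hv j

theorem tendsto_finCons {X : Type*} {F : Filter X} {u : X → ℝ} {v : X → (Fin n → ℝ)}
    (hu : Tendsto u F (𝓝 0)) (hv : Tendsto v F (𝓝 0)) :
    Tendsto (fun x => (Fin.cons (u x) (v x) : Fin (n + 1) → ℝ)) F (𝓝 0) := by
  refine tendsto_pi_nhds.2 fun i => ?_
  refine Fin.cases ?_ (fun j => ?_) i
  · simpa using hu
  · simpa using tendsto_pi_nhds.1 hv j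

theorem sec_zero {φ s : (Fin n → ℝ) → (Fin n → ℝ)} {F : Filter (Fin n → ℝ)} [F.NeBot]
    (hF : F ≤ 𝓝 0) (hφ : AnalyticAt ℝ φ 0) (hs : Tendsto s F (𝓝 0)) (hsec : ∀ᶠ x in F, φ (s x) = x) :
    φ 0 = 0 := by
  have h1 : Tendsto (fun x => φ (s x)) F (𝓝 (φ 0)) := hφ.continuousAt.tendsto.comp hs
  have h2 : Tendsto (fun x : Fin n → ℝ => x) F (𝓝 0) := tendsto_id'.2 hF
  exact tendsto_nhds_unique h1 (h2.congr' (hsec.mono fun x hx => hx.symm))

theorem Res.congr {f g : (Fin n → ℝ) → ℝ} {𝒰 : Ultrafilter (Fin n → ℝ)}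
    (h𝒰 : (𝒰 : Filter (Fin n → ℝ)) ≤ 𝓝 0) (h : ∀ᶠ x in 𝓝 (0 : Fin n → ℝ), f x = g x)
    (hf : Res f 𝒰) : Res g 𝒰 := by
  obtain ⟨φ, s, α, hφ, hs, hsec, hm⟩ := hf
  have h0 : φ 0 = 0 := sec_zero h𝒰 hφ hs hsec
  refine ⟨φ, s, α, hφ, hs, hsec, Mon.congr ?_ hm⟩
  have h1 : Tendsto φ (𝓝 0) (𝓝 0) := by
    have := hφ.continuousAt.tendsto
    rwa [h0] at this
  exact h1.eventually h

theorem Res.comp {g : (Fin n → ℝ) → ℝ} {φ s : (Fin n → ℝ) → (Fin n → ℝ)}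
    {𝒰 : Ultrafilter (Fin n → ℝ)} (h𝒰 : (𝒰 : Filter (Fin n → ℝ)) ≤ 𝓝 0)
    (hφ : AnalyticAt ℝ φ 0) (hs : Tendsto s 𝒰 (𝓝 0)) (hsec : ∀ᶠ x in (𝒰 : Filter (Fin n → ℝ)), φ (s x) = x)
    (h : Res (g ∘ φ) (𝒰.map s : Ultrafilter (Fin n → ℝ))) : Res g 𝒰 := by
  obtain ⟨ψ, s', α, hψ, hs', hsec', hm⟩ := h
  have h1 : ((𝒰.map s : Ultrafilter (Fin n → ℝ)) : Filter (Fin n → ℝ)) ≤ 𝓝 0 := hs
  have h0 : ψ 0 = 0 := sec_zero h1 hψ hs' hsec'
  refine ⟨φ ∘ ψ, s' ∘ s, α, ?_, ?_, ?_, hm⟩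
  · refine AnalyticAt.comp ?_ hψ
    rw [h0]
    exact hφ
  · exact hs'.comp tendsto_map
  · have h2 : ∀ᶠ x in (𝒰 : Filter (Fin n → ℝ)), ψ (s' (s x)) = s x := hsec'
    filter_upwards [h2, hsec] with x h3 h4
    simp only [Function.comp_apply]
    rw [h3, h4]

/-- a function which is already monomial is monomialised by the identity -/
theorem Mon.res {g : (Fin n → ℝ) → ℝ} {α : Fin n → ℕ} (hg : Mon g α)
    {𝒰 : Ultrafilter (Fin n → ℝ)} (h𝒰 : (𝒰 : Filter (Fin n → ℝ)) ≤ 𝓝 0) : Res g 𝒰 := by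
  exact ⟨id, id, α, analyticAt_id, h𝒰, Eventually.of_forall fun _ => rfl, hg⟩

end Pool.Agent.helper62.GF
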