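import Pool.Agent.helper62.GF.M01

/-!
# GF-M02: germs of analytic functions form a domain; consequences

`germ_domain`: `A, B` are analytic on a small ball around `p` (open, convex, hence preconnected).  If
`A` is not locally zero at `p`, there are points `q` of the ball with `A q ≠ 0`, hence `A ≠ 0` near `q`,
hence `B = 0` near `q`, hence `B = 0` on the ball
(`AnalyticOnNhd.eqOn_zero_of_preconnected_of_eventuallyEq_zero`).
The other statements follow (a monomial is not locally zero by `Mon.monomial` + `Mon.ne_zero`).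
-/

open Filter Topology

namespace Pool.Agent.helper62.GF

theorem germ_domain {E : Type*} [NormedAddCommGroup E] [NormedSpace ℝ E] {p : E} {A B : E → ℝ}
    (hA : AnalyticAt ℝ A p) (hB : AnalyticAt ℝ B p) (h : ∀ᶠ x in 𝓝 p, A x * B x = 0) :
    (∀ᶠ x in 𝓝 p, A x = 0) ∨ (∀ᶠ x in 𝓝 p, B x = 0) := by
  by_cases hA0 : ∀ᶠ x in 𝓝 p, A x = 0
  · exact Or.inl hA0
  · right
    obtain ⟨r, hr, hball⟩ := Metric.eventually_nhds_iff_ball.1
      (h.and (hA.eventually_analyticAt.and hB.eventually_analyticAt))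
    have hex : ∃ q ∈ Metric.ball p r, A q ≠ 0 := by
      by_contra hcon
      push Not at hcon
      exact hA0 (Metric.eventually_nhds_iff_ball.2 ⟨r, hr, hcon⟩)
    obtain ⟨q, hq, hAq⟩ := hex
    have hBq : B =ᶠ[𝓝 q] 0 := by
      filter_upwards [(hball q hq).2.1.continuousAt.eventually_ne hAq,
        Metric.isOpen_ball.mem_nhds hq] with y hy1 hy2
      exact (mul_eq_zero.1 (hball y hy2).1).resolve_left hy1
    have hon : AnalyticOnNhd ℝ B (Metric.ball p r) := fun y hy => (hball y hy).2.2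
    have hz := hon.eqOn_zero_of_preconnected_of_eventuallyEq_zero
      (convex_ball p r).isPreconnected hq hBq
    exact Metric.eventually_nhds_iff_ball.2 ⟨r, hr, fun y hy => hz hy⟩

theorem germ_mul_ne {E : Type*} [NormedAddCommGroup E] [NormedSpace ℝ E] {p : E} {A B : E → ℝ}
    (hA : AnalyticAt ℝ A p) (hB : AnalyticAt ℝ B p) (hA0 : ¬ ∀ᶠ x in 𝓝 p, A x = 0)
    (hB0 : ¬ ∀ᶠ x in 𝓝 p, B x = 0) : ¬ ∀ᶠ x in 𝓝 p, A x * B x = 0 := by
  intro h
  rcases germ_domain hA hB h with h1 | h1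
  · exact hA0 h1
  · exact hB0 h1

theorem germ_prod_ne {E ι : Type*} [NormedAddCommGroup E] [NormedSpace ℝ E] {p : E} (s : Finset ι)
    {A : ι → E → ℝ} (hA : ∀ i ∈ s, AnalyticAt ℝ (A i) p) (hA0 : ∀ i ∈ s, ¬ ∀ᶠ x in 𝓝 p, A i x = 0) :
    ¬ ∀ᶠ x in 𝓝 p, ∏ i ∈ s, A i x = 0 := by
  classical
  induction s using Finset.induction_on with
  | empty =>
    intro h
    have h1 := h.self_of_nhds
    rw [Finset.prod_empty] at h1
    exact one_ne_zero h1
  | insert a s ha ih =>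
    have h1 := ih (fun i hi => hA i (Finset.mem_insert_of_mem hi))
      (fun i hi => hA0 i (Finset.mem_insert_of_mem hi))
    have h2 : AnalyticAt ℝ (fun x => ∏ i ∈ s, A i x) p :=
      Finset.analyticAt_fun_prod _ fun i hi => hA i (Finset.mem_insert_of_mem hi)
    simp only [Finset.prod_insert ha]
    exact germ_mul_ne (hA a (Finset.mem_insert_self _ _)) h2
      (hA0 a (Finset.mem_insert_self _ _)) h1

theorem germ_pow_ne {E : Type*} [NormedAddCommGroup E] [NormedSpace ℝ E] {p : E} {A : E → ℝ}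
    (hA0 : ¬ ∀ᶠ x in 𝓝 p, A x = 0) (k : ℕ) : ¬ ∀ᶠ x in 𝓝 p, A x ^ k = 0 := by
  intro h
  apply hA0
  filter_upwards [h] with x hx
  exact eq_zero_of_pow_eq_zero hx

/-- cancellation of a monomial -/
theorem mon_cancel {n : ℕ} {G H : (Fin n → ℝ) → ℝ} (hG : AnalyticAt ℝ G 0) (hH : AnalyticAt ℝ H 0)
    (δ : Fin n → ℕ)
    (h : ∀ᶠ x in 𝓝 (0 : Fin n → ℝ), (∏ i, x i ^ δ i) * G x = (∏ i, x i ^ δ i) * H x) :
    ∀ᶠ x in 𝓝 (0 : Fin n → ℝ), G x = H x := by
  have hM : Mon (fun x : Fin n → ℝ => ∏ i, x i ^ δ i) δ := Mon.monomial δ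
  have hD : AnalyticAt ℝ (fun x => G x - H x) 0 := hG.fun_sub hH
  have h1 : ∀ᶠ x in 𝓝 (0 : Fin n → ℝ), (∏ i, x i ^ δ i) * (G x - H x) = 0 := by
    filter_upwards [h] with x hx
    rw [mul_sub, hx, sub_self]
  rcases germ_domain hM.analytic hD h1 with h2 | h2
  · exact absurd h2 hM.ne_zero
  · filter_upwards [h2] with x hx
    exact sub_eq_zero.1 hx

end Pool.Agent.helper62.GF
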