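import Mathlib

/-!
# GF-M03: division of an analytic function by a linear form

Proof of `analytic_div`.  Let `p` be the power series of `f` at `0` (`HasFPowerSeriesOnBall f p 0 r`),
`π x = x - ℓ x • e` (continuous linear).  Since `x = π x + ℓ x • e`, multilinearity (telescoping) gives
`p_m (x,…,x) - p_m (π x,…,π x) = ∑_{j<m} p_m (π x,…,π x, ℓ x • e, x,…,x) = ℓ x • q_{m-1} (x,…,x)` where
`q_{m-1} (v_1,…,v_{m-1}) = ∑_{j<m} p_m (π v_1,…,π v_j, e, v_{j+1},…,v_{m-1})`,
a continuous multilinear map of norm `≤ m * ‖p_m‖ * ‖e‖ * (max ‖π‖ 1) ^ (m-1)`.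
So `q` has positive radius of convergence (`FormalMultilinearSeries.le_radius_of_bound` with a small
radius: `m * θ ^ m` is bounded for `θ < 1`), `f₁ := q.sum` is analytic at `0`
(`FormalMultilinearSeries.hasFPowerSeriesOnBall`), and summing the identities (`HasSum`) proves the claim.
(Useful: `ContinuousMultilinearMap.compContinuousLinearMap`, `curryMid`/`curryLeft`/`Fin.insertNth`;
alternatively build `q` recursively.  Any other proof of the statement is fine.)

`analytic_div_pow`: induction on `j`.  For `j ≥ 1` the bound gives `h (x - ℓ x • e) = 0` near `0`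
(as `ℓ (x - ℓ x • e) = 0`), so `h x = ℓ x • h₁ x`; where `ℓ x ≠ 0` we get `‖h₁ x‖ ≤ C * |ℓ x| ^ (j-1)`;
the points with `ℓ x ≠ 0` are dense (add `t • e`), so by continuity the bound holds near `0`.
-/

open Filter Topology

namespace Pool.Agent.helper62.GF

section

variable {E F : Type*} [NormedAddCommGroup E] [NormedSpace ℝ E] [NormedAddCommGroup F]
    [NormedSpace ℝ F]

/-- The telescoping multilinear map. -/
private noncomputable def qs (p : FormalMultilinearSeries ℝ E F) (π : E →L[ℝ] E) (e : E) :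
    FormalMultilinearSeries ℝ E F := fun m =>
  ∑ j : Fin (m + 1), (((p (m + 1)).curryMid j) e).compContinuousLinearMap
    (fun i : Fin m => if (i : ℕ) < (j : ℕ) then π else ContinuousLinearMap.id ℝ E)

private theorem qs_apply (p : FormalMultilinearSeries ℝ E F) (π : E →L[ℝ] E) (e : E) (m : ℕ)
    (x : E) : qs p π e m (fun _ => x) =
      ∑ j : Fin (m + 1), p (m + 1) (j.insertNth e
        (fun i : Fin m => if (i : ℕ) < (j : ℕ) then π x else x)) := by
  unfold qs
  rw [ContinuousMultilinearMap.sum_apply]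
  refine Finset.sum_congr rfl fun j _ => ?_
  rw [ContinuousMultilinearMap.compContinuousLinearMap_apply,
    ContinuousMultilinearMap.curryMid_apply]
  congr 2
  funext i
  split_ifs <;> rfl

/-- one step of the telescoping -/
private theorem tele_step {m : ℕ} (P : ContinuousMultilinearMap ℝ (fun _ : Fin (m + 1) => E) F)
    {π : E →L[ℝ] E} {e x : E} {c : ℝ} (hx : x - π x = c • e) (j : Fin (m + 1)) :
    P (fun i : Fin (m + 1) => if (i : ℕ) < (j : ℕ) then π x else x) -
      P (fun i : Fin (m + 1) => if (i : ℕ) < (j : ℕ) + 1 then π x else x) =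
    c • P (j.insertNth e (fun i : Fin m => if (i : ℕ) < (j : ℕ) then π x else x)) := by
  set b : Fin (m + 1) → E := fun i => if (i : ℕ) < (j : ℕ) then π x else x with hb
  have h1 : b = Function.update b j x := by
    rw [eq_comm, Function.update_eq_self_iff]
    simp [hb]
  have h2 : (fun i : Fin (m + 1) => if (i : ℕ) < (j : ℕ) + 1 then π x else x) =
      Function.update b j (π x) := by
    funext i
    by_cases hij : i = j
    · subst hij
      simp
    · rw [Function.update_of_ne hij]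
      have h3 : (i : ℕ) ≠ (j : ℕ) := fun h => hij (Fin.ext h)
      simp only [hb]
      by_cases h4 : (i : ℕ) < (j : ℕ)
      · rw [if_pos h4, if_pos (by omega)]
      · rw [if_neg h4, if_neg (by omega)]
  have h3 : Function.update b j e =
      j.insertNth e (fun i : Fin m => if (i : ℕ) < (j : ℕ) then π x else x) := by
    funext i
    refine Fin.succAboveCases j ?_ (fun k => ?_) i
    · simp
    · rw [Function.update_of_ne (Fin.succAbove_ne j k), Fin.insertNth_apply_succAbove]
      simp only [hb]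
      by_cases h4 : (k : ℕ) < (j : ℕ)
      · have h5 : ((j.succAbove k : Fin (m + 1)) : ℕ) = k := by
          rw [Fin.succAbove_of_castSucc_lt _ _ (by
            rw [Fin.lt_def]
            simpa using h4)]
          rfl
        rw [h5]
      · have h5 : ((j.succAbove k : Fin (m + 1)) : ℕ) = k + 1 := by
          rw [Fin.succAbove_of_le_castSucc _ _ (by
            rw [Fin.le_def]
            simpa using h4)]
          rfl
        rw [h5, if_neg (by omega), if_neg h4]
  rw [h2]
  conv_lhs => rw [h1]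
  rw [Function.update_idem, ← ContinuousMultilinearMap.map_update_sub, hx,
    ContinuousMultilinearMap.map_update_smul, h3]

private theorem tele {m : ℕ} (P : ContinuousMultilinearMap ℝ (fun _ : Fin (m + 1) => E) F)
    {π : E →L[ℝ] E} {e x : E} {c : ℝ} (hx : x - π x = c • e) :
    P (fun _ => x) - P (fun _ => π x) =
    c • ∑ j : Fin (m + 1), P (j.insertNth e
      (fun i : Fin m => if (i : ℕ) < (j : ℕ) then π x else x)) := by
  have h1 : P (fun _ => x) - P (fun _ => π x) = ∑ j ∈ Finset.range (m + 1),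
      (P (fun i : Fin (m + 1) => if (i : ℕ) < j then π x else x) -
        P (fun i : Fin (m + 1) => if (i : ℕ) < j + 1 then π x else x)) := by
    rw [Finset.sum_range_sub']
    congr 2
    funext i
    rw [if_pos i.2]
  rw [h1, Finset.sum_range, Finset.smul_sum]
  exact Finset.sum_congr rfl fun j _ => tele_step P hx j

private theorem qs_norm (p : FormalMultilinearSeries ℝ E F) (π : E →L[ℝ] E) (e : E) (m : ℕ) :
    ‖qs p π e m‖ ≤ (m + 1) * (‖p (m + 1)‖ * ‖e‖ * (max 1 ‖π‖) ^ m) := by
  unfold qs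
  refine (norm_sum_le _ _).trans ?_
  have h1 : ∀ j ∈ (Finset.univ : Finset (Fin (m + 1))),
      ‖(((p (m + 1)).curryMid j) e).compContinuousLinearMap
        (fun i : Fin m => if (i : ℕ) < (j : ℕ) then π else ContinuousLinearMap.id ℝ E)‖ ≤
        ‖p (m + 1)‖ * ‖e‖ * (max 1 ‖π‖) ^ m := by
    intro j _
    refine (ContinuousMultilinearMap.norm_compContinuousLinearMap_le _ _).trans ?_
    have h2 : ‖((p (m + 1)).curryMid j) e‖ ≤ ‖p (m + 1)‖ * ‖e‖ := by
      refine (ContinuousLinearMap.le_opNorm _ _).trans ?_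
      rw [ContinuousMultilinearMap.norm_curryMid]
    have h3 : ∏ i : Fin m, ‖(if (i : ℕ) < (j : ℕ) then π else ContinuousLinearMap.id ℝ E)‖ ≤
        (max 1 ‖π‖) ^ m := by
      have h4 : ∏ i : Fin m, ‖(if (i : ℕ) < (j : ℕ) then π else ContinuousLinearMap.id ℝ E)‖ ≤
          ∏ _i : Fin m, max 1 ‖π‖ := by
        refine Finset.prod_le_prod (fun i _ => norm_nonneg _) fun i _ => ?_
        split_ifs
        · exact le_max_right _ _
        · exact ContinuousLinearMap.norm_id_le.trans (le_max_left _ _)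
      simpa using h4
    exact mul_le_mul h2 h3 (Finset.prod_nonneg fun i _ => norm_nonneg _) (by positivity)
  refine (Finset.sum_le_sum h1).trans (le_of_eq ?_)
  simp

private theorem qs_radius (p : FormalMultilinearSeries ℝ E F) (hp : 0 < p.radius) (π : E →L[ℝ] E)
    (e : E) : 0 < (qs p π e).radius := by
  obtain ⟨r, hr0, hr⟩ := ENNReal.lt_iff_exists_nnreal_btwn.1 hp
  have hr0' : 0 < r := by exact_mod_cast hr0
  obtain ⟨C, hC, hb⟩ := p.norm_le_div_pow_of_pos_of_lt_radius hr0' hr
  have hrr : (0 : ℝ) < r := by exact_mod_cast hr0'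
  set K : ℝ := max 1 ‖π‖ with hK
  have hK1 : (1 : ℝ) ≤ K := le_max_left _ _
  have hρ : (0 : ℝ) < r / (2 * K) := by positivity
  set ρ : NNReal := ⟨r / (2 * K), hρ.le⟩ with hρd
  have hle : (ρ : ENNReal) ≤ (qs p π e).radius := by
    refine FormalMultilinearSeries.le_radius_of_bound _ (C * ‖e‖ / r) fun m => ?_
    have h1 := qs_norm p π e m
    have h2 := hb (m + 1)
    have h3 : ((m : ℝ) + 1) ≤ 2 ^ m := by
      exact_mod_cast (Nat.lt_two_pow_self : m < 2 ^ m)
    calc ‖qs p π e m‖ * (ρ : ℝ) ^ m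
        ≤ ((m + 1) * (‖p (m + 1)‖ * ‖e‖ * K ^ m)) * (r / (2 * K)) ^ m := by
          refine mul_le_mul_of_nonneg_right h1 (by positivity)
      _ ≤ (2 ^ m * ((C / (r : ℝ) ^ (m + 1)) * ‖e‖ * K ^ m)) * (r / (2 * K)) ^ m := by
          refine mul_le_mul_of_nonneg_right ?_ (by positivity)
          refine mul_le_mul h3 ?_ (by positivity) (by positivity)
          refine mul_le_mul_of_nonneg_right ?_ (by positivity)
          exact mul_le_mul_of_nonneg_right h2 (norm_nonneg _)
      _ = C * ‖e‖ / r := by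
          rw [div_pow, mul_pow, pow_succ]
          field_simp
  exact lt_of_lt_of_le (by exact_mod_cast hρ) hle

end

theorem analytic_div {E F : Type*} [NormedAddCommGroup E] [NormedSpace ℝ E] [NormedAddCommGroup F]
    [NormedSpace ℝ F] [CompleteSpace F] (f : E → F) (hf : AnalyticAt ℝ f 0) (ℓ : E →L[ℝ] ℝ) (e : E)
    (hℓ : ℓ e = 1) :
    ∃ f₁ : E → F, AnalyticAt ℝ f₁ 0 ∧ ∀ᶠ x in 𝓝 (0 : E), f x - f (x - ℓ x • e) = ℓ x • f₁ x := by
  obtain ⟨p, r, hp⟩ := hf
  set π : E →L[ℝ] E := ContinuousLinearMap.id ℝ E - ℓ.smulRight e with hπ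
  have hπx : ∀ x, π x = x - ℓ x • e := fun x => by simp [hπ]
  have hrad := qs_radius p (hp.r_pos.trans_le hp.r_le) π e
  have hq := (qs p π e).hasFPowerSeriesOnBall hrad
  refine ⟨(qs p π e).sum, hq.analyticAt, ?_⟩
  have hn1 : ∀ᶠ x in 𝓝 (0 : E), x ∈ Metric.eball (0 : E) r := Metric.eball_mem_nhds 0 hp.r_pos
  have hn2 : ∀ᶠ x in 𝓝 (0 : E), π x ∈ Metric.eball (0 : E) r := by
    have hc : Tendsto π (𝓝 0) (𝓝 0) := by
      have := π.continuous.tendsto 0
      rwa [map_zero] at this
    exact hc.eventually (Metric.eball_mem_nhds 0 hp.r_pos)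
  have hn3 : ∀ᶠ x in 𝓝 (0 : E), x ∈ Metric.eball (0 : E) (qs p π e).radius :=
    Metric.eball_mem_nhds 0 hrad
  filter_upwards [hn1, hn2, hn3] with x h1 h2 h3
  have s1 := hp.hasSum h1
  have s2 := hp.hasSum h2
  have s3 := hq.hasSum h3
  rw [zero_add] at s1 s2 s3
  have s4 := s1.sub s2
  have h0 : p 0 (fun _ => x) - p 0 (fun _ => π x) = 0 := by
    rw [sub_eq_zero]
    congr 1
    funext i
    exact i.elim0
  have s5 : HasSum (fun m => p (m + 1) (fun _ => x) - p (m + 1) (fun _ => π x))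
      (f x - f (π x)) := by
    rw [← hasSum_nat_add_iff' 1] at s4
    simpa [h0] using s4
  have s6 := s3.const_smul (ℓ x)
  have h7 : (fun m => p (m + 1) (fun _ => x) - p (m + 1) (fun _ => π x)) =
      fun m => ℓ x • (qs p π e m) (fun _ => x) := by
    funext m
    rw [qs_apply]
    refine tele (p (m + 1)) ?_
    rw [hπx]
    abel
  rw [h7] at s5
  have h8 := s5.unique s6
  rw [← hπx]
  exact h8

theorem analytic_div_pow {E F : Type*} [NormedAddCommGroup E] [NormedSpace ℝ E] [NormedAddCommGroup F]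
    [NormedSpace ℝ F] [CompleteSpace F] (h : E → F) (hh : AnalyticAt ℝ h 0) (ℓ : E →L[ℝ] ℝ) (e : E)
    (hℓ : ℓ e = 1) (j : ℕ) (C : ℝ) (hb : ∀ᶠ x in 𝓝 (0 : E), ‖h x‖ ≤ C * |ℓ x| ^ j) :
    ∃ h₁ : E → F, AnalyticAt ℝ h₁ 0 ∧ ∀ᶠ x in 𝓝 (0 : E), h x = (ℓ x) ^ j • h₁ x := by
  induction j generalizing h with
  | zero =>
    exact ⟨h, hh, Eventually.of_forall fun x => by simp⟩
  | succ j ih =>
    obtain ⟨f₁, hf₁, hdiv⟩ := analytic_div h hh ℓ e hℓ
    have hπ : Tendsto (fun x : E => x - ℓ x • e) (𝓝 0) (𝓝 0) := by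
      have hc : Continuous fun x : E => x - ℓ x • e := by fun_prop
      have := hc.tendsto 0
      simpa using this
    have hz : ∀ᶠ x in 𝓝 (0 : E), h (x - ℓ x • e) = 0 := by
      filter_upwards [hπ.eventually hb] with x hx
      have h1 : ℓ (x - ℓ x • e) = 0 := by
        rw [map_sub, map_smul, hℓ]
        simp
      rw [h1] at hx
      simpa using hx
    have heq : ∀ᶠ x in 𝓝 (0 : E), h x = ℓ x • f₁ x := by
      filter_upwards [hdiv, hz] with x h1 h2
      rw [h2, sub_zero] at h1
      exact h1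
    have hne : ∀ᶠ x in 𝓝 (0 : E), ℓ x ≠ 0 → ‖f₁ x‖ ≤ C * |ℓ x| ^ j := by
      filter_upwards [heq, hb] with x h1 h2 h3
      rw [h1, norm_smul, Real.norm_eq_abs, pow_succ] at h2
      have h4 : 0 < |ℓ x| := abs_pos.2 h3
      have h5 : |ℓ x| * ‖f₁ x‖ ≤ |ℓ x| * (C * |ℓ x| ^ j) := by
        calc |ℓ x| * ‖f₁ x‖ ≤ C * (|ℓ x| ^ j * |ℓ x|) := h2
          _ = |ℓ x| * (C * |ℓ x| ^ j) := by ring
      exact le_of_mul_le_mul_left h5 h4
    have hbound : ∀ᶠ x in 𝓝 (0 : E), ‖f₁ x‖ ≤ C * |ℓ x| ^ j := by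
      filter_upwards [eventually_eventually_nhds.2 hne, hf₁.eventually_analyticAt] with x h1 h2
      by_cases h3 : ℓ x = 0
      · have hcont : Tendsto (fun t : ℝ => x + t • e) (𝓝[≠] 0) (𝓝 x) := by
          have hc : Continuous fun t : ℝ => x + t • e := by fun_prop
          have := hc.tendsto 0
          rw [zero_smul, add_zero] at this
          exact this.mono_left nhdsWithin_le_nhds
        have t1 : Tendsto (fun t : ℝ => ‖f₁ (x + t • e)‖) (𝓝[≠] 0) (𝓝 ‖f₁ x‖) :=
          (h2.continuousAt.tendsto.comp hcont).norm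
        have t2 : Tendsto (fun t : ℝ => C * |ℓ (x + t • e)| ^ j) (𝓝[≠] 0) (𝓝 (C * |ℓ x| ^ j)) :=
          (((ℓ.continuous.tendsto x).comp hcont).abs.pow j).const_mul C
        refine le_of_tendsto_of_tendsto t1 t2 ?_
        have h4 := hcont.eventually h1
        filter_upwards [h4, self_mem_nhdsWithin] with t h5 h6
        refine h5 ?_
        rw [map_add, map_smul, hℓ, h3]
        simpa using h6
      · exact h1.self_of_nhds h3
    obtain ⟨h₁, hh₁, he⟩ := ih f₁ hf₁ hbound
    refine ⟨h₁, hh₁, ?_⟩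
    filter_upwards [heq, he] with x h1 h2
    rw [h1, h2, smul_smul, pow_succ']

end Pool.Agent.helper62.GF
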