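import Pool.Agent.helper62.GF.M02
import Pool.Agent.helper62.GF.M03

/-!
# GF-M04: Taylor expansion in the first variable with analytic coefficients and remainder

`div_first`: `analytic_div` with `ℓ x = x 0`, `e = Pi.single 0 1`; note `x - x 0 • Pi.single 0 1 = Fin.cons 0 (Fin.tail x)`.
`taylor_first`: induction on `d`, applying `div_first` to the remainder.
`order_taylor`: restrict the expansion to the line `t ↦ Fin.cons t 0`.
-/

open Filter Topology

namespace Pool.Agent.helper62.GF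

variable {n : ℕ}

private theorem sub_single (x : Fin (n + 1) → ℝ) :
    x - x 0 • (Pi.single 0 1 : Fin (n + 1) → ℝ) = Fin.cons 0 (Fin.tail x : Fin n → ℝ) := by
  funext i
  refine Fin.cases ?_ (fun k => ?_) i
  · simp
  · simp [Fin.tail]

private theorem analyticAt_cons_zero (x : Fin n → ℝ) :
    AnalyticAt ℝ (fun y : Fin n → ℝ => (Fin.cons 0 y : Fin (n + 1) → ℝ)) x :=
  AnalyticAt.finCons analyticAt_const analyticAt_id

private theorem analyticAt_cons_line (t : ℝ) :
    AnalyticAt ℝ (fun t : ℝ => (Fin.cons t (0 : Fin n → ℝ) : Fin (n + 1) → ℝ)) t :=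
  AnalyticAt.finCons analyticAt_id analyticAt_const

private theorem cons_zero_zero : (Fin.cons 0 (0 : Fin n → ℝ) : Fin (n + 1) → ℝ) = 0 := by
  funext i
  refine Fin.cases ?_ (fun k => ?_) i
  · simp
  · simp

theorem div_first (Q : (Fin (n + 1) → ℝ) → ℝ) (hQ : AnalyticAt ℝ Q 0) :
    ∃ Q₁ : (Fin (n + 1) → ℝ) → ℝ, AnalyticAt ℝ Q₁ 0 ∧
      ∀ᶠ x in 𝓝 (0 : Fin (n + 1) → ℝ), Q x = Q (Fin.cons 0 (Fin.tail x : Fin n → ℝ)) + x 0 * Q₁ x := by
  obtain ⟨Q₁, h1, h2⟩ := analytic_div Q hQ (ContinuousLinearMap.proj 0) (Pi.single 0 1) (by simp)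
  refine ⟨Q₁, h1, ?_⟩
  filter_upwards [h2] with x hx
  simp only [ContinuousLinearMap.proj_apply, sub_single, smul_eq_mul] at hx
  linarith

theorem taylor_first (Q : (Fin (n + 1) → ℝ) → ℝ) (hQ : AnalyticAt ℝ Q 0) (d : ℕ) :
    ∃ (c : ℕ → (Fin n → ℝ) → ℝ) (U : (Fin (n + 1) → ℝ) → ℝ), (∀ i, AnalyticAt ℝ (c i) 0) ∧
      AnalyticAt ℝ U 0 ∧ ∀ᶠ x in 𝓝 (0 : Fin (n + 1) → ℝ),
        Q x = (∑ i ∈ Finset.range d, c i (Fin.tail x) * x 0 ^ i) + x 0 ^ d * U x := by
  induction d with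
  | zero =>
    exact ⟨fun _ _ => 0, Q, fun _ => analyticAt_const, hQ, Eventually.of_forall fun x => by simp⟩
  | succ d ih =>
    obtain ⟨c, U, hc, hU, h⟩ := ih
    obtain ⟨U₁, hU₁, h1⟩ := div_first U hU
    refine ⟨Function.update c d (fun y => U (Fin.cons 0 y)), U₁, ?_, hU₁, ?_⟩
    · intro i
      by_cases hi : i = d
      · subst hi
        rw [Function.update_self]
        refine AnalyticAt.comp' (g := U) (f := fun y : Fin n → ℝ => Fin.cons 0 y) ?_
          (analyticAt_cons_zero 0)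
        rw [cons_zero_zero]
        exact hU
      · rw [Function.update_of_ne hi]
        exact hc i
    · filter_upwards [h, h1] with x hx hx1
      rw [Finset.sum_range_succ, Function.update_self]
      have h2 : ∑ i ∈ Finset.range d, Function.update c d (fun y => U (Fin.cons 0 y)) i
          (Fin.tail x) * x 0 ^ i = ∑ i ∈ Finset.range d, c i (Fin.tail x) * x 0 ^ i := by
        refine Finset.sum_congr rfl fun i hi => ?_
        rw [Function.update_of_ne (Finset.mem_range.1 hi).ne]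
      rw [h2, hx]
      conv_lhs => rw [hx1]
      ring

/-- a polynomial in `t` with a nonzero coefficient of index `< d'` has order `≤ d' - 1 < d'`-/
theorem order_le_of_coeff (d : ℕ) (c : ℕ → ℝ) (V : ℝ → ℝ) (hV : AnalyticAt ℝ V 0) (i : ℕ) (hi : i < d)
    (hci : c i ≠ 0) :
    analyticOrderAt (fun t : ℝ => (∑ j ∈ Finset.range d, c j * t ^ j) + t ^ d * V t) 0 ≤ (i : ℕ∞) := by
  classical
  have hex : ∃ k, c k ≠ 0 := ⟨i, hci⟩
  set k := Nat.find hex with hk
  have hck : c k ≠ 0 := Nat.find_spec hex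
  have hki : k ≤ i := Nat.find_min' hex hci
  have hlt : ∀ j < k, c j = 0 := fun j hj => by
    by_contra h
    exact Nat.find_min hex hj h
  obtain ⟨m, hm⟩ : ∃ m, d = k + (m + 1) := ⟨d - k - 1, by omega⟩
  have hsum : AnalyticAt ℝ (fun t : ℝ => ∑ j ∈ Finset.range (m + 1), c (k + j) * t ^ j) 0 := by
    refine Finset.analyticAt_fun_sum _ fun j _ => ?_
    exact analyticAt_const.mul (analyticAt_id.pow j)
  have hf : AnalyticAt ℝ (fun t : ℝ => (∑ j ∈ Finset.range d, c j * t ^ j) + t ^ d * V t) 0 := by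
    refine AnalyticAt.add ?_ ((analyticAt_id.pow d).mul hV)
    refine Finset.analyticAt_fun_sum _ fun j _ => ?_
    exact analyticAt_const.mul (analyticAt_id.pow j)
  have hord : analyticOrderAt (fun t : ℝ => (∑ j ∈ Finset.range d, c j * t ^ j) + t ^ d * V t) 0 =
      (k : ℕ∞) := by
    rw [hf.analyticOrderAt_eq_natCast]
    refine ⟨fun t => (∑ j ∈ Finset.range (m + 1), c (k + j) * t ^ j) + t ^ (m + 1) * V t,
      hsum.add ((analyticAt_id.pow (m + 1)).mul hV), ?_, ?_⟩
    · simp only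
      rw [Finset.sum_range_succ']
      simpa using hck
    · refine Eventually.of_forall fun t => ?_
      simp only [sub_zero, smul_eq_mul]
      rw [hm, Finset.sum_range_add, mul_add, Finset.mul_sum]
      have h1 : ∑ x ∈ Finset.range k, c x * t ^ x = 0 :=
        Finset.sum_eq_zero fun j hj => by
          rw [hlt j (Finset.mem_range.1 hj), zero_mul]
      rw [h1, zero_add]
      congr 1
      · refine Finset.sum_congr rfl fun j _ => ?_
        rw [pow_add]
        ring
      · rw [pow_add]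
        ring
  rw [hord]
  exact_mod_cast hki

/-- coefficients vanish at the origin iff the order on the `t`-axis is at least `d` -/
theorem order_taylor (Q : (Fin (n + 1) → ℝ) → ℝ) (d : ℕ)
    (c : ℕ → (Fin n → ℝ) → ℝ) (U : (Fin (n + 1) → ℝ) → ℝ) (hU : AnalyticAt ℝ U 0)
    (h : ∀ᶠ x in 𝓝 (0 : Fin (n + 1) → ℝ),
        Q x = (∑ i ∈ Finset.range d, c i (Fin.tail x) * x 0 ^ i) + x 0 ^ d * U x)
    (hord : analyticOrderAt (fun t : ℝ => Q (Fin.cons t (0 : Fin n → ℝ))) 0 = (d : ℕ∞)) :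
    (∀ i < d, c i 0 = 0) ∧ U 0 ≠ 0 := by
  have hline : Tendsto (fun t : ℝ => (Fin.cons t (0 : Fin n → ℝ) : Fin (n + 1) → ℝ)) (𝓝 0)
      (𝓝 0) := by
    have h1 := (analyticAt_cons_line (n := n) 0).continuousAt.tendsto
    rwa [cons_zero_zero] at h1
  have hUl : AnalyticAt ℝ (fun t : ℝ => U (Fin.cons t (0 : Fin n → ℝ))) 0 := by
    refine AnalyticAt.comp' (g := U) (f := fun t : ℝ => (Fin.cons t (0 : Fin n → ℝ) :
      Fin (n + 1) → ℝ)) ?_ (analyticAt_cons_line 0)
    rw [cons_zero_zero]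
    exact hU
  have hQl : (fun t : ℝ => Q (Fin.cons t (0 : Fin n → ℝ))) =ᶠ[𝓝 0] fun t : ℝ =>
      (∑ i ∈ Finset.range d, c i 0 * t ^ i) + t ^ d * U (Fin.cons t (0 : Fin n → ℝ)) := by
    filter_upwards [hline.eventually h] with t ht
    rw [ht]
    simp
  rw [analyticOrderAt_congr hQl] at hord
  have hc : ∀ i < d, c i 0 = 0 := by
    intro i hi
    by_contra hne
    have h1 := order_le_of_coeff d (fun i => c i 0) _ hUl i hi hne
    rw [hord] at h1
    have h2 : d ≤ i := by exact_mod_cast h1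
    omega
  refine ⟨hc, fun hU0 => ?_⟩
  have h3 : (fun t : ℝ => (∑ i ∈ Finset.range d, c i 0 * t ^ i) +
      t ^ d * U (Fin.cons t (0 : Fin n → ℝ))) =
      fun t : ℝ => t ^ d * U (Fin.cons t (0 : Fin n → ℝ)) := by
    funext t
    rw [Finset.sum_eq_zero fun i hi => by rw [hc i (Finset.mem_range.1 hi), zero_mul], zero_add]
  rw [h3] at hord
  have hf : AnalyticAt ℝ (fun t : ℝ => t ^ d * U (Fin.cons t (0 : Fin n → ℝ))) 0 :=
    (analyticAt_id.pow d).mul hUl
  rw [hf.analyticOrderAt_eq_natCast] at hord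
  obtain ⟨g, hg, hg0, he⟩ := hord
  -- compare U and g away from 0
  have h4 : ∀ᶠ t in 𝓝[≠] (0 : ℝ), U (Fin.cons t (0 : Fin n → ℝ)) = g t := by
    filter_upwards [he.filter_mono nhdsWithin_le_nhds, self_mem_nhdsWithin] with t ht ht0
    simp only [sub_zero, smul_eq_mul] at ht
    exact mul_left_cancel₀ (pow_ne_zero d ht0) ht
  have t1 : Tendsto (fun t : ℝ => U (Fin.cons t (0 : Fin n → ℝ))) (𝓝[≠] 0) (𝓝 (U 0)) := by
    have := hUl.continuousAt.tendsto
    rw [cons_zero_zero] at this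
    exact this.mono_left nhdsWithin_le_nhds
  have t2 : Tendsto g (𝓝[≠] 0) (𝓝 (g 0)) := hg.continuousAt.tendsto.mono_left nhdsWithin_le_nhds
  have t3 := tendsto_nhds_unique (t1.congr' h4) t2
  rw [hU0] at t3
  exact hg0 t3.symm

/-- a polynomial of degree `d + 1` without `t ^ d`-term has order at most `d` at every `t₀ ≠ 0` -/
theorem order_le_of_tschirnhaus (d : ℕ) (c : ℕ → ℝ) (u t₀ : ℝ) (hu : u ≠ 0) (ht₀ : t₀ ≠ 0) :
    analyticOrderAt (fun t : ℝ => (∑ j ∈ Finset.range d, c j * (t₀ + t) ^ j) + (t₀ + t) ^ (d + 1) * u) 0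
      ≤ (d : ℕ∞) := by
  set p : Polynomial ℝ := (∑ j ∈ Finset.range d, Polynomial.C (c j) *
    (Polynomial.X + Polynomial.C t₀) ^ j) + (Polynomial.X + Polynomial.C t₀) ^ (d + 1) *
      Polynomial.C u with hp
  have hcoeff : p.coeff d ≠ 0 := by
    rw [hp, Polynomial.coeff_add, Polynomial.finsetSum_coeff, Polynomial.coeff_mul_C,
      Polynomial.coeff_X_add_C_pow]
    have h1 : ∑ b ∈ Finset.range d, (Polynomial.C (c b) *
        (Polynomial.X + Polynomial.C t₀) ^ b).coeff d = 0 := by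
      refine Finset.sum_eq_zero fun j hj => ?_
      rw [Polynomial.coeff_C_mul, Polynomial.coeff_X_add_C_pow,
        Nat.choose_eq_zero_of_lt (Finset.mem_range.1 hj)]
      simp
    rw [h1, zero_add, Nat.add_sub_cancel_left, pow_one, Nat.choose_succ_self_right]
    have h2 : ((d + 1 : ℕ) : ℝ) ≠ 0 := by positivity
    exact mul_ne_zero (mul_ne_zero ht₀ h2) hu
  have heval : ∀ t : ℝ, (∑ j ∈ Finset.range d, c j * (t₀ + t) ^ j) + (t₀ + t) ^ (d + 1) * u =
      (∑ j ∈ Finset.range (max (d + 1) (p.natDegree + 1)), p.coeff j * t ^ j) +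
        t ^ (max (d + 1) (p.natDegree + 1)) * (0 : ℝ) := by
    intro t
    rw [mul_zero, add_zero, ← Polynomial.eval_eq_sum_range'
      (lt_of_lt_of_le (Nat.lt_succ_self _) (le_max_right (d + 1) (p.natDegree + 1)))]
    rw [hp]
    simp only [Polynomial.eval_add, Polynomial.eval_finsetSum, Polynomial.eval_mul,
      Polynomial.eval_C, Polynomial.eval_pow, Polynomial.eval_X]
    rw [add_comm t₀ t]
  simp only [heval]
  exact order_le_of_coeff _ _ (fun _ => 0) analyticAt_const d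
    (lt_of_lt_of_le (Nat.lt_succ_self d) (le_max_left _ _)) hcoeff

end Pool.Agent.helper62.GF
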