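import Pool.Agent.helper62.GF.M02
import Pool.Agent.helper62.GF.M03

/-!
author: helper41
# GF-M05: a factor of a monomial function is monomial

Induction on `∑ γ i`.  If `γ = 0` then `A 0 * B 0 ≠ 0`, so `A 0 ≠ 0` (`Mon.unit`).  Otherwise take `k` with
`γ k ≥ 1`; with `π x = x - x k • Pi.single k 1` (`= Function.update x k 0`) we have `A (π x) * B (π x) = 0`
near `0` (the product `∏ x i ^ γ i` vanishes at `π x`), and `A ∘ π`, `B ∘ π` are analytic at `0` (`π 0 = 0`),
so by `germ_domain` one of them vanishes near `0`, say `A ∘ π` (resp. `B ∘ π`).  By `analytic_div`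
(`ℓ = proj k`, `e = Pi.single k 1`) `A x = x k * A₁ x` near `0`, and `A₁ * B` is monomial with exponent
`γ - e_k`: write `∏ x i ^ γ i = x k * ∏ x i ^ (γ - e_k) i` and cancel `x k` (`mon_cancel`).  By induction
`A₁` is monomial, hence `A` is (`Mon.mul`, `Mon.coord`).  If `B ∘ π = 0`: `B = x k * B₁`, `A * B₁` monomial
with exponent `γ - e_k`, so `A` is monomial by induction.
-/

open Filter Topology

namespace Pool.Agent.helper62.GF

variable {n : ℕ}

private theorem M05_prod (γ : Fin n → ℕ) (k : Fin n) (hk : γ k ≠ 0) (x : Fin n → ℝ) :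
    ∏ i, x i ^ γ i = x k * ∏ i, x i ^ (Function.update γ k (γ k - 1)) i := by
  rw [← Finset.mul_prod_erase Finset.univ (fun i => x i ^ γ i) (Finset.mem_univ k),
    ← Finset.mul_prod_erase Finset.univ (fun i => x i ^ (Function.update γ k (γ k - 1)) i)
      (Finset.mem_univ k)]
  have h1 : ∀ i ∈ Finset.univ.erase k, x i ^ (Function.update γ k (γ k - 1)) i = x i ^ γ i := by
    intro i hi
    rw [Function.update_of_ne (Finset.ne_of_mem_erase hi)]
  rw [Finset.prod_congr rfl h1, ← mul_assoc]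
  congr 1
  rw [Function.update_self, ← pow_succ']
  congr 1
  omega

private theorem M05_single (k : Fin n) (x : Fin n → ℝ) :
    ∏ i, x i ^ (Pi.single k 1 : Fin n → ℕ) i = x k := by
  rw [← Finset.mul_prod_erase Finset.univ (fun i => x i ^ (Pi.single k 1 : Fin n → ℕ) i)
    (Finset.mem_univ k)]
  have h1 : ∀ i ∈ Finset.univ.erase k, x i ^ (Pi.single k 1 : Fin n → ℕ) i = 1 := by
    intro i hi
    rw [Pi.single_eq_of_ne (Finset.ne_of_mem_erase hi), pow_zero]
  rw [Finset.prod_congr rfl h1, Finset.prod_const_one, mul_one, Pi.single_eq_same, pow_one]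

private theorem M05_sum (γ : Fin n → ℕ) (k : Fin n) (hk : γ k ≠ 0) {N : ℕ}
    (h : ∑ i, γ i = N + 1) : ∑ i, (Function.update γ k (γ k - 1)) i = N := by
  rw [← Finset.add_sum_erase Finset.univ γ (Finset.mem_univ k)] at h
  rw [← Finset.add_sum_erase Finset.univ (Function.update γ k (γ k - 1)) (Finset.mem_univ k)]
  have h1 : ∀ i ∈ Finset.univ.erase k, (Function.update γ k (γ k - 1)) i = γ i := by
    intro i hi
    rw [Function.update_of_ne (Finset.ne_of_mem_erase hi)]
  rw [Finset.sum_congr rfl h1, Function.update_self]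
  have h2 : γ k - 1 + 1 = γ k := Nat.succ_pred_eq_of_ne_zero hk
  have h3 : γ k - 1 + 1 + ∑ i ∈ Finset.univ.erase k, γ i = N + 1 := by
    rw [h2]
    exact h
  linarith

/-- cancelling one coordinate -/
private theorem M05_strip {F G : (Fin n → ℝ) → ℝ} {γ : Fin n → ℕ} {k : Fin n} (hk : γ k ≠ 0)
    (hG : AnalyticAt ℝ G 0) (hF : Mon F γ)
    (h : ∀ᶠ x in 𝓝 (0 : Fin n → ℝ), F x = x k * G x) :
    Mon G (Function.update γ k (γ k - 1)) := by
  obtain ⟨ε, hε, hε0, he⟩ := hF
  have hmon : AnalyticAt ℝ (fun x : Fin n → ℝ =>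
      ∏ i, x i ^ (Function.update γ k (γ k - 1)) i) 0 :=
    (Mon.monomial (Function.update γ k (γ k - 1))).analytic
  have hc := mon_cancel hG (hmon.mul hε) (Pi.single k 1) (by
    filter_upwards [h, he] with x h1 h2
    rw [M05_single, ← h1, h2, M05_prod γ k hk, mul_assoc]
    rfl)
  exact ⟨ε, hε, hε0, hc⟩

private theorem M05_div {C : (Fin n → ℝ) → ℝ} {k : Fin n} (hC : AnalyticAt ℝ C 0)
    (h : ∀ᶠ x in 𝓝 (0 : Fin n → ℝ), C (x - x k • Pi.single k 1) = 0) :
    ∃ C₁ : (Fin n → ℝ) → ℝ, AnalyticAt ℝ C₁ 0 ∧ ∀ᶠ x in 𝓝 (0 : Fin n → ℝ), C x = x k * C₁ x := by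
  obtain ⟨C₁, h1, h2⟩ := analytic_div C hC (ContinuousLinearMap.proj k : (Fin n → ℝ) →L[ℝ] ℝ)
    (Pi.single k 1) (by simp)
  refine ⟨C₁, h1, ?_⟩
  filter_upwards [h, h2] with x h3 h4
  simp only [ContinuousLinearMap.proj_apply, smul_eq_mul] at h4
  have h5 : C (x - x k • Pi.single k 1) = 0 := h3
  rw [h5, sub_zero] at h4
  exact h4

private theorem M05_aux (N : ℕ) : ∀ (A B : (Fin n → ℝ) → ℝ) (γ : Fin n → ℕ), ∑ i, γ i = N →
    AnalyticAt ℝ A 0 → AnalyticAt ℝ B 0 → Mon (fun x => A x * B x) γ → ∃ α, Mon A α := by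
  induction N with
  | zero =>
    intro A B γ hγ hA hB h
    have h0 : γ = fun _ => 0 := by
      funext i
      exact (Finset.sum_eq_zero_iff.1 hγ) i (Finset.mem_univ i)
    have h1 : A 0 * B 0 ≠ 0 := h.apply_zero_ne h0
    exact ⟨_, Mon.unit hA (left_ne_zero_of_mul h1)⟩
  | succ N ih =>
    intro A B γ hγ hA hB h
    have hk : ∃ k, γ k ≠ 0 := by
      by_contra hc
      push Not at hc
      rw [Finset.sum_eq_zero fun i _ => hc i] at hγ
      omega
    obtain ⟨k, hk⟩ := hk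
    have hπc : Continuous (fun x : Fin n → ℝ => x - x k • (Pi.single k 1 : Fin n → ℝ)) := by
      fun_prop
    have hπ0 : (0 : Fin n → ℝ) - (0 : Fin n → ℝ) k • (Pi.single k 1 : Fin n → ℝ) = 0 := by simp
    have hπa : AnalyticAt ℝ (fun x : Fin n → ℝ => x - x k • (Pi.single k 1 : Fin n → ℝ)) 0 := by
      have := (ContinuousLinearMap.id ℝ (Fin n → ℝ) -
        (ContinuousLinearMap.proj k : (Fin n → ℝ) →L[ℝ] ℝ).smulRight
          (Pi.single k 1 : Fin n → ℝ)).analyticAt (0 : Fin n → ℝ)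
      exact this
    have hπt : Tendsto (fun x : Fin n → ℝ => x - x k • (Pi.single k 1 : Fin n → ℝ)) (𝓝 0) (𝓝 0) := by
      have := hπc.tendsto 0
      rwa [hπ0] at this
    have hAπ : AnalyticAt ℝ (fun x : Fin n → ℝ => A (x - x k • (Pi.single k 1 : Fin n → ℝ))) 0 := by
      refine AnalyticAt.comp (g := A) ?_ hπa
      rw [hπ0]
      exact hA
    have hBπ : AnalyticAt ℝ (fun x : Fin n → ℝ => B (x - x k • (Pi.single k 1 : Fin n → ℝ))) 0 := by
      refine AnalyticAt.comp (g := B) ?_ hπa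
      rw [hπ0]
      exact hB
    have hz : ∀ᶠ x in 𝓝 (0 : Fin n → ℝ), A (x - x k • (Pi.single k 1 : Fin n → ℝ)) *
        B (x - x k • (Pi.single k 1 : Fin n → ℝ)) = 0 := by
      obtain ⟨ε, hε, hε0, he⟩ := h
      filter_upwards [hπt.eventually he] with x hx
      rw [hx, Finset.prod_eq_zero (Finset.mem_univ k) ?_, zero_mul]
      have : (x - x k • (Pi.single k 1 : Fin n → ℝ)) k = 0 := by simp
      rw [this, zero_pow hk]
    rcases germ_domain hAπ hBπ hz with hz1 | hz1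
    · obtain ⟨A₁, hA₁, hA₁e⟩ := M05_div hA hz1
      have h1 : Mon (fun x => A₁ x * B x) (Function.update γ k (γ k - 1)) := by
        refine M05_strip hk (hA₁.mul hB) h ?_
        filter_upwards [hA₁e] with x hx
        rw [hx, mul_assoc]
      obtain ⟨α, hα⟩ := ih A₁ B _ (M05_sum γ k hk hγ) hA₁ hB h1
      refine ⟨_, Mon.congr ?_ ((Mon.coord k).mul hα)⟩
      filter_upwards [hA₁e] with x hx
      exact hx.symm
    · obtain ⟨B₁, hB₁, hB₁e⟩ := M05_div hB hz1
      have h1 : Mon (fun x => A x * B₁ x) (Function.update γ k (γ k - 1)) := by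
        refine M05_strip hk (hA.mul hB₁) h ?_
        filter_upwards [hB₁e] with x hx
        rw [hx]
        ring
      exact ih A B₁ _ (M05_sum γ k hk hγ) hA hB₁ h1

theorem Mon.factor {A B : (Fin n → ℝ) → ℝ} {γ : Fin n → ℕ} (hA : AnalyticAt ℝ A 0)
    (hB : AnalyticAt ℝ B 0) (h : Mon (fun x => A x * B x) γ) : ∃ α, Mon A α :=
  M05_aux _ A B γ rfl hA hB h

theorem Mon.factor_prod {ι : Type*} (s : Finset ι) {A : ι → (Fin n → ℝ) → ℝ} {γ : Fin n → ℕ}
    (hA : ∀ i ∈ s, AnalyticAt ℝ (A i) 0) (h : Mon (fun x => ∏ i ∈ s, A i x) γ) :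
    ∀ i ∈ s, ∃ α, Mon (A i) α := by
  classical
  intro i hi
  refine Mon.factor (B := fun x => ∏ j ∈ s.erase i, A j x) (γ := γ) (hA i hi) ?_ ?_
  · exact Finset.analyticAt_fun_prod _ fun j hj => hA j (Finset.mem_of_mem_erase hj)
  · refine Mon.congr (Eventually.of_forall fun x => ?_) h
    exact (Finset.mul_prod_erase s (fun j => A j x) hi).symm

/-- division of a monomial function by a monomial: if `x^δ * W` is monomial then so is `W` -/
theorem Mon.of_mul_monomial {W : (Fin n → ℝ) → ℝ} {δ γ : Fin n → ℕ} (hW : AnalyticAt ℝ W 0)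
    (h : Mon (fun x => (∏ i, x i ^ δ i) * W x) γ) : ∃ ω, Mon W ω :=
  Mon.factor hW (Mon.monomial δ).analytic
    (Mon.congr (Eventually.of_forall fun _ => mul_comm _ _) h)

end Pool.Agent.helper62.GF
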