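import Pool.Agent.helper62.GF.M01

/-!
# GF-M07: analytic implicit function theorem (one equation)

`Ψ x = Fin.cons (G x) (Fin.tail x)` is analytic at `0` with invertible derivative; its local inverse `Θ`
is analytic (`ContDiffAt ℝ ω` version of `ContDiffAt.to_localInverse`, or
`HasStrictFDerivAt.to_localInverse` + `AnalyticAt` results of `Mathlib.Analysis.Analytic.Inverse` /
`OpenPartialHomeomorph.analyticAt_symm`), and `τ y = Θ (Fin.cons 0 y) 0`.
(Here: `ContDiffAt.implicitFunction` with the smoothness exponent `ω`.)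
-/

open Filter Topology
open scoped ContDiff

namespace Pool.Agent.helper62.GF

variable {n : ℕ}

/-- `(y, t) ↦ Fin.cons t y` as a continuous linear map -/
private noncomputable def consL (n : ℕ) : ((Fin n → ℝ) × ℝ) →L[ℝ] (Fin (n + 1) → ℝ) :=
  ContinuousLinearMap.pi (Fin.cases (ContinuousLinearMap.snd ℝ (Fin n → ℝ) ℝ)
    (fun i => (ContinuousLinearMap.proj i).comp (ContinuousLinearMap.fst ℝ (Fin n → ℝ) ℝ)))

private theorem consL_apply (y : Fin n → ℝ) (t : ℝ) :
    consL n (y, t) = (Fin.cons t y : Fin (n + 1) → ℝ) := by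
  ext i
  refine Fin.cases ?_ (fun i => ?_) i
  · simp [consL]
  · simp [consL]

theorem analytic_ift (G : (Fin (n + 1) → ℝ) → ℝ) (hG : AnalyticAt ℝ G 0) (hG0 : G 0 = 0)
    (hD : fderiv ℝ G 0 (Pi.single 0 1) ≠ 0) :
    ∃ τ : (Fin n → ℝ) → ℝ, AnalyticAt ℝ τ 0 ∧ τ 0 = 0 ∧
      ∀ᶠ y in 𝓝 (0 : Fin n → ℝ), G (Fin.cons (τ y) y) = 0 := by
  set f : (Fin n → ℝ) × ℝ → ℝ := fun p => G (consL n p) with hf
  have hL0 : consL n ((0, 0) : (Fin n → ℝ) × ℝ) = 0 := by
    have : ((0, 0) : (Fin n → ℝ) × ℝ) = 0 := rfl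
    rw [this, map_zero]
  have hG' : AnalyticAt ℝ G (consL n ((0, 0) : (Fin n → ℝ) × ℝ)) := by rw [hL0]; exact hG
  have hfa : AnalyticAt ℝ f ((0, 0) : (Fin n → ℝ) × ℝ) :=
    hG'.comp ((consL n).analyticAt _)
  have cdf : ContDiffAt ℝ ω f ((0, 0) : (Fin n → ℝ) × ℝ) := hfa.contDiffAt
  have hfd : fderiv ℝ f ((0, 0) : (Fin n → ℝ) × ℝ) = (fderiv ℝ G 0).comp (consL n) := by
    have h1 : HasFDerivAt G (fderiv ℝ G 0) (consL n ((0, 0) : (Fin n → ℝ) × ℝ)) := by
      rw [hL0]; exact hG.differentiableAt.hasFDerivAt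
    exact (h1.comp _ (consL n).hasFDerivAt).fderiv
  set D : ℝ →L[ℝ] ℝ := fderiv ℝ f ((0, 0) : (Fin n → ℝ) × ℝ) ∘L .inr ℝ (Fin n → ℝ) ℝ with hDdef
  have hD1 : D 1 = fderiv ℝ G 0 (Pi.single 0 1) := by
    rw [hDdef, hfd]
    simp only [ContinuousLinearMap.comp_apply, ContinuousLinearMap.inr_apply]
    rw [consL_apply]
    congr 1
    ext i
    refine Fin.cases ?_ (fun i => ?_) i
    · simp
    · simp
  have hDne : D 1 ≠ 0 := by rw [hD1]; exact hD
  have hDx : ∀ x : ℝ, D x = x * D 1 := by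
    intro x
    have : D x = D (x • (1 : ℝ)) := by simp
    rw [this, map_smul, smul_eq_mul]
  have hinv : D.IsInvertible := by
    refine ⟨ContinuousLinearEquiv.equivOfInverse D ((D 1)⁻¹ • ContinuousLinearMap.id ℝ ℝ) ?_ ?_, ?_⟩
    · intro x
      simp only [_root_.smul_apply, ContinuousLinearMap.id_apply, smul_eq_mul]
      rw [hDx x, mul_comm x, ← mul_assoc, inv_mul_cancel₀ hDne, one_mul]
    · intro x
      rw [hDx]
      simp only [_root_.smul_apply, ContinuousLinearMap.id_apply, smul_eq_mul]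
      rw [mul_comm _ x, mul_assoc, inv_mul_cancel₀ hDne, mul_one]
    · ext; rfl
  refine ⟨cdf.implicitFunction (by simp) hinv, ?_, ?_, ?_⟩
  · exact (cdf.contDiffAt_implicitFunction (by simp) hinv).analyticAt
  · exact cdf.implicitFunction_apply_self (by simp) hinv
  · have h := cdf.eventually_apply_implicitFunction (by simp) hinv
    filter_upwards [h] with y hy
    rw [← consL_apply]
    have h2 : f ((0, 0) : (Fin n → ℝ) × ℝ) = 0 := by
      simp only [hf]; rw [hL0, hG0]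
    rw [h2] at hy
    exact hy

end Pool.Agent.helper62.GF
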