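import Pool.Agent.helper62.GF.M04
import Pool.Agent.helper62.GF.M07

/-!
# GF-M08: Tschirnhausen shear

Proof used here (no iterated derivatives).  Put `F X = Q (cons (X 0 + X 1) (tail (tail X)))` on
`Fin (n + 2) → ℝ` and expand it in the first variable (`taylor_first`, length `d + 1`):
`F X = ∑_{i ≤ d} C_i (tail X) (X 0)^i + (X 0)^(d+1) V X`.  By `order_taylor` `C_i 0 = 0`, `V 0 ≠ 0`.
As `F` depends on `X 0 + X 1` only, differentiating in `X 1 = r` at `r = 0` on the axis gives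
`(d+1) t^d v t + t^(d+1) v' t = ∑_{i ≤ d} C_i' t^i + t^(d+1) W t`, `v t = V (t, 0, 0)`,
`C_i' = ∂_0 C_i 0`, and `order_taylor` gives `C_d' ≠ 0`.  `analytic_ift` for `C_d` gives `τ` with
`C_d (cons (τ y) y) = 0`, and `Q (cons (x 0 + τ (tail x)) (tail x)) = F (cons (x 0) (cons (τ (tail x)) (tail x)))`.
-/

open Filter Topology

namespace Pool.Agent.helper62.GF

variable {n : ℕ}

private theorem cons_zero_zero : (Fin.cons (0 : ℝ) (0 : Fin n → ℝ) : Fin (n + 1) → ℝ) = 0 := by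
  funext i
  refine Fin.cases ?_ (fun j => ?_) i <;> simp

private theorem acomp {E F G : Type*} [NormedAddCommGroup E] [NormedSpace ℝ E] [NormedAddCommGroup F]
    [NormedSpace ℝ F] [NormedAddCommGroup G] [NormedSpace ℝ G] {g : F → G} {f : E → F} {x : E} {y : F}
    (hg : AnalyticAt ℝ g y) (hy : f x = y) (hf : AnalyticAt ℝ f x) :
    AnalyticAt ℝ (fun z => g (f z)) x := by
  subst hy
  exact hg.fun_comp hf

/-- The key nondegeneracy: the derivative of the last coefficient in the first direction. -/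
private theorem M08_deriv_ne (d : ℕ) (F : (Fin (n + 2) → ℝ) → ℝ)
    (hinv : ∀ t r : ℝ, F (Fin.cons (t + r) (0 : Fin (n + 1) → ℝ)) =
      F (Fin.cons t (Fin.cons r (0 : Fin n → ℝ))))
    (C : ℕ → (Fin (n + 1) → ℝ) → ℝ) (V : (Fin (n + 2) → ℝ) → ℝ)
    (hC : ∀ i, AnalyticAt ℝ (C i) 0) (hV : AnalyticAt ℝ V 0)
    (hC0 : ∀ i < d + 1, C i 0 = 0) (hV0 : V 0 ≠ 0)
    (h : ∀ᶠ X in 𝓝 (0 : Fin (n + 2) → ℝ),
      F X = (∑ i ∈ Finset.range (d + 1), C i (Fin.tail X) * X 0 ^ i) + X 0 ^ (d + 1) * V X) :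
    fderiv ℝ (C d) 0 (Pi.single 0 1) ≠ 0 := by
  classical
  -- the axis
  set v : ℝ → ℝ := fun t => V (Fin.cons t (0 : Fin (n + 1) → ℝ)) with hv
  have haxis : AnalyticAt ℝ (fun t : ℝ => (Fin.cons t (0 : Fin (n + 1) → ℝ) : Fin (n + 2) → ℝ)) 0 :=
    AnalyticAt.finCons analyticAt_id analyticAt_const
  have hV' : AnalyticAt ℝ V (Fin.cons (0 : ℝ) (0 : Fin (n + 1) → ℝ) : Fin (n + 2) → ℝ) := by
    rw [cons_zero_zero]; exact hV
  have hvan : AnalyticAt ℝ v 0 := acomp hV' rfl haxis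
  -- partial derivative of V in the second coordinate along the axis
  set W : ℝ → ℝ := fun t => fderiv ℝ V (Fin.cons t (0 : Fin (n + 1) → ℝ)) (Pi.single 1 1) with hW
  have hWan : AnalyticAt ℝ W 0 := by
    have h1 : AnalyticAt ℝ (fderiv ℝ V) (Fin.cons (0 : ℝ) (0 : Fin (n + 1) → ℝ) : Fin (n + 2) → ℝ) :=
      hV'.fderiv
    have h2 : AnalyticAt ℝ (fun t : ℝ => fderiv ℝ V (Fin.cons t (0 : Fin (n + 1) → ℝ))) 0 :=
      acomp h1 rfl haxis
    exact acomp (g := fun L : (Fin (n + 2) → ℝ) →L[ℝ] ℝ => L (Pi.single 1 1))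
      (((ContinuousLinearMap.apply ℝ ℝ (Pi.single (1 : Fin (n + 2)) (1 : ℝ) : Fin (n + 2) → ℝ))).analyticAt _) rfl h2
  set a : ℕ → ℝ := fun i => fderiv ℝ (C i) 0 (Pi.single 0 1) with ha
  -- derivative of `r ↦ C i (cons r 0)` at `0`
  have hline : ∀ (m : ℕ) (r : ℝ), HasDerivAt (fun r : ℝ => (Fin.cons r (0 : Fin m → ℝ) : Fin (m + 1) → ℝ))
      (Pi.single 0 1) r := by
    intro m r
    rw [hasDerivAt_pi]
    intro i
    refine Fin.cases ?_ (fun j => ?_) i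
    · simpa using hasDerivAt_id' r
    · simpa using hasDerivAt_const r (0 : ℝ)
  have hCd : ∀ i, HasDerivAt (fun r : ℝ => C i (Fin.cons r (0 : Fin n → ℝ))) (a i) 0 := by
    intro i
    have h1 : HasFDerivAt (C i) (fderiv ℝ (C i) 0) (Fin.cons (0 : ℝ) (0 : Fin n → ℝ) : Fin (n + 1) → ℝ) := by
      rw [cons_zero_zero]
      exact (hC i).differentiableAt.hasFDerivAt
    exact h1.comp_hasDerivAt (0 : ℝ) (hline n 0)
  -- derivative of `r ↦ V (cons t (cons r 0))` at `0` for small t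
  have hVnear : ∀ᶠ t in 𝓝 (0 : ℝ), DifferentiableAt ℝ V (Fin.cons t (0 : Fin (n + 1) → ℝ) : Fin (n + 2) → ℝ) := by
    have h1 : ∀ᶠ X in 𝓝 (Fin.cons (0 : ℝ) (0 : Fin (n + 1) → ℝ) : Fin (n + 2) → ℝ), AnalyticAt ℝ V X :=
      hV'.eventually_analyticAt
    have h2 := haxis.continuousAt.eventually h1
    filter_upwards [h2] with t ht
    exact ht.differentiableAt
  have hline2 : ∀ t : ℝ, HasDerivAt (fun r : ℝ => (Fin.cons t (Fin.cons r (0 : Fin n → ℝ) : Fin (n + 1) → ℝ) : Fin (n + 2) → ℝ))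
      (Pi.single 1 1) 0 := by
    intro t
    rw [hasDerivAt_pi]
    intro i
    refine Fin.cases ?_ (fun j => ?_) i
    · simpa using hasDerivAt_const (0 : ℝ) t
    · refine Fin.cases ?_ (fun l => ?_) j
      · simpa using hasDerivAt_id' (0 : ℝ)
      · have : (Pi.single (1 : Fin (n + 2)) (1 : ℝ) : Fin (n + 2) → ℝ) l.succ.succ = 0 := by
          rw [Pi.single_eq_of_ne]
          intro h
          have := congrArg Fin.val h
          simp at this
        rw [this]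
        simpa using hasDerivAt_const (0 : ℝ) (0 : ℝ)
  have hVd : ∀ᶠ t in 𝓝 (0 : ℝ), HasDerivAt (fun r : ℝ => V (Fin.cons t (Fin.cons r (0 : Fin n → ℝ) : Fin (n + 1) → ℝ))) (W t) 0 := by
    filter_upwards [hVnear] with t ht
    have h1 : HasFDerivAt V (fderiv ℝ V (Fin.cons t (0 : Fin (n + 1) → ℝ)))
        (Fin.cons t (Fin.cons (0 : ℝ) (0 : Fin n → ℝ) : Fin (n + 1) → ℝ) : Fin (n + 2) → ℝ) := by
      rw [cons_zero_zero]
      exact ht.hasFDerivAt
    exact h1.comp_hasDerivAt (0 : ℝ) (hline2 t)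
  have hvd : ∀ᶠ t in 𝓝 (0 : ℝ), HasDerivAt v (deriv v t) t := by
    filter_upwards [hvan.eventually_analyticAt] with t ht
    exact ht.differentiableAt.hasDerivAt
  -- the expansion on the plane
  have hplane : ∀ᶠ t in 𝓝 (0 : ℝ), ∀ᶠ r in 𝓝 (0 : ℝ),
      (t + r) ^ (d + 1) * v (t + r) =
        (∑ i ∈ Finset.range (d + 1), C i (Fin.cons r (0 : Fin n → ℝ)) * t ^ i) +
          t ^ (d + 1) * V (Fin.cons t (Fin.cons r (0 : Fin n → ℝ) : Fin (n + 1) → ℝ)) := by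
    have e1 : Tendsto (fun p : ℝ × ℝ => (Fin.cons (p.1 + p.2) (0 : Fin (n + 1) → ℝ) : Fin (n + 2) → ℝ))
        (𝓝 0) (𝓝 0) := by
      apply tendsto_finCons
      · have : Tendsto (fun p : ℝ × ℝ => p.1 + p.2) (𝓝 (0 : ℝ × ℝ)) (𝓝 (0 + 0)) :=
          (continuous_fst.add continuous_snd).tendsto' _ _ (by simp)
        simpa using this
      · exact tendsto_const_nhds
    have e2 : Tendsto (fun p : ℝ × ℝ => (Fin.cons p.1 (Fin.cons p.2 (0 : Fin n → ℝ) : Fin (n + 1) → ℝ) : Fin (n + 2) → ℝ))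
        (𝓝 0) (𝓝 0) := by
      apply tendsto_finCons
      · exact continuous_fst.tendsto' _ _ rfl
      · apply tendsto_finCons
        · exact continuous_snd.tendsto' _ _ rfl
        · exact tendsto_const_nhds
    have h3 : ∀ᶠ p in 𝓝 (0 : ℝ × ℝ),
      (p.1 + p.2) ^ (d + 1) * v (p.1 + p.2) =
        (∑ i ∈ Finset.range (d + 1), C i (Fin.cons p.2 (0 : Fin n → ℝ)) * p.1 ^ i) +
          p.1 ^ (d + 1) * V (Fin.cons p.1 (Fin.cons p.2 (0 : Fin n → ℝ) : Fin (n + 1) → ℝ)) := by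
      filter_upwards [e1.eventually h, e2.eventually h] with p h1 h2
      have h4 := hinv p.1 p.2
      rw [h1, h2] at h4
      simp only [Fin.tail_cons, Fin.cons_zero] at h4
      rw [Finset.sum_eq_zero (s := Finset.range (d + 1)) (f := fun i => C i 0 * (p.1 + p.2) ^ i)
        (fun i hi => by rw [hC0 i (Finset.mem_range.mp hi), zero_mul])] at h4
      rw [zero_add] at h4
      exact h4
    have h5 : (𝓝 (0 : ℝ × ℝ)) = 𝓝 (0 : ℝ) ×ˢ 𝓝 (0 : ℝ) := nhds_prod_eq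
    rw [h5] at h3
    exact h3.curry
  -- differentiate
  have hkey : ∀ᶠ t in 𝓝 (0 : ℝ),
      ((d + 1 : ℕ) : ℝ) * t ^ d * v t + t ^ (d + 1) * deriv v t =
        (∑ i ∈ Finset.range (d + 1), a i * t ^ i) + t ^ (d + 1) * W t := by
    filter_upwards [hplane, hVd, hvd] with t h1 h2 h3
    have hL : HasDerivAt (fun r : ℝ => (t + r) ^ (d + 1) * v (t + r))
        (((d + 1 : ℕ) : ℝ) * t ^ d * v t + t ^ (d + 1) * deriv v t) 0 := by
      have hadd : HasDerivAt (fun r : ℝ => t + r) 1 0 := by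
        exact (hasDerivAt_id' (0 : ℝ)).const_add t
      have hp : HasDerivAt (fun r : ℝ => (t + r) ^ (d + 1)) (((d + 1 : ℕ) : ℝ) * (t + 0) ^ d * 1) 0 := by
        have := hadd.fun_pow (d + 1)
        simpa using this
      have h3' : HasDerivAt v (deriv v t) (t + 0) := by simpa using h3
      have hq : HasDerivAt (fun r : ℝ => v (t + r)) (deriv v t * 1) 0 :=
        HasDerivAt.comp (h₂ := v) (h := fun r : ℝ => t + r) 0 h3' hadd
      have := hp.fun_mul hq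
      simpa using this
    have hR : HasDerivAt (fun r : ℝ => (∑ i ∈ Finset.range (d + 1), C i (Fin.cons r (0 : Fin n → ℝ)) * t ^ i) +
          t ^ (d + 1) * V (Fin.cons t (Fin.cons r (0 : Fin n → ℝ) : Fin (n + 1) → ℝ)))
        ((∑ i ∈ Finset.range (d + 1), a i * t ^ i) + t ^ (d + 1) * W t) 0 := by
      apply HasDerivAt.add
      · exact HasDerivAt.fun_sum (fun i _ => (hCd i).mul_const (t ^ i))
      · exact h2.const_mul (t ^ (d + 1))
    have hL' := hL.congr_of_eventuallyEq (f₁ := fun r : ℝ => (∑ i ∈ Finset.range (d + 1), C i (Fin.cons r (0 : Fin n → ℝ)) * t ^ i) +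
          t ^ (d + 1) * V (Fin.cons t (Fin.cons r (0 : Fin n → ℝ) : Fin (n + 1) → ℝ))) (by
      filter_upwards [h1] with r hr
      exact hr.symm)
    exact hL'.unique hR
  -- use `order_taylor` in dimension `0 + 1`
  set B : ℝ → ℝ := fun t => ((d + 1 : ℕ) : ℝ) * t ^ d * v t + t ^ (d + 1) * deriv v t with hB
  have hordB : analyticOrderAt B 0 = (d : ℕ∞) := by
    have hg : AnalyticAt ℝ (fun t => ((d + 1 : ℕ) : ℝ) * v t + t * deriv v t) 0 :=
      (analyticAt_const.mul hvan).add (analyticAt_id.mul hvan.deriv)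
    have hBan : AnalyticAt ℝ B 0 :=
      ((analyticAt_const.mul (analyticAt_id.pow d)).mul hvan).add ((analyticAt_id.pow (d + 1)).mul hvan.deriv)
    rw [hBan.analyticOrderAt_eq_natCast]
    refine ⟨_, hg, ?_, ?_⟩
    · have : v 0 = V 0 := by
        simp only [hv]
        rw [cons_zero_zero]
      simp only [zero_mul, add_zero, this]
      exact mul_ne_zero (by positivity) hV0
    · refine Eventually.of_forall (fun t => ?_)
      simp only [hB, sub_zero, smul_eq_mul]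
      ring
  have hres := order_taylor (n := 0) (fun x : Fin (0 + 1) → ℝ => B (x 0)) d (fun i _ => a i)
    (fun x => a d + x 0 * W (x 0)) ?_ ?_ ?_
  · simpa using hres.2
  · have h0 : AnalyticAt ℝ (fun x : Fin (0 + 1) → ℝ => x 0) 0 :=
      (ContinuousLinearMap.proj (R := ℝ) (φ := fun _ : Fin (0 + 1) => ℝ) 0).analyticAt 0
    exact analyticAt_const.add (h0.mul (acomp hWan rfl h0))
  · have hc : Tendsto (fun x : Fin (0 + 1) → ℝ => x 0) (𝓝 0) (𝓝 0) :=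
      (continuous_apply 0).tendsto' _ _ rfl
    filter_upwards [hc.eventually hkey] with x hx
    simp only [hB]
    rw [hx, Finset.sum_range_succ]
    ring
  · simpa using hordB

theorem shear (d : ℕ) (Q : (Fin (n + 1) → ℝ) → ℝ) (hQ : AnalyticAt ℝ Q 0)
    (hord : analyticOrderAt (fun t : ℝ => Q (Fin.cons t (0 : Fin n → ℝ))) 0 = ((d + 1 : ℕ) : ℕ∞)) :
    ∃ (τ : (Fin n → ℝ) → ℝ) (c : ℕ → (Fin n → ℝ) → ℝ) (U : (Fin (n + 1) → ℝ) → ℝ),
      AnalyticAt ℝ τ 0 ∧ τ 0 = 0 ∧ (∀ i, AnalyticAt ℝ (c i) 0) ∧ AnalyticAt ℝ U 0 ∧ U 0 ≠ 0 ∧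
      ∀ᶠ x in 𝓝 (0 : Fin (n + 1) → ℝ),
        Q (Fin.cons (x 0 + τ (Fin.tail x)) (Fin.tail x)) =
          (∑ i ∈ Finset.range d, c i (Fin.tail x) * x 0 ^ i) + x 0 ^ (d + 1) * U x := by
  classical
  set F : (Fin (n + 2) → ℝ) → ℝ := fun X =>
    Q (Fin.cons (X 0 + Fin.tail X 0) (Fin.tail (Fin.tail X) : Fin n → ℝ)) with hF
  have hp0 : AnalyticAt ℝ (fun X : Fin (n + 2) → ℝ => X 0) 0 :=
    (ContinuousLinearMap.proj (R := ℝ) (φ := fun _ : Fin (n + 2) => ℝ) 0).analyticAt 0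
  have hp1 : AnalyticAt ℝ (fun X : Fin (n + 2) → ℝ => (Fin.tail X : Fin (n + 1) → ℝ) 0) 0 :=
    (ContinuousLinearMap.proj (R := ℝ) (φ := fun _ : Fin (n + 2) => ℝ) (Fin.succ 0)).analyticAt 0
  have htt : AnalyticAt ℝ (fun X : Fin (n + 2) → ℝ => (Fin.tail (Fin.tail X : Fin (n + 1) → ℝ) : Fin n → ℝ)) 0 :=
    acomp (g := fun Y : Fin (n + 1) → ℝ => (Fin.tail Y : Fin n → ℝ))
      (f := fun X : Fin (n + 2) → ℝ => (Fin.tail X : Fin (n + 1) → ℝ)) (analyticAt_tail _) rfl (analyticAt_tail _)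
  have hmap : AnalyticAt ℝ (fun X : Fin (n + 2) → ℝ =>
      (Fin.cons (X 0 + (Fin.tail X : Fin (n + 1) → ℝ) 0) (Fin.tail (Fin.tail X : Fin (n + 1) → ℝ) : Fin n → ℝ) : Fin (n + 1) → ℝ)) 0 :=
    AnalyticAt.finCons (hp0.add hp1) htt
  have hF0 : (fun X : Fin (n + 2) → ℝ =>
      (Fin.cons (X 0 + (Fin.tail X : Fin (n + 1) → ℝ) 0) (Fin.tail (Fin.tail X : Fin (n + 1) → ℝ) : Fin n → ℝ) : Fin (n + 1) → ℝ)) 0 = 0 := by
    funext i
    refine Fin.cases ?_ (fun j => ?_) i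
    · simp [Fin.tail]
    · simp [Fin.tail]
  have hFan : AnalyticAt ℝ F 0 := acomp hQ hF0 hmap
  have htail0 : ∀ m : ℕ, (Fin.tail (0 : Fin (m + 1) → ℝ) : Fin m → ℝ) = 0 := fun m => rfl
  have hordF : analyticOrderAt (fun t : ℝ => F (Fin.cons t (0 : Fin (n + 1) → ℝ))) 0 = ((d + 1 : ℕ) : ℕ∞) := by
    have : (fun t : ℝ => F (Fin.cons t (0 : Fin (n + 1) → ℝ))) = fun t : ℝ => Q (Fin.cons t (0 : Fin n → ℝ)) := by
      funext t
      simp only [hF, Fin.cons_zero, Fin.tail_cons, Pi.zero_apply, add_zero]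
      rw [htail0]
    rw [this]; exact hord
  obtain ⟨C, V, hC, hV, hexp⟩ := taylor_first F hFan (d + 1)
  obtain ⟨hC0, hV0⟩ := order_taylor F (d + 1) C V hV hexp hordF
  have hinv : ∀ t r : ℝ, F (Fin.cons (t + r) (0 : Fin (n + 1) → ℝ)) =
      F (Fin.cons t (Fin.cons r (0 : Fin n → ℝ))) := by
    intro t r
    simp only [hF, Fin.cons_zero, Fin.tail_cons, Pi.zero_apply, add_zero]
    rw [htail0]
  have hD := M08_deriv_ne d F hinv C V hC hV hC0 hV0 hexp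
  obtain ⟨τ, hτ, hτ0, hτz⟩ := analytic_ift (C d) (hC d) (hC0 d (Nat.lt_succ_self d)) hD
  have hpair : AnalyticAt ℝ (fun y : Fin n → ℝ => (Fin.cons (τ y) y : Fin (n + 1) → ℝ)) 0 :=
    AnalyticAt.finCons hτ analyticAt_id
  have hpair0 : (fun y : Fin n → ℝ => (Fin.cons (τ y) y : Fin (n + 1) → ℝ)) 0 = 0 := by
    simp only [hτ0]
    exact cons_zero_zero
  have hx0 : AnalyticAt ℝ (fun x : Fin (n + 1) → ℝ => x 0) 0 :=
    (ContinuousLinearMap.proj (R := ℝ) (φ := fun _ : Fin (n + 1) => ℝ) 0).analyticAt 0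
  have hpt : AnalyticAt ℝ (fun x : Fin (n + 1) → ℝ => (Fin.cons (τ (Fin.tail x)) (Fin.tail x) : Fin (n + 1) → ℝ)) 0 := by
    exact acomp hpair rfl (analyticAt_tail _)
  have hlift : AnalyticAt ℝ (fun x : Fin (n + 1) → ℝ =>
      (Fin.cons (x 0) (Fin.cons (τ (Fin.tail x)) (Fin.tail x) : Fin (n + 1) → ℝ) : Fin (n + 2) → ℝ)) 0 :=
    AnalyticAt.finCons hx0 hpt
  have hlift0 : (fun x : Fin (n + 1) → ℝ =>
      (Fin.cons (x 0) (Fin.cons (τ (Fin.tail x)) (Fin.tail x) : Fin (n + 1) → ℝ) : Fin (n + 2) → ℝ)) 0 = 0 := by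
    show (Fin.cons (0 : ℝ) (Fin.cons (τ (0 : Fin n → ℝ)) (0 : Fin n → ℝ) : Fin (n + 1) → ℝ) : Fin (n + 2) → ℝ) = 0
    rw [hτ0, cons_zero_zero, cons_zero_zero]
  refine ⟨τ, fun i y => C i (Fin.cons (τ y) y),
    fun x => V (Fin.cons (x 0) (Fin.cons (τ (Fin.tail x)) (Fin.tail x) : Fin (n + 1) → ℝ)),
    hτ, hτ0, ?_, ?_, ?_, ?_⟩
  · intro i
    exact acomp (hC i) hpair0 hpair
  · exact acomp hV hlift0 hlift
  · show V ((fun x : Fin (n + 1) → ℝ =>
      (Fin.cons (x 0) (Fin.cons (τ (Fin.tail x)) (Fin.tail x) : Fin (n + 1) → ℝ) : Fin (n + 2) → ℝ)) 0) ≠ 0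
    rw [hlift0]; exact hV0
  · have hcont : Tendsto (fun x : Fin (n + 1) → ℝ =>
      (Fin.cons (x 0) (Fin.cons (τ (Fin.tail x)) (Fin.tail x) : Fin (n + 1) → ℝ) : Fin (n + 2) → ℝ)) (𝓝 0) (𝓝 0) := by
      have h1 : Tendsto (fun x : Fin (n + 1) → ℝ =>
        (Fin.cons (x 0) (Fin.cons (τ (Fin.tail x)) (Fin.tail x) : Fin (n + 1) → ℝ) : Fin (n + 2) → ℝ)) (𝓝 0)
          (𝓝 ((fun x : Fin (n + 1) → ℝ =>
        (Fin.cons (x 0) (Fin.cons (τ (Fin.tail x)) (Fin.tail x) : Fin (n + 1) → ℝ) : Fin (n + 2) → ℝ)) 0)) :=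
        hlift.continuousAt.tendsto
      rwa [hlift0] at h1
    have htl : Tendsto (fun x : Fin (n + 1) → ℝ => (Fin.tail x : Fin n → ℝ)) (𝓝 0) (𝓝 0) :=
      continuous_tail.tendsto' _ _ rfl
    filter_upwards [hcont.eventually hexp, htl.eventually hτz] with x h1 h2
    simp only [hF, Fin.cons_zero, Fin.tail_cons] at h1
    rw [h1, Finset.sum_range_succ, h2]
    ring

end Pool.Agent.helper62.GF
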