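import Pool.Agent.helper62.GF.M01

/-! # GF: the prepared functions (definition only) -/

open Filter Topology

namespace Pool.Agent.helper62.GF

/-- prepared form: `a(v) * (∑_{i<d} v^{(d+1-i)β} c_i(v) t^i + t^{d+1} U(t,v))` -/
noncomputable def Tfun (n d : ℕ) (a : (Fin n → ℝ) → ℝ) (β : Fin n → ℕ) (c : ℕ → (Fin n → ℝ) → ℝ)
    (U : (Fin (n + 1) → ℝ) → ℝ) : (Fin (n + 1) → ℝ) → ℝ := fun x =>
  a (Fin.tail x) *
    ((∑ i ∈ Finset.range d, (∏ k, (Fin.tail x : Fin n → ℝ) k ^ ((d + 1 - i) * β k)) *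
        c i (Fin.tail x) * x 0 ^ i) + x 0 ^ (d + 1) * U x)

end Pool.Agent.helper62.GF
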