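import Pool.Agent.helper62.GF.M04
import Pool.Agent.helper62.GF.TDef

/-!
# GF-M11: first chart `t = v_k * t'`

`ultra_ratio`: `u / w ∈ [-C, C]` along `𝒰` (`Lean`: `u / 0 = 0`), compactness of `Icc (-C) C`
(`IsCompact.ultrafilter_le_nhds` for `𝒰.map (u / w)`).

`chartI_id`: pure algebra: `v_k^{(d+1-i) β_k} v_k^i = v_k^{d+1} v_k^{(d+1-i)(β_k - 1)}`.

`chartI`: `ultra_ratio` with `u x = x 0`, `w x = tail x k` gives `L = t₀`.  Put
`φ x = cons (tail x k * (t₀ + x 0)) (tail x)`, `s x = cons (x 0 / tail x k - t₀) (tail x)`; `φ (s x) = x` along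
`𝒰`; conclude with `Res.comp`.
If `t₀ = 0`: `Tfun … ∘ φ` is by `chartI_id` the function `Tfun a' β' c U'` with `a' v = a v * v k ^ (d+1)`,
`β' = β - e_k`, `U' x = U (cons (tail x k * x 0) (tail x))`, `U' 0 = U 0`: use `IH`.
If `t₀ ≠ 0`: `Tfun … ∘ φ = a'(tail x) * Q' x` with
`Q' x = (∑ …(∏ (tail x) k ^ ((d+1-i) β' k)) c_i (tail x) (t₀ + x 0)^i) + (t₀ + x 0)^(d+1) U (φ x)`, and on the
axis `Q' (cons t 0) = ∑_{i<d} c̃_i (t₀ + t)^i + (t₀ + t)^(d+1) U 0` with constants `c̃_i`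
(`φ (cons t 0) = 0`): order `≤ d` by `order_le_of_tschirnhaus`; use `hS`.
-/

open Filter Topology Set

namespace Pool.Agent.helper62.GF

theorem ultra_ratio {X : Type*} (𝒰 : Ultrafilter X) (u w : X → ℝ) (C : ℝ) (hC : 0 ≤ C)
    (h : ∀ᶠ x in (𝒰 : Filter X), |u x| ≤ C * |w x|) :
    ∃ L : ℝ, |L| ≤ C ∧ Tendsto (fun x => u x / w x) 𝒰 (𝓝 L) ∧
      ∀ᶠ x in (𝒰 : Filter X), w x * (u x / w x) = u x := by
  have hr : ∀ᶠ x in (𝒰 : Filter X), u x / w x ∈ Icc (-C) C := by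
    filter_upwards [h] with x hx
    rw [mem_Icc, ← abs_le, abs_div]
    rcases eq_or_ne (w x) 0 with h0 | h0
    · rw [h0, abs_zero, div_zero]
      exact hC
    · exact (div_le_iff₀ (abs_pos.2 h0)).2 hx
  obtain ⟨L, hL, hLt⟩ := (isCompact_Icc (a := -C) (b := C)).ultrafilter_le_nhds
    (𝒰.map fun x => u x / w x) (by
      rw [le_principal_iff]
      exact hr)
  refine ⟨L, abs_le.2 hL, hLt, ?_⟩
  filter_upwards [h] with x hx
  rcases eq_or_ne (w x) 0 with h0 | h0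
  · rw [h0, abs_zero, mul_zero] at hx
    rw [h0, zero_mul, abs_nonpos_iff.1 hx]
  · exact mul_div_cancel₀ _ h0

theorem chartI_id (n d : ℕ) (a : (Fin n → ℝ) → ℝ) (β : Fin n → ℕ) (c : ℕ → (Fin n → ℝ) → ℝ)
    (U : (Fin (n + 1) → ℝ) → ℝ) (k : Fin n) (hβ : 1 ≤ β k) (t : ℝ) (v : Fin n → ℝ) :
    Tfun n d a β c U (Fin.cons (v k * t) v) =
      (a v * v k ^ (d + 1)) *
        ((∑ i ∈ Finset.range d, (∏ l, v l ^ ((d + 1 - i) * (β - Pi.single k 1 : Fin n → ℕ) l)) * c i v * t ^ i) +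
          t ^ (d + 1) * U (Fin.cons (v k * t) v)) := by
  have key : ∀ i ∈ Finset.range d, (∏ l, v l ^ ((d + 1 - i) * β l)) * v k ^ i =
      v k ^ (d + 1) * ∏ l, v l ^ ((d + 1 - i) * (β - Pi.single k 1 : Fin n → ℕ) l) := by
    intro i hi
    have hid : i ≤ d + 1 := by
      have := Finset.mem_range.1 hi
      omega
    have h1 : ∀ l, v l ^ ((d + 1 - i) * β l) =
        v l ^ ((d + 1 - i) * (β - Pi.single k 1 : Fin n → ℕ) l) *
          v l ^ ((d + 1 - i) * (Pi.single k 1 : Fin n → ℕ) l) := by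
      intro l
      rw [← pow_add, ← mul_add]
      congr 2
      rw [Pi.sub_apply]
      rcases eq_or_ne l k with rfl | hlk
      · rw [Pi.single_eq_same]
        omega
      · rw [Pi.single_eq_of_ne hlk]
        omega
    have h2 : (∏ l, v l ^ ((d + 1 - i) * (Pi.single k 1 : Fin n → ℕ) l)) = v k ^ (d + 1 - i) := by
      rw [Finset.prod_eq_single k]
      · rw [Pi.single_eq_same, mul_one]
      · intro l _ hlk
        rw [Pi.single_eq_of_ne hlk, mul_zero, pow_zero]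
      · intro hk
        exact absurd (Finset.mem_univ k) hk
    rw [Finset.prod_congr rfl fun l _ => h1 l, Finset.prod_mul_distrib, h2]
    have h3 : v k ^ (d + 1) = v k ^ (d + 1 - i) * v k ^ i := by
      rw [← pow_add]
      congr 1
      omega
    rw [h3]
    ring
  simp only [Tfun, Fin.tail_cons, Fin.cons_zero]
  rw [mul_assoc]
  congr 1
  rw [mul_add, Finset.mul_sum]
  congr 1
  · refine Finset.sum_congr rfl fun i hi => ?_
    calc (∏ l, v l ^ ((d + 1 - i) * β l)) * c i v * (v k * t) ^ i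
        = ((∏ l, v l ^ ((d + 1 - i) * β l)) * v k ^ i) * c i v * t ^ i := by
          rw [mul_pow]; ring
      _ = _ := by rw [key i hi]; ring
  · rw [mul_pow]
    ring

theorem chartI (n d : ℕ) (hS : StepS n d) (a : (Fin n → ℝ) → ℝ) (μ : Fin n → ℕ) (ha : Mon a μ)
    (β : Fin n → ℕ) (c : ℕ → (Fin n → ℝ) → ℝ) (hc : ∀ i, AnalyticAt ℝ (c i) 0)
    (hc0 : ∃ i < d, c i 0 ≠ 0) (U : (Fin (n + 1) → ℝ) → ℝ) (hU : AnalyticAt ℝ U 0) (hU0 : U 0 ≠ 0)
    (k : Fin n) (hβ : 1 ≤ β k)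
    (IH : ∀ (a' : (Fin n → ℝ) → ℝ) (μ' : Fin n → ℕ), Mon a' μ' →
      ∀ U' : (Fin (n + 1) → ℝ) → ℝ, AnalyticAt ℝ U' 0 → U' 0 ≠ 0 →
      ∀ 𝒱 : Ultrafilter (Fin (n + 1) → ℝ), (𝒱 : Filter (Fin (n + 1) → ℝ)) ≤ 𝓝 0 →
        Res (Tfun n d a' (β - Pi.single k 1) c U') 𝒱)
    (C : ℝ) (hC : 0 ≤ C)
    (𝒰 : Ultrafilter (Fin (n + 1) → ℝ)) (h𝒰 : (𝒰 : Filter (Fin (n + 1) → ℝ)) ≤ 𝓝 0)
    (h : ∀ᶠ x in (𝒰 : Filter (Fin (n + 1) → ℝ)), |x 0| ≤ C * |(Fin.tail x : Fin n → ℝ) k|) :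
    Res (Tfun n d a β c U) 𝒰 := by
  obtain ⟨t₀, -, ht₀, hmul⟩ := ultra_ratio 𝒰 (fun x => x 0) (fun x => (Fin.tail x : Fin n → ℝ) k) C hC h
  set φ : (Fin (n + 1) → ℝ) → (Fin (n + 1) → ℝ) := fun x =>
    Fin.cons ((Fin.tail x : Fin n → ℝ) k * (t₀ + x 0)) (Fin.tail x) with hφdef
  set s : (Fin (n + 1) → ℝ) → (Fin (n + 1) → ℝ) := fun x =>
    Fin.cons (x 0 / (Fin.tail x : Fin n → ℝ) k - t₀) (Fin.tail x) with hsdef
  have htailk : AnalyticAt ℝ (fun x : Fin (n + 1) → ℝ => (Fin.tail x : Fin n → ℝ) k) 0 :=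
    (Mon.tail (Mon.coord k)).analytic
  have hx0 : AnalyticAt ℝ (fun x : Fin (n + 1) → ℝ => x 0) 0 := (Mon.coord 0).analytic
  have hφ : AnalyticAt ℝ φ 0 :=
    AnalyticAt.finCons (htailk.mul (analyticAt_const.add hx0)) (analyticAt_tail 0)
  have hs : Tendsto s 𝒰 (𝓝 0) := by
    refine tendsto_finCons ?_ ?_
    · have := ht₀.sub_const t₀
      rwa [sub_self] at this
    · have h1 : Tendsto (fun x : Fin (n + 1) → ℝ => (Fin.tail x : Fin n → ℝ)) (𝓝 0)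
          (𝓝 (Fin.tail (0 : Fin (n + 1) → ℝ))) := continuous_tail.tendsto 0
      exact h1.mono_left h𝒰
  have hsec : ∀ᶠ x in (𝒰 : Filter (Fin (n + 1) → ℝ)), φ (s x) = x := by
    filter_upwards [hmul] with x hx
    rw [hφdef, hsdef]
    simp only [Fin.tail_cons, Fin.cons_zero]
    rw [add_sub_cancel, hx]
    exact Fin.cons_self_tail x
  refine Res.comp h𝒰 hφ hs hsec ?_
  have h𝒱 : ((𝒰.map s : Ultrafilter (Fin (n + 1) → ℝ)) : Filter (Fin (n + 1) → ℝ)) ≤ 𝓝 0 := hs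
  have ha' : Mon (fun v : Fin n → ℝ => a v * v k ^ (d + 1)) (μ + fun i => (d + 1) * (Pi.single k 1 : Fin n → ℕ) i) :=
    Mon.mul ha ((Mon.coord k).pow (d + 1))
  have hφ0 : ∀ t : ℝ, φ (Fin.cons t (0 : Fin n → ℝ)) = 0 := by
    intro t
    rw [hφdef]
    simp only [Fin.tail_cons, Fin.cons_zero, Pi.zero_apply, zero_mul]
    ext i
    refine Fin.cases ?_ (fun j => ?_) i
    · rw [Fin.cons_zero, Pi.zero_apply]
    · rw [Fin.cons_succ, Pi.zero_apply, Pi.zero_apply]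
  have hcons0 : (Fin.cons (0 : ℝ) (0 : Fin n → ℝ) : Fin (n + 1) → ℝ) = 0 := by
    ext i
    refine Fin.cases ?_ (fun j => ?_) i
    · rw [Fin.cons_zero, Pi.zero_apply]
    · rw [Fin.cons_succ, Pi.zero_apply, Pi.zero_apply]
  have hφ00 : φ 0 = 0 := by
    have := hφ0 0
    rwa [hcons0] at this
  have hUφ : AnalyticAt ℝ (fun x => U (φ x)) 0 := by
    have h1 : AnalyticAt ℝ U (φ 0) := by
      rw [hφ00]
      exact hU
    exact h1.comp hφ
  have htail0 : (Fin.tail (0 : Fin (n + 1) → ℝ) : Fin n → ℝ) = 0 := rfl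
  rcases eq_or_ne t₀ 0 with h0 | h0
  · -- `t₀ = 0`
    have heq : (Tfun n d a β c U) ∘ φ =
        Tfun n d (fun v : Fin n → ℝ => a v * v k ^ (d + 1)) (β - Pi.single k 1) c (fun x => U (φ x)) := by
      funext x
      rw [Function.comp_apply]
      have h1 : φ x = Fin.cons ((Fin.tail x : Fin n → ℝ) k * x 0) (Fin.tail x) := by
        rw [hφdef]
        simp only
        rw [h0, zero_add]
      rw [h1, chartI_id n d a β c U k hβ, ← h1]
      rfl
    rw [heq]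
    exact IH _ _ ha' _ hUφ (by rw [hφ00]; exact hU0) _ h𝒱
  · -- `t₀ ≠ 0`
    set Q : (Fin (n + 1) → ℝ) → ℝ := fun x =>
      (∑ i ∈ Finset.range d, (∏ l, (Fin.tail x : Fin n → ℝ) l ^
        ((d + 1 - i) * (β - Pi.single k 1 : Fin n → ℕ) l)) * c i (Fin.tail x) * (t₀ + x 0) ^ i) +
          (t₀ + x 0) ^ (d + 1) * U (φ x) with hQdef
    have heq : (Tfun n d a β c U) ∘ φ =
        fun x => (fun v : Fin n → ℝ => a v * v k ^ (d + 1)) (Fin.tail x) * Q x := by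
      funext x
      rw [Function.comp_apply]
      have h1 : φ x = Fin.cons ((Fin.tail x : Fin n → ℝ) k * (t₀ + x 0)) (Fin.tail x) := rfl
      rw [h1, chartI_id n d a β c U k hβ, ← h1]
    rw [heq]
    refine hS _ Q ha'.analytic ha'.ne_zero ?_ ?_ _ h𝒱
    · -- `Q` is analytic
      have htc : ∀ l : Fin n, AnalyticAt ℝ (fun x : Fin (n + 1) → ℝ => (Fin.tail x : Fin n → ℝ) l) 0 :=
        fun l => (Mon.tail (Mon.coord l)).analytic
      refine AnalyticAt.add ?_ (((analyticAt_const.add hx0).pow _).mul hUφ)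
      refine Finset.analyticAt_fun_sum _ fun i _ => ?_
      refine AnalyticAt.mul (AnalyticAt.mul ?_ ?_) ((analyticAt_const.add hx0).pow _)
      · exact Finset.analyticAt_fun_prod _ fun l _ => (htc l).pow _
      · have h1 : AnalyticAt ℝ (c i) (Fin.tail (0 : Fin (n + 1) → ℝ)) := hc i
        exact AnalyticAt.fun_comp h1 (analyticAt_tail 0)
    · -- order on the axis
      have h1 : (fun t : ℝ => Q (Fin.cons t (0 : Fin n → ℝ))) = fun t : ℝ =>
          (∑ j ∈ Finset.range d, ((∏ l, (0 : Fin n → ℝ) l ^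
            ((d + 1 - j) * (β - Pi.single k 1 : Fin n → ℕ) l)) * c j 0) * (t₀ + t) ^ j) +
              (t₀ + t) ^ (d + 1) * U 0 := by
        funext t
        rw [hQdef]
        simp only [Fin.tail_cons, Fin.cons_zero, hφ0]
      rw [h1]
      exact order_le_of_tschirnhaus d (fun j => (∏ l, (0 : Fin n → ℝ) l ^
            ((d + 1 - j) * (β - Pi.single k 1 : Fin n → ℕ) l)) * c j 0) (U 0) t₀ hU0 h0

end Pool.Agent.helper62.GF
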