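import Pool.Agent.helper62.GF.NDefs

/-!
# GF-N01: differences of trajectories avoid a cone; null sets

`diff_cone`.  (If `EE n` is trivial everything is `0`.)  The set `{‖u‖ = 1, 0 ≤ b u u}` is compact and
`u ↦ b (A u) u` is continuous and positive on it, so `b (A u) u ≥ c₀ ‖u‖²` whenever `0 ≤ b u u`, with
`c₀ > 0`.  Take `ρ` from strict differentiability: `‖Y x - Y y - A (x - y)‖ ≤ ε ‖x - y‖` on the ball, with
`‖b‖ ε ≤ c₀/2`.  For two trajectories in the ball, `w = γ₁ - γ₂`, `q = b w w`: `q' = 2 b w' w`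
(symmetry) and whenever `q ≥ 0`: `q' ≥ c₀ ‖w‖² ≥ (c₀/‖b‖) q`, and `q' > 0` if also `w ≠ 0`.  If `w 0 ≠ 0` and
`q 0 ≥ 0` then `q > 0` for small `t > 0` and then `q` grows at least like `exp ((c₀/‖b‖) t)`: contradiction
with `|q| ≤ ‖b‖ (2ρ)²`.
(Trick for the growth: as long as `q > 0`, `log q` has derivative `≥ c₀/‖b‖`; `q` cannot return to `0`,
since it is nondecreasing while it is `≥ 0`.)

`stay_null`: let `S = stay Y 0 ρ`.  For `x, y ∈ S`: `b (x - y) (x - y) ≤ 0`; this passes to the closure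
`S'` (compact).  The translates `S' + t e` are pairwise disjoint for distinct reals `t`
(`x - y = (t' - t) e` has `b = (t'-t)² b e e > 0`).  So `S'` is null
(`MeasureTheory.Measure.addHaar_eq_zero_of_disjoint_translates` with `u j = (1/(j+1)) • e`).
-/

open Filter Topology Set MeasureTheory

namespace Pool.Agent.helper62.GF

variable {n : ℕ}

private theorem cone_bound (A : EE n →L[ℝ] EE n) (b : EE n →L[ℝ] EE n →L[ℝ] ℝ)
    (hpos : ∀ u, u ≠ 0 → 0 ≤ b u u → 0 < b (A u) u) :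
    ∃ c : ℝ, 0 < c ∧ ∀ u, 0 ≤ b u u → c * ‖u‖ ^ 2 ≤ b (A u) u := by
  have hc1 : Continuous fun u : EE n => b u u := b.continuous.clm_apply continuous_id
  have hc2 : Continuous fun u : EE n => b (A u) u :=
    (b.continuous.comp A.continuous).clm_apply continuous_id
  have hS : IsCompact (Metric.sphere (0 : EE n) 1 ∩ {u | 0 ≤ b u u}) :=
    (isCompact_sphere _ _).inter_right (isClosed_le continuous_const hc1)
  obtain ⟨c, hc, hcS⟩ : ∃ c : ℝ, 0 < c ∧ ∀ u ∈ Metric.sphere (0 : EE n) 1 ∩ {u | 0 ≤ b u u},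
      c ≤ b (A u) u := by
    rcases (Metric.sphere (0 : EE n) 1 ∩ {u | 0 ≤ b u u}).eq_empty_or_nonempty with h | h
    · exact ⟨1, one_pos, fun u hu => by rw [h] at hu; exact absurd hu (by simp)⟩
    · obtain ⟨u₀, hu₀, hmin⟩ := hS.exists_isMinOn h hc2.continuousOn
      refine ⟨b (A u₀) u₀, hpos u₀ ?_ hu₀.2, fun u hu => hmin hu⟩
      intro h0
      have h1 : ‖u₀‖ = 1 := by simpa using hu₀.1
      rw [h0, norm_zero] at h1
      exact zero_ne_one h1
  refine ⟨c, hc, fun u hu => ?_⟩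
  by_cases h0 : u = 0
  · rw [h0]; simp
  · have hn : 0 < ‖u‖ := norm_pos_iff.2 h0
    set v : EE n := ‖u‖⁻¹ • u with hv
    have huv : u = ‖u‖ • v := by
      rw [hv, smul_smul, mul_inv_cancel₀ hn.ne', one_smul]
    have hbv : b v v = (‖u‖⁻¹) ^ 2 * b u u := by
      rw [hv]
      simp only [map_smul, ContinuousLinearMap.smul_apply, smul_eq_mul]
      ring
    have hvn : ‖v‖ = 1 := by
      rw [hv, norm_smul, norm_inv, norm_norm, inv_mul_cancel₀ hn.ne']
    have h1 := hcS v ⟨by simpa using hvn, by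
      show 0 ≤ b v v
      rw [hbv]
      positivity⟩
    have h2 : b (A u) u = ‖u‖ ^ 2 * b (A v) v := by
      conv_lhs => rw [huv]
      simp only [map_smul, ContinuousLinearMap.smul_apply, smul_eq_mul]
      ring
    rw [h2, mul_comm]
    exact mul_le_mul_of_nonneg_left h1 (by positivity)

/-- a function with `q' ≥ k q` whenever `q > 0` and `q t₁ > 0` is unbounded -/
private theorem growth (q q' : ℝ → ℝ) (k M : ℝ) (hk : 0 < k)
    (hq : ∀ t, 0 ≤ t → HasDerivWithinAt q (q' t) (Ici 0) t)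
    (hb : ∀ t, 0 ≤ t → 0 < q t → k * q t ≤ q' t) (hM : ∀ t, 0 ≤ t → q t ≤ M)
    {t₁ : ℝ} (ht₁ : 0 ≤ t₁) (hpos : 0 < q t₁) : False := by
  set m : ℝ := k * q t₁ / 2 with hm
  have hm0 : 0 < m := by positivity
  have hM0 : q t₁ ≤ M := hM t₁ ht₁
  set T : ℝ := t₁ + M / m with hT
  have hMm : 0 ≤ M / m := div_nonneg (hpos.le.trans hM0) hm0.le
  have hcont : ContinuousOn q (Icc t₁ T) := fun t ht =>
    (hq t (ht₁.trans ht.1)).continuousWithinAt.mono fun s hs => mem_Ici.2 (ht₁.trans hs.1)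
  have hder : ∀ t, t₁ ≤ t → HasDerivWithinAt q (q' t) (Ici t) t := fun t ht =>
    (hq t (ht₁.trans ht)).mono fun s hs => mem_Ici.2 ((ht₁.trans ht).trans hs)
  have h := image_le_of_deriv_right_lt_deriv_boundary' (f := fun t => -q t) (f' := fun t => -q' t)
    (a := t₁) (b := T) (B := fun t => -(q t₁ + m * (t - t₁))) (B' := fun _ => -m)
    hcont.neg (fun t ht => (hder t ht.1).neg) (by simp)
    (by fun_prop)
    (fun t _ => by
      have h1 : HasDerivAt (fun t : ℝ => -(q t₁ + m * (t - t₁))) (-(m * 1)) t :=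
        ((((hasDerivAt_id t).sub_const t₁).const_mul m).const_add (q t₁)).neg
      rw [mul_one] at h1
      exact h1.hasDerivWithinAt)
    (fun t ht he => by
      have h1 : q t = q t₁ + m * (t - t₁) := neg_injective he
      have h2 : 0 ≤ m * (t - t₁) := mul_nonneg hm0.le (sub_nonneg.2 ht.1)
      have h3 : 0 < q t := by rw [h1]; linarith
      have h4 := hb t (ht₁.trans ht.1) h3
      have h5 : k * q t₁ ≤ k * q t := mul_le_mul_of_nonneg_left (by rw [h1]; linarith) hk.le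
      show -q' t < -m
      have h6 : m < k * q t₁ := by
        rw [hm]
        have : 0 < k * q t₁ := by positivity
        linarith
      linarith)
  have h1 := h (right_mem_Icc.2 (by rw [hT]; linarith))
  have h2 : q t₁ + m * (T - t₁) ≤ q T := by
    have : -q T ≤ -(q t₁ + m * (T - t₁)) := h1
    linarith
  have h3 : m * (T - t₁) = M := by
    rw [hT]
    field_simp
    ring
  have h4 := hM T (by rw [hT]; linarith)
  linarith

theorem diff_cone (Y : EE n → EE n) (A : EE n →L[ℝ] EE n) (hY : HasStrictFDerivAt Y A 0)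
    (b : EE n →L[ℝ] EE n →L[ℝ] ℝ) (hsymm : ∀ u v, b u v = b v u)
    (hpos : ∀ u, u ≠ 0 → 0 ≤ b u u → 0 < b (A u) u) :
    ∃ ρ : ℝ, 0 < ρ ∧ ∀ γ₁ γ₂ : ℝ → EE n, IsTraj Y γ₁ → IsTraj Y γ₂ → (∀ t, 0 ≤ t → ‖γ₁ t‖ ≤ ρ) →
      (∀ t, 0 ≤ t → ‖γ₂ t‖ ≤ ρ) → γ₁ 0 ≠ γ₂ 0 → b (γ₁ 0 - γ₂ 0) (γ₁ 0 - γ₂ 0) < 0 := by
  obtain ⟨c, hc, hcb⟩ := cone_bound A b hpos
  set β : ℝ := ‖b‖ + 1 with hβ
  have hβ0 : 0 < β := by positivity
  have hbb : ∀ u v, |b u v| ≤ β * ‖u‖ * ‖v‖ := by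
    intro u v
    have h1 := b.le_opNorm₂ u v
    rw [Real.norm_eq_abs] at h1
    refine h1.trans ?_
    have : ‖b‖ ≤ β := by rw [hβ]; linarith
    gcongr
  set ε : ℝ := c / (2 * β) with hε
  have hε0 : 0 < ε := by positivity
  have hlo := hY.isLittleO.def hε0
  rw [nhds_prod_eq] at hlo
  obtain ⟨pa, hpa, pb, hpb, hpp⟩ := Filter.eventually_prod_iff.1 hlo
  obtain ⟨r, hr, hrb⟩ := Metric.eventually_nhds_iff_ball.1 (hpa.and hpb)
  have hest : ∀ x y : EE n, ‖x‖ < r → ‖y‖ < r → ‖Y x - Y y - A (x - y)‖ ≤ ε * ‖x - y‖ := by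
    intro x y hx hy
    have h1 := hpp (hrb x (by simpa using hx)).1 (hrb y (by simpa using hy)).2
    exact h1
  refine ⟨r / 2, by positivity, fun γ₁ γ₂ h1 h2 hb1 hb2 hne => ?_⟩
  by_contra hcon
  push Not at hcon
  set w : ℝ → EE n := fun t => γ₁ t - γ₂ t with hw
  set w' : ℝ → EE n := fun t => Y (γ₁ t) - Y (γ₂ t) with hw'
  have hdw : ∀ t, 0 ≤ t → HasDerivWithinAt w (w' t) (Ici 0) t := fun t ht =>
    (h1 t ht).sub (h2 t ht)
  set q : ℝ → ℝ := fun t => b (w t) (w t) with hqdef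
  set q' : ℝ → ℝ := fun t => 2 * b (w' t) (w t) with hq'def
  have hdq : ∀ t, 0 ≤ t → HasDerivWithinAt q (q' t) (Ici 0) t := by
    intro t ht
    have e1 : HasDerivWithinAt (fun t => b (w t)) (b (w' t)) (Ici 0) t :=
      b.hasFDerivAt.comp_hasDerivWithinAt t (hdw t ht)
    have e2 := e1.clm_apply (hdw t ht)
    have e3 : b (w' t) (w t) + b (w t) (w' t) = q' t := by
      rw [hq'def, hsymm (w t) (w' t)]
      ring
    rw [e3] at e2
    exact e2
  have hkey : ∀ t, 0 ≤ t → 0 ≤ q t → c * ‖w t‖ ^ 2 ≤ q' t := by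
    intro t ht hqt
    have e1 := hest (γ₁ t) (γ₂ t) (lt_of_le_of_lt (hb1 t ht) (by linarith))
      (lt_of_le_of_lt (hb2 t ht) (by linarith))
    have e2 := hcb (w t) hqt
    set R : EE n := w' t - A (w t) with hR
    have e3 : ‖R‖ ≤ ε * ‖w t‖ := e1
    have e4 : w' t = A (w t) + R := by rw [hR]; abel
    have e5 : b (w' t) (w t) = b (A (w t)) (w t) + b R (w t) := by
      rw [e4, map_add, ContinuousLinearMap.add_apply]
    have e6 : |b R (w t)| ≤ c / 2 * ‖w t‖ ^ 2 := by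
      refine (hbb R (w t)).trans ?_
      calc β * ‖R‖ * ‖w t‖ ≤ β * (ε * ‖w t‖) * ‖w t‖ := by gcongr
        _ = c / 2 * ‖w t‖ ^ 2 := by
          rw [hε]
          field_simp
    have e7 := neg_abs_le (b R (w t))
    have e8 : q' t = 2 * b (w' t) (w t) := rfl
    rw [e8, e5]
    linarith
  have hqle : ∀ t, q t ≤ β * ‖w t‖ ^ 2 := by
    intro t
    have e1 := (le_abs_self _).trans (hbb (w t) (w t))
    calc q t ≤ β * ‖w t‖ * ‖w t‖ := e1
      _ = β * ‖w t‖ ^ 2 := by ring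
  have hbk : ∀ t, 0 ≤ t → 0 < q t → c / β * q t ≤ q' t := by
    intro t ht hqt
    refine le_trans ?_ (hkey t ht hqt.le)
    calc c / β * q t ≤ c / β * (β * ‖w t‖ ^ 2) :=
          mul_le_mul_of_nonneg_left (hqle t) (by positivity)
      _ = c * ‖w t‖ ^ 2 := by field_simp
  have hM : ∀ t, 0 ≤ t → q t ≤ β * r ^ 2 := by
    intro t ht
    refine (hqle t).trans (mul_le_mul_of_nonneg_left ?_ hβ0.le)
    have e1 : ‖w t‖ ≤ r := by
      have := norm_sub_le (γ₁ t) (γ₂ t)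
      have e2 := hb1 t ht
      have e3 := hb2 t ht
      calc ‖w t‖ ≤ ‖γ₁ t‖ + ‖γ₂ t‖ := this
        _ ≤ r := by linarith
    exact pow_le_pow_left₀ (norm_nonneg _) e1 2
  have hw0 : w 0 ≠ 0 := sub_ne_zero.2 hne
  have hwn : 0 < ‖w 0‖ := norm_pos_iff.2 hw0
  have hq0 : 0 ≤ q 0 := hcon
  have hq'0 : 0 < q' 0 := lt_of_lt_of_le (by positivity) (hkey 0 le_rfl hq0)
  have hsl : ∀ᶠ t in 𝓝[Ioi 0] (0 : ℝ), 0 < slope q 0 t := by
    have e1 : HasDerivWithinAt q (q' 0) (Ioi 0) 0 := (hdq 0 le_rfl).mono Ioi_subset_Ici_self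
    rw [hasDerivWithinAt_iff_tendsto_slope' (by simp)] at e1
    exact e1.eventually (lt_mem_nhds hq'0)
  obtain ⟨t₁, ht₁, ht₁'⟩ := (hsl.and self_mem_nhdsWithin).exists
  have ht₁0 : 0 < t₁ := ht₁'
  have hqt : 0 < q t₁ := by
    rw [slope_def_field, sub_zero] at ht₁
    have e1 : 0 < q t₁ - q 0 := by
      by_contra hcc
      push Not at hcc
      exact absurd ht₁ (not_lt.2 (div_nonpos_of_nonpos_of_nonneg hcc ht₁0.le))
    linarith
  exact growth q q' (c / β) (β * r ^ 2) (by positivity) hdq hbk hM ht₁0.le hqt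

/-- smaller radii give smaller sets -/
theorem stay_mono (V : EE n → EE n) (x₀ : EE n) {ρ ρ' : ℝ} (h : ρ ≤ ρ') :
    stay V x₀ ρ ⊆ stay V x₀ ρ' := by
  rintro x ⟨γ, h0, h1, h2⟩
  exact ⟨γ, h0, h1, fun t ht => (h2 t ht).trans h⟩

theorem stayConv_mono (V : EE n → EE n) (x₀ : EE n) {ρ ρ' : ℝ} (h : ρ ≤ ρ') :
    stayConv V x₀ ρ ⊆ stayConv V x₀ ρ' := by
  rintro x ⟨γ, h0, h1, h2, h3⟩
  exact ⟨γ, h0, h1, fun t ht => (h2 t ht).trans h, h3⟩

theorem stay_null (Y : EE n → EE n) (A : EE n →L[ℝ] EE n) (hY : HasStrictFDerivAt Y A 0)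
    (b : EE n →L[ℝ] EE n →L[ℝ] ℝ) (hsymm : ∀ u v, b u v = b v u)
    (hpos : ∀ u, u ≠ 0 → 0 ≤ b u u → 0 < b (A u) u) (e : EE n) (he : 0 < b e e) :
    ∃ ρ : ℝ, 0 < ρ ∧ volume (stay Y 0 ρ) = 0 := by
  obtain ⟨ρ, hρ, hcone⟩ := diff_cone Y A hY b hsymm hpos
  refine ⟨ρ, hρ, ?_⟩
  set S := stay Y 0 ρ with hS
  have hSle : ∀ x ∈ S, ∀ y ∈ S, b (x - y) (x - y) ≤ 0 := by
    rintro x ⟨γ₁, hx, h1, hb1⟩ y ⟨γ₂, hy, h2, hb2⟩
    by_cases hxy : x = y
    · rw [hxy, sub_self]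
      simp
    · have h3 := hcone γ₁ γ₂ h1 h2 (fun t ht => by simpa using hb1 t ht)
        (fun t ht => by simpa using hb2 t ht) (by rw [hx, hy]; exact hxy)
      rw [hx, hy] at h3
      exact h3.le
  have hcont : Continuous fun p : EE n × EE n => b (p.1 - p.2) (p.1 - p.2) :=
    (b.continuous.comp (continuous_fst.sub continuous_snd)).clm_apply
      (continuous_fst.sub continuous_snd)
  have hSc : ∀ x ∈ closure S, ∀ y ∈ closure S, b (x - y) (x - y) ≤ 0 := by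
    intro x hx y hy
    have h1 : IsClosed {p : EE n × EE n | b (p.1 - p.2) (p.1 - p.2) ≤ 0} :=
      isClosed_le hcont continuous_const
    have h2 : S ×ˢ S ⊆ {p : EE n × EE n | b (p.1 - p.2) (p.1 - p.2) ≤ 0} :=
      fun p hp => hSle p.1 hp.1 p.2 hp.2
    have h3 := closure_minimal h2 h1
    rw [closure_prod_eq] at h3
    exact h3 (show (x, y) ∈ closure S ×ˢ closure S from ⟨hx, hy⟩)
  refine measure_mono_null subset_closure ?_
  refine Measure.addHaar_eq_zero_of_disjoint_translates volume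
    (fun j : ℕ => (1 / ((j : ℝ) + 1)) • e) ?_ ?_ isClosed_closure.measurableSet
  · refine (Metric.isBounded_closedBall (x := (0 : EE n)) (r := ‖e‖)).subset ?_
    rintro _ ⟨j, rfl⟩
    rw [mem_closedBall_zero_iff, norm_smul]
    have h1 : ‖1 / ((j : ℝ) + 1)‖ ≤ 1 := by
      rw [Real.norm_eq_abs, abs_of_nonneg (by positivity), div_le_one (by positivity)]
      have : (0 : ℝ) ≤ j := Nat.cast_nonneg j
      linarith
    calc ‖1 / ((j : ℝ) + 1)‖ * ‖e‖ ≤ 1 * ‖e‖ := mul_le_mul_of_nonneg_right h1 (norm_nonneg _)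
      _ = ‖e‖ := one_mul _
  · intro i j hij
    rw [Function.onFun, Set.disjoint_left]
    rintro z hz1 hz2
    rw [Set.singleton_add, Set.mem_image] at hz1 hz2
    obtain ⟨x, hx, hxz⟩ := hz1
    obtain ⟨y, hy, hyz⟩ := hz2
    have h1 : x - y = (1 / ((j : ℝ) + 1) - 1 / ((i : ℝ) + 1)) • e := by
      rw [sub_smul]
      have h2 : (1 / ((i : ℝ) + 1)) • e + x = (1 / ((j : ℝ) + 1)) • e + y := by
        rw [hxz, hyz]
      have h3 : x = (1 / ((j : ℝ) + 1)) • e + y - (1 / ((i : ℝ) + 1)) • e := by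
        rw [← h2]; abel
      rw [h3]; abel
    have h2 : (1 / ((j : ℝ) + 1) - 1 / ((i : ℝ) + 1)) ≠ 0 := by
      intro h3
      rw [sub_eq_zero] at h3
      have h4 : ((j : ℝ) + 1) = (i : ℝ) + 1 := by
        have := congrArg (fun z : ℝ => 1 / z) h3
        simpa using this
      have h5 : (j : ℝ) = i := by linarith
      exact hij (by exact_mod_cast h5.symm)
    have h3 := hSc x hx y hy
    rw [h1] at h3
    simp only [map_smul, ContinuousLinearMap.smul_apply, smul_eq_mul] at h3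
    have h4 : 0 < (1 / ((j : ℝ) + 1) - 1 / ((i : ℝ) + 1)) *
        ((1 / ((j : ℝ) + 1) - 1 / ((i : ℝ) + 1)) * b e e) := by
      rw [← mul_assoc]
      exact mul_pos (mul_self_pos.2 h2) he
    linarith

end Pool.Agent.helper62.GF
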