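import Pool.Agent.helper62.GF.N01

/-!
# GF-N02: quadratic forms

author of the proofs: helper56

`strict_form`: the spectrum of `A` is finite, so there is `c > 0` with `c ‖v‖² < ⟪A v, v⟫` which is not an
eigenvalue of `A`.  `b u w = ⟪A u, w⟫ - c ⟪u, w⟫`.  Then `b (A u) u = ‖A u - c u‖² + c b u u`
(`⟪A A u, u⟫ = ‖A u‖²`), and `A u - c u ≠ 0` for `u ≠ 0`.

`blow_form`: write `u = s z + y`, `s = ⟪z, u⟫`, `y ⊥ z`.  Let `c > 0` not an eigenvalue of the (finite dimensional)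
operator `y ↦ L y` on `z^⊥` (e.g. not an eigenvalue of `π L π`, `π` the orthogonal projection onto `z^⊥`),
`c ‖v‖² < ⟪L v, v⟫`, and `K = (‖w‖² + 1)/c`.  Put
`b u u' = -K s s' + ⟪L y - c y, y'⟫`.  With `q y = L y - c y` (`⊥ z`, symmetric, injective on `z^⊥`):
`b (L u) u = K κ s² + s ⟪w, q y⟫ + ⟪L y, q y⟫`, `⟪L y, q y⟫ = ‖q y‖² + c ⟪y, q y⟫`, `⟪y, q y⟫ = b u u + K s²`;
so `b (L u) u ≥ K κ s² + (c K - ‖w‖²/2) s² + ‖q y‖²/2 + c b u u > 0` if `b u u ≥ 0` and `u ≠ 0`.
-/

open Filter Topology Set MeasureTheory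

namespace Pool.Agent.helper62.GF

variable {n : ℕ}

private theorem N02_mk (q : EE n →L[ℝ] EE n) : ∃ b : EE n →L[ℝ] EE n →L[ℝ] ℝ,
    ∀ u w, b u w = inner ℝ (q u) w := by
  refine ⟨LinearMap.mkContinuous₂ (LinearMap.mk₂ ℝ (fun u w => (inner ℝ (q u) w : ℝ))
    ?_ ?_ ?_ ?_) ‖q‖ ?_, fun u w => rfl⟩
  · intro a b w
    rw [map_add, inner_add_left]
  · intro c a w
    rw [map_smul, real_inner_smul_left, smul_eq_mul]
  · intro a w w'
    rw [inner_add_right]
  · intro c a w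
    rw [real_inner_smul_right, smul_eq_mul]
  · intro a w
    refine le_trans (norm_inner_le_norm (𝕜 := ℝ) (q a) w) ?_
    exact mul_le_mul_of_nonneg_right (q.le_opNorm a) (norm_nonneg w)

private theorem N02_pick (f : Module.End ℝ (EE n)) {t : ℝ} (ht : 0 < t) :
    ∃ c : ℝ, 0 < c ∧ c < t ∧ ∀ u : EE n, u ≠ 0 → f u ≠ c • u := by
  obtain ⟨c, hc, hc'⟩ := (Set.Ioo_infinite ht).exists_notMem_finite
    (Module.End.finite_hasEigenvalue f)
  refine ⟨c, hc.1, hc.2, fun u hu h => hc' ?_⟩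
  exact Module.End.hasEigenvalue_of_hasEigenvector
    ⟨Module.End.mem_eigenspace_iff.2 h, hu⟩

theorem strict_form (A : EE n →L[ℝ] EE n) (hA : ∀ u v : EE n, inner ℝ (A u) v = inner ℝ u (A v))
    (v : EE n) (hv : 0 < (inner ℝ (A v) v : ℝ)) :
    ∃ b : EE n →L[ℝ] EE n →L[ℝ] ℝ, (∀ u v, b u v = b v u) ∧
      (∀ u, u ≠ 0 → 0 ≤ b u u → 0 < b (A u) u) ∧ 0 < b v v := by
  have hv0 : v ≠ 0 := by
    rintro rfl
    simp at hv
  have hvn : 0 < ‖v‖ ^ 2 := by
    have := norm_pos_iff.2 hv0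
    positivity
  obtain ⟨c, hc0, hct, hc⟩ := N02_pick (A : EE n →ₗ[ℝ] EE n) (div_pos hv hvn)
  obtain ⟨b, hb⟩ := N02_mk (A - c • ContinuousLinearMap.id ℝ (EE n))
  have hb' : ∀ u w, b u w = inner ℝ (A u) w - c * inner ℝ u w := by
    intro u w
    rw [hb]
    have h1 : (A - c • ContinuousLinearMap.id ℝ (EE n)) u = A u - c • u := rfl
    rw [h1, inner_sub_left, real_inner_smul_left]
  refine ⟨b, ?_, ?_, ?_⟩
  · intro u w
    rw [hb', hb', hA, real_inner_comm (A w) u, real_inner_comm w u]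
  · intro u hu h0
    rw [hb'] at h0 ⊢
    have h1 : 0 < ‖A u - c • u‖ ^ 2 := by
      have h2 : A u - c • u ≠ 0 := sub_ne_zero.2 (hc u hu)
      have := norm_pos_iff.2 h2
      positivity
    rw [← real_inner_self_eq_norm_sq, inner_sub_left, inner_sub_right, inner_sub_right,
      real_inner_smul_left, real_inner_smul_left, real_inner_smul_right,
      real_inner_smul_right] at h1
    rw [hA (A u) u]
    have h2 : (inner ℝ u (A u) : ℝ) = inner ℝ (A u) u := real_inner_comm _ _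
    rw [h2] at h1
    nlinarith [mul_nonneg hc0.le h0]
  · rw [hb', real_inner_self_eq_norm_sq]
    rw [lt_div_iff₀ hvn] at hct
    linarith

theorem blow_form (z : EE n) (hz : ‖z‖ = 1) (L : EE n →L[ℝ] EE n) (κ : ℝ) (hκ : 0 ≤ κ) (w : EE n)
    (hw : inner ℝ z w = 0) (hLz : L z = -(κ • z) + w)
    (hLy : ∀ y : EE n, inner ℝ z y = 0 → inner ℝ z (L y) = 0)
    (hsymm : ∀ y y' : EE n, inner ℝ z y = 0 → inner ℝ z y' = 0 →
      inner ℝ (L y) y' = inner ℝ y (L y'))
    (v : EE n) (hv : inner ℝ z v = 0) (hpos : 0 < (inner ℝ (L v) v : ℝ)) :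
    ∃ b : EE n →L[ℝ] EE n →L[ℝ] ℝ, (∀ u v, b u v = b v u) ∧
      (∀ u, u ≠ 0 → 0 ≤ b u u → 0 < b (L u) u) ∧ 0 < b v v := by
  have hv0 : v ≠ 0 := by
    rintro rfl
    simp at hpos
  have hvn : 0 < ‖v‖ ^ 2 := by
    have := norm_pos_iff.2 hv0
    positivity
  have hzz : (inner ℝ z z : ℝ) = 1 := by
    rw [real_inner_self_eq_norm_sq, hz]
    norm_num
  -- projection onto the orthogonal complement of `z`
  let π : EE n →L[ℝ] EE n := ContinuousLinearMap.id ℝ (EE n) -
    (innerSL ℝ z : EE n →L[ℝ] ℝ).smulRight z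
  have hπ : ∀ u, π u = u - (inner ℝ z u : ℝ) • z := fun u => rfl
  have hπz : ∀ u, (inner ℝ z (π u) : ℝ) = 0 := by
    intro u
    rw [hπ, inner_sub_right, real_inner_smul_right, hzz]
    ring
  have hπy : ∀ y, (inner ℝ z y : ℝ) = 0 → π y = y := by
    intro y hy
    rw [hπ, hy, zero_smul, sub_zero]
  obtain ⟨c, hc0, hct, hc⟩ := N02_pick ((π.comp (L.comp π) : EE n →L[ℝ] EE n) :
    EE n →ₗ[ℝ] EE n) (div_pos hpos hvn)
  have hc' : ∀ y, (inner ℝ z y : ℝ) = 0 → y ≠ 0 → L y - c • y ≠ 0 := by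
    intro y hy hy0 h
    refine hc y hy0 ?_
    change π (L (π y)) = c • y
    rw [hπy y hy, hπy _ (hLy y hy)]
    exact sub_eq_zero.1 h
  set K : ℝ := (‖w‖ ^ 2 + 1) / c with hK
  have hcK : c * K = ‖w‖ ^ 2 + 1 := by
    rw [hK]
    field_simp
  have hK0 : 0 ≤ K := by positivity
  obtain ⟨b, hb⟩ := N02_mk ((L - c • ContinuousLinearMap.id ℝ (EE n)).comp π -
    K • (innerSL ℝ z : EE n →L[ℝ] ℝ).smulRight z)
  -- formula for `b`
  have hqz : ∀ y, (inner ℝ z y : ℝ) = 0 → (inner ℝ z (L y - c • y) : ℝ) = 0 := by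
    intro y hy
    rw [inner_sub_right, real_inner_smul_right, hLy y hy, hy]
    ring
  have hb' : ∀ u u', b u u' = inner ℝ (L (π u) - c • π u) (π u') -
      K * inner ℝ z u * inner ℝ z u' := by
    intro u u'
    rw [hb]
    have h1 : ((L - c • ContinuousLinearMap.id ℝ (EE n)).comp π -
        K • (innerSL ℝ z : EE n →L[ℝ] ℝ).smulRight z) u =
        (L (π u) - c • π u) - K • ((inner ℝ z u : ℝ) • z) := rfl
    rw [h1, inner_sub_left, real_inner_smul_left, real_inner_smul_left]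
    have h2 : (inner ℝ (L (π u) - c • π u) (π u') : ℝ) = inner ℝ (L (π u) - c • π u) u' := by
      rw [hπ u', inner_sub_right, real_inner_smul_right,
        real_inner_comm z (L (π u) - c • π u), hqz _ (hπz u)]
      ring
    rw [h2]
    ring
  have hqsymm : ∀ y y', (inner ℝ z y : ℝ) = 0 → (inner ℝ z y' : ℝ) = 0 →
      (inner ℝ (L y - c • y) y' : ℝ) = inner ℝ y (L y' - c • y') := by
    intro y y' hy hy'
    rw [inner_sub_left, inner_sub_right, real_inner_smul_left, real_inner_smul_right,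
      hsymm y y' hy hy']
  refine ⟨b, ?_, ?_, ?_⟩
  · intro u u'
    rw [hb', hb', hqsymm _ _ (hπz u) (hπz u'), real_inner_comm]
    ring
  · intro u hu h0
    set s : ℝ := inner ℝ z u with hs
    set y := π u with hy
    have hzy : (inner ℝ z y : ℝ) = 0 := hπz u
    have huy : u = s • z + y := by
      rw [hy, hπ, ← hs]
      abel
    have hLu : L u = s • (-(κ • z) + w) + L y := by
      nth_rewrite 1 [huy]
      rw [map_add, map_smul, hLz]
    have hsL : (inner ℝ z (L u) : ℝ) = -(κ * s) := by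
      rw [hLu, inner_add_right, real_inner_smul_right, inner_add_right, inner_neg_right,
        real_inner_smul_right, hzz, hw, hLy y hzy]
      ring
    have hπL : π (L u) = s • w + L y := by
      rw [hπ, hsL, hLu, smul_add, smul_neg, smul_smul, neg_smul, mul_comm s κ]
      abel
    have hwy : (inner ℝ z (s • w + L y) : ℝ) = 0 := by
      rw [inner_add_right, real_inner_smul_right, hw, hLy y hzy]
      ring
    rw [hb', ← hs, ← hy] at h0
    rw [hb', hsL, ← hs, ← hy, hπL, hqsymm _ _ hwy hzy]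
    set q := L y - c • y with hq
    have hLq : L y = q + c • y := by
      rw [hq]
      abel
    have h1 : (inner ℝ (s • w + L y) q : ℝ) = s * inner ℝ w q + (‖q‖ ^ 2 + c * inner ℝ q y) := by
      rw [hLq, inner_add_left, inner_add_left, real_inner_smul_left, real_inner_smul_left,
        real_inner_self_eq_norm_sq, real_inner_comm q y]
    rw [h1]
    have h2 : -(‖w‖ ^ 2 * s ^ 2 + ‖q‖ ^ 2) / 2 ≤ s * inner ℝ w q := by
      have h3 : |(inner ℝ w q : ℝ)| ≤ ‖w‖ * ‖q‖ := abs_real_inner_le_norm w q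
      have h4 : |s * inner ℝ w q| ≤ |s| * (‖w‖ * ‖q‖) := by
        rw [abs_mul]
        exact mul_le_mul_of_nonneg_left h3 (abs_nonneg s)
      have h5 := (abs_le.1 h4).1
      have h6 : 0 ≤ (|s| * ‖w‖ - ‖q‖) ^ 2 := sq_nonneg _
      have h7 : |s| ^ 2 = s ^ 2 := sq_abs s
      nlinarith
    have h8 : 0 < s ^ 2 + ‖q‖ ^ 2 := by
      by_cases hs0 : s = 0
      · have hy0 : y ≠ 0 := by
          intro hy0
          apply hu
          rw [huy, hs0, hy0]
          simp
        have h9 := norm_pos_iff.2 (hc' y hzy hy0)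
        have h10 : 0 < ‖q‖ := h9
        positivity
      · have : 0 < s ^ 2 := by positivity
        positivity
    have h11 : 0 ≤ K * κ * s ^ 2 := by positivity
    have h12 : c * (K * s * s) = (‖w‖ ^ 2 + 1) * s ^ 2 := by
      rw [← hcK]
      ring
    have h13 : 0 ≤ c * ((inner ℝ q y : ℝ) - K * s * s) := mul_nonneg hc0.le h0
    have h14 : 0 ≤ ‖w‖ ^ 2 * s ^ 2 := by positivity
    nlinarith
  · rw [hb', hv, hπy v hv, inner_sub_left, real_inner_smul_left, real_inner_self_eq_norm_sq]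
    rw [lt_div_iff₀ hvn] at hct
    linarith

end Pool.Agent.helper62.GF
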