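import Pool.Agent.helper62.GF.N03
import Pool.Agent.helper62.GF.M03

/-!
# GF-N04: the blow-up of the gradient

`blow_*`: algebra; with `s = ⟪z, u⟫`, `y = u - s z` (`⊥ z`), `blow z u = s (z + y)`, `⟪z, blow z u⟫ = s`.

`psi_exists`: `h u = gradient F (blow z u)` is analytic at `0` (`blow z` is polynomial, `blow z 0 = 0`, and
`gradient F` is analytic at `0`: `toDual.symm` of `fderiv`).  `‖∇F x‖ ≤ C ‖x‖^{k-1}` near `0` (`lead_approx` and
homogeneity) and `‖blow z u‖ ≤ 2 |s|` for `‖u‖ ≤ 1/2`, so `analytic_div_pow` (`ℓ = ⟪z, ·⟫`, `e = z`, `j = k-1`)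
gives `Ψ` with `∇F (blow z u) = s^{k-1} • Ψ u`.  For `y ⊥ z` small, by continuity
`Ψ y = lim_{s→0+} Ψ (s z + y) = lim ∇F (s (z+y)) / s^{k-1} = ∇P (z + y)`, `P = lead k F 0`
(`lead_approx`, `fderiv_lead_smul`).
-/

open Filter Topology Set MeasureTheory

namespace Pool.Agent.helper62.GF

variable {n : ℕ}

theorem inner_blow (z u : EE n) (hz : ‖z‖ = 1) : inner ℝ z (blow z u) = (inner ℝ z u : ℝ) := by
  unfold blow
  rw [inner_smul_right, inner_add_right, inner_sub_right, inner_smul_right,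
    real_inner_self_eq_norm_sq, hz]
  ring

theorem blow_blowInv (z x : EE n) (hz : ‖z‖ = 1) (hx : (inner ℝ z x : ℝ) ≠ 0) :
    blow z (blowInv z x) = x := by
  have h : (inner ℝ z (blowInv z x) : ℝ) = (inner ℝ z x : ℝ) := by
    unfold blowInv
    rw [inner_add_right, inner_sub_right, inner_smul_right, inner_smul_right,
      real_inner_self_eq_norm_sq, hz, inv_mul_cancel₀ hx]
    ring
  unfold blow
  rw [h]
  unfold blowInv
  rw [add_sub_cancel_left, add_sub_cancel, smul_inv_smul₀ hx]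

theorem inner_blowInv (z x : EE n) (hz : ‖z‖ = 1) (hx : (inner ℝ z x : ℝ) ≠ 0) :
    inner ℝ z (blowInv z x) = (inner ℝ z x : ℝ) := by
  unfold blowInv
  rw [inner_add_right, inner_sub_right, inner_smul_right, inner_smul_right,
    real_inner_self_eq_norm_sq, hz, inv_mul_cancel₀ hx]
  ring

theorem blow_analytic (z u : EE n) : AnalyticAt ℝ (blow z) u := by
  have h1 : AnalyticAt ℝ (fun u : EE n => (inner ℝ z u : ℝ)) u :=
    (innerSL ℝ z).analyticAt u
  exact h1.smul (analyticAt_const.add (analyticAt_id.sub (h1.smul analyticAt_const)))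

theorem norm_blow_le (z u : EE n) (hz : ‖z‖ = 1) (hu : ‖u‖ ≤ 1 / 2) :
    ‖blow z u‖ ≤ 2 * |(inner ℝ z u : ℝ)| := by
  have h1 : |(inner ℝ z u : ℝ)| ≤ 1 / 2 := by
    have := abs_real_inner_le_norm z u
    rw [hz, one_mul] at this
    exact this.trans hu
  have h2 : ‖z + (u - (inner ℝ z u : ℝ) • z)‖ ≤ 2 := by
    have h3 := norm_add_le z (u - (inner ℝ z u : ℝ) • z)
    have h4 := norm_sub_le u ((inner ℝ z u : ℝ) • z)
    rw [norm_smul, hz, Real.norm_eq_abs, mul_one] at h4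
    rw [hz] at h3
    linarith
  unfold blow
  rw [norm_smul, Real.norm_eq_abs]
  have := mul_le_mul_of_nonneg_left h2 (abs_nonneg (inner ℝ z u : ℝ))
  linarith

private theorem n4_dual : ∃ G : (EE n →L[ℝ] ℝ) →L[ℝ] EE n,
    (∀ L, G L = (InnerProductSpace.toDual ℝ (EE n)).symm L) ∧ ∀ L, ‖G L‖ = ‖L‖ := by
  refine ⟨⟨⟨⟨fun L => (InnerProductSpace.toDual ℝ (EE n)).symm L, fun a b => map_add _ a b⟩,
    fun c a => ?_⟩, (InnerProductSpace.toDual ℝ (EE n)).symm.continuous⟩, fun _ => rfl, ?_⟩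
  · exact ((InnerProductSpace.toDual ℝ (EE n)).symm.map_smulₛₗ c a)
  · intro L
    exact (InnerProductSpace.toDual ℝ (EE n)).symm.norm_map L

private theorem n4_grad (F : EE n → ℝ) (G : (EE n →L[ℝ] ℝ) →L[ℝ] EE n)
    (hG : ∀ L, G L = (InnerProductSpace.toDual ℝ (EE n)).symm L) (x : EE n) :
    gradient F x = G (fderiv ℝ F x) := by
  rw [hG]
  rfl

private theorem n4_bound (k : ℕ) (F : EE n → ℝ) (hF : AnalyticAt ℝ F 0) (hF0 : F 0 = 0)
    (hk : HasOrd k F 0) : ∃ C : ℝ, 0 ≤ C ∧ ∀ᶠ x in 𝓝 (0 : EE n),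
      ‖fderiv ℝ F x‖ ≤ C * ‖x‖ ^ (k - 1) := by
  obtain ⟨C, hC, hap⟩ := lead_approx k F hF hF0 hk
  have hk2 : 2 ≤ k := hk.1
  have hcont : Continuous (fderiv ℝ (lead k F 0)) := by
    rw [continuous_iff_continuousAt]
    intro x
    exact (lead_analytic k F 0 x).fderiv.continuousAt
  obtain ⟨C', hC'⟩ := (isCompact_closedBall (0 : EE n) 1).exists_bound_of_continuousOn
    hcont.continuousOn
  have hC0 : 0 ≤ C' := (norm_nonneg _).trans (hC' 0 (by simp))
  refine ⟨C + C', by positivity, ?_⟩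
  filter_upwards [hap, Metric.closedBall_mem_nhds (0 : EE n) one_pos] with x hx hx1
  have hx1' : ‖x‖ ≤ 1 := by simpa using hx1
  have h1 : ‖fderiv ℝ (lead k F 0) x‖ ≤ C' * ‖x‖ ^ (k - 1) := by
    by_cases h0 : x = 0
    · have h2 := fderiv_lead_smul k (by omega) F 0 0 (0 : EE n)
      rw [smul_zero, zero_pow (by omega), zero_smul] at h2
      rw [h0, h2, norm_zero, norm_zero, zero_pow (by omega), mul_zero]
    · have hn : ‖x‖ ≠ 0 := norm_ne_zero_iff.2 h0
      have h2 := fderiv_lead_smul k (by omega) F 0 ‖x‖ (‖x‖⁻¹ • x)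
      rw [smul_inv_smul₀ hn] at h2
      rw [h2, norm_smul, norm_pow, norm_norm, mul_comm]
      apply mul_le_mul_of_nonneg_right _ (by positivity)
      apply hC'
      rw [mem_closedBall_zero_iff, norm_smul, norm_inv, norm_norm, inv_mul_cancel₀ hn]
  have h2 : ‖fderiv ℝ F x‖ ≤ ‖fderiv ℝ F x - fderiv ℝ (lead k F 0) x‖ +
      ‖fderiv ℝ (lead k F 0) x‖ := by
    have := norm_add_le (fderiv ℝ F x - fderiv ℝ (lead k F 0) x) (fderiv ℝ (lead k F 0) x)
    rwa [sub_add_cancel] at this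
  have h3 : ‖x‖ ^ k ≤ ‖x‖ ^ (k - 1) :=
    pow_le_pow_of_le_one (norm_nonneg _) hx1' (by omega)
  have h4 : C * ‖x‖ ^ k ≤ C * ‖x‖ ^ (k - 1) := mul_le_mul_of_nonneg_left h3 hC
  linarith [hx.2.1]

theorem psi_exists (k : ℕ) (F : EE n → ℝ) (hF : AnalyticAt ℝ F 0) (hF0 : F 0 = 0) (hk : HasOrd k F 0)
    (z : EE n) (hz : ‖z‖ = 1) :
    ∃ Ψ : EE n → EE n, AnalyticAt ℝ Ψ 0 ∧
      (∀ᶠ u in 𝓝 (0 : EE n), gradient F (blow z u) = (inner ℝ z u : ℝ) ^ (k - 1) • Ψ u) ∧
      ∀ᶠ u in 𝓝 (0 : EE n), inner ℝ z u = 0 → Ψ u = gradient (lead k F 0) (z + u) := by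
  have hk2 : 2 ≤ k := hk.1
  obtain ⟨G, hG, hGn⟩ := n4_dual (n := n)
  obtain ⟨C, hC, hbd⟩ := n4_bound k F hF hF0 hk
  obtain ⟨C₁, hC₁, hap⟩ := lead_approx k F hF hF0 hk
  have hb0 : blow z (0 : EE n) = 0 := by
    unfold blow
    rw [inner_zero_right, zero_smul]
  have han : AnalyticAt ℝ (fun u : EE n => gradient F (blow z u)) 0 := by
    have h1 : AnalyticAt ℝ (fun x : EE n => G (fderiv ℝ F x)) (blow z 0) := by
      rw [hb0]
      exact (G.analyticAt _).comp hF.fderiv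
    have h2 : (fun u : EE n => gradient F (blow z u)) =
        (fun x : EE n => G (fderiv ℝ F x)) ∘ (blow z) := by
      funext u
      exact n4_grad F G hG _
    rw [h2]
    exact h1.comp (blow_analytic z 0)
  have hbt : Tendsto (blow z) (𝓝 (0 : EE n)) (𝓝 0) := by
    have := (blow_analytic z (0 : EE n)).continuousAt
    rwa [ContinuousAt, hb0] at this
  have hbound : ∀ᶠ u in 𝓝 (0 : EE n),
      ‖gradient F (blow z u)‖ ≤ (C * 2 ^ (k - 1)) * |(innerSL ℝ z) u| ^ (k - 1) := by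
    filter_upwards [hbt.eventually hbd,
      Metric.closedBall_mem_nhds (0 : EE n) (by norm_num : (0 : ℝ) < 1 / 2)] with u h1 h2
    have h2' : ‖u‖ ≤ 1 / 2 := by simpa using h2
    rw [n4_grad F G hG, hGn]
    refine h1.trans ?_
    rw [mul_assoc, ← mul_pow]
    apply mul_le_mul_of_nonneg_left _ hC
    exact pow_le_pow_left₀ (norm_nonneg _) (norm_blow_le z u hz h2') _
  have hℓ : (innerSL ℝ z) z = 1 := by
    rw [innerSL_apply_apply, real_inner_self_eq_norm_sq, hz, one_pow]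
  obtain ⟨Ψ, hΨ, hdiv⟩ := analytic_div_pow _ han (innerSL ℝ z) z hℓ (k - 1) _ hbound
  refine ⟨Ψ, hΨ, hdiv, ?_⟩
  filter_upwards [hdiv.eventually_nhds, hΨ.eventually_analyticAt] with u hu1 hu2 hzu
  have hpath : Tendsto (fun s : ℝ => s • z + u) (𝓝[>] 0) (𝓝 u) := by
    have h1 : Tendsto (fun s : ℝ => s • z + u) (𝓝 0) (𝓝 ((0 : ℝ) • z + u)) := by
      apply Continuous.tendsto
      fun_prop
    rw [zero_smul, zero_add] at h1
    exact h1.mono_left nhdsWithin_le_nhds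
  have hlim1 : Tendsto (fun s : ℝ => Ψ (s • z + u)) (𝓝[>] 0) (𝓝 (Ψ u)) :=
    hu2.continuousAt.tendsto.comp hpath
  have hscale : Tendsto (fun s : ℝ => s • (z + u)) (𝓝[>] 0) (𝓝 0) := by
    have h1 : Tendsto (fun s : ℝ => s • (z + u)) (𝓝 0) (𝓝 ((0 : ℝ) • (z + u))) := by
      apply Continuous.tendsto
      fun_prop
    rw [zero_smul] at h1
    exact h1.mono_left nhdsWithin_le_nhds
  have hlim2 : Tendsto (fun s : ℝ => Ψ (s • z + u)) (𝓝[>] 0)
      (𝓝 (gradient (lead k F 0) (z + u))) := by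
    rw [tendsto_iff_norm_sub_tendsto_zero]
    have hmaj : Tendsto (fun s : ℝ => C₁ * ‖z + u‖ ^ k * s) (𝓝[>] 0) (𝓝 0) := by
      have h1 : Tendsto (fun s : ℝ => C₁ * ‖z + u‖ ^ k * s) (𝓝 0)
          (𝓝 (C₁ * ‖z + u‖ ^ k * 0)) := by
        apply Continuous.tendsto
        fun_prop
      rw [mul_zero] at h1
      exact h1.mono_left nhdsWithin_le_nhds
    refine squeeze_zero' (Eventually.of_forall fun s => norm_nonneg _) ?_ hmaj
    filter_upwards [hpath.eventually hu1, hscale.eventually hap, self_mem_nhdsWithin]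
      with s h1 h2 h3
    have hs : 0 < s := h3
    have hin : (inner ℝ z (s • z + u) : ℝ) = s := by
      rw [inner_add_right, inner_smul_right, real_inner_self_eq_norm_sq, hz, hzu]
      ring
    have hbl : blow z (s • z + u) = s • (z + u) := by
      unfold blow
      rw [hin, add_sub_cancel_left]
    rw [innerSL_apply_apply, hin, hbl, n4_grad F G hG] at h1
    have h4 : s ^ (k - 1) • (Ψ (s • z + u) - gradient (lead k F 0) (z + u)) =
        G (fderiv ℝ F (s • (z + u)) - fderiv ℝ (lead k F 0) (s • (z + u))) := by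
      rw [smul_sub, ← h1, map_sub, fderiv_lead_smul k (by omega), map_smul,
        n4_grad (lead k F 0) G hG]
    have h5 : s ^ (k - 1) * ‖Ψ (s • z + u) - gradient (lead k F 0) (z + u)‖ ≤
        C₁ * (s * ‖z + u‖) ^ k := by
      have h6 := congrArg norm h4
      rw [norm_smul, Real.norm_eq_abs, abs_of_pos (pow_pos hs _), hGn] at h6
      rw [h6]
      have h7 := h2.2.1
      rwa [norm_smul, Real.norm_eq_abs, abs_of_pos hs] at h7
    have h8 : C₁ * (s * ‖z + u‖) ^ k = s ^ (k - 1) * (C₁ * ‖z + u‖ ^ k * s) := by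
      have h9 : s ^ k = s ^ (k - 1) * s := by
        rw [← pow_succ]
        congr 1
        omega
      rw [mul_pow, h9]
      ring
    rw [h8] at h5
    exact le_of_mul_le_mul_left h5 (pow_pos hs _)
  exact tendsto_nhds_unique hlim1 hlim2

end Pool.Agent.helper62.GF
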