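import Pool.Agent.helper62.GF.N04

/-!
# GF-N05: the blown-up vector field and its derivative

With `Ψ` from `psi_exists`, `s = ⟪z, u⟫`, `y = u - s z`, put `Φ u = -(B (blow z u)) (Ψ u)` (class `C¹` at `0`) and
`Y u = (s ⟪z, Φ u⟫) z + (Φ u - ⟪z, Φ u⟫ z - ⟪z, Φ u⟫ y)`.
Near `0`, `V (blow z u) = -(B (blow z u)) (∇F (blow z u)) = s^{k-1} Φ u`, so for `s ≠ 0` (`k ≥ 2`):
`s^{k-2} Y u = ⟪z, V x⟫ z + s⁻¹ (V x - ⟪z, V x⟫ z - ⟪z, V x⟫ y)`, `x = blow z u`; this is the identity of the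
statement (`x = s (z + y)`, so `s⁻¹ ⟪z, V⟫ (z + y) = (⟪z, V⟫ / s²) x`).
Derivative at `0`: `Φ 0 = -∇P z = -(k P z) z` (`z` critical and Euler: `hcrit`), and for `y ⊥ z` small
`Φ y = -∇P (z + y)` (`blow z y = 0`, `B 0 = id`), hence `DΦ(0) y = - D(∇P)(z) y`.  Product rule:
`DY(0) u = s ⟪z, Φ 0⟫ z + (DΦ(0) u - ⟪z, DΦ(0) u⟫ z - ⟪z, Φ 0⟫ y)`, i.e.
`L z = -(k P z) z + w`, `w = DΦ(0) z - ⟪z, DΦ(0) z⟫ z ⊥ z`; and for `y ⊥ z`
`⟪L y, y'⟫ = - D²P(z)(y, y') + k P(z) ⟪y, y'⟫` for `y' ⊥ z`, `⟪z, L y⟫ = 0`.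
(`C¹` at `0` gives the strict derivative: `ContDiffAt.hasStrictFDerivAt`.)
-/

open Filter Topology Set MeasureTheory

namespace Pool.Agent.helper62.GF

variable {n : ℕ}

private theorem inner_gradient (f : EE n → ℝ) (x v : EE n) :
    inner ℝ (gradient f x) v = fderiv ℝ f x v := by
  unfold gradient
  exact InnerProductSpace.toDual_symm_apply

private theorem blow_zero_of (z u : EE n) (h : inner ℝ z u = 0) : blow z u = 0 := by
  unfold blow
  rw [h, zero_smul]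

/-- the blown-up field in terms of `Φ` -/
private noncomputable def yy (z : EE n) (Φ : EE n → EE n) (u : EE n) : EE n :=
  ((inner ℝ z u : ℝ) * (inner ℝ z (Φ u) : ℝ)) • z + (Φ u - (inner ℝ z (Φ u) : ℝ) • z -
    (inner ℝ z (Φ u) : ℝ) • (u - (inner ℝ z u : ℝ) • z))

private theorem yy_contDiffAt (z : EE n) {Φ : EE n → EE n} (hΦ : ContDiffAt ℝ 1 Φ 0) :
    ContDiffAt ℝ 1 (yy z Φ) 0 := by
  have h1 : ContDiffAt ℝ 1 (fun u : EE n => (inner ℝ z u : ℝ)) 0 :=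
    contDiffAt_const.inner ℝ contDiffAt_id
  have h2 : ContDiffAt ℝ 1 (fun u : EE n => (inner ℝ z (Φ u) : ℝ)) 0 :=
    contDiffAt_const.inner ℝ hΦ
  unfold yy
  exact ((h1.mul h2).smul contDiffAt_const).add
    ((hΦ.sub (h2.smul contDiffAt_const)).sub (h2.smul (contDiffAt_id.sub (h1.smul contDiffAt_const))))

private theorem yy_inner (z : EE n) (hz : ‖z‖ = 1) (Φ : EE n → EE n) (u : EE n) :
    inner ℝ z (yy z Φ u) = (inner ℝ z u : ℝ) * (inner ℝ z (Φ u) : ℝ) := by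
  have hzz : (inner ℝ z z : ℝ) = 1 := by rw [real_inner_self_eq_norm_sq, hz, one_pow]
  unfold yy
  simp only [inner_add_right, inner_sub_right, inner_smul_right, hzz]
  ring

private theorem yy_fderiv (z : EE n) {Φ : EE n → EE n} (hΦ : ContDiffAt ℝ 1 Φ 0) (v : EE n) :
    fderiv ℝ (yy z Φ) 0 v = ((inner ℝ z v : ℝ) * (inner ℝ z (Φ 0) : ℝ)) • z +
      (fderiv ℝ Φ 0 v - (inner ℝ z (fderiv ℝ Φ 0 v) : ℝ) • z -
        (inner ℝ z (Φ 0) : ℝ) • (v - (inner ℝ z v : ℝ) • z)) := by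
  have hΦd : HasFDerivAt Φ (fderiv ℝ Φ 0) 0 := (hΦ.differentiableAt one_ne_zero).hasFDerivAt
  -- restrict to the line
  have hl : HasDerivAt (fun t : ℝ => t • v) ((1 : ℝ) • v) 0 := (hasDerivAt_id (0 : ℝ)).smul_const v
  have hΦ0 : HasFDerivAt Φ (fderiv ℝ Φ 0) ((0 : ℝ) • v) := by
    rw [zero_smul]
    exact hΦd
  have hΦl : HasDerivAt (fun t : ℝ => Φ (t • v)) (fderiv ℝ Φ 0 ((1 : ℝ) • v)) 0 :=
    hΦ0.comp_hasDerivAt (0 : ℝ) hl
  rw [one_smul] at hΦl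
  have hi : HasDerivAt (fun t : ℝ => (inner ℝ z (Φ (t • v)) : ℝ))
      (inner ℝ z (fderiv ℝ Φ 0 v)) 0 := by
    have := (hasDerivAt_const (0 : ℝ) z).inner ℝ hΦl
    simpa using this
  have hs : HasDerivAt (fun t : ℝ => t * (inner ℝ z v : ℝ)) (1 * (inner ℝ z v : ℝ)) 0 :=
    (hasDerivAt_id (0 : ℝ)).mul_const _
  have hvl : HasDerivAt (fun t : ℝ => t • (v - (inner ℝ z v : ℝ) • z))
      ((1 : ℝ) • (v - (inner ℝ z v : ℝ) • z)) 0 := (hasDerivAt_id (0 : ℝ)).smul_const _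
  have hY : HasDerivAt (fun t : ℝ => (t * (inner ℝ z v : ℝ) * (inner ℝ z (Φ (t • v)) : ℝ)) • z +
      (Φ (t • v) - (inner ℝ z (Φ (t • v)) : ℝ) • z -
        (inner ℝ z (Φ (t • v)) : ℝ) • (t • (v - (inner ℝ z v : ℝ) • z)))) _ 0 :=
    ((hs.mul hi).smul_const z).add ((hΦl.sub (hi.smul_const z)).sub (hi.smul hvl))
  have hYd : HasFDerivAt (yy z Φ) (fderiv ℝ (yy z Φ) 0) ((0 : ℝ) • v) := by
    rw [zero_smul]
    exact ((yy_contDiffAt z hΦ).differentiableAt one_ne_zero).hasFDerivAt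
  have hYl := hYd.comp_hasDerivAt (0 : ℝ) hl
  have heq : (yy z Φ ∘ fun t : ℝ => t • v) = fun t : ℝ =>
      (t * (inner ℝ z v : ℝ) * (inner ℝ z (Φ (t • v)) : ℝ)) • z +
      (Φ (t • v) - (inner ℝ z (Φ (t • v)) : ℝ) • z -
        (inner ℝ z (Φ (t • v)) : ℝ) • (t • (v - (inner ℝ z v : ℝ) • z))) := by
    funext t
    simp only [Function.comp, yy, inner_smul_right]
    module
  rw [heq] at hYl
  have h9 := hYl.unique hY
  rw [one_smul] at h9
  rw [h9]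
  simp

theorem blow_field (k : ℕ) (F : EE n → ℝ) (V : EE n → EE n) (B : EE n → (EE n →L[ℝ] EE n))
    (h : NormData F V B) (hk : HasOrd k F 0) (z : EE n) (hz : ‖z‖ = 1)
    (hcrit : ∀ v : EE n, inner ℝ z v = 0 → fderiv ℝ (lead k F 0) z v = 0) :
    ∃ (Y : EE n → EE n) (L : EE n →L[ℝ] EE n) (w : EE n), HasStrictFDerivAt Y L 0 ∧
      inner ℝ z w = 0 ∧ L z = -((k * lead k F 0 z) • z) + w ∧
      (∀ y : EE n, inner ℝ z y = 0 → inner ℝ z (L y) = 0) ∧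
      (∀ y y' : EE n, inner ℝ z y = 0 → inner ℝ z y' = 0 →
        inner ℝ (L y) y' =
          -(fderiv ℝ (fderiv ℝ (lead k F 0)) z y y') + k * lead k F 0 z * inner ℝ y y') ∧
      ContinuousAt (fun u => Y u) 0 ∧
      (∃ C : ℝ, ∀ᶠ u in 𝓝 (0 : EE n), |(inner ℝ z (Y u) : ℝ)| ≤ C * |(inner ℝ z u : ℝ)|) ∧
      (∀ᶠ u in 𝓝 (0 : EE n), 0 < (inner ℝ z u : ℝ) →
        (inner ℝ z u : ℝ) ^ (k - 2) • Y u =
          (inner ℝ z (V (blow z u)) : ℝ) • z +
            ((inner ℝ z u : ℝ)⁻¹ • V (blow z u) -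
              ((inner ℝ z u : ℝ)⁻¹ ^ 2 * inner ℝ z (V (blow z u))) • blow z u)) := by
  obtain ⟨Ψ, hΨ, hΨ1, hΨ2⟩ := psi_exists k F h.anF h.F0 hk z hz
  have hk2 := hk.1
  have hzz : (inner ℝ z z : ℝ) = 1 := by rw [real_inner_self_eq_norm_sq, hz, one_pow]
  have hblow0 : blow z (0 : EE n) = 0 := blow_zero_of z 0 (inner_zero_right z)
  obtain ⟨Φ, hΦdef⟩ : ∃ Φ : EE n → EE n, ∀ u, Φ u = -(B (blow z u)) (Ψ u) := ⟨_, fun _ => rfl⟩
  have hΦ : ContDiffAt ℝ 1 Φ 0 := by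
    have hΦf : Φ = fun u => -(B (blow z u)) (Ψ u) := funext hΦdef
    rw [hΦf]
    have h1 : ContDiffAt ℝ 1 (fun u => B (blow z u)) 0 := by
      refine ContDiffAt.comp (g := B) (f := blow z) (0 : EE n) ?_ (blow_analytic z 0).contDiffAt
      rw [hblow0]
      exact h.cB
    exact (h1.clm_apply hΨ.contDiffAt).neg
  have hP := lead_analytic k F 0 z
  -- value at 0
  have hΨ0 : Ψ 0 = gradient (lead k F 0) z := by
    have := hΨ2.self_of_nhds (inner_zero_right z)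
    rwa [add_zero] at this
  have hΦ0 : Φ 0 = -gradient (lead k F 0) z := by
    rw [hΦdef, hblow0, h.B0, hΨ0]
    rfl
  have hc0 : (inner ℝ z (Φ 0) : ℝ) = -(k * lead k F 0 z) := by
    rw [hΦ0, inner_neg_right, real_inner_comm, inner_gradient, lead_euler]
  -- derivative along y ⊥ z
  have hDΦ : ∀ y y' : EE n, inner ℝ z y = 0 →
      inner ℝ (fderiv ℝ Φ 0 y) y' = -(fderiv ℝ (fderiv ℝ (lead k F 0)) z y y') := by
    intro y y' hy
    have hl : HasDerivAt (fun t : ℝ => t • y) ((1 : ℝ) • y) 0 := (hasDerivAt_id (0 : ℝ)).smul_const y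
    have hΦd : HasFDerivAt Φ (fderiv ℝ Φ 0) ((0 : ℝ) • y) := by
      rw [zero_smul]
      exact (hΦ.differentiableAt one_ne_zero).hasFDerivAt
    have hΦl : HasDerivAt (fun t : ℝ => Φ (t • y)) (fderiv ℝ Φ 0 ((1 : ℝ) • y)) 0 :=
      hΦd.comp_hasDerivAt (0 : ℝ) hl
    rw [one_smul] at hΦl
    have h1 : HasDerivAt (fun t : ℝ => (inner ℝ (Φ (t • y)) y' : ℝ))
        (inner ℝ (fderiv ℝ Φ 0 y) y') 0 := by
      have := hΦl.inner ℝ (hasDerivAt_const (0 : ℝ) y')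
      simpa using this
    have hzl : HasDerivAt (fun t : ℝ => z + t • y) ((1 : ℝ) • y) 0 := hl.const_add z
    have hPd : HasFDerivAt (fderiv ℝ (lead k F 0)) (fderiv ℝ (fderiv ℝ (lead k F 0)) z)
        (z + (0 : ℝ) • y) := by
      rw [zero_smul, add_zero]
      exact hP.fderiv.differentiableAt.hasFDerivAt
    have h2 : HasDerivAt (fun t : ℝ => fderiv ℝ (lead k F 0) (z + t • y))
        (fderiv ℝ (fderiv ℝ (lead k F 0)) z ((1 : ℝ) • y)) 0 :=
      hPd.comp_hasDerivAt (0 : ℝ) hzl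
    rw [one_smul] at h2
    have h3 : HasDerivAt (fun t : ℝ => -(fderiv ℝ (lead k F 0) (z + t • y) y'))
        (-(fderiv ℝ (fderiv ℝ (lead k F 0)) z y y')) 0 := by
      have h3' : HasDerivAt (fun t : ℝ => fderiv ℝ (lead k F 0) (z + t • y) y')
          (fderiv ℝ (fderiv ℝ (lead k F 0)) z y y') 0 := by
        have := h2.clm_apply (hasDerivAt_const (0 : ℝ) y')
        simpa using this
      exact h3'.fun_neg
    have hev : (fun t : ℝ => (inner ℝ (Φ (t • y)) y' : ℝ)) =ᶠ[𝓝 0]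
        fun t : ℝ => -(fderiv ℝ (lead k F 0) (z + t • y) y') := by
      have ht : Tendsto (fun t : ℝ => t • y) (𝓝 0) (𝓝 0) := by
        have hc : Continuous fun t : ℝ => t • y := by fun_prop
        have := hc.tendsto 0
        rwa [zero_smul] at this
      filter_upwards [ht.eventually hΨ2] with t h4
      have h5 : inner ℝ z (t • y) = 0 := by
        rw [inner_smul_right, hy, mul_zero]
      have h6 := h4 h5
      rw [hΦdef, blow_zero_of z _ h5, h.B0, h6, ContinuousLinearMap.id_apply, inner_neg_left,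
        inner_gradient]
    exact h1.unique (h3.congr_of_eventuallyEq hev)
  have hYc := yy_contDiffAt z hΦ
  have hYs : HasStrictFDerivAt (yy z Φ) (fderiv ℝ (yy z Φ) 0) 0 := hYc.hasStrictFDerivAt one_ne_zero
  refine ⟨yy z Φ, fderiv ℝ (yy z Φ) 0, fderiv ℝ Φ 0 z - (inner ℝ z (fderiv ℝ Φ 0 z) : ℝ) • z,
    hYs, ?_, ?_, ?_, ?_, hYc.continuousAt, ?_, ?_⟩
  · rw [inner_sub_right, inner_smul_right, hzz]
    ring
  · rw [yy_fderiv z hΦ, hzz, one_mul, one_smul, sub_self, smul_zero, sub_zero, hc0, neg_smul]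
  · intro y hy
    rw [yy_fderiv z hΦ, hy]
    simp only [inner_add_right, inner_sub_right, inner_smul_right, hzz, hy]
    ring
  · intro y y' hy hy'
    rw [yy_fderiv z hΦ, hy, hc0, zero_mul, zero_smul, zero_add, sub_zero,
      inner_sub_left, inner_sub_left, inner_smul_left, inner_smul_left, hy', hDΦ y y' hy]
    simp only [conj_trivial]
    ring
  · refine ⟨|(inner ℝ z (Φ 0) : ℝ)| + 1, ?_⟩
    have hcont : ContinuousAt (fun u => |(inner ℝ z (Φ u) : ℝ)|) 0 :=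
      (continuousAt_const.inner (𝕜 := ℝ) hΦ.continuousAt).abs
    have h1 : ∀ᶠ u in 𝓝 (0 : EE n), |(inner ℝ z (Φ u) : ℝ)| < |(inner ℝ z (Φ 0) : ℝ)| + 1 :=
      hcont.eventually_lt continuousAt_const (lt_add_one _)
    filter_upwards [h1] with u hu
    rw [yy_inner z hz, abs_mul, mul_comm]
    exact mul_le_mul_of_nonneg_right hu.le (abs_nonneg _)
  · have ht : Tendsto (blow z) (𝓝 0) (𝓝 0) := by
      have := (blow_analytic z 0).continuousAt.tendsto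
      rwa [hblow0] at this
    filter_upwards [ht.eventually h.eq, hΨ1] with u h1 h2 hs
    obtain ⟨j, hj⟩ : ∃ j, k = j + 2 := ⟨k - 2, by omega⟩
    have hW : V (blow z u) = (inner ℝ z u : ℝ) ^ (j + 1) • Φ u := by
      rw [h1, h2, map_smul, ← smul_neg, show k - 1 = j + 1 by omega, ← hΦdef]
    rw [hW, show k - 2 = j by omega]
    set σ : ℝ := inner ℝ z u with hσ
    have hσ0 : σ ≠ 0 := hs.ne'
    have hx : blow z u = σ • (z + (u - σ • z)) := rfl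
    rw [hx, inner_smul_right]
    unfold yy
    rw [← hσ]
    set a : ℝ := inner ℝ z (Φ u) with ha
    have e1 : σ⁻¹ * σ ^ (j + 1) = σ ^ j := by
      rw [pow_succ]
      field_simp
    have e2 : σ⁻¹ ^ 2 * (σ ^ (j + 1) * a) * σ = σ ^ j * a := by
      have e3 : σ ^ (j + 1) = σ ^ j * σ := pow_succ _ _
      rw [e3]
      field_simp
    rw [smul_smul, smul_smul, e1, e2, pow_succ]
    module

end Pool.Agent.helper62.GF
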