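import Pool.Agent.helper62.GF.NDefs

/-!
# GF-N06: change of time

`τ t = ∫_0^t ω`, `C¹` on `[0, ∞)` with derivative `ω > 0` (extend `ω` to `t < 0` by `ω 0`, i.e. use
`ω (max t 0)`, which is continuous on `ℝ`: then `τ` is a `C¹` strictly increasing function on `ℝ`), `τ 0 = 0`, `τ → ∞`
by `hdiv`.  So `τ` is a bijection of `[0,∞)` onto `[0,∞)` with inverse `σ`, `σ' = 1/ω(σ)`
(`HasDerivAt.of_local_left_inverse`, or `StrictMono.orderIso`/`HasStrictDerivAt.to_localInverse`).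
`η = γ ∘ σ` has `η' = γ'(σ)/ω(σ) = Y (η)`.
`hdiv` is used in the form: `τ` is unbounded.  Here it is supplied by a function `ℓ → -∞` with `|ℓ'| ≤ C ω`:
`ℓ t - ℓ 0 ≥ -C τ t`, so `τ t → ∞`.

author: helper59
-/

open Filter Topology Set MeasureTheory

namespace Pool.Agent.helper62.GF

variable {n : ℕ}

/-- the new time as an order isomorphism of the line -/
private theorem N06_iso (ω₀ : ℝ → ℝ) (hc : Continuous ω₀) (hpos : ∀ t, 0 < ω₀ t)
    (hneg : ∀ t, t ≤ 0 → ω₀ t = ω₀ 0)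
    (ℓ ℓ' : ℝ → ℝ) (hℓ : ∀ t, 0 ≤ t → HasDerivWithinAt ℓ (ℓ' t) (Ici 0) t) (C : ℝ)
    (hC : ∀ t, 0 ≤ t → |ℓ' t| ≤ C * ω₀ t) (hlim : Tendsto ℓ atTop atBot) :
    ∃ T : ℝ ≃o ℝ, T 0 = 0 ∧ ∀ t, HasDerivAt T (ω₀ t) t := by
  obtain ⟨τ, hτ⟩ : ∃ τ : ℝ → ℝ, τ = fun t => ∫ s in (0 : ℝ)..t, ω₀ s := ⟨_, rfl⟩
  have hd : ∀ t, HasDerivAt τ (ω₀ t) t := by
    intro t
    rw [hτ]
    exact (hc.integral_hasStrictDerivAt 0 t).hasDerivAt
  have h0 : τ 0 = 0 := by
    rw [hτ]
    exact intervalIntegral.integral_same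
  have hcont : Continuous τ := continuous_iff_continuousAt.2 fun t => (hd t).continuousAt
  have hmono : StrictMono τ := strictMono_of_deriv_pos fun t => by
    rw [(hd t).deriv]
    exact hpos t
  have hmonof : MonotoneOn (fun t => ℓ t + C * τ t) (Ici 0) := by
    have hdf : ∀ t ∈ Ici (0 : ℝ), HasDerivWithinAt (fun t => ℓ t + C * τ t) (ℓ' t + C * ω₀ t)
        (Ici 0) t := fun t ht => (hℓ t ht).add ((hd t).const_mul C).hasDerivWithinAt
    refine monotoneOn_of_hasDerivWithinAt_nonneg (f' := fun t => ℓ' t + C * ω₀ t) (convex_Ici 0)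
      (fun t ht => (hdf t ht).continuousWithinAt)
      (fun t ht => (hdf t (interior_subset ht)).mono interior_subset) fun t ht => ?_
    have := (abs_le.1 (hC t (interior_subset ht))).1
    show 0 ≤ ℓ' t + C * ω₀ t
    linarith
  have hge : ∀ t, 0 ≤ t → ℓ 0 - ℓ t ≤ C * τ t := by
    intro t ht
    have := hmonof (mem_Ici.2 le_rfl) (mem_Ici.2 ht) ht
    simp only at this
    rw [h0] at this
    linarith
  have hCpos : 0 < C := by
    have h1 := (abs_nonneg _).trans (hC 0 le_rfl)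
    rcases lt_trichotomy C 0 with h2 | h2 | h2
    · have := mul_neg_of_neg_of_pos h2 (hpos 0)
      linarith
    · exfalso
      obtain ⟨t, ht, ht0⟩ := ((hlim.eventually (eventually_lt_atBot (ℓ 0))).and
        (eventually_ge_atTop 0)).exists
      have := hge t ht0
      rw [h2, zero_mul] at this
      linarith
    · exact h2
  have htop : Tendsto τ atTop atTop := by
    have h1 : Tendsto (fun t => (ℓ 0 - ℓ t) / C) atTop atTop := by
      apply Tendsto.atTop_div_const hCpos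
      have : Tendsto (fun t => ℓ 0 + -ℓ t) atTop atTop :=
        tendsto_atTop_add_const_left _ _ (tendsto_neg_atBot_atTop.comp hlim)
      simpa only [sub_eq_add_neg] using this
    refine tendsto_atTop_mono' _ ?_ h1
    filter_upwards [eventually_ge_atTop 0] with t ht
    rw [div_le_iff₀ hCpos]
    have := hge t ht
    linarith
  have hbot : Tendsto τ atBot atBot := by
    have h1 : Tendsto (fun t : ℝ => ω₀ 0 * t) atBot atBot :=
      Tendsto.const_mul_atBot (hpos 0) tendsto_id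
    refine h1.congr' ?_
    filter_upwards [eventually_le_atBot 0] with t ht
    rw [hτ]
    show ω₀ 0 * t = ∫ s in (0 : ℝ)..t, ω₀ s
    have h2 : ∫ s in (0 : ℝ)..t, ω₀ s = ∫ s in (0 : ℝ)..t, ω₀ 0 := by
      apply intervalIntegral.integral_congr
      intro s hs
      rw [uIcc_of_ge ht] at hs
      exact hneg s hs.2
    rw [h2, intervalIntegral.integral_const, smul_eq_mul]
    ring
  have hsurj : Function.Surjective τ := hcont.surjective htop hbot
  exact ⟨StrictMono.orderIsoOfSurjective τ hmono hsurj, h0, hd⟩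

theorem time_change (Y : EE n → EE n) (γ : ℝ → EE n) (ω : ℝ → ℝ) (hω : ContinuousOn ω (Ici 0))
    (hpos : ∀ t, 0 ≤ t → 0 < ω t)
    (hγ : ∀ t, 0 ≤ t → HasDerivWithinAt γ (ω t • Y (γ t)) (Ici 0) t)
    (ℓ ℓ' : ℝ → ℝ) (hℓ : ∀ t, 0 ≤ t → HasDerivWithinAt ℓ (ℓ' t) (Ici 0) t) (C : ℝ)
    (hC : ∀ t, 0 ≤ t → |ℓ' t| ≤ C * ω t) (hlim : Tendsto ℓ atTop atBot) :
    ∃ η : ℝ → EE n, η 0 = γ 0 ∧ IsTraj Y η ∧ ∀ τ, 0 ≤ τ → ∃ t, 0 ≤ t ∧ η τ = γ t := by
  have hc : Continuous fun t : ℝ => ω (max t 0) := by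
    apply hω.comp_continuous (by fun_prop)
    intro t
    exact mem_Ici.2 (le_max_right _ _)
  obtain ⟨T, hT0, hT⟩ := N06_iso (fun t => ω (max t 0)) hc (fun t => hpos _ (le_max_right _ _))
    (fun t ht => by
      show ω (max t 0) = ω (max 0 0)
      rw [max_eq_right ht, max_self]) ℓ ℓ' hℓ C
    (fun t ht => by
      show |ℓ' t| ≤ C * ω (max t 0)
      rw [max_eq_left ht]
      exact hC t ht) hlim
  have hs0 : T.symm 0 = 0 := by
    rw [← hT0, OrderIso.symm_apply_apply, hT0]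
  have hnn : ∀ s, 0 ≤ s → 0 ≤ T.symm s := by
    intro s hs
    rw [← hs0]
    exact T.symm.monotone hs
  have hds : ∀ s, HasDerivAt T.symm (ω (max (T.symm s) 0))⁻¹ s := fun s =>
    HasDerivAt.of_local_left_inverse (T.symm.continuous.continuousAt) (hT _)
      (hpos _ (le_max_right _ _)).ne' (Eventually.of_forall fun y => T.apply_symm_apply y)
  refine ⟨fun s => γ (T.symm s), ?_, ?_, fun s hs => ⟨T.symm s, hnn s hs, rfl⟩⟩
  · show γ (T.symm 0) = γ 0
    rw [hs0]
  · intro s hs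
    have h1 := HasDerivWithinAt.scomp s (hγ (T.symm s) (hnn s hs))
      ((hds s).hasDerivWithinAt (s := Ici 0)) (fun y hy => hnn y hy)
    rw [max_eq_left (hnn s hs), smul_smul, inv_mul_cancel₀ (hpos _ (hnn s hs)).ne', one_smul] at h1
    exact h1

end Pool.Agent.helper62.GF
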