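import Pool.Agent.helper62.GF.N02
import Pool.Agent.helper62.GF.N05
import Pool.Agent.helper62.GF.N06

/-!
# GF-N07: trajectories converging to the origin inside a thin sector form a null set

Take `Y, L, w` from `blow_field`, `v` from the negative second derivative (`hneg`), `b` from `blow_form`
(`κ = k P(z) ≥ 0`; `⟪L v, v⟫ = -D²P(z)(v,v) + k P(z) ‖v‖² > 0`; symmetry of `D²P(z)`), and `ρ` from `stay_null`
(shrunk, `stay_mono`, so that the identities of `blow_field` hold for `‖u‖ ≤ ρ` and `V (blow z u)` is the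
right field).  Let `γ` be a trajectory of `V` in the sector, `u t = blowInv z (γ t)`, `s t = ⟪z, γ t⟫ > 0`.
Then (`blow z (u t) = γ t`) `u' = s^{k-2} Y(u)`, by the last identity of `blow_field`
(`d/dt (s⁻¹ γ) = s⁻¹ V - s⁻² ⟪z, V⟫ γ`).  Also `ℓ = log s → -∞` (`γ → 0`), and
`ℓ' = ⟪z, V⟫/s = s^{k-2} ⟪z, Y u⟫ / s`, `|ℓ'| ≤ C s^{k-2}`.  `time_change` with `ω = s^{k-2}` gives a trajectory `η`
of `Y` with `η 0 = u 0` in the ball of radius `ρ`: so `u 0 ∈ stay Y 0 ρ`, null.  The set of the statement is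
contained in the image under `blow z` (smooth) of this null set:
`MeasureTheory.addHaar_image_eq_zero_of_differentiableOn_of_addHaar_eq_zero`.
-/

open Filter Topology Set MeasureTheory

namespace Pool.Agent.helper62.GF

variable {n : ℕ}

/-- symmetry of the second derivative of the leading form -/
theorem N07_symm (k : ℕ) (F : EE n → ℝ) (z a b : EE n) :
    fderiv ℝ (fderiv ℝ (lead k F 0)) z a b = fderiv ℝ (fderiv ℝ (lead k F 0)) z b a := by
  have h1 : ContDiffAt ℝ ⊤ (lead k F 0) z := (lead_analytic k F 0 z).contDiffAt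
  exact (h1.isSymmSndFDerivAt_of_omega).eq a b

theorem sector_null (k : ℕ) (F : EE n → ℝ) (V : EE n → EE n) (B : EE n → (EE n →L[ℝ] EE n))
    (h : NormData F V B) (hk : HasOrd k F 0) (z : EE n) (hz : ‖z‖ = 1)
    (hcrit : ∀ v : EE n, inner ℝ z v = 0 → fderiv ℝ (lead k F 0) z v = 0)
    (hnn : 0 ≤ lead k F 0 z) (v : EE n) (hv : inner ℝ z v = 0)
    (hneg : fderiv ℝ (fderiv ℝ (lead k F 0)) z v v - k * lead k F 0 z * ‖v‖ ^ 2 < 0) :
    ∃ ρ : ℝ, 0 < ρ ∧ volume {x : EE n | ∃ γ : ℝ → EE n, γ 0 = x ∧ IsTraj V γ ∧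
      Tendsto γ atTop (𝓝 0) ∧ ∀ t, 0 ≤ t → 0 < (inner ℝ z (γ t) : ℝ) ∧ ‖blowInv z (γ t)‖ ≤ ρ} = 0 := by
  obtain ⟨Y, L, w, hYL, hzw, hLz, hLy, hform, hYc, ⟨C, hC⟩, hid⟩ := blow_field k F V B h hk z hz hcrit
  have hsymm : ∀ y y' : EE n, inner ℝ z y = 0 → inner ℝ z y' = 0 →
      (inner ℝ (L y) y' : ℝ) = inner ℝ y (L y') := by
    intro y y' hy hy'
    rw [real_inner_comm (L y') y, hform y y' hy hy', hform y' y hy' hy, N07_symm k F z y y',
      real_inner_comm y y']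
  have hpos : 0 < (inner ℝ (L v) v : ℝ) := by
    rw [hform v v hv hv, real_inner_self_eq_norm_sq]
    linarith
  obtain ⟨b, hb1, hb2, hb3⟩ := blow_form z hz L (k * lead k F 0 z)
    (mul_nonneg (Nat.cast_nonneg k) hnn) w hzw hLz hLy hsymm v hv hpos
  obtain ⟨ρ₀, hρ₀, hnull⟩ := stay_null Y L hYL b hb1 hb2 v hb3
  obtain ⟨r, hr, hball⟩ := Metric.eventually_nhds_iff_ball.1 (hC.and hid)
  set ρ : ℝ := min ρ₀ (r / 2) with hρdef
  have hρ : 0 < ρ := lt_min hρ₀ (half_pos hr)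
  have hρr : ρ < r := lt_of_le_of_lt (min_le_right _ _) (half_lt_self hr)
  have hnull' : volume (stay Y 0 ρ) = 0 :=
    measure_mono_null (stay_mono Y 0 (min_le_left _ _)) hnull
  refine ⟨ρ, hρ, ?_⟩
  have himg : volume (blow z '' stay Y 0 ρ) = 0 :=
    addHaar_image_eq_zero_of_differentiableOn_of_addHaar_eq_zero volume
      (fun u _ => (blow_analytic z u).differentiableAt.differentiableWithinAt) hnull'
  refine measure_mono_null ?_ himg
  rintro x ⟨γ, rfl, hγ, hlim, hsec⟩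
  have hs0 : ∀ t, 0 ≤ t → 0 < (inner ℝ z (γ t) : ℝ) := fun t ht => (hsec t ht).1
  have hub : ∀ t, 0 ≤ t → blowInv z (γ t) ∈ Metric.ball (0 : EE n) r := fun t ht => by
    rw [mem_ball_zero_iff]
    exact lt_of_le_of_lt (hsec t ht).2 hρr
  -- derivative of s
  have hds : ∀ t, 0 ≤ t → HasDerivWithinAt (fun t => (inner ℝ z (γ t) : ℝ))
      (inner ℝ z (V (γ t))) (Ici 0) t := by
    intro t ht
    exact ((innerSL ℝ z).hasFDerivAt (x := γ t)).comp_hasDerivWithinAt t (hγ t ht)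
  have hdinv : ∀ t, 0 ≤ t → HasDerivWithinAt (fun t => (inner ℝ z (γ t) : ℝ)⁻¹)
      (-(inner ℝ z (V (γ t))) / (inner ℝ z (γ t) : ℝ) ^ 2) (Ici 0) t := by
    intro t ht
    exact (hds t ht).inv (hs0 t ht).ne'
  -- the identity
  have hidt : ∀ t, 0 ≤ t → (inner ℝ z (γ t) : ℝ) ^ (k - 2) • Y (blowInv z (γ t)) =
      (inner ℝ z (V (γ t)) : ℝ) • z + ((inner ℝ z (γ t) : ℝ)⁻¹ • V (γ t) -
        ((inner ℝ z (γ t) : ℝ)⁻¹ ^ 2 * inner ℝ z (V (γ t))) • γ t) := by
    intro t ht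
    have h1 := (hball _ (hub t ht)).2
    rw [inner_blowInv z (γ t) hz (hs0 t ht).ne', blow_blowInv z (γ t) hz (hs0 t ht).ne'] at h1
    exact h1 (hs0 t ht)
  have hdu : ∀ t, 0 ≤ t → HasDerivWithinAt (fun t => blowInv z (γ t))
      ((inner ℝ z (γ t) : ℝ) ^ (k - 2) • Y (blowInv z (γ t))) (Ici 0) t := by
    intro t ht
    rw [hidt t ht]
    have h1 := ((hds t ht).smul_const z).add (((hdinv t ht).smul (hγ t ht)).sub_const z)
    unfold blowInv
    refine h1.congr_deriv ?_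
    have hne := (hs0 t ht).ne'
    congr 1
    rw [sub_eq_add_neg, ← neg_smul]
    congr 2
    field_simp
  have hcs : ContinuousOn (fun t => (inner ℝ z (γ t) : ℝ) ^ (k - 2)) (Ici 0) := by
    intro t ht
    exact ((hds t ht).continuousWithinAt).pow _
  have hinnerY : ∀ t, 0 ≤ t → (inner ℝ z (V (γ t)) : ℝ) =
      (inner ℝ z (γ t) : ℝ) ^ (k - 2) * inner ℝ z (Y (blowInv z (γ t))) := by
    intro t ht
    have h1 := congrArg (fun y : EE n => (inner ℝ z y : ℝ)) (hidt t ht)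
    simp only [inner_smul_right, inner_add_right, inner_sub_right, real_inner_self_eq_norm_sq, hz] at h1
    have hne := (hs0 t ht).ne'
    rw [h1]
    field_simp
    ring
  obtain ⟨η, hη0, hη1, hη2⟩ := time_change Y (fun t => blowInv z (γ t))
    (fun t => (inner ℝ z (γ t) : ℝ) ^ (k - 2)) hcs (fun t ht => pow_pos (hs0 t ht) _) hdu
    (fun t => Real.log (inner ℝ z (γ t))) (fun t => (inner ℝ z (V (γ t))) / (inner ℝ z (γ t)))
    (fun t ht => (hds t ht).log (hs0 t ht).ne') C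
    (by
      intro t ht
      have hpow : 0 < (inner ℝ z (γ t) : ℝ) ^ (k - 2) := pow_pos (hs0 t ht) _
      have h1 := (hball _ (hub t ht)).1
      rw [inner_blowInv z (γ t) hz (hs0 t ht).ne', abs_of_pos (hs0 t ht)] at h1
      rw [abs_div, abs_of_pos (hs0 t ht), div_le_iff₀ (hs0 t ht), hinnerY t ht, abs_mul,
        abs_of_pos hpow]
      calc _ ≤ (inner ℝ z (γ t) : ℝ) ^ (k - 2) * (C * inner ℝ z (γ t)) :=
            mul_le_mul_of_nonneg_left h1 hpow.le
        _ = _ := by ring)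
    (by
      have h1 : Tendsto (fun t => (inner ℝ z (γ t) : ℝ)) atTop (𝓝 0) := by
        have h2 := ((innerSL ℝ z).continuous.tendsto (0 : EE n)).comp hlim
        rw [map_zero] at h2
        exact h2
      refine Real.tendsto_log_nhdsGT_zero.comp (tendsto_nhdsWithin_iff.2 ⟨h1, ?_⟩)
      filter_upwards [eventually_ge_atTop (0 : ℝ)] with t ht
      exact hs0 t ht)
  refine ⟨blowInv z (γ 0), ⟨η, hη0, hη1, ?_⟩, blow_blowInv z (γ 0) hz (hs0 0 le_rfl).ne'⟩
  intro τ hτ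
  obtain ⟨t, ht, hητ⟩ := hη2 τ hτ
  rw [hητ, sub_zero]
  exact (hsec t ht).2

end Pool.Agent.helper62.GF
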