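import Pool.Agent.helper62.GF.KDefs

/-!
# Project GF, part 3: definitions for the measure part (local, in `EE n`)
-/

open Filter Topology Set MeasureTheory

namespace Pool.Agent.helper62.GF

variable {n : ℕ}

/-- `γ` is a trajectory of `V` on `[0, ∞)` -/
def IsTraj (V : EE n → EE n) (γ : ℝ → EE n) : Prop :=
  ∀ t, 0 ≤ t → HasDerivWithinAt γ (V (γ t)) (Ici 0) t

/-- starting points of trajectories staying in the closed ball of radius `ρ` around `x₀` -/
def stay (V : EE n → EE n) (x₀ : EE n) (ρ : ℝ) : Set (EE n) :=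
  {x | ∃ γ : ℝ → EE n, γ 0 = x ∧ IsTraj V γ ∧ ∀ t, 0 ≤ t → ‖γ t - x₀‖ ≤ ρ}

/-- starting points of trajectories staying in the closed ball and converging to its centre -/
def stayConv (V : EE n → EE n) (x₀ : EE n) (ρ : ℝ) : Set (EE n) :=
  {x | ∃ γ : ℝ → EE n, γ 0 = x ∧ IsTraj V γ ∧ (∀ t, 0 ≤ t → ‖γ t - x₀‖ ≤ ρ) ∧
    Tendsto γ atTop (𝓝 x₀)}

/-- the `k`-th order term of the Taylor expansion of `F` at `x₀` -/
noncomputable def lead (k : ℕ) (F : EE n → ℝ) (x₀ : EE n) (v : EE n) : ℝ :=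
  ((k.factorial : ℕ) : ℝ)⁻¹ * iteratedFDeriv ℝ k F x₀ (fun _ => v)

/-- `F` has order `k ≥ 2` at `x₀`: the derivatives of orders `1, …, k-1` vanish, the `k`-th one does not -/
def HasOrd (k : ℕ) (F : EE n → ℝ) (x₀ : EE n) : Prop :=
  2 ≤ k ∧ (∀ i, 1 ≤ i → i < k → iteratedFDeriv ℝ i F x₀ = 0) ∧ iteratedFDeriv ℝ k F x₀ ≠ 0

/-- Condition (ii) of weak strictness in coordinates with metric `g` at the point: every critical point
`z` of the restriction of `P = lead k F x₀` to the unit sphere of `g` with `P z ≥ 0` has a direction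
of negative second derivative (tested along great circles). -/
def WSCond (k : ℕ) (F : EE n → ℝ) (g : EE n → EE n → ℝ) (x₀ : EE n) : Prop :=
  ∀ z : EE n, g z z = 1 →
    (∀ v : EE n, g z v = 0 → g v v = 1 →
      deriv (fun t : ℝ => lead k F x₀ (Real.cos t • z + Real.sin t • v)) 0 = 0) →
    0 ≤ lead k F x₀ z →
    ∃ v : EE n, g z v = 0 ∧ g v v = 1 ∧
      deriv (deriv (fun t : ℝ => lead k F x₀ (Real.cos t • z + Real.sin t • v))) 0 < 0

/-- the same condition for the Euclidean metric, in terms of derivatives of `P` -/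
def WSEucl (k : ℕ) (F : EE n → ℝ) : Prop :=
  ∀ z : EE n, ‖z‖ = 1 →
    (∀ v : EE n, inner ℝ z v = 0 → fderiv ℝ (lead k F 0) z v = 0) → 0 ≤ lead k F 0 z →
    ∃ v : EE n, inner ℝ z v = 0 ∧
      fderiv ℝ (fderiv ℝ (lead k F 0)) z v v - k * lead k F 0 z * ‖v‖ ^ 2 < 0

/-- Normalised local data at the origin: `V = - B ∇F`, `B` of class `C¹`, `B 0 = id`. -/
structure NormData (F : EE n → ℝ) (V : EE n → EE n) (B : EE n → (EE n →L[ℝ] EE n)) : Prop where
  anF : AnalyticAt ℝ F 0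
  F0 : F 0 = 0
  cB : ContDiffAt ℝ 1 B 0
  B0 : B 0 = ContinuousLinearMap.id ℝ (EE n)
  eq : ∀ᶠ x in 𝓝 (0 : EE n), V x = -(B x (gradient F x))

/-- blow-up map `(s, y) ↦ s (z + y)`, in the form `u = s z + y`, `s = ⟪z, u⟫`, `y ⊥ z` -/
noncomputable def blow (z u : EE n) : EE n := (inner ℝ z u : ℝ) • (z + (u - (inner ℝ z u : ℝ) • z))

/-- inverse of the blow-up map on `⟪z, x⟫ > 0` -/
noncomputable def blowInv (z x : EE n) : EE n :=
  (inner ℝ z x : ℝ) • z + ((inner ℝ z x : ℝ)⁻¹ • x - z)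

end Pool.Agent.helper62.GF
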