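import Mathlib

/-!
# Project GF: elementary definitions used in the final statement

All objects are described in the charts of the manifold; the tangent space at `x` is identified with `ℝⁿ` by
the preferred chart at `x`.
-/

open Filter Topology Set MeasureTheory
open scoped Manifold ContDiff

namespace Pool.Agent.helper62.GFR

/-- the model space -/
abbrev EN (n : ℕ) := EuclideanSpace ℝ (Fin n)

variable {n : ℕ} {M : Type*}

/-- the point of `M` with coordinates `y` in the preferred chart at `p` -/
noncomputable def pt (n : ℕ) [TopologicalSpace M] [ChartedSpace (EN n) M] (p : M) (y : EN n) : M :=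
  (chartAt (EN n) p).symm y

/-- the coordinates of `x` in the preferred chart at `p` -/
noncomputable def co (n : ℕ) [TopologicalSpace M] [ChartedSpace (EN n) M] (p x : M) : EN n :=
  chartAt (EN n) p x

/-- directional derivative of `F` at `y` in the direction `w` -/
noncomputable def dd {E : Type*} [NormedAddCommGroup E] [NormedSpace ℝ E] (F : EN n → E) (y w : EN n) :
    E :=
  fderiv ℝ F y w

/-- the bilinear form with matrix `A` -/
def bil (A : Matrix (Fin n) (Fin n) ℝ) (u v : EN n) : ℝ := ∑ i, ∑ j, A i j * u i * v j

/-- the standard basis vector -/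
noncomputable def bv (n : ℕ) (i : Fin n) : EN n := EuclideanSpace.single i 1

/-- For a family `A` of matrices (`A x` describes a bilinear form on the tangent space at `x` in the preferred
chart at `x`): the `(i, j)` entry of the matrix of this form in the chart at `p`, at the point with
coordinates `y`.  (The derivative of the change of coordinates from the chart at `p` to the chart at the point
is applied to the basis vectors.) -/
noncomputable def localEntry [TopologicalSpace M] [ChartedSpace (EN n) M]
    (A : M → Matrix (Fin n) (Fin n) ℝ) (p : M) (i j : Fin n) (y : EN n) : ℝ :=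
  bil (A (pt n p y)) (dd (fun y' => co n (pt n p y) (pt n p y')) y (bv n i))
    (dd (fun y' => co n (pt n p y) (pt n p y')) y (bv n j))

/-- Real-analytic Riemannian metric: `mat x` is the Gram matrix of the scalar product on the tangent space at
`x` in the preferred chart at `x`; it is positive definite (in particular symmetric), and near every point `p` the
matrix of the metric in the chart at `p` is an analytic function of the coordinates. -/
structure AnalyticMetric (n : ℕ) (M : Type*) [TopologicalSpace M] [ChartedSpace (EN n) M] where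
  mat : M → Matrix (Fin n) (Fin n) ℝ
  posDef : ∀ x, (mat x).PosDef
  analytic : ∀ (p : M) (i j : Fin n), AnalyticAt ℝ (localEntry mat p i j) (co n p p)

/-- the function `f` read in the preferred chart at `p` -/
noncomputable def coordFn (n : ℕ) [TopologicalSpace M] [ChartedSpace (EN n) M] (f : M → ℝ) (p : M)
    (y : EN n) : ℝ :=
  f (pt n p y)

/-- Trajectories of `-∇f` on `[0, ∞)`: the curve is continuous and at every time `t`, in the chart at `x = γ t`,
it has a derivative `v` with `g_x(v, w) = - df_x(w)` for all `w`, i.e. `v = -∇f(x)`. -/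
def IsFlowLine [TopologicalSpace M] [ChartedSpace (EN n) M] (g : AnalyticMetric n M)
    (f : M → ℝ) (γ : ℝ → M) : Prop :=
  ContinuousOn γ (Ici 0) ∧ ∀ t : ℝ, 0 ≤ t → ∃ v : EN n,
    HasDerivWithinAt (fun s => co n (γ t) (γ s)) v (Ici 0) t ∧
    ∀ w : EN n, bil (g.mat (γ t)) v w = -(dd (coordFn n f (γ t)) (co n (γ t) (γ t)) w)

/-- the set `W^s_-(C)`: starting points of trajectories `γ` of `-∇f` defined on `[0, ∞)` with
`inf_{t ≥ 0} dist (γ t, C) = 0` -/
def stableSet [MetricSpace M] [ChartedSpace (EN n) M] (g : AnalyticMetric n M) (f : M → ℝ)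
    (C : Set M) : Set M :=
  {w₀ | ∃ γ : ℝ → M, γ 0 = w₀ ∧ IsFlowLine g f γ ∧
    ∀ ε : ℝ, 0 < ε → ∃ t : ℝ, 0 ≤ t ∧ ∃ q ∈ C, dist (γ t) q < ε}

/-- all partial derivatives of order `i` of `F` vanish at `y` -/
def DerivZero (i : ℕ) (F : EN n → ℝ) (y : EN n) : Prop := iteratedFDeriv ℝ i F y = 0

/-- `f` attains its value at `w` with order exactly `k - 1`, `k ≥ 2`: the derivatives of orders
`1, …, k - 1` vanish at `w` and the `k`-th derivative does not -/
def HasOrder (n : ℕ) [TopologicalSpace M] [ChartedSpace (EN n) M] (f : M → ℝ) (w : M) (k : ℕ) :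
    Prop :=
  2 ≤ k ∧ (∀ i, 1 ≤ i → i < k → DerivZero i (coordFn n f w) (co n w w)) ∧
    ¬ DerivZero k (coordFn n f w) (co n w w)

/-- the homogeneous polynomial `P` on the tangent space at `w`: the term of degree `k` of the Taylor
expansion of `f` at `w` -/
noncomputable def leadForm (n : ℕ) [TopologicalSpace M] [ChartedSpace (EN n) M] (f : M → ℝ) (w : M)
    (k : ℕ) (v : EN n) : ℝ :=
  ((k.factorial : ℕ) : ℝ)⁻¹ * iteratedFDeriv ℝ k (coordFn n f w) (co n w w) (fun _ => v)

/-- the great circle `t ↦ cos t • z + sin t • v` -/
noncomputable def circ (z v : EN n) (t : ℝ) : EN n := Real.cos t • z + Real.sin t • v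

/-- `z` is a critical point of the restriction `p` of `P` to the unit sphere of the scalar product `b`:
the derivative of `p` along every unit speed great circle through `z` vanishes at `z` -/
def IsCritOnSphere (b : EN n → EN n → ℝ) (P : EN n → ℝ) (z : EN n) : Prop :=
  b z z = 1 ∧ ∀ v : EN n, b z v = 0 → b v v = 1 → deriv (fun t : ℝ => P (circ z v t)) 0 = 0

/-- the Morse index of `p` at the critical point `z` is positive: the Hessian of `p` at `z`, computed along
unit speed great circles, is negative in some direction -/
def PosMorseIndex (b : EN n → EN n → ℝ) (P : EN n → ℝ) (z : EN n) : Prop :=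
  ∃ v : EN n, b z v = 0 ∧ b v v = 1 ∧ deriv (deriv (fun t : ℝ => P (circ z v t))) 0 < 0

/-- conditions (i) and (ii) of the definition of a weakly strict point -/
def IsWeaklyStrict [TopologicalSpace M] [ChartedSpace (EN n) M] (g : AnalyticMetric n M)
    (f : M → ℝ) (w : M) : Prop :=
  ∃ k : ℕ, HasOrder n f w k ∧ ∀ z : EN n,
    IsCritOnSphere (bil (g.mat w)) (leadForm n f w k) z → 0 ≤ leadForm n f w k z →
      PosMorseIndex (bil (g.mat w)) (leadForm n f w k) z

/-- measure zero: Lebesgue-null in every chart of the analytic atlas -/
def IsNull (n : ℕ) [TopologicalSpace M] [ChartedSpace (EN n) M] (S : Set M) : Prop :=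
  ∀ e ∈ IsManifold.maximalAtlas (𝓡 n) ω M, volume (e '' (e.source ∩ S)) = 0

end Pool.Agent.helper62.GFR
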