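import Pool.Agent.helper62.GF.G06
import Pool.Agent.helper62.GF.RDefs

/-!
# GF-R01: from the elementary definitions to Mathlib's Riemannian metrics, pointwise facts
-/

open Filter Topology Set MeasureTheory Bundle
open scoped Manifold ContDiff

namespace Pool.Agent.helper62.GFR

variable {n : ℕ}

/-- coordinate functional -/
noncomputable def prj (n : ℕ) (i : Fin n) : EN n →L[ℝ] ℝ :=
  PiLp.proj (𝕜 := ℝ) 2 (fun _ : Fin n => ℝ) i

theorem prj_apply (i : Fin n) (u : EN n) : prj n i u = u i := rfl

/-- the bilinear form of a matrix as a continuous bilinear map -/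
noncomputable def bilL (A : Matrix (Fin n) (Fin n) ℝ) : EN n →L[ℝ] EN n →L[ℝ] ℝ :=
  ∑ i, ∑ j, A i j • (prj n i).smulRight (prj n j)

theorem bilL_apply (A : Matrix (Fin n) (Fin n) ℝ) (u v : EN n) : bilL A u v = bil A u v := by
  unfold bilL bil
  simp only [_root_.sum_apply, _root_.smul_apply,
    ContinuousLinearMap.smulRight_apply, prj_apply, smul_eq_mul]
  refine Finset.sum_congr rfl fun i _ => Finset.sum_congr rfl fun j _ => ?_
  ring

theorem bil_symm {A : Matrix (Fin n) (Fin n) ℝ} (hA : A.PosDef) (u v : EN n) :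
    bil A u v = bil A v u := by
  unfold bil
  rw [Finset.sum_comm]
  refine Finset.sum_congr rfl fun i _ => Finset.sum_congr rfl fun j _ => ?_
  have h : A j i = A i j := by
    have := hA.1.apply i j
    simpa using this
  rw [h]
  ring

theorem bil_pos {A : Matrix (Fin n) (Fin n) ℝ} (hA : A.PosDef) (v : EN n) (hv : v ≠ 0) :
    0 < bil A v v := by
  have hv' : (fun i => v i) ≠ (0 : Fin n → ℝ) := by
    intro h
    apply hv
    ext i
    exact congrFun h i
  have h := hA.dotProduct_mulVec_pos hv'
  have e : bil A v v = star (fun i => v i) ⬝ᵥ A.mulVec (fun i => v i) := by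
    simp only [bil, dotProduct, Matrix.mulVec, Finset.mul_sum]
    refine Finset.sum_congr rfl fun i _ => Finset.sum_congr rfl fun j _ => ?_
    show A i j * v i * v j = v i * (A i j * v j)
    ring
  rw [e]
  exact h

/-- the sublevel set of a positive definite form is bounded -/
theorem bil_vonN {A : Matrix (Fin n) (Fin n) ℝ} (hA : A.PosDef) :
    Bornology.IsVonNBounded ℝ {v : EN n | bil A v v < 1} := by
  have hc : Continuous fun v : EN n => bil A v v := by
    have : (fun v : EN n => bil A v v) = fun v => bilL A v v := by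
      ext v
      rw [bilL_apply]
    rw [this]
    fun_prop
  by_cases hS : (Metric.sphere (0 : EN n) 1).Nonempty
  · obtain ⟨z, hz, hmin⟩ := (isCompact_sphere (0 : EN n) 1).exists_isMinOn hS hc.continuousOn
    have hz0 : z ≠ 0 := by
      intro h
      rw [h] at hz
      simp at hz
    have hpos := bil_pos hA z hz0
    set c := bil A z z with hc'
    have key : ∀ v : EN n, c * ‖v‖ ^ 2 ≤ bil A v v := by
      intro v
      by_cases hv : v = 0
      · rw [hv, ← bilL_apply]
        simp
      · have hn : ‖v‖ ≠ 0 := norm_ne_zero_iff.2 hv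
        have h1 : (‖v‖⁻¹ • v) ∈ Metric.sphere (0 : EN n) 1 := by
          simp [norm_smul, hn]
        have h2 : c ≤ bil A (‖v‖⁻¹ • v) (‖v‖⁻¹ • v) := hmin h1
        rw [← bilL_apply, map_smul, map_smul, _root_.smul_apply, bilL_apply, smul_eq_mul,
          smul_eq_mul] at h2
        have h3 : 0 < ‖v‖ ^ 2 := by positivity
        have h4 : bil A v v = ‖v‖ ^ 2 * (‖v‖⁻¹ * (‖v‖⁻¹ * bil A v v)) := by
          field_simp
        rw [h4, mul_comm]
        exact mul_le_mul_of_nonneg_left h2 h3.le
    rw [NormedSpace.isVonNBounded_iff, isBounded_iff_forall_norm_le]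
    refine ⟨Real.sqrt c⁻¹, fun v hv => ?_⟩
    have h5 := key v
    have h6 : bil A v v < 1 := hv
    apply Real.le_sqrt_of_sq_le
    rw [← one_div, le_div_iff₀ hpos]
    linarith
  · have hsub : ∀ v : EN n, v = 0 := by
      intro v
      by_contra hv
      apply hS
      have hn : ‖v‖ ≠ 0 := norm_ne_zero_iff.2 hv
      exact ⟨‖v‖⁻¹ • v, by simp [norm_smul, hn]⟩
    rw [NormedSpace.isVonNBounded_iff, isBounded_iff_forall_norm_le]
    refine ⟨0, fun v _ => ?_⟩
    rw [hsub v]
    simp

/-- Riesz representation for a positive definite form -/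
theorem bil_riesz {A : Matrix (Fin n) (Fin n) ℝ} (hA : A.PosDef) (L : EN n →L[ℝ] ℝ) :
    ∃ X : EN n, ∀ v, bil A X v = L v := by
  let T : EN n →ₗ[ℝ] (EN n →L[ℝ] ℝ) := (bilL A).toLinearMap
  have hinj : Function.Injective T := by
    rw [← LinearMap.ker_eq_bot, LinearMap.ker_eq_bot']
    intro m hm
    by_contra hne
    have h1 := bil_pos hA m hne
    have h2 : bilL A m m = 0 := by
      have : bilL A m = 0 := hm
      rw [this]
      simp
    rw [bilL_apply] at h2
    linarith
  have hdim : Module.finrank ℝ (EN n) = Module.finrank ℝ (EN n →L[ℝ] ℝ) := by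
    have h1 : Module.finrank ℝ (EN n →ₗ[ℝ] ℝ) = Module.finrank ℝ (EN n →L[ℝ] ℝ) :=
      LinearEquiv.finrank_eq LinearMap.toContinuousLinearMap
    rw [← h1, Module.finrank_linearMap]
    simp
  have hfin : FiniteDimensional ℝ (EN n →L[ℝ] ℝ) :=
    LinearEquiv.finiteDimensional (LinearMap.toContinuousLinearMap (𝕜 := ℝ) (E := EN n) (F' := ℝ))
  have hsurj : Function.Surjective T :=
    (LinearMap.injective_iff_surjective_of_finrank_eq_finrank hdim).1 hinj
  obtain ⟨X, hX⟩ := hsurj L
  refine ⟨X, fun v => ?_⟩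
  rw [← bilL_apply]
  show T X v = L v
  rw [hX]

end Pool.Agent.helper62.GFR
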