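import Pool.Agent.helper62.GF.R01

/-!
# GF-R02: from the elementary definition of analytic metrics to Mathlib's Riemannian metrics
-/

open Filter Topology Set MeasureTheory Bundle
open scoped Manifold ContDiff

namespace Pool.Agent.helper62.GFR

variable {n : ℕ} {M : Type*} [TopologicalSpace M] [ChartedSpace (EN n) M]

theorem cd_aux {E F : Type*} [NormedAddCommGroup E] [NormedSpace ℝ E] [NormedAddCommGroup F]
    [NormedSpace ℝ F] (g : E → ℝ) (x : E) (hg : ContDiffAt ℝ ω g x) (B : F) :
    ContDiffAt ℝ ω (fun t : E => g t • B) x :=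
  hg.smul contDiffAt_const

theorem ext_apply (p x : M) : extChartAt (𝓡 n) p x = co n p x := by
  simp only [co, mfld_simps]

theorem ext_symm_apply (p : M) (y : EN n) : (extChartAt (𝓡 n) p).symm y = pt n p y := by
  simp only [pt, mfld_simps]

theorem sum_bv (a : EN n) : a = ∑ i, a i • bv n i := by
  ext j
  simp only [bv, WithLp.ofLp_sum, WithLp.ofLp_smul, Finset.sum_apply, Pi.smul_apply,
    PiLp.single_apply, smul_eq_mul]
  simp

theorem bil_comp (A : Matrix (Fin n) (Fin n) ℝ) (T : EN n →L[ℝ] EN n) (a b : EN n) :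
    bil A (T a) (T b) =
      bil (Matrix.of fun i j => bil A (T (bv n i)) (T (bv n j))) a b := by
  have h1 : T a = ∑ i, a i • T (bv n i) := by
    conv_lhs => rw [sum_bv a]
    rw [map_sum]
    exact Finset.sum_congr rfl fun i _ => by rw [map_smul]
  have h2 : T b = ∑ i, b i • T (bv n i) := by
    conv_lhs => rw [sum_bv b]
    rw [map_sum]
    exact Finset.sum_congr rfl fun i _ => by rw [map_smul]
  rw [← bilL_apply, h1, h2]
  rw [map_sum (bilL A), _root_.sum_apply]
  show _ = ∑ i, ∑ j, (Matrix.of fun i j => bil A (T (bv n i)) (T (bv n j))) i j * a i * b j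
  refine Finset.sum_congr rfl fun i _ => ?_
  rw [map_sum]
  refine Finset.sum_congr rfl fun j _ => ?_
  rw [map_smul, map_smul, _root_.smul_apply, bilL_apply]
  simp only [Matrix.of_apply, smul_eq_mul]
  ring

section
variable [IsManifold (𝓡 n) ω M]

theorem symmL_eq {p x : M} (hx : x ∈ (extChartAt (𝓡 n) p).source) (a : EN n) :
    ((trivializationAt (EN n) (TangentSpace (𝓡 n)) p).symmL ℝ x a : EN n) =
      dd (fun y' => co n x (pt n p y')) (co n p x) a := by
  have hxc : x ∈ (chartAt (EN n) p).source := by rwa [← extChartAt_source (𝓡 n)]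
  rw [TangentBundle.symmL_trivializationAt_eq_core hxc]
  have h1 : ((tangentBundleCore (𝓡 n) M).coordChange (achart (EN n) p) (achart (EN n) x) x : EN n → EN n)
      = tangentCoordChange (𝓡 n) p x x := rfl
  show tangentCoordChange (𝓡 n) p x x a = _
  rw [tangentCoordChange_def]
  have h2 : (extChartAt (𝓡 n) x ∘ (extChartAt (𝓡 n) p).symm) = fun y' => co n x (pt n p y') := by
    ext1 y
    simp only [Function.comp, ext_apply, ext_symm_apply]
  rw [h2, ext_apply, modelWithCornersSelf_coe, range_id, fderivWithin_univ]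
  rfl

theorem localEntry_eq (g : AnalyticMetric n M) {p x : M} (hx : x ∈ (extChartAt (𝓡 n) p).source)
    (a b : EN n) :
    bil (g.mat x) ((trivializationAt (EN n) (TangentSpace (𝓡 n)) p).symmL ℝ x a : EN n)
      ((trivializationAt (EN n) (TangentSpace (𝓡 n)) p).symmL ℝ x b : EN n) =
    bilL (Matrix.of fun i j => localEntry g.mat p i j (co n p x)) a b := by
  rw [symmL_eq hx, symmL_eq hx, bilL_apply]
  have hp : pt n p (co n p x) = x := by
    rw [← ext_apply, ← ext_symm_apply]
    exact (extChartAt (𝓡 n) p).left_inv hx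
  have h := bil_comp (g.mat x) (fderiv ℝ (fun y' => co n x (pt n p y')) (co n p x)) a b
  unfold localEntry
  rw [hp]
  exact h

theorem analytic_bilL (g : AnalyticMetric n M) (p : M) :
    ContDiffAt ℝ ω (fun y => bilL (Matrix.of fun i j => localEntry g.mat p i j y)) (co n p p) := by
  unfold bilL
  simp only [Matrix.of_apply]
  refine ContDiffAt.sum fun i _ => ContDiffAt.sum fun j _ => ?_
  exact cd_aux _ _ (g.analytic p i j).contDiffAt _

theorem metric_contMDiff (g : AnalyticMetric n M) :
    ContMDiff (𝓡 n) ((𝓡 n).prod 𝓘(ℝ, EN n →L[ℝ] EN n →L[ℝ] ℝ)) ω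
      (fun b : M => TotalSpace.mk' (EN n →L[ℝ] EN n →L[ℝ] ℝ)
        (E := fun x : M => TangentSpace (𝓡 n) x →L[ℝ] TangentSpace (𝓡 n) x →L[ℝ] ℝ) b
        (show TangentSpace (𝓡 n) b →L[ℝ] TangentSpace (𝓡 n) b →L[ℝ] ℝ from bilL (g.mat b))) := by
  intro p
  rw [contMDiffAt_hom_bundle]
  refine ⟨contMDiffAt_id, ?_⟩
  have h1 : ContMDiffAt (𝓡 n) 𝓘(ℝ, EN n →L[ℝ] EN n →L[ℝ] ℝ) ω
      (fun x : M => bilL (Matrix.of fun i j => localEntry g.mat p i j (extChartAt (𝓡 n) p x))) p := by
    have h2 := (analytic_bilL g p).contMDiffAt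
    have h3 : ContMDiffAt (𝓡 n) 𝓘(ℝ, EN n) ω (extChartAt (𝓡 n) p) p := contMDiffAt_extChartAt
    exact ContMDiffAt.comp_of_eq (I := 𝓡 n) (x := p) (y := co n p p)
      (f := extChartAt (𝓡 n) p) h2 h3 (ext_apply p p)
  refine h1.congr_of_eventuallyEq ?_
  filter_upwards [extChartAt_source_mem_nhds (I := 𝓡 n) p] with x hx
  ext a b
  have hy := GF.G01_base hx
  rw [ext_apply, ← localEntry_eq g hx a b, inCoordinates_apply_eq₂ hy hy (by simp),
    Trivialization.symmL_apply _ hy, Trivialization.symmL_apply _ hy, ← bilL_apply]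
  simp
  rfl

/-- the metric in Mathlib's sense -/
noncomputable def toRMetric (g : AnalyticMetric n M) : GF.RMetric n M where
  inner x := (bilL (g.mat x) : EN n →L[ℝ] EN n →L[ℝ] ℝ)
  symm x v w := by
    show bilL (g.mat x) (v : EN n) (w : EN n) = bilL (g.mat x) (w : EN n) (v : EN n)
    rw [bilL_apply, bilL_apply]
    exact bil_symm (g.posDef x) _ _
  pos x v hv := by
    show 0 < bilL (g.mat x) (v : EN n) (v : EN n)
    rw [bilL_apply]
    exact bil_pos (g.posDef x) _ hv
  isVonNBounded x := by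
    have h := bil_vonN (g.posDef x)
    simp only [← bilL_apply] at h
    exact h
  contMDiff := metric_contMDiff g

theorem toRMetric_inner (g : AnalyticMetric n M) (x : M) (u v : EN n) :
    (toRMetric g).inner x u v = bil (g.mat x) u v := bilL_apply _ _ _

end

end Pool.Agent.helper62.GFR
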