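import Pool.Agent.helper62.GF.R02

/-!
# GF-R03: gradient, flow lines and weak strictness; the final theorem in elementary terms
-/

open Filter Topology Set MeasureTheory Bundle
open scoped Manifold ContDiff

namespace Pool.Agent.helper62.GFR

variable {n : ℕ} {M : Type*} [TopologicalSpace M] [ChartedSpace (EN n) M] [IsManifold (𝓡 n) ω M]

omit [IsManifold (𝓡 n) ω M] in
theorem locF_eq (f : M → ℝ) (p : M) : GF.locF n f p = coordFn n f p := by
  ext1 y
  show f ((extChartAt (𝓡 n) p).symm y) = f (pt n p y)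
  rw [ext_symm_apply]

omit [IsManifold (𝓡 n) ω M] in
theorem ctr_eq (p : M) : GF.ctr n p = co n p p := ext_apply p p

theorem mfderiv_eq (f : M → ℝ) (hf : ContMDiff (𝓡 n) 𝓘(ℝ, ℝ) ω f) (x : M) (w : EN n) :
    mfderiv (𝓡 n) 𝓘(ℝ, ℝ) f x w = dd (coordFn n f x) (co n x x) w := by
  have h := GF.G01_chain f hf (mem_extChartAt_source (I := 𝓡 n) x) w
  rw [locF_eq, ext_apply] at h
  unfold dd
  rw [h]
  have h2 : (trivializationAt (EN n) (TangentSpace (𝓡 n)) x).symmL ℝ x w = w :=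
    GF.G01_symmL_self x w
  erw [h2]

theorem exists_grad (g : AnalyticMetric n M) (f : M → ℝ) :
    ∃ X : (x : M) → TangentSpace (𝓡 n) x, GF.IsGrad (toRMetric g) f X := by
  have h : ∀ x : M, ∃ X : EN n, ∀ v, bil (g.mat x) X v = mfderiv (𝓡 n) 𝓘(ℝ, ℝ) f x v := fun x =>
    bil_riesz (g.posDef x) (mfderiv (𝓡 n) 𝓘(ℝ, ℝ) f x)
  choose X hX using h
  refine ⟨X, fun x v => ?_⟩
  have h1 := toRMetric_inner g x (X x) v
  exact h1.trans (hX x v)

theorem flow_bridge (g : AnalyticMetric n M) (f : M → ℝ) (hf : ContMDiff (𝓡 n) 𝓘(ℝ, ℝ) ω f)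
    (X : (x : M) → TangentSpace (𝓡 n) x) (hX : GF.IsGrad (toRMetric g) f X) (γ : ℝ → M)
    (h : IsFlowLine g f γ) : GF.IsFlowLine X γ := by
  intro t ht
  obtain ⟨v, hv1, hv2⟩ := h.2 t ht
  let Y : EN n := X (γ t)
  have hvX : v = -Y := by
    have h0 : ∀ w : EN n, bil (g.mat (γ t)) (v + Y) w = 0 := by
      intro w
      have h1 := hv2 w
      have h2 : bil (g.mat (γ t)) Y w = mfderiv (𝓡 n) 𝓘(ℝ, ℝ) f (γ t) w :=
        (toRMetric_inner g (γ t) (X (γ t)) w).symm.trans (hX (γ t) w)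
      rw [mfderiv_eq f hf] at h2
      have h3 : bil (g.mat (γ t)) (v + Y) w =
          bil (g.mat (γ t)) v w + bil (g.mat (γ t)) Y w := by
        rw [← bilL_apply, map_add, _root_.add_apply, bilL_apply, bilL_apply]
      rw [h3, h1, h2]
      ring
    have h4 : v + Y = 0 := by
      by_contra hne
      have := bil_pos (g.posDef (γ t)) _ hne
      rw [h0] at this
      exact lt_irrefl _ this
    exact eq_neg_of_add_eq_zero_left h4
  have h6 : (fun s => co n (γ t) (γ s)) = fun s => extChartAt (𝓡 n) (γ t) (γ s) := by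
    ext1 s
    rw [ext_apply]
  rw [hvX, h6] at hv1
  have h7 : HasFDerivWithinAt (writtenInExtChartAt 𝓘(ℝ, ℝ) (𝓡 n) t γ)
      (ContinuousLinearMap.toSpanSingleton ℝ (-Y))
      ((extChartAt 𝓘(ℝ, ℝ) t).symm ⁻¹' Ici 0 ∩ range 𝓘(ℝ, ℝ)) (extChartAt 𝓘(ℝ, ℝ) t t) := by
    have h8 := hv1.hasFDerivWithinAt
    simp only [writtenInExtChartAt, modelWithCornersSelf_coe, range_id, preimage_id, inter_univ,
      mfld_simps]
    simp only [mfld_simps] at h8
    exact h8
  exact ⟨h.1 t ht, h7⟩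

theorem strict_bridge (g : AnalyticMetric n M) (f : M → ℝ) (w : M) (h : IsWeaklyStrict g f w) :
    GF.WeaklyStrict (toRMetric g) f w := by
  obtain ⟨k, hk, hz⟩ := h
  have hlead : ∀ v : EN n, GF.lead k (GF.locF n f w) (GF.ctr n w) v = leadForm n f w k v := by
    intro v
    rw [locF_eq, ctr_eq]
    rfl
  have hinn : (fun a b : EN n => (toRMetric g).inner w a b) = bil (g.mat w) := by
    funext a b
    exact toRMetric_inner g w a b
  refine ⟨k, ?_, ?_⟩
  · rw [locF_eq, ctr_eq]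
    exact hk
  · have hinn' : (fun a b : GF.EE n => (toRMetric g).inner w a b) = bil (g.mat w) := hinn
    rw [hinn']
    intro z hzz hc hnn
    have hcrit : IsCritOnSphere (bil (g.mat w)) (leadForm n f w k) z := by
      refine ⟨hzz, fun v hv1 hv2 => ?_⟩
      have := hc v hv1 hv2
      simp only [hlead] at this
      exact this
    rw [hlead] at hnn
    obtain ⟨v, hv1, hv2, hv3⟩ := hz z hcrit hnn
    refine ⟨v, hv1, hv2, ?_⟩
    simp only [hlead]
    exact hv3

end Pool.Agent.helper62.GFR
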