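import Pool.Agent.helper62.GF.R03

/-!
# GF-R04: the final theorem in elementary terms
-/

open Filter Topology Set MeasureTheory Bundle
open scoped Manifold ContDiff

namespace Pool.Agent.helper62.GFR

theorem stable_null (n : ℕ) (M : Type*) [MetricSpace M] [SecondCountableTopology M]
    [ChartedSpace (EN n) M] [IsManifold (𝓡 n) ω M] (g : AnalyticMetric n M)
    (f : M → ℝ) (hf : ContMDiff (𝓡 n) 𝓘(ℝ, ℝ) ω f) (C : Set M) (hC : IsCompact C)
    (hw : ∀ w ∈ C, IsWeaklyStrict g f w) : IsNull n (stableSet g f C) := by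
  obtain ⟨X, hX⟩ := exists_grad g f
  have h := GF.main_theorem (toRMetric g) f hf X hX C hC (fun w hwC => strict_bridge g f w (hw w hwC))
  refine GF.nullM_mono ?_ h
  rintro w₀ ⟨γ, h0, h1, h2⟩
  exact ⟨γ, h0, flow_bridge g f hf X hX γ h1, h2⟩

end Pool.Agent.helper62.GFR
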